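import Pool.Agent.Helper98.AAD.Defs

/-!
Project AAD, module A0: the amalgam `G *_{Γ × E} (Γ × F')`.
-/

set_option autoImplicit false

namespace Pool.Agent.Helper98.AAD

open Monoid

section fac

/-- the two factors -/
def A0Fac (A M : Type) : Bool → Type
  | true => A
  | false => M

instance A0Fac.group (A M : Type) [Group A] [Group M] : ∀ b, Group (A0Fac A M b)
  | true => inferInstanceAs (Group A)
  | false => inferInstanceAs (Group M)

variable {A M H : Type} [Group A] [Group M] [Group H]

/-- the two maps -/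
def A0phi (f : H →* A) (g : H →* M) : ∀ b, H →* A0Fac A M b
  | true => f
  | false => g

theorem A0phi_inj {f : H →* A} {g : H →* M} (hf : Function.Injective f)
    (hg : Function.Injective g) : ∀ b, Function.Injective (A0phi f g b)
  | true => hf
  | false => hg

/-- the map of the first factor -/
def A0i (f : H →* A) (g : H →* M) : A →* PushoutI (A0phi f g) :=
  PushoutI.of (φ := A0phi f g) true

/-- the map of the second factor -/
def A0k (f : H →* A) (g : H →* M) : M →* PushoutI (A0phi f g) :=
  PushoutI.of (φ := A0phi f g) false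

theorem A0_base_i (f : H →* A) (g : H →* M) (h : H) :
    A0i f g (f h) = PushoutI.base (A0phi f g) h :=
  PushoutI.of_apply_eq_base (A0phi f g) true h

theorem A0_base_k (f : H →* A) (g : H →* M) (h : H) :
    A0k f g (g h) = PushoutI.base (A0phi f g) h :=
  PushoutI.of_apply_eq_base (A0phi f g) false h

theorem A0_i_inj {f : H →* A} {g : H →* M} (hf : Function.Injective f)
    (hg : Function.Injective g) : Function.Injective (A0i f g) :=
  PushoutI.of_injective (A0phi_inj hf hg) true

theorem A0_k_inj {f : H →* A} {g : H →* M} (hf : Function.Injective f)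
    (hg : Function.Injective g) : Function.Injective (A0k f g) :=
  PushoutI.of_injective (A0phi_inj hf hg) false

theorem A0_inter {f : H →* A} {g : H →* M} (hf : Function.Injective f)
    (hg : Function.Injective g) {m : M} {a : A} (h : A0k f g m = A0i f g a) :
    ∃ y, m = g y ∧ a = f y := by
  have h1 : A0k f g m ∈ (PushoutI.base (A0phi f g)).range := by
    rw [← PushoutI.inf_of_range_eq_base_range (A0phi_inj hf hg) (i := true) (j := false)
      (by decide)]
    exact ⟨⟨a, h.symm⟩, ⟨m, rfl⟩⟩
  obtain ⟨y, hy⟩ := h1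
  refine ⟨y, ?_, ?_⟩
  · apply A0_k_inj hf hg
    rw [A0_base_k, hy]
  · apply A0_i_inj hf hg
    rw [A0_base_i, hy, h]

theorem A0_induction {f : H →* A} {g : H →* M} {P : PushoutI (A0phi f g) → Prop}
    (hi : ∀ a, P (A0i f g a)) (hk : ∀ m, P (A0k f g m)) (hmul : ∀ x y, P x → P y → P (x * y))
    (x : PushoutI (A0phi f g)) : P x := by
  induction x using PushoutI.induction_on with
  | of b x =>
    cases b with
    | true => exact hi x
    | false => exact hk x
  | base h => rw [← A0_base_i]; exact hi _
  | mul x y hx hy => exact hmul x y hx hy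

theorem A0_countable [Countable A] [Countable M] (f : H →* A) (g : H →* M) :
    Countable (PushoutI (A0phi f g)) := by
  have hs : Function.Surjective (fun L : List (A ⊕ M) =>
      (L.map (Sum.elim (A0i f g) (A0k f g))).prod) := by
    intro x
    refine A0_induction (P := fun x => ∃ L : List (A ⊕ M),
      (L.map (Sum.elim (A0i f g) (A0k f g))).prod = x) ?_ ?_ ?_ x
    · intro a
      exact ⟨[Sum.inl a], by simp⟩
    · intro m
      exact ⟨[Sum.inr m], by simp⟩
    · rintro x y ⟨L, rfl⟩ ⟨L', rfl⟩
      exact ⟨L ++ L', by simp⟩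
  exact hs.countable

/-- reduced words do not lie in the base -/
theorem A0_word {f : H →* A} {g : H →* M} (hf : Function.Injective f)
    (hg : Function.Injective g) (w : List (Σ b, A0Fac A M b)) (hne : w ≠ [])
    (hr : ∀ p ∈ w, p.2 ∉ (A0phi f g p.1).range)
    (hc : w.IsChain fun p p' => p.1 ≠ p'.1) :
    (w.map fun p => PushoutI.of (φ := A0phi f g) p.1 p.2).prod ≠ 1 := by
  intro h
  have h1 : ∀ p ∈ w, p.2 ≠ 1 := by
    intro p hp h2
    apply hr p hp
    rw [h2]
    exact one_mem _
  have h2 := PushoutI.Reduced.eq_empty_of_mem_range (A0phi_inj hf hg)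
    (w := (⟨w, h1, hc⟩ : CoprodI.Word (A0Fac A M))) hr (by
      refine ⟨1, ?_⟩
      rw [map_one, ← h]
      simp only [CoprodI.Word.prod, map_list_prod, List.map_map]
      rfl)
  apply hne
  have h3 := congrArg CoprodI.Word.toList h2
  exact h3

end fac

section main

variable {G : Type} [Group G]

theorem A0_sup {Γ E : Subgroup G} (comm : ∀ e ∈ E, ∀ g ∈ Γ, e * g = g * e) {n : G}
    (hn : n ∈ Γ ⊔ E) : ∃ γ ∈ Γ, ∃ e ∈ E, n = γ * e := by
  let f : Γ × E →* G := MonoidHom.noncommCoprod Γ.subtype E.subtype
    (fun g e => (comm e e.2 g g.2).symm)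
  have h1 : Γ ⊔ E ≤ f.range := by
    refine sup_le ?_ ?_
    · intro x hx
      exact ⟨(⟨x, hx⟩, 1), by simp [f]⟩
    · intro x hx
      exact ⟨(1, ⟨x, hx⟩), by simp [f]⟩
  obtain ⟨⟨g, e⟩, h2⟩ := h1 hn
  exact ⟨g, g.2, e, e.2, by rw [← h2]; simp [f]⟩

/-- A0 : the amalgam -/
theorem AE_pure [Countable G] {Γ E : Subgroup G} (comm : ∀ e ∈ E, ∀ g ∈ Γ, e * g = g * e)
    (ab : ∀ e ∈ E, ∀ e' ∈ E, e * e' = e' * e) (dis : ∀ e ∈ E, e ∈ Γ → e = 1)
    (F' : Type) [CommGroup F'] [Countable F'] (j : E →* F') (hj : Function.Injective j) :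
    ∃ (G' : Type) (_ : Group G') (_ : Countable G') (i : G →* G') (k : F' →* G'),
      Function.Injective i ∧ Function.Injective k ∧ (∀ e : E, k (j e) = i e) ∧
      (∀ γ ∈ Γ, ∀ x, k x * i γ = i γ * k x) ∧ (∀ x, k x ∈ i.range → x ∈ j.range) ∧
      RA i.range ((Γ ⊔ E).map i) k.range := by
  classical
  let f : Γ × E →* G := MonoidHom.noncommCoprod Γ.subtype E.subtype
    (fun g e => (comm e e.2 g g.2).symm)
  have hfa : ∀ (g : Γ) (e : E), f (g, e) = (g : G) * e := fun g e => by simp [f]
  let g : Γ × E →* Γ × F' := (MonoidHom.id Γ).prodMap j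
  have hga : ∀ (x : Γ) (e : E), g (x, e) = (x, j e) := fun x e => rfl
  have hf : Function.Injective f := by
    rw [injective_iff_map_eq_one]
    rintro ⟨x, e⟩ h
    rw [hfa] at h
    have h1 : (e : G) = (x : G)⁻¹ := (inv_eq_of_mul_eq_one_right h).symm
    have h2 : (e : G) = 1 := dis e e.2 (by rw [h1]; exact inv_mem x.2)
    rw [h2, mul_one] at h
    exact Prod.ext (Subtype.ext h) (Subtype.ext h2)
  have hg : Function.Injective g := by
    rintro ⟨x, e⟩ ⟨x', e'⟩ h
    rw [hga, hga, Prod.mk.injEq] at h
    exact Prod.ext h.1 (hj h.2)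
  set i : G →* PushoutI (A0phi f g) := A0i f g with hi
  set k0 : Γ × F' →* PushoutI (A0phi f g) := A0k f g with hk0
  let k : F' →* PushoutI (A0phi f g) := k0.comp (MonoidHom.inr Γ F')
  have hka : ∀ x, k x = k0 (1, x) := fun x => rfl
  have hk0i : ∀ (γ : Γ) (e : E), i ((γ : G) * e) = k0 (γ, j e) := by
    intro γ e
    rw [← hfa, ← hga, hi, hk0, A0_base_i, A0_base_k]
  have hkj : ∀ e : E, k (j e) = i e := by
    intro e
    rw [hka, ← hk0i]
    simp
  have hkγ : ∀ (γ : Γ), i γ = k0 (γ, 1) := by
    intro γ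
    have h := hk0i γ 1
    rw [map_one, OneMemClass.coe_one, mul_one] at h
    exact h
  have hkr : ∀ x, k x ∈ i.range → x ∈ j.range := by
    rintro x ⟨a, ha⟩
    obtain ⟨⟨γ, e⟩, h1, -⟩ := A0_inter hf hg (m := ((1 : Γ), x)) (a := a) ha.symm
    rw [hga, Prod.mk.injEq] at h1
    exact ⟨e, h1.2.symm⟩
  have hY : ∀ {n : G}, n ∈ Γ ⊔ E → n ∈ f.range := by
    intro n hn
    obtain ⟨γ, hγ, e, he, rfl⟩ := A0_sup comm hn
    exact ⟨(⟨γ, hγ⟩, ⟨e, he⟩), hfa _ _⟩
  have hY' : ∀ {n : G}, n ∈ f.range → n ∈ Γ ⊔ E := by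
    rintro n ⟨⟨γ, e⟩, rfl⟩
    rw [hfa]
    exact mul_mem (Subgroup.mem_sup_left γ.2) (Subgroup.mem_sup_right e.2)
  refine ⟨PushoutI (A0phi f g), inferInstance, A0_countable f g, i, k, A0_i_inj hf hg, ?_, hkj,
    ?_, hkr, ?_⟩
  · intro x y h
    have h1 := A0_k_inj hf hg (show A0k f g (1, x) = A0k f g (1, y) from h)
    exact (Prod.mk.inj h1).2
  · intro γ hγ x
    rw [hkγ ⟨γ, hγ⟩, hka, ← map_mul, ← map_mul]
    congr 1
    simp
  · refine ⟨?_, ?_, ?_, ?_, ?_⟩
    · rintro _ ⟨n, -, rfl⟩
      exact ⟨n, rfl⟩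
    · rintro _ ⟨x, rfl⟩ _ ⟨n, hn, rfl⟩
      obtain ⟨γ, hγ, e, he, rfl⟩ := A0_sup comm hn
      have h1 : k x * i (γ * e) * (k x)⁻¹ = i (γ * e) := by
        rw [hk0i ⟨γ, hγ⟩ ⟨e, he⟩, hka, ← map_inv, ← map_mul, ← map_mul]
        congr 1
        ext
        · simp
        · simp [mul_comm]
      rw [h1]
      exact ⟨γ * e, hn, rfl⟩
    · rintro _ ⟨x, rfl⟩ hx
      obtain ⟨e, rfl⟩ := hkr x hx
      rw [hkj]
      exact ⟨e, Subgroup.mem_sup_right e.2, rfl⟩
    · rw [eq_top_iff]
      intro x _
      refine A0_induction (P := fun x => x ∈ i.range ⊔ k.range) ?_ ?_ ?_ x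
      · intro a
        exact Subgroup.mem_sup_left ⟨a, rfl⟩
      · rintro ⟨γ, x⟩
        have h1 : A0k f g (γ, x) = i γ * k x := by
          rw [hkγ, hka, ← map_mul]
          simp [hk0]
        rw [h1]
        exact mul_mem (Subgroup.mem_sup_left ⟨γ, rfl⟩) (Subgroup.mem_sup_right ⟨x, rfl⟩)
      · intro x y hx hy
        exact mul_mem hx hy
    · -- the normal form
      have key : ∀ l : List (PushoutI (A0phi f g) × PushoutI (A0phi f g)),
          Rd i.range ((Γ ⊔ E).map i) k.range l → l ≠ [] →
          ∃ (x : F') (rest : List (Σ b, A0Fac G (Γ × F') b)) (xl : G), x ∉ j.range ∧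
            (∀ p ∈ rest, p.2 ∉ (A0phi f g p.1).range) ∧
            (∀ q : A0Fac G (Γ × F') false, List.IsChain (fun p p' : Σ b, A0Fac G (Γ × F') b =>
              p.1 ≠ p'.1) (⟨false, q⟩ :: rest)) ∧
            wp l = k x * (rest.map fun p => PushoutI.of (φ := A0phi f g) p.1 p.2).prod * i xl := by
        intro l
        induction l with
        | nil => intro _ h; exact absurd rfl h
        | cons p l ih =>
          rintro ⟨⟨x, hx⟩, hxY, ⟨a, ha⟩, haY, hl⟩ -
          have hx' : x ∉ j.range := by
            rintro ⟨e, rfl⟩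
            apply hxY
            rw [← hx, hkj]
            exact ⟨e, Subgroup.mem_sup_right e.2, rfl⟩
          by_cases hl0 : l = []
          · subst hl0
            refine ⟨x, [], a, hx', by simp, fun q => List.isChain_singleton _, ?_⟩
            simp [wp, hx, ha]
          · obtain ⟨x', rest, xl, h1, h2, h3, h4⟩ := ih hl hl0
            have haY' : a ∉ f.range := by
              intro h
              apply haY hl0
              rw [← ha]
              exact ⟨a, hY' h, rfl⟩
            refine ⟨x, ⟨true, a⟩ :: ⟨false, ((1 : Γ), x')⟩ :: rest, xl, hx', ?_, ?_, ?_⟩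
            · intro p hp
              rcases List.mem_cons.mp hp with rfl | hp
              · exact haY'
              · rcases List.mem_cons.mp hp with rfl | hp
                · rintro ⟨⟨γ, e⟩, h5⟩
                  apply h1
                  have h6 : g (γ, e) = (1, x') := h5
                  rw [hga, Prod.mk.injEq] at h6
                  exact ⟨e, h6.2⟩
                · exact h2 p hp
            · intro q
              refine List.isChain_cons_cons.mpr ⟨by simp, ?_⟩
              refine List.isChain_cons_cons.mpr ⟨by simp, h3 _⟩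
            · have h5 : wp (p :: l) = p.1 * p.2 * wp l := rfl
              rw [h5, ← hx, ← ha, h4, List.map_cons, List.map_cons, List.prod_cons,
                List.prod_cons]
              have h6 : (PushoutI.of (φ := A0phi f g) true a) = i a := rfl
              have h7 : (PushoutI.of (φ := A0phi f g) false ((1 : Γ), x')) = k x' := rfl
              simp only [h6, h7]
              group
      rintro _ ⟨x0, rfl⟩ l hl hne ⟨a, ha⟩
      obtain ⟨x, rest, xl, h1, h2, h3, h4⟩ := key l hl hne
      rw [h4] at ha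
      set W := (rest.map fun p => PushoutI.of (φ := A0phi f g) p.1 p.2).prod with hW
      set y : G := xl * a⁻¹ * x0 with hy
      have h5 : i y * k x * W = 1 := by
        have h6 : k x * W = (i x0)⁻¹ * i a * (i xl)⁻¹ := by
          rw [ha]; group
        rw [mul_assoc, h6, hy, map_mul, map_mul, map_inv]
        group
      by_cases hyr : y ∈ f.range
      · obtain ⟨⟨γ, e⟩, h6⟩ := hyr
        have h7 : i y * k x = A0k f g (γ, j e * x) := by
          rw [← h6, hfa, hk0i, hka, ← map_mul]
          simp [hk0]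
        rw [h7] at h5
        refine A0_word hf hg (⟨false, (γ, j e * x)⟩ :: rest) (List.cons_ne_nil _ _) ?_ (h3 _) ?_
        · intro p hp
          rcases List.mem_cons.mp hp with rfl | hp
          · rintro ⟨⟨γ', e'⟩, h8⟩
            apply h1
            have h9 : g (γ', e') = (γ, j e * x) := h8
            rw [hga, Prod.mk.injEq] at h9
            refine ⟨e⁻¹ * e', ?_⟩
            rw [map_mul, map_inv, h9.2]
            group
          · exact h2 p hp
        · rw [List.map_cons, List.prod_cons]
          exact h5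
      · refine A0_word hf hg (⟨true, y⟩ :: ⟨false, ((1 : Γ), x)⟩ :: rest) (List.cons_ne_nil _ _) ?_
          (List.isChain_cons_cons.mpr ⟨by simp, h3 _⟩) ?_
        · intro p hp
          rcases List.mem_cons.mp hp with rfl | hp
          · exact hyr
          · rcases List.mem_cons.mp hp with rfl | hp
            · rintro ⟨⟨γ', e'⟩, h8⟩
              apply h1
              have h9 : g (γ', e') = (1, x) := h8
              rw [hga, Prod.mk.injEq] at h9
              exact ⟨e', h9.2⟩
            · exact h2 p hp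
        · rw [List.map_cons, List.map_cons, List.prod_cons, List.prod_cons, ← mul_assoc]
          exact h5

end main

end Pool.Agent.Helper98.AAD
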