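import Pool.Agent.Helper98.AAD.Defs

/-!
Layer 1, R2: uniqueness of reduced forms.
-/

set_option autoImplicit false

namespace Pool.Agent.Helper98.AAD

section ra

variable {G : Type} [Group G] {X Y L : Subgroup G}

/-- `(wp l)⁻¹ x₀ wp l'` is not in `X` if there is no cancellation and one of the words is not
empty. -/
theorem RA.cancel_notMem (h : RA X Y L) : ∀ (l : List (G × G)) (x0 : G) (l' : List (G × G)),
    Rd X Y L l → Rd X Y L l' → x0 ∈ X → (l ≠ [] → l' ≠ [] → x0 ∉ Y) → (l ≠ [] ∨ l' ≠ []) →
    (wp l)⁻¹ * x0 * wp l' ∉ X := by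
  intro l
  induction l with
  | nil =>
    intro x0 l' _ hl' hx _ hne
    have hne' : l' ≠ [] := by
      rcases hne with h1 | h1
      · exact absurd rfl h1
      · exact h1
    have := h.nf x0 hx l' hl' hne'
    simpa [wp] using this
  | cons p l1 ih =>
    intro x0 l' hl hl' hx hj _
    obtain ⟨t, x⟩ := p
    obtain ⟨htL, htY, hxX, hxY, hl1⟩ := hl
    have key := ih x⁻¹ ((t⁻¹, x0) :: l') hl1
      ⟨L.inv_mem htL, fun h1 => htY (by simpa using Y.inv_mem h1), hx,
        fun h1 => hj (by simp) h1, hl'⟩ (X.inv_mem hxX)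
      (fun h1 _ h2 => hxY h1 (by simpa using Y.inv_mem h2)) (Or.inr (by simp))
    have e : (wp ((t, x) :: l1))⁻¹ * x0 * wp l' = (wp l1)⁻¹ * x⁻¹ * wp ((t⁻¹, x0) :: l') := by
      simp only [wp]
      group
    rw [e]
    exact key

/-- R2 -/
theorem RA.sim (h : RA X Y L) {x0 : G} (hx : x0 ∈ X) {l l' : List (G × G)} (hl : Rd X Y L l)
    (hl' : Rd X Y L l') (e : wp l = x0 * wp l') : Sim Y x0 l l' := by
  induction l generalizing x0 l' with
  | nil =>
    cases l' with
    | nil =>
      have h1 : x0 = 1 := by simpa [wp] using e.symm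
      rw [h1]
      exact Sim.nil
    | cons p' l1' =>
      exact absurd (by rw [← e]; exact X.one_mem) (h.nf x0 hx _ hl' (by simp))
  | cons p l1 ih =>
    cases l' with
    | nil =>
      have h1 := h.nf 1 X.one_mem _ hl (by simp)
      rw [one_mul, e] at h1
      exact absurd (by simpa [wp] using hx) h1
    | cons p' l1' =>
      obtain ⟨t, x⟩ := p
      obtain ⟨t', x'⟩ := p'
      obtain ⟨htL, htY, hxX, hxY, hl1⟩ := hl
      obtain ⟨htL', htY', hxX', hxY', hl1'⟩ := hl'
      have hy : x0 ∈ Y := by
        by_contra hcon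
        have h1 := h.cancel_notMem ((t, x) :: l1) x0 ((t', x') :: l1')
          ⟨htL, htY, hxX, hxY, hl1⟩ ⟨htL', htY', hxX', hxY', hl1'⟩ hx (fun _ _ => hcon)
          (Or.inl (by simp))
        apply h1
        rw [e]
        have : (x0 * wp ((t', x') :: l1'))⁻¹ * x0 * wp ((t', x') :: l1') = 1 := by group
        rw [this]
        exact X.one_mem
      have hc : t⁻¹ * x0 * t ∈ Y := by
        have := h.norm t⁻¹ (L.inv_mem htL) x0 hy
        simpa using this
      have hs : t⁻¹ * x0 * t' ∈ Y := by
        by_cases hq : t⁻¹ * t' ∈ Y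
        · have h1 := Y.mul_mem hc hq
          have h2 : t⁻¹ * x0 * t * (t⁻¹ * t') = t⁻¹ * x0 * t' := by group
          rwa [h2] at h1
        · exfalso
          have h1 := h.cancel_notMem l1 (x⁻¹ * (t⁻¹ * x0 * t)) ((t⁻¹ * t', x') :: l1') hl1
            ⟨L.mul_mem (L.inv_mem htL) htL', hq, hxX', hxY', hl1'⟩
            (X.mul_mem (X.inv_mem hxX) (h.le hc))
            (fun h2 _ h3 => hxY h2 (by
              have h4 := Y.mul_mem hc (Y.inv_mem h3)
              have h5 : t⁻¹ * x0 * t * (x⁻¹ * (t⁻¹ * x0 * t))⁻¹ = x := by group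
              rwa [h5] at h4)) (Or.inr (by simp))
          apply h1
          have e2 : wp l1 = x⁻¹ * (t⁻¹ * (x0 * (t' * x' * wp l1'))) := by
            simp only [wp] at e
            rw [← e]
            group
          have e3 : (wp l1)⁻¹ * (x⁻¹ * (t⁻¹ * x0 * t)) * wp ((t⁻¹ * t', x') :: l1') = 1 := by
            simp only [wp]
            rw [e2]
            group
          rw [e3]
          exact X.one_mem
      refine Sim.cons hy hs (ih (X.mul_mem (X.mul_mem (X.inv_mem hxX) (h.le hs)) hxX') hl1 hl1' ?_)
      simp only [wp] at e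
      have e2 : wp l1 = x⁻¹ * (t⁻¹ * (t * x * wp l1)) := by group
      rw [e2, e]
      group

theorem Sim.wp_eq {y : G} {l l' : List (G × G)} (h : Sim Y y l l') : wp l = y * wp l' := by
  induction h with
  | nil => simp
  | cons _ _ _ ih =>
    simp only [wp]
    rw [ih]
    group

theorem Sim.length_eq {y : G} {l l' : List (G × G)} (h : Sim Y y l l') : l.length = l'.length := by
  induction h with
  | nil => rfl
  | cons _ _ _ ih => simp [ih]

/-- the shift is in `Y` -/
theorem Sim.mem {y : G} {l l' : List (G × G)} (h : Sim Y y l l') : y ∈ Y := by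
  cases h with
  | nil => exact Y.one_mem
  | cons h1 _ _ => exact h1

/-- shifts : the last base entries agree up to a left factor in `Y` -/
theorem Sim.last {y : G} {l l' : List (G × G)} (h : Sim Y y l l') (hl : l ≠ []) (hl' : l' ≠ []) :
    (l.getLast hl).2 * ((l'.getLast hl').2)⁻¹ ∈ Y := by
  induction h with
  | nil => exact absurd rfl hl
  | @cons y t x t' x' l1 l1' hy hs hsim ih =>
    by_cases h1 : l1 = []
    · have h1' : l1' = [] := by
        have := hsim.length_eq
        rw [h1] at this
        exact List.length_eq_zero_iff.1 this.symm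
      subst h1
      subst h1'
      have h2 : x⁻¹ * (t⁻¹ * y * t') * x' = 1 := by
        have := hsim.wp_eq
        simpa [wp] using this.symm
      have h3 : x * x'⁻¹ = t⁻¹ * y * t' := by
        have h4 : x * (x⁻¹ * (t⁻¹ * y * t') * x') * x'⁻¹ = t⁻¹ * y * t' := by group
        rw [h2, mul_one] at h4
        exact h4
      simp only [List.getLast_singleton]
      rw [h3]
      exact hs
    · have h1' : l1' ≠ [] := by
        intro h2
        have := hsim.length_eq
        rw [h2] at this
        exact h1 (List.length_eq_zero_iff.1 this)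
      rw [List.getLast_cons h1, List.getLast_cons h1']
      exact ih h1 h1'

/-- shifts : all other base entries agree up to factors in `Y` on both sides -/
theorem Sim.inner {y : G} {l l' : List (G × G)} (h : Sim Y y l l') (i : ℕ) (hi : i < l.length)
    (hi' : i < l'.length) : ∃ a ∈ Y, ∃ b ∈ Y, (l[i]).2 = a * (l'[i]).2 * b := by
  induction h generalizing i with
  | nil => exact absurd hi (by simp)
  | @cons y t x t' x' l1 l1' hy hs hsim ih =>
    cases i with
    | zero =>
      refine ⟨_, hs, _, Y.inv_mem hsim.mem, ?_⟩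
      simp only [List.getElem_cons_zero]
      group
    | succ j =>
      simp only [List.getElem_cons_succ]
      exact ih j (by simpa using hi) (by simpa using hi')

end ra

end Pool.Agent.Helper98.AAD
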