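import Pool.Agent.Helper98.AAD.R1
import Pool.Agent.Helper98.AAD.R2

/-!
# Project AAD, module R3: lengths
-/

set_option autoImplicit false

namespace Pool.Agent.Helper98.AAD

section r3

variable {G : Type} [Group G] {X Y L : Subgroup G}

private theorem h82_wp_append (l l' : List (G × G)) : wp (l ++ l') = wp l * wp l' := by
  induction l with
  | nil => simp [wp]
  | cons p l ih => simp [wp, ih, mul_assoc]

theorem RA.rlen_form (h : RA X Y L) {x0 : G} (hx : x0 ∈ X) {l : List (G × G)}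
    (hl : Rd X Y L l) : rlen X Y L (x0 * wp l) = l.length := by
  have hset : {n | ∃ x1 ∈ X, ∃ l' : List (G × G), Rd X Y L l' ∧ l'.length = n ∧
      x0 * wp l = x1 * wp l'} = {l.length} := by
    ext n
    simp only [Set.mem_ofPred_eq, Set.mem_singleton_iff]
    constructor
    · rintro ⟨x1, hx1, l', hl', rfl, e⟩
      have e' : wp l = (x0⁻¹ * x1) * wp l' := by
        rw [mul_assoc, ← e, inv_mul_cancel_left]
      exact (Sim.length_eq (h.sim (X.mul_mem (X.inv_mem hx) hx1) hl hl' e')).symm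
    · rintro rfl
      exact ⟨x0, hx, l, hl, rfl, rfl⟩
  unfold rlen
  rw [hset, csInf_singleton]

/-- a form of minimal length -/
private theorem h82_form (h : RA X Y L) (x : G) :
    ∃ x0 ∈ X, ∃ l, Rd X Y L l ∧ x = x0 * wp l ∧ rlen X Y L x = l.length := by
  obtain ⟨x0, hx0, l, hl, e⟩ := h.form x
  refine ⟨x0, hx0, l, hl, e, ?_⟩
  rw [e]
  exact h.rlen_form hx0 hl

theorem RA.rlen_eq_zero (h : RA X Y L) {x : G} : rlen X Y L x = 0 ↔ x ∈ X := by
  constructor
  · intro h0
    obtain ⟨x0, hx0, l, hl, e, hlen⟩ := h82_form h x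
    rw [h0] at hlen
    have hnil : l = [] := List.eq_nil_of_length_eq_zero hlen.symm
    rw [e, hnil]
    simpa [wp] using hx0
  · intro hx
    have := h.rlen_form hx (l := []) trivial
    simpa [wp] using this

theorem RA.rlen_mul_left (h : RA X Y L) {x0 : G} (hx : x0 ∈ X) (x : G) :
    rlen X Y L (x0 * x) = rlen X Y L x := by
  obtain ⟨x1, hx1, l, hl, e, hlen⟩ := h82_form h x
  rw [hlen, e, ← mul_assoc]
  exact h.rlen_form (X.mul_mem hx hx1) hl

private theorem h82_t_mul (h : RA X Y L) {t : G} (ht : t ∈ L) (y : G) :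
    rlen X Y L (t * y) ≤ rlen X Y L y + 1 := by
  by_cases htY : t ∈ Y
  · rw [h.rlen_mul_left (h.le htY)]
    omega
  obtain ⟨x0, hx0, l, hl, e, hlen⟩ := h82_form h y
  have hcons : (l = [] ∨ x0 ∉ Y) → rlen X Y L (t * y) ≤ rlen X Y L y + 1 := by
    intro hor
    have hRd : Rd X Y L ((t, x0) :: l) :=
      ⟨ht, htY, hx0, fun hne => hor.resolve_left hne, hl⟩
    have := h.rlen_form X.one_mem hRd
    have e2 : t * y = 1 * wp ((t, x0) :: l) := by
      rw [e]; simp [wp, mul_assoc]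
    rw [e2, this, hlen]
    simp
  by_cases hx0Y : x0 ∈ Y
  · cases l with
    | nil => exact hcons (Or.inl rfl)
    | cons p l' =>
      obtain ⟨hp1, hp2, hp3, hp4, hp5⟩ := hl
      have hn : t * x0 * t⁻¹ ∈ Y := h.norm t ht x0 hx0Y
      by_cases hm : t * p.1 ∈ Y
      · have e2 : t * y = ((t * x0 * t⁻¹) * (t * p.1) * p.2) * wp l' := by
          rw [e]; simp [wp, mul_assoc]
        rw [e2, h.rlen_form (X.mul_mem (X.mul_mem (h.le hn) (h.le hm)) hp3) hp5, hlen]
        simp only [List.length_cons]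
        omega
      · have hRd : Rd X Y L ((t * p.1, p.2) :: l') :=
          ⟨L.mul_mem ht hp1, hm, hp3, hp4, hp5⟩
        have e2 : t * y = (t * x0 * t⁻¹) * wp ((t * p.1, p.2) :: l') := by
          rw [e]; simp [wp, mul_assoc]
        rw [e2, h.rlen_form (h.le hn) hRd, hlen]
        simp only [List.length_cons]
        omega
  · exact hcons (Or.inr hx0Y)

/-- unreduced lists -/
private def h82_Gl (X L : Subgroup G) (l : List (G × G)) : Prop := ∀ p ∈ l, p.1 ∈ L ∧ p.2 ∈ X

private theorem h82_le (h : RA X Y L) {l : List (G × G)} (hl : h82_Gl X L l) {x0 : G}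
    (hx0 : x0 ∈ X) : rlen X Y L (x0 * wp l) ≤ l.length := by
  induction l generalizing x0 with
  | nil =>
    have : rlen X Y L (x0 * wp []) = 0 := by
      rw [h.rlen_eq_zero]
      simpa [wp] using hx0
    rw [this]
    exact Nat.zero_le _
  | cons p l ih =>
    have hp := hl p (List.mem_cons_self)
    have hl' : h82_Gl X L l := fun q hq => hl q (List.mem_cons_of_mem _ hq)
    rw [h.rlen_mul_left hx0]
    have e : wp (p :: l) = p.1 * (p.2 * wp l) := by simp [wp, mul_assoc]
    rw [e]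
    refine (h82_t_mul h hp.1 _).trans ?_
    have := ih hl' hp.2
    simp only [List.length_cons]
    omega

private theorem h82_gl_of_rd {l : List (G × G)} (hl : Rd X Y L l) : h82_Gl X L l := by
  induction l with
  | nil => intro p hp; simp at hp
  | cons p l ih =>
    obtain ⟨hp1, -, hp3, -, hp5⟩ := hl
    intro q hq
    rcases List.mem_cons.1 hq with rfl | hq
    · exact ⟨hp1, hp3⟩
    · exact ih hp5 q hq

private theorem h82_shift {l : List (G × G)} (hl : h82_Gl X L l) {x0 : G} (hx0 : x0 ∈ X) :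
    ∃ x1 ∈ X, ∃ l', h82_Gl X L l' ∧ l'.length = l.length ∧ wp l * x0 = x1 * wp l' := by
  induction l with
  | nil => exact ⟨x0, hx0, [], by intro p hp; simp at hp, rfl, by simp [wp]⟩
  | cons p l ih =>
    have hp := hl p (List.mem_cons_self)
    have hl' : h82_Gl X L l := fun q hq => hl q (List.mem_cons_of_mem _ hq)
    obtain ⟨x1, hx1, l', hl1, hlen, e⟩ := ih hl'
    refine ⟨1, X.one_mem, (p.1, p.2 * x1) :: l', ?_, by simp [hlen], ?_⟩
    · intro q hq
      rcases List.mem_cons.1 hq with rfl | hq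
      · exact ⟨hp.1, X.mul_mem hp.2 hx1⟩
      · exact hl1 q hq
    · simp only [wp, one_mul]
      rw [mul_assoc, e]
      simp only [mul_assoc]

private theorem h82_gl_append {l l' : List (G × G)} (hl : h82_Gl X L l) (hl' : h82_Gl X L l') :
    h82_Gl X L (l ++ l') := by
  intro p hp
  rcases List.mem_append.1 hp with hp | hp
  · exact hl p hp
  · exact hl' p hp

private theorem h82_inv {l : List (G × G)} (hl : h82_Gl X L l) :
    ∃ x1 ∈ X, ∃ l', h82_Gl X L l' ∧ l'.length = l.length ∧ (wp l)⁻¹ = x1 * wp l' := by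
  induction l with
  | nil => exact ⟨1, X.one_mem, [], by intro p hp; simp at hp, rfl, by simp [wp]⟩
  | cons p l ih =>
    have hp := hl p (List.mem_cons_self)
    have hl' : h82_Gl X L l := fun q hq => hl q (List.mem_cons_of_mem _ hq)
    obtain ⟨x1, hx1, l', hl1, hlen, e⟩ := ih hl'
    obtain ⟨x2, hx2, l'', hl2, hlen2, e2⟩ := h82_shift hl1 (X.inv_mem hp.2)
    refine ⟨x1 * x2, X.mul_mem hx1 hx2, l'' ++ [(p.1⁻¹, 1)], ?_, by simp [hlen, hlen2], ?_⟩
    · refine h82_gl_append hl2 ?_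
      intro q hq
      rw [List.mem_singleton] at hq
      subst hq
      exact ⟨L.inv_mem hp.1, X.one_mem⟩
    · rw [h82_wp_append]
      have e3 : wp [(p.1⁻¹, (1 : G))] = p.1⁻¹ := by simp [wp]
      rw [e3]
      calc (wp (p :: l))⁻¹ = (wp l)⁻¹ * p.2⁻¹ * p.1⁻¹ := by simp [wp, mul_assoc]
        _ = x1 * (wp l' * p.2⁻¹) * p.1⁻¹ := by rw [e]; simp only [mul_assoc]
        _ = x1 * x2 * (wp l'' * p.1⁻¹) := by rw [e2]; simp only [mul_assoc]

private theorem h82_mul_right_le (h : RA X Y L) {x0 : G} (hx : x0 ∈ X) (x : G) :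
    rlen X Y L (x * x0) ≤ rlen X Y L x := by
  obtain ⟨x1, hx1, l, hl, e, hlen⟩ := h82_form h x
  obtain ⟨x2, hx2, l', hl', hlen', e2⟩ := h82_shift (h82_gl_of_rd hl) hx
  have e3 : x * x0 = (x1 * x2) * wp l' := by
    rw [e, mul_assoc, e2, ← mul_assoc]
  rw [e3, hlen, ← hlen']
  exact h82_le h hl' (X.mul_mem hx1 hx2)

theorem RA.rlen_mul_right (h : RA X Y L) {x0 : G} (hx : x0 ∈ X) (x : G) :
    rlen X Y L (x * x0) = rlen X Y L x := by
  refine le_antisymm (h82_mul_right_le h hx x) ?_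
  have := h82_mul_right_le h (X.inv_mem hx) (x * x0)
  rwa [mul_inv_cancel_right] at this

private theorem h82_inv_le (h : RA X Y L) (x : G) : rlen X Y L x⁻¹ ≤ rlen X Y L x := by
  obtain ⟨x1, hx1, l, hl, e, hlen⟩ := h82_form h x
  obtain ⟨x2, hx2, l', hl', hlen', e2⟩ := h82_inv (h82_gl_of_rd hl)
  have e3 : x⁻¹ = (x2 * wp l') * x1⁻¹ := by
    rw [e, mul_inv_rev, e2]
  rw [e3, h.rlen_mul_right (X.inv_mem hx1), hlen, ← hlen']
  exact h82_le h hl' hx2

theorem RA.rlen_inv (h : RA X Y L) (x : G) : rlen X Y L x⁻¹ = rlen X Y L x := by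
  refine le_antisymm (h82_inv_le h x) ?_
  have := h82_inv_le h x⁻¹
  rwa [inv_inv] at this

theorem RA.rlen_mul_le (h : RA X Y L) (x y : G) :
    rlen X Y L (x * y) ≤ rlen X Y L x + rlen X Y L y := by
  obtain ⟨x1, hx1, l, hl, e, hlen⟩ := h82_form h x
  obtain ⟨y1, hy1, l', hl', e', hlen'⟩ := h82_form h y
  obtain ⟨x2, hx2, l'', hl'', hlen'', e2⟩ := h82_shift (h82_gl_of_rd hl) hy1
  have e3 : x * y = (x1 * x2) * wp (l'' ++ l') := by
    rw [h82_wp_append, e, e']
    calc x1 * wp l * (y1 * wp l') = x1 * (wp l * y1) * wp l' := by simp only [mul_assoc]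
      _ = x1 * x2 * (wp l'' * wp l') := by rw [e2]; simp only [mul_assoc]
  rw [e3, hlen, hlen', ← hlen'', ← List.length_append]
  exact h82_le h (h82_gl_append hl'' (h82_gl_of_rd hl')) (X.mul_mem hx1 hx2)

theorem RA.rlen_letter (h : RA X Y L) {t : G} (ht : t ∈ L) (hY : t ∉ Y) : rlen X Y L t = 1 := by
  have hRd : Rd X Y L [(t, (1 : G))] :=
    ⟨ht, hY, X.one_mem, fun hne => absurd rfl hne, trivial⟩
  have := h.rlen_form X.one_mem hRd
  simpa [wp] using this

end r3

end Pool.Agent.Helper98.AAD
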