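import Pool.Agent.Helper98.AAD.Defs

/-!
# Reduced lists: appending, taking, dropping, inverses
-/

set_option autoImplicit false

namespace Pool.Agent.Helper98.AAD

variable {G : Type} [Group G] {X Y L : Subgroup G}

theorem wp_append (l l' : List (G × G)) : wp (l ++ l') = wp l * wp l' := by
  induction l with
  | nil => simp [wp]
  | cons p l ih => simp [wp, ih, mul_assoc]

theorem h84_rd_append {l l' : List (G × G)} : Rd X Y L (l ++ l') ↔
    Rd X Y L l ∧ Rd X Y L l' ∧ (l' ≠ [] → ∀ hne : l ≠ [], (l.getLast hne).2 ∉ Y) := by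
  induction l with
  | nil =>
    constructor
    · intro h
      exact ⟨trivial, h, fun _ hne => absurd rfl hne⟩
    · intro h
      exact h.2.1
  | cons p l ih =>
    rw [List.cons_append]
    constructor
    · rintro ⟨h1, h2, h3, h4, h5⟩
      obtain ⟨h6, h7, h8⟩ := ih.1 h5
      refine ⟨⟨h1, h2, h3, fun hne => h4 (by simp [hne]), h6⟩, h7, ?_⟩
      intro hl' hne
      by_cases hl : l = []
      · subst hl
        exact h4 (by simpa using hl')
      · rw [List.getLast_cons hl]
        exact h8 hl' hl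
    · rintro ⟨⟨h1, h2, h3, h4, h5⟩, h6, h7⟩
      refine ⟨h1, h2, h3, ?_, ih.2 ⟨h5, h6, ?_⟩⟩
      · intro hne
        by_cases hl : l = []
        · subst hl
          exact h7 (by simpa using hne) (List.cons_ne_nil _ _)
        · exact h4 hl
      · intro hl' hne
        have := h7 hl' (List.cons_ne_nil _ _)
        rwa [List.getLast_cons hne] at this

theorem Rd.take {l : List (G × G)} (hl : Rd X Y L l) (i : ℕ) : Rd X Y L (l.take i) := by
  rw [← List.take_append_drop i l, h84_rd_append] at hl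
  exact hl.1

theorem Rd.drop {l : List (G × G)} (hl : Rd X Y L l) (i : ℕ) : Rd X Y L (l.drop i) := by
  rw [← List.take_append_drop i l, h84_rd_append] at hl
  exact hl.2.1

/-- joining two reduced words -/
theorem Rd.cat (hYX : Y ≤ X) {l l' : List (G × G)} (hl : Rd X Y L l) (hl' : Rd X Y L l') (hne : l ≠ [])
    {x : G} (hx : x ∈ X) (hj : l' ≠ [] → (l.getLast hne).2 * x ∉ Y) :
    Rd X Y L (l.dropLast ++ ((l.getLast hne).1, (l.getLast hne).2 * x) :: l') ∧
    wp l * (x * wp l') = wp (l.dropLast ++ ((l.getLast hne).1, (l.getLast hne).2 * x) :: l') := by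
  have e : l = l.dropLast ++ [l.getLast hne] := (List.dropLast_append_getLast hne).symm
  constructor
  · have h := hl
    rw [e, h84_rd_append] at h
    obtain ⟨h1, ⟨h2, h3, h4, h5, h6⟩, h7⟩ := h
    rw [h84_rd_append]
    exact ⟨h1, ⟨h2, h3, X.mul_mem h4 hx, hj, hl'⟩, fun _ => h7 (List.cons_ne_nil _ _)⟩
  · rw [wp_append]
    conv_lhs => rw [e, wp_append]
    simp only [wp, mul_one, mul_assoc]

/-- changing the last base entry -/
theorem Rd.snoc (hYX : Y ≤ X) {l : List (G × G)} (hl : Rd X Y L l) (hne : l ≠ []) {x : G} (hx : x ∈ X) :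
    Rd X Y L (l.dropLast ++ [((l.getLast hne).1, (l.getLast hne).2 * x)]) ∧
    wp l * x = wp (l.dropLast ++ [((l.getLast hne).1, (l.getLast hne).2 * x)]) := by
  have h := Rd.cat hYX hl (l' := []) trivial hne hx (fun h => absurd rfl h)
  refine ⟨h.1, ?_⟩
  rw [← h.2]
  simp [wp]

/-- reduced form of the inverse -/
theorem RA.invForm (h : RA X Y L) {x0 : G} (hx : x0 ∈ X) {l : List (G × G)} (hl : Rd X Y L l)
    (hne : l ≠ []) : ∃ l', Rd X Y L l' ∧ l'.length = l.length ∧
      (x0 * wp l)⁻¹ = (l.getLast hne).2⁻¹ * wp l' ∧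
      ∀ hne' : l' ≠ [], (l'.getLast hne').2 = x0⁻¹ ∧ (l'.head hne').1 = (l.getLast hne).1⁻¹ := by
  induction l generalizing x0 with
  | nil => exact absurd rfl hne
  | cons p m ih =>
    obtain ⟨h1, h2, h3, h4, h5⟩ := hl
    by_cases hm : m = []
    · subst hm
      refine ⟨[(p.1⁻¹, x0⁻¹)], ⟨L.inv_mem h1, fun h' => h2 (by simpa using Y.inv_mem h'),
        X.inv_mem hx, fun h' => absurd rfl h', trivial⟩, rfl, ?_, fun _ => ⟨rfl, rfl⟩⟩
      simp [wp, mul_assoc]
    · obtain ⟨m', k1, k2, k3, k4⟩ := ih h3 h5 hm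
      have hm' : m' ≠ [] := by
        intro h'
        rw [h', List.length_nil] at k2
        exact hm (List.length_eq_zero_iff.1 k2.symm)
      refine ⟨m' ++ [(p.1⁻¹, x0⁻¹)], ?_, by simp [k2], ?_, ?_⟩
      · rw [h84_rd_append]
        refine ⟨k1, ⟨L.inv_mem h1, fun h' => h2 (by simpa using Y.inv_mem h'),
          X.inv_mem hx, fun h' => absurd rfl h', trivial⟩, ?_⟩
        intro _ hne'
        rw [(k4 hne').1]
        exact fun h' => h4 hm (by simpa using Y.inv_mem h')
      · rw [List.getLast_cons hm, wp_append, ← mul_assoc, ← k3]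
        simp [wp, mul_assoc]
      · intro hne'
        refine ⟨by simp, ?_⟩
        rw [List.getLast_cons hm, List.head_append_of_ne_nil hm', (k4 hm').2]

end Pool.Agent.Helper98.AAD
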