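import Pool.Agent.Helper98.AAD.R1
import Pool.Agent.Helper98.AAD.R3
import Pool.Agent.Helper98.AAD.R4

/-!
Lengths in `QS` structures: left nice elements.
-/

set_option autoImplicit false

namespace Pool.Agent.Helper98.AAD

variable {G : Type} [Group G] {q : Multiplicative ℚ →* G} {β : ℕ → Subgroup G}

theorem mem_Bb (hm : Monotone β) {x : G} : x ∈ Bb β ↔ ∃ j, x ∈ β j := by
  unfold Bb
  exact Subgroup.mem_iSup_of_directed hm.directed_le

omit [Group G] in
theorem q1_len_cat {la l : List (G × G)} (hne : la ≠ []) (p : G × G) :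
    (la.dropLast ++ p :: l).length = la.length + l.length := by
  have := List.length_pos_of_ne_nil hne
  simp only [List.length_append, List.length_dropLast, List.length_cons]
  omega

/-- members of reduced lists -/
theorem q1_rd_mem {X Y L : Subgroup G} {l : List (G × G)} (h : Rd X Y L l) :
    ∀ p ∈ l, p.1 ∈ L ∧ p.1 ∉ Y ∧ p.2 ∈ X := by
  induction l with
  | nil => intro p hp; simp at hp
  | cons a l ih =>
    obtain ⟨h1, h2, h3, _, h5⟩ := h
    intro p hp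
    rw [List.mem_cons] at hp
    rcases hp with rfl | hp
    · exact ⟨h1, h2, h3⟩
    · exact ih h5 p hp

theorem LN.first (hq : QS q β) {Γ : Subgroup G} (hQ : q.range ≤ Γ)
    {x0 : G} (hx0 : x0 ∈ Bb β) {l : List (G × G)} (hl : Rq q β l) (hne : l ≠ [])
    (hx : LN q β Γ (x0 * wp l)) : ∀ b ∈ Γ ⊓ Bb β, ∀ c ∈ β 0, x0 ≠ b * c := by
  rintro b ⟨hbΓ, hbB⟩ c hc rfl
  obtain ⟨⟨t, x⟩, l', rfl⟩ := List.exists_cons_of_ne_nil hne
  have hl0 := hl
  obtain ⟨h1, h2, h3, _, h5⟩ := hl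
  simp only at h1 h2 h3
  have h := hq.ra
  have hti : t⁻¹ ∈ q.range := inv_mem h1
  have hc' : t⁻¹ * c * t ∈ β 0 := by
    have := h.norm t⁻¹ hti c hc
    rwa [inv_inv] at this
  have ha : t⁻¹ * b⁻¹ ∈ Γ := mul_mem (hQ hti) (inv_mem hbΓ)
  have h6 := hx _ ha
  have e1 : t⁻¹ * b⁻¹ * (b * c * wp ((t, x) :: l')) = (t⁻¹ * c * t * x) * wp l' := by
    simp only [wp]
    group
  have h7 : ql q β (t⁻¹ * b⁻¹) = 1 := by
    unfold ql
    rw [h.rlen_mul_right (inv_mem hbB)]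
    exact h.rlen_letter hti (fun hh => h2 (by simpa using inv_mem hh))
  have h8 : ql q β (b * c * wp ((t, x) :: l')) = l'.length + 1 := by
    unfold ql
    rw [h.rlen_form hx0 hl0]
    rfl
  have h9 : ql q β ((t⁻¹ * c * t * x) * wp l') = l'.length := by
    unfold ql
    exact h.rlen_form (mul_mem (h.le hc') h3) h5
  rw [e1, h9, h7, h8] at h6
  omega

theorem LN.of_first (hq : QS q β) {Γ : Subgroup G} (hQ : q.range ≤ Γ)
    (hg : Γ ≤ (Γ ⊓ Bb β) ⊔ q.range) {x0 : G} (hx0 : x0 ∈ Bb β) {l : List (G × G)}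
    (hl : Rq q β l) (hx : ∀ b ∈ Γ ⊓ Bb β, ∀ c ∈ β 0, x0 ≠ b * c) : LN q β Γ (x0 * wp l) := by
  intro a ha
  have h := hq.ra
  obtain ⟨b0, hb0, la, hla, hlaΓ, rfl⟩ := h.formIn hQ hg ha
  by_cases hne : la = []
  · subst hne
    have e1 : b0 * wp ([] : List (G × G)) = b0 := by simp [wp]
    rw [e1]
    unfold ql
    rw [h.rlen_mul_left hb0.2, h.rlen_eq_zero.2 hb0.2, zero_add]
  · have hlast := q1_rd_mem hla _ (List.getLast_mem hne)
    have hlastΓ := hlaΓ _ (List.getLast_mem hne)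
    obtain ⟨h1, h2⟩ := Rd.cat h.le hla hl hne hx0 (fun _ hh => by
      refine hx _ (Subgroup.mem_inf.2 ⟨Γ.inv_mem hlastΓ.2, (Bb β).inv_mem hlast.2.2⟩) _ hh ?_
      group)
    have e1 : b0 * wp la * (x0 * wp l) = b0 * (wp la * (x0 * wp l)) := by group
    rw [e1, h2]
    unfold ql
    rw [h.rlen_form hb0.2 h1, h.rlen_form hb0.2 hla, h.rlen_form hx0 hl, q1_len_cat hne]

theorem LN.add (hq : QS q β) {Γ : Subgroup G} (hQ : q.range ≤ Γ) (hg : Γ ≤ (Γ ⊓ Bb β) ⊔ q.range)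
    {x y a : G} (hx : LN q β Γ x) (hy : LN q β Γ y) (ha : a ∈ Γ) (h1 : 1 ≤ ql q β a) :
    ql q β (x⁻¹ * a * y) = ql q β x + ql q β a + ql q β y := by
  have h := hq.ra
  obtain ⟨x0, hx0, lx, hlx, rfl⟩ := h.form x
  obtain ⟨y0, hy0, ly, hly, rfl⟩ := h.form y
  by_cases hne : lx = []
  · subst hne
    have e1 : x0 * wp ([] : List (G × G)) = x0 := by simp [wp]
    rw [e1]
    have h2 := hy a ha
    unfold ql at h2 ⊢
    rw [mul_assoc, h.rlen_mul_left (inv_mem hx0), h.rlen_eq_zero.2 hx0, zero_add, h2]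
  · have hfx := LN.first hq hQ hx0 hlx hne hx
    obtain ⟨b0, hb0, la, hla, hlaΓ, rfl⟩ := h.formIn hQ hg ha
    have hlane : la ≠ [] := by
      rintro rfl
      unfold ql at h1
      rw [h.rlen_form hb0.2 hla] at h1
      simp at h1
    have hlast := q1_rd_mem hla _ (List.getLast_mem hlane)
    have hlastΓ := hlaΓ _ (List.getLast_mem hlane)
    obtain ⟨h2, h3⟩ := Rd.cat h.le hla hly hlane hy0 (fun hly' hh => by
      refine LN.first hq hQ hy0 hly hly' hy _ (Subgroup.mem_inf.2 ⟨Γ.inv_mem hlastΓ.2, (Bb β).inv_mem hlast.2.2⟩) _ hh ?_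
      group)
    obtain ⟨l', hl', hlen, he, hend⟩ := h.invForm hx0 hlx hne
    have hl'ne : l' ≠ [] := by
      rintro rfl
      have := List.length_pos_of_ne_nil hne
      simp at hlen
      omega
    obtain ⟨h4, h5⟩ := Rd.cat h.le hl' h2 hl'ne hb0.2 (fun _ hh => by
      rw [(hend hl'ne).1] at hh
      refine hfx _ hb0 _ (inv_mem hh) ?_
      group)
    have hlastx := q1_rd_mem hlx _ (List.getLast_mem hne)
    have e1 : (x0 * wp lx)⁻¹ * (b0 * wp la) * (y0 * wp ly) =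
        (lx.getLast hne).2⁻¹ * (wp l' * (b0 * (wp la * (y0 * wp ly)))) := by
      rw [he]; group
    rw [e1, h3, h5]
    unfold ql
    rw [h.rlen_form (inv_mem hlastx.2.2) h4, h.rlen_form hx0 hlx, h.rlen_form hb0.2 hla,
      h.rlen_form hy0 hly, q1_len_cat hl'ne, q1_len_cat hlane, hlen]
    ring

end Pool.Agent.Helper98.AAD
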