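import Pool.Agent.Helper98.AAD.DefsV

/-!
# AAD, R1: existence of reduced forms
-/

set_option autoImplicit false

namespace Pool.Agent.Helper98.AAD

variable {G : Type} [Group G]

private theorem r1_left {X Y L W : Subgroup G} (norm : ∀ t ∈ L, ∀ y ∈ Y, t * y * t⁻¹ ∈ Y)
    (hW : W ≤ X) (h2 : ∀ t ∈ L, t ∈ Y → t ∈ W)
    (h3 : ∀ t ∈ L, ∀ y ∈ W, y ∈ Y → t * y * t⁻¹ ∈ W) {t x : G} (ht : t ∈ L)
    (hx : ∃ x0 ∈ W, ∃ l, Rd X Y L l ∧ (∀ p ∈ l, p.2 ∈ W) ∧ x = x0 * wp l) :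
    ∃ x0 ∈ W, ∃ l, Rd X Y L l ∧ (∀ p ∈ l, p.2 ∈ W) ∧ t * x = x0 * wp l := by
  obtain ⟨x0, hx0, l, hl, hlW, rfl⟩ := hx
  by_cases htY : t ∈ Y
  · exact ⟨t * x0, W.mul_mem (h2 t ht htY) hx0, l, hl, hlW, by rw [mul_assoc]⟩
  · by_cases hc : l ≠ [] → x0 ∉ Y
    · refine ⟨1, W.one_mem, (t, x0) :: l, ⟨ht, htY, hW hx0, hc, hl⟩, ?_, ?_⟩
      · intro p hp
        rcases List.mem_cons.1 hp with rfl | hp
        · exact hx0
        · exact hlW p hp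
      · simp only [wp]
        group
    · push Not at hc
      obtain ⟨hne, hx0Y⟩ := hc
      obtain ⟨⟨t', x'⟩, l', rfl⟩ := List.exists_cons_of_ne_nil hne
      obtain ⟨ht', ht'Y, hx'X, hl', hRl'⟩ := hl
      have hx'W : x' ∈ W := hlW (t', x') List.mem_cons_self
      have hl'W : ∀ p ∈ l', p.2 ∈ W := fun p hp => hlW p (List.mem_cons_of_mem _ hp)
      have hy : t * x0 * t⁻¹ ∈ W := h3 t ht x0 hx0 hx0Y
      by_cases htt : t * t' ∈ Y
      · refine ⟨t * x0 * t⁻¹ * (t * t') * x', W.mul_mem (W.mul_mem hy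
          (h2 _ (L.mul_mem ht ht') htt)) hx'W, l', hRl', hl'W, ?_⟩
        simp only [wp]
        group
      · refine ⟨t * x0 * t⁻¹, hy, (t * t', x') :: l',
          ⟨L.mul_mem ht ht', htt, hx'X, hl', hRl'⟩, ?_, ?_⟩
        · intro p hp
          rcases List.mem_cons.1 hp with rfl | hp
          · exact hx'W
          · exact hl'W p hp
        · simp only [wp]
          group

/-- the general form lemma: base entries in a subgroup `W` of `X` -/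
theorem r1_gen {X Y L W : Subgroup G} (norm : ∀ t ∈ L, ∀ y ∈ Y, t * y * t⁻¹ ∈ Y)
    (hW : W ≤ X) (h2 : ∀ t ∈ L, t ∈ Y → t ∈ W)
    (h3 : ∀ t ∈ L, ∀ y ∈ W, y ∈ Y → t * y * t⁻¹ ∈ W) {x : G} (hx : x ∈ W ⊔ L) :
    ∃ x0 ∈ W, ∃ l, Rd X Y L l ∧ (∀ p ∈ l, p.2 ∈ W) ∧ x = x0 * wp l := by
  have hx' : x ∈ Subgroup.closure ((W : Set G) ∪ L) := by
    rwa [← Subgroup.sup_eq_closure]
  induction hx' using Subgroup.closure_induction_left with
  | one => exact ⟨1, W.one_mem, [], trivial, by simp, by simp [wp]⟩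
  | mul_left a ha y hy ih =>
    have hy' : y ∈ W ⊔ L := by rwa [Subgroup.sup_eq_closure]
    rcases ha with ha | ha
    · obtain ⟨x0, hx0, l, hl, hlW, rfl⟩ := ih hy'
      exact ⟨a * x0, W.mul_mem ha hx0, l, hl, hlW, by rw [mul_assoc]⟩
    · exact r1_left norm hW h2 h3 ha (ih hy')
  | inv_mul_cancel a ha y hy ih =>
    have hy' : y ∈ W ⊔ L := by rwa [Subgroup.sup_eq_closure]
    rcases ha with ha | ha
    · obtain ⟨x0, hx0, l, hl, hlW, rfl⟩ := ih hy'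
      exact ⟨a⁻¹ * x0, W.mul_mem (W.inv_mem ha) hx0, l, hl, hlW, by rw [mul_assoc]⟩
    · exact r1_left norm hW h2 h3 (L.inv_mem ha) (ih hy')

/-- R1 -/
theorem RA.form {X Y L : Subgroup G} (h : RA X Y L) (x : G) :
    ∃ x0 ∈ X, ∃ l, Rd X Y L l ∧ x = x0 * wp l := by
  have hx : x ∈ X ⊔ L := by rw [h.gen]; trivial
  obtain ⟨x0, hx0, l, hl, _, e⟩ := r1_gen h.norm le_rfl (fun t _ ht => h.le ht)
    (fun t ht y _ hyY => h.le (h.norm t ht y hyY)) hx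
  exact ⟨x0, hx0, l, hl, e⟩

/-- letters of reduced words -/
theorem Rd.r1_fst_mem {X Y L : Subgroup G} {l : List (G × G)} (hl : Rd X Y L l) :
    ∀ p ∈ l, p.1 ∈ L := by
  induction l with
  | nil => intro p hp; simp at hp
  | cons a l ih =>
    obtain ⟨h1, _, _, _, h5⟩ := hl
    intro p hp
    rcases List.mem_cons.1 hp with rfl | hp
    · exact h1
    · exact ih h5 p hp

/-- R1b : forms with all entries in a subgroup `M` generated by its parts in `X` and `L` -/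
theorem RA.formIn {X Y L : Subgroup G} (h : RA X Y L) {M : Subgroup G} (hL : L ≤ M)
    (hM : M ≤ (M ⊓ X) ⊔ L) {x : G} (hx : x ∈ M) :
    ∃ x0 ∈ M ⊓ X, ∃ l, Rd X Y L l ∧ (∀ p ∈ l, p.1 ∈ M ∧ p.2 ∈ M) ∧ x = x0 * wp l := by
  obtain ⟨x0, hx0, l, hl, hlW, e⟩ := r1_gen (W := M ⊓ X) h.norm inf_le_right
    (fun t ht htY => ⟨hL ht, h.le htY⟩)
    (fun t ht y hy hyY => ⟨M.mul_mem (M.mul_mem (hL ht) hy.1) (M.inv_mem (hL ht)),
      h.le (h.norm t ht y hyY)⟩) (hM hx)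
  exact ⟨x0, hx0, l, hl, fun p hp => ⟨hL (hl.r1_fst_mem p hp), (hlW p hp).1⟩, e⟩

/-- R1c : forms of elements of `Z ⊔ L` with all base entries in `Z`, when `Y`-elements commute
with `L` and `L ⊓ X ≤ Z`  -/
theorem RA.formZ {X Y L : Subgroup G} (h : RA X Y L) {Z : Subgroup G} (hZ : Z ≤ X)
    (hLY : ∀ t ∈ L, t ∈ X → t ∈ Z) (hc : ∀ t ∈ L, ∀ y ∈ Y, t * y = y * t) {x : G}
    (hx : x ∈ Z ⊔ L) : ∃ x0 ∈ Z, ∃ l, Rd X Y L l ∧ (∀ p ∈ l, p.2 ∈ Z) ∧ x = x0 * wp l :=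
  r1_gen h.norm hZ (fun t ht htY => hLY t ht (h.le htY))
    (fun t ht y hy hyY => by
      rw [hc t ht y hyY, mul_assoc, mul_inv_cancel, mul_one]
      exact hy) hx

/-- V1'' : normal forms in `PV X x` -/
theorem PV.form {X : Subgroup G} {x : G} {p : G} (hp : p ∈ PV X x) :
    ∃ n ∈ X, ∃ l, Rd X ⊥ (Subgroup.zpowers x) l ∧ p = n * wp l := by
  obtain ⟨x0, hx0, l, hl, _, e⟩ := r1_gen (X := X) (Y := ⊥) (L := Subgroup.zpowers x) (W := X)
    (fun t _ y hy => by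
      rw [Subgroup.mem_bot] at hy ⊢
      rw [hy]; group) le_rfl
    (fun t _ ht => by
      rw [Subgroup.mem_bot] at ht
      rw [ht]; exact X.one_mem)
    (fun t _ y _ hy => by
      rw [Subgroup.mem_bot] at hy
      rw [hy, mul_one, mul_inv_cancel]
      exact X.one_mem) hp
  exact ⟨x0, hx0, l, hl, e⟩

end Pool.Agent.Helper98.AAD
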