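import Pool.Agent.Helper98.AAD.Defs

/-!
# The universal property of the amalgam

`RA.up`: the graph of the wanted homomorphism is the subgroup of `G × K` generated by the graphs of
the two given ones; its elements have reduced forms which project to reduced forms in `G`.
-/

set_option autoImplicit false

namespace Pool.Agent.Helper98.AAD

section ra

private theorem h7r5_form {G : Type} [Group G] {X Y L : Subgroup G} (le : Y ≤ X)
    (norm : ∀ t ∈ L, ∀ y ∈ Y, t * y * t⁻¹ ∈ Y) {x : G} (hx : x ∈ X ⊔ L) :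
    ∃ x0 ∈ X, ∃ l, Rd X Y L l ∧ x = x0 * wp l := by
  -- left multiplication by elements of `X` and of `L`
  have hX : ∀ z ∈ X, ∀ x : G, (∃ x0 ∈ X, ∃ l, Rd X Y L l ∧ x = x0 * wp l) →
      ∃ x0 ∈ X, ∃ l, Rd X Y L l ∧ z * x = x0 * wp l := by
    rintro z hz x ⟨x0, hx0, l, hl, rfl⟩
    exact ⟨z * x0, X.mul_mem hz hx0, l, hl, (mul_assoc _ _ _).symm⟩
  have hL : ∀ t ∈ L, ∀ x : G, (∃ x0 ∈ X, ∃ l, Rd X Y L l ∧ x = x0 * wp l) →
      ∃ x0 ∈ X, ∃ l, Rd X Y L l ∧ t * x = x0 * wp l := by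
    rintro t ht x ⟨x0, hx0, l, hl, rfl⟩
    by_cases htY : t ∈ Y
    · exact hX t (le htY) _ ⟨x0, hx0, l, hl, rfl⟩
    by_cases hx0Y : x0 ∈ Y
    · cases l with
      | nil =>
        exact ⟨1, X.one_mem, [(t, x0)], ⟨ht, htY, hx0, fun h => absurd rfl h, trivial⟩, by
          simp [wp]⟩
      | cons p l =>
        obtain ⟨h1, h2, h3, h4, h5⟩ := hl
        by_cases h6 : t * p.1 ∈ Y
        · refine ⟨t * x0 * t⁻¹ * (t * p.1) * p.2, ?_, l, h5, ?_⟩
          · exact X.mul_mem (X.mul_mem (le (norm t ht x0 hx0Y)) (le h6)) h3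
          · simp only [wp]
            group
        · refine ⟨t * x0 * t⁻¹, le (norm t ht x0 hx0Y), (t * p.1, p.2) :: l,
            ⟨L.mul_mem ht h1, h6, h3, h4, h5⟩, ?_⟩
          simp only [wp]
          group
    · exact ⟨1, X.one_mem, (t, x0) :: l, ⟨ht, htY, hx0, fun _ => hx0Y, hl⟩, by
        simp [wp, mul_assoc]⟩
  -- all elements act
  suffices h : ∀ y ∈ X ⊔ L, ∀ x : G, (∃ x0 ∈ X, ∃ l, Rd X Y L l ∧ x = x0 * wp l) →
      ∃ x0 ∈ X, ∃ l, Rd X Y L l ∧ y * x = x0 * wp l by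
    have h1 := h x hx 1 ⟨1, X.one_mem, [], trivial, by simp [wp]⟩
    rwa [mul_one] at h1
  suffices h : ∀ y ∈ Subgroup.closure ((X : Set G) ∪ L), (∀ x : G,
      (∃ x0 ∈ X, ∃ l, Rd X Y L l ∧ x = x0 * wp l) →
      ∃ x0 ∈ X, ∃ l, Rd X Y L l ∧ y * x = x0 * wp l) ∧ ∀ x : G,
      (∃ x0 ∈ X, ∃ l, Rd X Y L l ∧ x = x0 * wp l) →
      ∃ x0 ∈ X, ∃ l, Rd X Y L l ∧ y⁻¹ * x = x0 * wp l by
    intro y hy
    rw [Subgroup.sup_eq_closure] at hy
    exact (h y hy).1
  intro y hy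
  induction hy using Subgroup.closure_induction with
  | mem z hz =>
    rcases hz with hz | hz
    · exact ⟨hX z hz, hX _ (X.inv_mem hz)⟩
    · exact ⟨hL z hz, hL _ (L.inv_mem hz)⟩
  | one => simp
  | mul z w _ _ ihz ihw =>
    refine ⟨fun x hx => ?_, fun x hx => ?_⟩
    · rw [mul_assoc]
      exact ihz.1 _ (ihw.1 _ hx)
    · rw [mul_inv_rev, mul_assoc]
      exact ihw.2 _ (ihz.2 _ hx)
  | inv z _ ih => exact ⟨ih.2, by rw [inv_inv]; exact ih.1⟩

variable {G : Type} [Group G] {X Y L : Subgroup G}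

/-- R5 -/
theorem RA.up (h : RA X Y L) : UP X Y L := by
  intro K _ f g h1 h2
  -- the graphs
  set X' : Subgroup (G × K) := (MonoidHom.prod X.subtype f).range with hX'
  set L' : Subgroup (G × K) := (MonoidHom.prod L.subtype g).range with hL'
  set Y' : Subgroup (G × K) := X' ⊓ Y.comap (MonoidHom.fst G K) with hY'
  have le' : Y' ≤ X' := inf_le_left
  have norm' : ∀ t ∈ L', ∀ y ∈ Y', t * y * t⁻¹ ∈ Y' := by
    rintro _ ⟨t, rfl⟩ _ ⟨⟨y, rfl⟩, hy⟩
    have hy' : (y : G) ∈ Y := hy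
    have h3 : (t : G) * y * (t : G)⁻¹ ∈ Y := h.norm t t.2 y hy'
    refine ⟨⟨⟨(t : G) * y * (t : G)⁻¹, h.le h3⟩, ?_⟩, h3⟩
    apply Prod.ext
    · rfl
    · exact h2 t y hy' (h.le h3)
  -- the projection is injective on `X' ⊔ L'`
  have hinj : ∀ z ∈ X' ⊔ L', z.1 = 1 → z = 1 := by
    intro z hz hz1
    obtain ⟨x0, ⟨x, rfl⟩, l, hl, rfl⟩ := h7r5_form le' norm' hz
    have hwp : ∀ l : List ((G × K) × (G × K)),
        (wp l).1 = wp (l.map fun p => (p.1.1, p.2.1)) := by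
      intro l
      induction l with
      | nil => rfl
      | cons p l ih => simp only [wp, List.map_cons, Prod.fst_mul, ih]
    have hRd : ∀ l : List ((G × K) × (G × K)), Rd X' Y' L' l →
        Rd X Y L (l.map fun p => (p.1.1, p.2.1)) := by
      intro l
      induction l with
      | nil => exact fun _ => trivial
      | cons p l ih =>
        rintro ⟨⟨t, ht⟩, h4, ⟨y, hy⟩, h5, h6⟩
        refine ⟨?_, ?_, ?_, ?_, ih h6⟩
        · show p.1.1 ∈ L
          rw [← ht]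
          exact t.2
        · show p.1.1 ∉ Y
          intro h7
          apply h4
          have h8 : p.1.1 = t := by rw [← ht]; rfl
          have h9 : (t : G) ∈ Y := h8 ▸ h7
          refine ⟨⟨⟨t, h.le h9⟩, ?_⟩, h7⟩
          rw [← ht]
          apply Prod.ext
          · rfl
          · exact h1 t (h.le h9) t.2
        · show p.2.1 ∈ X
          rw [← hy]
          exact y.2
        · intro hne h7
          refine h5 (fun h8 => hne (by rw [h8]; rfl)) ⟨⟨y, hy⟩, h7⟩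
    have h3 : (x : G) * wp (l.map fun p => (p.1.1, p.2.1)) = 1 := by
      rw [← hwp]
      exact hz1
    cases l with
    | nil =>
      simp only [wp, List.map_nil, mul_one] at h3 ⊢
      have h4 : x = 1 := Subtype.ext h3
      rw [h4, map_one]
    | cons p l =>
      exfalso
      refine h.nf x x.2 _ (hRd _ hl) (by simp) ?_
      rw [h3]
      exact X.one_mem
  -- the projection is surjective
  have hmap : (X' ⊔ L').map (MonoidHom.fst G K) = ⊤ := by
    rw [Subgroup.map_sup, eq_top_iff, ← h.gen]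
    refine sup_le_sup ?_ ?_
    · intro x hx
      exact ⟨(x, f ⟨x, hx⟩), ⟨⟨x, hx⟩, rfl⟩, rfl⟩
    · intro x hx
      exact ⟨(x, g ⟨x, hx⟩), ⟨⟨x, hx⟩, rfl⟩, rfl⟩
  set π : ↥(X' ⊔ L') →* G := (MonoidHom.fst G K).comp (X' ⊔ L').subtype with hπ
  have hbij : Function.Bijective π := by
    constructor
    · rw [injective_iff_map_eq_one]
      intro z hz
      exact Subtype.ext (hinj z z.2 hz)
    · intro x
      have hx : x ∈ (X' ⊔ L').map (MonoidHom.fst G K) := hmap ▸ Subgroup.mem_top x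
      obtain ⟨z, hz, hzx⟩ := hx
      exact ⟨⟨z, hz⟩, hzx⟩
  set e : ↥(X' ⊔ L') ≃* G := MulEquiv.ofBijective π hbij with he
  refine ⟨((MonoidHom.snd G K).comp (X' ⊔ L').subtype).comp e.symm.toMonoidHom, ?_, ?_⟩
  · intro x
    have h3 : (MonoidHom.prod X.subtype f) x ∈ X' ⊔ L' :=
      (le_sup_left : X' ≤ X' ⊔ L') ⟨x, rfl⟩
    have h4 : e.symm x = ⟨_, h3⟩ := by
      rw [MulEquiv.symm_apply_eq]
      rfl
    show (e.symm x).1.2 = f x
    rw [h4]
    rfl
  · intro x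
    have h3 : (MonoidHom.prod L.subtype g) x ∈ X' ⊔ L' :=
      (le_sup_right : L' ≤ X' ⊔ L') ⟨x, rfl⟩
    have h4 : e.symm x = ⟨_, h3⟩ := by
      rw [MulEquiv.symm_apply_eq]
      rfl
    show (e.symm x).1.2 = g x
    rw [h4]
    rfl

end ra

end Pool.Agent.Helper98.AAD

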