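import Pool.Agent.Helper98.AAD.Defs

/-!
The universal property gives the normal form theorem (module R6).
-/

set_option autoImplicit false

namespace Pool.Agent.Helper98.AAD

section r6

variable {G : Type} [Group G]

/-- the two factors -/
def h28_fac (X Z : Subgroup G) (b : Bool) : Subgroup G := cond b X Z

theorem h28_le_fac {X Y Z : Subgroup G} (h1 : Y ≤ X) (h2 : Y ≤ Z) (b : Bool) :
    Y ≤ h28_fac X Z b := by
  cases b
  · exact h2
  · exact h1

/-- the inclusions of `Y` in the two factors -/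
def h28_incl {X Y Z : Subgroup G} (h1 : Y ≤ X) (h2 : Y ≤ Z) (b : Bool) :
    Y →* h28_fac X Z b := Subgroup.inclusion (h28_le_fac h1 h2 b)

theorem h28_mem_range_incl {X Y Z : Subgroup G} (h1 : Y ≤ X) (h2 : Y ≤ Z) (b : Bool)
    (x : h28_fac X Z b) : x ∈ (h28_incl h1 h2 b).range ↔ (x : G) ∈ Y := by
  constructor
  · rintro ⟨y, rfl⟩
    exact y.2
  · intro hx
    exact ⟨⟨x, hx⟩, Subtype.ext rfl⟩

theorem h28_of_fac {X Y Z : Subgroup G} (h1 : Y ≤ X) (h2 : Y ≤ Z) (b : Bool) (y : G) (hy : y ∈ Y)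
    (hy' : y ∈ h28_fac X Z b) :
    Monoid.PushoutI.of (φ := h28_incl h1 h2) b ⟨y, hy'⟩ =
      Monoid.PushoutI.base (h28_incl h1 h2) ⟨y, hy⟩ :=
  Monoid.PushoutI.of_apply_eq_base (h28_incl h1 h2) b ⟨y, hy⟩

theorem h28_reduced_cons {X Y Z : Subgroup G} (h1 : Y ≤ X) (h2 : Y ≤ Z) {b : Bool}
    (m : h28_fac X Z b) (hm : (m : G) ∉ Y)
    {w : Monoid.CoprodI.Word fun b => h28_fac X Z b} (hw : Monoid.PushoutI.Reduced (h28_incl h1 h2) w)
    (hb : w.fstIdx ≠ some b) :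
    ∃ w' : Monoid.CoprodI.Word fun b => h28_fac X Z b,
      Monoid.PushoutI.Reduced (h28_incl h1 h2) w' ∧ w'.fstIdx = some b ∧
      Monoid.PushoutI.ofCoprodI (φ := h28_incl h1 h2) w'.prod =
        Monoid.PushoutI.of (φ := h28_incl h1 h2) b m *
          Monoid.PushoutI.ofCoprodI (φ := h28_incl h1 h2) w.prod := by
  have hm1 : m ≠ 1 := by
    rintro rfl
    exact hm Y.one_mem
  refine ⟨Monoid.CoprodI.Word.cons m w hb hm1, ?_, Monoid.CoprodI.Word.fstIdx_cons _ _ _ _, ?_⟩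
  · intro g hg
    rcases List.mem_cons.1 hg with hg | hg
    · subst hg
      rw [h28_mem_range_incl]
      exact hm
    · exact hw g hg
  · rw [Monoid.CoprodI.Word.prod_cons, map_mul, Monoid.PushoutI.ofCoprodI_of]

theorem h28_word {X Y L : Subgroup G} (h1 : Y ≤ X) (h2 : Y ≤ Y ⊔ L)
    (f : G →* Monoid.PushoutI (h28_incl h1 h2))
    (hX : ∀ x : G, ∀ hx : x ∈ X, f x = Monoid.PushoutI.of (φ := h28_incl h1 h2) true ⟨x, hx⟩)
    (hL : ∀ t : G, ∀ ht : t ∈ Y ⊔ L, t ∈ L →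
      f t = Monoid.PushoutI.of (φ := h28_incl h1 h2) false ⟨t, ht⟩)
    (l : List (G × G)) (hl : Rd X Y L l) (hne : l ≠ []) :
    ∃ w : Monoid.CoprodI.Word fun b => h28_fac X (Y ⊔ L) b,
      Monoid.PushoutI.Reduced (h28_incl h1 h2) w ∧ w.fstIdx = some false ∧
      ∃ y : Y, f (wp l) = Monoid.PushoutI.ofCoprodI (φ := h28_incl h1 h2) w.prod *
        Monoid.PushoutI.base (h28_incl h1 h2) y := by
  induction l with
  | nil => exact absurd rfl hne
  | cons p l ih =>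
    obtain ⟨t, x⟩ := p
    obtain ⟨ht, htY, hx, hxY, hl'⟩ := hl
    simp only at ht htY hx hxY
    have ht' : t ∈ Y ⊔ L := le_sup_right (a := Y) ht
    have hE : Monoid.PushoutI.Reduced (h28_incl h1 h2)
        (Monoid.CoprodI.Word.empty : Monoid.CoprodI.Word fun b => h28_fac X (Y ⊔ L) b) := by
      intro g hg
      simp [Monoid.CoprodI.Word.empty] at hg
    have hE' : ∀ b, (Monoid.CoprodI.Word.empty :
        Monoid.CoprodI.Word fun b => h28_fac X (Y ⊔ L) b).fstIdx ≠ some b := by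
      intro b
      simp [Monoid.CoprodI.Word.empty, Monoid.CoprodI.Word.fstIdx]
    by_cases hnil : l = []
    · subst hnil
      have hw : wp [(t, x)] = t * x := by simp [wp]
      rw [hw, map_mul, hL t ht' ht, hX x hx]
      by_cases hxY' : x ∈ Y
      · obtain ⟨w, hw1, hw2, hw3⟩ := h28_reduced_cons h1 h2 (b := false) ⟨t, ht'⟩ htY hE (hE' _)
        refine ⟨w, hw1, hw2, ⟨x, hxY'⟩, ?_⟩
        rw [hw3, Monoid.CoprodI.Word.prod_empty, map_one, mul_one,
          h28_of_fac h1 h2 true x hxY']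
      · obtain ⟨w, hw1, hw2, hw3⟩ := h28_reduced_cons h1 h2 (b := true) ⟨x, hx⟩ hxY' hE (hE' _)
        obtain ⟨w', hw1', hw2', hw3'⟩ := h28_reduced_cons h1 h2 (b := false) ⟨t, ht'⟩ htY hw1
          (by rw [hw2]; simp)
        refine ⟨w', hw1', hw2', 1, ?_⟩
        rw [hw3', hw3, Monoid.CoprodI.Word.prod_empty, map_one, map_one, mul_one, mul_one]
    · obtain ⟨w, hw1, hw2, y, hy⟩ := ih hl' hnil
      have hxY' : x ∉ Y := hxY hnil
      obtain ⟨w', hw1', hw2', hw3'⟩ := h28_reduced_cons h1 h2 (b := true) ⟨x, hx⟩ hxY' hw1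
        (by rw [hw2]; simp)
      obtain ⟨w'', hw1'', hw2'', hw3''⟩ := h28_reduced_cons h1 h2 (b := false) ⟨t, ht'⟩ htY hw1'
        (by rw [hw2']; simp)
      refine ⟨w'', hw1'', hw2'', y, ?_⟩
      have hw : wp ((t, x) :: l) = t * x * wp l := rfl
      rw [hw, map_mul, map_mul, hL t ht' ht, hX x hx, hy, hw3'', hw3']
      group

variable {X Y L : Subgroup G}

/-- R6 -/
theorem RA.of_up (le : Y ≤ X) (norm : ∀ t ∈ L, ∀ y ∈ Y, t * y * t⁻¹ ∈ Y)
    (inter : ∀ t ∈ L, t ∈ X → t ∈ Y) (gen : X ⊔ L = ⊤) (h : UP X Y L) : RA X Y L := by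
  refine ⟨le, norm, inter, gen, ?_⟩
  have h2 : Y ≤ Y ⊔ L := le_sup_left
  have hX : X ≤ h28_fac X (Y ⊔ L) true := le_refl X
  have hL : L ≤ h28_fac X (Y ⊔ L) false := (le_sup_right : L ≤ Y ⊔ L)
  have hinj : ∀ b, Function.Injective (h28_incl le h2 b) := fun b =>
    Subgroup.inclusion_injective _
  obtain ⟨F, hF1, hF2⟩ := h (Monoid.PushoutI (h28_incl le h2))
    ((Monoid.PushoutI.of (φ := h28_incl le h2) true).comp (Subgroup.inclusion hX))
    ((Monoid.PushoutI.of (φ := h28_incl le h2) false).comp (Subgroup.inclusion hL))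
    (by
      intro z hzX hzL
      have hz : z ∈ Y := inter z hzL hzX
      have e1 := h28_of_fac le h2 true z hz (hX hzX)
      have e2 := h28_of_fac le h2 false z hz (hL hzL)
      exact e1.trans e2.symm)
    (by
      intro t y hy hX'
      have hz : (t : G) * y * (t : G)⁻¹ ∈ Y := norm t t.2 y hy
      have e1 := h28_of_fac le h2 true _ hz (hX hX')
      have e2 := h28_of_fac le h2 false _ hz (h28_le_fac le h2 false hz)
      have e3 := h28_of_fac le h2 true _ hy (hX y.2)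
      have e4 := h28_of_fac le h2 false _ hy (h28_le_fac le h2 false hy)
      have e5 : (⟨(t : G) * y * (t : G)⁻¹, h28_le_fac le h2 false hz⟩ :
          h28_fac X (Y ⊔ L) false) = Subgroup.inclusion hL t *
          ⟨(y : G), h28_le_fac le h2 false hy⟩ * (Subgroup.inclusion hL t)⁻¹ := Subtype.ext rfl
      rw [e5, map_mul, map_mul, map_inv, e4, ← e3] at e2
      exact e1.trans e2.symm)
  intro x hx l hl hne hmem
  obtain ⟨w, hw1, hw2, y, hy⟩ := h28_word le h2 F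
    (fun x hx => hF1 ⟨x, hx⟩) (fun t _ ht => hF2 ⟨t, ht⟩) l hl hne
  have hu : x⁻¹ * (x * wp l) ∈ X := X.mul_mem (X.inv_mem hx) hmem
  have hu' : F (x⁻¹ * (x * wp l)) = Monoid.PushoutI.of (φ := h28_incl le h2) true
      ⟨x⁻¹ * (x * wp l), hX hu⟩ := hF1 ⟨x⁻¹ * (x * wp l), hu⟩
  rw [inv_mul_cancel_left] at hu
  have hu2 : F (wp l) = Monoid.PushoutI.of (φ := h28_incl le h2) true ⟨wp l, hX hu⟩ :=
    hF1 ⟨wp l, hu⟩
  rw [hu2] at hy
  by_cases huY : wp l ∈ Y
  · have e1 : Monoid.PushoutI.ofCoprodI (φ := h28_incl le h2) w.prod ∈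
        (Monoid.PushoutI.base (h28_incl le h2)).range := by
      refine ⟨⟨wp l, huY⟩ * y⁻¹, ?_⟩
      rw [map_mul, map_inv, ← h28_of_fac le h2 true (wp l) huY (hX hu), hy, mul_inv_cancel_right]
    have e2 := Monoid.PushoutI.Reduced.eq_empty_of_mem_range hinj hw1 e1
    rw [e2] at hw2
    simp [Monoid.CoprodI.Word.empty, Monoid.CoprodI.Word.fstIdx] at hw2
  · have huY' : (wp l)⁻¹ ∉ Y := fun h => huY (by simpa using Y.inv_mem h)
    obtain ⟨w', hw1', hw2', hw3'⟩ := h28_reduced_cons le h2 (b := true)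
      ⟨(wp l)⁻¹, hX (X.inv_mem hu)⟩ huY' hw1 (by rw [hw2]; simp)
    have e0 : (⟨(wp l)⁻¹, hX (X.inv_mem hu)⟩ : h28_fac X (Y ⊔ L) true) =
        (⟨wp l, hX hu⟩ : h28_fac X (Y ⊔ L) true)⁻¹ := rfl
    have e1 : Monoid.PushoutI.ofCoprodI (φ := h28_incl le h2) w'.prod ∈
        (Monoid.PushoutI.base (h28_incl le h2)).range := by
      refine ⟨y⁻¹, ?_⟩
      rw [hw3', e0, map_inv, map_inv, hy, mul_inv_rev, inv_mul_cancel_right]
    have e2 := Monoid.PushoutI.Reduced.eq_empty_of_mem_range hinj hw1' e1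
    rw [e2] at hw2'
    simp [Monoid.CoprodI.Word.empty, Monoid.CoprodI.Word.fstIdx] at hw2'

end r6

end Pool.Agent.Helper98.AAD
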