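import Pool.Agent.Helper98.AAD.DefsV
import Pool.Agent.Helper98.AAD.R1
import Pool.Agent.Helper98.AAD.R5
import Pool.Agent.Helper98.AAD.R6
import Pool.Agent.Helper98.AAD.Q1

/-!
A0b : the new structure obtained by enlarging `E` (problem MP_aade38_al).
-/

set_option autoImplicit false

namespace Pool.Agent.Helper98.AAD

section ae

variable {G : Type} [Group G] {q : Multiplicative ℚ →* G} {β : ℕ → Subgroup G}

/-- a homomorphism on the old group from homomorphisms on the parts of the new one -/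
theorem h68_F0 (hq : QS q β) {G' : Type} [Group G'] {i : G →* G'} {β' : ℕ → Subgroup G'}
    (hB : ∀ x, i x ∈ Bb β' ↔ x ∈ Bb β) (h0 : ∀ x ∈ β 0, i x ∈ β' 0) {K : Type} [Group K]
    (f : Bb β' →* K) (g : (i.comp q).range →* K)
    (hfg : ∀ (z : G') (hX : z ∈ Bb β') (hL : z ∈ (i.comp q).range), f ⟨z, hX⟩ = g ⟨z, hL⟩)
    (hfg' : ∀ (t : (i.comp q).range) (y : Bb β'), (y : G') ∈ β' 0 →
      ∀ h : (t : G') * y * (t : G')⁻¹ ∈ Bb β',
        f ⟨(t : G') * y * (t : G')⁻¹, h⟩ = g t * f y * (g t)⁻¹) :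
    ∃ F0 : G →* K, (∀ b (hb : b ∈ Bb β), F0 b = f ⟨i b, (hB b).2 hb⟩) ∧
      ∀ s, F0 (q s) = g ⟨i (q s), s, rfl⟩ := by
  let f0 : Bb β →* K := f.comp
    ((i.comp (Bb β).subtype).codRestrict (Bb β') fun b => (hB b).2 b.2)
  let g0 : q.range →* K := g.comp
    ((i.comp q.range.subtype).codRestrict (i.comp q).range fun b => by
      obtain ⟨b, s, rfl⟩ := b
      exact ⟨s, rfl⟩)
  obtain ⟨F0, hF0, hF0'⟩ := hq.ra.up K f0 g0 (fun z hX hL => hfg (i z) _ _) (by
    intro s y hy h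
    have h1 := hfg' ⟨i s, by obtain ⟨_, s, rfl⟩ := s; exact ⟨s, rfl⟩⟩
      ⟨i y, (hB y).2 y.2⟩ (h0 y hy) (by
        have h2 := (hB _).2 h
        simpa using h2)
    have h3 : f0 ⟨(s : G) * y * (s : G)⁻¹, h⟩ = f ⟨i s * i y * (i s)⁻¹, by
        have h2 := (hB _).2 h
        simpa using h2⟩ := by
      change f ⟨_, _⟩ = f ⟨_, _⟩
      congr 1
      apply Subtype.ext
      simp
    rw [h3]
    exact h1)
  exact ⟨F0, fun b hb => hF0 ⟨b, hb⟩, fun s => hF0' ⟨q s, s, rfl⟩⟩

/-- A0b -/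
theorem AE_qs {Γ E : Subgroup G} (h : IsSt q β Γ E) {F' : Type} [CommGroup F'] {j : E →* F'}
    {G' : Type} [Group G'] {i : G →* G'} {k : F' →* G'} (hi : Function.Injective i)
    (hkj : ∀ e : E, k (j e) = i e) (hc : ∀ γ ∈ Γ, ∀ x, k x * i γ = i γ * k x)
    (hk : ∀ x, k x ∈ i.range → x ∈ j.range)
    (hra : RA i.range ((Γ ⊔ E).map i) k.range) :
    QS (i.comp q) (fun n => (β n).map i ⊔ k.range) ∧
    QEmb i q β (i.comp q) (fun n => (β n).map i ⊔ k.range) := by
  have hq := h.qs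
  have hEβ : ∀ n, E ≤ β n := fun n => h.EC.trans (hq.mono (Nat.zero_le n))
  have hcE : ∀ y ∈ Γ ⊔ E, ∀ x, k x * i y = i y * k x := by
    intro y hy x
    have h1 : Γ ⊔ E ≤ (Subgroup.centralizer {k x}).comap i := by
      refine sup_le ?_ ?_
      · intro γ hγ
        rw [Subgroup.mem_comap, Subgroup.mem_centralizer_singleton_iff]
        exact (hc γ hγ x).symm
      · intro e he
        rw [Subgroup.mem_comap, Subgroup.mem_centralizer_singleton_iff]
        have h2 : i e = k (j ⟨e, he⟩) := (hkj ⟨e, he⟩).symm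
        rw [h2, ← map_mul, ← map_mul, mul_comm]
    have h3 := h1 hy
    rw [Subgroup.mem_comap, Subgroup.mem_centralizer_singleton_iff] at h3
    exact h3.symm
  have hkE : ∀ x, k x ∈ i.range → ∃ e : E, k x = i e := by
    intro x hx
    obtain ⟨e, rfl⟩ := hk x hx
    exact ⟨e, hkj e⟩
  have hcomap : ∀ n x, i x ∈ (β n).map i ⊔ k.range ↔ x ∈ β n := by
    intro n x
    constructor
    · intro hx
      obtain ⟨x0, hx0, l, hl, -, e⟩ := hra.formZ (Z := (β n).map i) (Subgroup.map_le_range i _)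
        (by
          rintro _ ⟨y, rfl⟩ hy
          obtain ⟨e, he⟩ := hkE y hy
          rw [he]
          exact Subgroup.mem_map_of_mem _ (hEβ n e.2))
        (by
          rintro _ ⟨y, rfl⟩ _ ⟨z, hz, rfl⟩
          exact hcE z hz y) hx
      have hl0 : l = [] := by
        by_contra hne
        refine hra.nf x0 (Subgroup.map_le_range i _ hx0) l hl hne ?_
        rw [← e]
        exact ⟨x, rfl⟩
      subst hl0
      rw [wp, mul_one] at e
      obtain ⟨b, hb, rfl⟩ := hx0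
      rw [hi e]
      exact hb
    · intro hx
      exact Subgroup.mem_sup_left (Subgroup.mem_map_of_mem _ hx)
  have hmono : Monotone (fun n => (β n).map i ⊔ k.range) := fun m n hmn =>
    sup_le_sup (Subgroup.map_mono (hq.mono hmn)) le_rfl
  have hBb : ∀ x, x ∈ Bb (fun n => (β n).map i ⊔ k.range) ↔ ∃ n, x ∈ (β n).map i ⊔ k.range :=
    fun x => mem_Bb hmono
  have hB : ∀ x, i x ∈ Bb (fun n => (β n).map i ⊔ k.range) ↔ x ∈ Bb β := by
    intro x
    rw [hBb, mem_Bb hq.mono]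
    exact exists_congr fun n => hcomap n x
  have hkr : ∀ x, k x ∈ (β 0).map i ⊔ k.range := fun x => Subgroup.mem_sup_right ⟨x, rfl⟩
  have hle : (β 0).map i ⊔ k.range ≤ Bb (fun n => (β n).map i ⊔ k.range) :=
    le_iSup (fun n => (β n).map i ⊔ k.range) 0
  have hqk : ∀ s x, i (q s) * k x * (i (q s))⁻¹ = k x := by
    intro s x
    rw [← hc (q s) (h.QΓ ⟨s, rfl⟩) x, mul_inv_cancel_right]
  refine ⟨⟨?_, hmono, RA.of_up hle ?_ ?_ ?_ ?_⟩, ⟨hi, fun _ => rfl, hcomap⟩⟩
  · intro s hs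
    exact hq.disj s ((hcomap 0 _).1 hs)
  · rintro _ ⟨s, rfl⟩ y hy
    have h1 : (β 0).map i ⊔ k.range ≤
        ((β 0).map i ⊔ k.range).comap (MulAut.conj (i (q s))).toMonoidHom := by
      refine sup_le ?_ ?_
      · rintro _ ⟨b, hb, rfl⟩
        rw [Subgroup.mem_comap]
        have h2 : (MulAut.conj (i (q s))).toMonoidHom (i b) = i (q s * b * (q s)⁻¹) := by
          simp
        rw [h2]
        exact (hcomap 0 _).2 (hq.ra.norm _ ⟨s, rfl⟩ b hb)
      · rintro _ ⟨x, rfl⟩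
        rw [Subgroup.mem_comap]
        have h2 : (MulAut.conj (i (q s))).toMonoidHom (k x) = k x := by
          simpa using hqk s x
        rw [h2]
        exact hkr x
    exact h1 hy
  · rintro _ ⟨s, rfl⟩ hs
    exact (hcomap 0 _).2 (hq.ra.inter _ ⟨s, rfl⟩ ((hB _).1 hs))
  · rw [eq_top_iff, ← hra.gen]
    refine sup_le ?_ ?_
    · rintro _ ⟨g, rfl⟩
      have h1 : g ∈ Bb β ⊔ q.range := by
        rw [hq.ra.gen]
        trivial
      have h2 : Bb β ⊔ q.range ≤
          (Bb (fun n => (β n).map i ⊔ k.range) ⊔ (i.comp q).range).comap i := by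
        refine sup_le ?_ ?_
        · intro b hb
          exact Subgroup.mem_sup_left ((hB b).2 hb)
        · rintro _ ⟨s, rfl⟩
          exact Subgroup.mem_sup_right ⟨s, rfl⟩
      exact h2 h1
    · rintro _ ⟨x, rfl⟩
      exact Subgroup.mem_sup_left (hle (hkr x))
  · intro K _ f g hfg hfg'
    obtain ⟨F0, hF0, hF0q⟩ := h68_F0 hq hB
      (fun x hx => Subgroup.mem_sup_left (Subgroup.mem_map_of_mem _ hx)) f g hfg hfg'
    have hfk : ∀ x, ∀ y ∈ Γ ⊔ E, f ⟨k x, hle (hkr x)⟩ * F0 y = F0 y * f ⟨k x, hle (hkr x)⟩ := by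
      intro x y hy
      have hBcom : ∀ b ∈ Γ ⊔ E, b ∈ Bb β →
          b ∈ (Subgroup.centralizer {f ⟨k x, hle (hkr x)⟩}).comap F0 := by
        intro b hb hbB
        rw [Subgroup.mem_comap, Subgroup.mem_centralizer_singleton_iff, hF0 b hbB, ← map_mul,
          ← map_mul]
        congr 1
        apply Subtype.ext
        exact (hcE b hb x).symm
      have h1 : Γ ⊔ E ≤ (Subgroup.centralizer {f ⟨k x, hle (hkr x)⟩}).comap F0 := by
        refine sup_le (h.gen.trans (sup_le ?_ ?_)) ?_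
        · intro b hb
          exact hBcom b (Subgroup.mem_sup_left hb.1) hb.2
        · rintro _ ⟨s, rfl⟩
          rw [Subgroup.mem_comap, Subgroup.mem_centralizer_singleton_iff, hF0q]
          have h2 := hfg' ⟨i (q s), s, rfl⟩ ⟨k x, hle (hkr x)⟩ (hkr x) (by
            rw [hqk s x]
            exact hle (hkr x))
          have h3 : (⟨i (q s) * k x * (i (q s))⁻¹, by
              rw [hqk s x]
              exact hle (hkr x)⟩ : Bb (fun n => (β n).map i ⊔ k.range)) =
              ⟨k x, hle (hkr x)⟩ := Subtype.ext (hqk s x)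
          rw [h3] at h2
          conv_rhs => rw [h2]
          rw [inv_mul_cancel_right]
        · intro e he
          exact hBcom e (Subgroup.mem_sup_right he) ((mem_Bb hq.mono).2 ⟨0, h.EC he⟩)
      have h3 := h1 hy
      rw [Subgroup.mem_comap, Subgroup.mem_centralizer_singleton_iff] at h3
      exact h3.symm
    let f1 : i.range →* K := F0.comp (MonoidHom.ofInjective hi).symm.toMonoidHom
    have hf1 : ∀ x (hx : i x ∈ i.range), f1 ⟨i x, hx⟩ = F0 x := by
      intro x hx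
      have h1 : (MonoidHom.ofInjective hi).symm ⟨i x, hx⟩ = x := by
        rw [MulEquiv.symm_apply_eq]
        rfl
      change F0 ((MonoidHom.ofInjective hi).symm ⟨i x, hx⟩) = F0 x
      rw [h1]
    let g1 : k.range →* K := f.comp (Subgroup.inclusion (by
      rintro _ ⟨x, rfl⟩
      exact hle (hkr x)))
    have hg1 : ∀ x (hx : k x ∈ k.range), g1 ⟨k x, hx⟩ = f ⟨k x, hle (hkr x)⟩ := fun _ _ => rfl
    obtain ⟨F, hF, hFk⟩ := hra.up K f1 g1
      (by
        rintro z hX ⟨x, rfl⟩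
        obtain ⟨e, he⟩ := hkE x hX
        rw [hg1]
        have h1 : (⟨k x, hX⟩ : i.range) = ⟨i e, ⟨_, rfl⟩⟩ := Subtype.ext he
        rw [h1, hf1, hF0 e ((mem_Bb hq.mono).2 ⟨0, h.EC e.2⟩)]
        congr 1
        exact Subtype.ext he.symm)
      (by
        rintro ⟨_, x, rfl⟩ ⟨_, y', rfl⟩ ⟨y, hy, hyy⟩ hm
        have h1 : y = y' := hi hyy
        subst h1
        have h2 : k x * i y * (k x)⁻¹ = i y := by
          rw [hcE y hy x, mul_inv_cancel_right]
        have h3 : (⟨k x * i y * (k x)⁻¹, hm⟩ : i.range) = ⟨i y, ⟨_, rfl⟩⟩ := Subtype.ext h2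
        change f1 ⟨k x * i y * (k x)⁻¹, hm⟩ = _
        rw [h3, hf1]
        change F0 y = f ⟨k x, hle (hkr x)⟩ * F0 y * (f ⟨k x, hle (hkr x)⟩)⁻¹
        rw [hfk x y hy, mul_inv_cancel_right])
    have hFi : ∀ x, F (i x) = F0 x := by
      intro x
      have h1 := hF ⟨i x, ⟨_, rfl⟩⟩
      rw [hf1] at h1
      exact h1
    refine ⟨F, ?_, ?_⟩
    · have h1 : Bb (fun n => (β n).map i ⊔ k.range) ≤
          (MonoidHom.eqLocus (F.comp (Bb (fun n => (β n).map i ⊔ k.range)).subtype) f).map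
            (Bb (fun n => (β n).map i ⊔ k.range)).subtype := by
        refine iSup_le fun n => sup_le ?_ ?_
        · rintro _ ⟨b, hb, rfl⟩
          have hbB : b ∈ Bb β := (mem_Bb hq.mono).2 ⟨n, hb⟩
          refine ⟨⟨i b, (hB b).2 hbB⟩, ?_, rfl⟩
          change F (i b) = f _
          rw [hFi, hF0 b hbB]
        · rintro _ ⟨x, rfl⟩
          refine ⟨⟨k x, hle (hkr x)⟩, ?_, rfl⟩
          exact hFk ⟨k x, ⟨_, rfl⟩⟩
      intro x
      obtain ⟨y, hy, hyx⟩ := h1 x.2
      have hyx' : y = x := Subtype.ext hyx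
      subst hyx'
      exact hy
    · rintro ⟨_, s, rfl⟩
      change F (i (q s)) = g _
      rw [hFi, hF0q]
      rfl

end ae

end Pool.Agent.Helper98.AAD
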