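import Pool.Agent.Helper98.AAD.R3

/-!
Project AAD, module QE: embeddings of the basic structures preserve and reflect everything.
-/

set_option autoImplicit false

namespace Pool.Agent.Helper98.AAD

section emb

variable {G G' : Type} [Group G] [Group G'] {f : G →* G'} {q : Multiplicative ℚ →* G}
  {β : ℕ → Subgroup G} {q' : Multiplicative ℚ →* G'} {β' : ℕ → Subgroup G'}

private theorem h83_mem_Bb {H : Type} [Group H] {γ : ℕ → Subgroup H} (hm : Monotone γ) {x : H} :
    x ∈ Bb γ ↔ ∃ j, x ∈ γ j := by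
  unfold Bb
  exact Subgroup.mem_iSup_of_directed hm.directed_le

theorem QEmb.mem_Bb_iff (h : QEmb f q β q' β') (hq : QS q β) (hq' : QS q' β') {x : G} :
    f x ∈ Bb β' ↔ x ∈ Bb β := by
  rw [h83_mem_Bb hq.mono, h83_mem_Bb hq'.mono]
  exact exists_congr fun j => h.hβ j x

private theorem h83_range (h : QEmb f q β q' β') {x : G} : f x ∈ q'.range ↔ x ∈ q.range := by
  constructor
  · rintro ⟨t, ht⟩
    exact ⟨t, h.inj (by rw [h.hq, ht])⟩
  · rintro ⟨t, rfl⟩
    exact ⟨t, (h.hq t).symm⟩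

theorem QEmb.rd_iff (h : QEmb f q β q' β') (hq : QS q β) (hq' : QS q' β') {l : List (G × G)} :
    Rq q' β' (l.map (Prod.map f f)) ↔ Rq q β l := by
  induction l with
  | nil => simp [Rq, Rd]
  | cons p l ih =>
    have h1 := h83_range h (x := p.1)
    have h2 := h.hβ 0 p.1
    have h3 := h.mem_Bb_iff hq hq' (x := p.2)
    have h4 := h.hβ 0 p.2
    have h5 : l.map (Prod.map f f) ≠ [] ↔ l ≠ [] := by simp
    simp only [Rq] at ih
    simp only [Rq, Rd, List.map_cons, Prod.map_fst, Prod.map_snd, h1, h2, h3, h4, h5, ih]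

theorem QEmb.wp_map (l : List (G × G)) : wp (l.map (Prod.map f f)) = f (wp l) := by
  induction l with
  | nil => simp [wp]
  | cons p l ih => simp only [List.map_cons, wp, Prod.map_fst, Prod.map_snd, ih, map_mul]

theorem QEmb.ql_eq (h : QEmb f q β q' β') (hq : QS q β) (hq' : QS q' β') (x : G) :
    ql q' β' (f x) = ql q β x := by
  obtain ⟨x0, hx0, l, hl, rfl⟩ := hq.ra.form x
  have h1 : ql q β (x0 * wp l) = l.length := hq.ra.rlen_form hx0 hl
  have h2 : ql q' β' (f x0 * wp (l.map (Prod.map f f))) = (l.map (Prod.map f f)).length :=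
    hq'.ra.rlen_form ((h.mem_Bb_iff hq hq').2 hx0) ((h.rd_iff hq hq').2 hl)
  rw [QEmb.wp_map, ← map_mul] at h2
  rw [h1, h2, List.length_map]

theorem QEmb.nice (h : QEmb f q β q' β') (hq : QS q β) (hq' : QS q' β') (Γ : Subgroup G) (g : G) :
    Nice q' β' (Γ.map f) (f g) ↔ Nice q β Γ g := by
  unfold Nice
  rw [h.ql_eq hq hq']
  refine and_congr_right fun _ => ⟨fun H a ha b hb => ?_, ?_⟩
  · have := H (f a) (Subgroup.mem_map_of_mem f ha) (f b) (Subgroup.mem_map_of_mem f hb)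
    rwa [← map_mul, ← map_mul, h.ql_eq hq hq', h.ql_eq hq hq', h.ql_eq hq hq'] at this
  · rintro H _ ⟨a, ha, rfl⟩ _ ⟨b, hb, rfl⟩
    rw [← map_mul, ← map_mul, h.ql_eq hq hq', h.ql_eq hq hq', h.ql_eq hq hq']
    exact H a ha b hb

private theorem h83_sameLev (h : QEmb f q β q' β') {x y : G} :
    SameLev β' (f x) (f y) ↔ SameLev β x y :=
  forall_congr' fun j => by rw [h.hβ, h.hβ]

private theorem h83_forall₂ (h : QEmb f q β q' β') {l l' : List (G × G)} :
    List.Forall₂ (fun p p' => p.1 = p'.1 ∧ SameLev β' p.2 p'.2) (l.map (Prod.map f f))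
      (l'.map (Prod.map f f)) ↔
    List.Forall₂ (fun p p' => p.1 = p'.1 ∧ SameLev β p.2 p'.2) l l' := by
  rw [List.forall₂_map_left_iff, List.forall₂_map_right_iff]
  have : (fun (a c : G × G) => (Prod.map f f a).1 = (Prod.map f f c).1 ∧
      SameLev β' (Prod.map f f a).2 (Prod.map f f c).2) =
      fun a c => a.1 = c.1 ∧ SameLev β a.2 c.2 := by
    funext a c
    simp only [Prod.map_fst, Prod.map_snd, h.inj.eq_iff, h83_sameLev h]
  rw [this]

section one

variable {H : Type} [Group H] {r : Multiplicative ℚ →* H} {γ : ℕ → Subgroup H}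

/-- elements which differ by factors in `γ 0` have the same level -/
private theorem h83_lev_mul (hm : Monotone γ) {a b x y : H} (ha : a ∈ γ 0) (hb : b ∈ γ 0)
    (e : x = a * y * b) : SameLev γ x y := by
  intro j
  have ha' : a ∈ γ j := hm (Nat.zero_le j) ha
  have hb' : b ∈ γ j := hm (Nat.zero_le j) hb
  rw [e, Subgroup.mul_mem_cancel_right _ hb', Subgroup.mul_mem_cancel_left _ ha']

private theorem h83_sim_forall₂ (hr : QS r γ) {y : H} {l l' : List (H × H)}
    (h : Sim (γ 0) y l l') (hl : Rq r γ l) (hl' : Rq r γ l') :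
    List.Forall₂ (fun p p' => p.1 = p'.1 ∧ SameLev γ p.2 p'.2) l l' := by
  induction h with
  | nil => exact List.Forall₂.nil
  | @cons y t x t' x' l l' hy hz hs ih =>
    have hl1 : t ∈ r.range := hl.1
    have hl1' : t' ∈ r.range := hl'.1
    have hlt : Rq r γ l := hl.2.2.2.2
    have hlt' : Rq r γ l' := hl'.2.2.2.2
    refine List.Forall₂.cons ⟨?_, ?_⟩ (ih hlt hlt')
    · obtain ⟨s, rfl⟩ := hl1
      obtain ⟨s', rfl⟩ := hl1'
      have h1 : (r s)⁻¹ * y * (r s)⁻¹⁻¹ ∈ γ 0 :=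
        hr.ra.norm _ (inv_mem (MonoidHom.mem_range.2 ⟨s, rfl⟩)) y hy
      have h2 : ((r s)⁻¹ * y * (r s)⁻¹⁻¹)⁻¹ * ((r s)⁻¹ * y * r s') ∈ γ 0 :=
        mul_mem (inv_mem h1) hz
      have h3 : ((r s)⁻¹ * y * (r s)⁻¹⁻¹)⁻¹ * ((r s)⁻¹ * y * r s') = r (s⁻¹ * s') := by
        rw [map_mul, map_inv]
        group
      rw [h3] at h2
      have h4 := hr.disj _ h2
      have h5 : s' = s := by
        have : s * (s⁻¹ * s') = s * 1 := by rw [h4]
        simpa using this
      simp only [h5]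
    · have h6 := hs.mem
      refine h83_lev_mul hr.mono hz (inv_mem h6) ?_
      group

/-- moving an element of `C` through a reduced word -/
private theorem h83_absorb (hr : QS r γ) {x0 : H} (hx : x0 ∈ γ 0) {l : List (H × H)}
    (hl : Rq r γ l) (hne : l ≠ []) : ∃ m : List (H × H), Rq r γ m ∧ m ≠ [] ∧
      x0 * wp l = wp m ∧ ((∀ p ∈ l, p.2 ∉ γ 0) → ∀ p ∈ m, p.2 ∉ γ 0) := by
  cases l with
  | nil => exact absurd rfl hne
  | cons p l =>
    obtain ⟨h1, h2, h3, h4, h5⟩ := hl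
    have hz : p.1⁻¹ * x0 * p.1⁻¹⁻¹ ∈ γ 0 := hr.ra.norm _ (inv_mem h1) x0 hx
    rw [inv_inv] at hz
    have hzB : p.1⁻¹ * x0 * p.1 ∈ Bb γ := hr.ra.le hz
    have h6 : (p.1⁻¹ * x0 * p.1) * p.2 ∈ γ 0 ↔ p.2 ∈ γ 0 := Subgroup.mul_mem_cancel_left _ hz
    refine ⟨(p.1, (p.1⁻¹ * x0 * p.1) * p.2) :: l, ⟨h1, h2, mul_mem hzB h3, ?_, h5⟩,
      List.cons_ne_nil _ _, ?_, ?_⟩
    · intro hl0
      simp only [h6]
      exact h4 hl0
    · simp only [wp]
      group
    · intro H p' hp'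
      rcases List.mem_cons.1 hp' with rfl | hp'
      · simp only [h6]
        exact H p (List.mem_cons_self ..)
      · exact H p' (List.mem_cons_of_mem _ hp')

end one

theorem QEmb.sh (h : QEmb f q β q' β') (hq : QS q β) (hq' : QS q' β') {x x' : G} :
    Sh q' β' (f x) (f x') ↔ Sh q β x x' := by
  constructor
  · rintro ⟨c, c', m, m', hc, hcc, hm, hmm, e, e'⟩
    obtain ⟨b, hb, l, hl, ex⟩ := hq.ra.form x
    obtain ⟨b', hb', l', hl', ex'⟩ := hq.ra.form x'
    have hm' : Rq q' β' m' := by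
      clear e e' ex ex'
      induction hmm with
      | nil => trivial
      | @cons p p' m m' hpp hmm' ih =>
        obtain ⟨h1, h2, h3, h4, h5⟩ := hm
        refine ⟨hpp.1 ▸ h1, hpp.1 ▸ h2, ?_, ?_, ih h5⟩
        · rw [h83_mem_Bb hq'.mono] at h3 ⊢
          obtain ⟨j, hj⟩ := h3
          exact ⟨j, (hpp.2 j).1 hj⟩
        · intro hne
          have hne' : m ≠ [] := by
            intro h0
            subst h0
            cases hmm'
            exact hne rfl
          exact fun h0 => h4 hne' ((hpp.2 0).2 h0)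
    have hc' : c' ∈ Bb β' := by
      rw [h83_mem_Bb hq'.mono] at hc ⊢
      obtain ⟨j, hj⟩ := hc
      exact ⟨j, (hcc j).1 hj⟩
    have hfb : f b ∈ Bb β' := (h.mem_Bb_iff hq hq').2 hb
    have hfb' : f b' ∈ Bb β' := (h.mem_Bb_iff hq hq').2 hb'
    have hfl := (h.rd_iff hq hq').2 hl
    have hfl' := (h.rd_iff hq hq').2 hl'
    have s1 : Sim (β' 0) (c⁻¹ * f b) m (l.map (Prod.map f f)) := by
      refine hq'.ra.sim (mul_mem (inv_mem hc) hfb) hm hfl ?_
      rw [QEmb.wp_map, mul_assoc, ← map_mul, ← ex, e]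
      group
    have s2 : Sim (β' 0) (c'⁻¹ * f b') m' (l'.map (Prod.map f f)) := by
      refine hq'.ra.sim (mul_mem (inv_mem hc') hfb') hm' hfl' ?_
      rw [QEmb.wp_map, mul_assoc, ← map_mul, ← ex', e']
      group
    refine ⟨b, b', l, l', hb, ?_, hl, ?_, ex, ex'⟩
    · intro j
      rw [← h.hβ, ← h.hβ]
      have k1 : f b ∈ β' j ↔ c ∈ β' j := by
        have hy : c⁻¹ * f b ∈ β' j := hq'.mono (Nat.zero_le j) s1.mem
        constructor
        · intro h0
          have := mul_mem h0 (inv_mem hy)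
          simpa using this
        · intro h0
          have := mul_mem h0 hy
          simpa using this
      have k2 : f b' ∈ β' j ↔ c' ∈ β' j := by
        have hy : c'⁻¹ * f b' ∈ β' j := hq'.mono (Nat.zero_le j) s2.mem
        constructor
        · intro h0
          have := mul_mem h0 (inv_mem hy)
          simpa using this
        · intro h0
          have := mul_mem h0 hy
          simpa using this
      rw [k1, k2]
      exact hcc j
    · rw [← h83_forall₂ h]
      have f1 := h83_sim_forall₂ hq' s1 hm hfl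
      have f2 := h83_sim_forall₂ hq' s2 hm' hfl'
      rw [List.forall₂_iff_get] at f1 f2 hmm ⊢
      refine ⟨by rw [← f1.1, hmm.1, f2.1], fun i hi hi' => ?_⟩
      have i1 : i < m.length := by rw [f1.1]; exact hi
      have i2 : i < m'.length := by rw [f2.1]; exact hi'
      have g1 := f1.2 i i1 hi
      have g2 := f2.2 i i2 hi'
      have g3 := hmm.2 i i1 i2
      refine ⟨by rw [← g1.1, g3.1, g2.1], fun j => ?_⟩
      rw [← g1.2 j, g3.2 j, g2.2 j]
  · rintro ⟨b, b', l, l', hb, hbb, hl, hll, rfl, rfl⟩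
    refine ⟨f b, f b', l.map (Prod.map f f), l'.map (Prod.map f f), (h.mem_Bb_iff hq hq').2 hb,
      (h83_sameLev h).2 hbb, (h.rd_iff hq hq').2 hl, (h83_forall₂ h).2 hll, ?_, ?_⟩
    · rw [QEmb.wp_map, map_mul]
    · rw [QEmb.wp_map, map_mul]

/-- common part of the reflection of `StartsQ` and `CycRed` -/
private theorem h83_reflect (h : QEmb f q β q' β') (hq : QS q β) (hq' : QS q' β') {z : G}
    {l' : List (G' × G')} (hl' : Rq q' β' l') (hne : l' ≠ []) (e : f z = wp l') :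
    ∃ l, Rq q β l ∧ l ≠ [] ∧ z = wp l ∧ ((∀ p ∈ l', p.2 ∉ β' 0) → ∀ p ∈ l, p.2 ∉ β 0) := by
  obtain ⟨x0, hx0, l, hl, ex⟩ := hq.ra.form z
  have hfl := (h.rd_iff hq hq').2 hl
  have s : Sim (β' 0) (f x0) l' (l.map (Prod.map f f)) := by
    refine hq'.ra.sim ((h.mem_Bb_iff hq hq').2 hx0) hl' hfl ?_
    rw [QEmb.wp_map, ← map_mul, ← ex, e]
  have hx0' : x0 ∈ β 0 := (h.hβ 0 x0).1 s.mem
  have hlen := s.length_eq
  have hlne : l ≠ [] := by
    intro h0
    subst h0
    exact hne (List.length_eq_zero_iff.1 (by simpa using hlen))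
  obtain ⟨m, hm, hmne, em, hm0⟩ := h83_absorb hq hx0' hl hlne
  refine ⟨m, hm, hmne, by rw [ex, em], fun H => hm0 fun p hp => ?_⟩
  obtain ⟨i, hi, rfl⟩ := List.mem_iff_getElem.1 hp
  have hi1 : i < (l.map (Prod.map f f)).length := by rw [List.length_map]; exact hi
  have hi2 : i < l'.length := by rw [hlen]; exact hi1
  obtain ⟨a, ha, b, hb, eab⟩ := s.inner i hi2 hi1
  have h1 : (l'[i]).2 ∉ β' 0 := H _ (List.getElem_mem hi2)
  intro h2
  apply h1
  rw [eab]
  refine mul_mem (mul_mem ha ?_) hb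
  rw [List.getElem_map, Prod.map_snd]
  exact (h.hβ 0 _).2 h2

theorem QEmb.startsQ (h : QEmb f q β q' β') (hq : QS q β) (hq' : QS q' β') {z : G} :
    StartsQ q' β' (f z) ↔ StartsQ q β z := by
  constructor
  · rintro ⟨l', hl', hne, e⟩
    obtain ⟨l, hl, hlne, ez, -⟩ := h83_reflect h hq hq' hl' hne e
    exact ⟨l, hl, hlne, ez⟩
  · rintro ⟨l, hl, hne, rfl⟩
    exact ⟨l.map (Prod.map f f), (h.rd_iff hq hq').2 hl, by simpa using hne,
      (QEmb.wp_map l).symm⟩

theorem QEmb.cycRed (h : QEmb f q β q' β') (hq : QS q β) (hq' : QS q' β') {y : G} :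
    CycRed q' β' (f y) ↔ CycRed q β y := by
  constructor
  · rintro ⟨l', hl', hne, h0, e⟩
    obtain ⟨l, hl, hlne, ez, h1⟩ := h83_reflect h hq hq' hl' hne e
    exact ⟨l, hl, hlne, h1 h0, ez⟩
  · rintro ⟨l, hl, hne, h0, rfl⟩
    refine ⟨l.map (Prod.map f f), (h.rd_iff hq hq').2 hl, by simpa using hne, ?_,
      (QEmb.wp_map l).symm⟩
    intro p hp
    obtain ⟨p0, hp0, rfl⟩ := List.mem_map.1 hp
    rw [Prod.map_snd, h.hβ]
    exact h0 p0 hp0

end emb

end Pool.Agent.Helper98.AAD
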