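import Pool.Agent.Helper98.AAD.A0cCore
import Pool.Agent.Helper98.AAD.A0b
import Pool.Agent.Helper98.AAD.QE

/-!
Module A0c: the bound for the amalgam which enlarges `E`.
-/

set_option autoImplicit false

namespace Pool.Agent.Helper98.AAD

variable {G : Type} [Group G] {q : Multiplicative ℚ →* G} {β : ℕ → Subgroup G}

/-- A0c -/
theorem AE_bd {Γ E : Subgroup G} (h : IsSt q β Γ E) {F' : Type} [CommGroup F'] {j : E →* F'}
    {G' : Type} [Group G'] {i : G →* G'} {k : F' →* G'} (hi : Function.Injective i)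
    (hkj : ∀ e : E, k (j e) = i e) (hc : ∀ γ ∈ Γ, ∀ x, k x * i γ = i γ * k x)
    (hk : ∀ x, k x ∈ i.range → x ∈ j.range)
    (hra : RA i.range ((Γ ⊔ E).map i) k.range) :
    ∃ K : ℕ, ∀ b ∈ Bb (fun n => (β n).map i ⊔ k.range), b ∉ Γ.map i ⊔ k.range → ∀ μ ∈ Γ.map i,
      (∃ γ ∈ Γ.map i, γ⁻¹ * b * μ ∈ Bb (fun n => (β n).map i ⊔ k.range)) →
      ql (i.comp q) (fun n => (β n).map i ⊔ k.range) μ ≤ K := by
  obtain ⟨hqs', hemb⟩ := AE_qs h hi hkj hc hk hra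
  exact AE_bd_of h hi hkj hc hk hra (fun x => hemb.mem_Bb_iff h.qs hqs')
    (fun x => hemb.ql_eq h.qs hqs' x)

end Pool.Agent.Helper98.AAD
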