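import Pool.Agent.Helper98.AAD.R3
import Pool.Agent.Helper98.AAD.R4

/-!
Module A0c (core): the bound for the amalgam which enlarges `E`, from the facts on the embedding.
-/

set_option autoImplicit false

namespace Pool.Agent.Helper98.AAD

variable {G : Type} [Group G] {q : Multiplicative ℚ →* G} {β : ℕ → Subgroup G}

private theorem a0c_bb {G' : Type} [Group G'] (i : G →* G') (L : Subgroup G') :
    Bb (fun n => (β n).map i ⊔ L) = (Bb β).map i ⊔ L := by
  unfold Bb
  rw [Subgroup.map_iSup, iSup_sup]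

private theorem a0c_mem_sup {Γ E : Subgroup G} (comm : ∀ e ∈ E, ∀ g ∈ Γ, e * g = g * e) {x : G}
    (hx : x ∈ Γ ⊔ E) : ∃ κ ∈ Γ, ∃ η ∈ E, x = κ * η := by
  let K : Subgroup G :=
    { carrier := {x | ∃ κ ∈ Γ, ∃ η ∈ E, x = κ * η}
      one_mem' := ⟨1, Γ.one_mem, 1, E.one_mem, (one_mul 1).symm⟩
      mul_mem' := by
        rintro x y ⟨κ, hκ, η, hη, rfl⟩ ⟨κ', hκ', η', hη', rfl⟩
        refine ⟨κ * κ', Γ.mul_mem hκ hκ', η * η', E.mul_mem hη hη', ?_⟩
        have := comm η hη κ' hκ'
        calc κ * η * (κ' * η') = κ * (η * κ') * η' := by group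
          _ = κ * (κ' * η) * η' := by rw [this]
          _ = _ := by group
      inv_mem' := by
        rintro x ⟨κ, hκ, η, hη, rfl⟩
        refine ⟨κ⁻¹, Γ.inv_mem hκ, η⁻¹, E.inv_mem hη, ?_⟩
        rw [mul_inv_rev]
        exact comm _ (E.inv_mem hη) _ (Γ.inv_mem hκ) }
  have hle : Γ ⊔ E ≤ K := by
    refine sup_le (fun x hx => ⟨x, hx, 1, E.one_mem, (mul_one x).symm⟩)
      (fun x hx => ⟨1, Γ.one_mem, x, hx, (one_mul x).symm⟩)
  exact hle hx

/-- A0c, core -/
theorem AE_bd_of {Γ E : Subgroup G} (h : IsSt q β Γ E) {F' : Type} [CommGroup F'] {j : E →* F'}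
    {G' : Type} [Group G'] {i : G →* G'} {k : F' →* G'} (hi : Function.Injective i)
    (hkj : ∀ e : E, k (j e) = i e) (hc : ∀ γ ∈ Γ, ∀ x, k x * i γ = i γ * k x)
    (hk : ∀ x, k x ∈ i.range → x ∈ j.range)
    (hra : RA i.range ((Γ ⊔ E).map i) k.range)
    (hmemB : ∀ x : G, i x ∈ Bb (fun n => (β n).map i ⊔ k.range) ↔ x ∈ Bb β)
    (hql : ∀ x : G, ql (i.comp q) (fun n => (β n).map i ⊔ k.range) (i x) = ql q β x) :
    ∃ K : ℕ, ∀ b ∈ Bb (fun n => (β n).map i ⊔ k.range), b ∉ Γ.map i ⊔ k.range → ∀ μ ∈ Γ.map i,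
      (∃ γ ∈ Γ.map i, γ⁻¹ * b * μ ∈ Bb (fun n => (β n).map i ⊔ k.range)) →
      ql (i.comp q) (fun n => (β n).map i ⊔ k.range) μ ≤ K := by
  obtain ⟨K, hK⟩ := h.bd
  have hEB : E ≤ Bb β := h.EC.trans (le_iSup β 0)
  have hBb := a0c_bb (β := β) i k.range
  have hZX : (Bb β).map i ≤ i.range := by
    rintro _ ⟨x, -, rfl⟩
    exact ⟨x, rfl⟩
  have hLZ : ∀ t ∈ k.range, t ∈ i.range → t ∈ (Bb β).map i := by
    rintro _ ⟨x, rfl⟩ hx
    obtain ⟨e, rfl⟩ := hk x hx
    rw [hkj]
    exact ⟨e, hEB e.2, rfl⟩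
  have hkL : ∀ e ∈ E, i e ∈ k.range := fun e he => ⟨j ⟨e, he⟩, hkj ⟨e, he⟩⟩
  have hcY : ∀ t ∈ k.range, ∀ y ∈ (Γ ⊔ E).map i, t * y = y * t := by
    rintro _ ⟨x, rfl⟩ _ ⟨y, hy, rfl⟩
    obtain ⟨κ, hκ, η, hη, rfl⟩ := a0c_mem_sup h.comm hy
    rw [map_mul, ← mul_assoc, hc κ hκ x, mul_assoc, mul_assoc]
    congr 1
    have h1 := hkj ⟨η, hη⟩
    simp only at h1
    rw [← h1, ← map_mul, ← map_mul, mul_comm]
  -- membership in `Γ'`
  have hΓE : ∀ x ∈ Γ ⊔ E, i x ∈ Γ.map i ⊔ k.range := by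
    intro x hx
    obtain ⟨κ, hκ, η, hη, rfl⟩ := a0c_mem_sup h.comm hx
    rw [map_mul]
    exact mul_mem (Subgroup.mem_sup_left ⟨κ, hκ, rfl⟩) (Subgroup.mem_sup_right (hkL η hη))
  -- the induction
  have main : ∀ (n : ℕ) (x0 : G') (l : List (G' × G')), l.length = n → x0 ∈ (Bb β).map i →
      Rd i.range ((Γ ⊔ E).map i) k.range l → (∀ p ∈ l, p.2 ∈ (Bb β).map i) →
      x0 * wp l ∉ Γ.map i ⊔ k.range → ∀ μ ∈ Γ, ∀ γ ∈ Γ,
      (i γ)⁻¹ * (x0 * wp l) * i μ ∈ Bb (fun n => (β n).map i ⊔ k.range) → ql q β μ ≤ K := by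
    intro n
    induction n with
    | zero =>
      intro x0 l hl hx0 _ _ hb μ hμ γ hγ hm
      obtain rfl : l = [] := List.length_eq_zero_iff.1 hl
      obtain ⟨b0, hb0, rfl⟩ := hx0
      simp only [wp, mul_one] at hb hm
      refine hK b0 hb0 (fun hcon => hb (hΓE b0 hcon)) μ hμ ⟨γ, hγ, ?_⟩
      rw [← hmemB]
      simpa using hm
    | succ n ih =>
      intro x0 l hl hx0 hR hent hb μ hμ γ hγ hm
      have hne : l ≠ [] := by
        rintro rfl
        simp at hl
      have hlast := List.dropLast_append_getLast hne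
      set t := (l.getLast hne).1 with ht
      set x := (l.getLast hne).2 with hx
      have hlp : l.getLast hne ∈ l := List.getLast_mem hne
      have hxZ : x ∈ (Bb β).map i := hent _ hlp
      have hR1 : Rd i.range ((Γ ⊔ E).map i) k.range l.dropLast := by
        rw [List.dropLast_eq_take]
        exact hR.take _
      have hwp : wp l = wp l.dropLast * (t * x) := by
        conv_lhs => rw [← hlast]
        rw [wp_append]
        simp [wp, ht, hx]
      have htL : t ∈ k.range := by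
        have h1 : ∀ (l : List (G' × G')), Rd i.range ((Γ ⊔ E).map i) k.range l →
            ∀ p ∈ l, p.1 ∈ k.range := by
          intro l
          induction l with
          | nil => simp
          | cons a l ihl =>
            intro hR p hp
            rcases List.mem_cons.1 hp with rfl | hp
            · exact hR.1
            · exact ihl hR.2.2.2.2 p hp
        exact h1 l hR _ hlp
      by_cases hxY : x ∈ (Γ ⊔ E).map i
      · -- strip the last letter
        obtain ⟨z, hz, hzx⟩ := hxY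
        obtain ⟨κ, hκ, η, hη, rfl⟩ := a0c_mem_sup h.comm hz
        have hκB : κ ∈ Bb β := by
          obtain ⟨x1, hx1, hx1x⟩ := hxZ
          have h1 : x1 = κ * η := hi (hx1x.trans hzx.symm)
          have h2 : κ = x1 * η⁻¹ := by rw [h1]; group
          rw [h2]
          exact mul_mem hx1 (inv_mem (hEB hη))
        have hcη : i η ∈ k.range := hkL η hη
        have hcomm : ∀ s ∈ k.range, ∀ g ∈ Γ, s * i g = i g * s := by
          rintro _ ⟨s, rfl⟩ g hg
          exact hc g hg s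
        have hlen : ql q β (κ * μ) = ql q β μ := h.qs.ra.rlen_mul_left hκB μ
        rw [← hlen]
        refine ih x0 l.dropLast (by rw [List.length_dropLast, hl]; rfl) hx0 hR1
          (fun p hp => hent p (List.mem_of_mem_dropLast hp)) ?_ (κ * μ) (mul_mem hκ hμ) γ hγ ?_
        · intro hcon
          apply hb
          rw [hwp, ← mul_assoc, ← hzx, map_mul]
          exact mul_mem hcon (mul_mem (Subgroup.mem_sup_right htL)
            (mul_mem (Subgroup.mem_sup_left ⟨κ, hκ, rfl⟩) (Subgroup.mem_sup_right hcη)))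
        · have e1 : (i γ)⁻¹ * (x0 * wp l.dropLast) * i (κ * μ) =
              ((i γ)⁻¹ * (x0 * wp l) * i μ) * (t * i η)⁻¹ := by
            rw [hwp, ← hzx, map_mul, map_mul]
            have e2 : t * (i κ * i η) * i μ = i κ * i μ * (t * i η) := by
              rw [mul_assoc, mul_assoc, hcomm _ hcη μ hμ, ← mul_assoc, ← mul_assoc,
                hcomm t htL κ hκ, mul_assoc, mul_assoc, ← mul_assoc t, hcomm t htL μ hμ]
              group
            calc (i γ)⁻¹ * (x0 * wp l.dropLast) * (i κ * i μ)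
                = (i γ)⁻¹ * (x0 * wp l.dropLast) * (i κ * i μ * (t * i η)) * (t * i η)⁻¹ := by
                  group
              _ = (i γ)⁻¹ * (x0 * wp l.dropLast) * (t * (i κ * i η) * i μ) * (t * i η)⁻¹ := by
                  rw [e2]
              _ = _ := by group
          rw [e1]
          refine mul_mem hm (inv_mem ?_)
          rw [hBb]
          exact Subgroup.mem_sup_right (mul_mem htL hcη)
      · -- compare the last letters
        obtain ⟨y0, hy0, l', hl', hent', e'⟩ := hra.formZ hZX hLZ hcY (hBb ▸ hm)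
        have hμX : i μ ∈ i.range := ⟨μ, rfl⟩
        obtain ⟨hR2, hw2⟩ := Rd.snoc hra.le hR hne hμX
        have hX1 : x0⁻¹ * i γ * y0 ∈ i.range :=
          mul_mem (mul_mem (inv_mem (hZX hx0)) ⟨γ, rfl⟩) (hZX hy0)
        have e3 : wp (l.dropLast ++ [((l.getLast hne).1, (l.getLast hne).2 * i μ)]) =
            (x0⁻¹ * i γ * y0) * wp l' := by
          rw [← hw2]
          calc wp l * i μ = x0⁻¹ * i γ * ((i γ)⁻¹ * (x0 * wp l) * i μ) := by group
            _ = x0⁻¹ * i γ * (y0 * wp l') := by rw [e']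
            _ = _ := by group
        have hsim := hra.sim hX1 hR2 hl' e3
        have hne' : l' ≠ [] := by
          rintro rfl
          have := hsim.length_eq
          simp at this
        have hne2 : l.dropLast ++ [((l.getLast hne).1, (l.getLast hne).2 * i μ)] ≠ [] := by simp
        have hlst := hsim.last hne2 hne'
        have h5 : ((l.dropLast ++ [((l.getLast hne).1, (l.getLast hne).2 * i μ)]).getLast
            hne2).2 = x * i μ := by simp [hx]
        rw [h5] at hlst
        obtain ⟨x1, hx1, hx1x⟩ := hxZ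
        obtain ⟨y1, hy1, hy1y⟩ := hent' _ (List.getLast_mem hne')
        obtain ⟨z, hz, hzz⟩ := hlst
        obtain ⟨κ, hκ, η, hη, rfl⟩ := a0c_mem_sup h.comm hz
        have e4 : x1 * μ = κ * η * y1 := by
          apply hi
          rw [map_mul, hx1x, map_mul i (κ * η), hzz, hy1y]
          group
        refine hK x1 hx1 (fun hcon => hxY ?_) μ hμ ⟨κ, hκ, ?_⟩
        · rw [← hx1x]
          exact ⟨x1, hcon, rfl⟩
        · have e5 : κ⁻¹ * x1 * μ = η * y1 := by
            rw [mul_assoc, e4]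
            group
          rw [e5]
          exact mul_mem (hEB hη) hy1
  refine ⟨K, fun b hb hbN μ' hμ' hγ' => ?_⟩
  obtain ⟨μ, hμ, rfl⟩ := hμ'
  obtain ⟨_, ⟨γ, hγ, rfl⟩, hm⟩ := hγ'
  obtain ⟨x0, hx0, l, hl, hent, rfl⟩ := hra.formZ hZX hLZ hcY (hBb ▸ hb)
  rw [hql]
  exact main l.length x0 l rfl hx0 hl hent hbN μ hμ γ hγ hm

end Pool.Agent.Helper98.AAD
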