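import Pool.Agent.Helper98.AAD.R4b
import Pool.Agent.Helper98.AAD.A0
import Pool.Agent.Helper98.AAD.A0b
import Pool.Agent.Helper98.AAD.A0c

/-!
# AAD, A1: enlarging the central part
-/

set_option autoImplicit false

namespace Pool.Agent.Helper98.AAD

variable {G : Type} [Group G] {q : Multiplicative ℚ →* G} {β : ℕ → Subgroup G}

/-- A1 -/
theorem AE [Countable G] {Γ E : Subgroup G} (h : IsSt q β Γ E) (F' : Type) [CommGroup F']
    [Countable F'] (j : E →* F') (hj : Function.Injective j) :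
    ∃ (G' : Type) (_ : Group G') (_ : Countable G') (i : G →* G') (k : F' →* G'),
      Function.Injective k ∧ (∀ e : E, k (j e) = i e) ∧
      IsSt (i.comp q) (fun n => (β n).map i ⊔ k.range) (Γ.map i) k.range ∧
      SEmb i q β Γ E (i.comp q) (fun n => (β n).map i ⊔ k.range) (Γ.map i) k.range ∧
      RA i.range ((Γ ⊔ E).map i) k.range := by
  obtain ⟨G', hG', hc', i, k, hi, hk, hkj, hcomm, hkr, hra⟩ :=
    AE_pure h.comm h.ab h.dis F' j hj
  obtain ⟨hqs, hemb⟩ := AE_qs h hi hkj hcomm hkr hra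
  have hbd := AE_bd h hi hkj hcomm hkr hra
  have hEk : E.map i ≤ k.range := by
    rintro _ ⟨e, he, rfl⟩
    exact ⟨j ⟨e, he⟩, hkj ⟨e, he⟩⟩
  have hYL : (Γ ⊔ E).map i ⊔ k.range = Γ.map i ⊔ k.range := by
    rw [Subgroup.map_sup, sup_assoc, sup_eq_right.2 hEk]
  have hBb : (Bb β).map i ≤ Bb (fun n => (β n).map i ⊔ k.range) := by
    unfold Bb
    rw [Subgroup.map_iSup]
    exact iSup_mono fun n => le_sup_left
  refine ⟨G', hG', hc', i, k, hk, hkj, ?_, ?_, hra⟩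
  · refine
      { qs := hqs
        QΓ := ?_
        gen := ?_
        EC := le_sup_right
        comm := ?_
        ab := ?_
        dis := ?_
        mal := ?_
        bd := hbd }
    · rintro _ ⟨t, rfl⟩
      exact ⟨q t, h.QΓ ⟨t, rfl⟩, rfl⟩
    · have h1 : Γ.map i ≤ ((Γ ⊓ Bb β) ⊔ q.range).map i := Subgroup.map_mono h.gen
      refine h1.trans ?_
      rw [Subgroup.map_sup]
      apply sup_le_sup
      · refine le_inf (Subgroup.map_mono inf_le_left) ?_
        exact (Subgroup.map_mono inf_le_right).trans hBb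
      · rintro _ ⟨_, ⟨t, rfl⟩, rfl⟩
        exact ⟨t, rfl⟩
    · rintro _ ⟨x, rfl⟩ _ ⟨γ, hγ, rfl⟩
      exact hcomm γ hγ x
    · rintro _ ⟨x, rfl⟩ _ ⟨y, rfl⟩
      rw [← map_mul, ← map_mul, mul_comm]
    · rintro _ ⟨x, rfl⟩ ⟨γ, hγ, e⟩
      obtain ⟨e0, rfl⟩ := hkr x ⟨γ, e⟩
      rw [hkj] at e ⊢
      have h2 : γ = e0 := hi e
      have h3 : (e0 : G) = 1 := h.dis e0 e0.2 (h2 ▸ hγ)
      rw [h3, map_one]
    · rw [← hYL]
      refine RA.mal hra ?_
      rintro _ ⟨n, hn, rfl⟩ hn1 _ ⟨g, rfl⟩ hg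
      have hn1' : n ≠ 1 := fun h0 => hn1 (by rw [h0, map_one])
      rw [← map_inv, ← map_mul, ← map_mul] at hg
      obtain ⟨y, hy, e⟩ := hg
      have h4 : y = g⁻¹ * n * g := hi e
      exact ⟨g, h.mal n hn hn1' g (h4 ▸ hy), rfl⟩
  · refine
      { emb := hemb
        hΓ := rfl
        hE := fun x hx => hEk ⟨x, hx, rfl⟩
        hN := ?_ }
    intro x hx
    rw [← hYL] at hx
    obtain ⟨y, hy, e⟩ := RA.inter_YL hra hx ⟨x, rfl⟩
    have h5 : y = x := hi e
    exact h5 ▸ hy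

end Pool.Agent.Helper98.AAD
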