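import Pool.Agent.Helper98.AAD.Defs

/-!
Module A2 (project AAD): divisible hulls of countable commutative groups.
-/

set_option autoImplicit false

namespace Pool.Agent.Helper98.AAD

/-- A2 : divisible hulls -/
theorem hull (E : Type) [Group E] [Countable E] (hc : ∀ a b : E, a * b = b * a) :
    ∃ (F' : Type) (_ : CommGroup F') (_ : Countable F') (j : E →* F'), Function.Injective j ∧
      ∀ (x : F') (n : ℕ), n ≠ 0 → ∃ y, y ^ n = x := by
  classical
  let _ : CommGroup E := { ‹Group E› with mul_comm := hc }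
  let φ : (E →₀ ℤ) →+ Additive E :=
    Finsupp.liftAddHom (fun a : E => (zmultiplesHom (Additive E)) (Additive.ofMul a))
  have hφ : ∀ a : E, φ (Finsupp.single a 1) = Additive.ofMul a := by
    intro a
    simp [φ]
  let ι : (E →₀ ℤ) →+ (E →₀ ℚ) := Finsupp.mapRange.addMonoidHom (Int.castAddHom ℚ)
  have hι : Function.Injective ι := by
    intro x y h
    ext a
    have := DFunLike.congr_fun h a
    simpa [ι] using this
  let K : AddSubgroup (E →₀ ℚ) := φ.ker.map ι
  let mk : (E →₀ ℚ) →+ (E →₀ ℚ) ⧸ K := QuotientAddGroup.mk' K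
  have hmk : ∀ x, mk x = 0 ↔ x ∈ K := fun x => QuotientAddGroup.eq_zero_iff x
  have hmul : ∀ a b : E, mk (ι (Finsupp.single (a * b) 1)) =
      mk (ι (Finsupp.single a 1)) + mk (ι (Finsupp.single b 1)) := by
    intro a b
    rw [← sub_eq_zero, ← map_add, ← map_sub, hmk, ← map_add, ← map_sub]
    refine ⟨_, ?_, rfl⟩
    change φ _ = 0
    rw [map_sub, map_add, hφ, hφ, hφ]
    simp
  refine ⟨Multiplicative ((E →₀ ℚ) ⧸ K), inferInstance, ?_,
    MonoidHom.mk' (fun a => Multiplicative.ofAdd (mk (ι (Finsupp.single a 1)))) ?_, ?_, ?_⟩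
  · have : Countable (E →₀ ℚ) := inferInstance
    exact (QuotientAddGroup.mk'_surjective K).countable
  · intro a b
    rw [hmul, ofAdd_add]
  · rw [injective_iff_map_eq_one]
    intro a ha
    have h0 : mk (ι (Finsupp.single a 1)) = 0 := Multiplicative.ofAdd.injective ha
    rw [hmk] at h0
    obtain ⟨z, hz, hz2⟩ := h0
    have hz3 := hι hz2
    subst hz3
    have : φ (Finsupp.single a 1) = 0 := hz
    rw [hφ] at this
    exact Additive.ofMul.injective this
  · intro x n hn
    obtain ⟨v, hv⟩ := QuotientAddGroup.mk'_surjective K (Multiplicative.toAdd x)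
    refine ⟨Multiplicative.ofAdd (mk ((1 / (n : ℚ)) • v)), ?_⟩
    rw [← ofAdd_nsmul, ← map_nsmul]
    have : n • ((1 / (n : ℚ)) • v) = v := by
      rw [← Nat.cast_smul_eq_nsmul ℚ, smul_smul, mul_one_div_cancel (by exact_mod_cast hn), one_smul]
    rw [this]
    exact congrArg Multiplicative.ofAdd hv

end Pool.Agent.Helper98.AAD
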