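import Pool.Agent.Helper98.AAD.DefsV

/-!
D0 : no coatom contains a normal subgroup with divisible commutative quotient
(problem MP_aade38_al).
-/

set_option autoImplicit false

namespace Pool.Agent.Helper98.AAD

/-- D0 : no coatom contains a normal subgroup with divisible commutative quotient -/
theorem no_coatom_of_div {G : Type} [Group G] {N : Subgroup G} [N.Normal]
    (hc : ∀ x y : G, x * y * x⁻¹ * y⁻¹ ∈ N)
    (hd : ∀ (x : G) (n : ℕ), n ≠ 0 → ∃ y, (y ^ n)⁻¹ * x ∈ N) {H : Subgroup G} (hH : IsCoatom H)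
    (hN : N ≤ H) : False := by
  have hnorm : H.Normal := by
    constructor
    intro h hh g
    have h1 := H.mul_mem (hN (hc g h)) hh
    rwa [inv_mul_cancel_right] at h1
  have key : ∀ z : G, z ∉ H → ∀ g : G, ∃ k : ℤ, g * (z ^ k)⁻¹ ∈ H := by
    intro z hz g
    have h1 : H ⊔ Subgroup.zpowers z = ⊤ := by
      apply hH.2
      refine lt_of_le_of_ne le_sup_left fun h => hz ?_
      rw [h]
      exact (le_sup_right : Subgroup.zpowers z ≤ _) (Subgroup.mem_zpowers z)
    have h2 : g ∈ ((H ⊔ Subgroup.zpowers z : Subgroup G) : Set G) := by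
      rw [h1]
      trivial
    rw [Subgroup.normal_mul] at h2
    obtain ⟨a, ha, b, hb, rfl⟩ := Set.mem_mul.1 h2
    obtain ⟨k, rfl⟩ := Subgroup.mem_zpowers_iff.1 hb
    refine ⟨k, ?_⟩
    rw [mul_inv_cancel_right]
    exact ha
  obtain ⟨x, hx⟩ : ∃ x, x ∉ H := by
    by_contra hcon
    push Not at hcon
    exact hH.1 ((Subgroup.eq_top_iff' H).2 hcon)
  have hn : ∃ n : ℕ, n ≠ 0 ∧ x ^ n ∈ H := by
    by_cases hx2 : x ^ 2 ∈ H
    · exact ⟨2, two_ne_zero, hx2⟩
    · obtain ⟨k, hk⟩ := key (x ^ 2) hx2 x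
      have h1 : x * ((x ^ 2) ^ k)⁻¹ = x ^ (1 - 2 * k) := by
        rw [← zpow_natCast, ← zpow_mul, ← zpow_neg]
        nth_rewrite 1 [← zpow_one x]
        rw [← zpow_add]
        congr 1
      rw [h1] at hk
      refine ⟨(1 - 2 * k).natAbs, by omega, ?_⟩
      rcases Int.natAbs_eq (1 - 2 * k) with h | h
      · rw [h, zpow_natCast] at hk
        exact hk
      · rw [h, zpow_neg, zpow_natCast] at hk
        exact (H.inv_mem_iff).1 hk
  obtain ⟨n, hn, hxn⟩ := hn
  obtain ⟨y, hy⟩ := hd x n hn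
  obtain ⟨k, hk⟩ := key x hx y
  have h3 : ((y : G) : G ⧸ H) = (x : G ⧸ H) ^ k := by
    have h4 : ((y * (x ^ k)⁻¹ : G) : G ⧸ H) = 1 := (QuotientGroup.eq_one_iff _).2 hk
    rw [QuotientGroup.mk_mul, QuotientGroup.mk_inv, mul_inv_eq_one, QuotientGroup.mk_zpow] at h4
    exact h4
  have h5 : y ^ n ∈ H := by
    rw [← QuotientGroup.eq_one_iff, QuotientGroup.mk_pow, h3, ← zpow_natCast, ← zpow_mul,
      mul_comm, zpow_mul, zpow_natCast, ← QuotientGroup.mk_pow, (QuotientGroup.eq_one_iff _).2 hxn,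
      one_zpow]
  apply hx
  have h6 := H.mul_mem h5 (hN hy)
  rwa [mul_inv_cancel_left] at h6

end Pool.Agent.Helper98.AAD
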