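import Pool.Agent.Helper98.AAD.Q10

/-!
# AAD, Q12: subgroups closed under `Sh` which contain `β 0`
-/

set_option autoImplicit false

namespace Pool.Agent.Helper98.AAD

section q12

variable {G : Type} [Group G] {q : Multiplicative ℚ →* G} {β : ℕ → Subgroup G}

/-- exact levels -/
theorem exists_lev (hq : QS q β) {b : G} (hb : b ∈ Bb β) {l : ℕ} (hl : b ∉ β l) :
    ∃ k, l ≤ k ∧ b ∈ β (k + 1) ∧ b ∉ β k := by
  classical
  have h := (h62_mem_Bb hq.mono).1 hb
  have h1 := Nat.find_spec h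
  have h2 : l < Nat.find h := by
    by_contra hcon
    exact hl (hq.mono (not_lt.1 hcon) h1)
  obtain ⟨k, hk⟩ : ∃ k, Nat.find h = k + 1 := ⟨Nat.find h - 1, by omega⟩
  refine ⟨k, by omega, by rwa [hk] at h1, ?_⟩
  exact Nat.find_min h (by omega)

theorem sameLev_of (hq : QS q β) {b b' : G} {k : ℕ} (h1 : b ∈ β (k + 1)) (h2 : b ∉ β k)
    (h1' : b' ∈ β (k + 1)) (h2' : b' ∉ β k) : SameLev β b b' := fun j => by
  rcases Nat.lt_or_ge k j with h | h
  · exact ⟨fun _ => hq.mono h h1', fun _ => hq.mono h h1⟩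
  · exact ⟨fun h3 => absurd (hq.mono h h3) h2, fun h3 => absurd (hq.mono h h3) h2'⟩

theorem sh_closed_a (hq : QS q β)
    (pd : ∀ l : ℕ, ∀ b ∈ Bb β, b ∉ β l → ∃ c ∈ β 0, b * c * b⁻¹ ∉ β l)
    {H : Subgroup G} (hC : β 0 ≤ H) (hH : ∀ x ∈ H, ∀ x', Sh q β x x' → x' ∈ H)
    (t : Multiplicative ℚ) {b : G} (hb : b ∈ Bb β) {l : List (G × G)} (hl : Rq q β l)
    (hx : q t * b * wp l ∈ H) : q t * b * (q t)⁻¹ ∈ H ∧ q t * wp l ∈ H := by
  have hfin : q t * b * (q t)⁻¹ ∈ H → q t * b * (q t)⁻¹ ∈ H ∧ q t * wp l ∈ H := by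
    intro h
    refine ⟨h, ?_⟩
    have e : q t * wp l = (q t * b * (q t)⁻¹)⁻¹ * (q t * b * wp l) := by group
    rw [e]
    exact H.mul_mem (H.inv_mem h) hx
  by_cases hb0 : b ∈ β 0
  · exact hfin (hC (hq.ra.norm _ ⟨t, rfl⟩ b hb0))
  · have key : ∀ b', SameLev β b b' → q t * b' * wp l ∈ H := by
      intro b' hbb
      refine hH _ hx _ ?_
      by_cases ht : t = 1
      · subst ht
        refine ⟨b, b', l, l, hb, hbb, hl, ?_, by simp, by simp⟩
        exact List.forall₂_same.2 fun p _ => ⟨rfl, SameLev.refl β _⟩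
      · refine ⟨1, 1, (q t, b) :: l, (q t, b') :: l, (Bb β).one_mem, SameLev.refl β 1,
          ⟨⟨t, rfl⟩, fun h => ht (hq.disj t h), hb, fun _ => hb0, hl⟩,
          List.Forall₂.cons ⟨rfl, hbb⟩
            (List.forall₂_same.2 fun p _ => ⟨rfl, SameLev.refl β _⟩), ?_, ?_⟩
        · simp [wp]
        · simp [wp]
    have key2 : ∀ b', SameLev β b b' → q t * (b' * b⁻¹) * (q t)⁻¹ ∈ H := by
      intro b' hbb
      have e : q t * (b' * b⁻¹) * (q t)⁻¹ = (q t * b' * wp l) * (q t * b * wp l)⁻¹ := by group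
      rw [e]
      exact H.mul_mem (key b' hbb) (H.inv_mem hx)
    obtain ⟨k, -, h1, h2⟩ := exists_lev hq hb hb0
    obtain ⟨c, hc, hc'⟩ := pd k b hb h2
    have hck : ∀ j, c ∈ β j := fun j => hq.mono (Nat.zero_le j) hc
    have hz1 : b * c * b⁻¹ ∈ β (k + 1) :=
      (β (k + 1)).mul_mem ((β (k + 1)).mul_mem h1 (hck _)) ((β (k + 1)).inv_mem h1)
    have hlev1 : SameLev β b (b * c * b⁻¹) := sameLev_of hq h1 h2 hz1 hc'
    have hlev2 : SameLev β b (b * c) := sameLev_of hq h1 h2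
      ((β (k + 1)).mul_mem h1 (hck _)) (fun h => h2 (((β k).mul_mem_cancel_right (hck k)).1 h))
    have m1 := key2 _ hlev1
    have m2 := key2 _ hlev2
    apply hfin
    have e : q t * b * (q t)⁻¹
        = (q t * (b * c * b⁻¹ * b⁻¹) * (q t)⁻¹)⁻¹ * (q t * (b * c * b⁻¹) * (q t)⁻¹) := by group
    rw [e]
    exact H.mul_mem (H.inv_mem m1) m2

theorem sh_closed_b (hq : QS q β)
    (pd : ∀ l : ℕ, ∀ b ∈ Bb β, b ∉ β l → ∃ c ∈ β 0, b * c * b⁻¹ ∉ β l)
    {H : Subgroup G} (hC : β 0 ≤ H) (hH : ∀ x ∈ H, ∀ x', Sh q β x x' → x' ∈ H)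
    (π : G →* Multiplicative ℚ) (hB : ∀ b ∈ Bb β, π b = 1) (hπ : ∀ t, π (q t) = t)
    (l : List (G × G)) : ∀ t : Multiplicative ℚ, Rq q β l → q t * wp l ∈ H →
      q (t * π (wp l)) ∈ H := by
  induction l with
  | nil => intro t _ h; simpa [wp] using h
  | cons p l ih =>
    intro t hl h
    obtain ⟨⟨s, hs⟩, h2, h3, h4, h5⟩ := hl
    have hs : q s = p.1 := hs
    have e : q t * wp (p :: l) = q (t * s) * p.2 * wp l := by
      simp only [wp]
      rw [map_mul, hs]; group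
    rw [e] at h
    obtain ⟨-, h6⟩ := sh_closed_a hq pd hC hH (t * s) h3 h5 h
    have h7 := ih (t * s) h5 h6
    have e2 : t * π (wp (p :: l)) = t * s * π (wp l) := by
      simp only [wp]
      rw [map_mul, map_mul, hB _ h3, ← hs, hπ, mul_one, mul_assoc]
    rw [e2]
    exact h7

/-- Q12 : a subgroup closed under `Sh` which contains `C` -/
theorem sh_closed (hq : QS q β) (pd : ∀ l : ℕ, ∀ b ∈ Bb β, b ∉ β l → ∃ c ∈ β 0, b * c * b⁻¹ ∉ β l)
    {H : Subgroup G} (hC : β 0 ≤ H) (hH : ∀ x ∈ H, ∀ x', Sh q β x x' → x' ∈ H) :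
    (∀ π : G →* Multiplicative ℚ, (∀ b ∈ Bb β, π b = 1) → (∀ t, π (q t) = t) →
      ∀ x ∈ H, q (π x) ∈ H) ∧
    (∀ b ∈ H, b ∈ Bb β → ∀ l, b ∉ β l → β (l + 1) ≤ H) ∧
    (q.range ≤ H → H ≤ (H ⊓ Bb β) ⊔ q.range) := by
  refine ⟨?_, ?_, ?_⟩
  · intro π hB hπ x hx
    obtain ⟨b, hb, l, hl, rfl⟩ := hq.ra.form x
    have h1 : q 1 * b * wp l ∈ H := by simpa using hx
    obtain ⟨-, h2⟩ := sh_closed_a hq pd hC hH 1 hb hl h1
    have h3 := sh_closed_b hq pd hC hH π hB hπ l 1 hl h2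
    rw [map_mul, hB b hb]
    exact h3
  · intro b hbH hbB l hbl
    obtain ⟨k, hk, h1, h2⟩ := exists_lev hq hbB hbl
    have key : ∀ b', b' ∈ β (k + 1) → b' ∉ β k → b' ∈ H := by
      intro b' h1' h2'
      exact hH b hbH b' ⟨b, b', [], [], hbB, sameLev_of hq h1 h2 h1' h2', trivial,
        List.Forall₂.nil, by simp [wp], by simp [wp]⟩
    refine (hq.mono (Nat.succ_le_succ hk)).trans fun z hz => ?_
    by_cases hzk : z ∈ β k
    · have h3 := key (z * b) ((β (k + 1)).mul_mem hz h1)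
        (fun h => h2 (((β k).mul_mem_cancel_left hzk).1 h))
      exact (H.mul_mem_cancel_right hbH).1 h3
    · exact key z hz hzk
  · intro hQ
    have key : ∀ l : List (G × G), Rq q β l → wp l ∈ H → wp l ∈ (H ⊓ Bb β) ⊔ q.range := by
      intro l
      induction l with
      | nil => intro _ _; exact Subgroup.one_mem _
      | cons p l ih =>
        intro hl h
        obtain ⟨h1, h2, h3, h4, h5⟩ := hl
        have h6 : q 1 * p.2 * wp l ∈ H := by
          have e : q 1 * p.2 * wp l = p.1⁻¹ * wp (p :: l) := by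
            simp only [wp]
            rw [map_one]; group
          rw [e]
          exact H.mul_mem (H.inv_mem (hQ h1)) h
        obtain ⟨h7, h8⟩ := sh_closed_a hq pd hC hH 1 h3 h5 h6
        have h7 : p.2 ∈ H := by simpa using h7
        have h8 : wp l ∈ H := by simpa using h8
        exact Subgroup.mul_mem _ (Subgroup.mul_mem _ (Subgroup.mem_sup_right h1)
          (Subgroup.mem_sup_left ⟨h7, h3⟩)) (ih h5 h8)
    intro x hx
    obtain ⟨b, hb, l, hl, rfl⟩ := hq.ra.form x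
    have h1 : q 1 * b * wp l ∈ H := by simpa using hx
    obtain ⟨h2, h3⟩ := sh_closed_a hq pd hC hH 1 hb hl h1
    have h2 : b ∈ H := by simpa using h2
    have h3 : wp l ∈ H := by simpa using h3
    exact Subgroup.mul_mem _ (Subgroup.mem_sup_left ⟨h2, hb⟩) (key l hl h3)

end q12

end Pool.Agent.Helper98.AAD
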