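import Pool.Agent.Helper98.AAD.R1
import Pool.Agent.Helper98.AAD.R2
import Pool.Agent.Helper98.AAD.R3
import Pool.Agent.Helper98.AAD.R4
import Pool.Agent.Helper98.AAD.R5

/-!
# Project AAD, module Q3: convexity, the bound, the homomorphism to `ℚ`
-/

set_option autoImplicit false

namespace Pool.Agent.Helper98.AAD

section q3w

variable {G : Type} [Group G] {X Y L : Subgroup G}

private theorem h82_sim_take (hYX : Y ≤ X) {y : G} {l l' : List (G × G)} (h : Sim Y y l l')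
    (hl : ∀ p ∈ l, p.2 ∈ X) (hl' : ∀ p ∈ l', p.2 ∈ X) (k : ℕ) :
    (wp (l.take k))⁻¹ * y * wp (l'.take k) ∈ X := by
  induction h generalizing k with
  | nil => simp [wp]
  | @cons y t x t' x' l l' hy ht hs ih =>
    cases k with
    | zero => simpa [wp] using hYX hy
    | succ k =>
      have := ih (fun p hp => hl p (List.mem_cons_of_mem _ hp))
        (fun p hp => hl' p (List.mem_cons_of_mem _ hp)) k
      have e : (wp (((t, x) :: l).take (k + 1)))⁻¹ * y * wp (((t', x') :: l').take (k + 1)) =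
          (wp (l.take k))⁻¹ * (x⁻¹ * (t⁻¹ * y * t') * x') * wp (l'.take k) := by
        simp [wp, mul_assoc]
      rw [e]
      exact this

private theorem h82_rd_mem {l : List (G × G)} (hl : Rd X Y L l) :
    ∀ p ∈ l, p.1 ∈ L ∧ p.2 ∈ X := by
  induction l with
  | nil => intro p hp; simp at hp
  | cons p l ih =>
    obtain ⟨hp1, -, hp3, -, hp5⟩ := hl
    intro q hq
    rcases List.mem_cons.1 hq with rfl | hq
    · exact ⟨hp1, hp3⟩
    · exact ih hp5 q hq

private theorem h82_letter_le (h : RA X Y L) {t : G} (ht : t ∈ L) : rlen X Y L t ≤ 1 := by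
  by_cases hY : t ∈ Y
  · rw [(h.rlen_eq_zero).2 (h.le hY)]
    omega
  · rw [h.rlen_letter ht hY]

private theorem h82_wp_mem {Γ : Subgroup G} {l : List (G × G)}
    (hl : ∀ p ∈ l, p.1 ∈ Γ ∧ p.2 ∈ Γ) : wp l ∈ Γ := by
  induction l with
  | nil => exact Γ.one_mem
  | cons p l ih =>
    have hp := hl p (List.mem_cons_self)
    exact Γ.mul_mem (Γ.mul_mem hp.1 hp.2) (ih fun q hq => hl q (List.mem_cons_of_mem _ hq))

private theorem h82_conv (h : RA X Y L) {Γ : Subgroup G} (hQ : L ≤ Γ) (hg : Γ ≤ (Γ ⊓ X) ⊔ L)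
    {x y : G} (hxy : x * y ∈ Γ)
    (hlen : rlen X Y L (x * y) = rlen X Y L x + rlen X Y L y) : ∃ b ∈ X, x * b ∈ Γ := by
  obtain ⟨x0, hx0, l, hl, ex⟩ := h.form x
  obtain ⟨y0, hy0, l', hl', ey⟩ := h.form y
  by_cases hne : l = []
  · subst hne
    have : x = x0 := by rw [ex]; simp [wp]
    refine ⟨x⁻¹, X.inv_mem (this ▸ hx0), ?_⟩
    rw [mul_inv_cancel]
    exact Γ.one_mem
  by_cases hne' : l' = []
  · subst hne'
    have : y = y0 := by rw [ey]; simp [wp]
    exact ⟨y, this ▸ hy0, hxy⟩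
  have lx : rlen X Y L x = l.length := by rw [ex]; exact h.rlen_form hx0 hl
  have ly : rlen X Y L y = l'.length := by rw [ey]; exact h.rlen_form hy0 hl'
  have hlast := h82_rd_mem hl _ (List.getLast_mem hne)
  -- the junction
  have hj : (l.getLast hne).2 * y0 ∉ Y := by
    intro hu
    obtain ⟨p, r, hr⟩ := List.exists_cons_of_ne_nil hne'
    subst hr
    obtain ⟨hp1, hp2, hp3, hp4, hp5⟩ := hl'
    have hsplit : l.dropLast ++ [l.getLast hne] = l := List.dropLast_append_getLast hne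
    have hwl : wp l = wp l.dropLast * ((l.getLast hne).1 * (l.getLast hne).2) := by
      conv_lhs => rw [← hsplit]
      rw [wp_append]
      simp [wp]
    have hdl : Rd X Y L l.dropLast := by
      rw [List.dropLast_eq_take]
      exact hl.take _
    have e : x * y = (x0 * wp l.dropLast * ((l.getLast hne).1 * ((l.getLast hne).2 * y0) *
        (l.getLast hne).1⁻¹)) * ((l.getLast hne).1 * p.1) * (p.2 * wp r) := by
      rw [ex, ey, hwl]
      simp [wp, mul_assoc]
    have hn : (l.getLast hne).1 * ((l.getLast hne).2 * y0) * (l.getLast hne).1⁻¹ ∈ X :=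
      h.le (h.norm _ hlast.1 _ hu)
    have h1 : rlen X Y L (x * y) ≤ l.dropLast.length + 1 + r.length := by
      rw [e]
      refine (h.rlen_mul_le _ _).trans (Nat.add_le_add ((h.rlen_mul_le _ _).trans
        (Nat.add_le_add ?_ (h82_letter_le h (L.mul_mem hlast.1 hp1)))) ?_)
      · rw [h.rlen_mul_right hn, h.rlen_form hx0 hdl]
      · exact (h.rlen_form hp3 hp5).le
    have h2 : l.dropLast.length + 1 = l.length := by
      rw [List.length_dropLast]
      have : 0 < l.length := List.length_pos_iff.2 hne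
      omega
    rw [hlen, lx, ly, h2] at h1
    simp only [List.length_cons] at h1
    omega
  obtain ⟨hc1, hc2⟩ := Rd.cat h.le hl hl' hne hy0 (fun _ => hj)
  obtain ⟨-, hs2⟩ := Rd.snoc h.le hl hne hy0
  obtain ⟨z0, hz0, m, hm, hmΓ, ez⟩ := h.formIn hQ hg hxy
  set cat := l.dropLast ++ ((l.getLast hne).1, (l.getLast hne).2 * y0) :: l' with hcat
  have e1 : wp cat = (x0⁻¹ * z0) * wp m := by
    rw [← hc2]
    have : x0 * (wp l * (y0 * wp l')) = z0 * wp m := by
      rw [← ez, ex, ey]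
      simp only [mul_assoc]
    rw [mul_assoc, ← this, inv_mul_cancel_left]
  have hsim := h.sim (X.mul_mem (X.inv_mem hx0) hz0.2) hc1 hm e1
  have ht := h82_sim_take h.le hsim (fun p hp => (h82_rd_mem hc1 p hp).2)
    (fun p hp => (h82_rd_mem hm p hp).2) l.length
  have hct : cat.take l.length =
      l.dropLast ++ [((l.getLast hne).1, (l.getLast hne).2 * y0)] := by
    have h2 : l.length = l.dropLast.length + 1 := by
      rw [List.length_dropLast]
      have : 0 < l.length := List.length_pos_iff.2 hne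
      omega
    rw [hcat, h2, List.take_length_add_append]
    simp
  rw [hct, ← hs2] at ht
  refine ⟨x⁻¹ * (z0 * wp (m.take l.length)), ?_, ?_⟩
  · have e2 : x⁻¹ * (z0 * wp (m.take l.length)) =
        y0 * ((wp l * y0)⁻¹ * (x0⁻¹ * z0) * wp (m.take l.length)) := by
      rw [ex]
      simp [mul_assoc]
    rw [e2]
    exact X.mul_mem hy0 ht
  · rw [mul_inv_cancel_left]
    exact Γ.mul_mem hz0.1 (h82_wp_mem fun p hp => hmΓ p (List.mem_of_mem_take hp))

end q3w

section q3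

variable {G : Type} [Group G] {q : Multiplicative ℚ →* G} {β : ℕ → Subgroup G}

/-- Q3 : convexity of `Γ` -/
theorem conv (hq : QS q β) {Γ : Subgroup G} (hQ : q.range ≤ Γ) (hg : Γ ≤ (Γ ⊓ Bb β) ⊔ q.range)
    {x y : G} (h : x * y ∈ Γ) (hl : ql q β (x * y) = ql q β x + ql q β y) :
    ∃ b ∈ Bb β, x * b ∈ Γ :=
  h82_conv hq.ra hQ hg h hl

/-- Q4 : the bound in the form in which it is used -/
theorem IsSt.bd' {Γ E : Subgroup G} (h : IsSt q β Γ E) : ∃ K : ℕ, ∀ g, g ∉ Γ ⊔ E → ∀ a ∈ Γ, ∀ b ∈ Γ,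
    (∃ x ∈ Bb β, g * a * x ∈ Γ) → (∃ x ∈ Bb β, g * b * x ∈ Γ) → ql q β (a⁻¹ * b) ≤ K := by
  obtain ⟨K, hK⟩ := h.bd
  refine ⟨K, fun g hg a ha b hb hx hx' => ?_⟩
  obtain ⟨x, hx, hx1⟩ := hx
  obtain ⟨x', hx', hx'1⟩ := hx'
  refine hK x⁻¹ ((Bb β).inv_mem hx) ?_ (a⁻¹ * b) (Γ.mul_mem (Γ.inv_mem ha) hb)
    ⟨(g * a * x)⁻¹ * (g * b * x'), Γ.mul_mem (Γ.inv_mem hx1) hx'1, ?_⟩
  · intro hcon
    apply hg
    have e : g = (g * a * x) * x⁻¹ * a⁻¹ := by simp [mul_assoc]
    rw [e]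
    exact (Γ ⊔ E).mul_mem ((Γ ⊔ E).mul_mem ((le_sup_left : Γ ≤ Γ ⊔ E) hx1) hcon)
      ((le_sup_left : Γ ≤ Γ ⊔ E) (Γ.inv_mem ha))
  · have e : ((g * a * x)⁻¹ * (g * b * x'))⁻¹ * x⁻¹ * (a⁻¹ * b) = x'⁻¹ := by
      simp [mul_assoc]
    rw [e]
    exact (Bb β).inv_mem hx'

/-- Q5 : the homomorphism to `ℚ` -/
theorem QS.exists_pi (hq : QS q β) :
    ∃ π : G →* Multiplicative ℚ, (∀ b ∈ Bb β, π b = 1) ∧ ∀ t, π (q t) = t := by
  have hinj : Function.Injective q := by
    rw [injective_iff_map_eq_one]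
    intro a ha
    refine hq.disj a ?_
    rw [ha]
    exact (β 0).one_mem
  let e : Multiplicative ℚ ≃* q.range := MonoidHom.ofInjective hinj
  have he : ∀ (z : G) (hz : z ∈ q.range) (t : Multiplicative ℚ), q t = z →
      e.symm ⟨z, hz⟩ = t := by
    intro z hz t ht
    rw [MulEquiv.symm_apply_eq]
    apply Subtype.ext
    exact ht.symm
  obtain ⟨F, hF1, hF2⟩ := hq.ra.up (Multiplicative ℚ) (1 : Bb β →* Multiplicative ℚ)
    (e.symm : q.range →* Multiplicative ℚ) (by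
      intro z hX hL
      obtain ⟨t, ht⟩ := hL
      have ht1 : t = 1 := hq.disj t (by
        rw [ht]
        exact hq.ra.inter z ⟨t, ht⟩ hX)
      have := he z ⟨t, ht⟩ t ht
      simp only [MonoidHom.one_apply]
      rw [MonoidHom.coe_coe, this, ht1]) (by
      intro t y _ _
      simp)
  refine ⟨F, fun b hb => by simpa using hF1 ⟨b, hb⟩, fun t => ?_⟩
  have := hF2 ⟨q t, ⟨t, rfl⟩⟩
  rw [this]
  exact he (q t) ⟨t, rfl⟩ t rfl

end q3

end Pool.Agent.Helper98.AAD
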