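import Pool.Agent.Helper98.AAD.R1
import Pool.Agent.Helper98.AAD.R2
import Pool.Agent.Helper98.AAD.R3
import Pool.Agent.Helper98.AAD.R4

/-!
AAD, module R4b: powers of cyclically reduced elements, the subgroup `Y ⊔ L`, malnormality.
-/

set_option autoImplicit false

namespace Pool.Agent.Helper98.AAD

variable {G : Type} [Group G] {X Y L : Subgroup G}

/-- R4b : powers of cyclically reduced elements -/
theorem RA.cyc_pow (h : RA X Y L) {x0 : G} (hx : x0 ∈ X) {l : List (G × G)} (hl : Rd X Y L l)
    (hne : l ≠ []) (hj : (l.getLast hne).2 * x0 ∉ Y) (n : ℕ) :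
    rlen X Y L ((x0 * wp l) ^ n) = n * l.length := by
  have key : ∀ n : ℕ, ∃ w, Rd X Y L w ∧ w.length = (n + 1) * l.length ∧
      (x0 * wp l) ^ (n + 1) = x0 * wp w := by
    intro n
    induction n with
    | zero => exact ⟨l, hl, by simp, by simp⟩
    | succ n ih =>
      obtain ⟨w, hw, hlen, e⟩ := ih
      obtain ⟨h1, h2⟩ := Rd.cat h.le hl hw hne hx (fun _ => hj)
      refine ⟨_, h1, ?_, ?_⟩
      · rw [List.length_append, List.length_cons, List.length_dropLast, hlen]
        have hpos : 0 < l.length := List.length_pos_iff.mpr hne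
        have : l.length - 1 + ((n + 1) * l.length + 1) = (n + 1) * l.length + l.length := by omega
        rw [this]
        ring
      · rw [pow_succ', e, ← h2]
        group
  rcases n with _ | n
  · rw [pow_zero, zero_mul, h.rlen_eq_zero]
    exact X.one_mem
  · obtain ⟨w, hw, hlen, e⟩ := key n
    rw [e, h.rlen_form hx hw, hlen]

theorem Rd.r4b_snd {l : List (G × G)}
    (hl : Rd X Y L l) : ∀ p ∈ l, p.2 ∈ X := by
  induction l with
  | nil =>
    intro p hp
    simp at hp
  | cons a l ih =>
    intro p hp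
    obtain ⟨_, _, h3, _, h5⟩ := hl
    rcases List.mem_cons.mp hp with rfl | hp
    · exact h3
    · exact ih h5 p hp

theorem Sim.r4b_mem {y : G} {l l' : List (G × G)} (h : Sim Y y l l') : y ∈ Y := by
  cases h with
  | nil => exact Y.one_mem
  | cons h1 _ _ => exact h1

/-- elements of `Y ⊔ L` are products `y t` -/
theorem RA.r4b_form (h : RA X Y L) {x : G} (hx : x ∈ Y ⊔ L) : ∃ y ∈ Y, ∃ t ∈ L, x = y * t := by
  let S : Subgroup G :=
    { carrier := {x | ∃ y ∈ Y, ∃ t ∈ L, x = y * t}
      mul_mem' := by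
        rintro a b ⟨y, hy, t, ht, rfl⟩ ⟨y', hy', t', ht', rfl⟩
        refine ⟨y * (t * y' * t⁻¹), Y.mul_mem hy (h.norm t ht y' hy'), t * t',
          L.mul_mem ht ht', by group⟩
      one_mem' := ⟨1, Y.one_mem, 1, L.one_mem, by group⟩
      inv_mem' := by
        rintro a ⟨y, hy, t, ht, rfl⟩
        refine ⟨t⁻¹ * y⁻¹ * t⁻¹⁻¹, h.norm t⁻¹ (L.inv_mem ht) y⁻¹ (Y.inv_mem hy), t⁻¹,
          L.inv_mem ht, by group⟩ }
  have hS : Y ⊔ L ≤ S := by
    apply sup_le
    · intro y hy
      exact ⟨y, hy, 1, L.one_mem, by group⟩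
    · intro t ht
      exact ⟨1, Y.one_mem, t, ht, by group⟩
  exact hS hx

/-- R4c : elements of `Y ⊔ L` have length at most one -/
theorem RA.rlen_YL (h : RA X Y L) {x : G} (hx : x ∈ Y ⊔ L) : rlen X Y L x ≤ 1 := by
  obtain ⟨y, hy, t, ht, rfl⟩ := h.r4b_form hx
  rw [h.rlen_mul_left (h.le hy)]
  by_cases hY : t ∈ Y
  · rw [(h.rlen_eq_zero).mpr (h.le hY)]
    exact Nat.zero_le 1
  · exact (h.rlen_letter ht hY).le

/-- R4d : `Y ⊔ L` meets `X` in `Y` -/
theorem RA.inter_YL (h : RA X Y L) {x : G} (hx : x ∈ Y ⊔ L) (hX : x ∈ X) : x ∈ Y := by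
  obtain ⟨y, hy, t, ht, rfl⟩ := h.r4b_form hx
  have h1 : t ∈ X := by
    have := X.mul_mem (X.inv_mem (h.le hy)) hX
    rwa [inv_mul_cancel_left] at this
  exact Y.mul_mem hy (h.inter t ht h1)

/-- R4e : malnormality -/
theorem RA.mal (h : RA X Y L) (hm : ∀ n ∈ Y, n ≠ 1 → ∀ g ∈ X, g⁻¹ * n * g ∈ Y → g ∈ Y) :
    ∀ n ∈ Y ⊔ L, n ≠ 1 → ∀ g, g⁻¹ * n * g ∈ Y ⊔ L → g ∈ Y ⊔ L := by
  have hYN : Y ≤ Y ⊔ L := le_sup_left
  have hLN : L ≤ Y ⊔ L := le_sup_right
  have key : ∀ (k : ℕ) (x0 : G), x0 ∈ X → ∀ l : List (G × G), Rd X Y L l → l.length = k →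
      ∀ n ∈ Y ⊔ L, n ≠ 1 → (x0 * wp l)⁻¹ * n * (x0 * wp l) ∈ Y ⊔ L → x0 * wp l ∈ Y ⊔ L := by
    intro k
    induction k with
    | zero =>
      intro x0 hx0 l hl hlen n hn hn1 hg
      have hl0 : l = [] := List.length_eq_zero_iff.mp hlen
      subst hl0
      have e : x0 * wp ([] : List (G × G)) = x0 := by simp [wp]
      rw [e] at hg ⊢
      obtain ⟨y, hy, t, ht, rfl⟩ := h.r4b_form hn
      by_cases hY : t ∈ Y
      · have hyt : y * t ∈ Y := Y.mul_mem hy hY
        have h1 : x0⁻¹ * (y * t) * x0 ∈ X :=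
          X.mul_mem (X.mul_mem (X.inv_mem hx0) (h.le hyt)) hx0
        exact hYN (hm _ hyt hn1 x0 hx0 (h.inter_YL hg h1))
      · obtain ⟨y', hy', t', ht', e'⟩ := h.r4b_form hg
        have hRd : Rd X Y L [(t, x0)] :=
          ⟨ht, hY, hx0, fun h' => absurd rfl h', trivial⟩
        by_cases hY' : t' ∈ Y
        · exfalso
          have h1 : rlen X Y L (x0⁻¹ * (y * t) * x0) = 0 := by
            rw [e', h.rlen_eq_zero]
            exact X.mul_mem (h.le hy') (h.le hY')
          have h2 : x0⁻¹ * (y * t) * x0 = (x0⁻¹ * y) * wp [(t, x0)] := by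
            simp only [wp]
            group
          rw [h2, h.rlen_form (X.mul_mem (X.inv_mem hx0) (h.le hy)) hRd] at h1
          simp at h1
        · have hRd' : Rd X Y L [(t', 1)] :=
            ⟨ht', hY', X.one_mem, fun h' => absurd rfl h', trivial⟩
          have e2 : wp [(t, x0)] = (y⁻¹ * x0 * y') * wp [(t', 1)] := by
            simp only [wp, mul_one]
            have e3 : x0⁻¹ * (y * t) * x0 = y' * t' := e'
            calc t * x0 = y⁻¹ * x0 * (x0⁻¹ * (y * t) * x0) := by group
              _ = y⁻¹ * x0 * y' * t' := by rw [e3]; group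
          have hs := h.sim (X.mul_mem (X.mul_mem (X.inv_mem (h.le hy)) hx0) (h.le hy')) hRd hRd' e2
          have h5 : y⁻¹ * x0 * y' ∈ Y := hs.r4b_mem
          have h6 : x0 = y * (y⁻¹ * x0 * y') * y'⁻¹ := by group
          rw [h6]
          exact hYN (Y.mul_mem (Y.mul_mem hy h5) (Y.inv_mem hy'))
    | succ k ih =>
      intro x0 hx0 l hl hlen n hn hn1 hg
      have hne : l ≠ [] := by
        intro h0
        rw [h0] at hlen
        simp at hlen
      by_cases hx0Y : x0 ∈ Y
      · -- shorten on the left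
        match l, hl, hlen, hne with
        | (t, x) :: l', hl, hlen, _ =>
          obtain ⟨h1, h2, h3, h4, h5⟩ := hl
          simp only at h1 h2 h3 h4
          have ha : x0 * t ∈ Y ⊔ L := mul_mem (hYN hx0Y) (hLN h1)
          have e : x0 * wp ((t, x) :: l') = (x0 * t) * (x * wp l') := by
            simp only [wp]
            group
          rw [e] at hg ⊢
          refine mul_mem ha (ih x h3 l' h5 (by simpa using hlen) ((x0 * t)⁻¹ * n * (x0 * t)) ?_ ?_ ?_)
          · exact mul_mem (mul_mem (inv_mem ha) hn) ha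
          · intro h0
            apply hn1
            have : n = (x0 * t) * ((x0 * t)⁻¹ * n * (x0 * t)) * (x0 * t)⁻¹ := by group
            rw [this, h0]
            group
          · have : (x * wp l')⁻¹ * ((x0 * t)⁻¹ * n * (x0 * t)) * (x * wp l') =
                (x0 * t * (x * wp l'))⁻¹ * n * (x0 * t * (x * wp l')) := by group
            rw [this]
            exact hg
      · exfalso
        obtain ⟨l'', hl'', hlen'', e1, hlast⟩ := h.invForm X.one_mem hl hne
        rw [one_mul] at e1
        have hne'' : l'' ≠ [] := by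
          intro h0
          rw [h0] at hlen''
          simp only [List.length_nil] at hlen''
          omega
        have hlast2 : (l''.getLast hne'').2 = 1 := by
          rw [(hlast hne'').1, inv_one]
        have hlastX : (l.getLast hne).2 ∈ X := hl.r4b_snd _ (List.getLast_mem hne)
        have hle := h.rlen_YL hg
        obtain ⟨y, hy, t, ht, rfl⟩ := h.r4b_form hn
        by_cases hY : t ∈ Y
        · have hyt : y * t ∈ Y := Y.mul_mem hy hY
          have hz : x0⁻¹ * (y * t) * x0 ∈ X :=
            X.mul_mem (X.mul_mem (X.inv_mem hx0) (h.le hyt)) hx0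
          have hzY : x0⁻¹ * (y * t) * x0 ∉ Y := fun h0 => hx0Y (hm _ hyt hn1 x0 hx0 h0)
          obtain ⟨h7, h8⟩ := Rd.cat h.le hl'' hl hne'' hz (fun _ => by
            rw [hlast2, one_mul]
            exact hzY)
          have e2 : (x0 * wp l)⁻¹ * (y * t) * (x0 * wp l) =
              (l.getLast hne).2⁻¹ * (wp l'' * ((x0⁻¹ * (y * t) * x0) * wp l)) := by
            have : (x0 * wp l)⁻¹ * (y * t) * (x0 * wp l) =
              (wp l)⁻¹ * ((x0⁻¹ * (y * t) * x0) * wp l) := by group
            rw [this, e1]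
            group
          rw [e2, h8, h.rlen_form (X.inv_mem hlastX) h7] at hle
          rw [List.length_append, List.length_cons, List.length_dropLast, hlen'', hlen] at hle
          omega
        · have hRd : Rd X Y L ((t, x0) :: l) := ⟨ht, hY, hx0, fun _ => hx0Y, hl⟩
          have hx1 : x0⁻¹ * y ∈ X := X.mul_mem (X.inv_mem hx0) (h.le hy)
          obtain ⟨h7, h8⟩ := Rd.cat h.le hl'' hRd hne'' hx1 (fun _ => by
            rw [hlast2, one_mul]
            intro h0
            apply hx0Y
            have : x0 = y * (x0⁻¹ * y)⁻¹ := by group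
            rw [this]
            exact Y.mul_mem hy (Y.inv_mem h0))
          have e2 : (x0 * wp l)⁻¹ * (y * t) * (x0 * wp l) =
              (l.getLast hne).2⁻¹ * (wp l'' * ((x0⁻¹ * y) * wp ((t, x0) :: l))) := by
            have : (x0 * wp l)⁻¹ * (y * t) * (x0 * wp l) =
              (wp l)⁻¹ * ((x0⁻¹ * y) * wp ((t, x0) :: l)) := by
              simp only [wp]
              group
            rw [this, e1]
            group
          rw [e2, h8, h.rlen_form (X.inv_mem hlastX) h7] at hle
          rw [List.length_append, List.length_cons, List.length_dropLast, List.length_cons, hlen'',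
            hlen] at hle
          omega
  intro n hn hn1 g hg
  obtain ⟨x0, hx0, l, hl, rfl⟩ := h.form g
  exact key l.length x0 hx0 l hl rfl n hn hn1 hg

end Pool.Agent.Helper98.AAD
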