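import Pool.Agent.Helper98.AAD.R3
import Pool.Agent.Helper98.AAD.R4b

/-!
# AAD, Q6: growth of powers of cyclically reduced elements
-/

set_option autoImplicit false

namespace Pool.Agent.Helper98.AAD

section q6

variable {G : Type} [Group G] {q : Multiplicative ℚ →* G} {β : ℕ → Subgroup G}

/-- Q6 : growth -/
theorem CycRed.pow (hq : QS q β) {y : G} (hy : CycRed q β y) (n : ℕ) : n ≤ ql q β (y ^ n) := by
  obtain ⟨l, hl, hne, hC, rfl⟩ := hy
  have h1 := hq.ra.cyc_pow (Bb β).one_mem hl hne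
    (by rw [mul_one]; exact hC _ (List.getLast_mem hne)) n
  rw [one_mul] at h1
  show n ≤ rlen _ _ _ _
  rw [h1]
  exact Nat.le_mul_of_pos_right n (List.length_pos_iff.2 hne)

theorem CycRed.conj (hq : QS q β) {y : G} (hy : CycRed q β y) (u : G) : u⁻¹ * y * u ∉ Bb β := by
  intro hB
  have h1 := hy.pow hq (2 * ql q β u + 1)
  have e : y ^ (2 * ql q β u + 1) = u * (u⁻¹ * y * u) ^ (2 * ql q β u + 1) * u⁻¹ := by
    have : u⁻¹ * y * u = u⁻¹ * y * u⁻¹⁻¹ := by rw [inv_inv]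
    rw [this, conj_pow]
    group
  have h2 : ql q β (y ^ (2 * ql q β u + 1)) ≤ ql q β u + 0 + ql q β u := by
    rw [e]
    have a1 := hq.ra.rlen_mul_le (u * (u⁻¹ * y * u) ^ (2 * ql q β u + 1)) u⁻¹
    have a2 := hq.ra.rlen_mul_right ((Bb β).pow_mem hB (2 * ql q β u + 1)) u
    have a3 := hq.ra.rlen_inv u
    show rlen _ _ _ _ ≤ rlen _ _ _ _ + 0 + rlen _ _ _ _
    omega
  omega

end q6

end Pool.Agent.Helper98.AAD
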