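import Pool.Agent.Helper98.AAD.R1

/-!
Conjugacy reduction in the amalgam (Q7 of project AAD, problem MP_aade38_al).
-/

set_option autoImplicit false

namespace Pool.Agent.Helper98.AAD

section q7

variable {G : Type} [Group G]

/-- lists of pairs in which no entry is in `Y` -/
def Ful (X Y L : Subgroup G) (l : List (G × G)) : Prop :=
  ∀ p ∈ l, p.1 ∈ L ∧ p.1 ∉ Y ∧ p.2 ∈ X ∧ p.2 ∉ Y

variable {X Y L : Subgroup G}

theorem Ful.rd : ∀ {l : List (G × G)}, Ful X Y L l → Rd X Y L l
  | [], _ => trivial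
  | p :: l, h => by
      have h1 := h p (by simp)
      refine ⟨h1.1, h1.2.1, h1.2.2.1, fun _ => h1.2.2.2, Ful.rd fun r hr => h r (by simp [hr])⟩

/-- the cases of a reduced list : the empty list, or an entry outside `Y` at the end, or an entry
in `Y` at the end -/
theorem Rd.cases_last : ∀ {l : List (G × G)}, Rd X Y L l → Ful X Y L l ∨
    ∃ (l' : List (G × G)) (t x : G), l = l' ++ [(t, x)] ∧ Ful X Y L l' ∧ t ∈ L ∧ t ∉ Y ∧ x ∈ Y
  | [], _ => Or.inl (by intro p hp; simp at hp)
  | p :: l, h => by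
      obtain ⟨h1, h2, h3, h4, h5⟩ := h
      rcases Rd.cases_last h5 with hf | ⟨l', t, x, rfl, hf, ht, htY, hx⟩
      · by_cases hp : p.2 ∈ Y
        · have hl : l = [] := by
            by_contra hne
            exact h4 hne hp
          subst hl
          exact Or.inr ⟨[], p.1, p.2, by simp, by intro r hr; simp at hr, h1, h2, hp⟩
        · left
          intro r hr
          rcases List.mem_cons.1 hr with rfl | hr
          · exact ⟨h1, h2, h3, hp⟩
          · exact hf r hr
      · right
        refine ⟨p :: l', t, x, by simp, ?_, ht, htY, hx⟩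
        intro r hr
        rcases List.mem_cons.1 hr with rfl | hr
        · exact ⟨h1, h2, h3, h4 (by simp)⟩
        · exact hf r hr

theorem wp_app7 : ∀ l l' : List (G × G), wp (l ++ l') = wp l * wp l'
  | [], l' => by simp [wp]
  | p :: l, l' => by simp [wp, wp_app7 l l', mul_assoc]

end q7

variable {G : Type} [Group G] {q : Multiplicative ℚ →* G} {β : ℕ → Subgroup G}

/-- the conclusion of `QS.cyc` -/
def Cy7 (q : Multiplicative ℚ →* G) (β : ℕ → Subgroup G) (x : G) : Prop :=
  ∃ u : G, u⁻¹ * x * u ∈ Bb β ∨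
    (∃ c ∈ β 0, ∃ t, t ≠ 1 ∧ u⁻¹ * x * u = c * q t) ∨ CycRed q β (u⁻¹ * x * u)

theorem Cy7.conj {x : G} (v : G) (h : Cy7 q β (v⁻¹ * x * v)) : Cy7 q β x := by
  obtain ⟨u, h⟩ := h
  have e : u⁻¹ * (v⁻¹ * x * v) * u = (v * u)⁻¹ * x * (v * u) := by group
  rw [e] at h
  exact ⟨v * u, h⟩

theorem Cy7.of {x : G} (h : x ∈ Bb β ∨
    (∃ c ∈ β 0, ∃ t, t ≠ 1 ∧ x = c * q t) ∨ CycRed q β x) : Cy7 q β x := by
  refine ⟨1, ?_⟩
  have e : (1 : G)⁻¹ * x * 1 = x := by group
  rw [e]
  exact h

theorem cy7_aux (hq : QS q β) : ∀ (n : ℕ) (l : List (G × G)), l.length ≤ n → Rq q β l →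
    ∀ x0 ∈ Bb β, Cy7 q β (x0 * wp l) := by
  intro n
  induction n with
  | zero =>
    intro l hl _ x0 hx0
    have : l = [] := List.length_eq_zero_iff.1 (by omega)
    subst this
    apply Cy7.of
    left
    simpa [wp] using hx0
  | succ n ih =>
    intro l hl hR x0 hx0
    rcases List.eq_nil_or_concat l with rfl | ⟨ps, p, rfl⟩
    · apply Cy7.of
      left
      simpa [wp] using hx0
    obtain ⟨t, x⟩ := p
    have hR' : Ful (Bb β) (β 0) q.range ps ∧ t ∈ q.range ∧ t ∉ β 0 ∧ x ∈ Bb β := by
      rw [List.concat_eq_append] at hR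
      rcases Rd.cases_last hR with hf | ⟨l', t', x', e, hf, ht, htY, hx⟩
      · have := hf (t, x) (by simp)
        exact ⟨fun r hr => hf r (by simp [hr]), this.1, this.2.1, this.2.2.1⟩
      · obtain ⟨rfl, e2⟩ := List.append_inj' e rfl
        simp only [List.cons.injEq, Prod.mk.injEq, and_true] at e2
        obtain ⟨rfl, rfl⟩ := e2
        exact ⟨hf, ht, htY, hq.ra.le hx⟩
    obtain ⟨hf, ht, htY, hx⟩ := hR'
    rw [List.concat_eq_append] at hl ⊢
    apply Cy7.conj x0
    have e1 : x0⁻¹ * (x0 * wp (ps ++ [(t, x)])) * x0 = wp (ps ++ [(t, x * x0)]) := by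
      simp only [wp_app7, wp]; group
    rw [e1]
    have hz : x * x0 ∈ Bb β := mul_mem hx hx0
    generalize x * x0 = z at hz
    by_cases hzY : z ∈ β 0
    · obtain ⟨s, rfl⟩ := ht
      have hs : s ≠ 1 := by
        rintro rfl
        exact htY (by simp)
      have hcz : q s * z * (q s)⁻¹ ∈ β 0 := hq.ra.norm _ ⟨s, rfl⟩ z hzY
      cases ps with
      | nil =>
        apply Cy7.of
        right; left
        refine ⟨q s * z * (q s)⁻¹, hcz, s, hs, ?_⟩
        simp only [List.nil_append, wp]; group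
      | cons p ps =>
        obtain ⟨t', x'⟩ := p
        have hp := hf (t', x') (by simp)
        obtain ⟨h1, h2, h3, h4⟩ := hp
        simp only at h1 h2 h3 h4
        have hf' : Ful (Bb β) (β 0) q.range ps := fun r hr => hf r (by simp [hr])
        apply Cy7.conj (q s * z)⁻¹
        have e2 : ((q s * z)⁻¹)⁻¹ * wp ((t', x') :: ps ++ [(q s, z)]) * (q s * z)⁻¹
            = (q s * z * (q s)⁻¹) * (q s * t' * x' * wp ps) := by
          simp only [wp_app7, wp, List.cons_append]; group
        rw [e2]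
        by_cases hst : q s * t' ∈ β 0
        · have e3 : (q s * z * (q s)⁻¹) * (q s * t' * x' * wp ps)
              = ((q s * z * (q s)⁻¹) * (q s * t') * x') * wp ps := by group
          rw [e3]
          refine ih ps ?_ hf'.rd _ ?_
          · simp at hl; omega
          · exact mul_mem (mul_mem (hq.ra.le hcz) (hq.ra.le hst)) h3
        · have e3 : (q s * z * (q s)⁻¹) * (q s * t' * x' * wp ps)
              = (q s * z * (q s)⁻¹) * wp ((q s * t', x') :: ps) := by
            simp only [wp]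
          rw [e3]
          refine ih _ ?_ ?_ _ (hq.ra.le hcz)
          · simp at hl ⊢; omega
          · apply Ful.rd
            intro r hr
            rcases List.mem_cons.1 hr with rfl | hr
            · exact ⟨mul_mem ⟨s, rfl⟩ h1, hst, h3, h4⟩
            · exact hf' r hr
    · apply Cy7.of
      right; right
      have hF : Ful (Bb β) (β 0) q.range (ps ++ [(t, z)]) := by
        intro r hr
        rcases List.mem_append.1 hr with hr | hr
        · exact hf r hr
        · rw [List.mem_singleton] at hr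
          subst hr
          exact ⟨ht, htY, hz, hzY⟩
      exact ⟨_, hF.rd, by simp, fun p hp => (hF p hp).2.2.2, rfl⟩

/-- Q7 : conjugacy reduction -/
theorem QS.cyc (hq : QS q β) (x : G) : ∃ u : G, u⁻¹ * x * u ∈ Bb β ∨
    (∃ c ∈ β 0, ∃ t, t ≠ 1 ∧ u⁻¹ * x * u = c * q t) ∨ CycRed q β (u⁻¹ * x * u) := by
  obtain ⟨x0, hx0, l, hl, rfl⟩ := hq.ra.form x
  exact cy7_aux hq l.length l le_rfl hl x0 hx0

end Pool.Agent.Helper98.AAD
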