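import Pool.Agent.Helper98.AAD.Q7

/-!
Products of two conjugates of `c * q t` are hyperbolic (Q8 of project AAD, problem MP_aade38_al).
-/

set_option autoImplicit false

namespace Pool.Agent.Helper98.AAD

section q8

variable {G : Type} [Group G] {X Y L : Subgroup G}

/-- elements whose reduced form begins and ends with an element of `X` outside `Y` -/
def Fe8 (X Y L : Subgroup G) (z : G) : Prop :=
  ∃ y0 ∈ X, y0 ∉ Y ∧ ∃ l, Ful X Y L l ∧ z = y0 * wp l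

theorem Fe8.mul {z z' s : G} (h : Fe8 X Y L z) (hs : s ∈ L) (hsY : s ∉ Y) (h' : Fe8 X Y L z') :
    Fe8 X Y L (z * s * z') := by
  obtain ⟨y0, hy, hyY, l, hl, rfl⟩ := h
  obtain ⟨y1, hy1, hyY1, l', hl', rfl⟩ := h'
  refine ⟨y0, hy, hyY, l ++ (s, y1) :: l', ?_, ?_⟩
  · intro r hr
    rcases List.mem_append.1 hr with hr | hr
    · exact hl r hr
    · rcases List.mem_cons.1 hr with rfl | hr
      · exact ⟨hs, hsY, hy1, hyY1⟩
      · exact hl' r hr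
  · simp only [wp_app7, wp]; group

theorem Fe8.base {y : G} (hy : y ∈ X) (hyY : y ∉ Y) : Fe8 X Y L y :=
  ⟨y, hy, hyY, [], by intro r hr; simp at hr, by simp [wp]⟩

theorem Fe8.inv_aux : ∀ (l : List (G × G)) (y0 : G), y0 ∈ X → y0 ∉ Y → Ful X Y L l →
    Fe8 X Y L (y0 * wp l)⁻¹
  | [], y0, hy, hyY, _ => by
      have e : (y0 * wp [])⁻¹ = y0⁻¹ := by simp [wp]
      rw [e]
      exact Fe8.base (inv_mem hy) (fun h => hyY (by simpa using inv_mem h))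
  | p :: l, y0, hy, hyY, hl => by
      have hp := hl p (by simp)
      have e : (y0 * wp (p :: l))⁻¹ = (p.2 * wp l)⁻¹ * p.1⁻¹ * y0⁻¹ := by
        simp only [wp]; group
      rw [e]
      refine Fe8.mul (Fe8.inv_aux l p.2 hp.2.2.1 hp.2.2.2 fun r hr => hl r (by simp [hr]))
        (inv_mem hp.1) (fun h => hp.2.1 (by simpa using inv_mem h)) ?_
      exact Fe8.base (inv_mem hy) (fun h => hyY (by simpa using inv_mem h))

theorem Fe8.inv {z : G} (h : Fe8 X Y L z) : Fe8 X Y L z⁻¹ := by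
  obtain ⟨y0, hy, hyY, l, hl, rfl⟩ := h
  exact Fe8.inv_aux l y0 hy hyY hl

theorem Fe8.mul_left (hYX : Y ≤ X) {z c : G} (hc : c ∈ Y) (h : Fe8 X Y L z) :
    Fe8 X Y L (c * z) := by
  obtain ⟨y0, hy, hyY, l, hl, rfl⟩ := h
  refine ⟨c * y0, mul_mem (hYX hc) hy, fun h => hyY ((Subgroup.mul_mem_cancel_left Y hc).1 h), l, hl,
    by group⟩

theorem Fe8.mul_right (hYX : Y ≤ X) {z c : G} (hc : c ∈ Y) (h : Fe8 X Y L z) :
    Fe8 X Y L (z * c) := by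
  have := (Fe8.mul_left hYX (inv_mem hc) h.inv).inv
  simpa using this

/-- every element outside `Y ⊔ L` is `a0 * v' * a1` -/
theorem RA.dec8 (h : RA X Y L) {v : G} (hv : v ∉ Y ⊔ L) :
    ∃ a0 ∈ Y ⊔ L, ∃ a1 ∈ Y ⊔ L, ∃ z, Fe8 X Y L z ∧ v = a0 * z * a1 := by
  obtain ⟨x0, hx0, l, hl, rfl⟩ := h.form v
  have key : ∃ l', Ful X Y L l' ∧ ∃ a1 ∈ Y ⊔ L, wp l = wp l' * a1 := by
    rcases Rd.cases_last hl with hf | ⟨l', t, x, rfl, hf, ht, htY, hx⟩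
    · exact ⟨l, hf, 1, one_mem _, by simp⟩
    · refine ⟨l', hf, t * x, mul_mem ((le_sup_right : L ≤ Y ⊔ L) ht)
        ((le_sup_left : Y ≤ Y ⊔ L) hx), ?_⟩
      simp only [wp_app7, wp]; group
  obtain ⟨l', hf, a1, ha1, e⟩ := key
  rw [e] at hv ⊢
  by_cases hx : x0 ∈ Y
  · cases l' with
    | nil =>
      exfalso
      apply hv
      simp only [wp, one_mul]
      exact mul_mem ((le_sup_left : Y ≤ Y ⊔ L) hx) ha1
    | cons p l'' =>
      have hp := hf p (by simp)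
      refine ⟨x0 * p.1, mul_mem ((le_sup_left : Y ≤ Y ⊔ L) hx)
        ((le_sup_right : L ≤ Y ⊔ L) hp.1), a1, ha1, p.2 * wp l'',
        ⟨p.2, hp.2.2.1, hp.2.2.2, l'', fun r hr => hf r (by simp [hr]), rfl⟩, ?_⟩
      simp only [wp]; group
  · exact ⟨1, one_mem _, a1, ha1, x0 * wp l', ⟨x0, hx0, hx, l', hf, rfl⟩, by group⟩

end q8

variable {G : Type} [Group G] {q : Multiplicative ℚ →* G} {β : ℕ → Subgroup G}

theorem QS.conj8 (hq : QS q β) (t : Multiplicative ℚ) {a : G} (ha : a ∈ β 0 ⊔ q.range) :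
    ∀ c ∈ β 0, (∃ c' ∈ β 0, a⁻¹ * (c * q t) * a = c' * q t) ∧
      ∃ c' ∈ β 0, a * (c * q t) * a⁻¹ = c' * q t := by
  have hnorm := hq.ra.norm
  have hone : ∀ a ∈ (β 0 : Set G) ∪ (q.range : Set G), ∀ c ∈ β 0,
      ∃ c' ∈ β 0, a * (c * q t) * a⁻¹ = c' * q t := by
    rintro a (ha | ⟨s, rfl⟩) c hc
    · refine ⟨a * c * (q t * a⁻¹ * (q t)⁻¹), mul_mem (mul_mem ha hc)
        (hnorm _ ⟨t, rfl⟩ _ (inv_mem ha)), by group⟩
    · refine ⟨q s * c * (q s)⁻¹, hnorm _ ⟨s, rfl⟩ _ hc, ?_⟩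
      have e : q s * q t * (q s)⁻¹ = q t := by
        rw [← map_mul, ← map_inv, ← map_mul, mul_comm s t]
        simp
      calc q s * (c * q t) * (q s)⁻¹ = (q s * c * (q s)⁻¹) * (q s * q t * (q s)⁻¹) := by group
        _ = _ := by rw [e]
  rw [Subgroup.sup_eq_closure] at ha
  induction ha using Subgroup.closure_induction with
  | mem x hx =>
    intro c hc
    refine ⟨?_, hone x hx c hc⟩
    have hx' : x⁻¹ ∈ (β 0 : Set G) ∪ (q.range : Set G) := by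
      rcases hx with hx | hx
      · exact Or.inl (inv_mem hx)
      · exact Or.inr (inv_mem hx)
    have := hone x⁻¹ hx' c hc
    simpa using this
  | one => intro c hc; exact ⟨⟨c, hc, by group⟩, ⟨c, hc, by group⟩⟩
  | mul x y _ _ hx hy =>
    intro c hc
    constructor
    · obtain ⟨⟨c1, hc1, e1⟩, -⟩ := hx c hc
      obtain ⟨⟨c2, hc2, e2⟩, -⟩ := hy c1 hc1
      refine ⟨c2, hc2, ?_⟩
      rw [← e2, ← e1]; group
    · obtain ⟨-, ⟨c1, hc1, e1⟩⟩ := hy c hc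
      obtain ⟨-, ⟨c2, hc2, e2⟩⟩ := hx c1 hc1
      refine ⟨c2, hc2, ?_⟩
      rw [← e2, ← e1]; group
  | inv x _ hx =>
    intro c hc
    obtain ⟨h1, h2⟩ := hx c hc
    refine ⟨by simpa using h2, by simpa using h1⟩

/-- Q8 -/
theorem QS.hyp (hq : QS q β) {c : G} (hc : c ∈ β 0) {t : Multiplicative ℚ} (ht : t ≠ 1) {v : G}
    (hv : v ∉ β 0 ⊔ q.range) :
    ∃ u : G, CycRed q β (u⁻¹ * (c * q t * (v * (c * q t) * v⁻¹)) * u) := by
  obtain ⟨a0, ha0, a1, ha1, z, hz, rfl⟩ := hq.ra.dec8 hv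
  obtain ⟨⟨c1, hc1, e1⟩, -⟩ := hq.conj8 t ha0 c hc
  obtain ⟨-, ⟨c2, hc2, e2⟩⟩ := hq.conj8 t ha1 c hc
  have hle := hq.ra.le
  have htY : q t ∉ β 0 := fun h => ht (hq.disj t h)
  have hw : Fe8 (Bb β) (β 0) q.range ((z * c2) * q t * (z⁻¹ * c1)) :=
    Fe8.mul (Fe8.mul_right hle hc2 hz) ⟨t, rfl⟩ htY (Fe8.mul_right hle hc1 hz.inv)
  obtain ⟨y0, hy, hyY, l, hl, e⟩ := hw
  refine ⟨a0 * c1, (q t, y0) :: l, ?_, by simp, ?_, ?_⟩
  · apply Ful.rd
    intro r hr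
    rcases List.mem_cons.1 hr with rfl | hr
    · exact ⟨⟨t, rfl⟩, htY, hy, hyY⟩
    · exact hl r hr
  · intro r hr
    rcases List.mem_cons.1 hr with rfl | hr
    · exact hyY
    · exact (hl r hr).2.2.2
  · have e3 : wp ((q t, y0) :: l) = q t * (y0 * wp l) := by simp only [wp]; group
    rw [e3, ← e]
    have e4 : (a0 * c1)⁻¹ * (c * q t * (a0 * z * a1 * (c * q t) * (a0 * z * a1)⁻¹)) * (a0 * c1)
        = c1⁻¹ * (a0⁻¹ * (c * q t) * a0) * z * (a1 * (c * q t) * a1⁻¹) * z⁻¹ * c1 := by group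
    rw [e4, e1, e2]
    group

end Pool.Agent.Helper98.AAD
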