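import Pool.Agent.Helper98.AAD.R1
import Pool.Agent.Helper98.AAD.R4

/-!
# AAD, Q9: inserting an element of `C` in a power of a cyclically reduced element
-/

set_option autoImplicit false

namespace Pool.Agent.Helper98.AAD

section

variable {G : Type} [Group G] {X Y L : Subgroup G}

/-- `u` has a reduced form with more than `k` letters whose last base entry is `e` -/
def Q9PE (X Y L : Subgroup G) (e : G) (k : ℕ) (u : G) : Prop :=
  ∃ b ∈ X, ∃ (l : List (G × G)) (hne : l ≠ []), Rd X Y L l ∧ k < l.length ∧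
    (l.getLast hne).2 = e ∧ u = b * wp l

theorem q9_left_X {e : G} {k : ℕ} {u x : G} (hx : x ∈ X) (h : Q9PE X Y L e k u) :
    Q9PE X Y L e k (x * u) := by
  obtain ⟨b, hb, l, hne, hl, hk, he, rfl⟩ := h
  exact ⟨x * b, X.mul_mem hx hb, l, hne, hl, hk, he, by rw [mul_assoc]⟩

theorem q9_left_L (le : Y ≤ X) (norm : ∀ t ∈ L, ∀ y ∈ Y, t * y * t⁻¹ ∈ Y) {e : G} {k : ℕ}
    {u t : G} (ht : t ∈ L) (h : Q9PE X Y L e (k + 1) u) : Q9PE X Y L e k (t * u) := by
  obtain ⟨b, hb, l, hne, hl, hk, he, rfl⟩ := h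
  by_cases htY : t ∈ Y
  · exact ⟨t * b, X.mul_mem (le htY) hb, l, hne, hl, by omega, he, by rw [mul_assoc]⟩
  by_cases hbY : b ∈ Y
  · obtain ⟨⟨s, x⟩, l', rfl⟩ := List.exists_cons_of_ne_nil hne
    obtain ⟨hs, hsY, hx, hl1, hl2⟩ := hl
    have hl' : l' ≠ [] := by
      rintro rfl
      simp at hk
    have hlast : (l'.getLast hl').2 = e := by
      rw [List.getLast_cons hl'] at he
      exact he
    have hlen : k < l'.length := by
      simp only [List.length_cons] at hk
      omega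
    by_cases hts : t * s ∈ Y
    · exact ⟨t * b * t⁻¹ * (t * s) * x,
        X.mul_mem (X.mul_mem (le (norm t ht b hbY)) (le hts)) hx, l', hl', hl2, hlen, hlast, by
          simp only [wp]
          group⟩
    · exact ⟨t * b * t⁻¹, le (norm t ht b hbY), (t * s, x) :: l', by simp,
        ⟨L.mul_mem ht hs, hts, hx, hl1, hl2⟩, by simp only [List.length_cons]; omega, by
          rw [List.getLast_cons hl']
          exact hlast, by
          simp only [wp]
          group⟩
  · exact ⟨1, X.one_mem, (t, b) :: l, by simp, ⟨ht, htY, hb, fun _ => hbY, hl⟩, by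
      simp only [List.length_cons]
      omega, by
      rw [List.getLast_cons hne]
      exact he, by
      simp only [wp]
      group⟩

theorem q9_left_wp (le : Y ≤ X) (norm : ∀ t ∈ L, ∀ y ∈ Y, t * y * t⁻¹ ∈ Y) {e : G}
    {l' : List (G × G)} (hl' : Rd X Y L l') : ∀ {k : ℕ} {u : G},
    Q9PE X Y L e (k + l'.length) u → Q9PE X Y L e k (wp l' * u) := by
  induction l' with
  | nil =>
    intro k u h
    simpa [wp] using h
  | cons p l' ih =>
    intro k u h
    obtain ⟨h1, _, h3, _, h5⟩ := hl'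
    have h6 : Q9PE X Y L e (k + 1) (wp l' * u) := ih h5 (by
      have : k + 1 + l'.length = k + (p :: l').length := by
        simp only [List.length_cons]
        omega
      rw [this]
      exact h)
    have h7 := q9_left_L le norm h1 (q9_left_X h3 h6)
    have h8 : wp (p :: l') * u = p.1 * (p.2 * (wp l' * u)) := by
      simp only [wp]
      group
    rw [h8]
    exact h7

theorem q9_left (h : RA X Y L) (g : G) :
    ∃ K : ℕ, ∀ (e : G) (u : G), Q9PE X Y L e K u → Q9PE X Y L e 0 (g * u) := by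
  obtain ⟨x0, hx0, l, hl, rfl⟩ := h.form g
  refine ⟨l.length, fun e u hu => ?_⟩
  rw [mul_assoc]
  exact q9_left_X hx0 (q9_left_wp h.le h.norm hl (by simpa using hu))

theorem q9_rd_append {l l' : List (G × G)} (hl : Rd X Y L l) (hY : ∀ p ∈ l, p.2 ∉ Y)
    (hl' : Rd X Y L l') : Rd X Y L (l ++ l') := by
  induction l with
  | nil => exact hl'
  | cons p l ih =>
    obtain ⟨h1, h2, h3, _, h5⟩ := hl
    exact ⟨h1, h2, h3, fun _ => hY p List.mem_cons_self,
      ih h5 fun q hq => hY q (List.mem_cons_of_mem _ hq)⟩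

theorem q9_pow {l : List (G × G)} (hl : Rd X Y L l) (hne : l ≠ []) (hY : ∀ p ∈ l, p.2 ∉ Y)
    (m : ℕ) : ∃ l' : List (G × G), Rd X Y L l' ∧ (∀ p ∈ l', p.2 ∉ Y) ∧ m ≤ l'.length ∧
      wp l ^ m = wp l' ∧
      (0 < m → ∃ hne' : l' ≠ [], (l'.getLast hne').2 = (l.getLast hne).2) := by
  induction m with
  | zero => exact ⟨[], trivial, by simp, by simp, by simp [wp], fun h => absurd h (lt_irrefl _)⟩
  | succ m ih =>
    obtain ⟨l', h1, h2, h3, h4, _⟩ := ih
    refine ⟨l' ++ l, q9_rd_append h1 h2 hl, ?_, ?_, ?_, fun _ => ⟨by simp [hne], ?_⟩⟩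
    · intro p hp
      rcases List.mem_append.1 hp with hp | hp
      · exact h2 p hp
      · exact hY p hp
    · have : 0 < l.length := List.length_pos_iff.2 hne
      rw [List.length_append]
      omega
    · rw [pow_succ, h4, wp_append]
    · rw [List.getLast_append_of_ne_nil _ hne]

end

/-- Q9 : inserting an element of `C` in a power of `y` -/
theorem CycRed.insert {G : Type} [Group G] {q : Multiplicative ℚ →* G} {β : ℕ → Subgroup G}
    (hq : QS q β) {y : G} (hy : CycRed q β y) (g : G) :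
    ∃ n m : ℕ, ∀ c ∈ β 0, Sh q β (g⁻¹ * (y ^ n * y ^ m) * g) (g⁻¹ * (y ^ n * c * y ^ m) * g) := by
  obtain ⟨ly, hly, hne, hC, rfl⟩ := hy
  obtain ⟨K, hK⟩ := q9_left hq.ra g⁻¹
  obtain ⟨l1, a1, a2, a3, a4, a5⟩ := q9_pow hly hne hC (K + 1)
  obtain ⟨hne1, a6⟩ := a5 (Nat.succ_pos K)
  -- the left part
  obtain ⟨b, hb, l, hnl, hl, _, hle, hl'⟩ := hK (ly.getLast hne).2 (wp ly ^ (K + 1))
    ⟨1, Subgroup.one_mem _, l1, hne1, a1, by omega, a6, by rw [a4, one_mul]⟩
  -- the right part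
  obtain ⟨l2, b1, b2, b3, b4⟩ := hq.ra.invForm (Subgroup.one_mem _) a1 hne1
  have hne2 : l2 ≠ [] := by
    rintro rfl
    simp only [List.length_nil] at b2
    omega
  obtain ⟨d, hd, l3, hn3, hl3, _, he3, hl3'⟩ := hK 1 (wp ly ^ (K + 1))⁻¹
    ⟨(l1.getLast hne1).2⁻¹, by
      refine Subgroup.inv_mem _ ?_
      have : ∀ (l : List (G × G)) (_ : Rd (Bb β) (β 0) q.range l), ∀ p ∈ l, p.2 ∈ Bb β := by
        intro l hl
        induction l with
        | nil => simp
        | cons p l ih =>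
          intro r hr
          rcases List.mem_cons.1 hr with rfl | hr
          · exact hl.2.2.1
          · exact ih hl.2.2.2.2 r hr
      exact this l1 a1 _ (List.getLast_mem hne1), l2, hne2, b1, by omega, by
        rw [(b4 hne2).1, inv_one], by
        rw [a4, ← b3, one_mul]⟩
  obtain ⟨r, c1, c2, c3, c4⟩ := hq.ra.invForm hd hl3 hn3
  have hr : wp ly ^ (K + 1) * g = wp r := by
    rw [he3, inv_one, one_mul, ← hl3'] at c3
    rw [← c3]
    group
  have hCB : β 0 ≤ Bb β := hq.ra.le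
  have hlast : (l.getLast hnl).2 ∉ β 0 := by
    rw [hle]
    exact hC _ (List.getLast_mem hne)
  have hlc : ∀ c ∈ β 0, (l.getLast hnl).2 * c ∉ β 0 := fun c hc h =>
    hlast (by simpa using Subgroup.mul_mem _ h (Subgroup.inv_mem _ hc))
  refine ⟨K + 1, K + 1, fun c hc => ?_⟩
  have key : ∀ c ∈ β 0, Rd (Bb β) (β 0) q.range
      (l.dropLast ++ ((l.getLast hnl).1, (l.getLast hnl).2 * c) :: r) ∧
      g⁻¹ * (wp ly ^ (K + 1) * c * wp ly ^ (K + 1)) * g =
        b * wp (l.dropLast ++ ((l.getLast hnl).1, (l.getLast hnl).2 * c) :: r) := by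
    intro c hc
    obtain ⟨e1, e2⟩ := Rd.cat hq.ra.le hl c1 hnl (hCB hc) (fun _ => hlc c hc)
    refine ⟨e1, ?_⟩
    rw [← e2, ← hr, ← mul_assoc b, ← hl']
    group
  obtain ⟨f1, f2⟩ := key 1 (Subgroup.one_mem _)
  obtain ⟨_, f4⟩ := key c hc
  refine ⟨b, b, _, _, hb, fun j => Iff.rfl, f1, ?_, ?_, f4⟩
  · refine List.rel_append (List.forall₂_same.2 fun p _ => ⟨rfl, fun j => Iff.rfl⟩) ?_
    refine List.Forall₂.cons ⟨rfl, fun j => ?_⟩
      (List.forall₂_same.2 fun p _ => ⟨rfl, fun j => Iff.rfl⟩)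
    have hcj : c ∈ β j := hq.mono (Nat.zero_le j) hc
    simp only [mul_one]
    exact ((β j).mul_mem_cancel_right hcj).symm
  · rw [← f2, mul_one]

end Pool.Agent.Helper98.AAD
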