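import Pool.Agent.Helper98.AAD.DefsV
import Pool.Agent.Helper98.AAD.R1
import Pool.Agent.Helper98.AAD.R3
import Pool.Agent.Helper98.AAD.R4
import Pool.Agent.Helper98.AAD.D0
import Pool.Agent.Helper98.AAD.Q3
import Pool.Agent.Helper98.AAD.Q7
import Pool.Agent.Helper98.AAD.Q8
import Pool.Agent.Helper98.AAD.Q9
import Pool.Agent.Helper98.AAD.Q12
import Pool.Agent.Helper98.AAD.Q6

/-!
Layer 5 of project AAD (problem MP_aade38_al): coatoms of the countable group.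
-/

set_option autoImplicit false

namespace Pool.Agent.Helper98.AAD

section helpers

variable {G : Type} [Group G] {q : Multiplicative ℚ →* G} {β : ℕ → Subgroup G}

theorem β_le_Bb (β : ℕ → Subgroup G) (j : ℕ) : β j ≤ Bb β := le_iSup β j

/-- `β j ⊔ q.range` meets the union of the levels in `β j` -/
theorem QS.lev_inter (hq : QS q β) (j : ℕ) {x : G} (hx : x ∈ β j ⊔ q.range) (hB : x ∈ Bb β) :
    x ∈ β j := by
  obtain ⟨x0, hx0, l, hl, -, e⟩ := r1_gen (W := β j) hq.ra.norm (β_le_Bb β j)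
    (fun t _ htY => hq.mono (Nat.zero_le j) htY)
    (fun t ht y _ hyY => hq.mono (Nat.zero_le j) (hq.ra.norm t ht y hyY)) hx
  by_cases hne : l = []
  · subst hne
    rw [e]
    simpa [wp] using hx0
  · exact absurd (by rw [← e]; exact hB) (hq.ra.nf x0 (β_le_Bb β j hx0) l hl hne)

/-- the conjugate subgroup -/
def cjH (u : G) (H : Subgroup G) : Subgroup G := H.comap (MulAut.conj u).toMonoidHom

theorem mem_cjH (u : G) (H : Subgroup G) (x : G) : x ∈ cjH u H ↔ u * x * u⁻¹ ∈ H := Iff.rfl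

theorem cjH_coatom (u : G) {H : Subgroup G} (hH : IsCoatom H) : IsCoatom (cjH u H) := by
  constructor
  · intro h
    apply hH.1
    rw [Subgroup.eq_top_iff']
    intro x
    have hx : u⁻¹ * x * u ∈ cjH u H := by rw [h]; trivial
    rw [mem_cjH] at hx
    simpa [mul_assoc] using hx
  · intro K hK
    have h1 : H < cjH u⁻¹ K := by
      refine lt_of_le_of_ne ?_ ?_
      · intro x hx
        rw [mem_cjH]
        apply hK.le
        rw [mem_cjH]
        simpa [mul_assoc] using hx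
      · intro h
        apply hK.not_ge
        intro x hx
        rw [mem_cjH, h, mem_cjH]
        simpa [mul_assoc] using hx
    have h2 := hH.2 _ h1
    rw [Subgroup.eq_top_iff']
    intro x
    have hx : u * x * u⁻¹ ∈ cjH u⁻¹ K := by rw [h2]; trivial
    rw [mem_cjH] at hx
    simpa [mul_assoc] using hx

end helpers

section fin

variable {G : Type} [Group G] {q : Multiplicative ℚ →* G} {β : ℕ → Subgroup G}
  {Γ E : ℕ → Subgroup G}

theorem FinS.Ecomm (h : FinS q β Γ E) (k l : ℕ) (e e' : G) (he : e ∈ E k) (he' : e' ∈ E l) :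
    e * e' = e' * e := by
  rcases lt_trichotomy k l with hkl | hkl | hkl
  · exact (h.comm l e' he' e (h.mono (by omega) (h.EΓ k he))).symm
  · subst hkl; exact h.ab k e he e' he'
  · exact h.comm k e he e' (h.mono (by omega) (h.EΓ l he'))

/-- elements of a supremum of commuting subgroups -/
theorem mem_sup_comm {G : Type} [Group G] {A B : Subgroup G}
    (hc : ∀ a ∈ A, ∀ b ∈ B, b * a = a * b) {x : G} (hx : x ∈ A ⊔ B) :
    ∃ a ∈ A, ∃ b ∈ B, x = a * b := by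
  have hle : A ⊔ B ≤
      { carrier := {x | ∃ a ∈ A, ∃ b ∈ B, x = a * b}
        one_mem' := ⟨1, A.one_mem, 1, B.one_mem, by simp⟩
        mul_mem' := by
          rintro _ _ ⟨a, ha, b, hb, rfl⟩ ⟨a', ha', b', hb', rfl⟩
          refine ⟨a * a', A.mul_mem ha ha', b * b', B.mul_mem hb hb', ?_⟩
          rw [mul_assoc, ← mul_assoc b, hc a' ha' b hb]; simp [mul_assoc]
        inv_mem' := by
          rintro _ ⟨a, ha, b, hb, rfl⟩
          refine ⟨a⁻¹, A.inv_mem ha, b⁻¹, B.inv_mem hb, ?_⟩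
          rw [← hc a ha b hb]; simp } := by
    refine sup_le (fun a ha => ⟨a, ha, 1, B.one_mem, by simp⟩)
      (fun b hb => ⟨1, A.one_mem, b, hb, by simp⟩)
  exact hle hx

/-- `Γ m ⊔ E m ⊔ ⋯ ⊔ E (m + k - 1)` -/
def KK {G : Type} [Group G] (Γ E : ℕ → Subgroup G) (m : ℕ) : ℕ → Subgroup G
  | 0 => Γ m
  | k + 1 => KK Γ E m k ⊔ E (m + k)

theorem FinS.kk_le (h : FinS q β Γ E) (m k : ℕ) : KK Γ E m k ≤ Γ (m + k) := by
  induction k with
  | zero => exact le_rfl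
  | succ k ih => exact sup_le (ih.trans (h.mono (by omega))) (h.EΓ (m + k))

theorem FinS.kk_inter (h : FinS q β Γ E) (m k : ℕ) {x : G} (hx : x ∈ KK Γ E m k)
    (hx' : x ∈ Γ (m + 1)) : x ∈ Γ m ⊔ E m := by
  induction k with
  | zero => exact Subgroup.mem_sup_left hx
  | succ k ih =>
    rcases Nat.eq_zero_or_pos k with hk | hk
    · subst hk; exact hx
    · obtain ⟨y, hy, e, he, hye⟩ := mem_sup_comm
        (fun a ha b hb => h.comm (m + k) b hb a (h.kk_le m k ha)) hx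
      have h1 : e ∈ Γ (m + k) := by
        have h2 : e = y⁻¹ * x := by rw [hye]; group
        rw [h2]
        exact (Γ (m + k)).mul_mem ((Γ (m + k)).inv_mem (h.kk_le m k hy))
          (h.mono (by omega) hx')
      have h3 := h.dis (m + k) e he h1
      rw [h3, mul_one] at hye
      exact ih (by rw [hye]; exact hy)

theorem KK_mono {G : Type} [Group G] (Γ E : ℕ → Subgroup G) (m : ℕ) : Monotone (KK Γ E m) :=
  monotone_nat_of_le_succ fun _ => le_sup_left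

theorem FinS.kk_succ (h : FinS q β Γ E) (m k : ℕ) : KK Γ E m (k + 1) ≤ KK Γ E (m + 1) k := by
  induction k with
  | zero => exact sup_le (h.mono (by omega)) (h.EΓ m)
  | succ k ih =>
    refine sup_le (ih.trans le_sup_left) ?_
    have : m + (k + 1) = m + 1 + k := by omega
    rw [this]
    exact le_sup_right

/-- the union of the `KK m k` -/
def KR {G : Type} [Group G] (Γ E : ℕ → Subgroup G) (m : ℕ) : Subgroup G := ⨆ k, KK Γ E m k

theorem mem_KR {G : Type} [Group G] {Γ E : ℕ → Subgroup G} {m : ℕ} {x : G} :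
    x ∈ KR Γ E m ↔ ∃ k, x ∈ KK Γ E m k :=
  Subgroup.mem_iSup_of_directed (KK_mono Γ E m).directed_le

theorem FinS.kr_ne_top (h : FinS q β Γ E) (m : ℕ) : KR Γ E m ≠ ⊤ := by
  intro htop
  apply h.ne m
  intro x hx
  have h1 : x ∈ KR Γ E m := by rw [htop]; trivial
  obtain ⟨k, hk⟩ := mem_KR.1 h1
  exact h.kk_inter m k hk hx

/-- D1 -/
theorem FinS.d1 (h : FinS q β Γ E) {H : Subgroup G} (hH : IsCoatom H) {k : ℕ}
    (hE : ∀ j, k ≤ j → E j ≤ H) : ∀ m, ∃ j, m ≤ j ∧ ∃ g ∈ H, g ∈ Γ (j + 1) ∧ g ∉ Γ j ⊔ E j := by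
  by_contra hcon
  push Not at hcon
  obtain ⟨m1, hm1⟩ := hcon
  obtain ⟨m, hm, hkm⟩ : ∃ m, m1 ≤ m ∧ k ≤ m := ⟨max m1 k, le_max_left _ _, le_max_right _ _⟩
  have key : ∀ n, ∀ x ∈ H, x ∈ Γ (m + n) → x ∈ KK Γ E m n := by
    intro n
    induction n with
    | zero => intro x _ hx; exact hx
    | succ n ih =>
      intro x hx hxΓ
      have h1 := hm1 (m + n) (by omega) x hx hxΓ
      obtain ⟨y, hy, e, he, rfl⟩ := mem_sup_comm
        (fun a ha b hb => h.comm (m + n) b hb a ha) h1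
      have h2 : y ∈ H := (H.mul_mem_cancel_right (hE (m + n) (by omega) he)).1 hx
      exact (KK Γ E m (n + 1)).mul_mem (le_sup_left (a := KK Γ E m n) (ih y h2 hy))
        (le_sup_right (a := KK Γ E m n) he)
  have hle : H ≤ KR Γ E (m + 1) := by
    intro x hx
    obtain ⟨n, hn⟩ := h.ex x
    have h1 : x ∈ Γ (m + (n + 1)) := h.mono (by omega) hn
    exact mem_KR.2 ⟨n, h.kk_succ m n (key (n + 1) x hx h1)⟩
  rcases lt_or_eq_of_le hle with hlt | heq
  · exact h.kr_ne_top (m + 1) (hH.2 _ hlt)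
  · apply h.ne m
    intro x hx
    have h1 : x ∈ H := by
      rw [heq]
      exact mem_KR.2 ⟨0, hx⟩
    exact hm1 m hm x h1 hx

/-- D2 -/
theorem FinS.d2 (_h : FinS q β Γ E) {H : Subgroup G} (hH : IsCoatom H)
    (π : G →* Multiplicative ℚ) (_hB : ∀ b ∈ Bb β, π b = 1) (hπ : ∀ t, π (q t) = t) :
    ∀ t, ∃ x ∈ H, π x = t := by
  intro t
  by_contra hcon
  push Not at hcon
  have hlt : ¬ π.ker ≤ H := by
    intro hle
    have _ : π.ker.Normal := inferInstance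
    refine no_coatom_of_div (N := π.ker) ?_ ?_ hH hle
    · intro x y
      rw [MonoidHom.mem_ker]
      simp [mul_comm (π x)]
    · intro x n hn
      refine ⟨q (Multiplicative.ofAdd ((π x).toAdd / n)), ?_⟩
      rw [MonoidHom.mem_ker, map_mul, map_inv, map_pow, hπ, inv_mul_eq_one]
      apply Multiplicative.toAdd.injective
      rw [toAdd_pow, toAdd_ofAdd, nsmul_eq_mul]
      field_simp
  have hlt2 : H < H ⊔ π.ker := by
    refine lt_of_le_of_ne le_sup_left fun h => hlt ?_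
    rw [h]
    exact le_sup_right
  have htop := hH.2 _ hlt2
  have h1 : q t ∈ H ⊔ π.ker := by rw [htop]; trivial
  rw [Subgroup.mem_sup_of_normal_right] at h1
  obtain ⟨y, hy, z, hz, hyz⟩ := h1
  apply hcon y hy
  rw [MonoidHom.mem_ker] at hz
  rw [← hπ t, ← hyz, map_mul, hz, mul_one]

/-- D3 -/
theorem FinS.d3 (h : FinS q β Γ E) {H : Subgroup G} (hH : IsCoatom H) :
    ∃ u y : G, y ∈ H ∧ CycRed q β (u⁻¹ * y * u) := by
  obtain ⟨π, hB, hπ⟩ := h.qs.exists_pi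
  obtain ⟨y, hy, hy'⟩ := h.d2 hH π hB hπ (Multiplicative.ofAdd (1 : ℚ))
  obtain ⟨u, hu | ⟨c, hc, t, ht, hu⟩ | hu⟩ := h.qs.cyc y
  · exfalso
    have h1 := hB _ hu
    have h2 : π (u⁻¹ * y * u) = π y := by
      rw [map_mul, map_mul, map_inv, mul_comm (π u)⁻¹, mul_assoc, inv_mul_cancel, mul_one]
    rw [h2, hy'] at h1
    have h3 : (1 : ℚ) = 0 := congrArg Multiplicative.toAdd h1
    exact one_ne_zero h3
  · have hH' := cjH_coatom u hH
    have h1 : c * q t ∈ cjH u H := by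
      rw [mem_cjH, ← hu]
      simpa [mul_assoc] using hy
    by_cases hle : cjH u H ≤ β 0 ⊔ q.range
    · exfalso
      have hne1 : β 1 ⊔ q.range ≠ ⊤ := by
        intro htop
        obtain ⟨b, hb, hb'⟩ := h.lev 1
        exact hb' (h.qs.lev_inter 1 (by rw [htop]; trivial) (β_le_Bb β _ hb))
      have hle2 : cjH u H ≤ β 1 ⊔ q.range :=
        hle.trans (sup_le_sup_right (h.qs.mono (Nat.zero_le 1)) _)
      rcases lt_or_eq_of_le hle2 with hlt | heq
      · exact hne1 (hH'.2 _ hlt)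
      · obtain ⟨b, hb, hb'⟩ := h.lev 0
        apply hb'
        refine h.qs.lev_inter 0 (hle ?_) (β_le_Bb β _ hb)
        rw [heq]
        exact Subgroup.mem_sup_left hb
    · obtain ⟨v, hv, hv'⟩ := SetLike.not_le_iff_exists.1 hle
      obtain ⟨w, hw⟩ := h.qs.hyp hc ht hv'
      refine ⟨u * w, u * (c * q t * (v * (c * q t) * v⁻¹)) * u⁻¹, ?_, ?_⟩
      · exact (cjH u H).mul_mem h1
          ((cjH u H).mul_mem ((cjH u H).mul_mem hv h1) ((cjH u H).inv_mem hv))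
      · have e : (u * w)⁻¹ * (u * (c * q t * (v * (c * q t) * v⁻¹)) * u⁻¹) * (u * w)
            = w⁻¹ * (c * q t * (v * (c * q t) * v⁻¹)) * w := by group
        rw [e]
        exact hw
  · exact ⟨u, y, hy, hu⟩

theorem Nice.mul_left (hq : QS q β) {Γ : Subgroup G} {g b0 : G} (hg : Nice q β Γ g)
    (hb : b0 ∈ Γ) (hbB : b0 ∈ Bb β) : Nice q β Γ (b0 * g) := by
  constructor
  · have := hq.ra.rlen_mul_left hbB g
    show 1 ≤ rlen _ _ _ _
    rw [this]
    exact hg.1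
  · intro a ha b hb'
    have e : a * (b0 * g) * b = (a * b0) * g * b := by group
    rw [e, hg.2 (a * b0) (Γ.mul_mem ha hb) b hb']
    have h1 : ql q β (a * b0) = ql q β a := hq.ra.rlen_mul_right hbB a
    have h2 : ql q β (b0 * g) = ql q β g := hq.ra.rlen_mul_left hbB g
    rw [h1, h2]

/-- D4 -/
theorem FinS.d4 (h : FinS q β Γ E) {H : Subgroup G} (hH : IsCoatom H) {k : ℕ}
    (hE : ∀ j, k ≤ j → E j ≤ H) {y : G} (hy : y ∈ H) (hyc : CycRed q β y) : β 0 ≤ H := by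
  intro c hc
  obtain ⟨n1, hn1⟩ := h.ex y
  obtain ⟨n2, hn2⟩ := h.ex c
  obtain ⟨j, hj, g, hgH, hgΓ, hgN⟩ := h.d1 hH hE (n1 + n2 + k + 1)
  have hyj : y ∈ Γ j := h.mono (by omega) hn1
  have hcj : c ∈ Γ j := h.mono (by omega) hn2
  obtain ⟨M, a, b, g', ha, hb, hg', hnice, hgM⟩ := h.mex j g hgΓ hgN y hyj hyc
  have hQ : q.range ≤ Γ j := h.QΓ.trans (h.mono (Nat.zero_le j))
  have hz0 : a⁻¹ * y * a ∈ Γ j := (Γ j).mul_mem ((Γ j).mul_mem ((Γ j).inv_mem ha) hyj) ha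
  obtain ⟨x0, hx0, l, hl, hlΓ, e0⟩ := h.qs.ra.formIn hQ (h.gen j) hz0
  have hlne : l ≠ [] := by
    intro hnil
    apply hyc.conj h.qs a
    rw [e0, hnil]
    simpa [wp] using hx0.2
  set s : G := a * x0 with hs
  set g2 : G := x0⁻¹ * g' with hg2
  have hsj : s ∈ Γ j := (Γ j).mul_mem ha hx0.1
  have hsys : s⁻¹ * y * s = wp l * x0 := by
    have : s⁻¹ * y * s = x0⁻¹ * (a⁻¹ * y * a) * x0 := by rw [hs]; group
    rw [this, e0]; group
  have hz : StartsQ q β (s⁻¹ * y * s) := by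
    obtain ⟨h1, h2⟩ := hl.snoc h.qs.ra.le hlne hx0.2
    exact ⟨_, h1, by simp, by rw [hsys, h2]⟩
  have hzj : s⁻¹ * y * s ∈ Γ j := (Γ j).mul_mem ((Γ j).mul_mem ((Γ j).inv_mem hsj) hyj) hsj
  have hnice2 : Nice q β (Γ j) g2 :=
    hnice.mul_left h.qs ((Γ j).inv_mem hx0.1) ((Bb β).inv_mem hx0.2)
  have hg2Γ : g2 ∈ Γ (j + 1) := (Γ (j + 1)).mul_mem
    ((Γ (j + 1)).inv_mem (h.mono (by omega) hx0.1)) hg'
  have hkj : k ≤ j := by omega
  -- `β 0 ⊓ Γ j` is contained in the conjugate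
  have claim : ∀ c ∈ Γ j, c ∈ β 0 → c ∈ cjH s H := by
    intro c hcj hc0
    have h1 := (h.vv j g2 hg2Γ hnice2 (b * s) ((Γ j).mul_mem hb hsj) _ hzj hz c hcj hc0).1
    have hle : Subgroup.closure ({g2 * (b * s), s⁻¹ * y * s} ∪ (E j : Set G)) ≤ cjH s H := by
      rw [Subgroup.closure_le]
      rintro x ((hx | hx) | hx)
      · rw [hx]
        show s * (g2 * (b * s)) * s⁻¹ ∈ H
        have e : s * (g2 * (b * s)) * s⁻¹ = g * y ^ M * g⁻¹ := by
          rw [hgM, hs, hg2]; group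
        rw [e]
        exact H.mul_mem (H.mul_mem hgH (H.pow_mem hy M)) (H.inv_mem hgH)
      · rw [Set.mem_singleton_iff] at hx
        rw [hx]
        show s * (s⁻¹ * y * s) * s⁻¹ ∈ H
        have e : s * (s⁻¹ * y * s) * s⁻¹ = y := by group
        rw [e]
        exact hy
      · show s * x * s⁻¹ ∈ H
        rw [← h.comm j x hx s hsj]
        have := hE j hkj hx
        simpa using this
    exact hle h1
  obtain ⟨n, m, hsh⟩ := hyc.insert h.qs s
  have hsh := hsh c hc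
  obtain ⟨i, rfl⟩ : ∃ i, j = i + 1 := ⟨j - 1, by omega⟩
  have m1 : s⁻¹ * (y ^ n * y ^ m) * s ∈ Γ (i + 1) :=
    (Γ _).mul_mem ((Γ _).mul_mem ((Γ _).inv_mem hsj)
      ((Γ _).mul_mem ((Γ _).pow_mem hyj _) ((Γ _).pow_mem hyj _))) hsj
  have m2 : s⁻¹ * (y ^ n * c * y ^ m) * s ∈ Γ (i + 1) :=
    (Γ _).mul_mem ((Γ _).mul_mem ((Γ _).inv_mem hsj)
      ((Γ _).mul_mem ((Γ _).mul_mem ((Γ _).pow_mem hyj _) hcj) ((Γ _).pow_mem hyj _))) hsj
  obtain ⟨c1, hc1, c2, hc2, e⟩ := h.fst i _ m1 _ m2 hsh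
  have h1 := claim c1 hc1.2 hc1.1
  have h2 := claim c2 hc2.2 hc2.1
  have h3 : s⁻¹ * (y ^ n * c * y ^ m) * s ∈ cjH s H := by
    rw [e]
    refine (cjH s H).mul_mem ((cjH s H).mul_mem h1 ?_) h2
    rw [mem_cjH]
    have e2 : s * (s⁻¹ * (y ^ n * y ^ m) * s) * s⁻¹ = y ^ n * y ^ m := by group
    rw [e2]
    exact H.mul_mem (H.pow_mem hy _) (H.pow_mem hy _)
  rw [mem_cjH] at h3
  have e3 : s * (s⁻¹ * (y ^ n * c * y ^ m) * s) * s⁻¹ = y ^ n * c * y ^ m := by group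
  rw [e3] at h3
  exact (H.mul_mem_cancel_left (H.pow_mem hy n)).1
    ((H.mul_mem_cancel_right (H.pow_mem hy m)).1 h3)

/-- subgroups containing `β 0` are closed under `Sh` -/
theorem FinS.closed (h : FinS q β Γ E) {H : Subgroup G} (hC : β 0 ≤ H) :
    ∀ x ∈ H, ∀ x', Sh q β x x' → x' ∈ H := by
  intro x hx x' hsh
  obtain ⟨n1, hn1⟩ := h.ex x
  obtain ⟨n2, hn2⟩ := h.ex x'
  obtain ⟨c, hc, c', hc', e⟩ := h.fst (n1 + n2) x (h.mono (by omega) hn1) x'
    (h.mono (by omega) hn2) hsh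
  rw [e]
  exact H.mul_mem (H.mul_mem (hC hc.1) hx) (hC hc'.1)

/-- D5 -/
theorem FinS.d5 (h : FinS q β Γ E) {H : Subgroup G} (hH : IsCoatom H) (hC : β 0 ≤ H) : False := by
  obtain ⟨π, hB, hπ⟩ := h.qs.exists_pi
  obtain ⟨h1, h2, h3⟩ := sh_closed h.qs h.pd hC (h.closed hC)
  have hQ : q.range ≤ H := by
    rintro _ ⟨t, rfl⟩
    obtain ⟨x, hx, hx'⟩ := h.d2 hH π hB hπ t
    rw [← hx']
    exact h1 π hB hπ x hx
  have h3 := h3 hQ
  by_cases hl : ∃ l, ∀ b ∈ H, b ∈ Bb β → b ∈ β l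
  · obtain ⟨l, hl⟩ := hl
    have hle : H ≤ β l ⊔ q.range :=
      h3.trans (sup_le_sup_right (fun b hb => hl b hb.1 hb.2) _)
    have hle2 : H ≤ β (l + 1) ⊔ q.range :=
      hle.trans (sup_le_sup_right (h.qs.mono (Nat.le_succ l)) _)
    have hne1 : β (l + 1) ⊔ q.range ≠ ⊤ := by
      intro htop
      obtain ⟨b, hb, hb'⟩ := h.lev (l + 1)
      exact hb' (h.qs.lev_inter (l + 1) (by rw [htop]; trivial) (β_le_Bb β _ hb))
    rcases lt_or_eq_of_le hle2 with hlt | heq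
    · exact hne1 (hH.2 _ hlt)
    · obtain ⟨b, hb, hb'⟩ := h.lev l
      apply hb'
      refine h.qs.lev_inter l (hle ?_) (β_le_Bb β _ hb)
      rw [heq]
      exact Subgroup.mem_sup_left hb
  · push Not at hl
    apply hH.1
    rw [eq_top_iff, ← h.qs.ra.gen]
    refine sup_le (iSup_le fun l => ?_) hQ
    obtain ⟨b, hb, hbB, hbl⟩ := hl l
    exact (h.qs.mono (Nat.le_succ l)).trans (h2 b hb hbB l hbl)

/-- D6 -/
theorem FinS.d (h : FinS q β Γ E) {H : Subgroup G} (hH : IsCoatom H) {k : ℕ}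
    (hE : ∀ j, k ≤ j → E j ≤ H) : False := by
  obtain ⟨u, y, hy, hyc⟩ := h.d3 hH
  obtain ⟨n, hn⟩ := h.ex u
  have hH' := cjH_coatom u hH
  refine h.d5 hH' (h.d4 (k := k + n) hH' (fun j hj e he => ?_) (y := u⁻¹ * y * u) ?_ hyc)
  · rw [mem_cjH, ← h.comm j e he u (h.mono (by omega) hn)]
    have := hE j (by omega) he
    simpa using this
  · rw [mem_cjH]
    have e : u * (u⁻¹ * y * u) * u⁻¹ = y := by group
    rw [e]
    exact hy

/-- D7 -/
theorem FinS.normal (h : FinS q β Γ E) {N : Subgroup G} (hN : N.Normal) (hC : β 0 ≤ N) :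
    Bb β ≤ N := by
  obtain ⟨-, h2, -⟩ := sh_closed h.qs h.pd hC (h.closed hC)
  refine iSup_le fun l => ?_
  obtain ⟨b, hb, hb'⟩ := h.lev l
  obtain ⟨c, hc, hc'⟩ := h.pd l b (β_le_Bb β _ hb) hb'
  have h3 : b * c * b⁻¹ ∈ β (l + 1) := (β (l + 1)).mul_mem
    ((β (l + 1)).mul_mem hb (h.qs.mono (Nat.zero_le _) hc)) ((β (l + 1)).inv_mem hb)
  exact (h.qs.mono (Nat.le_succ l)).trans
    (h2 _ (hN.conj_mem c (hC hc) b) (β_le_Bb β _ h3) l hc')

/-- D8 -/
theorem FinS.nc (h : FinS q β Γ E) (k : ℕ) {c : G} (hc : c ∈ Γ k) (hcC : c ∈ β 0) :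
    c ∈ Subgroup.normalClosure (comms (E k) (Γ (k + 1))) := by
  obtain ⟨g, hg, hgN⟩ := SetLike.not_le_iff_exists.1 (h.ne k)
  obtain ⟨b, hbΓ, hbB, hb0⟩ := h.b0
  have ht : q (Multiplicative.ofAdd (1 : ℚ)) ∉ β 0 := by
    intro h1
    have h2 := h.qs.disj _ h1
    have h3 : (1 : ℚ) = 0 := congrArg Multiplicative.toAdd h2
    exact one_ne_zero h3
  have hQ : q (Multiplicative.ofAdd (1 : ℚ)) ∈ Γ k :=
    h.mono (Nat.zero_le k) (h.QΓ ⟨_, rfl⟩)
  have hrd : Rq q β [(q (Multiplicative.ofAdd (1 : ℚ)), b)] :=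
    ⟨⟨_, rfl⟩, ht, hbB, fun h => absurd rfl h, trivial⟩
  have hyc : CycRed q β (q (Multiplicative.ofAdd (1 : ℚ)) * b) := by
    refine ⟨[(q (Multiplicative.ofAdd (1 : ℚ)), b)], hrd, by simp, ?_, by simp [wp]⟩
    intro p hp
    rw [List.mem_singleton] at hp
    rw [hp]
    exact hb0
  have hyk : q (Multiplicative.ofAdd (1 : ℚ)) * b ∈ Γ k :=
    (Γ k).mul_mem hQ (h.mono (Nat.zero_le k) hbΓ)
  obtain ⟨M, a, b', g', -, -, hg', hnice, -⟩ := h.mex k g hg hgN _ hyk hyc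
  exact (h.vv k g' hg' hnice 1 (Γ k).one_mem _ hyk ⟨_, hrd, by simp, by simp [wp]⟩ c hc hcC).2

end fin

end Pool.Agent.Helper98.AAD
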