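import Mathlib

/-!
Definitions for the construction of an amalgamated free product without maximal subgroups
(problem MP_aade38_al).

`RA X Y L` : the group is the amalgam of `X` and `Y ⊔ L` over `Y`, where `L` normalises `Y`.
`QS q β`   : the group is the amalgam of `B = ⨆ β j` and `β 0 ⊔ q ℚ` over `β 0`.
-/

set_option autoImplicit false

namespace Pool.Agent.Helper98.AAD

section words

variable {G : Type} [Group G]

/-- the product `t₁ x₁ t₂ x₂ …` of a list of pairs -/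
def wp : List (G × G) → G
  | [] => 1
  | p :: l => p.1 * p.2 * wp l

/-- reduced lists: letters in `L` outside `Y`, followed by elements of `X`, only the last one of
which may lie in `Y` -/
def Rd (X Y L : Subgroup G) : List (G × G) → Prop
  | [] => True
  | p :: l => p.1 ∈ L ∧ p.1 ∉ Y ∧ p.2 ∈ X ∧ (l ≠ [] → p.2 ∉ Y) ∧ Rd X Y L l

/-- `G` is the amalgam of `X` and `Y ⊔ L` over `Y`, and `L` normalises `Y` -/
structure RA (X Y L : Subgroup G) : Prop where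
  le : Y ≤ X
  norm : ∀ t ∈ L, ∀ y ∈ Y, t * y * t⁻¹ ∈ Y
  inter : ∀ t ∈ L, t ∈ X → t ∈ Y
  gen : X ⊔ L = ⊤
  nf : ∀ x ∈ X, ∀ l : List (G × G), Rd X Y L l → l ≠ [] → x * wp l ∉ X

/-- number of letters of a reduced form of `x` -/
noncomputable def rlen (X Y L : Subgroup G) (x : G) : ℕ :=
  sInf {n | ∃ x0 ∈ X, ∃ l : List (G × G), Rd X Y L l ∧ l.length = n ∧ x = x0 * wp l}

/-- `Sim Y y l l'` : the lists agree up to shifts by elements of `Y`; implies `wp l = y * wp l'` -/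
inductive Sim (Y : Subgroup G) : G → List (G × G) → List (G × G) → Prop
  | nil : Sim Y 1 [] []
  | cons {y t x t' x' : G} {l l' : List (G × G)} : y ∈ Y → t⁻¹ * y * t' ∈ Y →
      Sim Y (x⁻¹ * (t⁻¹ * y * t') * x') l l' → Sim Y y ((t, x) :: l) ((t', x') :: l')

/-- universal property of the amalgam of `X` and `Y ⊔ L` over `Y` -/
def UP (X Y L : Subgroup G) : Prop :=
  ∀ (K : Type) [Group K] (f : X →* K) (g : L →* K),
    (∀ (z : G) (hX : z ∈ X) (hL : z ∈ L), f ⟨z, hX⟩ = g ⟨z, hL⟩) →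
    (∀ (t : L) (y : X), (y : G) ∈ Y → ∀ h : (t : G) * y * (t : G)⁻¹ ∈ X,
      f ⟨(t : G) * y * (t : G)⁻¹, h⟩ = g t * f y * (g t)⁻¹) →
    ∃ F : G →* K, (∀ x : X, F x = f x) ∧ ∀ t : L, F t = g t

end words

section qs

variable {G : Type} [Group G]

/-- the union `B` of the levels -/
def Bb (β : ℕ → Subgroup G) : Subgroup G := ⨆ j, β j

/-- the basic structure: levels `β 0 = C ≤ β 1 ≤ …` with union `B`, a copy of `ℚ` normalising `C`,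
and `G` is the amalgam of `B` and `C ⋊ ℚ` over `C` -/
structure QS (q : Multiplicative ℚ →* G) (β : ℕ → Subgroup G) : Prop where
  disj : ∀ t, q t ∈ β 0 → t = 1
  mono : Monotone β
  ra : RA (Bb β) (β 0) q.range

/-- number of `ℚ`-letters -/
noncomputable def ql (q : Multiplicative ℚ →* G) (β : ℕ → Subgroup G) (x : G) : ℕ :=
  rlen (Bb β) (β 0) q.range x

/-- reduced lists for a `QS` structure -/
abbrev Rq (q : Multiplicative ℚ →* G) (β : ℕ → Subgroup G) : List (G × G) → Prop :=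
  Rd (Bb β) (β 0) q.range

/-- same level -/
def SameLev (β : ℕ → Subgroup G) (b b' : G) : Prop := ∀ j, b ∈ β j ↔ b' ∈ β j

/-- same shape -/
def Sh (q : Multiplicative ℚ →* G) (β : ℕ → Subgroup G) (x x' : G) : Prop :=
  ∃ (b b' : G) (l l' : List (G × G)), b ∈ Bb β ∧ SameLev β b b' ∧ Rq q β l ∧
    List.Forall₂ (fun p p' => p.1 = p'.1 ∧ SameLev β p.2 p'.2) l l' ∧
    x = b * wp l ∧ x' = b' * wp l'

/-- cyclically reduced hyperbolic elements -/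
def CycRed (q : Multiplicative ℚ →* G) (β : ℕ → Subgroup G) (y : G) : Prop :=
  ∃ l : List (G × G), Rq q β l ∧ l ≠ [] ∧ (∀ p ∈ l, p.2 ∉ β 0) ∧ y = wp l

/-- elements with a reduced form starting with a `ℚ`-letter -/
def StartsQ (q : Multiplicative ℚ →* G) (β : ℕ → Subgroup G) (z : G) : Prop :=
  ∃ l : List (G × G), Rq q β l ∧ l ≠ [] ∧ z = wp l

/-- `g` has positive length and is of minimal length in `Γ g Γ` -/
def Nice (q : Multiplicative ℚ →* G) (β : ℕ → Subgroup G) (Γ : Subgroup G) (g : G) : Prop :=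
  1 ≤ ql q β g ∧ ∀ a ∈ Γ, ∀ b ∈ Γ, ql q β (a * g * b) = ql q β a + ql q β g + ql q β b

/-- left nice -/
def LN (q : Multiplicative ℚ →* G) (β : ℕ → Subgroup G) (Γ : Subgroup G) (g : G) : Prop :=
  ∀ a ∈ Γ, ql q β (a * g) = ql q β a + ql q β g

/-- the states of the construction: `Γ` is the old group, `E` the new central part -/
structure IsSt (q : Multiplicative ℚ →* G) (β : ℕ → Subgroup G) (Γ E : Subgroup G) : Prop where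
  qs : QS q β
  QΓ : q.range ≤ Γ
  gen : Γ ≤ (Γ ⊓ Bb β) ⊔ q.range
  EC : E ≤ β 0
  comm : ∀ e ∈ E, ∀ g ∈ Γ, e * g = g * e
  ab : ∀ e ∈ E, ∀ e' ∈ E, e * e' = e' * e
  dis : ∀ e ∈ E, e ∈ Γ → e = 1
  mal : ∀ n ∈ Γ ⊔ E, n ≠ 1 → ∀ h, h⁻¹ * n * h ∈ Γ ⊔ E → h ∈ Γ ⊔ E
  bd : ∃ K : ℕ, ∀ b ∈ Bb β, b ∉ Γ ⊔ E → ∀ μ ∈ Γ, (∃ γ ∈ Γ, γ⁻¹ * b * μ ∈ Bb β) → ql q β μ ≤ K

/-- divisibility of a subgroup -/
def Dv (E : Subgroup G) : Prop := ∀ e ∈ E, ∀ n : ℕ, n ≠ 0 → ∃ e' ∈ E, e' ^ n = e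

end qs

section emb

variable {G G' : Type} [Group G] [Group G']

/-- embeddings of the basic structures -/
structure QEmb (f : G →* G') (q : Multiplicative ℚ →* G) (β : ℕ → Subgroup G)
    (q' : Multiplicative ℚ →* G') (β' : ℕ → Subgroup G') : Prop where
  inj : Function.Injective f
  hq : ∀ t, f (q t) = q' t
  hβ : ∀ j x, f x ∈ β' j ↔ x ∈ β j

/-- embeddings of states -/
structure SEmb (f : G →* G') (q : Multiplicative ℚ →* G) (β : ℕ → Subgroup G) (Γ E : Subgroup G)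
    (q' : Multiplicative ℚ →* G') (β' : ℕ → Subgroup G') (Γ' E' : Subgroup G') : Prop where
  emb : QEmb f q β q' β'
  hΓ : Γ' = Γ.map f
  hE : ∀ x ∈ E, f x ∈ E'
  hN : ∀ x, f x ∈ Γ' ⊔ E' → x ∈ Γ ⊔ E

end emb

section fam

variable {G : Type} [Group G]

/-- one step in a family of pairs -/
def FStep (q : Multiplicative ℚ →* G) (β : ℕ → Subgroup G) (A : Set (G × G)) (h k : G × G) : Prop :=
  h ∈ A ∧ k ∈ A ∧ ((∃ t, k = (h.1 * q t, h.2 * q t)) ∨ (h.1⁻¹ * k.1 ∈ Bb β ∧ h.2⁻¹ * k.2 ∈ Bb β))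

/-- the data of a new letter `t` with `t p t⁻¹ = φ p` and `h'⁻¹ t h` in the new `C` -/
structure Fam (q : Multiplicative ℚ →* G) (β : ℕ → Subgroup G) (P P' : Subgroup G) (φ : P ≃* P')
    (A : Set (G × G)) : Prop where
  one : ((1 : G), (1 : G)) ∈ A
  satQ : ∀ h ∈ A, ∀ t, (h.1 * q t, h.2 * q t) ∈ A
  satP : ∀ h ∈ A, ∀ p : P, ((p : G) * h.1, (φ p : G) * h.2) ∈ A
  reach : ∀ h ∈ A, Relation.ReflTransGen (FStep q β A) (1, 1) h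
  w : ∀ j, ∀ h ∈ A, ∀ k ∈ A, (h.1⁻¹ * k.1 ∈ β j ↔ h.2⁻¹ * k.2 ∈ β j)

/-- new levels for an HNN letter -/
def bN {G' : Type} [Group G'] (i : G →* G') (t : G') (A : Set (G × G)) (β : ℕ → Subgroup G) :
    ℕ → Subgroup G' :=
  fun j => (β j).map i ⊔ Subgroup.closure {y | ∃ h ∈ A, y = (i h.2)⁻¹ * t * i h.1}

end fam

section out

variable {G : Type} [Group G]

/-- all commutators `[e,x]`, `e ∈ E`, `x ∈ M` -/
def comms (E M : Subgroup G) : Set G := {x | ∃ e ∈ E, ∃ y ∈ M, x = e * y * e⁻¹ * y⁻¹}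

/-- the result of one stage: `Γ` is (the image of) the old group, `G` the new one -/
structure StageOut (q : Multiplicative ℚ →* G) (β : ℕ → Subgroup G) (Γ E : Subgroup G) : Prop where
  qs : QS q β
  QΓ : q.range ≤ Γ
  gen : Γ ≤ (Γ ⊓ Bb β) ⊔ q.range
  EC : E ≤ β 0
  comm : ∀ e ∈ E, ∀ g ∈ Γ, e * g = g * e
  ab : ∀ e ∈ E, ∀ e' ∈ E, e * e' = e' * e
  div : Dv E
  dis : ∀ e ∈ E, e ∈ Γ → e = 1
  ne : Γ ⊔ E ≠ ⊤
  fst : ∀ x x', Sh q β x x' → ∃ c ∈ β 0, ∃ c' ∈ β 0, x' = c * x * c'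
  pd : ∀ l : ℕ, ∀ b ∈ Bb β, b ∉ β l → ∃ c ∈ β 0, b * c * b⁻¹ ∉ β l
  mex : ∀ g, g ∉ Γ ⊔ E → ∀ y ∈ Γ, CycRed q β y →
    ∃ (M : ℕ) (a b g' : G), a ∈ Γ ∧ b ∈ Γ ∧ Nice q β Γ g' ∧ g * y ^ M * g⁻¹ = a * g' * b
  vv : ∀ g, Nice q β Γ g → ∀ a ∈ Γ, ∀ z ∈ Γ, StartsQ q β z → ∀ c ∈ Γ, c ∈ β 0 →
    c ∈ Subgroup.closure ({g * a, z} ∪ (E : Set G)) ∧ c ∈ Subgroup.normalClosure (comms E ⊤)

/-- the final interface: the countable amalgam `G` with its filtration -/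
structure FinS (q : Multiplicative ℚ →* G) (β : ℕ → Subgroup G) (Γ E : ℕ → Subgroup G) : Prop where
  qs : QS q β
  mono : Monotone Γ
  ex : ∀ g, ∃ k, g ∈ Γ k
  QΓ : q.range ≤ Γ 0
  gen : ∀ k, Γ k ≤ (Γ k ⊓ Bb β) ⊔ q.range
  b0 : ∃ b ∈ Γ 0, b ∈ Bb β ∧ b ∉ β 0
  EΓ : ∀ k, E k ≤ Γ (k + 1)
  EC : ∀ k, E k ≤ β 0
  comm : ∀ k, ∀ e ∈ E k, ∀ g ∈ Γ k, e * g = g * e
  ab : ∀ k, ∀ e ∈ E k, ∀ e' ∈ E k, e * e' = e' * e
  div : ∀ k, Dv (E k)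
  dis : ∀ k, ∀ e ∈ E k, e ∈ Γ k → e = 1
  ne : ∀ k, ¬ Γ (k + 1) ≤ Γ k ⊔ E k
  fst : ∀ k, ∀ x ∈ Γ (k + 1), ∀ x' ∈ Γ (k + 1), Sh q β x x' →
    ∃ c ∈ β 0 ⊓ Γ (k + 1), ∃ c' ∈ β 0 ⊓ Γ (k + 1), x' = c * x * c'
  pd : ∀ l : ℕ, ∀ b ∈ Bb β, b ∉ β l → ∃ c ∈ β 0, b * c * b⁻¹ ∉ β l
  lev : ∀ l : ℕ, ∃ b ∈ β (l + 1), b ∉ β l
  mex : ∀ k, ∀ g ∈ Γ (k + 1), g ∉ Γ k ⊔ E k → ∀ y ∈ Γ k, CycRed q β y →
    ∃ (M : ℕ) (a b g' : G), a ∈ Γ k ∧ b ∈ Γ k ∧ g' ∈ Γ (k + 1) ∧ Nice q β (Γ k) g' ∧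
      g * y ^ M * g⁻¹ = a * g' * b
  vv : ∀ k, ∀ g ∈ Γ (k + 1), Nice q β (Γ k) g → ∀ a ∈ Γ k, ∀ z ∈ Γ k, StartsQ q β z →
    ∀ c ∈ Γ k, c ∈ β 0 → c ∈ Subgroup.closure ({g * a, z} ∪ (E k : Set G)) ∧
      c ∈ Subgroup.normalClosure (comms (E k) (Γ (k + 1)))

end out

end Pool.Agent.Helper98.AAD
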