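import Pool.Agent.Helper98.AAD.Defs

/-!
Definitions for the main step of the construction (problem MP_aade38_al): the context `VC`
(the group after adding a central letter `e`), and the bundled states.
-/

set_option autoImplicit false

namespace Pool.Agent.Helper98.AAD

section vc

variable {G : Type} [Group G]

/-- the context of the main step: `M` is the previous group, `Γ ⊔ E` its subgroup `N`,
`F ≥ E` the enlarged central part, `G` the amalgam of `M` and `Γ ⊔ F` over `N`;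
`g = r * wp lg` is a nice element of `M`, `e ∈ F` has no power in `N` -/
structure VC (q : Multiplicative ℚ →* G) (β : ℕ → Subgroup G) (Γ E F M : Subgroup G) (e r : G)
    (lg : List (G × G)) : Prop where
  st : IsSt q β Γ F
  EF : E ≤ F
  ra : RA M (Γ ⊔ E) F
  Mgen : M ≤ (M ⊓ Bb β) ⊔ q.range
  βM : ∀ j, β j ≤ (β j ⊓ M) ⊔ F
  eF : e ∈ F
  Fe : F ≤ E ⊔ Subgroup.zpowers e
  epow : ∀ k : ℤ, k ≠ 0 → e ^ k ∉ Γ ⊔ E
  rB : r ∈ Bb β
  rM : r ∈ M
  lgR : Rq q β lg
  lgM : ∀ p ∈ lg, p.1 ∈ M ∧ p.2 ∈ M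
  lgne : lg ≠ []
  nice : Nice q β Γ (r * wp lg)

/-- the nice element -/
def gV (r : G) (lg : List (G × G)) : G := r * wp lg

/-- its conjugate of `e` -/
def fV (e r : G) (lg : List (G × G)) : G := gV r lg * e * (gV r lg)⁻¹

/-- the subgroup generated by `X` and `x` -/
def PV (X : Subgroup G) (x : G) : Subgroup G := X ⊔ Subgroup.zpowers x

/-- beginnings of the word `r * wp lg`, up to right multiplication by `q` -/
def PreG (q : Multiplicative ℚ →* G) (r : G) (lg : List (G × G)) : Set G :=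
  {x | (∃ t, x = q t) ∨ ∃ (i : ℕ) (t : Multiplicative ℚ), x = r * wp (lg.take i) * q t}

/-- beginnings of the word `wp lz`, up to right multiplication by `q` -/
def PreZ (q : Multiplicative ℚ →* G) (lz : List (G × G)) : Set G :=
  {x | ∃ (i : ℕ) (t : Multiplicative ℚ), x = wp (lz.take i) * q t}

/-- the pairs of the main step, up to the action of `P` -/
def AV (q : Multiplicative ℚ →* G) (e r : G) (lg lz : List (G × G)) (c : G) : Set (G × G) :=
  {h | (∃ ρ ∈ PreG q r lg, h = (ρ, ρ) ∨ h = (fV e r lg * ρ, fV e r lg * ρ) ∨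
        h = ((fV e r lg)⁻¹ * ρ, (fV e r lg)⁻¹ * ρ)) ∨
      ∃ ζ ∈ PreZ q lz, h = (fV e r lg * ζ, fV e r lg * (c * ζ))}

/-- the saturated family of the main step -/
def FV {P P' : Subgroup G} (φ : P ≃* P') (A : Set (G × G)) : Set (G × G) :=
  {h | ∃ p : P, ∃ a ∈ A, h = ((p : G) * a.1, (φ p : G) * a.2)}

/-- first components of `AV` and more -/
def AS (q : Multiplicative ℚ →* G) (β : ℕ → Subgroup G) (Γ : Subgroup G) (e r : G)
    (lg : List (G × G)) (R : ℕ) : Set G :=
  {a | (∃ ρ ∈ PreG q r lg, a = ρ ∨ a = fV e r lg * ρ ∨ a = (fV e r lg)⁻¹ * ρ) ∨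
      ∃ α ∈ Γ, ql q β α ≤ R ∧ a = fV e r lg * α}

end vc

/-- bundled states -/
structure St where
  G : Type
  [grp : Group G]
  [cnt : Countable G]
  q : Multiplicative ℚ →* G
  β : ℕ → Subgroup G
  Γ : Subgroup G
  E : Subgroup G
  is : IsSt q β Γ E
  dv : Dv E

attribute [instance] St.grp St.cnt

/-- embeddings of bundled states -/
structure SHom (s t : St) where
  f : s.G →* t.G
  emb : SEmb f s.q s.β s.Γ s.E t.q t.β t.Γ t.E

/-- what one step achieves for the task `l` -/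
def Post (s t : St) (f : s.G →* t.G) : List s.G → Prop
  | [] => ∃ x, x ∉ t.Γ ⊔ t.E
  | [b] => ∀ j, b ∈ Bb s.β → b ∉ s.β j → ∃ c ∈ t.β 0, f b * c * (f b)⁻¹ ∉ t.β j
  | [x, x'] => Sh s.q s.β x x' → ∃ c ∈ t.β 0, ∃ c' ∈ t.β 0, f x' = c * f x * c'
  | [g, a, z, c] => Nice s.q s.β s.Γ g → a ∈ s.Γ → z ∈ s.Γ → StartsQ s.q s.β z → c ∈ s.Γ →
      c ∈ s.β 0 → f c ∈ Subgroup.closure ({f (g * a), f z} ∪ (t.E : Set t.G)) ∧
        f c ∈ Subgroup.normalClosure (comms t.E ⊤)
  | _ => True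

section hnnwords

variable {G : Type} [Group G]

/-- E2a : letters of new words -/
noncomputable def sw {G' : Type} [Group G'] (i : G →* G') (t : G') (u : ℤˣ) (h : G × G) : G' :=
  if u = 1 then (i h.2)⁻¹ * t * i h.1 else (i h.1)⁻¹ * t⁻¹ * i h.2

/-- E2b : products of new words -/
noncomputable def AW {G' : Type} [Group G'] (i : G →* G') (t : G') :
    List (ℤˣ × (G × G) × G) → G'
  | [] => 1
  | p :: l => sw i t p.1 p.2.1 * i p.2.2 * AW i t l

/-- E2c : no pinches -/
def RedA (P P' : Subgroup G) (l : List (ℤˣ × (G × G) × G)) : Prop :=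
  l.IsChain (fun a b => b.1 = -a.1 →
    (a.1 = 1 → a.2.1.1 * a.2.2 * b.2.1.1⁻¹ ∉ P) ∧ (a.1 = -1 → a.2.1.2 * a.2.2 * b.2.1.2⁻¹ ∉ P'))

end hnnwords

/-- pushing tasks along a sequence of states -/
inductive Push {s : ℕ → St} (f : ∀ n, SHom (s n) (s (n + 1))) :
    ∀ n m : ℕ, List (s n).G → List (s m).G → Prop
  | refl (n : ℕ) (l : List (s n).G) : Push f n n l l
  | succ (n m : ℕ) (l : List (s n).G) (l' : List (s m).G) : Push f n m l l' →
      Push f n (m + 1) l (l'.map (f m).f)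

/-- partial products -/
def pr {G : Type} [Group G] {E : ℕ → Subgroup G} (ē : ∀ k, E k) : ℕ → G
  | 0 => 1
  | k + 1 => pr ē k * (ē k : G)

end Pool.Agent.Helper98.AAD
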