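import Pool.Agent.Helper98.AAD.DefsV

/-!
# Words in an HNN extension (module E2)

Reduced forms of the elements of the new levels, and Britton's lemma for them.
-/

set_option autoImplicit false

namespace Pool.Agent.Helper98.AAD

open HNNExtension

section e2aux

variable {G : Type} [Group G]

/-- the left factor of a letter (it occurs inverted) -/
def e2L (p : ℤˣ × (G × G) × G) : G := if p.1 = 1 then p.2.1.2 else p.2.1.1

/-- the right factor of a letter -/
def e2R (p : ℤˣ × (G × G) × G) : G := if p.1 = 1 then p.2.1.1 else p.2.1.2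

/-- the first factor in the base -/
def e2hd : List (ℤˣ × (G × G) × G) → G → G
  | [], g => g
  | p :: _, _ => (e2L p)⁻¹

/-- the word in `t` -/
def e2cv : List (ℤˣ × (G × G) × G) → G → List (ℤˣ × G)
  | [], _ => []
  | p :: l, g => (p.1, e2R p * p.2.2 * e2hd l g) :: e2cv l g

variable {P P' : Subgroup G} {φ : P ≃* P'}

/-- the product of a word in `t` -/
noncomputable def e2pr (φ : P ≃* P') (w : List (ℤˣ × G)) : HNNExtension G P P' φ :=
  (w.map (fun x => t ^ (x.1 : ℤ) * of x.2)).prod

theorem e2_neg_ne : (-1 : ℤˣ) ≠ 1 := by decide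

theorem e2_sw (φ : P ≃* P') (p : ℤˣ × (G × G) × G) :
    sw (of (φ := φ)) t p.1 p.2.1 = (of (e2L p))⁻¹ * t ^ (p.1 : ℤ) * of (e2R p) := by
  obtain ⟨u, h, x⟩ := p
  rcases Int.units_eq_one_or u with rfl | rfl
  · simp [sw, e2L, e2R]
  · simp [sw, e2L, e2R]

theorem e2_prod (φ : P ≃* P') (l : List (ℤˣ × (G × G) × G)) (g : G) :
    of (e2hd l g) * e2pr φ (e2cv l g) = AW of t l * of g := by
  induction l with
  | nil => simp [e2hd, e2pr, e2cv, AW]
  | cons p l ih =>
    have h : e2pr φ (e2cv (p :: l) g) =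
        t ^ (p.1 : ℤ) * of (e2R p * p.2.2 * e2hd l g) * e2pr φ (e2cv l g) := by
      simp [e2pr, e2cv]
    rw [h, AW, e2_sw, e2hd, map_inv, map_mul, map_mul]
    simp only [mul_assoc]
    rw [ih]

theorem e2_fst (l : List (ℤˣ × (G × G) × G)) (g : G) :
    (e2cv l g).map Prod.fst = l.map Prod.fst := by
  induction l with
  | nil => rfl
  | cons p l ih => simp [e2cv, ih]

theorem e2_chain : ∀ (l : List (ℤˣ × (G × G) × G)), RedA P P' l → ∀ g : G,
    (e2cv l g).IsChain (fun a b => a.2 ∈ toSubgroup P P' a.1 → a.1 = b.1) := by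
  intro l
  induction l with
  | nil => exact fun _ _ => List.isChain_nil
  | cons p l ih =>
    intro hl g
    cases l with
    | nil => exact List.isChain_singleton _
    | cons q l =>
      rw [RedA, List.isChain_cons_cons] at hl
      refine List.isChain_cons_cons.2 ⟨?_, ih hl.2 g⟩
      simp only [e2hd]
      intro hmem
      by_contra hne
      have h1 : q.1 = -p.1 := by
        rcases Int.units_eq_one_or p.1 with h | h <;> rcases Int.units_eq_one_or q.1 with h' | h' <;>
          simp_all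
      obtain ⟨h2, h3⟩ := hl.1 h1
      rcases Int.units_eq_one_or p.1 with h | h
      · apply h2 h
        have h4 : q.1 = -1 := by rw [h1, h]
        simpa [e2R, e2L, h, h4, e2_neg_ne] using hmem
      · apply h3 h
        have h4 : q.1 = 1 := by rw [h1, h, neg_neg]
        simpa [e2R, e2L, h, h4, e2_neg_ne] using hmem

/-- the reduced word -/
def e2rw {l : List (ℤˣ × (G × G) × G)} (hl : RedA P P' l) (x g : G) :
    NormalWord.ReducedWord G P P' :=
  { head := x * e2hd l g
    toList := e2cv l g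
    chain := e2_chain l hl g }

theorem e2rw_prod (φ : P ≃* P') {l : List (ℤˣ × (G × G) × G)} (hl : RedA P P' l) (x g : G) :
    (e2rw hl x g).prod φ = of x * AW of t l * of g := by
  rw [NormalWord.ReducedWord.prod, e2rw, mul_assoc, ← e2_prod, ← mul_assoc, ← map_mul]
  rfl

/-- the last letters of two reduced words for the same element -/
theorem e2_last (φ : P ≃* P') : ∀ (w w' : List (ℤˣ × G)),
    w.IsChain (fun a b => a.2 ∈ toSubgroup P P' a.1 → a.1 = b.1) →
    w'.IsChain (fun a b => a.2 ∈ toSubgroup P P' a.1 → a.1 = b.1) →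
    ∀ h h' : G, of h * e2pr φ w = of h' * e2pr φ w' → ∀ hne : w ≠ [],
      ∃ hne' : w' ≠ [], (w.getLast hne).1 = (w'.getLast hne').1 ∧
        (w.getLast hne).2 * (w'.getLast hne').2⁻¹ ∈ toSubgroup P P' (w.getLast hne).1 := by
  intro w
  induction w with
  | nil => exact fun _ _ _ _ _ _ hne => absurd rfl hne
  | cons a w ih =>
    intro w' hc hc' h h' e hne
    have key := ReducedWord.map_fst_eq_and_of_prod_eq φ
      (w₁ := { head := h, toList := a :: w, chain := hc })
      (w₂ := { head := h', toList := w', chain := hc' }) e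
    obtain ⟨k1, k2⟩ := key
    cases w' with
    | nil => simp at k1
    | cons b w' =>
      refine ⟨List.cons_ne_nil _ _, ?_⟩
      simp only [List.map_cons, List.cons.injEq] at k1
      obtain ⟨hab, hww⟩ := k1
      have k3 : h⁻¹ * h' ∈ toSubgroup P P' (-a.1) := k2 a.1 (by simp)
      -- `of (h⁻¹ h') * t ^ u = t ^ u * of b'`
      obtain ⟨b', hb', e1⟩ : ∃ b' ∈ toSubgroup P P' a.1,
          of (φ := φ) (h⁻¹ * h') * t ^ (a.1 : ℤ) = t ^ (a.1 : ℤ) * of b' := by
        rcases Int.units_eq_one_or a.1 with hu | hu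
        · rw [hu] at k3 ⊢
          refine ⟨φ.symm ⟨_, k3⟩, (φ.symm ⟨_, k3⟩).2, ?_⟩
          have := of_mul_t (φ := φ) ⟨_, k3⟩
          simpa using this
        · rw [hu, neg_neg] at k3
          rw [hu]
          refine ⟨φ ⟨_, k3⟩, (φ ⟨_, k3⟩).2, ?_⟩
          have := of_mul_inv_t (φ := φ) ⟨_, k3⟩
          simpa using this
      have e2 : of (φ := φ) a.2 * e2pr φ w = of (b' * b.2) * e2pr φ w' := by
        have e3 : of (φ := φ) h * (t ^ (a.1 : ℤ) * of a.2 * e2pr φ w) =
            of h' * (t ^ (a.1 : ℤ) * of b.2 * e2pr φ w') := by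
          have e4 : e2pr φ (a :: w) = t ^ (a.1 : ℤ) * of a.2 * e2pr φ w := by simp [e2pr]
          have e5 : e2pr φ (b :: w') = t ^ (a.1 : ℤ) * of b.2 * e2pr φ w' := by
            rw [hab]; simp [e2pr]
          rw [← e4, ← e5]
          exact e
        have e6 : t ^ (a.1 : ℤ) * (of (φ := φ) a.2 * e2pr φ w) =
            of (h⁻¹ * h') * t ^ (a.1 : ℤ) * (of b.2 * e2pr φ w') := by
          rw [map_mul, map_inv]
          rw [← mul_right_inj (of (φ := φ) h)]
          rw [← mul_assoc (t ^ (a.1 : ℤ)), e3]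
          group
        rw [e1, mul_assoc, mul_right_inj] at e6
        rw [e6, map_mul, mul_assoc]
      cases w with
      | nil =>
        have hw' : w' = [] := by
          cases w' with
          | nil => rfl
          | cons c w' => simp at hww
        subst hw'
        have e7 : a.2 = b' * b.2 := by
          apply of_injective φ
          simpa [e2pr] using e2
        refine ⟨hab, ?_⟩
        simp only [List.getLast_singleton]
        rw [e7, mul_inv_cancel_right]
        exact hb'
      | cons c w =>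
        obtain ⟨hne', h1, h2⟩ := ih w' (List.isChain_cons_cons.1 hc).2
          (List.IsChain.tail hc') a.2 (b' * b.2) e2 (List.cons_ne_nil _ _)
        rw [List.getLast_cons (List.cons_ne_nil _ _), List.getLast_cons hne']
        exact ⟨h1, h2⟩

theorem e2_getLast : ∀ (l : List (ℤˣ × (G × G) × G)) (g : G) (hne : l ≠ [])
    (hne' : e2cv l g ≠ []), (e2cv l g).getLast hne' =
      ((l.getLast hne).1, e2R (l.getLast hne) * (l.getLast hne).2.2 * g) := by
  intro l
  induction l with
  | nil => exact fun _ hne => absurd rfl hne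
  | cons p l ih =>
    intro g hne hne'
    cases l with
    | nil => rfl
    | cons q l =>
      rw [List.getLast_cons (List.cons_ne_nil _ _)]
      have h := ih g (List.cons_ne_nil _ _) (by simp [e2cv])
      rw [← h]
      rfl

end e2aux

section et

variable {G : Type} [Group G] {q : Multiplicative ℚ →* G} {β : ℕ → Subgroup G}
  {P P' : Subgroup G} {φ : P ≃* P'} {A : Set (G × G)}

/-- E2e : reduced forms and the HNN normal form -/
theorem AW.eq_reduced {l l' : List (ℤˣ × (G × G) × G)} (hl : RedA P P' l) (hl' : RedA P P' l')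
    {x y : G} (e : HNNExtension.of (φ := φ) x * AW HNNExtension.of HNNExtension.t l =
      HNNExtension.of y * AW HNNExtension.of HNNExtension.t l') :
    l.map Prod.fst = l'.map Prod.fst := by
  have h := (ReducedWord.map_fst_eq_and_of_prod_eq φ
    (w₁ := e2rw hl x 1) (w₂ := e2rw hl' y 1)
    (by rw [e2rw_prod, e2rw_prod, map_one, mul_one, mul_one, e])).1
  have h1 : (e2rw hl x 1).toList = e2cv l 1 := rfl
  have h2 : (e2rw hl' y 1).toList = e2cv l' 1 := rfl
  rwa [h1, h2, e2_fst, e2_fst] at h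

/-- E2f : a product of a reduced form, an element of `G` and the inverse of a reduced form, lying
in `G`: there is a pinch in the middle -/
theorem AW.pinch {l l' : List (ℤˣ × (G × G) × G)} (hl : RedA P P' l) (hl' : RedA P P' l')
    {x y g g' : G} (e : HNNExtension.of (φ := φ) x * AW HNNExtension.of HNNExtension.t l *
      HNNExtension.of g = HNNExtension.of g' *
      (HNNExtension.of y * AW HNNExtension.of HNNExtension.t l')) (hne : l ≠ []) :
    ∃ hne' : l' ≠ [], (l.getLast hne).1 = (l'.getLast hne').1 ∧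
      ((l.getLast hne).1 = 1 → (l.getLast hne).2.1.1 * (l.getLast hne).2.2 * g *
        ((l'.getLast hne').2.1.1 * (l'.getLast hne').2.2)⁻¹ ∈ P) ∧
      ((l.getLast hne).1 = -1 → (l.getLast hne).2.1.2 * (l.getLast hne).2.2 * g *
        ((l'.getLast hne').2.1.2 * (l'.getLast hne').2.2)⁻¹ ∈ P') := by
  have h1 : e2cv l g ≠ [] := by
    cases l with
    | nil => exact absurd rfl hne
    | cons p l => simp [e2cv]
  have e1 : of (x * e2hd l g) * e2pr φ (e2cv l g) =
      of (g' * y * e2hd l' 1) * e2pr φ (e2cv l' 1) := by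
    have e2 := e2rw_prod φ hl x g
    have e3 := e2rw_prod φ hl' (g' * y) 1
    rw [NormalWord.ReducedWord.prod] at e2 e3
    refine e2.trans (Eq.trans ?_ e3.symm)
    rw [e, map_mul, map_one, mul_one, mul_assoc]
  obtain ⟨h2, h3, h4⟩ := e2_last φ _ _ (e2_chain l hl g) (e2_chain l' hl' 1) _ _ e1 h1
  have hne' : l' ≠ [] := by
    rintro rfl
    exact h2 rfl
  rw [e2_getLast l g hne h1] at h3 h4
  rw [e2_getLast l' 1 hne' h2] at h3 h4
  refine ⟨hne', h3, ?_, ?_⟩
  · intro h5
    have h6 : (l'.getLast hne').1 = 1 := h3 ▸ h5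
    simpa [e2R, h5, h6] using h4
  · intro h5
    have h6 : (l'.getLast hne').1 = -1 := h3 ▸ h5
    simpa [e2R, h5, h6, e2_neg_ne] using h4

/-- E2d : reduced forms of elements of the new levels -/
theorem Fam.form (hA : Fam q β P P' φ A) {X : Subgroup G}
    (hX : (∃ j, X = β j) ∨ (Monotone β ∧ X = Bb β)) {y : HNNExtension G P P' φ}
    (hy : y ∈ X.map HNNExtension.of ⊔ Subgroup.closure
      {y | ∃ h ∈ A, y = (HNNExtension.of h.2)⁻¹ * HNNExtension.t * HNNExtension.of h.1}) :
    ∃ x0 ∈ X, ∃ l : List (ℤˣ × (G × G) × G), (∀ p ∈ l, p.2.1 ∈ A ∧ p.2.2 ∈ X) ∧ RedA P P' l ∧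
      y = HNNExtension.of x0 * AW HNNExtension.of HNNExtension.t l := by
  -- the correspondence for `X`
  have hw : ∀ h ∈ A, ∀ k ∈ A, (h.1⁻¹ * k.1 ∈ X ↔ h.2⁻¹ * k.2 ∈ X) := by
    intro h hh k hk
    rcases hX with ⟨j, rfl⟩ | ⟨hm, rfl⟩
    · exact hA.w j h hh k hk
    · have : ∀ x, x ∈ Bb β ↔ ∃ j, x ∈ β j := fun x =>
        Subgroup.mem_iSup_of_directed hm.directed_le
      rw [this, this]
      exact exists_congr fun j => hA.w j h hh k hk
  -- the predicate
  let R : HNNExtension G P P' φ → Prop := fun y =>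
    ∃ x0 ∈ X, ∃ l : List (ℤˣ × (G × G) × G), (∀ p ∈ l, p.2.1 ∈ A ∧ p.2.2 ∈ X) ∧ RedA P P' l ∧
      y = of x0 * AW of t l
  have hX' : ∀ z ∈ X, ∀ y, R y → R (of z * y) := by
    rintro z hz _ ⟨x0, hx0, l, hl, hr, rfl⟩
    exact ⟨z * x0, X.mul_mem hz hx0, l, hl, hr, by rw [map_mul, mul_assoc]⟩
  have hsw : ∀ (u : ℤˣ) (h : G × G), h ∈ A → ∀ y, R y → R (sw of t u h * y) := by
    rintro u h hh _ ⟨x0, hx0, l, hl, hr, rfl⟩
    cases l with
    | nil =>
      refine ⟨1, X.one_mem, [(u, h, x0)], ?_, List.isChain_singleton _, ?_⟩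
      · intro p hp
        rw [List.mem_singleton] at hp
        subst hp
        exact ⟨hh, hx0⟩
      · simp [AW]
    | cons k l =>
      obtain ⟨v, k, x1⟩ := k
      have hk := hl _ (List.mem_cons_self ..)
      have hl' : ∀ p ∈ l, p.2.1 ∈ A ∧ p.2.2 ∈ X := fun p hp => hl p (List.mem_cons_of_mem _ hp)
      have hr' : RedA P P' l := List.IsChain.tail hr
      simp only at hk
      by_cases hp : v = -u → (u = 1 → h.1 * x0 * k.1⁻¹ ∉ P) ∧ (u = -1 → h.2 * x0 * k.2⁻¹ ∉ P')
      · refine ⟨1, X.one_mem, (u, h, x0) :: (v, k, x1) :: l, ?_,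
          List.isChain_cons_cons.2 ⟨hp, hr⟩, ?_⟩
        · intro p hp
          rcases List.mem_cons.1 hp with rfl | hp
          · exact ⟨hh, hx0⟩
          · exact hl p hp
        · rw [map_one, one_mul]
          simp only [AW, mul_assoc]
      · rw [Classical.not_imp, not_and_or] at hp
        obtain ⟨huv, hp'⟩ := hp
        subst huv
        have hcase : (u = 1 ∧ h.1 * x0 * k.1⁻¹ ∈ P) ∨ (u = -1 ∧ h.2 * x0 * k.2⁻¹ ∈ P') := by
          rcases hp' with hp | hp
          · left; push Not at hp; exact hp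
          · right; push Not at hp; exact hp
        clear hp'
        rcases hcase with ⟨rfl, hp⟩ | ⟨rfl, hp⟩
        · -- `u = 1`
          have h1 := hA.satP k hk.1 ⟨_, hp⟩
          have e1 : (⟨h.1 * x0 * k.1⁻¹, hp⟩ : P) * k.1 = h.1 * x0 := by simp
          have h2 := (hw h hh _ h1).1 (by
            show h.1⁻¹ * ((⟨h.1 * x0 * k.1⁻¹, hp⟩ : P) * k.1) ∈ X
            rw [e1, inv_mul_cancel_left]
            exact hx0)
          refine ⟨h.2⁻¹ * ((φ ⟨h.1 * x0 * k.1⁻¹, hp⟩ : G) * k.2) * x1, X.mul_mem h2 hk.2, l, hl',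
            hr', ?_⟩
          simp only [AW, sw, e2_neg_ne, if_true, if_false, map_mul, map_inv]
          rw [equiv_eq_conj (φ := φ) ⟨h.1 * x0 * k.1⁻¹, hp⟩]
          simp only [map_mul, map_inv]
          group
        · -- `u = -1`
          have h1 := hA.satP k hk.1 (φ.symm ⟨_, hp⟩)
          have e1 : (φ (φ.symm ⟨h.2 * x0 * k.2⁻¹, hp⟩) : G) * k.2 = h.2 * x0 := by simp
          have h2 := (hw h hh _ h1).2 (by
            show h.2⁻¹ * ((φ (φ.symm ⟨h.2 * x0 * k.2⁻¹, hp⟩) : G) * k.2) ∈ X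
            rw [e1, inv_mul_cancel_left]
            exact hx0)
          refine ⟨h.1⁻¹ * ((φ.symm ⟨h.2 * x0 * k.2⁻¹, hp⟩ : G) * k.1) * x1, X.mul_mem h2 hk.2, l,
            hl', hr', ?_⟩
          simp only [AW, sw, e2_neg_ne, neg_neg, if_true, if_false, map_mul, map_inv]
          rw [equiv_symm_eq_conj (φ := φ) ⟨h.2 * x0 * k.2⁻¹, hp⟩]
          simp only [map_mul, map_inv]
          group
  -- all elements of the subgroup act
  have hall : ∀ z ∈ Subgroup.closure ((X.map (of (φ := φ)) : Set (HNNExtension G P P' φ)) ∪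
      {y | ∃ h ∈ A, y = (of h.2)⁻¹ * t * of h.1}),
      (∀ y, R y → R (z * y)) ∧ ∀ y, R y → R (z⁻¹ * y) := by
    intro z hz
    induction hz using Subgroup.closure_induction with
    | mem z hz =>
      rcases hz with ⟨x, hx, rfl⟩ | ⟨h, hh, rfl⟩
      · refine ⟨hX' x hx, ?_⟩
        rw [← map_inv]
        exact hX' _ (X.inv_mem hx)
      · have e1 : (of (φ := φ) h.2)⁻¹ * t * of h.1 = sw of t 1 h := by simp [sw]
        have e2 : ((of (φ := φ) h.2)⁻¹ * t * of h.1)⁻¹ = sw of t (-1) h := by
          simp [sw, mul_assoc]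
        refine ⟨?_, ?_⟩
        · rw [e1]; exact hsw 1 h hh
        · rw [e2]; exact hsw (-1) h hh
    | one => simp
    | mul z w _ _ ihz ihw =>
      refine ⟨fun x hx => ?_, fun x hx => ?_⟩
      · rw [mul_assoc]
        exact ihz.1 _ (ihw.1 _ hx)
      · rw [mul_inv_rev, mul_assoc]
        exact ihw.2 _ (ihz.2 _ hx)
    | inv z _ ih => exact ⟨ih.2, by rw [inv_inv]; exact ih.1⟩
  have hy' : y ∈ Subgroup.closure ((X.map (of (φ := φ)) : Set (HNNExtension G P P' φ)) ∪
      {y | ∃ h ∈ A, y = (of h.2)⁻¹ * t * of h.1}) := by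
    rw [Subgroup.closure_union, Subgroup.closure_eq]
    exact hy
  have h1 := (hall y hy').1 1 ⟨1, X.one_mem, [], by simp, List.isChain_nil, by simp [AW]⟩
  rw [mul_one] at h1
  exact h1

end et

end Pool.Agent.Helper98.AAD
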