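import Pool.Agent.Helper98.AAD.DefsV
import Pool.Agent.Helper98.AAD.R5
import Pool.Agent.Helper98.AAD.R6
import Pool.Agent.Helper98.AAD.Q1
import Pool.Agent.Helper98.AAD.E2

/-!
E1 : the new structure obtained by adding an HNN letter (problem MP_aade38_al).
-/

set_option autoImplicit false

namespace Pool.Agent.Helper98.AAD

section et

variable {G : Type} [Group G] {q : Multiplicative ℚ →* G} {β : ℕ → Subgroup G}
  {P P' : Subgroup G} {φ : P ≃* P'} {A : Set (G × G)}

/-- E2 : the new level meets the old group in the old level -/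
theorem Fam.comap (hA : Fam q β P P' φ A) (j : ℕ) (x : G) :
    HNNExtension.of (φ := φ) x ∈ bN (HNNExtension.of (φ := φ)) HNNExtension.t A β j ↔ x ∈ β j := by
  constructor
  · intro hx
    obtain ⟨x0, hx0, l, -, hl, e⟩ := hA.form (X := β j) (Or.inl ⟨j, rfl⟩) hx
    have h1 : l.map Prod.fst = ([] : List (ℤˣ × (G × G) × G)).map Prod.fst := by
      refine AW.eq_reduced (φ := φ) (x := x0) (y := x) hl List.IsChain.nil ?_
      rw [← e, AW, mul_one]
    have h2 : l = [] := List.map_eq_nil_iff.1 h1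
    subst h2
    rw [AW, mul_one] at e
    rw [HNNExtension.of_injective φ e]
    exact hx0
  · intro hx
    exact Subgroup.mem_sup_left (Subgroup.mem_map_of_mem _ hx)

/-- E1 : the new structure is a `QS` structure -/
theorem Fam.qs (hq : QS q β) (hA : Fam q β P P' φ A) :
    QS ((HNNExtension.of (φ := φ)).comp q) (bN (HNNExtension.of (φ := φ)) HNNExtension.t A β) := by
  have hcomap : ∀ j x, HNNExtension.of (φ := φ) x ∈
      bN (HNNExtension.of (φ := φ)) HNNExtension.t A β j ↔ x ∈ β j := fun j x => hA.comap j x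
  generalize hi : (HNNExtension.of (φ := φ)) = i at hcomap ⊢
  generalize ht : (HNNExtension.t : HNNExtension G P P' φ) = t at hcomap ⊢
  have hmono : Monotone (bN i t A β) := fun j k hjk =>
    sup_le_sup (Subgroup.map_mono (hq.mono hjk)) le_rfl
  have hBb : ∀ x, x ∈ Bb (bN i t A β) ↔ ∃ j, x ∈ bN i t A β j := fun x => mem_Bb hmono
  have hBb0 : ∀ x, x ∈ Bb β ↔ ∃ j, x ∈ β j := fun x => mem_Bb hq.mono
  have hcomapB : ∀ x, i x ∈ Bb (bN i t A β) ↔ x ∈ Bb β := by
    intro x
    rw [hBb, hBb0]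
    exact exists_congr fun j => hcomap j x
  have hgen : ∀ j, ∀ h ∈ A, (i h.2)⁻¹ * t * i h.1 ∈ bN i t A β j := fun j h hh =>
    Subgroup.mem_sup_right (Subgroup.subset_closure ⟨h, hh, rfl⟩)
  have ht0 : t ∈ bN i t A β 0 := by
    have := hgen 0 (1, 1) hA.one
    simpa using this
  have hle : bN i t A β 0 ≤ Bb (bN i t A β) := le_iSup (bN i t A β) 0
  have hnorm : ∀ s ∈ (i.comp q).range, ∀ y ∈ bN i t A β 0, s * y * s⁻¹ ∈ bN i t A β 0 := by
    rintro _ ⟨s, rfl⟩ y hy
    have h1 : bN i t A β 0 ≤ (bN i t A β 0).comap (MulAut.conj (i (q s))).toMonoidHom := by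
      refine sup_le ?_ ?_
      · rintro _ ⟨b, hb, rfl⟩
        rw [Subgroup.mem_comap]
        have h2 : (MulAut.conj (i (q s))).toMonoidHom (i b) = i (q s * b * (q s)⁻¹) := by
          simp
        rw [h2]
        exact (hcomap 0 _).2 (hq.ra.norm _ ⟨s, rfl⟩ b hb)
      · rw [Subgroup.closure_le]
        rintro _ ⟨h, hh, rfl⟩
        rw [SetLike.mem_coe, Subgroup.mem_comap]
        have h2 := hgen 0 _ (hA.satQ h hh s⁻¹)
        have h3 : (MulAut.conj (i (q s))).toMonoidHom ((i h.2)⁻¹ * t * i h.1) =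
            (i (h.1 * q s⁻¹, h.2 * q s⁻¹).2)⁻¹ * t * i (h.1 * q s⁻¹, h.2 * q s⁻¹).1 := by
          simp [mul_assoc]
        rw [h3]
        exact h2
    exact h1 hy
  have htop : Bb (bN i t A β) ⊔ (i.comp q).range = ⊤ := by
    rw [eq_top_iff]
    intro x _
    have hof : ∀ g : G, i g ∈ Bb (bN i t A β) ⊔ (i.comp q).range := by
      intro g
      have h1 : g ∈ Bb β ⊔ q.range := by
        rw [hq.ra.gen]
        trivial
      have h2 : Bb β ⊔ q.range ≤ (Bb (bN i t A β) ⊔ (i.comp q).range).comap i := by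
        refine sup_le ?_ ?_
        · intro b hb
          exact Subgroup.mem_sup_left ((hcomapB b).2 hb)
        · rintro _ ⟨s, rfl⟩
          exact Subgroup.mem_sup_right ⟨s, rfl⟩
      exact h2 h1
    have htt : t ∈ Bb (bN i t A β) ⊔ (i.comp q).range := Subgroup.mem_sup_left (hle ht0)
    induction x using HNNExtension.induction_on with
    | of g => rw [hi]; exact hof g
    | t => rw [ht]; exact htt
    | mul x y hx hy => exact mul_mem (hx trivial) (hy trivial)
    | inv x hx => exact inv_mem (hx trivial)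
  refine ⟨?_, hmono, RA.of_up hle hnorm ?_ htop ?_⟩
  · intro s hs
    exact hq.disj s ((hcomap 0 _).1 hs)
  · rintro _ ⟨s, rfl⟩ hs
    exact (hcomap 0 _).2 (hq.ra.inter _ ⟨s, rfl⟩ ((hcomapB _).1 hs))
  · intro K _ f g hfg hfg'
    have hqr : ∀ s, i (q s) ∈ (i.comp q).range := fun s => ⟨s, rfl⟩
    let f0 : Bb β →* K := f.comp
      ((i.comp (Bb β).subtype).codRestrict (Bb (bN i t A β)) fun b => (hcomapB b).2 b.2)
    let g0 : q.range →* K := g.comp
      ((i.comp q.range.subtype).codRestrict (i.comp q).range fun b => by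
        obtain ⟨b, s, rfl⟩ := b
        exact ⟨s, rfl⟩)
    obtain ⟨F0, hF0, hF0'⟩ := hq.ra.up K f0 g0 (fun z hX hL => hfg (i z) _ _) (by
      intro s y hy h
      have h1 := hfg' ⟨i s, by obtain ⟨_, s, rfl⟩ := s; exact ⟨s, rfl⟩⟩
        ⟨i y, (hcomapB y).2 y.2⟩ ((hcomap 0 y).2 hy) (by
          have h2 := (hcomapB _).2 h
          simpa using h2)
      have h3 : f0 ⟨(s : G) * y * (s : G)⁻¹, h⟩ = f ⟨i s * i y * (i s)⁻¹, by
          have h2 := (hcomapB _).2 h
          simpa using h2⟩ := by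
        change f ⟨_, _⟩ = f ⟨_, _⟩
        congr 1
        apply Subtype.ext
        simp
      rw [h3]
      exact h1)
    have hF0B : ∀ b, ∀ hb : b ∈ Bb β, F0 b = f ⟨i b, (hcomapB b).2 hb⟩ := fun b hb => hF0 ⟨b, hb⟩
    have hF0q : ∀ s, F0 (q s) = g ⟨i (q s), hqr s⟩ := fun s => hF0' ⟨q s, s, rfl⟩
    have key : ∀ h, Relation.ReflTransGen (FStep q β A) (1, 1) h → h ∈ A →
        ∀ hm : (i h.2)⁻¹ * t * i h.1 ∈ Bb (bN i t A β),
          f ⟨(i h.2)⁻¹ * t * i h.1, hm⟩ = (F0 h.2)⁻¹ * f ⟨t, hle ht0⟩ * F0 h.1 := by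
      intro h hr
      induction hr with
      | refl =>
        intro _ hm
        have h1 : (⟨(i ((1 : G), (1 : G)).2)⁻¹ * t * i ((1 : G), (1 : G)).1, hm⟩ :
            Bb (bN i t A β)) = ⟨t, hle ht0⟩ := by
          apply Subtype.ext
          simp
        rw [h1]
        simp
      | @tail h k _ hs ih =>
        intro hkA hm
        obtain ⟨hhA, -, hs⟩ := hs
        have ih' := ih hhA (hle (hgen 0 h hhA))
        rcases hs with ⟨s, rfl⟩ | ⟨h1, h2⟩
        · have h3 := hfg' ⟨(i (q s⁻¹)), hqr s⁻¹⟩ ⟨(i h.2)⁻¹ * t * i h.1, hle (hgen 0 h hhA)⟩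
            (hgen 0 h hhA) (by
              have h4 : i (q s⁻¹) * ((i h.2)⁻¹ * t * i h.1) * (i (q s⁻¹))⁻¹ =
                  (i (h.1 * q s, h.2 * q s).2)⁻¹ * t * i (h.1 * q s, h.2 * q s).1 := by
                simp [mul_assoc]
              rw [h4]
              exact hm)
          have h5 : (⟨(i (h.1 * q s, h.2 * q s).2)⁻¹ * t * i (h.1 * q s, h.2 * q s).1, hm⟩ :
              Bb (bN i t A β)) = ⟨i (q s⁻¹) * ((i h.2)⁻¹ * t * i h.1) * (i (q s⁻¹))⁻¹, by
                have h4 : i (q s⁻¹) * ((i h.2)⁻¹ * t * i h.1) * (i (q s⁻¹))⁻¹ =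
                    (i (h.1 * q s, h.2 * q s).2)⁻¹ * t * i (h.1 * q s, h.2 * q s).1 := by
                  simp [mul_assoc]
                rw [h4]
                exact hm⟩ := by
            apply Subtype.ext
            simp [mul_assoc]
          rw [h5, h3, ih', ← hF0q s⁻¹]
          simp [mul_assoc]
        · have h3 : (⟨(i k.2)⁻¹ * t * i k.1, hm⟩ : Bb (bN i t A β)) =
              (⟨i (h.2⁻¹ * k.2), (hcomapB _).2 h2⟩ : Bb (bN i t A β))⁻¹ *
                ⟨(i h.2)⁻¹ * t * i h.1, hle (hgen 0 h hhA)⟩ *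
                ⟨i (h.1⁻¹ * k.1), (hcomapB _).2 h1⟩ := by
            apply Subtype.ext
            simp [mul_assoc]
          rw [h3, map_mul, map_mul, map_inv, ih', ← hF0B _ h1, ← hF0B _ h2]
          simp [mul_assoc]
    have hT : ∀ p : P, f ⟨t, hle ht0⟩ * F0 p = F0 (φ p) * f ⟨t, hle ht0⟩ := by
      intro p
      have hpA : ((p : G), (φ p : G)) ∈ A := by
        have := hA.satP _ hA.one p
        simpa using this
      have h1 := key _ (hA.reach _ hpA) hpA (hle (hgen 0 _ hpA))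
      have h2 : (⟨(i ((p : G), (φ p : G)).2)⁻¹ * t * i ((p : G), (φ p : G)).1,
          hle (hgen 0 _ hpA)⟩ : Bb (bN i t A β)) = ⟨t, hle ht0⟩ := by
        apply Subtype.ext
        have h3 : t * i p = i (φ p) * t := by
          rw [← hi, ← ht]
          exact HNNExtension.t_mul_of p
        change (i (φ p : G))⁻¹ * t * i p = t
        rw [mul_assoc, h3, inv_mul_cancel_left]
      rw [h2] at h1
      calc f ⟨t, hle ht0⟩ * F0 p = F0 (φ p) * ((F0 (φ p))⁻¹ * f ⟨t, hle ht0⟩ * F0 p) := by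
            simp [mul_assoc]
        _ = _ := by rw [← h1]
    let F : HNNExtension G P P' φ →* K := HNNExtension.lift F0 (f ⟨t, hle ht0⟩) hT
    have hFi : ∀ x, F (i x) = F0 x := by
      intro x
      rw [← hi]
      exact HNNExtension.lift_of _ _ _ _
    have hFt : F t = f ⟨t, hle ht0⟩ := by
      have : F HNNExtension.t = f ⟨t, hle ht0⟩ := HNNExtension.lift_t _ _ _
      rwa [ht] at this
    refine ⟨F, ?_, ?_⟩
    · have h1 : Bb (bN i t A β) ≤
          (MonoidHom.eqLocus (F.comp (Bb (bN i t A β)).subtype) f).map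
            (Bb (bN i t A β)).subtype := by
        refine iSup_le fun j => sup_le ?_ ?_
        · rintro _ ⟨b, hb, rfl⟩
          have hbB : b ∈ Bb β := (hBb0 b).2 ⟨j, hb⟩
          refine ⟨⟨i b, (hcomapB b).2 hbB⟩, ?_, rfl⟩
          change F (i b) = f _
          rw [hFi, hF0B b hbB]
        · rw [Subgroup.closure_le]
          rintro _ ⟨h, hh, rfl⟩
          refine ⟨⟨(i h.2)⁻¹ * t * i h.1, hle (hgen 0 h hh)⟩, ?_, rfl⟩
          change F ((i h.2)⁻¹ * t * i h.1) = f _
          rw [key h (hA.reach h hh) hh, map_mul, map_mul, map_inv, hFi, hFi, hFt]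
      intro x
      obtain ⟨y, hy, hyx⟩ := h1 x.2
      have hyx' : y = x := Subtype.ext hyx
      subst hyx'
      exact hy
    · rintro ⟨_, s, rfl⟩
      change F (i (q s)) = g _
      rw [hFi, hF0q]
      rfl

end et

end Pool.Agent.Helper98.AAD
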