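import Mathlib

/-!
HNN extensions: malnormality in the free case, intersections with the base, countability
(problem MP_aade38_al).
-/

set_option autoImplicit false

namespace Pool.Agent.Helper98.AAD

section hnn

variable {G : Type} [Group G] {P P' : Subgroup G} {φ : P ≃* P'}

open HNNExtension HNNExtension.NormalWord

/-- every element of an HNN extension is the product of a reduced word -/
theorem hnn_exists_red (g : HNNExtension G P P' φ) :
    ∃ w : ReducedWord G P P', w.prod φ = g := by
  rcases TransversalPair.nonempty G P P' with ⟨d⟩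
  exact ⟨(g • (NormalWord.empty : NormalWord d)).toReducedWord, by simp⟩

/-- multiplying a nonempty reduced word by an element of the base on the right -/
theorem hnn_mul_right (w : ReducedWord G P P') (hw : w.toList ≠ []) (x : G) :
    ∃ w' : ReducedWord G P P', w'.head = w.head ∧ w'.prod φ = w.prod φ * HNNExtension.of x := by
  obtain ⟨h, l, hl⟩ := w
  obtain ⟨l₀, a, rfl⟩ := List.eq_nil_or_concat'  l |>.resolve_left hw
  rw [List.isChain_append] at hl
  refine ⟨⟨h, l₀ ++ [(a.1, a.2 * x)], ?_⟩, rfl, ?_⟩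
  · rw [List.isChain_append]
    refine ⟨hl.1, by simp, ?_⟩
    intro y hy z hz
    have h1 := hl.2.2 y hy a (by simp)
    simp only [List.head?_cons, Option.mem_def, Option.some.injEq] at hz
    subst hz
    exact h1
  · simp [ReducedWord.prod, mul_assoc]

/-- E3a : malnormality, free case -/
theorem hnn_mal_one {N : Subgroup G} (hN : ∀ n ∈ N, n ≠ 1 → ∀ g, g⁻¹ * n * g ∈ N → g ∈ N) :
    ∀ n ∈ N.map (HNNExtension.of (φ := MulEquiv.refl (⊥ : Subgroup G))), n ≠ 1 →
      ∀ g, g⁻¹ * n * g ∈ N.map (HNNExtension.of (φ := MulEquiv.refl (⊥ : Subgroup G))) →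
        g ∈ N.map (HNNExtension.of (φ := MulEquiv.refl (⊥ : Subgroup G))) := by
  rintro _ ⟨n0, hn0, rfl⟩ hne g ⟨n1, hn1, hg⟩
  have hn : n0 ≠ 1 := by
    rintro rfl
    exact hne (map_one _)
  obtain ⟨w, rfl⟩ := hnn_exists_red g
  by_cases hw : w.toList = []
  · have e : w.prod (MulEquiv.refl (⊥ : Subgroup G)) = HNNExtension.of w.head := by
      simp [ReducedWord.prod, hw]
    rw [e] at hg ⊢
    rw [← map_inv, ← map_mul, ← map_mul] at hg
    have h1 := HNNExtension.of_injective _ hg
    exact ⟨w.head, hN n0 hn0 hn _ (h1 ▸ hn1), rfl⟩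
  · exfalso
    obtain ⟨w', h1, h2⟩ := hnn_mul_right (φ := MulEquiv.refl (⊥ : Subgroup G)) w hw n1
    let w'' : ReducedWord G (⊥ : Subgroup G) ⊥ := ⟨n0 * w.head, w.toList, w.chain⟩
    have h3 : w''.prod (MulEquiv.refl (⊥ : Subgroup G)) =
        w'.prod (MulEquiv.refl (⊥ : Subgroup G)) := by
      rw [h2, hg]
      simp only [ReducedWord.prod, w'', map_mul]
      group
    have h4 := (HNNExtension.ReducedWord.map_fst_eq_and_of_prod_eq _ h3).2
    obtain ⟨a, l, hl⟩ := List.exists_cons_of_ne_nil hw
    have h5 := h4 a.1 (by simp [w'', hl])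
    rw [h1] at h5
    have h6 : (w''.head)⁻¹ * w.head = 1 := by
      rcases Int.units_eq_one_or a.1 with h7 | h7
      · rw [h7] at h5
        simpa using h5
      · rw [h7] at h5
        simpa using h5
    apply hn
    have h7 : w''.head = n0 * w.head := rfl
    rw [h7] at h6
    exact mul_eq_right.mp (inv_mul_eq_one.mp h6)

/-- E4b : intersections of `N ⊔ ⟨t⟩` with the base -/
theorem hnn_inter {N : Subgroup G} (hNP : N ≤ P)
    (hφ : ∀ (n : G) (hn : n ∈ P), n ∈ N → (φ ⟨n, hn⟩ : G) = n) {n : G} {k : ℤ} (hn : n ∈ N) {x : G}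
    (e : HNNExtension.of (φ := φ) n * HNNExtension.t ^ k = HNNExtension.of x) : k = 0 ∧ n = x := by
  have _ := hNP
  have _ := hφ
  have _ := hn
  let f : HNNExtension G P P' φ →* Multiplicative ℤ :=
    HNNExtension.lift 1 (Multiplicative.ofAdd 1) (by intro a; simp)
  have h1 := congrArg f e
  rw [map_mul, map_zpow, HNNExtension.lift_of, HNNExtension.lift_of, HNNExtension.lift_t] at h1
  have h2 : k = 0 := by
    simpa [← ofAdd_zsmul] using h1
  subst h2
  refine ⟨rfl, HNNExtension.of_injective φ ?_⟩
  simpa using e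

theorem hnn_countable [Countable G] : Countable (HNNExtension G P P' φ) := by
  have h1 : Countable (FreeMonoid (G ⊕ Multiplicative ℤ)) :=
    inferInstanceAs (Countable (List (G ⊕ ℤ)))
  have h2 : Countable (Monoid.Coprod G (Multiplicative ℤ)) :=
    Function.Surjective.countable Monoid.Coprod.mk_surjective
  exact Function.Surjective.countable (f := (HNNExtension.con G P P' φ).mk') Con.mk'_surjective

end hnn

end Pool.Agent.Helper98.AAD
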