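import Pool.Agent.Helper98.AAD.E1
import Pool.Agent.Helper98.AAD.E2
import Pool.Agent.Helper98.AAD.E3a
import Pool.Agent.Helper98.AAD.QE
import Pool.Agent.Helper98.AAD.R3

/-!
# The free letter (module E3)

A new free letter `t`, with the words `h'⁻¹ t h` in the new levels.
-/

set_option autoImplicit false

namespace Pool.Agent.Helper98.AAD

open HNNExtension

section et

variable {G : Type} [Group G] {q : Multiplicative ℚ →* G} {β : ℕ → Subgroup G}
  {A : Set (G × G)}

/-- the union of the new levels -/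
theorem e3_bb {G' : Type} [Group G'] {i : G →* G'} {t : G'} (hm : Monotone (bN i t A β))
    {y : G'} (hy : y ∈ Bb (bN i t A β)) :
    y ∈ (Bb β).map i ⊔ Subgroup.closure {y | ∃ h ∈ A, y = (i h.2)⁻¹ * t * i h.1} := by
  obtain ⟨j, hj⟩ := (Subgroup.mem_iSup_of_directed hm.directed_le).1 hy
  exact (sup_le_sup_right (Subgroup.map_mono (le_iSup β j)) _) hj

/-- E3 : the free case -/
theorem ET_one [Countable G] {Γ E : Subgroup G} (h : IsSt q β Γ E)
    (hA : Fam q β ⊥ ⊥ (MulEquiv.refl _) A) (hR : ∃ R : ℕ, ∀ h ∈ A, ql q β h.1 ≤ R ∧ ql q β h.2 ≤ R) :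
    ∃ (G' : Type) (_ : Group G') (_ : Countable G') (i : G →* G') (t : G'),
      IsSt (i.comp q) (bN i t A β) (Γ.map i) (E.map i) ∧
      SEmb i q β Γ E (i.comp q) (bN i t A β) (Γ.map i) (E.map i) ∧
      t ∉ (Γ ⊔ E).map i ∧
      ∀ j b, i b * t * (i b)⁻¹ ∈ bN i t A β j → ∃ h ∈ A, b * h.2 ∈ β j := by
  have hinj : Function.Injective (of (φ := MulEquiv.refl (⊥ : Subgroup G))) := of_injective _
  have hqs : QS ((of (φ := MulEquiv.refl (⊥ : Subgroup G))).comp q)
      (bN (of (φ := MulEquiv.refl (⊥ : Subgroup G))) t A β) := Fam.qs h.qs hA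
  have hemb : QEmb (of (φ := MulEquiv.refl (⊥ : Subgroup G))) q β
      ((of (φ := MulEquiv.refl (⊥ : Subgroup G))).comp q)
      (bN (of (φ := MulEquiv.refl (⊥ : Subgroup G))) t A β) :=
    { inj := hinj
      hq := fun _ => rfl
      hβ := fun j x => Fam.comap hA j x }
  have hmap : ∀ (X : Subgroup G) (x : G),
      (of (φ := MulEquiv.refl (⊥ : Subgroup G))) x ∈ X.map of ↔ x ∈ X := by
    intro X x
    constructor
    · rintro ⟨y, hy, e⟩
      exact hinj e ▸ hy
    · exact fun hx => ⟨x, hx, rfl⟩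
  have hcount : Countable (HNNExtension G ⊥ ⊥ (MulEquiv.refl (⊥ : Subgroup G))) := hnn_countable
  refine ⟨HNNExtension G ⊥ ⊥ (MulEquiv.refl (⊥ : Subgroup G)), inferInstance, hcount, of, t,
    ?_, ?_, ?_, ?_⟩
  · refine ⟨hqs, ?_, ?_, ?_, ?_, ?_, ?_, ?_, ?_⟩
    · rintro _ ⟨s, rfl⟩
      exact ⟨q s, h.QΓ ⟨s, rfl⟩, rfl⟩
    · intro y hy
      obtain ⟨x, hx, rfl⟩ := hy
      have h1 := h.gen hx
      have h2 : (Γ ⊓ Bb β).map (of (φ := MulEquiv.refl (⊥ : Subgroup G))) ≤
          Γ.map of ⊓ Bb (bN of t A β) := by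
        rintro _ ⟨z, hz, rfl⟩
        refine ⟨⟨z, hz.1, rfl⟩, ?_⟩
        exact (hemb.mem_Bb_iff h.qs hqs).2 hz.2
      have h3 : q.range.map (of (φ := MulEquiv.refl (⊥ : Subgroup G))) ≤ (of.comp q).range := by
        rintro _ ⟨_, ⟨s, rfl⟩, rfl⟩
        exact ⟨s, rfl⟩
      have h4 : (of (φ := MulEquiv.refl (⊥ : Subgroup G))) x ∈
          ((Γ ⊓ Bb β) ⊔ q.range).map of := ⟨x, h1, rfl⟩
      rw [Subgroup.map_sup] at h4
      exact (sup_le_sup h2 h3) h4
    · rintro _ ⟨e, he, rfl⟩
      exact (Fam.comap hA 0 e).2 (h.EC he)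
    · rintro _ ⟨e, he, rfl⟩ _ ⟨g, hg, rfl⟩
      rw [← map_mul, ← map_mul, h.comm e he g hg]
    · rintro _ ⟨e, he, rfl⟩ _ ⟨g, hg, rfl⟩
      rw [← map_mul, ← map_mul, h.ab e he g hg]
    · rintro _ ⟨e, he, rfl⟩ h1
      rw [hmap] at h1
      rw [h.dis e he h1, map_one]
    · rw [← Subgroup.map_sup]
      exact hnn_mal_one h.mal
    · obtain ⟨K, hK⟩ := h.bd
      obtain ⟨R, hR⟩ := hR
      refine ⟨max K (2 * R), ?_⟩
      rintro b hb hbN _ ⟨μ, hμ, rfl⟩ ⟨_, ⟨γ, hγ, rfl⟩, hγb⟩
      rw [hemb.ql_eq h.qs hqs]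
      rw [← Subgroup.map_sup] at hbN
      obtain ⟨x0, hx0, l, hl, hlr, e1⟩ := Fam.form (φ := MulEquiv.refl (⊥ : Subgroup G)) hA
        (Or.inr ⟨h.qs.mono, rfl⟩) (e3_bb hqs.mono hb)
      obtain ⟨y0, hy0, l', hl', hlr', e2⟩ := Fam.form (φ := MulEquiv.refl (⊥ : Subgroup G)) hA
        (Or.inr ⟨h.qs.mono, rfl⟩) (e3_bb hqs.mono hγb)
      by_cases hne : l = []
      · subst hne
        simp only [AW, mul_one] at e1
        subst e1
        rw [← map_inv, ← map_mul, ← map_mul] at hγb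
        have h5 := (hemb.mem_Bb_iff h.qs hqs).1 hγb
        rw [hmap] at hbN
        exact (hK x0 hx0 hbN μ hμ ⟨γ, hγ, h5⟩).trans (le_max_left _ _)
      · have e3 : (of x0 * AW of t l * of μ : HNNExtension G ⊥ ⊥ (MulEquiv.refl (⊥ : Subgroup G))) =
            of γ * (of y0 * AW of t l') := by
          rw [← e1, ← e2]
          group
        obtain ⟨hne', h1, h2, h3⟩ := AW.pinch hlr hlr' e3 hne
        have m1 := hl _ (List.getLast_mem hne)
        have m2 := hl' _ (List.getLast_mem hne')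
        have key : ∀ a a' x x' : G, x ∈ Bb β → x' ∈ Bb β → ql q β a ≤ R → ql q β a' ≤ R →
            a * x * μ * (a' * x')⁻¹ = 1 → ql q β μ ≤ 2 * R := by
          intro a a' x x' hx hx' ha ha' e
          have e4 : μ = x⁻¹ * ((a⁻¹ * a') * x') := by
            have : μ = (a * x)⁻¹ * (a * x * μ * (a' * x')⁻¹) * (a' * x') := by group
            rw [this, e]
            group
          have hra := h.qs.ra
          rw [e4, ql, hra.rlen_mul_left ((Bb β).inv_mem hx), hra.rlen_mul_right hx']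
          have h5 := hra.rlen_mul_le a⁻¹ a'
          rw [hra.rlen_inv] at h5
          have h6 : rlen (Bb β) (β 0) q.range a ≤ R := ha
          have h7 : rlen (Bb β) (β 0) q.range a' ≤ R := ha'
          omega
        refine le_trans ?_ (le_max_right _ _)
        rcases Int.units_eq_one_or (l.getLast hne).1 with hu | hu
        · have h4 := h2 hu
          rw [Subgroup.mem_bot] at h4
          exact key _ _ _ _ m1.2 m2.2 (hR _ m1.1).1 (hR _ m2.1).1 h4
        · have h4 := h3 hu
          rw [Subgroup.mem_bot] at h4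
          exact key _ _ _ _ m1.2 m2.2 (hR _ m1.1).2 (hR _ m2.1).2 h4
  · refine ⟨hemb, rfl, fun x hx => ⟨x, hx, rfl⟩, fun x hx => ?_⟩
    rwa [← Subgroup.map_sup, hmap] at hx
  · rintro ⟨x, -, hx⟩
    have e : (of (φ := MulEquiv.refl (⊥ : Subgroup G))) 1 *
        AW of t [((1 : ℤˣ), ((1 : G), (1 : G)), (1 : G))] = of x * AW of t [] := by
      rw [hx]
      simp [AW, sw]
    have h1 := AW.eq_reduced (List.isChain_singleton _) List.isChain_nil e
    simp at h1
  · intro j b hb
    obtain ⟨x0, hx0, l, hl, hlr, e1⟩ := Fam.form (φ := MulEquiv.refl (⊥ : Subgroup G)) hA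
      (Or.inl ⟨j, rfl⟩) hb
    have e2 : (of (φ := MulEquiv.refl (⊥ : Subgroup G))) 1 *
        AW of t [((1 : ℤˣ), (b⁻¹, b⁻¹), (1 : G))] = of x0 * AW of t l := by
      rw [← e1]
      simp [AW, sw]
    have h1 := AW.eq_reduced (List.isChain_singleton _) hlr e2
    match l, h1, hl, e1 with
    | [(u, k, x)], h1, hl, e1 =>
      simp only [List.map_cons, List.map_nil, List.cons.injEq, and_true] at h1
      subst h1
      have m1 := hl _ (List.mem_singleton.2 rfl)
      refine ⟨k, m1.1, ?_⟩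
      have e3 := (ReducedWord.map_fst_eq_and_of_prod_eq (MulEquiv.refl (⊥ : Subgroup G))
        (w₁ := { head := b, toList := [((1 : ℤˣ), b⁻¹)], chain := List.isChain_singleton _ })
        (w₂ := { head := x0 * k.2⁻¹, toList := [((1 : ℤˣ), k.1 * x)],
                 chain := List.isChain_singleton _ })
        (by
          simp only [NormalWord.ReducedWord.prod, List.map_cons, List.map_nil, List.prod_cons,
            List.prod_nil, mul_one, map_mul, map_inv]
          have e4 : AW (of (φ := MulEquiv.refl (⊥ : Subgroup G))) t [((1 : ℤˣ), k, x)] =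
              (of k.2)⁻¹ * t * of k.1 * of x := by simp [AW, sw]
          rw [e4] at e1
          simp only [Units.val_one, zpow_one]
          rw [← mul_assoc, e1]
          simp only [mul_assoc])).2 1 (by simp)
      have e5 : b⁻¹ * (x0 * k.2⁻¹) = 1 := by
        have : b⁻¹ * (x0 * k.2⁻¹) ∈ (⊥ : Subgroup G) := by
          rcases Int.units_eq_one_or (-1 : ℤˣ) with hu | hu
          · exact absurd hu (by decide)
          · simpa using e3
        exact Subgroup.mem_bot.1 this
      have e6 : b * k.2 = x0 := by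
        have : x0 * k.2⁻¹ = b := by
          rw [← mul_left_cancel_iff (a := b⁻¹), e5]; simp
        rw [← this]; simp
      rw [e6]
      exact hx0

end et

end Pool.Agent.Helper98.AAD
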