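import Pool.Agent.Helper98.AAD.DefsV

/-!
# HNN words and malnormality (AAD-E4a)
-/

set_option autoImplicit false

namespace Pool.Agent.Helper98.AAD

open HNNExtension

section h71

variable {G : Type} [Group G] {P P' : Subgroup G} {φ : P ≃* P'}

/-- products of letters `t ^ u * x` -/
def h71w (φ : P ≃* P') (l : List (ℤˣ × G)) : HNNExtension G P P' φ :=
  (l.map (fun x => t ^ (x.1 : ℤ) * of x.2)).prod

theorem h71w_nil : h71w φ [] = 1 := rfl

theorem h71w_cons (p : ℤˣ × G) (l : List (ℤˣ × G)) :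
    h71w φ (p :: l) = t ^ (p.1 : ℤ) * of p.2 * h71w φ l := by
  simp [h71w]

theorem h71w_append (l l' : List (ℤˣ × G)) : h71w φ (l ++ l') = h71w φ l * h71w φ l' := by
  simp [h71w]

theorem h71w_single (u : ℤˣ) (x : G) : h71w φ [(u, x)] = t ^ (u : ℤ) * of x := by
  simp [h71w]

/-- reduced lists -/
def H71R (P P' : Subgroup G) (l : List (ℤˣ × G)) : Prop :=
  l.IsChain (fun a b => a.2 ∈ toSubgroup P P' a.1 → a.1 = b.1)

theorem h71_eq {x y : G} {l l' : List (ℤˣ × G)} (hl : H71R P P' l) (hl' : H71R P P' l')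
    (e : of x * h71w φ l = of y * h71w φ l') :
    l.map Prod.fst = l'.map Prod.fst ∧
      ∀ u ∈ l.head?.map Prod.fst, x⁻¹ * y ∈ toSubgroup P P' (-u) := by
  have := HNNExtension.ReducedWord.map_fst_eq_and_of_prod_eq φ
    (w₁ := ⟨x, l, hl⟩) (w₂ := ⟨y, l', hl'⟩) e
  exact this

theorem h71_exists (g : HNNExtension G P P' φ) : ∃ x l, H71R P P' l ∧ g = of x * h71w φ l := by
  obtain ⟨d⟩ := NormalWord.TransversalPair.nonempty G P P'
  refine ⟨(g • (NormalWord.empty : NormalWord d)).head, (g • (NormalWord.empty : NormalWord d)).toList,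
    (g • (NormalWord.empty : NormalWord d)).chain, ?_⟩
  have h := NormalWord.prod_smul φ g (NormalWord.empty : NormalWord d)
  rw [NormalWord.prod_empty, mul_one] at h
  exact h.symm

theorem h71_t_mul (u : ℤˣ) {a : G} (ha : a ∈ toSubgroup P P' u) :
    ∃ b ∈ toSubgroup P P' (-u), (t ^ (u : ℤ) * of a : HNNExtension G P P' φ) =
      of b * t ^ (u : ℤ) := by
  rcases Int.units_eq_one_or u with rfl | rfl
  · refine ⟨φ ⟨a, ha⟩, (φ ⟨a, ha⟩).2, ?_⟩
    have := t_mul_of (φ := φ) ⟨a, ha⟩
    simpa using this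
  · have ha' : a ∈ P' := ha
    refine ⟨φ.symm ⟨a, ha'⟩, ?_, ?_⟩
    · rw [neg_neg, toSubgroup_one]
      exact (φ.symm ⟨a, ha'⟩).2
    have := inv_t_mul_of (φ := φ) ⟨a, ha'⟩
    simpa using this

theorem h71_mul_t (u : ℤˣ) {a : G} (ha : a ∈ toSubgroup P P' (-u)) :
    ∃ b ∈ toSubgroup P P' u, (of a * t ^ (u : ℤ) : HNNExtension G P P' φ) =
      t ^ (u : ℤ) * of b := by
  obtain ⟨b, hb, e⟩ := h71_t_mul (φ := φ) (-u) ha
  rw [neg_neg] at hb
  refine ⟨b, hb, ?_⟩
  have e2 : (t ^ ((-u : ℤˣ) : ℤ) : HNNExtension G P P' φ) = (t ^ (u : ℤ))⁻¹ := by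
    rw [Units.val_neg, zpow_neg]
  rw [e2] at e
  calc (of a * t ^ (u : ℤ) : HNNExtension G P P' φ)
      = t ^ (u : ℤ) * ((t ^ (u : ℤ))⁻¹ * of a) * t ^ (u : ℤ) := by group
    _ = t ^ (u : ℤ) * (of b * (t ^ (u : ℤ))⁻¹) * t ^ (u : ℤ) := by rw [e]
    _ = _ := by group

/-- words with constant sign -/
def h71tw (σ : ℤˣ) (n : ℕ) (y : G) : List (ℤˣ × G) := List.replicate n (σ, 1) ++ [(σ, y)]

theorem h71tw_ne (σ : ℤˣ) (n : ℕ) (y : G) : h71tw σ n y ≠ [] := by simp [h71tw]

theorem h71tw_prod (σ : ℤˣ) (n : ℕ) (y : G) :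
    h71w φ (h71tw σ n y) = t ^ ((σ : ℤ) * (n + 1)) * of y := by
  rw [h71tw, h71w_append, h71w_single]
  have : h71w φ (List.replicate n (σ, (1 : G))) = (t ^ (σ : ℤ)) ^ n := by
    simp [h71w]
  rw [this, ← mul_assoc, ← pow_succ, ← zpow_natCast, ← zpow_mul]
  push_cast
  rfl

theorem h71_pow (s : ℤ) (hs : s ≠ 0) : ∃ σ : ℤˣ, ∃ n : ℕ, s = (σ : ℤ) * (n + 1) := by
  rcases lt_or_gt_of_ne hs with h | h
  · refine ⟨-1, (-s - 1).toNat, ?_⟩
    have h1 : ((-s - 1).toNat : ℤ) = -s - 1 := Int.toNat_of_nonneg (by omega)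
    rw [h1]
    push_cast
    ring
  · refine ⟨1, (s - 1).toNat, ?_⟩
    have h1 : ((s - 1).toNat : ℤ) = s - 1 := Int.toNat_of_nonneg (by omega)
    rw [h1]
    push_cast
    ring

theorem h71tw_red (σ : ℤˣ) (n : ℕ) (y : G) : H71R P P' (h71tw σ n y) := by
  unfold H71R h71tw
  induction n with
  | zero => simp
  | succ n ih =>
    rw [List.replicate_succ, List.cons_append, List.isChain_cons]
    refine ⟨?_, ih⟩
    intro b hb _
    have : b ∈ List.replicate n (σ, (1 : G)) ++ [(σ, y)] := List.mem_of_mem_head? hb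
    rw [List.mem_append] at this
    rcases this with h | h
    · rw [(List.mem_replicate.1 h).2]
    · rw [List.mem_singleton.1 h]

theorem h71tw_head (σ : ℤˣ) (n : ℕ) (y : G) (l : List (ℤˣ × G)) :
    (h71tw σ n y ++ l).head?.map Prod.fst = some σ := by
  cases n with
  | zero => simp [h71tw]
  | succ n => simp [h71tw, List.replicate_succ]

theorem h71tw_append {σ : ℤˣ} {n : ℕ} {y : G} {l : List (ℤˣ × G)} (hl : H71R P P' l)
    (h : ∀ u ∈ l.head?.map Prod.fst, y ∈ toSubgroup P P' σ → σ = u) :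
    H71R P P' (h71tw σ n y ++ l) := by
  unfold H71R
  rw [List.isChain_append]
  refine ⟨h71tw_red σ n y, hl, ?_⟩
  intro a ha b hb
  have ha' : a = (σ, y) := by
    unfold h71tw at ha
    rw [List.getLast?_append] at ha
    simpa using ha.symm
  subst ha'
  intro hy
  exact h b.1 (by simp only [Option.mem_def] at hb; simp [hb]) hy

/-- changing the last entry, appending a word of constant sign -/
theorem h71_last {l : List (ℤˣ × G)} {u : ℤˣ} {x : G} (hl : H71R P P' (l ++ [(u, x)])) (y : G) :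
    H71R P P' (l ++ [(u, y)]) := by
  unfold H71R at hl ⊢
  rw [List.isChain_append] at hl ⊢
  refine ⟨hl.1, by simp, ?_⟩
  intro a ha b hb
  have hb' : b = (u, y) := by simpa using hb.symm
  subst hb'
  exact hl.2.2 a ha (u, x) (by simp)

theorem h71_last_append {l : List (ℤˣ × G)} {u : ℤˣ} {x : G} (hl : H71R P P' (l ++ [(u, x)]))
    {l' : List (ℤˣ × G)} (hl' : H71R P P' l') (hx : x ∉ toSubgroup P P' u) :
    H71R P P' (l ++ [(u, x)] ++ l') := by
  unfold H71R at hl hl' ⊢
  rw [List.isChain_append]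
  refine ⟨hl, hl', ?_⟩
  intro a ha b hb
  have ha' : a = (u, x) := by simpa using ha.symm
  subst ha'
  exact fun h => absurd h hx

theorem h71_N_le (P P' : Subgroup G) {N : Subgroup G} (hNP : N ≤ P) (hNP' : N ≤ P') (u : ℤˣ) :
    N ≤ toSubgroup P P' u := by
  rcases Int.units_eq_one_or u with rfl | rfl
  · exact hNP
  · exact hNP'

/-- elements of `N ⊔ ⟨t⟩` -/
theorem h71_mem_sup {N : Subgroup G} (hNP : N ≤ P)
    (hφ : ∀ (n : G) (hn : n ∈ P), n ∈ N → (φ ⟨n, hn⟩ : G) = n) {x : HNNExtension G P P' φ} :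
    x ∈ N.map (of (φ := φ)) ⊔ Subgroup.zpowers t ↔ ∃ m ∈ N, ∃ s : ℤ, x = of m * t ^ s := by
  have hcomm : ∀ m ∈ N, Commute (t : HNNExtension G P P' φ) (of m) := by
    intro m hm
    have := t_mul_of (φ := φ) ⟨m, hNP hm⟩
    rw [hφ m (hNP hm) hm] at this
    exact this
  constructor
  · intro hx
    refine Subgroup.closure_induction (p := fun x _ => ∃ m ∈ N, ∃ s : ℤ, x = of m * t ^ s) ?_ ?_ ?_ ?_
      ((Subgroup.sup_eq_closure _ _).le hx)
    · rintro x (hx | hx)
      · obtain ⟨m, hm, rfl⟩ := hx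
        exact ⟨m, hm, 0, by simp⟩
      · obtain ⟨s, rfl⟩ := hx
        exact ⟨1, N.one_mem, s, by simp⟩
    · exact ⟨1, N.one_mem, 0, by simp⟩
    · rintro x y - - ⟨m, hm, s, rfl⟩ ⟨m', hm', s', rfl⟩
      refine ⟨m * m', N.mul_mem hm hm', s + s', ?_⟩
      have h1 : (t ^ s * of m' : HNNExtension G P P' φ) = of m' * t ^ s :=
        ((hcomm m' hm').zpow_left s).eq
      rw [map_mul, zpow_add]
      calc (of m * t ^ s * (of m' * t ^ s') : HNNExtension G P P' φ)
          = of m * (t ^ s * of m') * t ^ s' := by group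
        _ = _ := by rw [h1]; group
    · rintro x - ⟨m, hm, s, rfl⟩
      refine ⟨m⁻¹, N.inv_mem hm, -s, ?_⟩
      have h1 : (t ^ s * of m : HNNExtension G P P' φ) = of m * t ^ s :=
        ((hcomm m hm).zpow_left s).eq
      rw [← h1, mul_inv_rev, map_inv, zpow_neg]
  · rintro ⟨m, hm, s, rfl⟩
    refine Subgroup.mul_mem _ ?_ ?_
    · exact Subgroup.mem_sup_left ⟨m, hm, rfl⟩
    · exact Subgroup.mem_sup_right ⟨s, rfl⟩

/-- E4b : intersections of `N ⊔ ⟨t⟩` with the base -/
theorem h71_inter {n : G} {k : ℤ} {x : G}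
    (e : HNNExtension.of (φ := φ) n * HNNExtension.t ^ k = HNNExtension.of x) : k = 0 ∧ n = x := by
  by_cases hk : k = 0
  · subst hk
    refine ⟨rfl, ?_⟩
    rw [zpow_zero, mul_one] at e
    exact of_injective φ e
  · exfalso
    obtain ⟨σ, m, rfl⟩ := h71_pow k hk
    have h1 : of n * h71w φ (h71tw σ m 1) = of x * h71w φ [] := by
      rw [h71tw_prod, h71w_nil, map_one, mul_one, mul_one]
      exact e
    have h2 := (h71_eq (h71tw_red σ m 1) List.isChain_nil h1).1
    simp [h71tw] at h2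

theorem h71_mal_aux {N : Subgroup G} (hN : ∀ n ∈ N, n ≠ 1 → ∀ g, g⁻¹ * n * g ∈ N → g ∈ N)
    (hNP : N ≤ P) (hφ : ∀ (n : G) (hn : n ∈ P), n ∈ N → (φ ⟨n, hn⟩ : G) = n)
    (V2 : ∀ n ∈ N, n ≠ 1 → ∀ g, g⁻¹ * n * g ∈ P → g ∈ P)
    (V2' : ∀ n ∈ N, n ≠ 1 → ∀ g, g⁻¹ * n * g ∈ P' → g ∈ P')
    (V3 : ∀ x ∈ P, x ∈ P' → x ∈ N) (K : ℕ) :
    ∀ (l : List (ℤˣ × G)) (x : G), l.length ≤ K → H71R P P' l →
      ∀ n ∈ N.map (HNNExtension.of (φ := φ)) ⊔ Subgroup.zpowers HNNExtension.t, n ≠ 1 →
      (of x * h71w φ l)⁻¹ * n * (of x * h71w φ l) ∈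
        N.map (HNNExtension.of (φ := φ)) ⊔ Subgroup.zpowers HNNExtension.t →
        of x * h71w φ l ∈ N.map (HNNExtension.of (φ := φ)) ⊔ Subgroup.zpowers HNNExtension.t := by
  have hNP' : N ≤ P' := by
    intro n hn
    rw [← hφ n (hNP hn) hn]
    exact (φ ⟨n, hNP hn⟩).2
  have hNu := h71_N_le P P' hNP hNP'
  have hV : ∀ u : ℤˣ, ∀ n ∈ N, n ≠ 1 → ∀ g, g⁻¹ * n * g ∈ toSubgroup P P' u →
      g ∈ toSubgroup P P' u := by
    intro u
    rcases Int.units_eq_one_or u with rfl | rfl
    · exact V2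
    · exact V2'
  set M := N.map (HNNExtension.of (φ := φ)) ⊔ Subgroup.zpowers HNNExtension.t with hM
  have hMiff : ∀ {x : HNNExtension G P P' φ}, x ∈ M ↔ ∃ m ∈ N, ∃ s : ℤ, x = of m * t ^ s :=
    h71_mem_sup hNP hφ
  have htM : ∀ s : ℤ, (t ^ s : HNNExtension G P P' φ) ∈ M := fun s =>
    Subgroup.mem_sup_right ⟨s, rfl⟩
  induction K with
  | zero =>
    intro l x hlen _ n hn hn1 hc
    have hl0 : l = [] := List.length_eq_zero_iff.1 (Nat.le_zero.1 hlen)
    subst hl0
    rw [h71w_nil, mul_one] at hc ⊢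
    obtain ⟨m, hm, s, rfl⟩ := hMiff.1 hn
    obtain ⟨m', hm', s', e⟩ := hMiff.1 hc
    have e1 : (of m * t ^ s * of x : HNNExtension G P P' φ) = of (x * m') * t ^ s' := by
      rw [map_mul, mul_assoc (of x), ← e]
      group
    by_cases hs : s = 0
    · subst hs
      rw [zpow_zero, mul_one, ← map_mul] at e1
      obtain ⟨-, e2⟩ := h71_inter e1.symm
      have hm1 : m ≠ 1 := by
        rintro rfl
        exact hn1 (by simp)
      have : x⁻¹ * m * x ∈ N := by
        have : x⁻¹ * m * x = m' := by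
          rw [mul_assoc, ← e2]
          group
        rw [this]
        exact hm'
      exact Subgroup.mem_sup_left ⟨x, hN m hm hm1 x this, rfl⟩
    · obtain ⟨σ, k, rfl⟩ := h71_pow s hs
      have hs' : s' ≠ 0 := by
        rintro rfl
        have h1 : of m * h71w φ (h71tw σ k x) = of (x * m') * h71w φ [] := by
          rw [h71tw_prod, h71w_nil, ← mul_assoc]
          rw [zpow_zero] at e1
          exact e1
        have h2 := (h71_eq (h71tw_red σ k x) List.isChain_nil h1).1
        simp [h71tw] at h2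
      obtain ⟨σ', k', rfl⟩ := h71_pow s' hs'
      have h1 : of m * h71w φ (h71tw σ k x) = of (x * m') * h71w φ (h71tw σ' k' 1) := by
        rw [h71tw_prod, h71tw_prod, ← mul_assoc, map_one, mul_one]
        exact e1
      obtain ⟨-, h3⟩ := h71_eq (h71tw_red σ k x) (h71tw_red σ' k' 1) h1
      have h4 : m⁻¹ * (x * m') ∈ toSubgroup P P' (-σ) := h3 σ (by
        have := h71tw_head σ k x []
        rw [List.append_nil] at this
        rw [this]
        rfl)
      have h5 : x ∈ toSubgroup P P' (-σ) := by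
        have h6 : x = m * (m⁻¹ * (x * m')) * m'⁻¹ := by group
        rw [h6]
        exact Subgroup.mul_mem _ (Subgroup.mul_mem _ (hNu _ hm) h4)
          (Subgroup.inv_mem _ (hNu _ hm'))
      have e2 : of (1 : G) * h71w φ (h71tw (-σ) k (m⁻¹ * (x * m'))) =
          of x * h71w φ (h71tw (-σ') k' 1) := by
        rw [h71tw_prod, h71tw_prod, map_one, one_mul, mul_one, map_mul]
        have e3 : (of (x * m') : HNNExtension G P P' φ) =
            of m * t ^ ((σ : ℤ) * (k + 1)) * of x * (t ^ ((σ' : ℤ) * (k' + 1)))⁻¹ := by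
          rw [e1]; group
        rw [e3]
        push_cast
        rw [neg_mul, neg_mul, zpow_neg, zpow_neg, map_inv]
        group
      obtain ⟨-, h7⟩ := h71_eq (h71tw_red _ _ _) (h71tw_red _ _ _) e2
      have h8 : (1 : G)⁻¹ * x ∈ toSubgroup P P' (- -σ) := h7 (-σ) (by
        have := h71tw_head (-σ) k (m⁻¹ * (x * m')) []
        rw [List.append_nil] at this
        rw [this]
        rfl)
      rw [neg_neg, inv_one, one_mul] at h8
      have h9 : x ∈ N := by
        rcases Int.units_eq_one_or σ with rfl | rfl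
        · exact V3 x h8 h5
        · rw [neg_neg] at h5
          exact V3 x h5 h8
      exact Subgroup.mem_sup_left ⟨x, h9, rfl⟩
  | succ K ih =>
    intro l x hlen hl n hn hn1 hc
    rcases l with _ | ⟨⟨u, y⟩, l⟩
    · exact ih [] x (Nat.zero_le _) hl n hn hn1 hc
    have hlt : H71R P P' l := (List.isChain_cons.1 hl).2
    by_cases hx : x ∈ toSubgroup P P' (-u)
    · -- shorten on the left
      obtain ⟨b, hb, e⟩ := h71_mul_t (φ := φ) u hx
      have e1 : of x * h71w φ ((u, y) :: l) = t ^ (u : ℤ) * (of (b * y) * h71w φ l) := by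
        rw [h71w_cons, map_mul]
        calc (of x * (t ^ (u : ℤ) * of y * h71w φ l) : HNNExtension G P P' φ)
            = (of x * t ^ (u : ℤ)) * of y * h71w φ l := by group
          _ = _ := by rw [e]; group
      rw [e1] at hc ⊢
      refine Subgroup.mul_mem _ (htM _) ?_
      refine ih l (b * y) (by simpa using hlen) hlt
        ((t ^ (u : ℤ))⁻¹ * n * t ^ (u : ℤ)) ?_ ?_ ?_
      · exact Subgroup.mul_mem _ (Subgroup.mul_mem _ (Subgroup.inv_mem _ (htM _)) hn) (htM _)
      · intro h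
        apply hn1
        have : n = t ^ (u : ℤ) * ((t ^ (u : ℤ))⁻¹ * n * t ^ (u : ℤ)) * (t ^ (u : ℤ))⁻¹ := by group
        rw [this, h]
        group
      · have : (of (b * y) * h71w φ l)⁻¹ * ((t ^ (u : ℤ))⁻¹ * n * t ^ (u : ℤ)) *
            (of (b * y) * h71w φ l) = (t ^ (u : ℤ) * (of (b * y) * h71w φ l))⁻¹ * n *
            (t ^ (u : ℤ) * (of (b * y) * h71w φ l)) := by group
        rw [this]
        exact hc
    -- the last entry
    obtain ⟨l2, ⟨v, z⟩, hl2⟩ : ∃ l2 p, (u, y) :: l = l2 ++ [p] :=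
      ⟨((u, y) :: l).dropLast, _, (List.dropLast_append_getLast (by simp)).symm⟩
    by_cases hz : z ∈ toSubgroup P P' v
    · -- shorten on the right
      obtain ⟨b, hb, e⟩ := h71_t_mul (φ := φ) v hz
      have hlen2 : l2.length ≤ K := by
        have : ((u, y) :: l).length = (l2 ++ [(v, z)]).length := by rw [hl2]
        rw [List.length_append, List.length_singleton] at this
        omega
      obtain ⟨x', l3, hl3, hlen3, e3⟩ : ∃ x' l3, H71R P P' l3 ∧ l3.length ≤ K ∧
          of x * h71w φ l2 * of b = of x' * h71w φ l3 := by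
        rcases List.eq_nil_or_concat l2 with rfl | ⟨l4, ⟨w, c⟩, rfl⟩
        · exact ⟨x * b, [], List.isChain_nil, Nat.zero_le _, by
            rw [h71w_nil, map_mul]; group⟩
        · refine ⟨x, l4 ++ [(w, c * b)], ?_, ?_, ?_⟩
          · have h1 : H71R P P' (l4 ++ [(w, c)]) := by
              rw [hl2] at hl
              have h2 := (List.isChain_append.1 hl).1
              rw [List.concat_eq_append] at h2
              exact h2
            exact h71_last h1 _
          · simpa using hlen2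
          · rw [List.concat_eq_append, h71w_append, h71w_append, h71w_single, h71w_single, map_mul]
            group
      have e1 : of x * h71w φ ((u, y) :: l) = (of x' * h71w φ l3) * t ^ (v : ℤ) := by
        rw [hl2, h71w_append, h71w_single, e, ← e3]
        group
      rw [e1] at hc ⊢
      refine Subgroup.mul_mem _ ?_ (htM _)
      refine ih l3 x' hlen3 hl3 n hn hn1 ?_
      have : (of x' * h71w φ l3)⁻¹ * n * (of x' * h71w φ l3) =
          t ^ (v : ℤ) * ((of x' * h71w φ l3 * t ^ (v : ℤ))⁻¹ * n *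
            (of x' * h71w φ l3 * t ^ (v : ℤ))) * (t ^ (v : ℤ))⁻¹ := by group
      rw [this]
      exact Subgroup.mul_mem _ (Subgroup.mul_mem _ (htM _) hc) (Subgroup.inv_mem _ (htM _))
    -- contradiction
    exfalso
    obtain ⟨m, hm, s, rfl⟩ := hMiff.1 hn
    obtain ⟨m', hm', s', e⟩ := hMiff.1 hc
    -- the right hand side
    obtain ⟨r, hr, hrhead, er⟩ : ∃ r : List (ℤˣ × G), H71R P P' r ∧
        r.head?.map Prod.fst = some u ∧
        of x * h71w φ r = of x * h71w φ ((u, y) :: l) * (of m' * t ^ s') := by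
      have hzm : z * m' ∉ toSubgroup P P' v := by
        intro h
        apply hz
        have : z = z * m' * m'⁻¹ := by group
        rw [this]
        exact Subgroup.mul_mem _ h (Subgroup.inv_mem _ (hNu _ hm'))
      have hl' : H71R P P' (l2 ++ [(v, z * m')]) := by
        rw [hl2] at hl
        exact h71_last hl _
      have hhead : (l2 ++ [(v, z * m')]).head?.map Prod.fst = some u := by
        have h1 : (l2 ++ [(v, z)]).head?.map Prod.fst = some u := by
          rw [← hl2]; rfl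
        rcases l2 with _ | ⟨p, l2⟩
        · simpa using h1
        · simpa using h1
      by_cases hs' : s' = 0
      · subst hs'
        refine ⟨l2 ++ [(v, z * m')], hl', hhead, ?_⟩
        rw [hl2, h71w_append, h71w_append, h71w_single, h71w_single, map_mul, zpow_zero]
        group
      · obtain ⟨σ', k', rfl⟩ := h71_pow s' hs'
        refine ⟨l2 ++ [(v, z * m')] ++ h71tw σ' k' 1, ?_, ?_, ?_⟩
        · exact h71_last_append hl' (h71tw_red _ _ _) hzm
        · rw [List.head?_append]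
          have : (l2 ++ [(v, z * m')]).head? ≠ none := by simp
          rcases h : (l2 ++ [(v, z * m')]).head? with _ | p
          · exact absurd h this
          · rw [h] at hhead
            exact hhead
        · rw [hl2, h71w_append, h71w_append, h71w_append, h71w_single, h71w_single, h71tw_prod,
            map_mul, map_one]
          group
    have e1 : of m * t ^ s * (of x * h71w φ ((u, y) :: l)) = of x * h71w φ r := by
      rw [er, ← e]
      group
    have hcontra : ∀ {a : G}, a ∈ N → a⁻¹ * x ∈ toSubgroup P P' (-u) → False := by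
      intro a ha h
      apply hx
      have : x = a * (a⁻¹ * x) := by group
      rw [this]
      exact Subgroup.mul_mem _ (hNu _ ha) h
    by_cases hs : s = 0
    · subst hs
      have hm1 : m ≠ 1 := by
        rintro rfl
        exact hn1 (by simp)
      have e2 : of (m * x) * h71w φ ((u, y) :: l) = of x * h71w φ r := by
        rw [← e1, map_mul]
        group
      obtain ⟨-, h3⟩ := h71_eq hl hr e2
      have h4 : (m * x)⁻¹ * x ∈ toSubgroup P P' (-u) := h3 u (by simp)
      have h5 : x⁻¹ * m⁻¹ * x ∈ toSubgroup P P' (-u) := by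
        have : x⁻¹ * m⁻¹ * x = (m * x)⁻¹ * x := by group
        rw [this]
        exact h4
      exact hx (hV (-u) m⁻¹ (N.inv_mem hm) (inv_ne_one.2 hm1) x h5)
    · obtain ⟨σ, k, rfl⟩ := h71_pow s hs
      have e2 : of m * h71w φ (h71tw σ k x ++ ((u, y) :: l)) = of x * h71w φ r := by
        rw [← e1, h71w_append, h71tw_prod]
        group
      have hred : H71R P P' (h71tw σ k x ++ ((u, y) :: l)) := by
        refine h71tw_append hl ?_
        intro u' hu' hxs
        have hu : u' = u := by simpa using hu'.symm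
        subst hu
        by_contra hne
        have : σ = -u' := by
          rcases Int.units_eq_one_or σ with rfl | rfl <;>
          rcases Int.units_eq_one_or u' with rfl | rfl <;> simp_all
        rw [this] at hxs
        exact hx hxs
      obtain ⟨h2, h3⟩ := h71_eq hred hr e2
      have h4 : σ = u := by
        have h5 : ((h71tw σ k x ++ ((u, y) :: l)).map Prod.fst).head? =
            (r.map Prod.fst).head? := by rw [h2]
        rw [List.head?_map, List.head?_map, h71tw_head, hrhead] at h5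
        exact Option.some_injective _ h5
      have h6 : m⁻¹ * x ∈ toSubgroup P P' (-σ) := h3 σ (by rw [h71tw_head]; rfl)
      rw [h4] at h6
      exact hcontra hm h6

/-- E4a : malnormality, main case -/
theorem hnn_mal_two {N : Subgroup G} (hN : ∀ n ∈ N, n ≠ 1 → ∀ g, g⁻¹ * n * g ∈ N → g ∈ N)
    (hNP : N ≤ P) (hφ : ∀ (n : G) (hn : n ∈ P), n ∈ N → (φ ⟨n, hn⟩ : G) = n)
    (V2 : ∀ n ∈ N, n ≠ 1 → ∀ g, g⁻¹ * n * g ∈ P → g ∈ P)
    (V2' : ∀ n ∈ N, n ≠ 1 → ∀ g, g⁻¹ * n * g ∈ P' → g ∈ P')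
    (V3 : ∀ x ∈ P, x ∈ P' → x ∈ N) :
    ∀ n ∈ N.map (HNNExtension.of (φ := φ)) ⊔ Subgroup.zpowers HNNExtension.t, n ≠ 1 →
      ∀ g, g⁻¹ * n * g ∈ N.map (HNNExtension.of (φ := φ)) ⊔ Subgroup.zpowers HNNExtension.t →
        g ∈ N.map (HNNExtension.of (φ := φ)) ⊔ Subgroup.zpowers HNNExtension.t := by
  intro n hn hn1 g hg
  obtain ⟨x, l, hl, rfl⟩ := h71_exists g
  exact h71_mal_aux hN hNP hφ V2 V2' V3 l.length l x le_rfl hl n hn hn1 hg

end h71

end Pool.Agent.Helper98.AAD
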