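import Pool.Agent.Helper98.AAD.E1
import Pool.Agent.Helper98.AAD.E2
import Pool.Agent.Helper98.AAD.E3a
import Pool.Agent.Helper98.AAD.E4a
import Pool.Agent.Helper98.AAD.QE
import Pool.Agent.Helper98.AAD.Q1

/-!
# The main HNN step (module E4)
-/

set_option autoImplicit false

namespace Pool.Agent.Helper98.AAD

section gen

variable {G' : Type} [Group G']

/-- elements of `X ⊔ ⟨t⟩` when `t` commutes with `X` -/
theorem h84_mem_sup_zpowers {X : Subgroup G'} {t : G'} (hc : ∀ x ∈ X, t * x = x * t) {y : G'}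
    (hy : y ∈ X ⊔ Subgroup.zpowers t) : ∃ x ∈ X, ∃ k : ℤ, y = x * t ^ k := by
  have hc' : ∀ (k : ℤ), ∀ x ∈ X, t ^ k * x = x * t ^ k := by
    intro k x hx
    have : Commute t x := hc x hx
    exact (this.zpow_left k).eq
  rw [Subgroup.sup_eq_closure] at hy
  induction hy using Subgroup.closure_induction with
  | mem x hx =>
    rcases hx with hx | hx
    · exact ⟨x, hx, 0, by simp⟩
    · obtain ⟨k, rfl⟩ := Subgroup.mem_zpowers_iff.1 hx
      exact ⟨1, X.one_mem, k, by simp⟩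
  | one => exact ⟨1, X.one_mem, 0, by simp⟩
  | mul a b _ _ iha ihb =>
    obtain ⟨x, hx, k, rfl⟩ := iha
    obtain ⟨y, hy, m, rfl⟩ := ihb
    refine ⟨x * y, X.mul_mem hx hy, k + m, ?_⟩
    rw [zpow_add, mul_assoc, ← mul_assoc (t ^ k), hc' k y hy]
    simp only [mul_assoc]
  | inv a _ iha =>
    obtain ⟨x, hx, k, rfl⟩ := iha
    refine ⟨x⁻¹, X.inv_mem hx, -k, ?_⟩
    rw [mul_inv_rev, ← zpow_neg, hc' (-k) x⁻¹ (X.inv_mem hx)]

end gen

section et

variable {G : Type} [Group G] {q : Multiplicative ℚ →* G} {β : ℕ → Subgroup G}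
  {P P' : Subgroup G} {φ : P ≃* P'} {A : Set (G × G)}

theorem h84_AW_append {G' : Type} [Group G'] (i : G →* G') (t : G')
    (l l' : List (ℤˣ × (G × G) × G)) : AW i t (l ++ l') = AW i t l * AW i t l' := by
  induction l with
  | nil => simp [AW]
  | cons p l ih => simp [AW, ih, mul_assoc]

theorem h84_t_mem_bN {G' : Type} [Group G'] (i : G →* G') (t : G') (hA : ((1 : G), (1 : G)) ∈ A)
    (j : ℕ) : t ∈ bN i t A β j := by
  refine Subgroup.mem_sup_right (Subgroup.subset_closure ⟨(1, 1), hA, ?_⟩)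
  simp

theorem h84_Bb_bN {G' : Type} [Group G'] (i : G →* G') (t : G') :
    Bb (bN i t A β) ≤ (Bb β).map i ⊔ Subgroup.closure {y | ∃ h ∈ A, y = (i h.2)⁻¹ * t * i h.1} :=
  iSup_le fun j => sup_le_sup (Subgroup.map_mono (le_iSup β j)) le_rfl

theorem h84_map_le_Bb {G' : Type} [Group G'] (i : G →* G') (t : G') :
    (Bb β).map i ≤ Bb (bN i t A β) := by
  rw [Bb, Subgroup.map_iSup]
  exact iSup_le fun j => le_trans le_sup_left (le_iSup (bN i t A β) j)

/-- the bound of the main case -/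
theorem h84_bd_main (hq : QS q β) (hA : Fam q β P P' φ A) {Γ E : Subgroup G}
    (hN : Γ ⊔ E ≤ P) (hφ : ∀ (n : G) (hn : n ∈ P), n ∈ Γ ⊔ E → (φ ⟨n, hn⟩ : G) = n) {K : ℕ}
    (bd : ∀ b ∈ Bb β, b ∉ Γ ⊔ E → ∀ μ ∈ Γ, (∃ γ ∈ Γ, γ⁻¹ * b * μ ∈ Bb β) → ql q β μ ≤ K)
    (KP : ∀ u, u ∉ P → ∀ a ∈ Γ, ∀ b ∈ Γ, (∃ h ∈ A, ∃ x ∈ Bb β, u * a = h.1 * x) →
      (∃ h ∈ A, ∃ x ∈ Bb β, u * b = h.1 * x) → ql q β (a⁻¹ * b) ≤ K)
    (KP' : ∀ u, u ∉ P' → ∀ a ∈ Γ, ∀ b ∈ Γ, (∃ h ∈ A, ∃ x ∈ Bb β, u * a = h.2 * x) →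
      (∃ h ∈ A, ∃ x ∈ Bb β, u * b = h.2 * x) → ql q β (a⁻¹ * b) ≤ K)
    (l : List (ℤˣ × (G × G) × G)) (hl : ∀ p ∈ l, p.2.1 ∈ A ∧ p.2.2 ∈ Bb β) (hr : RedA P P' l) :
    ∀ x0 ∈ Bb β, ∀ z ∈ Bb β, ∀ μ ∈ Γ, ∀ γ ∈ Γ,
      HNNExtension.of (φ := φ) x0 * AW HNNExtension.of HNNExtension.t l * HNNExtension.of z ∉
        (Γ ⊔ E).map (HNNExtension.of (φ := φ)) ⊔ Subgroup.zpowers HNNExtension.t →
      (HNNExtension.of γ)⁻¹ * (HNNExtension.of (φ := φ) x0 *
        AW HNNExtension.of HNNExtension.t l * HNNExtension.of z) * HNNExtension.of μ ∈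
          Bb (bN HNNExtension.of HNNExtension.t A β) →
      ql q β μ ≤ K := by
  have hq' := Fam.qs hq hA
  have hemb : QEmb (HNNExtension.of (φ := φ)) q β ((HNNExtension.of (φ := φ)).comp q)
      (bN (HNNExtension.of (φ := φ)) HNNExtension.t A β) :=
    ⟨HNNExtension.of_injective φ, fun _ => rfl, fun j x => Fam.comap hA j x⟩
  have hcomm : ∀ μ ∈ Γ, (HNNExtension.t : HNNExtension G P P' φ) * HNNExtension.of μ =
      HNNExtension.of μ * HNNExtension.t := by
    intro μ hμ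
    have h1 : μ ∈ Γ ⊔ E := Subgroup.mem_sup_left hμ
    have := HNNExtension.t_mul_of (φ := φ) ⟨μ, hN h1⟩
    rwa [hφ μ (hN h1) h1] at this
  have htB : (HNNExtension.t : HNNExtension G P P' φ) ∈
      Bb (bN (HNNExtension.of (φ := φ)) HNNExtension.t A β) :=
    (le_iSup (bN (HNNExtension.of (φ := φ)) HNNExtension.t A β) 0)
      (h84_t_mem_bN _ _ hA.one 0)
  have hcomm' : ∀ μ ∈ Γ, (HNNExtension.t : HNNExtension G P P' φ)⁻¹ * HNNExtension.of μ =
      HNNExtension.of μ * HNNExtension.t⁻¹ := by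
    intro μ hμ
    have : Commute (HNNExtension.t : HNNExtension G P P' φ) (HNNExtension.of μ) := hcomm μ hμ
    exact this.inv_left.eq
  induction l using List.reverseRecOn with
  | nil =>
    intro x0 hx0 z hz μ hμ γ hγ hb hb'
    refine bd (x0 * z) ((Bb β).mul_mem hx0 hz) ?_ μ hμ ⟨γ, hγ, ?_⟩
    · intro h
      refine hb (Subgroup.mem_sup_left ⟨x0 * z, h, ?_⟩)
      simp [AW]
    · rw [← QEmb.mem_Bb_iff hemb hq hq']
      simpa [AW, mul_assoc] using hb'
  | append_singleton l a ih =>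
    intro x0 hx0 z hz μ hμ γ hγ hb hb'
    obtain ⟨s, ⟨h1, h2⟩, xk⟩ := a
    have hlA : ∀ p ∈ l, p.2.1 ∈ A ∧ p.2.2 ∈ Bb β := fun p hp => hl p (by simp [hp])
    have hak := hl (s, (h1, h2), xk) (by simp)
    simp only at hak
    have hrl : RedA P P' l := (List.isChain_append.1 hr).1
    have ih' := ih hlA hrl
    obtain ⟨y0, hy0, l', hl', hr', e⟩ := Fam.form hA (X := Bb β) (Or.inr ⟨hq.mono, rfl⟩)
      (h84_Bb_bN _ _ hb')
    have e' : HNNExtension.of (φ := φ) x0 * AW HNNExtension.of HNNExtension.t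
        (l ++ [(s, (h1, h2), xk)]) * HNNExtension.of (z * μ) = HNNExtension.of γ *
        (HNNExtension.of y0 * AW HNNExtension.of HNNExtension.t l') := by
      rw [← e, map_mul]
      group
    have hne : l ++ [(s, (h1, h2), xk)] ≠ [] := by simp
    obtain ⟨hne', hs, hp1, hp2⟩ := AW.pinch hr hr' e' hne
    have hlast : (l ++ [(s, (h1, h2), xk)]).getLast hne = (s, (h1, h2), xk) := by simp
    rw [hlast] at hs hp1 hp2
    have hl'k := hl' _ (List.getLast_mem hne')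
    generalize l'.getLast hne' = c at hs hp1 hp2 hl'k
    obtain ⟨s', ⟨k1, k2⟩, y⟩ := c
    simp only at hs hp1 hp2 hl'k
    subst hs
    obtain ⟨hkA, hy⟩ := hl'k
    obtain ⟨hhA, hxk⟩ := hak
    rcases Int.units_eq_one_or s with hs | hs
    · -- positive letter
      subst hs
      have hp := hp1 rfl
      clear hp1 hp2
      set p := h1 * xk * (z * μ) * (k1 * y)⁻¹ with hpdef
      have hka := hA.satP (k1, k2) hkA ⟨p, hp⟩
      simp only at hka
      have e1 : h1 * (xk * z) * μ = p * k1 * y := by rw [hpdef]; group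
      by_cases hu : h1 * (xk * z) ∈ P
      · have hua := hA.satP (1, 1) hA.one ⟨_, hu⟩
        simp only [mul_one] at hua
        have hxB : (h2⁻¹ * (φ ⟨_, hu⟩ : G)) ∈ Bb β := by
          obtain ⟨j, hj⟩ := (mem_Bb hq.mono).1 ((Bb β).mul_mem hxk hz)
          refine (mem_Bb hq.mono).2 ⟨j, ?_⟩
          have := (hA.w j _ hhA _ hua).1
          simp only at this
          refine this ?_
          rw [← mul_assoc, inv_mul_cancel, one_mul]
          exact hj
        have e2 : HNNExtension.of (φ := φ) x0 * AW HNNExtension.of HNNExtension.t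
            (l ++ [(1, (h1, h2), xk)]) * HNNExtension.of z =
            HNNExtension.of x0 * AW HNNExtension.of HNNExtension.t l *
              HNNExtension.of (h2⁻¹ * (φ ⟨_, hu⟩ : G)) * HNNExtension.t := by
          have e3 := HNNExtension.t_mul_of (φ := φ) ⟨_, hu⟩
          rw [h84_AW_append]
          simp only [AW, sw, if_true, mul_one, map_mul, map_inv, mul_assoc] at e3 ⊢
          rw [← e3]
        refine ih' x0 hx0 _ hxB μ hμ γ hγ ?_ ?_
        · intro h
          refine hb ?_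
          rw [e2]
          exact Subgroup.mul_mem _ h (Subgroup.mem_sup_right (Subgroup.mem_zpowers _))
        · have h5 := Subgroup.mul_mem _ hb' (Subgroup.inv_mem _ htB)
          rw [e2] at h5
          have h6 := hcomm' μ hμ
          convert h5 using 1
          simp only [mul_assoc] at h6 ⊢
          rw [← h6]
          simp
      · have := KP _ hu 1 Γ.one_mem μ hμ ⟨(h1, h2), hhA, xk * z, (Bb β).mul_mem hxk hz, by simp⟩
          ⟨(p * k1, _), hka, y, hy, e1⟩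
        simpa using this
    · -- negative letter
      subst hs
      have hp := hp2 rfl
      clear hp1 hp2
      set p := h2 * xk * (z * μ) * (k2 * y)⁻¹ with hpdef
      have hka := hA.satP (k1, k2) hkA (φ.symm ⟨p, hp⟩)
      simp only [MulEquiv.apply_symm_apply] at hka
      have e1 : h2 * (xk * z) * μ = p * k2 * y := by rw [hpdef]; group
      by_cases hu : h2 * (xk * z) ∈ P'
      · have hua := hA.satP (1, 1) hA.one (φ.symm ⟨_, hu⟩)
        simp only [mul_one, MulEquiv.apply_symm_apply] at hua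
        have hxB : (h1⁻¹ * (φ.symm ⟨_, hu⟩ : G)) ∈ Bb β := by
          obtain ⟨j, hj⟩ := (mem_Bb hq.mono).1 ((Bb β).mul_mem hxk hz)
          refine (mem_Bb hq.mono).2 ⟨j, ?_⟩
          have := (hA.w j _ hhA _ hua).2
          simp only at this
          refine this ?_
          rw [← mul_assoc, inv_mul_cancel, one_mul]
          exact hj
        have e2 : HNNExtension.of (φ := φ) x0 * AW HNNExtension.of HNNExtension.t
            (l ++ [(-1, (h1, h2), xk)]) * HNNExtension.of z =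
            HNNExtension.of x0 * AW HNNExtension.of HNNExtension.t l *
              HNNExtension.of (h1⁻¹ * (φ.symm ⟨_, hu⟩ : G)) * HNNExtension.t⁻¹ := by
          have e3 := HNNExtension.inv_t_mul_of (φ := φ) ⟨_, hu⟩
          rw [h84_AW_append]
          have h7 : ¬ ((-1 : ℤˣ) = 1) := by decide
          simp only [AW, sw, if_neg h7, mul_one, map_mul, map_inv, mul_assoc] at e3 ⊢
          rw [← e3]
        refine ih' x0 hx0 _ hxB μ hμ γ hγ ?_ ?_
        · intro h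
          refine hb ?_
          rw [e2]
          exact Subgroup.mul_mem _ h (Subgroup.mem_sup_right
            (Subgroup.inv_mem _ (Subgroup.mem_zpowers _)))
        · have h5 := Subgroup.mul_mem _ hb' htB
          rw [e2] at h5
          have h6 := hcomm μ hμ
          convert h5 using 1
          simp only [mul_assoc] at h6 ⊢
          rw [← h6]
          simp
      · have := KP' _ hu 1 Γ.one_mem μ hμ ⟨(h1, h2), hhA, xk * z, (Bb β).mul_mem hxk hz, by simp⟩
          ⟨(_, p * k2), hka, y, hy, e1⟩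
        simpa using this

/-- E4 : the main case -/
theorem ET_two [Countable G] {Γ E : Subgroup G} (h : IsSt q β Γ E) (hA : Fam q β P P' φ A)
    (hN : Γ ⊔ E ≤ P) (hφ : ∀ (n : G) (hn : n ∈ P), n ∈ Γ ⊔ E → (φ ⟨n, hn⟩ : G) = n)
    (KP : ∃ K : ℕ, ∀ u, u ∉ P → ∀ a ∈ Γ, ∀ b ∈ Γ, (∃ h ∈ A, ∃ x ∈ Bb β, u * a = h.1 * x) →
      (∃ h ∈ A, ∃ x ∈ Bb β, u * b = h.1 * x) → ql q β (a⁻¹ * b) ≤ K)
    (KP' : ∃ K : ℕ, ∀ u, u ∉ P' → ∀ a ∈ Γ, ∀ b ∈ Γ, (∃ h ∈ A, ∃ x ∈ Bb β, u * a = h.2 * x) →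
      (∃ h ∈ A, ∃ x ∈ Bb β, u * b = h.2 * x) → ql q β (a⁻¹ * b) ≤ K)
    (V2 : ∀ n ∈ Γ ⊔ E, n ≠ 1 → ∀ g, g⁻¹ * n * g ∈ P → g ∈ P)
    (V2' : ∀ n ∈ Γ ⊔ E, n ≠ 1 → ∀ g, g⁻¹ * n * g ∈ P' → g ∈ P')
    (V3 : ∀ x ∈ P, x ∈ P' → x ∈ Γ ⊔ E) :
    ∃ (G' : Type) (_ : Group G') (_ : Countable G') (i : G →* G') (t : G'),
      (∀ p : P, t * i p = i (φ p) * t) ∧
      IsSt (i.comp q) (bN i t A β) (Γ.map i) (E.map i ⊔ Subgroup.zpowers t) ∧
      SEmb i q β Γ E (i.comp q) (bN i t A β) (Γ.map i) (E.map i ⊔ Subgroup.zpowers t) := by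
  obtain ⟨K0, hK0⟩ := h.bd
  obtain ⟨K1, hK1⟩ := KP
  obtain ⟨K2, hK2⟩ := KP'
  have hq' := Fam.qs h.qs hA
  have hemb : QEmb (HNNExtension.of (φ := φ)) q β ((HNNExtension.of (φ := φ)).comp q)
      (bN (HNNExtension.of (φ := φ)) HNNExtension.t A β) :=
    ⟨HNNExtension.of_injective φ, fun _ => rfl, fun j x => Fam.comap hA j x⟩
  have hcN : ∀ x ∈ (Γ ⊔ E).map (HNNExtension.of (φ := φ)),
      (HNNExtension.t : HNNExtension G P P' φ) * x = x * HNNExtension.t := by
    rintro _ ⟨n, hn, rfl⟩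
    have := HNNExtension.t_mul_of (φ := φ) ⟨n, hN hn⟩
    rwa [hφ n (hN hn) hn] at this
  have hNE : Γ.map (HNNExtension.of (φ := φ)) ⊔ (E.map (HNNExtension.of (φ := φ)) ⊔
      Subgroup.zpowers HNNExtension.t) =
      (Γ ⊔ E).map (HNNExtension.of (φ := φ)) ⊔ Subgroup.zpowers HNNExtension.t := by
    rw [Subgroup.map_sup, sup_assoc]
  have hform : ∀ e ∈ E.map (HNNExtension.of (φ := φ)) ⊔ Subgroup.zpowers HNNExtension.t,
      ∃ e0 ∈ E, ∃ k : ℤ, e = HNNExtension.of e0 * HNNExtension.t ^ k := by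
    intro e he
    obtain ⟨x, ⟨e0, he0, rfl⟩, k, rfl⟩ := h84_mem_sup_zpowers (X := E.map HNNExtension.of)
      (fun x hx => hcN x (Subgroup.map_mono le_sup_right hx)) he
    exact ⟨e0, he0, k, rfl⟩
  have hck : ∀ (k : ℤ) (n : G), n ∈ Γ ⊔ E →
      (HNNExtension.t : HNNExtension G P P' φ) ^ k * HNNExtension.of n =
        HNNExtension.of n * HNNExtension.t ^ k := by
    intro k n hn
    have : Commute (HNNExtension.t : HNNExtension G P P' φ) (HNNExtension.of n) :=
      hcN _ ⟨n, hn, rfl⟩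
    exact (this.zpow_left k).eq
  have hC0 : (β 0).map (HNNExtension.of (φ := φ)) ≤ bN HNNExtension.of HNNExtension.t A β 0 :=
    le_sup_left
  refine ⟨HNNExtension G P P' φ, inferInstance, hnn_countable, HNNExtension.of, HNNExtension.t,
    HNNExtension.t_mul_of, ?_, ?_⟩
  · refine ⟨hq', ?_, ?_, ?_, ?_, ?_, ?_, ?_, ?_⟩
    · -- QΓ
      rw [MonoidHom.range_comp]
      exact Subgroup.map_mono h.QΓ
    · -- gen
      rw [MonoidHom.range_comp]
      refine (Subgroup.map_mono h.gen).trans ?_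
      rw [Subgroup.map_sup]
      refine sup_le_sup ?_ le_rfl
      exact le_inf (Subgroup.map_mono inf_le_left)
        ((Subgroup.map_mono inf_le_right).trans (h84_map_le_Bb _ _))
    · -- EC
      refine sup_le ((Subgroup.map_mono h.EC).trans hC0) ?_
      rw [Subgroup.zpowers_le]
      exact h84_t_mem_bN _ _ hA.one 0
    · -- comm
      rintro e he _ ⟨γ, hγ, rfl⟩
      obtain ⟨e0, he0, k, rfl⟩ := hform e he
      rw [mul_assoc, hck k γ (Subgroup.mem_sup_left hγ), ← mul_assoc, ← map_mul,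
        h.comm e0 he0 γ hγ, map_mul, mul_assoc]
    · -- ab
      intro e he e' he'
      obtain ⟨e0, he0, k, rfl⟩ := hform e he
      obtain ⟨e1, he1, m, rfl⟩ := hform e' he'
      have c1 : Commute ((HNNExtension.t : HNNExtension G P P' φ) ^ k) (HNNExtension.of e1) :=
        hck k e1 (Subgroup.mem_sup_right he1)
      have c2 : Commute ((HNNExtension.t : HNNExtension G P P' φ) ^ m) (HNNExtension.of e0) :=
        hck m e0 (Subgroup.mem_sup_right he0)
      have c3 : Commute (HNNExtension.of (φ := φ) e0) (HNNExtension.of e1) := by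
        rw [Commute, SemiconjBy, ← map_mul, h.ab e0 he0 e1 he1, map_mul]
      have c4 : Commute ((HNNExtension.t : HNNExtension G P P' φ) ^ k) (HNNExtension.t ^ m) :=
        (Commute.refl _).zpow_zpow k m
      exact ((c3.mul_right c2.symm).mul_left (c1.mul_right c4)).eq
    · -- dis
      rintro e he ⟨γ, hγ, e1⟩
      obtain ⟨e0, he0, k, rfl⟩ := hform e he
      obtain ⟨rfl, rfl⟩ := hnn_inter hN hφ (Subgroup.mem_sup_right he0) e1.symm
      rw [h.dis e0 he0 hγ]
      simp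
    · -- mal
      rw [hNE]
      exact hnn_mal_two h.mal hN hφ V2 V2' V3
    · -- bd
      rw [hNE]
      refine ⟨max K0 (max K1 K2), ?_⟩
      rintro b hb hbN _ ⟨μ, hμ, rfl⟩ ⟨_, ⟨γ, hγ, rfl⟩, hb'⟩
      rw [QEmb.ql_eq hemb h.qs hq']
      obtain ⟨x0, hx0, l, hl, hr, rfl⟩ := Fam.form hA (X := Bb β) (Or.inr ⟨h.qs.mono, rfl⟩)
        (h84_Bb_bN _ _ hb)
      refine h84_bd_main h.qs hA hN hφ
        (fun b hb hbN μ hμ hg => (hK0 b hb hbN μ hμ hg).trans (le_max_left _ _))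
        (fun u hu a ha b hb h1 h2 => (hK1 u hu a ha b hb h1 h2).trans
          ((le_max_left _ _).trans (le_max_right _ _)))
        (fun u hu a ha b hb h1 h2 => (hK2 u hu a ha b hb h1 h2).trans
          ((le_max_right _ _).trans (le_max_right _ _))) l hl hr x0 hx0 1 (Bb β).one_mem μ hμ γ hγ
        ?_ ?_
      · simpa using hbN
      · simpa using hb'
  · refine ⟨hemb, rfl, ?_, ?_⟩
    · intro x hx
      exact Subgroup.mem_sup_left ⟨x, hx, rfl⟩
    · intro x hx
      rw [hNE] at hx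
      obtain ⟨_, ⟨n, hn, rfl⟩, k, e⟩ := h84_mem_sup_zpowers hcN hx
      obtain ⟨rfl, rfl⟩ := hnn_inter hN hφ hn e.symm
      exact hn

end et

end Pool.Agent.Helper98.AAD
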