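import Pool.Agent.Helper98.AAD.DefsV

/-!
Direct limits of sequences of groups (problem MP_aade38_al), module L1.
-/

set_option autoImplicit false

namespace Pool.Agent.Helper98.AAD

section lim

variable {G : ℕ → Type} [∀ n, Group (G n)]

/-- transition maps of a sequence of groups -/
def limT (f : ∀ n, G n →* G (n + 1)) (i j : ℕ) (h : i ≤ j) : G i →* G j :=
  Nat.leRec (motive := fun m _ => G i →* G m) (MonoidHom.id _) (fun m _ g => (f m).comp g) h

theorem limT_self (f : ∀ n, G n →* G (n + 1)) (i : ℕ) (h : i ≤ i) :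
    limT f i i h = MonoidHom.id _ := by
  unfold limT
  exact Nat.leRec_self _ _

theorem limT_succ (f : ∀ n, G n →* G (n + 1)) (i j : ℕ) (h : i ≤ j) (h' : i ≤ j + 1) :
    limT f i (j + 1) h' = (f j).comp (limT f i j h) := by
  unfold limT
  exact Nat.leRec_succ _ _ h

theorem limT_trans (f : ∀ n, G n →* G (n + 1)) (i j k : ℕ) (h : i ≤ j) (h' : j ≤ k) (x : G i) :
    limT f j k h' (limT f i j h x) = limT f i k (h.trans h') x := by
  induction k, h' using Nat.le_induction with
  | base => rw [limT_self]; rfl
  | succ k hk ih =>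
    rw [limT_succ f j k hk, limT_succ f i k (h.trans hk)]
    simp only [MonoidHom.comp_apply, ih]

theorem limT_inj (f : ∀ n, G n →* G (n + 1)) (hf : ∀ n, Function.Injective (f n)) (i j : ℕ)
    (h : i ≤ j) : Function.Injective (limT f i j h) := by
  induction j, h using Nat.le_induction with
  | base => rw [limT_self]; exact fun x y h => h
  | succ j hj ih =>
    rw [limT_succ f i j hj]
    exact (hf j).comp ih

end lim

/-- L1 : direct limits of sequences of groups -/
theorem LIM (G : ℕ → Type) [∀ n, Group (G n)] [∀ n, Countable (G n)] (f : ∀ n, G n →* G (n + 1))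
    (hf : ∀ n, Function.Injective (f n)) :
    ∃ (L : Type) (_ : Group L) (_ : Countable L) (ι : ∀ n, G n →* L),
      (∀ n, Function.Injective (ι n)) ∧ (∀ n x, ι (n + 1) (f n x) = ι n x) ∧
      ∀ y, ∃ n x, ι n x = y := by
  classical
  let T : ∀ i j : ℕ, i ≤ j → (G i →* G j) := limT f
  have : DirectedSystem G (fun i j h => T i j h) :=
    { map_self := fun i x => by
        change limT f i i _ x = x
        rw [limT_self]; rfl
      map_map := fun k j i hij hjk x => limT_trans f i j k hij hjk x }
  refine ⟨DirectLimit G T, inferInstance, ?_, fun n =>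
    { toFun := fun x => (⟦⟨n, x⟩⟧ : DirectLimit G T)
      map_one' := (DirectLimit.one_def n).symm
      map_mul' := fun x y => (DirectLimit.mul_def n x y).symm }, ?_, ?_, ?_⟩
  · change Countable (Quotient _)
    infer_instance
  · intro n
    exact DirectLimit.mk_injective (f := fun i j h => T i j h)
      (fun i j h => limT_inj f hf i j h) n
  · intro n x
    have h1 : T n (n + 1) (Nat.le_succ n) x = f n x := by
      change limT f n (n + 1) _ x = f n x
      rw [limT_succ f n n le_rfl, limT_self]; rfl
    change (⟦⟨n + 1, f n x⟩⟧ : DirectLimit G T) = ⟦⟨n, x⟩⟧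
    rw [← h1]
    exact (DirectLimit.eq_of_le (f := fun i j h => T i j h) ⟨n, x⟩ (n + 1) (Nat.le_succ n)).symm
  · intro y
    obtain ⟨n, x, rfl⟩ := DirectLimit.exists_eq_mk (f := fun i j h => T i j h) y
    exact ⟨n, x, rfl⟩

end Pool.Agent.Helper98.AAD
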