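import Pool.Agent.Helper98.AAD.DefsV

/-!
L2 : limits of `QS` structures (problem MP_aade38_al).
-/

set_option autoImplicit false

namespace Pool.Agent.Helper98.AAD

section l2

variable {G : ℕ → Type} [∀ n, Group (G n)] {f : ∀ n, G n →* G (n + 1)}
    {L : Type} [Group L] {ι : ∀ n, G n →* L} {q : ∀ n, Multiplicative ℚ →* G n}
    {β : ∀ n, ℕ → Subgroup (G n)}

/-- elements can be moved to later stages -/
theorem l2_up (hf : ∀ n x, ι (n + 1) (f n x) = ι n x)
    (he : ∀ n, QEmb (f n) (q n) (β n) (q (n + 1)) (β (n + 1))) (n m : ℕ) (h : n ≤ m) (x : G n) :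
    ∃ y : G m, ι m y = ι n x ∧ ∀ j, y ∈ β m j ↔ x ∈ β n j := by
  induction m, h using Nat.le_induction with
  | base => exact ⟨x, rfl, fun _ => Iff.rfl⟩
  | succ m _ ih =>
    obtain ⟨y, hy, hy'⟩ := ih
    exact ⟨f m y, by rw [hf, hy], fun j => ((he m).hβ j y).trans (hy' j)⟩

theorem l2_q (hf : ∀ n x, ι (n + 1) (f n x) = ι n x)
    (he : ∀ n, QEmb (f n) (q n) (β n) (q (n + 1)) (β (n + 1))) (n : ℕ) (t : Multiplicative ℚ) :
    ι n (q n t) = ι 0 (q 0 t) := by
  induction n with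
  | zero => rfl
  | succ n ih => rw [← (he n).hq, hf, ih]

/-- membership in the limit level -/
theorem l2_mem (hf : ∀ n x, ι (n + 1) (f n x) = ι n x)
    (he : ∀ n, QEmb (f n) (q n) (β n) (q (n + 1)) (β (n + 1))) (j : ℕ) (x : L) :
    x ∈ (⨆ n, (β n j).map (ι n)) ↔ ∃ n, ∃ y ∈ β n j, ι n y = x := by
  have hm : Monotone (fun n => (β n j).map (ι n)) := by
    apply monotone_nat_of_le_succ
    rintro n _ ⟨y, hy, rfl⟩
    exact ⟨f n y, ((he n).hβ j y).2 hy, hf n y⟩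
  rw [Subgroup.mem_iSup_of_directed hm.directed_le]
  rfl

theorem l2_hβ (hι : ∀ n, Function.Injective (ι n)) (hf : ∀ n x, ι (n + 1) (f n x) = ι n x)
    (he : ∀ n, QEmb (f n) (q n) (β n) (q (n + 1)) (β (n + 1))) (n j : ℕ) (x : G n) :
    ι n x ∈ (⨆ n, (β n j).map (ι n)) ↔ x ∈ β n j := by
  constructor
  · intro hx
    obtain ⟨m, y, hy, e⟩ := (l2_mem hf he j _).1 hx
    obtain ⟨x', hx', hx''⟩ := l2_up hf he n (max n m) (le_max_left _ _) x
    obtain ⟨y', hy', hy''⟩ := l2_up hf he m (max n m) (le_max_right _ _) y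
    have : x' = y' := hι _ (by rw [hx', hy', e])
    rw [← hx'', this, hy'']
    exact hy
  · intro hx
    exact (l2_mem hf he j _).2 ⟨n, x, hx, rfl⟩

/-- lists can be lifted to finite stages -/
theorem l2_list (hf : ∀ n x, ι (n + 1) (f n x) = ι n x) (hL : ∀ y, ∃ n x, ι n x = y)
    (he : ∀ n, QEmb (f n) (q n) (β n) (q (n + 1)) (β (n + 1))) (l : List (L × L)) :
    ∃ n, ∀ m, n ≤ m → ∃ l' : List (G m × G m), l'.map (Prod.map (ι m) (ι m)) = l := by
  induction l with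
  | nil => exact ⟨0, fun m _ => ⟨[], rfl⟩⟩
  | cons p l ih =>
    obtain ⟨n, hn⟩ := ih
    obtain ⟨n1, x1, h1⟩ := hL p.1
    obtain ⟨n2, x2, h2⟩ := hL p.2
    refine ⟨max n (max n1 n2), fun m hm => ?_⟩
    obtain ⟨l', hl'⟩ := hn m ((le_max_left _ _).trans hm)
    obtain ⟨y1, hy1, -⟩ := l2_up hf he n1 m (((le_max_left _ _).trans (le_max_right _ _)).trans hm) x1
    obtain ⟨y2, hy2, -⟩ := l2_up hf he n2 m (((le_max_right _ _).trans (le_max_right _ _)).trans hm) x2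
    refine ⟨(y1, y2) :: l', ?_⟩
    rw [List.map_cons, hl', Prod.map_apply, hy1, hy2, h1, h2]

theorem l2_wp {G G' : Type} [Group G] [Group G'] (f : G →* G') (l : List (G × G)) :
    wp (l.map (Prod.map f f)) = f (wp l) := by
  induction l with
  | nil => exact (map_one f).symm
  | cons p l ih =>
    simp only [List.map_cons, wp, Prod.map_fst, Prod.map_snd, map_mul, ih]

end l2

/-- L2 : limits of `QS` structures -/
theorem LIM_qs {G : ℕ → Type} [∀ n, Group (G n)] {f : ∀ n, G n →* G (n + 1)}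
    {L : Type} [Group L] {ι : ∀ n, G n →* L} (hι : ∀ n, Function.Injective (ι n))
    (hf : ∀ n x, ι (n + 1) (f n x) = ι n x) (hL : ∀ y, ∃ n x, ι n x = y)
    {q : ∀ n, Multiplicative ℚ →* G n} {β : ∀ n, ℕ → Subgroup (G n)} (hq : ∀ n, QS (q n) (β n))
    (he : ∀ n, QEmb (f n) (q n) (β n) (q (n + 1)) (β (n + 1))) :
    QS ((ι 0).comp (q 0)) (fun j => ⨆ n, (β n j).map (ι n)) ∧
    ∀ n, QEmb (ι n) (q n) (β n) ((ι 0).comp (q 0)) (fun j => ⨆ n, (β n j).map (ι n)) := by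
  set βL : ℕ → Subgroup L := fun j => ⨆ n, (β n j).map (ι n) with hβL
  have hmem : ∀ j x, x ∈ βL j ↔ ∃ n, ∃ y ∈ β n j, ι n y = x := fun j x => l2_mem hf he j x
  have hβ : ∀ n j x, ι n x ∈ βL j ↔ x ∈ β n j := fun n j x => l2_hβ hι hf he n j x
  have hqn : ∀ n t, ι n (q n t) = ι 0 (q 0 t) := fun n t => l2_q hf he n t
  have mono : Monotone βL := by
    intro i j hij x hx
    obtain ⟨n, y, hy, rfl⟩ := (hmem i x).1 hx
    exact (hβ n j y).2 ((hq n).mono hij hy)
  have hB : ∀ n x, ι n x ∈ Bb βL ↔ x ∈ Bb (β n) := by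
    intro n x
    unfold Bb
    rw [Subgroup.mem_iSup_of_directed mono.directed_le,
      Subgroup.mem_iSup_of_directed (hq n).mono.directed_le]
    exact exists_congr fun j => hβ n j x
  refine ⟨⟨?_, mono, ?_⟩, fun n => ⟨hι n, fun t => hqn n t, fun j x => hβ n j x⟩⟩
  · intro t ht
    exact (hq 0).disj t ((hβ 0 0 _).1 ht)
  · refine ⟨le_iSup βL 0, ?_, ?_, ?_, ?_⟩
    · rintro _ ⟨t, rfl⟩ y hy
      obtain ⟨n, y', hy', rfl⟩ := (hmem 0 y).1 hy
      rw [MonoidHom.comp_apply, ← hqn n t, ← map_mul, ← map_inv, ← map_mul]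
      exact (hβ n 0 _).2 ((hq n).ra.norm _ ⟨t, rfl⟩ y' hy')
    · rintro _ ⟨t, rfl⟩ ht
      exact (hβ 0 0 _).2 ((hq 0).ra.inter _ ⟨t, rfl⟩ ((hB 0 _).1 ht))
    · rw [eq_top_iff]
      intro y _
      obtain ⟨n, x, rfl⟩ := hL y
      have hx : x ∈ Bb (β n) ⊔ (q n).range := by rw [(hq n).ra.gen]; trivial
      have h1 : (Bb (β n) ⊔ (q n).range) ≤
          (Bb βL ⊔ ((ι 0).comp (q 0)).range).comap (ι n) := by
        refine sup_le ?_ ?_
        · intro z hz
          exact Subgroup.mem_sup_left ((hB n z).2 hz)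
        · rintro _ ⟨t, rfl⟩
          exact Subgroup.mem_sup_right ⟨t, (hqn n t).symm⟩
      exact h1 hx
    · intro x hx l hl hne hx'
      obtain ⟨n0, x0, h0⟩ := hL x
      obtain ⟨n1, hn1⟩ := l2_list hf hL he l
      obtain ⟨m, hm0, hm1⟩ : ∃ m, n0 ≤ m ∧ n1 ≤ m := ⟨_, le_max_left _ _, le_max_right _ _⟩
      obtain ⟨l', hl'⟩ := hn1 m hm1
      obtain ⟨x', hx1, -⟩ := l2_up hf he n0 m hm0 x0
      have hRd : ∀ l' : List (G m × G m), Rd (Bb βL) (βL 0) ((ι 0).comp (q 0)).range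
          (l'.map (Prod.map (ι m) (ι m))) → Rd (Bb (β m)) (β m 0) (q m).range l' := by
        intro l'
        induction l' with
        | nil => intro _; trivial
        | cons p l' ih =>
          intro h
          simp only [List.map_cons, Rd] at h
          obtain ⟨⟨t, ht⟩, h2, h3, h4, h5⟩ := h
          refine ⟨⟨t, hι m ?_⟩, fun h => h2 ((hβ m 0 _).2 h), (hB m _).1 h3, ?_, ih h5⟩
          · rw [hqn m t]; exact ht
          · intro hl h
            exact h4 (by simpa using hl) ((hβ m 0 _).2 h)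
      subst hl'
      have e : x * wp (l'.map (Prod.map (ι m) (ι m))) = ι m (x' * wp l') := by
        rw [l2_wp, map_mul, hx1, h0]
      rw [e, hB] at hx'
      rw [← h0, ← hx1, hB] at hx
      exact (hq m).ra.nf x' hx l' (hRd l' hl) (by simpa using hne) hx'

end Pool.Agent.Helper98.AAD
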