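import Pool.Agent.Helper98.AAD.DefsV

/-!
L3 : bookkeeping (problem MP_aade38_al).
-/

set_option autoImplicit false

namespace Pool.Agent.Helper98.AAD

/-- the identity embedding of a state -/
def h68_idHom (s : St) : SHom s s where
  f := MonoidHom.id s.G
  emb :=
    { emb :=
        { inj := fun _ _ h => h
          hq := fun _ => rfl
          hβ := fun _ _ => Iff.rfl }
      hΓ := (Subgroup.map_id s.Γ).symm
      hE := fun _ h => h
      hN := fun _ h => h }

/-- states with a history of tasks -/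
structure h68_Hist where
  s : St
  h : ℕ → ℕ → List s.G

/-- L3 : bookkeeping -/
theorem BK (step : ∀ (s : St) (l : List s.G), ∃ (t : St) (f : SHom s t), Post s t f.f l) (s0 : St) :
    ∃ (s : ℕ → St) (f : ∀ n, SHom (s n) (s (n + 1))) (_ : SHom s0 (s 0)),
      ∀ n (l : List (s n).G), ∃ (m : ℕ) (l' : List (s m).G), n ≤ m ∧ Push f n m l l' ∧
        Post (s m) (s (m + 1)) (f m).f l' := by
  choose t f hf using step
  have hen : ∀ s : St, ∃ e : ℕ → List s.G, Function.Surjective e := fun s =>
    exists_surjective_nat (List s.G)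
  choose e he using hen
  let H : ℕ → h68_Hist := fun n => Nat.rec
    (⟨s0, fun _ k => e s0 k⟩ : h68_Hist)
    (fun m Hm => (⟨t Hm.s (Hm.h (Nat.unpair m).1 (Nat.unpair m).2), fun n k =>
      if n ≤ m then (Hm.h n k).map (f Hm.s (Hm.h (Nat.unpair m).1 (Nat.unpair m).2)).f
      else e (t Hm.s (Hm.h (Nat.unpair m).1 (Nat.unpair m).2)) k⟩ : h68_Hist)) n
  let s : ℕ → St := fun n => (H n).s
  let g : ∀ n, SHom (s n) (s (n + 1)) := fun m =>
    f (H m).s ((H m).h (Nat.unpair m).1 (Nat.unpair m).2)
  have hpost : ∀ m, Post (s m) (s (m + 1)) (g m).f ((H m).h (Nat.unpair m).1 (Nat.unpair m).2) :=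
    fun m => hf (H m).s ((H m).h (Nat.unpair m).1 (Nat.unpair m).2)
  have hdiag : ∀ n k, (H n).h n k = e (s n) k := by
    intro n k
    cases n with
    | zero => rfl
    | succ n => exact if_neg (Nat.not_succ_le_self n)
  have hsucc : ∀ n m k, n ≤ m → (H (m + 1)).h n k = ((H m).h n k).map (g m).f := by
    intro n m k hnm
    exact if_pos hnm
  have hpush : ∀ n m k, n ≤ m → Push g n m (e (s n) k) ((H m).h n k) := by
    intro n m k hnm
    induction m, hnm using Nat.le_induction with
    | base =>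
      rw [hdiag n k]
      exact Push.refl n _
    | succ m hnm ih =>
      rw [hsucc n m k hnm]
      exact Push.succ n m _ _ ih
  refine ⟨s, g, h68_idHom s0, fun n l => ?_⟩
  obtain ⟨k, rfl⟩ := he (s n) l
  refine ⟨Nat.pair n k, (H (Nat.pair n k)).h n k, Nat.left_le_pair n k,
    hpush n _ k (Nat.left_le_pair n k), ?_⟩
  have h1 := hpost (Nat.pair n k)
  rw [Nat.unpair_pair] at h1
  exact h1

end Pool.Agent.Helper98.AAD
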