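import Pool.Agent.Helper98.AAD.Q1

/-!
Lengths in `QS` structures: nice elements.
-/

set_option autoImplicit false

namespace Pool.Agent.Helper98.AAD

variable {G : Type} [Group G] {q : Multiplicative ℚ →* G} {β : ℕ → Subgroup G}

/-- an element with first entry in `(Γ ⊓ B) C` can be shortened -/
theorem q2_short (hq : QS q β) {Γ : Subgroup G} (hQ : q.range ≤ Γ)
    {b : G} (hb : b ∈ Γ ⊓ Bb β) {c : G} (hc : c ∈ β 0) {l : List (G × G)} (hl : Rq q β l)
    (hne : l ≠ []) : ∃ a ∈ Γ, ql q β (a * (b * c * wp l)) < ql q β (b * c * wp l) := by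
  obtain ⟨hbΓ, hbB⟩ := Subgroup.mem_inf.1 hb
  obtain ⟨⟨t, x⟩, l', rfl⟩ := List.exists_cons_of_ne_nil hne
  have hl0 := hl
  obtain ⟨h1, h2, h3, _, h5⟩ := hl
  simp only at h1 h2 h3
  have h := hq.ra
  have hti : t⁻¹ ∈ q.range := inv_mem h1
  have hc' : t⁻¹ * c * t ∈ β 0 := by
    have := h.norm t⁻¹ hti c hc
    rwa [inv_inv] at this
  refine ⟨t⁻¹ * b⁻¹, mul_mem (hQ hti) (inv_mem hbΓ), ?_⟩
  have e1 : t⁻¹ * b⁻¹ * (b * c * wp ((t, x) :: l')) = (t⁻¹ * c * t * x) * wp l' := by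
    simp only [wp]
    group
  have h8 : ql q β (b * c * wp ((t, x) :: l')) = l'.length + 1 := by
    unfold ql
    rw [h.rlen_form (mul_mem hbB (h.le hc)) hl0]
    rfl
  have h9 : ql q β ((t⁻¹ * c * t * x) * wp l') = l'.length := by
    unfold ql
    exact h.rlen_form (mul_mem (h.le hc') h3) h5
  rw [e1, h9, h8]
  omega

theorem Nice.of_first (hq : QS q β) {Γ : Subgroup G} (hQ : q.range ≤ Γ)
    (hg : Γ ≤ (Γ ⊓ Bb β) ⊔ q.range) {x0 : G} (hx0 : x0 ∈ Bb β) {l : List (G × G)}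
    (hl : Rq q β l) (hne : l ≠ []) (hx : ∀ b ∈ Γ ⊓ Bb β, ∀ c ∈ β 0, x0 ≠ b * c)
    (hx' : ∀ b ∈ Γ ⊓ Bb β, ∀ c ∈ β 0, (l.getLast hne).2 ≠ c * b) : Nice q β Γ (x0 * wp l) := by
  have h := hq.ra
  have hlen : ql q β (x0 * wp l) = l.length := h.rlen_form hx0 hl
  refine ⟨?_, ?_⟩
  · rw [hlen]
    exact List.length_pos_of_ne_nil hne
  · intro a ha b hb
    obtain ⟨b0, hb0, lb, hlb, hlbΓ, rfl⟩ := h.formIn hQ hg hb
    by_cases hlbne : lb = []
    · subst hlbne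
      have e1 : b0 * wp ([] : List (G × G)) = b0 := by simp [wp]
      rw [e1]
      have h2 := LN.of_first hq hQ hg hx0 hl hx a ha
      unfold ql at h2 ⊢
      rw [h.rlen_mul_right hb0.2, h2, h.rlen_eq_zero.2 hb0.2, add_zero]
    · obtain ⟨h1, h2⟩ := Rd.cat h.le hl hlb hne hb0.2 (fun _ hh => by
        refine hx' _ ((Γ ⊓ Bb β).inv_mem hb0) _ hh ?_
        group)
      have e1 : a * (x0 * wp l) * (b0 * wp lb) = a * (x0 * (wp l * (b0 * wp lb))) := by group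
      rw [e1, h2, LN.of_first hq hQ hg hx0 h1 hx a ha, hlen]
      unfold ql
      rw [h.rlen_form hx0 h1, h.rlen_form hb0.2 hlb, q1_len_cat hne]
      ring

theorem Nice.last (hq : QS q β) {Γ : Subgroup G} (hQ : q.range ≤ Γ) {x0 : G} (hx0 : x0 ∈ Bb β)
    {l : List (G × G)} (hl : Rq q β l) (hne : l ≠ []) (hx : Nice q β Γ (x0 * wp l)) :
    (∀ b ∈ Γ ⊓ Bb β, ∀ c ∈ β 0, x0 ≠ b * c) ∧
    ∀ b ∈ Γ ⊓ Bb β, ∀ c ∈ β 0, (l.getLast hne).2 ≠ c * b := by
  have h := hq.ra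
  have h10 : ql q β (1 : G) = 0 := h.rlen_eq_zero.2 (one_mem _)
  constructor
  · refine LN.first hq hQ hx0 hl hne ?_
    intro a ha
    have h1 := hx.2 a ha 1 (one_mem _)
    rwa [mul_one, h10, add_zero] at h1
  · intro b hb c hc e
    obtain ⟨l', hl', hlen, he, -⟩ := h.invForm hx0 hl hne
    have hl'ne : l' ≠ [] := by
      rintro rfl
      have := List.length_pos_of_ne_nil hne
      simp at hlen
      omega
    have hB : (l.getLast hne).2 ∈ Bb β := by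
      rw [e]
      exact mul_mem (h.le hc) (Subgroup.mem_inf.1 hb).2
    have hLN : LN q β Γ ((l.getLast hne).2⁻¹ * wp l') := by
      intro a ha
      rw [← he]
      have h1 := hx.2 1 (one_mem _) a⁻¹ (inv_mem ha)
      rw [one_mul, h10, zero_add] at h1
      have h2 : ql q β (a * (x0 * wp l)⁻¹) = ql q β (x0 * wp l * a⁻¹) := by
        unfold ql
        rw [← h.rlen_inv]
        congr 1
        group
      have h3 : ql q β a⁻¹ = ql q β a := h.rlen_inv a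
      have h4 : ql q β (x0 * wp l)⁻¹ = ql q β (x0 * wp l) := h.rlen_inv _
      rw [h2, h1, h3, h4, add_comm]
    refine LN.first hq hQ (inv_mem hB) hl' hl'ne hLN b⁻¹ ((Γ ⊓ Bb β).inv_mem hb) c⁻¹
      (inv_mem hc) ?_
    rw [e, mul_inv_rev]

/-- Q2b : nice elements of double cosets which do not meet `B` -/
theorem exists_nice (hq : QS q β) {Γ : Subgroup G} (hQ : q.range ≤ Γ)
    (hg : Γ ≤ (Γ ⊓ Bb β) ⊔ q.range) {v : G} (hv : ∀ a ∈ Γ, ∀ b ∈ Γ, a * v * b ∉ Bb β) :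
    ∃ a ∈ Γ, ∃ b ∈ Γ, ∃ g', Nice q β Γ g' ∧ v = a * g' * b := by
  classical
  have h := hq.ra
  have hex : ∃ n, ∃ a ∈ Γ, ∃ b ∈ Γ, ql q β (a * v * b) = n :=
    ⟨_, 1, one_mem _, 1, one_mem _, rfl⟩
  obtain ⟨a, ha, b, hb, hn⟩ := Nat.find_spec hex
  have hmin : ∀ a' ∈ Γ, ∀ b' ∈ Γ, ql q β (a * v * b) ≤ ql q β (a' * v * b') := by
    intro a' ha' b' hb'
    rw [hn]
    exact Nat.find_min' hex ⟨a', ha', b', hb', rfl⟩
  refine ⟨a⁻¹, inv_mem ha, b⁻¹, inv_mem hb, a * v * b, ?_, by group⟩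
  obtain ⟨x0, hx0, l, hl, hx⟩ := h.form (a * v * b)
  have hne : l ≠ [] := by
    rintro rfl
    apply hv a ha b hb
    rw [hx]
    simpa [wp] using hx0
  rw [hx]
  have hlast : (l.getLast hne).2 ∈ Bb β := by
    obtain ⟨h1, h2⟩ := Rd.snoc h.le hl hne (one_mem (Bb β))
    have h3 : ∀ (l : List (G × G)), Rq q β l → ∀ p ∈ l, p.2 ∈ Bb β := by
      intro l
      induction l with
      | nil => intro _ p hp; simp at hp
      | cons a l ih =>
        rintro ⟨_, _, h3, _, h5⟩ p hp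
        rw [List.mem_cons] at hp
        rcases hp with rfl | hp
        · exact h3
        · exact ih h5 p hp
    exact h3 l hl _ (List.getLast_mem hne)
  refine Nice.of_first hq hQ hg hx0 hl hne ?_ ?_
  · intro b1 hb1 c hc e
    obtain ⟨a', ha', hlt⟩ := q2_short hq hQ hb1 hc hl hne
    rw [← e, ← hx] at hlt
    have h1 := hmin (a' * a) (mul_mem ha' ha) b hb
    have e2 : a' * a * v * b = a' * (a * v * b) := by group
    rw [e2] at h1
    omega
  · intro b1 hb1 c hc e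
    obtain ⟨l', hl', hlen, he, -⟩ := h.invForm hx0 hl hne
    have hl'ne : l' ≠ [] := by
      rintro rfl
      have := List.length_pos_of_ne_nil hne
      simp at hlen
      omega
    obtain ⟨a', ha', hlt⟩ := q2_short hq hQ ((Γ ⊓ Bb β).inv_mem hb1) (inv_mem hc) hl' hl'ne
    have e3 : (l.getLast hne).2⁻¹ = b1⁻¹ * c⁻¹ := by rw [e, mul_inv_rev]
    rw [← e3, ← he, ← hx] at hlt
    have h1 := hmin a ha (b * a'⁻¹) (mul_mem hb (inv_mem ha'))
    have h2 : ql q β (a' * (a * v * b)⁻¹) = ql q β (a * v * (b * a'⁻¹)) := by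
      unfold ql
      rw [← h.rlen_inv]
      congr 1
      group
    have h4 : ql q β (a * v * b)⁻¹ = ql q β (a * v * b) := h.rlen_inv _
    rw [h2, h4] at hlt
    omega

end Pool.Agent.Helper98.AAD
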