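import Pool.Agent.Helper98.AAD.Q1
import Pool.Agent.Helper98.AAD.Q2
import Pool.Agent.Helper98.AAD.Q3
import Pool.Agent.Helper98.AAD.Q6
import Pool.Agent.Helper98.AAD.R1
import Pool.Agent.Helper98.AAD.R3

set_option autoImplicit false

namespace Pool.Agent.Helper98.AAD

variable {G : Type} [Group G] {q : Multiplicative ℚ →* G} {β : ℕ → Subgroup G}

theorem m1_split {Γ E : Subgroup G} (h : IsSt q β Γ E) {K : ℕ}
    (hK : ∀ g, g ∉ Γ ⊔ E → ∀ a ∈ Γ, ∀ b ∈ Γ,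
      (∃ x ∈ Bb β, g * a * x ∈ Γ) → (∃ x ∈ Bb β, g * b * x ∈ Γ) → ql q β (a⁻¹ * b) ≤ K)
    {b m : G} (hb : b ∈ Bb β) (hbN : b ∉ Γ ⊔ E) (hm : m ∈ Γ) (hmK : K < ql q β m) :
    ∃ a3 ∈ Γ, ∃ n, LN q β Γ n ∧ b * m = a3 * n ∧ ql q β a3 ≤ K := by
  classical
  have hra := h.qs.ra
  obtain ⟨a3, ha3, hmin⟩ : ∃ a3 ∈ Γ, ∀ a' ∈ Γ,
      ql q β (a3⁻¹ * (b * m)) ≤ ql q β (a'⁻¹ * (b * m)) := by
    have hne : ∃ k, ∃ a ∈ Γ, ql q β (a⁻¹ * (b * m)) = k := ⟨_, 1, Γ.one_mem, rfl⟩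
    obtain ⟨a, ha, hak⟩ := Nat.find_spec hne
    exact ⟨a, ha, fun a' ha' => by rw [hak]; exact Nat.find_min' hne ⟨a', ha', rfl⟩⟩
  have e1 : b * m = a3 * (a3⁻¹ * (b * m)) := by group
  have h1b : ∃ x ∈ Bb β, b * 1 * x ∈ Γ := ⟨b⁻¹, (Bb β).inv_mem hb, by simp⟩
  obtain ⟨x0, hx0, l, hl, hn⟩ := hra.form (a3⁻¹ * (b * m))
  have hLN : LN q β Γ (a3⁻¹ * (b * m)) := by
    rcases l with _ | ⟨⟨t, x1⟩, l'⟩
    · exfalso
      have hnB : a3⁻¹ * (b * m) ∈ Bb β := by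
        rw [hn]
        simpa [wp] using hx0
      have h2 := hK b hbN 1 Γ.one_mem m hm h1b
        ⟨(a3⁻¹ * (b * m))⁻¹, (Bb β).inv_mem hnB, by
          have : b * m * (a3⁻¹ * (b * m))⁻¹ = a3 := by group
          rwa [this]⟩
      rw [inv_one, one_mul] at h2
      omega
    · rw [hn]
      refine LN.of_first h.qs h.QΓ h.gen hx0 hl ?_
      intro b' hb' c hc hx
      obtain ⟨htL, htY, hx1, hx1Y, hl'⟩ := hl
      have htΓ : t ∈ Γ := h.QΓ htL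
      have hct : t⁻¹ * c * t ∈ β 0 := by
        have := hra.norm t⁻¹ (q.range.inv_mem htL) c hc
        rwa [inv_inv] at this
      have h3 := hmin (a3 * (b' * t)) (Γ.mul_mem ha3 (Γ.mul_mem (Subgroup.mem_inf.1 hb').1 htΓ))
      have h4 : (a3 * (b' * t))⁻¹ * (b * m) = (t⁻¹ * c * t * x1) * wp l' := by
        have : (a3 * (b' * t))⁻¹ * (b * m) = (b' * t)⁻¹ * (a3⁻¹ * (b * m)) := by group
        rw [this, hn, hx]
        simp only [wp]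
        group
      have h5 : ql q β ((a3 * (b' * t))⁻¹ * (b * m)) = l'.length := by
        rw [h4]
        exact hra.rlen_form ((Bb β).mul_mem (hra.le hct) hx1) hl'
      have h6 : ql q β (a3⁻¹ * (b * m)) = l'.length + 1 := by
        rw [hn]
        exact hra.rlen_form hx0 (l := (t, x1) :: l') ⟨htL, htY, hx1, hx1Y, hl'⟩
      omega
  have e2 : ql q β m = ql q β a3 + ql q β (a3⁻¹ * (b * m)) := by
    rw [← hLN a3 ha3, ← e1]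
    exact (hra.rlen_mul_left hb m).symm
  have e3 : ql q β (b⁻¹ * a3) = ql q β a3 := hra.rlen_mul_left ((Bb β).inv_mem hb) a3
  have e4 : b⁻¹ * a3 * (a3⁻¹ * (b * m)) = m := by group
  obtain ⟨b', hb', hb'Γ⟩ := conv h.qs h.QΓ h.gen (x := b⁻¹ * a3) (y := a3⁻¹ * (b * m))
    (by rw [e4]; exact hm) (by rw [e4, e3, e2])
  refine ⟨a3, ha3, a3⁻¹ * (b * m), hLN, e1, ?_⟩
  have h7 := hK b hbN 1 Γ.one_mem (b⁻¹ * a3 * b') hb'Γ h1b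
    ⟨b'⁻¹, (Bb β).inv_mem hb', by
      have : b * (b⁻¹ * a3 * b') * b'⁻¹ = a3 := by group
      rwa [this]⟩
  rw [inv_one, one_mul] at h7
  have h8 : ql q β (b⁻¹ * a3 * b') = ql q β (b⁻¹ * a3) := hra.rlen_mul_right hb' _
  omega

theorem m1_base {Γ E : Subgroup G} (h : IsSt q β Γ E) {K : ℕ}
    (hK : ∀ g, g ∉ Γ ⊔ E → ∀ a ∈ Γ, ∀ b ∈ Γ,
      (∃ x ∈ Bb β, g * a * x ∈ Γ) → (∃ x ∈ Bb β, g * b * x ∈ Γ) → ql q β (a⁻¹ * b) ≤ K)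
    {b m : G} (hb : b ∈ Bb β) (hbN : b ∉ Γ ⊔ E) (hm : m ∈ Γ) (hmK : 2 * K < ql q β m)
    {a c : G} (ha : a ∈ Γ) (hc : c ∈ Γ) : a * (b * m * b⁻¹) * c ∉ Bb β := by
  intro hx
  have hra := h.qs.ra
  have hinv : ∀ x, ql q β x⁻¹ = ql q β x := fun x => hra.rlen_inv x
  have hmul : ∀ x y, ql q β (x * y) ≤ ql q β x + ql q β y := fun x y => hra.rlen_mul_le x y
  obtain ⟨a3, ha3, n, hn, e3, h3⟩ := m1_split h hK hb hbN hm (by omega)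
  obtain ⟨a4, ha4, n', hn', e4, h4⟩ := m1_split h hK hb hbN (Γ.inv_mem hm)
    (by rw [hinv]; omega)
  -- lengths of the second factors
  have l3 : ql q β m = ql q β a3 + ql q β n := by
    rw [← hn a3 ha3, ← e3]
    exact (hra.rlen_mul_left hb m).symm
  have l4 : ql q β m = ql q β a4 + ql q β n' := by
    rw [← hn' a4 ha4, ← e4, ← hinv m]
    exact (hra.rlen_mul_left hb m⁻¹).symm
  -- first inequality
  have f1 : ql q β (a * a3) + ql q β n = ql q β c := by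
    rw [← hn (a * a3) (Γ.mul_mem ha ha3)]
    have : a * a3 * n = a * (b * m * b⁻¹) * c * (c⁻¹ * b) := by
      rw [mul_assoc a a3 n, ← e3]
      group
    rw [this]
    have h5 : ql q β (a * (b * m * b⁻¹) * c * (c⁻¹ * b)) = ql q β (c⁻¹ * b) :=
      hra.rlen_mul_left hx _
    have h6 : ql q β (c⁻¹ * b) = ql q β c⁻¹ := hra.rlen_mul_right hb _
    rw [h5, h6, hinv]
  have f2 : ql q β (c⁻¹ * a4) + ql q β n' = ql q β a := by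
    rw [← hn' (c⁻¹ * a4) (Γ.mul_mem (Γ.inv_mem hc) ha4)]
    have : c⁻¹ * a4 * n' = (a * (b * m * b⁻¹) * c)⁻¹ * (a * b) := by
      rw [mul_assoc c⁻¹ a4 n', ← e4]
      group
    rw [this]
    have h5 : ql q β ((a * (b * m * b⁻¹) * c)⁻¹ * (a * b)) = ql q β (a * b) :=
      hra.rlen_mul_left ((Bb β).inv_mem hx) _
    have h6 : ql q β (a * b) = ql q β a := hra.rlen_mul_right hb _
    rw [h5, h6]
  have g1 : ql q β a ≤ ql q β (a * a3) + ql q β a3 := by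
    have h5 := hmul (a * a3) a3⁻¹
    rw [hinv] at h5
    have : a * a3 * a3⁻¹ = a := by group
    rwa [this] at h5
  have g2 : ql q β c ≤ ql q β (c⁻¹ * a4) + ql q β a4 := by
    have h5 := hmul (c⁻¹ * a4) a4⁻¹
    rw [hinv] at h5
    have : c⁻¹ * a4 * a4⁻¹ = c⁻¹ := by group
    rw [this, hinv] at h5
    exact h5
  omega

/-- M1 -/
theorem IsSt.mex {Γ E : Subgroup G} (h : IsSt q β Γ E) : ∀ g, g ∉ Γ ⊔ E → ∀ y ∈ Γ, CycRed q β y →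
      ∃ (M : ℕ) (a b g' : G), a ∈ Γ ∧ b ∈ Γ ∧ Nice q β Γ g' ∧ g * y ^ M * g⁻¹ = a * g' * b := by
  intro g hg y hy hyc
  have hra := h.qs.ra
  have hinv : ∀ x, ql q β x⁻¹ = ql q β x := fun x => hra.rlen_inv x
  have hmul : ∀ x y, ql q β (x * y) ≤ ql q β x + ql q β y := fun x y => hra.rlen_mul_le x y
  obtain ⟨K, hK⟩ := h.bd'
  have hpow : ∀ (a : G) (M : ℕ), M ≤ ql q β (a * y ^ M * a⁻¹) + 2 * ql q β a := by
    intro a M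
    have h1 := hyc.pow h.qs M
    have h2 : y ^ M = a⁻¹ * (a * y ^ M * a⁻¹) * a := by group
    have h3 := hmul (a⁻¹ * (a * y ^ M * a⁻¹)) a
    have h4 := hmul a⁻¹ (a * y ^ M * a⁻¹)
    rw [← h2] at h3
    rw [hinv] at h4
    omega
  suffices H : ∃ M : ℕ, ∀ a ∈ Γ, ∀ b ∈ Γ, a * (g * y ^ M * g⁻¹) * b ∉ Bb β by
    obtain ⟨M, hM⟩ := H
    obtain ⟨a, ha, b, hb, g', hg', e⟩ := exists_nice h.qs h.QΓ h.gen hM
    exact ⟨M, a, b, g', ha, hb, hg', e⟩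
  by_cases hcase : ∀ a ∈ Γ, ∀ b ∈ Γ, a * g * b ∉ Bb β
  · obtain ⟨a1, ha1, a2, ha2, g0, hg0, rfl⟩ := exists_nice h.qs h.QΓ h.gen hcase
    refine ⟨2 * ql q β a2 + 1, ?_⟩
    intro a ha b hb hB
    have hm : a2 * y ^ (2 * ql q β a2 + 1) * a2⁻¹ ∈ Γ :=
      Γ.mul_mem (Γ.mul_mem ha2 (Γ.pow_mem hy _)) (Γ.inv_mem ha2)
    have hlm := hpow a2 (2 * ql q β a2 + 1)
    have hone : ql q β (1 : G) = 0 := hra.rlen_eq_zero.2 (Bb β).one_mem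
    have hLN : ∀ u ∈ Γ, LN q β Γ (g0⁻¹ * u) := by
      intro u hu v hv
      have h1 := hg0.2 u⁻¹ (Γ.inv_mem hu) v⁻¹ (Γ.inv_mem hv)
      have h2 := hg0.2 u⁻¹ (Γ.inv_mem hu) 1 Γ.one_mem
      rw [← hinv (v * (g0⁻¹ * u)), ← hinv (g0⁻¹ * u)]
      have e1 : (v * (g0⁻¹ * u))⁻¹ = u⁻¹ * g0 * v⁻¹ := by group
      have e2 : (g0⁻¹ * u)⁻¹ = u⁻¹ * g0 * 1 := by group
      rw [e1, e2, h1, h2, hinv v, hone]
      omega
    have hadd := LN.add h.qs h.QΓ h.gen (hLN (a * a1)⁻¹ (Γ.inv_mem (Γ.mul_mem ha ha1)))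
      (hLN (a1⁻¹ * b) (Γ.mul_mem (Γ.inv_mem ha1) hb)) hm (by omega)
    have e3 : (g0⁻¹ * (a * a1)⁻¹)⁻¹ * (a2 * y ^ (2 * ql q β a2 + 1) * a2⁻¹) * (g0⁻¹ * (a1⁻¹ * b)) =
        a * (a1 * g0 * a2 * y ^ (2 * ql q β a2 + 1) * (a1 * g0 * a2)⁻¹) * b := by
      group
    rw [e3] at hadd
    have h0 : ql q β (a * (a1 * g0 * a2 * y ^ (2 * ql q β a2 + 1) * (a1 * g0 * a2)⁻¹) * b) = 0 :=
      hra.rlen_eq_zero.2 hB
    omega
  · push Not at hcase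
    obtain ⟨a, ha, b, hb, hB⟩ := hcase
    have hbN : a * g * b ∉ Γ ⊔ E := by
      intro hmem
      apply hg
      have : g = a⁻¹ * (a * g * b) * b⁻¹ := by group
      rw [this]
      exact (Γ ⊔ E).mul_mem ((Γ ⊔ E).mul_mem (Subgroup.mem_sup_left (Γ.inv_mem ha)) hmem)
        (Subgroup.mem_sup_left (Γ.inv_mem hb))
    refine ⟨2 * ql q β b⁻¹ + 2 * K + 1, ?_⟩
    intro a' ha' c' hc' hx
    have hm : b⁻¹ * y ^ (2 * ql q β b⁻¹ + 2 * K + 1) * b⁻¹⁻¹ ∈ Γ :=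
      Γ.mul_mem (Γ.mul_mem (Γ.inv_mem hb) (Γ.pow_mem hy _)) (Γ.inv_mem (Γ.inv_mem hb))
    have hlm := hpow b⁻¹ (2 * ql q β b⁻¹ + 2 * K + 1)
    refine m1_base h hK hB hbN hm (by omega) (Γ.mul_mem ha' (Γ.inv_mem ha))
      (Γ.mul_mem ha hc') ?_
    have e : a' * a⁻¹ * (a * g * b * (b⁻¹ * y ^ (2 * ql q β b⁻¹ + 2 * K + 1) * b⁻¹⁻¹) *
        (a * g * b)⁻¹) * (a * c') = a' * (g * y ^ (2 * ql q β b⁻¹ + 2 * K + 1) * g⁻¹) * c' := by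
      group
    rw [e]
    exact hx

end Pool.Agent.Helper98.AAD
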