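import Pool.Agent.Helper98.AAD.Q10
import Pool.Agent.Helper98.AAD.R3
import Pool.Agent.Helper98.AAD.R4
import Pool.Agent.Helper98.AAD.Q1

/-!
Simple families of pairs (T1 of project AAD, problem MP_aade38_al).
-/

set_option autoImplicit false

namespace Pool.Agent.Helper98.AAD

section tasks

variable {G : Type} [Group G] {q : Multiplicative ℚ →* G} {β : ℕ → Subgroup G}

/-- T2 : the trivial family -/
theorem fam_triv (hq : QS q β) :
    Fam q β ⊥ ⊥ (MulEquiv.refl _) {h | ∃ t, h = (q t, q t)} := by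
  have _ := hq
  refine ⟨⟨1, by simp⟩, ?_, ?_, ?_, ?_⟩
  · rintro h ⟨t, rfl⟩ s
    exact ⟨t * s, by simp⟩
  · rintro h ⟨t, rfl⟩ ⟨p, hp⟩
    rw [Subgroup.mem_bot] at hp
    subst hp
    exact ⟨t, by simp⟩
  · rintro h ⟨t, rfl⟩
    refine Relation.ReflTransGen.single ⟨⟨1, by simp⟩, ⟨t, rfl⟩, Or.inl ⟨t, by simp⟩⟩
  · rintro j h ⟨t, rfl⟩ k ⟨s, rfl⟩
    exact Iff.rfl

theorem sameLev_one_t1 : SameLev β (1 : G) 1 := fun _ => Iff.rfl

theorem rq_of_forall₂_t1 {l l' : List (G × G)}
    (h : List.Forall₂ (fun p p' => p.1 = p'.1 ∧ SameLev β p.2 p'.2) l l')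
    (hm : ∀ {x : G}, x ∈ Bb β ↔ ∃ j, x ∈ β j) (hl : Rq q β l) : Rq q β l' := by
  induction h with
  | nil => exact trivial
  | @cons p p' l l' hp hll ih =>
    obtain ⟨h1, h2, h3, h4, h5⟩ := hl
    refine ⟨hp.1 ▸ h1, hp.1 ▸ h2, ?_, ?_, ih h5⟩
    · obtain ⟨j, hj⟩ := hm.1 h3
      exact hm.2 ⟨j, (hp.2 j).1 hj⟩
    · intro hne hmem
      refine h4 ?_ ((hp.2 0).2 hmem)
      rintro rfl
      cases hll
      exact hne rfl

/-- T1 : the family for a pair of elements of the same shape -/
theorem fam_sh (hq : QS q β) {x x' : G} (h : Sh q β x x') :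
    ∃ A : Set (G × G), Fam q β ⊥ ⊥ (MulEquiv.refl _) A ∧ (x⁻¹, x'⁻¹) ∈ A ∧
      ∃ R : ℕ, ∀ h ∈ A, ql q β h.1 ≤ R ∧ ql q β h.2 ≤ R := by
  obtain ⟨b, b', l, l', hb, hbb, hl, hll, hx, hx'⟩ := Sh.inv hq h
  have hm : ∀ {x : G}, x ∈ Bb β ↔ ∃ j, x ∈ β j := fun {x} => mem_Bb hq.mono
  have hl' : Rq q β l' := rq_of_forall₂_t1 hll hm hl
  have hb' : b' ∈ Bb β := by
    obtain ⟨j, hj⟩ := hm.1 hb
    exact hm.2 ⟨j, (hbb j).1 hj⟩
  have hlen : l.length = l'.length := hll.length_eq
  let A : Set (G × G) := {h | (∃ t, h = (q t, q t)) ∨ ∃ (i : ℕ) (t : Multiplicative ℚ),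
    h = (b * wp (l.take i) * q t, b' * wp (l'.take i) * q t)}
  -- shapes of pieces
  have hpre : ∀ i, Sh q β (b * wp (l.take i)) (b' * wp (l'.take i)) := fun i =>
    ⟨b, b', l.take i, l'.take i, hb, hbb, Rd.take hl i, List.forall₂_take i hll, rfl, rfl⟩
  have hmid : ∀ i k, i ≤ k → Sh q β ((b * wp (l.take i))⁻¹ * (b * wp (l.take k)))
      ((b' * wp (l'.take i))⁻¹ * (b' * wp (l'.take k))) := by
    intro i k hik
    have e : ∀ m : List (G × G), m.take k = m.take i ++ (m.take k).drop i := by
      intro m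
      have := List.take_append_drop i (m.take k)
      rw [List.take_take, min_eq_left hik] at this
      exact this.symm
    have e1 : ∀ (c : G) (m : List (G × G)), (c * wp (m.take i))⁻¹ * (c * wp (m.take k)) =
        1 * wp ((m.take k).drop i) := by
      intro c m
      conv_lhs => rw [e m]
      rw [wp_append]
      group
    exact ⟨1, 1, (l.take k).drop i, (l'.take k).drop i, one_mem _, sameLev_one_t1,
      Rd.drop (Rd.take hl k) i, List.forall₂_drop i (List.forall₂_take k hll), e1 b l, e1 b' l'⟩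
  have hconj : ∀ {u u' : G} (s t : Multiplicative ℚ), Sh q β u u' →
      Sh q β ((q s)⁻¹ * (u * q t)) ((q s)⁻¹ * (u' * q t)) := by
    intro u u' s t hu
    have := Sh.q_mul hq (Sh.mul_q hq hu t) s⁻¹
    simpa using this
  have hlevinv : ∀ {u u' : G} (j : ℕ), (u ∈ β j ↔ u' ∈ β j) → (u⁻¹ ∈ β j ↔ u'⁻¹ ∈ β j) := by
    intro u u' j hu
    rw [inv_mem_iff, inv_mem_iff]
    exact hu
  refine ⟨A, ⟨?_, ?_, ?_, ?_, ?_⟩, ?_, l.length + 1, ?_⟩
  · exact Or.inl ⟨1, by simp⟩
  · rintro h (⟨t, rfl⟩ | ⟨i, t, rfl⟩) s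
    · exact Or.inl ⟨t * s, by simp⟩
    · exact Or.inr ⟨i, t * s, by simp [mul_assoc]⟩
  · rintro h hh ⟨p, hp⟩
    rw [Subgroup.mem_bot] at hp
    subst hp
    simpa using hh
  · have hA0 : ((1 : G), (1 : G)) ∈ A := Or.inl ⟨1, by simp⟩
    have hAq : ∀ {h : G × G}, h ∈ A → ∀ t, (h.1 * q t, h.2 * q t) ∈ A := by
      rintro h (⟨t, rfl⟩ | ⟨i, t, rfl⟩) s
      · exact Or.inl ⟨t * s, by simp⟩
      · exact Or.inr ⟨i, t * s, by simp [mul_assoc]⟩
    have key : ∀ i, ∀ t, Relation.ReflTransGen (FStep q β A) (1, 1)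
        (b * wp (l.take i) * q t, b' * wp (l'.take i) * q t) := by
      intro i
      induction i with
      | zero =>
        intro t
        have h1 : (b, b') ∈ A := Or.inr ⟨0, 1, by simp [wp]⟩
        have h2 : (b * wp (l.take 0) * q t, b' * wp (l'.take 0) * q t) ∈ A := Or.inr ⟨0, t, rfl⟩
        have s1 : FStep q β A (1, 1) (b, b') :=
          ⟨hA0, h1, Or.inr ⟨by simpa using hb, by simpa using hb'⟩⟩
        have s2 : FStep q β A (b, b') (b * wp (l.take 0) * q t, b' * wp (l'.take 0) * q t) :=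
          ⟨h1, h2, Or.inl ⟨t, by simp [wp]⟩⟩
        exact (Relation.ReflTransGen.single s1).tail s2
      | succ i ih =>
        intro t
        by_cases hi : i < l.length
        · have hi' : i < l'.length := hlen ▸ hi
          have e1 : l.take (i + 1) = l.take i ++ [l[i]] := List.take_succ_eq_append_getElem hi
          have e2 : l'.take (i + 1) = l'.take i ++ [l'[i]] := List.take_succ_eq_append_getElem hi'
          have hp : (l[i]).1 = (l'[i]).1 ∧ SameLev β (l[i]).2 (l'[i]).2 :=
            (List.forall₂_iff_get.1 hll).2 i hi hi'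
          have hr : ∀ {m : List (G × G)}, Rq q β m → ∀ i (hi : i < m.length),
              (m[i]).1 ∈ q.range ∧ (m[i]).2 ∈ Bb β := by
            intro m hm
            induction m with
            | nil => intro i hi; simp at hi
            | cons p m ihm =>
              intro i hi
              cases i with
              | zero => exact ⟨hm.1, hm.2.2.1⟩
              | succ i => exact ihm hm.2.2.2.2 i (by simpa using hi)
          obtain ⟨⟨s, hs⟩, hx1⟩ := hr hl i hi
          have hx2 := (hr hl' i hi').2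
          have w1 : wp (l.take (i + 1)) = wp (l.take i) * q s * (l[i]).2 := by
            rw [e1, wp_append, hs]; simp [wp, mul_assoc]
          have w2 : wp (l'.take (i + 1)) = wp (l'.take i) * q s * (l'[i]).2 := by
            rw [e2, wp_append, hs, hp.1]; simp [wp, mul_assoc]
          have h1 : (b * wp (l.take i) * q s, b' * wp (l'.take i) * q s) ∈ A :=
            Or.inr ⟨i, s, rfl⟩
          have h2 : (b * wp (l.take (i + 1)), b' * wp (l'.take (i + 1))) ∈ A :=
            Or.inr ⟨i + 1, 1, by simp⟩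
          refine ((ih s).tail (b := (b * wp (l.take i) * q s, b' * wp (l'.take i) * q s))
            (c := (b * wp (l.take (i + 1)), b' * wp (l'.take (i + 1)))) ⟨h1, h2, Or.inr ?_⟩).tail
            ⟨h2, hAq h2 t, Or.inl ⟨t, rfl⟩⟩
          constructor
          · show (b * wp (l.take i) * q s)⁻¹ * (b * wp (l.take (i + 1))) ∈ Bb β
            rw [w1]
            have : (b * wp (l.take i) * q s)⁻¹ * (b * (wp (l.take i) * q s * (l[i]).2)) =
              (l[i]).2 := by group
            rw [this]; exact hx1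
          · show (b' * wp (l'.take i) * q s)⁻¹ * (b' * wp (l'.take (i + 1))) ∈ Bb β
            rw [w2]
            have : (b' * wp (l'.take i) * q s)⁻¹ * (b' * (wp (l'.take i) * q s * (l'[i]).2)) =
              (l'[i]).2 := by group
            rw [this]; exact hx2
        · have e1 : l.take (i + 1) = l.take i := by
            rw [List.take_of_length_le (by omega), List.take_of_length_le (by omega)]
          have e2 : l'.take (i + 1) = l'.take i := by
            rw [List.take_of_length_le (by omega), List.take_of_length_le (by omega)]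
          rw [e1, e2]
          exact ih t
    rintro h (⟨t, rfl⟩ | ⟨i, t, rfl⟩)
    · exact Relation.ReflTransGen.single ⟨hA0, Or.inl ⟨t, rfl⟩, Or.inl ⟨t, by simp⟩⟩
    · exact key i t
  · -- w
    have haux : ∀ (s t : Multiplicative ℚ) (i : ℕ) (j : ℕ),
        ((q s)⁻¹ * (b * wp (l.take i) * q t) ∈ β j ↔ (q s)⁻¹ * (b' * wp (l'.take i) * q t) ∈ β j) :=
      fun s t i j => Sh.lev hq (hconj s t (hpre i)) j
    have haux2 : ∀ (s t : Multiplicative ℚ) (i k : ℕ) (j : ℕ), i ≤ k →
        ((b * wp (l.take i) * q s)⁻¹ * (b * wp (l.take k) * q t) ∈ β j ↔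
          (b' * wp (l'.take i) * q s)⁻¹ * (b' * wp (l'.take k) * q t) ∈ β j) := by
      intro s t i k j hik
      have := Sh.lev hq (hconj s t (hmid i k hik)) j
      have e : ∀ (c d : G), (q s)⁻¹ * (c⁻¹ * d * q t) = (c * q s)⁻¹ * (d * q t) := by
        intro c d; group
      rw [e, e] at this
      exact this
    rintro j h (⟨s, rfl⟩ | ⟨i, s, rfl⟩) k (⟨t, rfl⟩ | ⟨i', t, rfl⟩)
    · exact Iff.rfl
    · exact haux s t i' j
    · have := hlevinv j (haux t s i j)
      simpa [mul_assoc] using this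
    · rcases le_total i i' with hii | hii
      · exact haux2 s t i i' j hii
      · have := hlevinv j (haux2 t s i' i j hii)
        simp only [mul_inv_rev, inv_inv] at this ⊢
        simpa only [mul_assoc] using this
  · refine Or.inr ⟨l.length, 1, ?_⟩
    have e2 : l'.take l.length = l' := by rw [hlen]; exact List.take_length
    rw [e2, List.take_length, map_one, mul_one, mul_one, hx, hx']
  · have hq1 : ∀ t, ql q β (q t) ≤ 1 := by
      intro t
      by_cases ht : t = 1
      · subst ht
        rw [map_one]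
        have := (RA.rlen_eq_zero hq.ra (x := (1 : G))).2 (one_mem _)
        unfold ql
        omega
      · exact (RA.rlen_letter hq.ra ⟨t, rfl⟩ (fun hh => ht (hq.disj t hh))).le
    rintro h (⟨t, rfl⟩ | ⟨i, t, rfl⟩)
    · have := hq1 t
      exact ⟨by simp only; omega, by simp only; omega⟩
    · have h1 : ql q β (b * wp (l.take i)) ≤ l.length := by
        unfold ql
        rw [RA.rlen_form hq.ra hb (Rd.take hl i), List.length_take]
        exact min_le_right _ _
      have h2 : ql q β (b' * wp (l'.take i)) ≤ l.length := by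
        unfold ql
        rw [RA.rlen_form hq.ra hb' (Rd.take hl' i), List.length_take, hlen]
        exact min_le_right _ _
      have h3 := RA.rlen_mul_le hq.ra (b * wp (l.take i)) (q t)
      have h4 := RA.rlen_mul_le hq.ra (b' * wp (l'.take i)) (q t)
      have h5 := hq1 t
      unfold ql at h1 h2 h5 ⊢
      exact ⟨by simp only; omega, by simp only; omega⟩

end tasks

end Pool.Agent.Helper98.AAD
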