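import Pool.Agent.Helper98.AAD.R4b
import Pool.Agent.Helper98.AAD.E3
import Pool.Agent.Helper98.AAD.T1

/-!
The tasks of lengths 0, 1, 2 (T3 of project AAD, problem MP_aade38_al).
-/

set_option autoImplicit false

namespace Pool.Agent.Helper98.AAD

theorem SEmb.id3 {G : Type} [Group G] (q : Multiplicative ℚ →* G) (β : ℕ → Subgroup G)
    (Γ E : Subgroup G) : SEmb (MonoidHom.id G) q β Γ E q β Γ E where
  emb := ⟨fun _ _ h => h, fun _ => rfl, fun _ _ => Iff.rfl⟩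
  hΓ := (Subgroup.map_id Γ).symm
  hE := fun _ h => h
  hN := fun _ h => h

/-- the identity of a bundled state -/
def SHom.id3 (s : St) : SHom s s := ⟨MonoidHom.id s.G, SEmb.id3 s.q s.β s.Γ s.E⟩

theorem Dv.map3 {G G' : Type} [Group G] [Group G'] {E : Subgroup G} (h : Dv E) (i : G →* G') :
    Dv (E.map i) := by
  rintro _ ⟨e, he, rfl⟩ n hn
  obtain ⟨e', he', rfl⟩ := h e he n hn
  exact ⟨i e', ⟨e', he', rfl⟩, (map_pow i e' n).symm⟩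

theorem ql_q3 {G : Type} [Group G] {q : Multiplicative ℚ →* G} {β : ℕ → Subgroup G}
    (hq : QS q β) (t : Multiplicative ℚ) : ql q β (q t) ≤ 1 :=
  hq.ra.rlen_YL ((le_sup_right : q.range ≤ β 0 ⊔ q.range) ⟨t, rfl⟩)

theorem step_nil (s : St) : ∃ (t : St) (f : SHom s t), Post s t f.f [] := by
  obtain ⟨G', hG, hC, i, t, hst, hemb, ht, -⟩ := ET_one s.is (fam_triv s.is.qs)
    ⟨1, by rintro _ ⟨t, rfl⟩; exact ⟨ql_q3 s.is.qs t, ql_q3 s.is.qs t⟩⟩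
  refine ⟨⟨G', i.comp s.q, _, s.Γ.map i, s.E.map i, hst, s.dv.map3 i⟩, ⟨i, hemb⟩, t, ?_⟩
  rwa [Subgroup.map_sup] at ht

theorem step_one (s : St) (b : s.G) : ∃ (t : St) (f : SHom s t), Post s t f.f [b] := by
  obtain ⟨G', hG, hC, i, t, hst, hemb, -, ht⟩ := ET_one s.is (fam_triv s.is.qs)
    ⟨1, by rintro _ ⟨t, rfl⟩; exact ⟨ql_q3 s.is.qs t, ql_q3 s.is.qs t⟩⟩
  refine ⟨⟨G', i.comp s.q, _, s.Γ.map i, s.E.map i, hst, s.dv.map3 i⟩, ⟨i, hemb⟩, ?_⟩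
  intro j hb hbj
  refine ⟨t, ?_, fun hj => hbj ?_⟩
  · refine (le_sup_right : _ ≤ (s.β 0).map i ⊔ _) (Subgroup.subset_closure ⟨(1, 1), ⟨1, by simp⟩, ?_⟩)
    simp
  · obtain ⟨_, ⟨r, rfl⟩, hr⟩ := ht j b hj
    simp only at hr
    have hB : s.q r ∈ Bb s.β := by
      have h1 : b * s.q r ∈ Bb s.β := (le_iSup s.β j : s.β j ≤ Bb s.β) hr
      exact (Subgroup.mul_mem_cancel_left _ hb).1 h1
    have h0 : s.q r ∈ s.β 0 := s.is.qs.ra.inter _ ⟨r, rfl⟩ hB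
    exact (Subgroup.mul_mem_cancel_right _ (s.is.qs.mono (Nat.zero_le j) h0)).1 hr

theorem step_two (s : St) (x x' : s.G) : ∃ (t : St) (f : SHom s t), Post s t f.f [x, x'] := by
  by_cases hsh : Sh s.q s.β x x'
  · obtain ⟨A, hA, hxA, hR⟩ := fam_sh s.is.qs hsh
    obtain ⟨G', hG, hC, i, t, hst, hemb, -, -⟩ := ET_one s.is hA hR
    refine ⟨⟨G', i.comp s.q, _, s.Γ.map i, s.E.map i, hst, s.dv.map3 i⟩, ⟨i, hemb⟩, ?_⟩
    intro _
    have hsub : ∀ h ∈ A, (i h.2)⁻¹ * t * i h.1 ∈ bN i t A s.β 0 := fun h hh =>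
      (le_sup_right : _ ≤ (s.β 0).map i ⊔ _) (Subgroup.subset_closure ⟨h, hh, rfl⟩)
    refine ⟨(i x'⁻¹)⁻¹ * t * i x⁻¹, hsub _ hxA, t⁻¹, ?_, ?_⟩
    · refine inv_mem ?_
      have := hsub _ hA.one
      simpa using this
    · show i x' = (i x'⁻¹)⁻¹ * t * i x⁻¹ * i x * t⁻¹
      simp
  · exact ⟨s, SHom.id3 s, fun h => absurd h hsh⟩

end Pool.Agent.Helper98.AAD
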