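import Pool.Agent.Helper98.AAD.V14a
import Pool.Agent.Helper98.AAD.T3

set_option autoImplicit false

namespace Pool.Agent.Helper98.AAD

/-- every state has the identity embedding; all other tasks are trivial -/
theorem step (s : St) (l : List s.G) : ∃ (t : St) (f : SHom s t), Post s t f.f l := by
  rcases l with _ | ⟨a1, _ | ⟨a2, _ | ⟨a3, _ | ⟨a4, _ | ⟨a5, l⟩⟩⟩⟩⟩
  · exact step_nil s
  · exact step_one s a1
  · exact step_two s a1 a2
  · exact ⟨s, ⟨MonoidHom.id _, SEmb.v14id⟩, trivial⟩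
  · exact step_four s a1 a2 a3 a4
  · exact ⟨s, ⟨MonoidHom.id _, SEmb.v14id⟩, trivial⟩

end Pool.Agent.Helper98.AAD
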