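import Pool.Agent.Helper98.AAD.L4a
import Pool.Agent.Helper98.AAD.M1
import Pool.Agent.Helper98.AAD.V14b

set_option autoImplicit false

namespace Pool.Agent.Helper98.AAD

/-- L4 : the stage theorem -/
theorem stage {G : Type} [Group G] [Countable G] {q : Multiplicative ℚ →* G}
    {β : ℕ → Subgroup G} (hq : QS q β) :
    ∃ (G' : Type) (_ : Group G') (_ : Countable G') (i : G →* G') (q' : Multiplicative ℚ →* G')
      (β' : ℕ → Subgroup G') (E : Subgroup G'), QEmb i q β q' β' ∧ StageOut q' β' i.range E :=
  stage_of step (fun s => s.is.mex) hq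

end Pool.Agent.Helper98.AAD
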