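import Pool.Agent.Helper98.AAD.L1
import Pool.Agent.Helper98.AAD.L2
import Pool.Agent.Helper98.AAD.L3
import Pool.Agent.Helper98.AAD.QE

/-!
L4 : the stage theorem (problem MP_aade38_al), with the step theorem and `mex` as hypotheses.
-/

set_option autoImplicit false

namespace Pool.Agent.Helper98.AAD

theorem l4_push {s : ℕ → St} {f : ∀ n, SHom (s n) (s (n + 1))} {L : Type} [Group L]
    {ι : ∀ n, (s n).G →* L} (hf : ∀ n x, ι (n + 1) ((f n).f x) = ι n x) {n m : ℕ}
    {l : List (s n).G} {l' : List (s m).G} (h : Push f n m l l') : l'.map (ι m) = l.map (ι n) := by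
  induction h with
  | refl => rfl
  | succ m l l' _ ih =>
    rw [List.map_map, ← ih]
    congr 1
    funext x
    exact hf _ x

/-- the initial state of a stage -/
def l4_s0 {G : Type} [Group G] [Countable G] {q : Multiplicative ℚ →* G}
    {β : ℕ → Subgroup G} (hq : QS q β) : St where
  G := G
  q := q
  β := β
  Γ := ⊤
  E := ⊥
  is :=
    { qs := hq
      QΓ := le_top
      gen := by rw [top_inf_eq, hq.ra.gen]
      EC := bot_le
      comm := by
        intro e he g _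
        rw [Subgroup.mem_bot.1 he, one_mul, mul_one]
      ab := by
        intro e he e' he'
        rw [Subgroup.mem_bot.1 he, Subgroup.mem_bot.1 he']
      dis := fun e he _ => Subgroup.mem_bot.1 he
      mal := fun _ _ _ h _ => Subgroup.mem_sup_left (Subgroup.mem_top h)
      bd := ⟨0, fun b _ hb => absurd (Subgroup.mem_sup_left (Subgroup.mem_top b)) hb⟩ }
  dv := by
    intro e he n _
    exact ⟨1, one_mem _, by rw [one_pow, Subgroup.mem_bot.1 he]⟩

/-- L4, from the step theorem and `mex` -/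
theorem stage_of
    (step : ∀ (s : St) (l : List s.G), ∃ (t : St) (f : SHom s t), Post s t f.f l)
    (mex : ∀ (s : St), ∀ g, g ∉ s.Γ ⊔ s.E → ∀ y ∈ s.Γ, CycRed s.q s.β y →
      ∃ (M : ℕ) (a b g' : s.G), a ∈ s.Γ ∧ b ∈ s.Γ ∧ Nice s.q s.β s.Γ g' ∧
        g * y ^ M * g⁻¹ = a * g' * b)
    {G : Type} [Group G] [Countable G] {q : Multiplicative ℚ →* G}
    {β : ℕ → Subgroup G} (hq : QS q β) :
    ∃ (G' : Type) (_ : Group G') (_ : Countable G') (i : G →* G') (q' : Multiplicative ℚ →* G')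
      (β' : ℕ → Subgroup G') (E : Subgroup G'), QEmb i q β q' β' ∧ StageOut q' β' i.range E := by
  obtain ⟨s, f, i0, hs⟩ := BK step (l4_s0 hq)
  obtain ⟨L, _, _, ι, hι, hf, hL⟩ := LIM (fun n => (s n).G) (fun n => (f n).f)
    (fun n => (f n).emb.emb.inj)
  obtain ⟨hqs, hemb⟩ := LIM_qs hι hf hL (fun n => (s n).is.qs) (fun n => (f n).emb.emb)
  set qL : Multiplicative ℚ →* L := (ι 0).comp (s 0).q with hqL
  set βL : ℕ → Subgroup L := fun j => ⨆ n, ((s n).β j).map (ι n) with hβL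
  have hB : ∀ n x, ι n x ∈ Bb βL ↔ x ∈ Bb (s n).β := fun n x =>
    (hemb n).mem_Bb_iff (s n).is.qs hqs
  set i : G →* L := (ι 0).comp i0.f with hi
  -- the groups `Γ`
  have hΓ : ∀ n, ((s n).Γ).map (ι n) = i.range := by
    intro n
    induction n with
    | zero =>
      have h1 : ∀ y, y ∈ (s 0).Γ ↔ ∃ x : G, i0.f x = y := by
        intro y
        have h2 : (s 0).Γ = (l4_s0 hq).Γ.map i0.f := i0.emb.hΓ
        rw [h2]
        constructor
        · rintro ⟨x, -, hx⟩; exact ⟨x, hx⟩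
        · rintro ⟨x, hx⟩; exact ⟨x, Subgroup.mem_top x, hx⟩
      ext x
      constructor
      · rintro ⟨y, hy, rfl⟩
        obtain ⟨z, rfl⟩ := (h1 y).1 hy
        exact ⟨z, rfl⟩
      · rintro ⟨z, rfl⟩
        exact ⟨i0.f z, (h1 _).2 ⟨z, rfl⟩, rfl⟩
    | succ n ih =>
      rw [← ih, (f n).emb.hΓ, Subgroup.map_map]
      congr 1
      ext x
      exact hf n x
  have hΓ' : ∀ n x, ι n x ∈ i.range ↔ x ∈ (s n).Γ := by
    intro n x
    rw [← hΓ n]
    constructor
    · rintro ⟨y, hy, e⟩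
      rwa [← hι n e]
    · intro hx; exact ⟨x, hx, rfl⟩
  -- elements can be moved up
  have up : ∀ n m, n ≤ m → ∀ x : (s n).G, ∃ y : (s m).G, ι m y = ι n x ∧
      (y ∈ (s m).Γ ⊔ (s m).E ↔ x ∈ (s n).Γ ⊔ (s n).E) ∧ (x ∈ (s n).E → y ∈ (s m).E) := by
    intro n m h x
    induction m, h using Nat.le_induction with
    | base => exact ⟨x, rfl, Iff.rfl, id⟩
    | succ m _ ih =>
      obtain ⟨y, hy, hy', hy''⟩ := ih
      refine ⟨(f m).f y, by rw [hf, hy], ?_, fun h => (f m).emb.hE _ (hy'' h)⟩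
      rw [← hy']
      constructor
      · exact (f m).emb.hN y
      · intro h
        have : (s m).Γ ⊔ (s m).E ≤ ((s (m + 1)).Γ ⊔ (s (m + 1)).E).comap (f m).f := by
          refine sup_le ?_ ?_
          · intro z hz
            refine Subgroup.mem_sup_left ?_
            rw [(f m).emb.hΓ]
            exact ⟨z, hz, rfl⟩
          · intro z hz
            exact Subgroup.mem_sup_right ((f m).emb.hE z hz)
        exact this h
  -- the group `E`
  set EL : Subgroup L := ⨆ n, ((s n).E).map (ι n) with hEL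
  have hEm : Monotone (fun n => ((s n).E).map (ι n)) := by
    apply monotone_nat_of_le_succ
    rintro n _ ⟨y, hy, rfl⟩
    exact ⟨(f n).f y, (f n).emb.hE y hy, hf n y⟩
  have hE : ∀ x, x ∈ EL ↔ ∃ n, ∃ y ∈ (s n).E, ι n y = x := by
    intro x
    rw [hEL, Subgroup.mem_iSup_of_directed hEm.directed_le]
    rfl
  have hE' : ∀ n, ∀ x ∈ (s n).E, ι n x ∈ EL := fun n x hx => (hE _).2 ⟨n, x, hx, rfl⟩
  have hN : ∀ n x, ι n x ∈ i.range ⊔ EL ↔ x ∈ (s n).Γ ⊔ (s n).E := by
    have hm : Monotone (fun n => ((s n).Γ ⊔ (s n).E).map (ι n)) := by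
      intro n m hnm
      simp only [Subgroup.map_sup, hΓ]
      exact sup_le_sup le_rfl (hEm hnm)
    have h1 : i.range ⊔ EL = ⨆ n, ((s n).Γ ⊔ (s n).E).map (ι n) := by
      simp only [Subgroup.map_sup, hΓ]
      rw [hEL, sup_iSup]
    intro n x
    rw [h1, Subgroup.mem_iSup_of_directed hm.directed_le]
    constructor
    · rintro ⟨m, y, hy, e⟩
      obtain ⟨k, hk1, hk2⟩ : ∃ k, n ≤ k ∧ m ≤ k := ⟨_, le_max_left _ _, le_max_right _ _⟩
      obtain ⟨x', hx', hx'', -⟩ := up n k hk1 x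
      obtain ⟨y', hy', hy'', -⟩ := up m k hk2 y
      have : x' = y' := hι k (by rw [hx', hy', e])
      rw [← hx'', this, hy'']
      exact hy
    · intro hx
      exact ⟨n, x, hx, rfl⟩
  -- pairs
  have lift2 : ∀ x x' : L, ∃ n, ∃ y y' : (s n).G, ι n y = x ∧ ι n y' = x' := by
    intro x x'
    obtain ⟨n, y, rfl⟩ := hL x
    obtain ⟨n', y', rfl⟩ := hL x'
    obtain ⟨k, hk1, hk2⟩ : ∃ k, n ≤ k ∧ n' ≤ k := ⟨_, le_max_left _ _, le_max_right _ _⟩
    obtain ⟨z, hz, -⟩ := up n k hk1 y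
    obtain ⟨z', hz', -⟩ := up n' k hk2 y'
    exact ⟨k, z, z', hz, hz'⟩
  have lift4 : ∀ x x' u u' : L, ∃ n, ∃ y y' v v' : (s n).G, ι n y = x ∧ ι n y' = x' ∧
      ι n v = u ∧ ι n v' = u' := by
    intro x x' u u'
    obtain ⟨n, y, y', rfl, rfl⟩ := lift2 x x'
    obtain ⟨n', v, v', rfl, rfl⟩ := lift2 u u'
    obtain ⟨k, hk1, hk2⟩ : ∃ k, n ≤ k ∧ n' ≤ k := ⟨_, le_max_left _ _, le_max_right _ _⟩
    obtain ⟨z, hz, -⟩ := up n k hk1 y
    obtain ⟨z', hz', -⟩ := up n k hk1 y'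
    obtain ⟨w, hw, -⟩ := up n' k hk2 v
    obtain ⟨w', hw', -⟩ := up n' k hk2 v'
    exact ⟨k, z, z', w, w', hz, hz', hw, hw'⟩
  refine ⟨L, inferInstance, inferInstance, i, qL, βL, EL, ?_, ?_⟩
  · refine ⟨(hι 0).comp i0.emb.emb.inj, ?_, ?_⟩
    · intro t
      change ι 0 (i0.f (q t)) = ι 0 ((s 0).q t)
      congr 1
      exact i0.emb.emb.hq t
    · intro j x
      change ι 0 (i0.f x) ∈ βL j ↔ x ∈ β j
      exact ((hemb 0).hβ j _).trans (i0.emb.emb.hβ j x)
  · refine ⟨hqs, ?_, ?_, ?_, ?_, ?_, ?_, ?_, ?_, ?_, ?_, ?_, ?_⟩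
    · -- QΓ
      rintro _ ⟨t, rfl⟩
      exact (hΓ' 0 _).2 ((s 0).is.QΓ ⟨t, rfl⟩)
    · -- gen
      intro x hx
      obtain ⟨y, rfl⟩ : ∃ y, ι 0 y = x := by
        obtain ⟨z, rfl⟩ := hx
        exact ⟨i0.f z, rfl⟩
      have hy := (hΓ' 0 y).1 hx
      have h1 : (s 0).Γ ⊓ Bb (s 0).β ⊔ (s 0).q.range ≤
          (i.range ⊓ Bb βL ⊔ qL.range).comap (ι 0) := by
        refine sup_le ?_ ?_
        · rintro z ⟨hz1, hz2⟩
          exact Subgroup.mem_sup_left ⟨(hΓ' 0 z).2 hz1, (hB 0 z).2 hz2⟩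
        · rintro _ ⟨t, rfl⟩
          exact Subgroup.mem_sup_right ⟨t, rfl⟩
      exact h1 ((s 0).is.gen hy)
    · -- EC
      intro x hx
      obtain ⟨n, y, hy, rfl⟩ := (hE x).1 hx
      exact ((hemb n).hβ 0 y).2 ((s n).is.EC hy)
    · -- comm
      intro e he g hg
      obtain ⟨n, y, hy, rfl⟩ := (hE e).1 he
      rw [← hΓ n] at hg
      obtain ⟨z, hz, rfl⟩ := hg
      rw [← map_mul, ← map_mul, (s n).is.comm y hy z hz]
    · -- ab
      intro e he e' he'
      obtain ⟨n, y, hy, rfl⟩ := (hE e).1 he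
      obtain ⟨n', y', hy', rfl⟩ := (hE e').1 he'
      obtain ⟨k, hk1, hk2⟩ : ∃ k, n ≤ k ∧ n' ≤ k := ⟨_, le_max_left _ _, le_max_right _ _⟩
      obtain ⟨z, hz, -, hz1⟩ := up n k hk1 y
      obtain ⟨z', hz', -, hz1'⟩ := up n' k hk2 y'
      rw [← hz, ← hz', ← map_mul, ← map_mul, (s k).is.ab z (hz1 hy) z' (hz1' hy')]
    · -- div
      intro e he m hm
      obtain ⟨n, y, hy, rfl⟩ := (hE e).1 he
      obtain ⟨y', hy', e'⟩ := (s n).dv y hy m hm
      exact ⟨ι n y', hE' n y' hy', by rw [← map_pow, e']⟩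
    · -- dis
      intro e he hg
      obtain ⟨n, y, hy, rfl⟩ := (hE e).1 he
      rw [(s n).is.dis y hy ((hΓ' n y).1 hg), map_one]
    · -- ne
      obtain ⟨m, l', -, hP, hPost⟩ := hs 0 []
      have hl := l4_push hf hP
      have hl' : l' = [] := by simpa using hl
      subst hl'
      obtain ⟨x, hx⟩ : ∃ x, x ∉ (s (m + 1)).Γ ⊔ (s (m + 1)).E := hPost
      intro htop
      apply hx
      rw [← hN, htop]
      trivial
    · -- fst
      intro x x' hx
      obtain ⟨n, y, y', rfl, rfl⟩ := lift2 x x'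
      obtain ⟨m, l', -, hP, hPost⟩ := hs n [y, y']
      have hl := l4_push hf hP
      obtain ⟨z, z', rfl, hz, hz'⟩ : ∃ z z', l' = [z, z'] ∧ ι m z = ι n y ∧ ι m z' = ι n y' := by
        rcases l' with _ | ⟨z, _ | ⟨z', _ | ⟨w, l''⟩⟩⟩
        · simp at hl
        · simp at hl
        · simp only [List.map_cons, List.map_nil, List.cons.injEq, and_true] at hl
          exact ⟨z, z', rfl, hl.1, hl.2⟩
        · simp at hl
      have hPost' : Sh (s m).q (s m).β z z' → ∃ c ∈ (s (m + 1)).β 0, ∃ c' ∈ (s (m + 1)).β 0,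
        (f m).f z' = c * (f m).f z * c' := hPost
      rw [← hz, ← hz'] at hx
      obtain ⟨c, hc, c', hc', e⟩ := hPost' (((hemb m).sh (s m).is.qs hqs).1 hx)
      refine ⟨ι (m + 1) c, ((hemb _).hβ 0 _).2 hc, ι (m + 1) c', ((hemb _).hβ 0 _).2 hc', ?_⟩
      rw [← hz, ← hz', ← hf m, ← hf m, e, map_mul, map_mul]
    · -- pd
      intro l b hb hbl
      obtain ⟨n, y, rfl⟩ := hL b
      obtain ⟨m, l', -, hP, hPost⟩ := hs n [y]
      have hl := l4_push hf hP
      obtain ⟨z, rfl, hz⟩ : ∃ z, l' = [z] ∧ ι m z = ι n y := by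
        rcases l' with _ | ⟨z, _ | ⟨z', l''⟩⟩
        · simp at hl
        · simp only [List.map_cons, List.map_nil, List.cons.injEq, and_true] at hl
          exact ⟨z, rfl, hl⟩
        · simp at hl
      have hPost' : ∀ j, z ∈ Bb (s m).β → z ∉ (s m).β j → ∃ c ∈ (s (m + 1)).β 0,
        (f m).f z * c * ((f m).f z)⁻¹ ∉ (s (m + 1)).β j := hPost
      rw [← hz] at hb hbl
      obtain ⟨c, hc, h2⟩ := hPost' l ((hB m z).1 hb) (fun h => hbl (((hemb m).hβ l z).2 h))
      refine ⟨ι (m + 1) c, ((hemb _).hβ 0 _).2 hc, ?_⟩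
      rw [← hz, ← hf m, ← map_mul, ← map_inv, ← map_mul]
      exact fun h => h2 (((hemb _).hβ l _).1 h)
    · -- mex
      intro g hg y hy hc
      obtain ⟨n, g, y, rfl, rfl⟩ := lift2 g y
      rw [hN] at hg
      rw [hΓ'] at hy
      obtain ⟨M, a, b, g', ha, hb, hg', e⟩ := mex (s n) g hg y hy
        (((hemb n).cycRed (s n).is.qs hqs).1 hc)
      refine ⟨M, ι n a, ι n b, ι n g', (hΓ' n a).2 ha, (hΓ' n b).2 hb, ?_, ?_⟩
      · rw [← hΓ n]
        exact ((hemb n).nice (s n).is.qs hqs (s n).Γ g').2 hg'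
      · rw [← map_pow, ← map_mul, ← map_inv, ← map_mul, e, map_mul, map_mul]
    · -- vv
      intro g hg a ha z hz hzq c hc hcC
      obtain ⟨n, g, a, z, c, rfl, rfl, rfl, rfl⟩ := lift4 g a z c
      obtain ⟨m, l', -, hP, hPost⟩ := hs n [g, a, z, c]
      have hl := l4_push hf hP
      obtain ⟨g', a', z', c', rfl, eg, ea, ez, ec⟩ : ∃ g' a' z' c', l' = [g', a', z', c'] ∧
          ι m g' = ι n g ∧ ι m a' = ι n a ∧ ι m z' = ι n z ∧ ι m c' = ι n c := by
        rcases l' with _ | ⟨g', _ | ⟨a', _ | ⟨z', _ | ⟨c', _ | ⟨w, l''⟩⟩⟩⟩⟩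
        · simp at hl
        · simp at hl
        · simp at hl
        · simp at hl
        · simp only [List.map_cons, List.map_nil, List.cons.injEq, and_true] at hl
          exact ⟨g', a', z', c', rfl, hl.1, hl.2.1, hl.2.2.1, hl.2.2.2⟩
        · simp at hl
      have hPost' : Nice (s m).q (s m).β (s m).Γ g' → a' ∈ (s m).Γ → z' ∈ (s m).Γ →
          StartsQ (s m).q (s m).β z' → c' ∈ (s m).Γ → c' ∈ (s m).β 0 →
          (f m).f c' ∈ Subgroup.closure ({(f m).f (g' * a'), (f m).f z'} ∪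
            ((s (m + 1)).E : Set (s (m + 1)).G)) ∧
          (f m).f c' ∈ Subgroup.normalClosure (comms (s (m + 1)).E ⊤) := hPost
      rw [← eg] at hg
      rw [← ea] at ha
      rw [← ez] at hz hzq
      rw [← ec] at hc hcC
      obtain ⟨h1, h2⟩ := hPost' (((hemb m).nice (s m).is.qs hqs (s m).Γ g').1 (by rwa [hΓ m]))
        ((hΓ' m _).1 ha) ((hΓ' m _).1 hz) (((hemb m).startsQ (s m).is.qs hqs).1 hzq)
        ((hΓ' m _).1 hc) (((hemb m).hβ 0 _).1 hcC)
      rw [← eg, ← ea, ← ez, ← ec]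
      constructor
      · have h3 : Subgroup.closure ({(f m).f (g' * a'), (f m).f z'} ∪
            ((s (m + 1)).E : Set (s (m + 1)).G)) ≤
            (Subgroup.closure ({ι m g' * ι m a', ι m z'} ∪ (EL : Set L))).comap (ι (m + 1)) := by
          rw [Subgroup.closure_le]
          rintro x ((rfl | rfl) | hx)
          · refine Subgroup.subset_closure (Or.inl (Or.inl ?_))
            rw [hf, map_mul]
          · refine Subgroup.subset_closure (Or.inl (Or.inr ?_))
            exact hf m z'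
          · exact Subgroup.subset_closure (Or.inr (hE' _ x hx))
        have h4 := h3 h1
        rwa [Subgroup.mem_comap, hf] at h4
      · have h3 : Subgroup.normalClosure (comms (s (m + 1)).E ⊤) ≤
            (Subgroup.normalClosure (comms EL ⊤)).comap (ι (m + 1)) := by
          apply Subgroup.normalClosure_le_normal
          rintro x ⟨e, he, y, _, rfl⟩
          refine Subgroup.subset_normalClosure ⟨ι _ e, hE' _ e he, ι _ y, trivial, ?_⟩
          simp only [map_mul, map_inv]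
        have h4 := h3 h2
        rwa [Subgroup.mem_comap, hf] at h4

end Pool.Agent.Helper98.AAD
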