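import Pool.Agent.Helper98.AAD.R6

/-!
# The base of the construction: a free product of `ℚ` and a countable group with levels
-/

set_option autoImplicit false

namespace Pool.Agent.Helper98.AAD

/-- the finitely supported functions supported below `j` -/
private def h7l5_lev (j : ℕ) : Subgroup (Multiplicative (ℕ →₀ ℤ)) where
  carrier := {f | ∀ i, j ≤ i → (Multiplicative.toAdd f) i = 0}
  one_mem' := fun _ _ => rfl
  mul_mem' := by
    intro f g hf hg i hi
    rw [toAdd_mul, Finsupp.add_apply, hf i hi, hg i hi, add_zero]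
  inv_mem' := by
    intro f hf i hi
    rw [toAdd_inv, Finsupp.neg_apply, hf i hi, neg_zero]

private theorem h7l5_mem {j : ℕ} {f : Multiplicative (ℕ →₀ ℤ)} :
    f ∈ h7l5_lev j ↔ ∀ i, j ≤ i → (Multiplicative.toAdd f) i = 0 := Iff.rfl

/-- L5 : the base -/
theorem base : ∃ (G : Type) (_ : Group G) (_ : Countable G) (q : Multiplicative ℚ →* G)
    (β : ℕ → Subgroup G), QS q β ∧ ∀ l, ∃ b ∈ β (l + 1), b ∉ β l := by
  let X := Multiplicative (ℕ →₀ ℤ)
  let G := Monoid.Coprod (Multiplicative ℚ) X
  let q : Multiplicative ℚ →* G := Monoid.Coprod.inl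
  let r : X →* G := Monoid.Coprod.inr
  have hcG : Countable G := by
    have h1 : Countable (Multiplicative ℚ) := inferInstanceAs (Countable ℚ)
    have h2 : Countable X := inferInstanceAs (Countable (ℕ →₀ ℤ))
    have h3 : Countable (FreeMonoid (Multiplicative ℚ ⊕ X)) :=
      inferInstanceAs (Countable (List (Multiplicative ℚ ⊕ X)))
    exact (Monoid.Coprod.mk_surjective (M := Multiplicative ℚ) (N := X)).countable
  let β : ℕ → Subgroup G := fun j => (h7l5_lev j).map r
  have h0 : h7l5_lev 0 = ⊥ := by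
    rw [eq_bot_iff]
    intro f hf
    rw [Subgroup.mem_bot]
    apply Multiplicative.toAdd.injective
    ext i
    exact hf i (Nat.zero_le i)
  have hβ0 : β 0 = ⊥ := by
    simp only [β, h0, Subgroup.map_bot]
  have hB : Bb β = r.range := by
    apply le_antisymm
    · refine iSup_le fun j => ?_
      rintro _ ⟨f, -, rfl⟩
      exact ⟨f, rfl⟩
    · rintro _ ⟨f, rfl⟩
      obtain ⟨j, hj⟩ : ∃ j, f ∈ h7l5_lev j := by
        refine ⟨(Multiplicative.toAdd f).support.sup id + 1, fun i hi => ?_⟩
        by_contra hne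
        have h1 : i ∈ (Multiplicative.toAdd f).support := Finsupp.mem_support_iff.2 hne
        have h2 : i ≤ (Multiplicative.toAdd f).support.sup id := Finset.le_sup (f := id) h1
        omega
      exact (le_iSup β j) ⟨f, hj, rfl⟩
  have hinter : ∀ t ∈ q.range, t ∈ Bb β → t ∈ β 0 := by
    rintro _ ⟨t, rfl⟩ h1
    rw [hB] at h1
    obtain ⟨f, hf⟩ := h1
    have h2 := congrArg Monoid.Coprod.fst hf
    have h3 : (1 : Multiplicative ℚ) = t := h2
    rw [← h3, map_one]
    exact (β 0).one_mem
  refine ⟨G, inferInstance, hcG, q, β, ⟨?_, ?_, ?_⟩, ?_⟩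
  · intro t ht
    rw [hβ0, Subgroup.mem_bot] at ht
    exact Monoid.Coprod.inl_injective (ht.trans (map_one q).symm)
  · intro i j hij
    refine Subgroup.map_mono ?_
    intro f hf k hk
    exact hf k (hij.trans hk)
  · refine RA.of_up (le_iSup β 0) ?_ hinter ?_ ?_
    · intro t _ y hy
      rw [hβ0, Subgroup.mem_bot] at hy ⊢
      rw [hy, mul_one, mul_inv_cancel]
    · rw [hB, sup_comm]
      exact Monoid.Coprod.range_inl_sup_range_inr
    · intro K _ f g h1 h2
      have hr : ∀ x, r x ∈ Bb β := fun x => by rw [hB]; exact ⟨x, rfl⟩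
      let f' : X →* K := f.comp (r.codRestrict (Bb β) hr)
      let g' : Multiplicative ℚ →* K := g.comp q.rangeRestrict
      refine ⟨Monoid.Coprod.lift g' f', ?_, ?_⟩
      · rintro ⟨x, hx⟩
        have hx' := hx
        rw [hB] at hx'
        obtain ⟨y, rfl⟩ := hx'
        exact Monoid.Coprod.lift_apply_inr g' f' y
      · rintro ⟨_, ⟨t, rfl⟩⟩
        exact Monoid.Coprod.lift_apply_inl g' f' t
  · intro l
    refine ⟨r (Multiplicative.ofAdd (Finsupp.single l 1)), ⟨_, ?_, rfl⟩, ?_⟩
    · intro i hi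
      show (Finsupp.single l (1 : ℤ)) i = 0
      rw [Finsupp.single_apply, if_neg (by omega)]
    · rintro ⟨f, hf, h1⟩
      have h2 : f = Multiplicative.ofAdd (Finsupp.single l 1) := Monoid.Coprod.inr_injective h1
      have h3 := hf l le_rfl
      rw [h2] at h3
      have h4 : (Finsupp.single l (1 : ℤ)) l = 0 := h3
      rw [Finsupp.single_eq_same] at h4
      exact one_ne_zero h4

end Pool.Agent.Helper98.AAD

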