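import Pool.Agent.Helper98.AAD.L1
import Pool.Agent.Helper98.AAD.L2
import Pool.Agent.Helper98.AAD.L5
import Pool.Agent.Helper98.AAD.QE
import Pool.Agent.Helper98.AAD.Q1

/-!
The final countable structure (module L6), from the stage theorem.
-/

set_option autoImplicit false

namespace Pool.Agent.Helper98.AAD

section l6

/-- bundled basic structures -/
structure QSt where
  G : Type
  [grp : Group G]
  [cnt : Countable G]
  q : Multiplicative ℚ →* G
  β : ℕ → Subgroup G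
  qs : QS q β

attribute [instance] QSt.grp QSt.cnt

/-- one step between bundled basic structures -/
structure QStep (s t : QSt) where
  i : s.G →* t.G
  E : Subgroup t.G
  emb : QEmb i s.q s.β t.q t.β
  out : StageOut t.q t.β i.range E

/-- the sequence of structures -/
def QSt.seq (next : QSt → QSt) (s : QSt) : ℕ → QSt
  | 0 => s
  | n + 1 => next (s.seq next n)

theorem h28_finS_of_seq (s : ℕ → QSt) (st : ∀ n, QStep (s n) (s (n + 1)))
    (hlev : ∀ l, ∃ b ∈ (s 0).β (l + 1), b ∉ (s 0).β l) :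
    ∃ (G : Type) (_ : Group G) (_ : Countable G) (q : Multiplicative ℚ →* G)
    (β : ℕ → Subgroup G) (Γ E : ℕ → Subgroup G), FinS q β Γ E := by
  obtain ⟨L, gL, cL, ι, hι, hf, hL⟩ := LIM (fun n => (s n).G) (fun n => (st n).i)
    (fun n => (st n).emb.inj)
  obtain ⟨hqs, hemb⟩ := LIM_qs hι hf hL (fun n => (s n).qs) (fun n => (st n).emb)
  set Q : Multiplicative ℚ →* L := (ι 0).comp (s 0).q with hQ
  set B : ℕ → Subgroup L := fun j => ⨆ n, ((s n).β j).map (ι n) with hB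
  have hrange : ∀ k, (ι k).range = ((st k).i.range).map (ι (k + 1)) := by
    intro k
    ext y
    constructor
    · rintro ⟨x, rfl⟩
      exact ⟨(st k).i x, ⟨x, rfl⟩, hf k x⟩
    · rintro ⟨_, ⟨x, rfl⟩, rfl⟩
      exact ⟨x, (hf k x).symm⟩
  have hsup : ∀ k, (ι k).range ⊔ ((st k).E).map (ι (k + 1)) =
      ((st k).i.range ⊔ (st k).E).map (ι (k + 1)) := by
    intro k
    rw [hrange, Subgroup.map_sup]
  refine ⟨L, gL, cL, Q, B, fun k => (ι k).range, fun k => ((st k).E).map (ι (k + 1)), ?_⟩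
  refine
    { qs := hqs
      mono := ?_
      ex := ?_
      QΓ := ?_
      gen := ?_
      b0 := ?_
      EΓ := ?_
      EC := ?_
      comm := ?_
      ab := ?_
      div := ?_
      dis := ?_
      ne := ?_
      fst := ?_
      pd := ?_
      lev := ?_
      mex := ?_
      vv := ?_ }
  · apply monotone_nat_of_le_succ
    rintro k _ ⟨x, rfl⟩
    exact ⟨(st k).i x, hf k x⟩
  · intro y
    obtain ⟨n, x, hx⟩ := hL y
    exact ⟨n, x, hx⟩
  · rintro _ ⟨t, rfl⟩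
    exact ⟨(s 0).q t, rfl⟩
  · rintro k _ ⟨x, rfl⟩
    have h1 : x ∈ Bb (s k).β ⊔ (s k).q.range := by
      rw [(s k).qs.ra.gen]; exact Subgroup.mem_top x
    have h2 : ι k x ∈ (Bb (s k).β ⊔ (s k).q.range).map (ι k) := ⟨x, h1, rfl⟩
    rw [Subgroup.map_sup] at h2
    have h3 : (Bb (s k).β).map (ι k) ≤ (ι k).range ⊓ Bb B := by
      rintro _ ⟨y, hy, rfl⟩
      exact ⟨⟨y, rfl⟩, ((hemb k).mem_Bb_iff (s k).qs hqs).2 hy⟩
    have h4 : ((s k).q.range).map (ι k) ≤ Q.range := by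
      rintro _ ⟨_, ⟨t, rfl⟩, rfl⟩
      exact ⟨t, ((hemb k).hq t).symm⟩
    exact sup_le_sup h3 h4 h2
  · obtain ⟨b, hb, hb'⟩ := hlev 0
    refine ⟨ι 0 b, ⟨b, rfl⟩, ?_, ?_⟩
    · rw [(hemb 0).mem_Bb_iff (s 0).qs hqs, mem_Bb (s 0).qs.mono]
      exact ⟨_, hb⟩
    · rw [(hemb 0).hβ]
      exact hb'
  · rintro k _ ⟨e, _, rfl⟩
    exact ⟨e, rfl⟩
  · rintro k _ ⟨e, he, rfl⟩
    rw [(hemb (k + 1)).hβ]
    exact (st k).out.EC he
  · rintro k _ ⟨e, he, rfl⟩ _ ⟨x, rfl⟩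
    rw [← hf k x, ← map_mul, ← map_mul, (st k).out.comm e he _ ⟨x, rfl⟩]
  · rintro k _ ⟨e, he, rfl⟩ _ ⟨e', he', rfl⟩
    rw [← map_mul, ← map_mul, (st k).out.ab e he e' he']
  · rintro k _ ⟨e, he, rfl⟩ n hn
    obtain ⟨e', he', h1⟩ := (st k).out.div e he n hn
    exact ⟨ι (k + 1) e', ⟨e', he', rfl⟩, by rw [← map_pow, h1]⟩
  · rintro k _ ⟨e, he, rfl⟩ ⟨x, hx⟩
    rw [← hf k x] at hx
    have h1 : (st k).i x = e := hι (k + 1) hx
    have h2 : e = 1 := (st k).out.dis e he ⟨x, h1⟩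
    rw [h2, map_one]
  · intro k hle
    apply (st k).out.ne
    rw [eq_top_iff]
    intro x _
    have h1 : ι (k + 1) x ∈ ((st k).i.range ⊔ (st k).E).map (ι (k + 1)) := by
      rw [← hsup]
      exact hle ⟨x, rfl⟩
    obtain ⟨y, hy, hyx⟩ := h1
    rwa [← hι (k + 1) hyx]
  · rintro k _ ⟨x, rfl⟩ _ ⟨x', rfl⟩ hsh
    have h1 := ((hemb (k + 1)).sh (s (k + 1)).qs hqs).1 hsh
    obtain ⟨c, hc, c', hc', h2⟩ := (st k).out.fst x x' h1
    refine ⟨ι (k + 1) c, ⟨?_, ⟨c, rfl⟩⟩, ι (k + 1) c', ⟨?_, ⟨c', rfl⟩⟩, ?_⟩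
    · exact ((hemb (k + 1)).hβ 0 c).2 hc
    · exact ((hemb (k + 1)).hβ 0 c').2 hc'
    · rw [h2, map_mul, map_mul]
  · intro l b hb hbl
    obtain ⟨n, x, rfl⟩ := hL b
    rw [← hf n x] at hb hbl ⊢
    rw [(hemb (n + 1)).mem_Bb_iff (s (n + 1)).qs hqs] at hb
    rw [(hemb (n + 1)).hβ] at hbl
    obtain ⟨c, hc, h1⟩ := (st n).out.pd l _ hb hbl
    refine ⟨ι (n + 1) c, ((hemb (n + 1)).hβ 0 c).2 hc, ?_⟩
    rw [← map_mul, ← map_inv, ← map_mul, (hemb (n + 1)).hβ]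
    exact h1
  · intro l
    obtain ⟨b, hb, hb'⟩ := hlev l
    refine ⟨ι 0 b, ?_, ?_⟩
    · rw [(hemb 0).hβ]
      exact hb
    · rw [(hemb 0).hβ]
      exact hb'
  · rintro k _ ⟨g, rfl⟩ hg _ ⟨y, rfl⟩ hy
    have hg' : g ∉ (st k).i.range ⊔ (st k).E := by
      intro h
      apply hg
      rw [hsup]
      exact ⟨g, h, rfl⟩
    rw [← hf k y] at hy ⊢
    have hy' := ((hemb (k + 1)).cycRed (s (k + 1)).qs hqs).1 hy
    obtain ⟨M, a, b, g', ha, hb, hg1, hg2⟩ := (st k).out.mex g hg' _ ⟨y, rfl⟩ hy'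
    refine ⟨M, ι (k + 1) a, ι (k + 1) b, ι (k + 1) g', ?_, ?_, ⟨g', rfl⟩, ?_, ?_⟩
    · rw [hrange]
      exact ⟨a, ha, rfl⟩
    · rw [hrange]
      exact ⟨b, hb, rfl⟩
    · rw [hrange, (hemb (k + 1)).nice (s (k + 1)).qs hqs]
      exact hg1
    · rw [← map_pow, ← map_inv, ← map_mul, ← map_mul, hg2, map_mul, map_mul]
  · rintro k _ ⟨g, rfl⟩ hg _ ⟨a, rfl⟩ _ ⟨z, rfl⟩ hz _ ⟨c, rfl⟩ hc
    change Nice Q B (ι k).range _ at hg
    rw [hrange, (hemb (k + 1)).nice (s (k + 1)).qs hqs] at hg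
    rw [← hf k a, ← hf k z, ← hf k c]
    rw [← hf k z] at hz
    rw [← hf k c] at hc
    have hz' := ((hemb (k + 1)).startsQ (s (k + 1)).qs hqs).1 hz
    have hc' := ((hemb (k + 1)).hβ 0 _).1 hc
    obtain ⟨h1, h2⟩ := (st k).out.vv g hg _ ⟨a, rfl⟩ _ ⟨z, rfl⟩ hz' _ ⟨c, rfl⟩ hc'
    constructor
    · have h3 : ι (k + 1) ((st k).i c) ∈ (Subgroup.closure
          ({g * (st k).i a, (st k).i z} ∪ ((st k).E : Set (s (k + 1)).G))).map (ι (k + 1)) :=
        ⟨_, h1, rfl⟩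
      rw [MonoidHom.map_closure] at h3
      refine Subgroup.closure_mono ?_ h3
      rintro _ ⟨x, hx, rfl⟩
      rcases hx with (hx | hx) | hx
      · left; left
        rw [hx, map_mul]
      · left; right
        rw [Set.mem_singleton_iff.1 hx]
        exact Set.mem_singleton _
      · right
        exact ⟨x, hx, rfl⟩
    · have h3 : Subgroup.normalClosure (comms (st k).E ⊤) ≤
          (Subgroup.normalClosure (comms (((st k).E).map (ι (k + 1)))
            (ι (k + 1)).range)).comap (ι (k + 1)) := by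
        apply Subgroup.normalClosure_le_normal
        rintro _ ⟨e, he, y, _, rfl⟩
        rw [SetLike.mem_coe, Subgroup.mem_comap]
        apply Subgroup.subset_normalClosure
        refine ⟨ι (k + 1) e, ⟨e, he, rfl⟩, ι (k + 1) y, ⟨y, rfl⟩, ?_⟩
        simp only [map_mul, map_inv]
      exact h3 h2

/-- L6 : the final countable structure, from the stage theorem -/
theorem exists_finS_of (hstage : ∀ (G : Type) [Group G] [Countable G]
    (q : Multiplicative ℚ →* G) (β : ℕ → Subgroup G), QS q β →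
    ∃ (G' : Type) (_ : Group G') (_ : Countable G') (i : G →* G') (q' : Multiplicative ℚ →* G')
      (β' : ℕ → Subgroup G') (E : Subgroup G'), QEmb i q β q' β' ∧ StageOut q' β' i.range E) :
    ∃ (G : Type) (_ : Group G) (_ : Countable G) (q : Multiplicative ℚ →* G)
    (β : ℕ → Subgroup G) (Γ E : ℕ → Subgroup G), FinS q β Γ E := by
  have hstep : ∀ s : QSt, ∃ t : QSt, Nonempty (QStep s t) := by
    intro s
    obtain ⟨G', g1, g2, i, q', β', E, h1, h2⟩ := hstage s.G s.q s.β s.qs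
    exact ⟨⟨G', q', β', h2.qs⟩, ⟨⟨i, E, h1, h2⟩⟩⟩
  choose next hnext using hstep
  obtain ⟨G, g1, g2, q, β, hq, hlev⟩ := base
  exact h28_finS_of_seq (QSt.seq next ⟨G, q, β, hq⟩)
    (fun n => (hnext (QSt.seq next ⟨G, q, β, hq⟩ n)).some) hlev

end l6

end Pool.Agent.Helper98.AAD
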