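import Pool.Agent.Helper98.AAD.D
import Pool.Agent.Helper98.AAD.R5
import Pool.Agent.Helper62.Amal.Reduction

/-!
Layer 6 of project AAD (problem MP_aade38_al): from the countable amalgam without coatoms above the
`E k` to the frozen negation, through the reduction of `Helper62.Amal`.
-/

set_option autoImplicit false

namespace Pool.Agent.Helper98.AAD

section main

variable {G : Type} [Group G] {q : Multiplicative ℚ →* G} {β : ℕ → Subgroup G}
  {Γ E : ℕ → Subgroup G}

/-- the amalgam property in the form used by the reduction -/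
theorem QS.isAmalgam (hq : QS q β) :
    Pool.Agent.Helper62.Amal.IsAmalgam (β 0 ⊔ q.range) (Bb β) := by
  intro K _ f g hfg
  have hL : q.range ≤ β 0 ⊔ q.range := le_sup_right
  have hC : β 0 ≤ β 0 ⊔ q.range := le_sup_left
  obtain ⟨F, hF1, hF2⟩ := hq.ra.up K g (f.comp (Subgroup.inclusion hL)) (by
    intro z hX hL'
    exact (hfg z (hL hL') hX).symm) (by
    intro t y hy h
    have h1 : (t : G) * y * (t : G)⁻¹ ∈ β 0 := hq.ra.norm t t.2 y hy
    rw [← hfg _ (hC h1) h]
    have h2 := hfg y (hC hy) y.2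
    have h3 : g y = f ⟨y, hC hy⟩ := h2.symm
    rw [h3]
    show f _ = f _ * f _ * (f _)⁻¹
    rw [← map_inv, ← map_mul, ← map_mul]
    rfl)
  refine ⟨F, ?_, hF1⟩
  intro a
  have hle : β 0 ⊔ q.range ≤ ((F.comp (β 0 ⊔ q.range).subtype).eqLocus f).map
      (β 0 ⊔ q.range).subtype := by
    refine sup_le (fun c hc => ?_) (fun t ht => ?_)
    · refine ⟨⟨c, hC hc⟩, ?_, rfl⟩
      show F c = f _
      have hB : c ∈ Bb β := hq.ra.le hc
      rw [hfg c (hC hc) hB]
      exact hF1 ⟨c, hB⟩
    · refine ⟨⟨t, hL ht⟩, ?_, rfl⟩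
      exact hF2 ⟨t, ht⟩
  obtain ⟨x, hx, hx'⟩ := hle a.2
  have : x = a := Subtype.ext hx'
  rw [this] at hx
  exact hx

theorem FinS.B_le_commutator (h : FinS q β Γ E) : Bb β ≤ commutator G := by
  refine h.normal inferInstance fun c hc => ?_
  obtain ⟨k, hk⟩ := h.ex c
  have h1 := h.nc k hk hc
  have h2 : Subgroup.normalClosure (comms (E k) (Γ (k + 1))) ≤ commutator G := by
    apply Subgroup.normalClosure_le_normal
    rintro _ ⟨e, -, y, -, rfl⟩
    exact Pool.Agent.Helper62.Amal.Data.mem_commutator e y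
  exact h2 h1

/-- the divisible abelianisation -/
theorem FinS.div_ab (h : FinS q β Γ E) : ∀ n > 0, ∀ x : G, ∃ y, y ^ n * x⁻¹ ∈ commutator G := by
  intro n hn x
  have htop : commutator G ⊔ q.range = ⊤ := by
    rw [eq_top_iff, ← h.qs.ra.gen]
    exact sup_le_sup_right h.B_le_commutator _
  have hx : x ∈ commutator G ⊔ q.range := by rw [htop]; trivial
  rw [Subgroup.mem_sup_of_normal_left] at hx
  obtain ⟨c, hc, _, ⟨t, rfl⟩, rfl⟩ := hx
  refine ⟨q (Multiplicative.ofAdd (t.toAdd / n)), ?_⟩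
  have h1 : (Multiplicative.ofAdd (t.toAdd / n)) ^ n = t := by
    apply Multiplicative.toAdd.injective
    rw [toAdd_pow, toAdd_ofAdd, nsmul_eq_mul]
    have : (n : ℚ) ≠ 0 := by exact_mod_cast hn.ne'
    field_simp
  rw [← map_pow, h1, mul_inv_rev, mul_inv_cancel_left]
  exact (commutator G).inv_mem hc

/-- the final structure gives the frozen negation -/
theorem FinS.negation [Countable G] (h : FinS q β Γ E) :
    ¬ (∀ (G : Bool → Type) [∀ i, Group (G i)] (H : Type) [Group H]
      (φ : ∀ i, H →* G i),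
      (∀ i, Function.Injective (φ i)) →
      (∀ i, ¬ Function.Surjective (φ i)) →
      ∃ M : Subgroup (Monoid.PushoutI φ), IsCoatom M) := by
  refine Pool.Agent.Helper62.Amal.reduction2
    (D := { Γ := Γ
            mono := h.mono
            cover := h.ex
            E := E
            hEΓ := h.EΓ
            comm := h.comm
            ab := h.ab
            div := fun k n hn e he => h.div k e he n hn.ne' })
    (β 0 ⊔ q.range) (Bb β) ?_ h.qs.isAmalgam ?_ ?_ ?_ ?_ ?_
  · rw [eq_top_iff, ← h.qs.ra.gen]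
    exact sup_le le_sup_right (le_sup_right.trans le_sup_left)
  · intro hle
    have h1 : q (Multiplicative.ofAdd (1 : ℚ)) ∈ Bb β := hle (Subgroup.mem_sup_right ⟨_, rfl⟩)
    have h2 := h.qs.disj _ (h.qs.ra.inter _ ⟨_, rfl⟩ h1)
    have h3 : (1 : ℚ) = 0 := congrArg Multiplicative.toAdd h2
    exact one_ne_zero h3
  · intro hle
    obtain ⟨b, hb, hb'⟩ := h.lev 0
    exact hb' (h.qs.lev_inter 0 (hle (β_le_Bb β _ hb)) (β_le_Bb β _ hb))
  · intro k e he
    exact ⟨Subgroup.mem_sup_left (h.EC k he), β_le_Bb β 0 (h.EC k he)⟩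
  · intro k0 M hM hc
    exact h.d hc hM
  · intro n hn x
    obtain ⟨y, hy⟩ := h.div_ab n hn x
    exact ⟨y, Subgroup.mem_sup_left hy⟩

end main

end Pool.Agent.Helper98.AAD
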