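import Pool.Agent.Helper98.AAD.DefsV

/-!
Project AAD, module P5: the closed case.
-/

set_option autoImplicit false

namespace Pool.Agent.Helper98.AAD

section p5

/-- a subgroup with `M ⊔ N = ⊤`, `N` normal, all of whose cosets are represented by a countable
set of elements: uncountable families meet a coset twice -/
theorem pigeon5 {G K : Type} [Group G] [Countable G] [Group K] {M : Subgroup K}
    (f : G →* K) (hn : f.range.Normal) (hM : IsCoatom M) (hf : ¬ f.range ≤ M) (u : Set ℕ → K) :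
    ∃ S S' : Set ℕ, S ≠ S' ∧ u S * (u S')⁻¹ ∈ M := by
  have h1 : M ⊔ f.range = ⊤ := by
    apply hM.2
    refine lt_of_le_of_ne le_sup_left fun h => hf ?_
    rw [h]
    exact le_sup_right
  have h2 : ∀ x : K, ∃ g : G, ∃ m ∈ M, x = m * f g := by
    intro x
    have hx : x ∈ M ⊔ f.range := by rw [h1]; exact Subgroup.mem_top x
    obtain ⟨m, hm, z, ⟨g, rfl⟩, h3⟩ := Subgroup.mem_sup_of_normal_right.mp hx
    exact ⟨g, m, hm, h3.symm⟩
  choose g m hm hgm using fun S => h2 (u S)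
  obtain ⟨e, he⟩ := exists_injective_nat G
  have h3 : ¬ Function.Injective fun S => e (g S) := Function.cantor_injective _
  rw [Function.not_injective_iff] at h3
  obtain ⟨S, S', h4, h5⟩ := h3
  refine ⟨S, S', h5, ?_⟩
  have h6 : g S = g S' := he h4
  rw [hgm S, hgm S', h6]
  have h7 : m S * f (g S') * (m S' * f (g S'))⁻¹ = m S * (m S')⁻¹ := by group
  rw [h7]
  exact mul_mem (hm S) (inv_mem (hm S'))

/-- the same, with a first difference of the two sets -/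
theorem pigeon5' {G K : Type} [Group G] [Countable G] [Group K] {M : Subgroup K}
    (f : G →* K) (hn : f.range.Normal) (hM : IsCoatom M) (hf : ¬ f.range ≤ M) (u : Set ℕ → K) :
    ∃ (S S' : Set ℕ) (i : ℕ), i ∈ S ∧ i ∉ S' ∧ (∀ j, j < i → (j ∈ S ↔ j ∈ S')) ∧
      u S * (u S')⁻¹ ∈ M := by
  classical
  obtain ⟨S, S', hne, hS⟩ := pigeon5 f hn hM hf u
  have h1 : ∃ i, ¬ (i ∈ S ↔ i ∈ S') := by
    by_contra h2
    push Not at h2
    exact hne (Set.ext h2)
  set i := Nat.find h1 with hi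
  have h2 : ¬ (i ∈ S ↔ i ∈ S') := Nat.find_spec h1
  have h3 : ∀ j, j < i → (j ∈ S ↔ j ∈ S') := fun j hj => not_not.mp (Nat.find_min h1 hj)
  by_cases h4 : i ∈ S
  · exact ⟨S, S', i, h4, fun h5 => h2 ⟨fun _ => h5, fun _ => h4⟩, h3, hS⟩
  · have h5 : i ∈ S' := by
      by_contra h6
      exact h2 ⟨fun h => absurd h h4, fun h => absurd h h6⟩
    refine ⟨S', S, i, h5, h4, fun j hj => (h3 j hj).symm, ?_⟩
    have h6 := inv_mem hS
    rwa [mul_inv_rev, inv_inv] at h6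

variable {G : Type} [Group G] {q : Multiplicative ℚ →* G} {β : ℕ → Subgroup G}
  {Γ E : ℕ → Subgroup G}

theorem range_inl_normal5 (θ : (∀ k, E k) →* MulAut G) :
    ((SemidirectProduct.inl : G →* G ⋊[θ] (∀ k, E k)).range).Normal := by
  rw [SemidirectProduct.range_inl_eq_ker_rightHom]
  infer_instance

/-- P5 : the closed case -/
theorem FinS.p5 [Countable G] (_h : FinS q β Γ E) (θ : (∀ k, E k) →* MulAut G)
    (_hθ : ∀ ē k, ∀ g ∈ Γ k, θ ē g = pr ē k * g * (pr ē k)⁻¹)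
    {M : Subgroup (G ⋊[θ] (∀ k, E k))} (hM : IsCoatom M)
    (hG : ¬ (SemidirectProduct.inl : G →* G ⋊[θ] (∀ k, E k)).range ≤ M)
    (hcl : ∀ x, (∀ k, ∃ m ∈ M, ∃ ē : ∀ k, E k, (∀ j, j < k → ē j = 1) ∧
      x = m * SemidirectProduct.inr ē) → x ∈ M) :
    ∃ k, ∀ ē : ∀ k, E k, (∀ j, j < k → ē j = 1) →
      (SemidirectProduct.inr ē : G ⋊[θ] (∀ k, E k)) ∈ M := by
  classical
  by_contra hcon
  push Not at hcon
  choose a ha haM using hcon
  -- the level `l k`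
  have h1 : ∀ k, ∃ l, k < l ∧ ∀ m ∈ M, ∀ ē : ∀ k, E k, (∀ j, j < l → ē j = 1) →
      (SemidirectProduct.inr (a k) : G ⋊[θ] (∀ k, E k)) ≠ m * SemidirectProduct.inr ē := by
    intro k
    have h2 : ¬ ∀ l, ∃ m ∈ M, ∃ ē : ∀ k, E k, (∀ j, j < l → ē j = 1) ∧
        (SemidirectProduct.inr (a k) : G ⋊[θ] (∀ k, E k)) = m * SemidirectProduct.inr ē :=
      fun h3 => haM k (hcl _ h3)
    push Not at h2
    obtain ⟨l, hl⟩ := h2
    refine ⟨max l (k + 1), lt_of_lt_of_le (Nat.lt_succ_self k) (le_max_right _ _), ?_⟩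
    intro m hm ē hē
    exact hl m hm ē fun j hj => hē j (lt_of_lt_of_le hj (le_max_left _ _))
  choose l hl1 hl2 using h1
  -- the blocks
  obtain ⟨κ, hκ0, hκ1⟩ : ∃ κ : ℕ → ℕ, κ 0 = 0 ∧ ∀ i, κ (i + 1) = l (κ i) :=
    ⟨fun i => Nat.rec 0 (fun _ k => l k) i, rfl, fun i => rfl⟩
  have hκ : StrictMono κ := strictMono_nat_of_lt_succ fun i => by rw [hκ1]; exact hl1 _
  have huniq : ∀ i i' j, κ i ≤ j → j < κ (i + 1) → κ i' ≤ j → j < κ (i' + 1) → i = i' := by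
    intro i i' j h1 h2 h3 h4
    have h5 : κ i < κ (i' + 1) := lt_of_le_of_lt h1 h4
    have h6 : κ i' < κ (i + 1) := lt_of_le_of_lt h3 h2
    have h7 := hκ.lt_iff_lt.mp h5
    have h8 := hκ.lt_iff_lt.mp h6
    omega
  let v : Set ℕ → ∀ k, E k := fun S j =>
    if h : ∃ i, i ∈ S ∧ κ i ≤ j ∧ j < κ (i + 1) then a (κ h.choose) j else 1
  have hv1 : ∀ (S : Set ℕ) (i j : ℕ), i ∈ S → κ i ≤ j → j < κ (i + 1) → v S j = a (κ i) j := by
    intro S i j hi h1 h2
    have h : ∃ i, i ∈ S ∧ κ i ≤ j ∧ j < κ (i + 1) := ⟨i, hi, h1, h2⟩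
    have h3 : h.choose = i := huniq _ _ j h.choose_spec.2.1 h.choose_spec.2.2 h1 h2
    change (if h : ∃ i, i ∈ S ∧ κ i ≤ j ∧ j < κ (i + 1) then a (κ h.choose) j else 1) = _
    rw [dif_pos h, h3]
  have hv2 : ∀ (S : Set ℕ) (i j : ℕ), i ∉ S → κ i ≤ j → j < κ (i + 1) → v S j = 1 := by
    intro S i j hi h1 h2
    have h : ¬ ∃ i, i ∈ S ∧ κ i ≤ j ∧ j < κ (i + 1) := by
      rintro ⟨i', hi', h3, h4⟩
      have := huniq _ _ j h3 h4 h1 h2
      rw [this] at hi'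
      exact hi hi'
    change (if h : ∃ i, i ∈ S ∧ κ i ≤ j ∧ j < κ (i + 1) then a (κ h.choose) j else 1) = _
    rw [dif_neg h]
  have hv3 : ∀ (S S' : Set ℕ) (i j : ℕ), (∀ i', i' < i → (i' ∈ S ↔ i' ∈ S')) → j < κ i →
      v S j = v S' j := by
    intro S S' i j hSS hj
    have hblk : ∃ i', κ i' ≤ j ∧ j < κ (i' + 1) := by
      have h1 : ∃ n, j < κ n := ⟨i, hj⟩
      have h2 := Nat.find_spec h1
      have h3 : Nat.find h1 ≠ 0 := by
        intro h4
        rw [h4, hκ0] at h2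
        exact Nat.not_lt_zero _ h2
      obtain ⟨n, hn⟩ := Nat.exists_eq_succ_of_ne_zero h3
      refine ⟨n, ?_, ?_⟩
      · have h4 := Nat.find_min h1 (m := n) (by omega)
        omega
      · rw [← Nat.succ_eq_add_one, ← hn]
        exact h2
    obtain ⟨i', h1, h2⟩ := hblk
    have h3 : i' < i := by
      have h4 : κ i' < κ i := lt_of_le_of_lt h1 hj
      exact hκ.lt_iff_lt.mp h4
    by_cases h4 : i' ∈ S
    · rw [hv1 S i' j h4 h1 h2, hv1 S' i' j ((hSS i' h3).mp h4) h1 h2]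
    · rw [hv2 S i' j h4 h1 h2, hv2 S' i' j (fun h5 => h4 ((hSS i' h3).mpr h5)) h1 h2]
  obtain ⟨S, S', i, hi, hi', hSS, hmem⟩ := pigeon5'
    (SemidirectProduct.inl : G →* G ⋊[θ] (∀ k, E k)) (range_inl_normal5 θ) hM hG
    (fun S => SemidirectProduct.inr (v S))
  rw [← map_inv, ← map_mul] at hmem
  set z : ∀ k, E k := v S * (v S')⁻¹ with hz
  -- the contradiction
  have h1 : ∀ j, j < l (κ i) → ((z⁻¹ * a (κ i)) : ∀ k, E k) j = 1 := by
    intro j hj
    rw [Pi.mul_apply, Pi.inv_apply]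
    rcases lt_or_ge j (κ i) with hjk | hjk
    · rw [ha (κ i) j hjk, mul_one, hz, Pi.mul_apply, Pi.inv_apply, hv3 S S' i j hSS hjk,
        mul_inv_cancel, inv_one]
    · rw [hz, Pi.mul_apply, Pi.inv_apply, hv1 S i j hi hjk (by rw [hκ1]; exact hj),
        hv2 S' i j hi' hjk (by rw [hκ1]; exact hj), inv_one, mul_one, inv_mul_cancel]
  refine hl2 (κ i) _ hmem (z⁻¹ * a (κ i)) h1 ?_
  rw [← map_mul, mul_inv_cancel_left]

end p5

end Pool.Agent.Helper98.AAD
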