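import Pool.Agent.Helper98.AAD.R1
import Pool.Agent.Helper98.AAD.R2

/-!
# AAD, Q10: elements of the same shape
-/

set_option autoImplicit false

namespace Pool.Agent.Helper98.AAD

section q10

variable {G : Type} [Group G] {q : Multiplicative ℚ →* G} {β : ℕ → Subgroup G}

theorem h62_mem_Bb (hm : Monotone β) {x : G} : x ∈ Bb β ↔ ∃ j, x ∈ β j :=
  Subgroup.mem_iSup_of_directed hm.directed_le

theorem SameLev.refl (β : ℕ → Subgroup G) (b : G) : SameLev β b b := fun _ => Iff.rfl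

theorem SameLev.symm {b b' : G} (h : SameLev β b b') : SameLev β b' b := fun j => (h j).symm

theorem SameLev.trans {b b' b'' : G} (h : SameLev β b b') (h' : SameLev β b' b'') :
    SameLev β b b'' := fun j => (h j).trans (h' j)

theorem SameLev.inv {b b' : G} (h : SameLev β b b') : SameLev β b⁻¹ b'⁻¹ := fun j => by
  rw [(β j).inv_mem_iff, (β j).inv_mem_iff]; exact h j

theorem SameLev.mem_Bb (hm : Monotone β) {b b' : G} (h : SameLev β b b') (hb : b ∈ Bb β) :
    b' ∈ Bb β := by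
  rw [h62_mem_Bb hm] at hb ⊢
  obtain ⟨j, hj⟩ := hb
  exact ⟨j, (h j).1 hj⟩

/-- multiplying by elements of `β 0` does not change levels -/
theorem SameLev.mul_mul (hm : Monotone β) {b b' c c' d d' : G} (h : SameLev β b b')
    (hc : c ∈ β 0) (hc' : c' ∈ β 0) (hd : d ∈ β 0) (hd' : d' ∈ β 0) :
    SameLev β (c * b * d) (c' * b' * d') := fun j => by
  have m := hm (Nat.zero_le j)
  rw [(β j).mul_mem_cancel_right (m hd), (β j).mul_mem_cancel_left (m hc),
    (β j).mul_mem_cancel_right (m hd'), (β j).mul_mem_cancel_left (m hc')]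
  exact h j

theorem SameLev.of_mem (hm : Monotone β) {c c' : G} (hc : c ∈ β 0) (hc' : c' ∈ β 0) :
    SameLev β c c' := fun j =>
  ⟨fun _ => hm (Nat.zero_le j) hc', fun _ => hm (Nat.zero_le j) hc⟩

/-- the relation on the entries of two lists of the same shape -/
def ShE (β : ℕ → Subgroup G) (p p' : G × G) : Prop := p.1 = p'.1 ∧ SameLev β p.2 p'.2

theorem ShE.rd (hm : Monotone β) {l l' : List (G × G)} (hl : Rq q β l)
    (h : List.Forall₂ (ShE β) l l') : Rq q β l' := by
  induction h with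
  | nil => trivial
  | @cons p p' l l' hp hll ih =>
    obtain ⟨h1, h2, h3, h4, h5⟩ := hl
    refine ⟨hp.1 ▸ h1, hp.1 ▸ h2, hp.2.mem_Bb hm h3, fun hne => ?_, ih h5⟩
    have hne' : l ≠ [] := by
      intro h0
      subst h0
      cases hll
      exact hne rfl
    exact fun h0 => h4 hne' ((hp.2 0).2 h0)

theorem ShE.symm {l l' : List (G × G)} (h : List.Forall₂ (ShE β) l l') :
    List.Forall₂ (ShE β) l' l := by
  induction h with
  | nil => exact List.Forall₂.nil
  | cons hp _ ih => exact List.Forall₂.cons ⟨hp.1.symm, hp.2.symm⟩ ih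

theorem ShE.trans {l l' l'' : List (G × G)} (h : List.Forall₂ (ShE β) l l')
    (h' : List.Forall₂ (ShE β) l' l'') : List.Forall₂ (ShE β) l l'' := by
  induction h generalizing l'' with
  | nil => cases h'; exact List.Forall₂.nil
  | cons hp _ ih =>
    cases h' with
    | cons hp' hll' => exact List.Forall₂.cons ⟨hp.1.trans hp'.1, hp.2.trans hp'.2⟩ (ih hll')

theorem Sh.symm (hq : QS q β) {x x' : G} (h : Sh q β x x') : Sh q β x' x := by
  obtain ⟨b, b', l, l', hb, hbb, hl, hll, e, e'⟩ := h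
  exact ⟨b', b, l', l, hbb.mem_Bb hq.mono hb, hbb.symm, ShE.rd hq.mono hl hll, ShE.symm hll, e', e⟩

/-- shifted lists have the same shape -/
theorem Sim.she (hq : QS q β) {y : G} {l l' : List (G × G)} (h : Sim (β 0) y l l')
    (hl : Rq q β l) (hl' : Rq q β l') : List.Forall₂ (ShE β) l l' := by
  induction h with
  | nil => exact List.Forall₂.nil
  | @cons y t x t' x' l l' hy hs hsim ih =>
    obtain ⟨⟨s, hs1⟩, h2, h3, h4, h5⟩ := hl
    obtain ⟨⟨s', hs1'⟩, h2', h3', h4', h5'⟩ := hl'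
    refine List.Forall₂.cons ⟨?_, ?_⟩ (ih h5 h5')
    · show t = t'
      have h6 : q (s⁻¹ * s') ∈ β 0 := by
        have e1 : q s = t := hs1
        have e2 : q s' = t' := hs1'
        have e : q (s⁻¹ * s') = (t⁻¹ * y * t') * (t'⁻¹ * y⁻¹ * t'⁻¹⁻¹) := by
          rw [map_mul, map_inv, e1, e2]; group
        rw [e]
        refine (β 0).mul_mem hs ?_
        refine hq.ra.norm t'⁻¹ ?_ _ ((β 0).inv_mem hy)
        rw [← e2]
        exact q.range.inv_mem ⟨s', rfl⟩
      have h7 := hq.disj _ h6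
      have h8 : s = s' := by rw [inv_mul_eq_one] at h7; exact h7
      rw [← show q s = t from hs1, ← show q s' = t' from hs1', h8]
    · show SameLev β x x'
      have h6 : x⁻¹ * (t⁻¹ * y * t') * x' ∈ β 0 := hsim.mem
      have e : x' = (t⁻¹ * y * t')⁻¹ * x * (x⁻¹ * (t⁻¹ * y * t') * x') := by group
      have h7 := (SameLev.refl β x).mul_mul hq.mono (β 0).one_mem ((β 0).inv_mem hs)
        (β 0).one_mem h6
      rw [← e, one_mul, mul_one] at h7
      exact h7

/-- two forms of the same element -/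
theorem form_she (hq : QS q β) {b b1 : G} {l l1 : List (G × G)} (hb : b ∈ Bb β)
    (hb1 : b1 ∈ Bb β) (hl : Rq q β l) (hl1 : Rq q β l1) (e : b * wp l = b1 * wp l1) :
    SameLev β b b1 ∧ List.Forall₂ (ShE β) l l1 := by
  have e1 : wp l = (b⁻¹ * b1) * wp l1 := by rw [mul_assoc, ← e]; group
  have hs := hq.ra.sim ((Bb β).mul_mem ((Bb β).inv_mem hb) hb1) hl hl1 e1
  refine ⟨?_, hs.she hq hl hl1⟩
  have h1 : b⁻¹ * b1 ∈ β 0 := hs.mem
  have h2 := (SameLev.refl β b).mul_mul hq.mono (β 0).one_mem (β 0).one_mem (β 0).one_mem h1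
  rw [one_mul, mul_one, mul_inv_cancel_left] at h2
  exact h2

/-- Q10 : `Sh` does not depend on the reduced forms -/
theorem Sh.forms (hq : QS q β) {x x' : G} (h : Sh q β x x') {b b' : G} {l l' : List (G × G)}
    (hb : b ∈ Bb β) (hb' : b' ∈ Bb β) (hl : Rq q β l) (hl' : Rq q β l') (e : x = b * wp l)
    (e' : x' = b' * wp l') : SameLev β b b' ∧
      List.Forall₂ (fun p p' => p.1 = p'.1 ∧ SameLev β p.2 p'.2) l l' := by
  obtain ⟨b1, b1', l1, l1', hb1, hbb, hl1, hll, e1, e1'⟩ := h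
  have hb1' := hbb.mem_Bb hq.mono hb1
  have hl1' := ShE.rd hq.mono hl1 hll
  obtain ⟨h1, h2⟩ := form_she hq hb hb1 hl hl1 (e.symm.trans e1)
  obtain ⟨h3, h4⟩ := form_she hq hb1' hb' hl1' hl' (e1'.symm.trans e')
  exact ⟨h1.trans (hbb.trans h3), ShE.trans h2 (ShE.trans hll h4)⟩

/-- the inverse of a form, with an accumulator -/
def riv : G → List (G × G) → List (G × G) → G × List (G × G)
  | b, [], acc => (b⁻¹, acc)
  | b, p :: l, acc => riv p.2 l ((p.1⁻¹, b⁻¹) :: acc)

theorem riv_wp (l : List (G × G)) : ∀ (b : G) (acc : List (G × G)),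
    (riv b l acc).1 * wp (riv b l acc).2 = (b * wp l)⁻¹ * wp acc := by
  induction l with
  | nil => intro b acc; simp [riv, wp]
  | cons p l ih =>
    intro b acc
    simp only [riv]
    rw [ih]
    simp only [wp]
    group

theorem riv_rd {X Y L : Subgroup G} (l : List (G × G)) : ∀ (b : G) (acc : List (G × G)), b ∈ X →
    Rd X Y L l → Rd X Y L acc → (l ≠ [] → acc ≠ [] → b ∉ Y) →
    (riv b l acc).1 ∈ X ∧ Rd X Y L (riv b l acc).2 := by
  induction l with
  | nil => intro b acc hb _ h2 _; exact ⟨X.inv_mem hb, h2⟩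
  | cons p l ih =>
    intro b acc hb h1 h2 h3
    obtain ⟨a1, a2, a3, a4, a5⟩ := h1
    simp only [riv]
    refine ih _ _ a3 a5 ⟨L.inv_mem a1, fun h => a2 (Y.inv_mem_iff.1 h), X.inv_mem hb,
      fun hne h => h3 (by simp) hne (Y.inv_mem_iff.1 h), h2⟩ (fun hne _ => a4 hne)

theorem riv_she {l l' : List (G × G)} (h : List.Forall₂ (ShE β) l l') :
    ∀ (b b' : G) (acc acc' : List (G × G)), SameLev β b b' → List.Forall₂ (ShE β) acc acc' →
    SameLev β (riv b l acc).1 (riv b' l' acc').1 ∧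
      List.Forall₂ (ShE β) (riv b l acc).2 (riv b' l' acc').2 := by
  induction h with
  | nil => intro b b' acc acc' hb hacc; exact ⟨hb.inv, hacc⟩
  | @cons p p' l l' hp _ ih =>
    intro b b' acc acc' hb hacc
    simp only [riv]
    exact ih _ _ _ _ hp.2 (List.Forall₂.cons ⟨by show p.1⁻¹ = p'.1⁻¹; rw [hp.1], hb.inv⟩ hacc)

/-- Q11 : symmetry properties of `Sh` -/
theorem Sh.inv (hq : QS q β) {x x' : G} (h : Sh q β x x') : Sh q β x⁻¹ x'⁻¹ := by
  have _ := hq.mono
  obtain ⟨b, b', l, l', hb, hbb, hl, hll, e, e'⟩ := h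
  obtain ⟨h1, h2⟩ := riv_rd l b [] hb hl trivial (fun _ h => absurd rfl h)
  obtain ⟨h3, h4⟩ := riv_she hll b b' [] [] hbb List.Forall₂.nil
  have e1 := riv_wp l b []
  have e2 := riv_wp l' b' []
  refine ⟨_, _, _, _, h1, h3, h2, h4, ?_, ?_⟩
  · rw [e1, ← e]; simp [wp]
  · rw [e2, ← e']; simp [wp]

theorem Sh.q_mul (hq : QS q β) {x x' : G} (h : Sh q β x x') (t : Multiplicative ℚ) :
    Sh q β (q t * x) (q t * x') := by
  by_cases ht : t = 1
  · subst ht; simpa using h
  have htY : q t ∉ β 0 := fun h => ht (hq.disj t h)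
  obtain ⟨b, b', l, l', hb, hbb, hl, hll, e, e'⟩ := h
  have hb' := hbb.mem_Bb hq.mono hb
  have hnorm : ∀ c ∈ β 0, q t * c * (q t)⁻¹ ∈ β 0 := hq.ra.norm (q t) ⟨t, rfl⟩
  by_cases hcase : l ≠ [] → b ∉ β 0
  · refine ⟨1, 1, (q t, b) :: l, (q t, b') :: l', (Bb β).one_mem, SameLev.refl β 1,
      ⟨⟨t, rfl⟩, htY, hb, hcase, hl⟩, List.Forall₂.cons ⟨rfl, hbb⟩ hll, ?_, ?_⟩
    · rw [e]; simp [wp, mul_assoc]
    · rw [e']; simp [wp, mul_assoc]
  · push Not at hcase
    obtain ⟨hne, hb0⟩ := hcase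
    have hb0' := (hbb 0).1 hb0
    cases hll with
    | nil => exact absurd rfl hne
    | @cons p p' m m' hp hmm =>
      obtain ⟨⟨s, hs⟩, a2, a3, a4, a5⟩ := hl
      have hs' : q s = p'.1 := by rw [← hp.1]; exact hs
      have hs : q s = p.1 := hs
      by_cases hts : t * s = 1
      · have h1 : q t * p.1 = 1 := by rw [← hs, ← map_mul, hts, map_one]
        have h2 : q t * p'.1 = 1 := by rw [← hs', ← map_mul, hts, map_one]
        refine ⟨q t * b * (q t)⁻¹ * p.2 * 1, q t * b' * (q t)⁻¹ * p'.2 * 1, m, m',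
          ?_, hp.2.mul_mul hq.mono (hnorm b hb0) (hnorm b' hb0') (β 0).one_mem (β 0).one_mem,
          a5, hmm, ?_, ?_⟩
        · rw [mul_one]
          exact (Bb β).mul_mem (hq.ra.le (hnorm b hb0)) a3
        · rw [e]
          simp only [wp]
          have h3 : p.1 = (q t)⁻¹ := eq_inv_of_mul_eq_one_right h1
          rw [h3]; group
        · rw [e']
          simp only [wp]
          have h3 : p'.1 = (q t)⁻¹ := eq_inv_of_mul_eq_one_right h2
          rw [h3]; group
      · have h1 : q t * p.1 ∉ β 0 := by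
          rw [← hs, ← map_mul]
          exact fun h => hts (hq.disj _ h)
        refine ⟨q t * b * (q t)⁻¹, q t * b' * (q t)⁻¹, (q t * p.1, p.2) :: m,
          (q t * p'.1, p'.2) :: m', hq.ra.le (hnorm b hb0),
          SameLev.of_mem hq.mono (hnorm b hb0) (hnorm b' hb0'),
          ⟨⟨t * s, by rw [map_mul, hs]⟩, h1, a3, a4, a5⟩,
          List.Forall₂.cons ⟨by rw [hp.1], hp.2⟩ hmm, ?_, ?_⟩
        · rw [e]; simp only [wp]; group
        · rw [e']; simp only [wp]; group

theorem Sh.mul_q (hq : QS q β) {x x' : G} (h : Sh q β x x') (t : Multiplicative ℚ) :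
    Sh q β (x * q t) (x' * q t) := by
  have h1 := ((h.inv hq).q_mul hq t⁻¹).inv hq
  simpa using h1

theorem Sh.lev (hq : QS q β) {x x' : G} (h : Sh q β x x') (j : ℕ) : x ∈ β j ↔ x' ∈ β j := by
  have key : ∀ x x' : G, Sh q β x x' → x ∈ β j → x' ∈ β j := by
    intro x x' h hx
    obtain ⟨b, b', l, l', hb, hbb, hl, hll, e, e'⟩ := h
    by_cases hne : l = []
    · subst hne
      cases hll
      simp only [wp, mul_one] at e e'
      rw [e']
      rw [e] at hx
      exact (hbb j).1 hx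
    · exact absurd ((h62_mem_Bb hq.mono).2 ⟨j, hx⟩) (by rw [e]; exact hq.ra.nf b hb l hl hne)
  exact ⟨key x x' h, key x' x (h.symm hq)⟩

end q10

end Pool.Agent.Helper98.AAD
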