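import Pool.Agent.Helper98.AAD.DefsV
import Pool.Agent.Helper98.AAD.R2
import Pool.Agent.Helper98.AAD.R3

/-!
# Project AAD, module V0: the powers of `f` and of `f z f` are free over `Γ ⊔ F`
-/

set_option autoImplicit false

namespace Pool.Agent.Helper98.AAD

section v0

variable {G : Type} [Group G] {q : Multiplicative ℚ →* G} {β : ℕ → Subgroup G}
  {Γ E F M : Subgroup G} {e r : G} {lg : List (G × G)}

/-- elements of `Γ ⊔ E'` for a subgroup `E'` commuting with `Γ` -/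
private theorem h82_sup {Γ E' : Subgroup G} (hc : ∀ x ∈ E', ∀ g ∈ Γ, x * g = g * x) {n : G}
    (hn : n ∈ Γ ⊔ E') : ∃ ν ∈ Γ, ∃ t ∈ E', n = ν * t := by
  let K : Subgroup G :=
    { carrier := {n | ∃ ν ∈ Γ, ∃ t ∈ E', n = ν * t}
      one_mem' := ⟨1, Γ.one_mem, 1, E'.one_mem, by simp⟩
      mul_mem' := by
        rintro _ _ ⟨ν, hν, t, ht, rfl⟩ ⟨ν', hν', t', ht', rfl⟩
        refine ⟨ν * ν', Γ.mul_mem hν hν', t * t', E'.mul_mem ht ht', ?_⟩
        calc ν * t * (ν' * t') = ν * (t * ν') * t' := by simp only [mul_assoc]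
          _ = ν * ν' * (t * t') := by rw [hc t ht ν' hν']; simp only [mul_assoc]
      inv_mem' := by
        rintro _ ⟨ν, hν, t, ht, rfl⟩
        refine ⟨ν⁻¹, Γ.inv_mem hν, t⁻¹, E'.inv_mem ht, ?_⟩
        rw [mul_inv_rev]
        exact hc t⁻¹ (E'.inv_mem ht) ν⁻¹ (Γ.inv_mem hν) }
  have hK : Γ ⊔ E' ≤ K := by
    refine sup_le ?_ ?_
    · intro x hx
      exact ⟨x, hx, 1, E'.one_mem, by simp⟩
    · intro x hx
      exact ⟨1, Γ.one_mem, x, hx, by simp⟩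
  exact hK hn

private theorem h82_gM (h : VC q β Γ E F M e r lg) : gV r lg ∈ M := by
  unfold gV
  refine M.mul_mem h.rM ?_
  have : ∀ l : List (G × G), (∀ p ∈ l, p.1 ∈ M ∧ p.2 ∈ M) → wp l ∈ M := by
    intro l
    induction l with
    | nil => intro _; exact M.one_mem
    | cons p l ih =>
      intro hl
      have hp := hl p (List.mem_cons_self)
      exact M.mul_mem (M.mul_mem hp.1 hp.2) (ih fun q hq => hl q (List.mem_cons_of_mem _ hq))
  exact this lg h.lgM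

private theorem h82_ΓM (h : VC q β Γ E F M e r lg) : Γ ≤ M :=
  le_sup_left.trans h.ra.le

/-- `g` is not in `N` -/
private theorem h82_gN (h : VC q β Γ E F M e r lg) : gV r lg ∉ Γ ⊔ E := by
  intro hg
  obtain ⟨γ, hγ, ε, hε, e1⟩ := h82_sup (fun x hx g hg => h.st.comm x (h.EF hx) g hg) hg
  have hεB : ε ∈ Bb β := (le_iSup β 0 : β 0 ≤ Bb β) (h.st.EC (h.EF hε))
  have h0 : ql q β ε = 0 := (h.st.qs.ra.rlen_eq_zero).2 hεB
  have h1 := h.nice.2 γ⁻¹ (Γ.inv_mem hγ) 1 Γ.one_mem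
  have h2 : γ⁻¹ * (r * wp lg) * 1 = ε := by
    have : r * wp lg = γ * ε := e1
    rw [this]
    simp
  rw [h2, h0] at h1
  have h3 := h.nice.1
  omega

/-- `F ∩ N = E`, in the form needed -/
private theorem h82_FN (h : VC q β Γ E F M e r lg) {t : G} (htM : t ∈ M) (htF : t ∈ F) :
    t ∈ Γ ⊔ E := h.ra.inter t htF htM

/-- `(Γ ⊔ F) ∩ M = N` -/
private theorem h82_NFM (h : VC q β Γ E F M e r lg) {n : G} (hn : n ∈ Γ ⊔ F) (hM : n ∈ M) :
    n ∈ Γ ⊔ E := by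
  obtain ⟨ν, hν, t, ht, rfl⟩ := h82_sup (fun x hx g hg => h.st.comm x hx g hg) hn
  have htM : t ∈ M := by
    have := M.mul_mem (M.inv_mem (h82_ΓM h hν)) hM
    rwa [inv_mul_cancel_left] at this
  exact (Γ ⊔ E).mul_mem ((le_sup_left : Γ ≤ Γ ⊔ E) hν) (h82_FN h htM ht)

private theorem h82_N_le (h : VC q β Γ E F M e r lg) : Γ ⊔ E ≤ Γ ⊔ F :=
  sup_le_sup_left h.EF Γ

/-- malnormality -/
private theorem h82_mal (h : VC q β Γ E F M e r lg) {n : G} (hn : n ∈ Γ ⊔ E) (hn1 : n ≠ 1) :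
    (gV r lg)⁻¹ * n * gV r lg ∉ Γ ⊔ E := by
  intro hcon
  have := h.st.mal n (h82_N_le h hn) hn1 (gV r lg) (h82_N_le h hcon)
  exact h82_gN h (h82_NFM h this (h82_gM h))

/-- powers of `f` -/
private theorem h82_fpow (k : ℤ) : fV e r lg ^ k = gV r lg * e ^ k * (gV r lg)⁻¹ := by
  unfold fV
  rw [conj_zpow]

private theorem h82_gν (h : VC q β Γ E F M e r lg) {ν : G} (hν : ν ∈ Γ) :
    (gV r lg)⁻¹ * ν ∉ Γ ⊔ E := by
  intro hcon
  apply h82_gN h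
  have : gV r lg = ν * ((gV r lg)⁻¹ * ν)⁻¹ := by simp
  rw [this]
  exact (Γ ⊔ E).mul_mem ((le_sup_left : Γ ≤ Γ ⊔ E) hν) ((Γ ⊔ E).inv_mem hcon)

/-- conversion of words in `f` over `Γ ⊔ F` into words in the letters of `F` over `M` -/
private theorem h82_conv' (h : VC q β Γ E F M e r lg) : ∀ l : List (G × G),
    Rd (Γ ⊔ F) ⊥ (Subgroup.zpowers (fV e r lg)) l → l ≠ [] →
      ∃ m, Rd M (Γ ⊔ E) F m ∧ m ≠ [] ∧ wp l = gV r lg * wp m := by
  intro l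
  induction l with
  | nil => intro _ hne; exact absurd rfl hne
  | cons p l ih =>
    rintro ⟨hp1, hp2, hp3, hp4, hp5⟩ -
    obtain ⟨k, hk⟩ := Subgroup.mem_zpowers_iff.1 hp1
    have hk0 : k ≠ 0 := by
      rintro rfl
      apply hp2
      rw [← hk, zpow_zero]
      exact Subgroup.mem_bot.2 rfl
    have hek : e ^ k ∈ F := F.zpow_mem h.eF k
    have hekN : e ^ k ∉ Γ ⊔ E := h.epow k hk0
    have hgM := h82_gM h
    have hgM' : (gV r lg)⁻¹ ∈ M := M.inv_mem hgM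
    obtain ⟨ν, hν, t, ht, e2⟩ := h82_sup (fun x hx g hg => h.st.comm x hx g hg) hp3
    have hνM := h82_ΓM h hν
    by_cases hl : l = []
    · subst hl
      by_cases htN : t ∈ Γ ⊔ E
      · refine ⟨[(e ^ k, (gV r lg)⁻¹ * p.2)], ⟨hek, hekN, ?_, fun hh => absurd rfl hh, trivial⟩,
          by simp, ?_⟩
        · refine M.mul_mem hgM' ?_
          rw [e2]
          exact M.mul_mem hνM (h.ra.le htN)
        · simp [wp, ← hk, h82_fpow, mul_assoc]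
      · refine ⟨[(e ^ k, (gV r lg)⁻¹ * ν), (t, 1)], ⟨hek, hekN, M.mul_mem hgM' hνM,
          fun _ => h82_gν h hν, ht, htN, M.one_mem, fun hh => absurd rfl hh, trivial⟩,
          by simp, ?_⟩
        simp [wp, ← hk, h82_fpow, mul_assoc, e2]
    · obtain ⟨m, hm, hmne, e3⟩ := ih hp5 hl
      have hp21 : p.2 ≠ 1 := fun hh => hp4 hl (Subgroup.mem_bot.2 hh)
      by_cases htN : t ∈ Γ ⊔ E
      · have hpN : p.2 ∈ Γ ⊔ E := by
          rw [e2]
          exact (Γ ⊔ E).mul_mem ((le_sup_left : Γ ≤ Γ ⊔ E) hν) htN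
        refine ⟨(e ^ k, (gV r lg)⁻¹ * p.2 * gV r lg) :: m, ⟨hek, hekN,
          M.mul_mem (M.mul_mem hgM' (h.ra.le hpN)) hgM, fun _ => h82_mal h hpN hp21, hm⟩,
          by simp, ?_⟩
        simp [wp, ← hk, h82_fpow, mul_assoc, e3]
      · refine ⟨(e ^ k, (gV r lg)⁻¹ * ν) :: (t, gV r lg) :: m, ⟨hek, hekN, M.mul_mem hgM' hνM,
          fun _ => h82_gν h hν, ht, htN, hgM, fun _ => h82_gN h, hm⟩, by simp, ?_⟩
        simp [wp, ← hk, h82_fpow, mul_assoc, e3, e2]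

/-- V0 : the powers of `f` are free over `Γ ⊔ F` -/
theorem VC.freeF (h : VC q β Γ E F M e r lg) : (∀ k : ℤ, k ≠ 0 → fV e r lg ^ k ≠ 1) ∧
    ∀ n ∈ Γ ⊔ F, ∀ l, Rd (Γ ⊔ F) ⊥ (Subgroup.zpowers (fV e r lg)) l → l ≠ [] →
      n * wp l ∉ Γ ⊔ F := by
  constructor
  · intro k hk hcon
    rw [h82_fpow] at hcon
    apply h.epow k hk
    have : e ^ k = 1 := by
      have h1 : e ^ k = (gV r lg)⁻¹ * (gV r lg * e ^ k * (gV r lg)⁻¹) * gV r lg := by
        simp [mul_assoc]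
      rw [h1, hcon]
      simp
    rw [this]
    exact (Γ ⊔ E).one_mem
  · intro n hn l hl hne hcon
    obtain ⟨m, hm, hmne, e1⟩ := h82_conv' h l hl hne
    have hgM := h82_gM h
    -- the form of the left side
    have key : ∃ x ∈ M, ∃ m', Rd M (Γ ⊔ E) F m' ∧ m' ≠ [] ∧ n * wp l = x * wp m' ∧
        (m'.length = 1 → x ∉ Γ ⊔ E) := by
      obtain ⟨ν, hν, t, ht, e2⟩ := h82_sup (fun x hx g hg => h.st.comm x hx g hg) hn
      by_cases htN : t ∈ Γ ⊔ E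
      · have hnN : n ∈ Γ ⊔ E := by
          rw [e2]
          exact (Γ ⊔ E).mul_mem ((le_sup_left : Γ ≤ Γ ⊔ E) hν) htN
        refine ⟨n * gV r lg, M.mul_mem (h.ra.le hnN) hgM, m, hm, hmne, ?_, fun _ hx => ?_⟩
        · rw [e1, mul_assoc]
        · apply h82_gN h
          have := (Γ ⊔ E).mul_mem ((Γ ⊔ E).inv_mem hnN) hx
          rwa [inv_mul_cancel_left] at this
      · refine ⟨ν, h82_ΓM h hν, (t, gV r lg) :: m, ⟨ht, htN, hgM, fun _ => h82_gN h, hm⟩,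
          by simp, ?_, fun hlen => ?_⟩
        · rw [e1, e2]
          simp [wp, mul_assoc]
        · exfalso
          rw [List.length_cons] at hlen
          exact hmne (List.eq_nil_of_length_eq_zero (by omega))
    obtain ⟨x, hx, m', hm', hm'ne, e3, hxN⟩ := key
    obtain ⟨γ, hγ, t, ht, e4⟩ := h82_sup (fun x hx g hg => h.st.comm x hx g hg) hcon
    by_cases htN : t ∈ Γ ⊔ E
    · refine h.ra.nf x hx m' hm' hm'ne ?_
      rw [← e3, e4]
      exact M.mul_mem (h82_ΓM h hγ) (h.ra.le htN)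
    · have hRd : Rd M (Γ ⊔ E) F [(t, (1 : G))] :=
        ⟨ht, htN, M.one_mem, fun hh => absurd rfl hh, trivial⟩
      have e5 : wp m' = (x⁻¹ * γ) * wp [(t, (1 : G))] := by
        have : x * wp m' = γ * t := by rw [← e3, e4]
        rw [mul_assoc]
        simp only [wp, mul_one]
        rw [← this, inv_mul_cancel_left]
      have hsim := h.ra.sim (M.mul_mem (M.inv_mem hx) (h82_ΓM h hγ)) hm' hRd e5
      have hlen := hsim.length_eq
      apply hxN (by simpa using hlen)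
      have hmem := hsim.mem
      have : x = γ * (x⁻¹ * γ)⁻¹ := by simp
      rw [this]
      exact (Γ ⊔ E).mul_mem ((le_sup_left : Γ ≤ Γ ⊔ E) hγ) ((Γ ⊔ E).inv_mem hmem)

/-- powers of `u w u` -/
private theorem h82_pow {X : Subgroup G} {f u w : G} (hu : u ∈ Subgroup.zpowers f) (hu1 : u ≠ 1)
    (huu : u * u ≠ 1) (hw : w ∈ X) (hw1 : w ≠ 1) {n1 : G} (hn1 : n1 ∈ X) {l : List (G × G)}
    (hl : Rd X ⊥ (Subgroup.zpowers f) l) (hn : l ≠ [] → n1 ∉ (⊥ : Subgroup G)) (j : ℕ) :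
    ∃ m, Rd X ⊥ (Subgroup.zpowers f) m ∧ m ≠ [] ∧
      (u * w * u) ^ (j + 1) * n1 * wp l = u * w * wp m := by
  have hbot : ∀ {y : G}, y ≠ 1 → y ∉ (⊥ : Subgroup G) := fun hy hh => hy (Subgroup.mem_bot.1 hh)
  induction j with
  | zero =>
    refine ⟨(u, n1) :: l, ⟨hu, hbot hu1, hn1, hn, hl⟩, by simp, ?_⟩
    simp [wp, mul_assoc]
  | succ j ih =>
    obtain ⟨m, hm, hmne, e1⟩ := ih
    refine ⟨(u * u, w) :: m, ⟨Subgroup.mul_mem _ hu hu, hbot huu, hw, fun _ => hbot hw1, hm⟩,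
      by simp, ?_⟩
    have e2 : (u * w * u) ^ (j + 1 + 1) * n1 * wp l =
        (u * w * u) * ((u * w * u) ^ (j + 1) * n1 * wp l) := by
      rw [pow_succ' (u * w * u) (j + 1)]
      simp only [mul_assoc]
    rw [e2, e1]
    simp [wp, mul_assoc]

/-- nonzero powers of `f z f` -/
private theorem h82_zpow {X : Subgroup G} {f z : G} (hf : ∀ k : ℤ, k ≠ 0 → f ^ k ≠ 1)
    (hz : z ∈ X) (hz1 : z ≠ 1) {n1 : G} (hn1 : n1 ∈ X) {l : List (G × G)}
    (hl : Rd X ⊥ (Subgroup.zpowers f) l) (hn : l ≠ [] → n1 ∉ (⊥ : Subgroup G)) {k : ℤ}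
    (hk : k ≠ 0) :
    ∃ m, Rd X ⊥ (Subgroup.zpowers f) m ∧ m ≠ [] ∧
      (f * z * f) ^ k * n1 * wp l = wp m := by
  have hbot : ∀ {y : G}, y ≠ 1 → y ∉ (⊥ : Subgroup G) := fun hy hh => hy (Subgroup.mem_bot.1 hh)
  have hmem : ∀ i : ℤ, f ^ i ∈ Subgroup.zpowers f := fun i => Subgroup.zpow_mem_zpowers f i
  rcases lt_or_gt_of_ne hk with hk' | hk'
  · obtain ⟨j, hj⟩ : ∃ j : ℕ, k = -((j : ℤ) + 1) := ⟨(-k - 1).toNat, by omega⟩
    have hu : f⁻¹ ∈ Subgroup.zpowers f := by simpa using hmem (-1)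
    have hu1 : f⁻¹ ≠ 1 := by simpa using hf (-1) (by norm_num)
    have huu : f⁻¹ * f⁻¹ ≠ 1 := by
      have := hf (-2) (by norm_num)
      rw [show (-2 : ℤ) = -1 + -1 by norm_num, zpow_add, zpow_neg_one] at this
      exact this
    obtain ⟨m, hm, hmne, e1⟩ := h82_pow hu hu1 huu (X.inv_mem hz) (inv_ne_one.2 hz1) hn1 hl hn j
    refine ⟨(f⁻¹, z⁻¹) :: m, ⟨hu, hbot hu1, X.inv_mem hz, fun _ => hbot (inv_ne_one.2 hz1), hm⟩,
      by simp, ?_⟩
    have e2 : (f * z * f) ^ k = (f⁻¹ * z⁻¹ * f⁻¹) ^ (j + 1) := by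
      have e3 : f⁻¹ * z⁻¹ * f⁻¹ = (f * z * f)⁻¹ := by simp [mul_assoc]
      rw [hj, e3, inv_pow, zpow_neg]
      congr 1
      exact_mod_cast zpow_natCast (f * z * f) (j + 1)
    rw [e2, e1]
    simp [wp]
  · obtain ⟨j, hj⟩ : ∃ j : ℕ, k = (j : ℤ) + 1 := ⟨(k - 1).toNat, by omega⟩
    have hu : f ∈ Subgroup.zpowers f := by simpa using hmem 1
    have hu1 : f ≠ 1 := by simpa using hf 1 (by norm_num)
    have huu : f * f ≠ 1 := by
      have := hf 2 (by norm_num)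
      rw [show (2 : ℤ) = 1 + 1 by norm_num, zpow_add, zpow_one] at this
      exact this
    obtain ⟨m, hm, hmne, e1⟩ := h82_pow hu hu1 huu hz hz1 hn1 hl hn j
    refine ⟨(f, z) :: m, ⟨hu, hbot hu1, hz, fun _ => hbot hz1, hm⟩, by simp, ?_⟩
    have e2 : (f * z * f) ^ k = (f * z * f) ^ (j + 1) := by
      rw [hj]
      exact_mod_cast zpow_natCast (f * z * f) (j + 1)
    rw [e2, e1]
    simp [wp]

/-- V1 : the powers of `f z f` are free over `Γ ⊔ F` -/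
theorem VC.freeX (h : VC q β Γ E F M e r lg) {z : G} (hz : z ∈ Γ) (hz1 : z ≠ 1) :
    (∀ k : ℤ, k ≠ 0 → (fV e r lg * z * fV e r lg) ^ k ≠ 1) ∧
    ∀ n ∈ Γ ⊔ F, ∀ l, Rd (Γ ⊔ F) ⊥ (Subgroup.zpowers (fV e r lg * z * fV e r lg)) l → l ≠ [] →
      n * wp l ∉ Γ ⊔ F := by
  obtain ⟨hf, hF⟩ := h.freeF
  have hz' : z ∈ Γ ⊔ F := (le_sup_left : Γ ≤ Γ ⊔ F) hz
  have hx : ∀ k : ℤ, k ≠ 0 → (fV e r lg * z * fV e r lg) ^ k ≠ 1 := by
    intro k hk hcon
    obtain ⟨m, hm, hmne, e1⟩ := h82_zpow hf hz' hz1 (Γ ⊔ F).one_mem (l := []) trivial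
      (fun hh => absurd rfl hh) hk
    rw [hcon] at e1
    apply hF 1 (Γ ⊔ F).one_mem m hm hmne
    rw [← e1]
    simpa [wp] using (Γ ⊔ F).one_mem
  refine ⟨hx, ?_⟩
  have hconv : ∀ l : List (G × G),
      Rd (Γ ⊔ F) ⊥ (Subgroup.zpowers (fV e r lg * z * fV e r lg)) l → l ≠ [] →
      ∃ m, Rd (Γ ⊔ F) ⊥ (Subgroup.zpowers (fV e r lg)) m ∧ m ≠ [] ∧ wp l = wp m := by
    intro l
    induction l with
    | nil => intro _ hne; exact absurd rfl hne
    | cons p l ih =>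
      rintro ⟨hp1, hp2, hp3, hp4, hp5⟩ -
      obtain ⟨k, hk⟩ := Subgroup.mem_zpowers_iff.1 hp1
      have hk0 : k ≠ 0 := by
        rintro rfl
        apply hp2
        rw [← hk, zpow_zero]
        exact Subgroup.mem_bot.2 rfl
      by_cases hl : l = []
      · subst hl
        obtain ⟨m, hm, hmne, e1⟩ := h82_zpow hf hz' hz1 hp3 (l := []) trivial
          (fun hh => absurd rfl hh) hk0
        exact ⟨m, hm, hmne, by rw [← e1, hk]; simp [wp]⟩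
      · obtain ⟨m', hm', hm'ne, e'⟩ := ih hp5 hl
        obtain ⟨m, hm, hmne, e1⟩ := h82_zpow hf hz' hz1 hp3 hm' (fun _ => hp4 hl) hk0
        refine ⟨m, hm, hmne, ?_⟩
        rw [← e1, hk, ← e']
        simp [wp]
  intro n hn l hl hne
  obtain ⟨m, hm, hmne, e1⟩ := hconv l hl hne
  rw [e1]
  exact hF n hn m hm hmne

end v0

end Pool.Agent.Helper98.AAD
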