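import Pool.Agent.Helper98.AAD.R1
import Pool.Agent.Helper98.AAD.R2
import Pool.Agent.Helper98.AAD.R3
import Pool.Agent.Helper98.AAD.R4
import Pool.Agent.Helper98.AAD.R4b
import Pool.Agent.Helper98.AAD.Q1
import Pool.Agent.Helper98.AAD.Q2

/-!
# AAD, V9: edges of the tree of `D` in the copy of `M`
-/

set_option autoImplicit false

namespace Pool.Agent.Helper98.AAD

variable {G : Type} [Group G] {q : Multiplicative ℚ →* G} {β : ℕ → Subgroup G}
  {Γ E F M : Subgroup G} {e r : G} {lg : List (G × G)}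

/-- elements of the join of two commuting subgroups -/
theorem v9_sup {A B : Subgroup G} (hc : ∀ b ∈ B, ∀ a ∈ A, b * a = a * b) {x : G}
    (hx : x ∈ A ⊔ B) : ∃ a ∈ A, ∃ b ∈ B, x = a * b := by
  rw [Subgroup.sup_eq_closure] at hx
  induction hx using Subgroup.closure_induction with
  | mem y hy =>
    rcases hy with hy | hy
    · exact ⟨y, hy, 1, B.one_mem, by simp⟩
    · exact ⟨1, A.one_mem, y, hy, by simp⟩
  | one => exact ⟨1, A.one_mem, 1, B.one_mem, by simp⟩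
  | mul y z _ _ ih1 ih2 =>
    obtain ⟨a, ha, b, hb, rfl⟩ := ih1
    obtain ⟨a', ha', b', hb', rfl⟩ := ih2
    refine ⟨a * a', A.mul_mem ha ha', b * b', B.mul_mem hb hb', ?_⟩
    calc a * b * (a' * b') = a * (b * a') * b' := by group
      _ = a * (a' * b) * b' := by rw [hc b hb a' ha']
      _ = a * a' * (b * b') := by group
  | inv y _ ih =>
    obtain ⟨a, ha, b, hb, rfl⟩ := ih
    refine ⟨a⁻¹, A.inv_mem ha, b⁻¹, B.inv_mem hb, ?_⟩
    rw [mul_inv_rev, hc b⁻¹ (B.inv_mem hb) a⁻¹ (A.inv_mem ha)]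

theorem v9_beta_le_Bb (β : ℕ → Subgroup G) (j : ℕ) : β j ≤ Bb β := le_iSup β j

theorem v9_wpM {M : Subgroup G} : ∀ l : List (G × G), (∀ p ∈ l, p.1 ∈ M ∧ p.2 ∈ M) → wp l ∈ M
  | [], _ => M.one_mem
  | p :: l, hl => by
    have h1 := hl p List.mem_cons_self
    exact M.mul_mem (M.mul_mem h1.1 h1.2)
      (v9_wpM l (fun p' hp' => hl p' (List.mem_cons_of_mem _ hp')))

section basics

variable (h : VC q β Γ E F M e r lg)
include h

theorem VC.v9_ΓM : Γ ≤ M := le_sup_left.trans h.ra.le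

theorem VC.v9_EM : E ≤ M := le_sup_right.trans h.ra.le

theorem VC.v9_FB : F ≤ Bb β := h.st.EC.trans (v9_beta_le_Bb β 0)

theorem VC.v9_EB : E ≤ Bb β := h.EF.trans h.v9_FB

theorem VC.v9_comm {t : G} (ht : t ∈ F) {y : G} (hy : y ∈ Γ ⊔ F) : t * y = y * t := by
  obtain ⟨a, ha, b, hb, rfl⟩ := v9_sup (fun b hb a ha => h.st.comm b hb a ha) hy
  rw [← mul_assoc, h.st.comm t ht a ha, mul_assoc, h.st.ab t ht b hb, mul_assoc]

theorem VC.v9_NF : Γ ⊔ E ≤ Γ ⊔ F := sup_le_sup_left h.EF Γ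

theorem VC.v9_commN {t : G} (ht : t ∈ F) {y : G} (hy : y ∈ Γ ⊔ E) : t * y = y * t :=
  h.v9_comm ht (h.v9_NF hy)

theorem VC.v9_ql_mul_left {b : G} (hb : b ∈ Bb β) (x : G) : ql q β (b * x) = ql q β x :=
  h.st.qs.ra.rlen_mul_left hb x

theorem VC.v9_ql_mul_right {b : G} (hb : b ∈ Bb β) (x : G) : ql q β (x * b) = ql q β x :=
  h.st.qs.ra.rlen_mul_right hb x

theorem VC.v9_gM : gV r lg ∈ M := M.mul_mem h.rM (v9_wpM lg h.lgM)

/-- niceness for elements of `Γ ⊔ E` -/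
theorem VC.v9_nice {a b : G} (ha : a ∈ Γ ⊔ E) (hb : b ∈ Γ ⊔ E) :
    ql q β (a * gV r lg * b) = ql q β a + ql q β (gV r lg) + ql q β b := by
  have hcE : ∀ b ∈ E, ∀ a ∈ Γ, b * a = a * b := fun b hb a ha => h.st.comm b (h.EF hb) a ha
  obtain ⟨a1, ha1, a2, ha2, rfl⟩ := v9_sup hcE ha
  obtain ⟨b1, hb1, b2, hb2, rfl⟩ := v9_sup hcE hb
  have e1 : a1 * a2 * gV r lg * (b1 * b2) = a2 * (a1 * gV r lg * b1) * b2 := by
    rw [← hcE a2 ha2 a1 ha1]
    group
  rw [e1, h.v9_ql_mul_right (h.v9_EB hb2), h.v9_ql_mul_left (h.v9_EB ha2),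
    h.v9_ql_mul_right (h.v9_EB ha2), h.v9_ql_mul_right (h.v9_EB hb2)]
  exact h.nice.2 a1 ha1 b1 hb1

theorem VC.v9_ql_one : ql q β (1 : G) = 0 :=
  h.st.qs.ra.rlen_eq_zero.2 (Subgroup.one_mem _)

/-- the nice element is not in `N B N` -/
theorem VC.v9_not {a b y : G} (ha : a ∈ Γ ⊔ E) (hb : b ∈ Γ ⊔ E) (hy : y ∈ Bb β) :
    gV r lg ≠ a * y * b := by
  intro e1
  have e2 : a⁻¹ * gV r lg * b⁻¹ = y := by rw [e1]; group
  have h1 := h.v9_nice (Subgroup.inv_mem _ ha) (Subgroup.inv_mem _ hb)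
  rw [e2] at h1
  have h2 : ql q β y = 0 := h.st.qs.ra.rlen_eq_zero.2 hy
  have h3 : 1 ≤ ql q β (gV r lg) := h.nice.1
  omega

theorem VC.v9_gN : gV r lg ∉ Γ ⊔ E := fun h1 =>
  h.v9_not h1 (Subgroup.one_mem _) (Subgroup.one_mem _) (by simp)

/-- malnormality -/
theorem VC.v9_mal {n : G} (hn : n ∈ Γ ⊔ E) (hn1 : n ≠ 1) : (gV r lg)⁻¹ * n * gV r lg ∉ Γ ⊔ E := by
  intro h1
  have h2 : gV r lg ∈ Γ ⊔ F := h.st.mal n (h.v9_NF hn) hn1 _ (h.v9_NF h1)
  have h3 : gV r lg ∈ (Γ ⊔ E) ⊔ F := sup_le_sup_right le_sup_left F h2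
  exact h.v9_gN (h.ra.inter_YL h3 h.v9_gM)

theorem VC.v9_LNg {s : G} (hs : s ∈ Γ ⊔ E) : LN q β Γ (gV r lg * s) := by
  intro a ha
  have h1 := h.v9_nice (Subgroup.mem_sup_left ha : a ∈ Γ ⊔ E) hs
  have h2 := h.v9_nice (Subgroup.one_mem _ : (1 : G) ∈ Γ ⊔ E) hs
  rw [h.v9_ql_one, one_mul] at h2
  rw [← mul_assoc, h1, h2]
  omega

theorem VC.v9_qlg : ql q β (gV r lg) = lg.length := h.st.qs.ra.rlen_form h.rB h.lgR

/-- multiplying a left nice element by an element of `E` -/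
theorem VC.v9_LNE {x s : G} (hs : s ∈ E) (hx : LN q β Γ x) : LN q β Γ (s * x) := by
  intro a ha
  have e1 : a * (s * x) = s * (a * x) := by
    rw [← mul_assoc, ← h.st.comm s (h.EF hs) a ha, mul_assoc]
  rw [e1, h.v9_ql_mul_left (h.v9_EB hs), h.v9_ql_mul_left (h.v9_EB hs)]
  exact hx a ha

/-- additivity for elements of `Γ ⊔ E` -/
theorem VC.v9_add {x y n : G} (hx : LN q β Γ x) (hy : LN q β Γ y) (hn : n ∈ Γ ⊔ E)
    (h1 : 1 ≤ ql q β n) : ql q β (x⁻¹ * n * y) = ql q β x + ql q β n + ql q β y := by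
  have hcE : ∀ b ∈ E, ∀ a ∈ Γ, b * a = a * b := fun b hb a ha => h.st.comm b (h.EF hb) a ha
  obtain ⟨a, ha, b, hb, rfl⟩ := v9_sup hcE hn
  rw [h.v9_ql_mul_right (h.v9_EB hb)] at h1 ⊢
  have h2 := LN.add h.st.qs h.st.QΓ h.st.gen (h.v9_LNE (E.inv_mem hb) hx) hy ha h1
  have e1 : (b⁻¹ * x)⁻¹ * a * y = x⁻¹ * (a * b) * y := by
    rw [← hcE b hb a ha]
    group
  rw [e1, h.v9_ql_mul_left (h.v9_EB (E.inv_mem hb))] at h2
  exact h2

end basics

/-- cutting a reduced word and adding a letter -/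
theorem v9_take {X Y L : Subgroup G} {t : G} (ht : t ∈ L) (htY : t ∉ Y) :
    ∀ (l : List (G × G)) (i : ℕ), Rd X Y L l → i < l.length → Rd X Y L (l.take i ++ [(t, 1)])
  | [], i, _, hi => absurd hi (Nat.not_lt_zero i)
  | p :: l, 0, _, _ => ⟨ht, htY, X.one_mem, fun h0 => absurd rfl h0, trivial⟩
  | p :: l, i + 1, hl, hi => by
    obtain ⟨h1, h2, h3, h4, h5⟩ := hl
    have hi' : i < l.length := by simpa using hi
    have hne : l ≠ [] := by
      rintro rfl
      exact absurd hi' (Nat.not_lt_zero i)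
    exact ⟨h1, h2, h3, fun _ => h4 hne, v9_take ht htY l i h5 hi'⟩

/-- beginnings of the nice word: membership in `M`, lengths, left niceness -/
theorem VC.v9_pre (h : VC q β Γ E F M e r lg) {ρ : G} (hρ : ρ ∈ PreG q r lg) :
    ρ ∈ M ∧ ql q β ρ ≤ lg.length + 1 ∧ (ρ ∈ Γ ∨ LN q β Γ ρ) := by
  have hqM : ∀ t, q t ∈ M := fun t => h.v9_ΓM (h.st.QΓ ⟨t, rfl⟩)
  have hq1 : ∀ t, ql q β (q t) ≤ 1 := fun t =>
    h.st.qs.ra.rlen_YL (Subgroup.mem_sup_right ⟨t, rfl⟩)
  have hN := Nice.last h.st.qs h.st.QΓ h.rB h.lgR h.lgne h.nice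
  rcases hρ with ⟨t, rfl⟩ | ⟨i, t, rfl⟩
  · exact ⟨hqM t, (hq1 t).trans (by omega), Or.inl (h.st.QΓ ⟨t, rfl⟩)⟩
  · have hwM : wp (lg.take i) ∈ M := v9_wpM _ (fun p hp => h.lgM p (List.mem_of_mem_take hp))
    have hlen : ql q β (r * wp (lg.take i)) = (lg.take i).length :=
      h.st.qs.ra.rlen_form h.rB (h.lgR.take i)
    refine ⟨M.mul_mem (M.mul_mem h.rM hwM) (hqM t), ?_, Or.inr ?_⟩
    · have h1 : ql q β (r * wp (lg.take i) * q t) ≤ ql q β (r * wp (lg.take i)) + ql q β (q t) :=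
        h.st.qs.ra.rlen_mul_le _ _
      have h2 := hq1 t
      have h3 : (lg.take i).length ≤ lg.length := by
        rw [List.length_take]
        exact min_le_right _ _
      omega
    · by_cases hi : i < lg.length
      · by_cases ht : t = 1
        · subst ht
          rw [map_one, mul_one]
          exact LN.of_first h.st.qs h.st.QΓ h.st.gen h.rB (h.lgR.take i) hN.1
        · have h1 : Rq q β (lg.take i ++ [(q t, 1)]) :=
            v9_take (MonoidHom.mem_range.2 ⟨t, rfl⟩) (fun h2 => ht (h.st.qs.disj t h2)) lg i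
              h.lgR hi
          have h2 := LN.of_first h.st.qs h.st.QΓ h.st.gen h.rB h1 hN.1
          have e1 : r * wp (lg.take i ++ [(q t, 1)]) = r * wp (lg.take i) * q t := by
            rw [wp_append]
            simp [wp, mul_assoc]
          rwa [e1] at h2
      · rw [List.take_of_length_le (not_lt.1 hi)]
        exact h.v9_LNg (Subgroup.mem_sup_left (h.st.QΓ ⟨t, rfl⟩))

/-- elements of `B` have forms with entries in `B ⊓ M` -/
theorem VC.v9_formB (h : VC q β Γ E F M e r lg) {b : G} (hb : b ∈ Bb β) :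
    ∃ y0 ∈ Bb β ⊓ M, ∃ l, Rd M (Γ ⊔ E) F l ∧ (∀ p ∈ l, p.2 ∈ Bb β ⊓ M) ∧ b = y0 * wp l := by
  have h1 : Bb β ≤ (Bb β ⊓ M) ⊔ F := by
    refine iSup_le fun j => (h.βM j).trans ?_
    exact sup_le_sup_right (inf_le_inf_right M (v9_beta_le_Bb β j)) F
  exact h.ra.formZ inf_le_right (fun t ht htM => ⟨h.v9_FB ht, htM⟩)
    (fun t ht y hy => h.v9_commN ht hy) (h1 hb)

/-- shifts with one step unfolded -/
theorem v9_sim_cons {Y : Subgroup G} {y : G} {p : G × G} {l lb : List (G × G)}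
    (hs : Sim Y y (p :: l) lb) : ∃ (t' x' : G) (lb' : List (G × G)), lb = (t', x') :: lb' ∧ y ∈ Y ∧
      p.1⁻¹ * y * t' ∈ Y ∧ Sim Y (p.2⁻¹ * (p.1⁻¹ * y * t') * x') l lb' := by
  cases hs with
  | cons h1 h2 h3 => exact ⟨_, _, _, rfl, h1, h2, h3⟩

theorem v9_sim_mem {Y : Subgroup G} {y : G} {l lb : List (G × G)} (hs : Sim Y y l lb) : y ∈ Y := by
  cases hs with
  | nil => exact Y.one_mem
  | cons h1 _ _ => exact h1

theorem v9_sim_nil {Y : Subgroup G} {y : G} {lb : List (G × G)}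
    (hs : Sim Y y [] lb) : y = 1 ∧ lb = [] := by
  have h1 := hs.length_eq
  have h2 : lb = [] := List.eq_nil_of_length_eq_zero h1.symm
  subst h2
  have h3 := hs.wp_eq
  simp only [wp, mul_one] at h3
  exact ⟨h3.symm, rfl⟩

/-- powers of `f` -/
theorem v9_fpow (e r : G) (lg : List (G × G)) (k : ℤ) :
    fV e r lg ^ k = gV r lg * e ^ k * (gV r lg)⁻¹ := by
  rw [fV, conj_zpow]

/-- an inner entry `g` or `g⁻¹ ν` is impossible -/
theorem VC.v9_inner (h : VC q β Γ E F M e r lg) {y t : G} {l lb : List (G × G)}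
    (hlb : ∀ p ∈ lb, p.1 ∈ F ∧ p.2 ∈ Bb β) {x ν ν' : G} (hν : ν ∈ Γ ⊔ E) (hν' : ν' ∈ Γ ⊔ E)
    (hx : gV r lg = ν * x * ν' ∨ (gV r lg)⁻¹ = ν * x * ν')
    (hs : Sim (Γ ⊔ E) y ((t, x) :: l) lb) : False := by
  obtain ⟨t', x', lb', rfl, h1, h2, h3⟩ := v9_sim_cons hs
  have h4 := v9_sim_mem h3
  have hx' : x' ∈ Bb β := (hlb (t', x') List.mem_cons_self).2
  set s := (t⁻¹ * y * t') with hsdef
  set y2 := x⁻¹ * s * x' with hy2
  have e1 : x = s * x' * y2⁻¹ := by rw [hy2]; group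
  have h2' : s ∈ Γ ⊔ E := h2
  have h4' : y2 ∈ Γ ⊔ E := h4
  rcases hx with hx | hx
  · refine h.v9_not (a := ν * s) (b := y2⁻¹ * ν') (y := x') (Subgroup.mul_mem _ hν h2')
      (Subgroup.mul_mem _ (Subgroup.inv_mem _ h4') hν') hx' ?_
    rw [hx]
    conv_lhs => rw [e1]
    group
  · refine h.v9_not (a := ν'⁻¹ * y2) (b := s⁻¹ * ν⁻¹) (y := x'⁻¹)
      (Subgroup.mul_mem _ (Subgroup.inv_mem _ hν') h4')
      (Subgroup.mul_mem _ (Subgroup.inv_mem _ h2') (Subgroup.inv_mem _ hν))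
      (Subgroup.inv_mem _ hx') ?_
    rw [← inv_inv (gV r lg), hx]
    conv_lhs => rw [e1]
    group

/-- the main induction -/
theorem VC.v9_key (h : VC q β Γ E F M e r lg) : ∀ l : List (G × G),
    Rd (Γ ⊔ F) ⊥ (Subgroup.zpowers (fV e r lg)) l → l ≠ [] → ∀ v ∈ M,
    ∃ l', Rd M (Γ ⊔ E) F l' ∧ l' ≠ [] ∧ wp l * v = gV r lg * wp l' ∧
      ∀ (lb : List (G × G)) (y : G), (∀ p ∈ lb, p.1 ∈ F ∧ p.2 ∈ Bb β) →
        Sim (Γ ⊔ E) y l' lb → ql q β y ≤ 1 →
        ∃ n ∈ Γ ⊔ E, ∃ κ, LN q β Γ κ ∧ ql q β κ ≤ lg.length + 1 ∧ ∃ b' ∈ Bb β, v = n * κ * b'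
  | [], _, hne, _, _ => absurd rfl hne
  | (fk, n) :: l, hl, _, v, hv => by
    obtain ⟨hfk, hfk1, hn, hn1, hl2⟩ := hl
    obtain ⟨k, hk⟩ := Subgroup.mem_zpowers_iff.1 hfk
    have hfk' : fk = gV r lg * e ^ k * (gV r lg)⁻¹ := by rw [← v9_fpow]; exact hk.symm
    have hk0 : k ≠ 0 := by
      rintro rfl
      apply hfk1
      rw [hfk']
      simp
    have hekF : e ^ k ∈ F := Subgroup.zpow_mem _ h.eF k
    have hekN : e ^ k ∉ Γ ⊔ E := h.epow k hk0
    have hgM := h.v9_gM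
    have hgN := h.v9_gN
    have hn' : n ∈ Γ ⊔ F := hn
    obtain ⟨ν, hν, t, ht, hnt⟩ := v9_sup (fun b hb a ha => h.st.comm b hb a ha) hn'
    have hνN : ν ∈ Γ ⊔ E := Subgroup.mem_sup_left hν
    have hνM : ν ∈ M := h.v9_ΓM hν
    by_cases hnN : n ∈ Γ ⊔ E
    · have hnM : n ∈ M := h.ra.le hnN
      by_cases hl0 : l = []
      · subst hl0
        refine ⟨[(e ^ k, (gV r lg)⁻¹ * n * v)], ⟨hekF, hekN,
          M.mul_mem (M.mul_mem (M.inv_mem hgM) hnM) hv, fun h0 => absurd rfl h0, trivial⟩,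
          List.cons_ne_nil _ _, ?_, ?_⟩
        · simp only [wp, hfk']
          group
        · intro lb y hlb hs hy
          obtain ⟨t', x', lb', rfl, h1, h2, h3⟩ := v9_sim_cons hs
          have hx' := hlb (t', x') List.mem_cons_self
          obtain ⟨h4, -⟩ := v9_sim_nil h3
          simp only at h2 h4
          have e2 : (e ^ k)⁻¹ * y * t' = y * ((e ^ k)⁻¹ * t') := by
            rw [h.v9_commN (F.inv_mem hekF) h1]
            group
          refine ⟨n⁻¹, Subgroup.inv_mem _ hnN, gV r lg * ((e ^ k)⁻¹ * y * t'), h.v9_LNg h2,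
            ?_, x', hx'.2, ?_⟩
          · have h5 := h.v9_nice (Subgroup.one_mem _ : (1 : G) ∈ Γ ⊔ E) h2
            rw [h.v9_ql_one, one_mul, h.v9_qlg, e2,
              h.v9_ql_mul_right (h.v9_FB (F.mul_mem (F.inv_mem hekF) hx'.1))] at h5
            rw [e2, h5]
            omega
          · have e3 : ((gV r lg)⁻¹ * n * v) = (e ^ k)⁻¹ * y * t' * x' := by
              have := h4
              rw [mul_assoc, inv_mul_eq_one] at this
              exact this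
            have e4 : v = n⁻¹ * gV r lg * ((gV r lg)⁻¹ * n * v) := by group
            rw [e4, e3]
            group
      · obtain ⟨l', hl', hne', hw, hkey⟩ := VC.v9_key h l hl2 hl0 v hv
        have hnne : n ≠ 1 := fun h0 => hn1 hl0 (by rw [h0]; exact Subgroup.one_mem _)
        have hgng : (gV r lg)⁻¹ * n * gV r lg ∉ Γ ⊔ E := h.v9_mal hnN hnne
        refine ⟨(e ^ k, (gV r lg)⁻¹ * n * gV r lg) :: l', ⟨hekF, hekN,
          M.mul_mem (M.mul_mem (M.inv_mem hgM) hnM) hgM, fun _ => hgng, hl'⟩,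
          List.cons_ne_nil _ _, ?_, ?_⟩
        · simp only [wp, hfk']
          rw [mul_assoc, hw]
          group
        · intro lb y hlb hs hy
          obtain ⟨t', x', lb', rfl, h1, h2, h3⟩ := v9_sim_cons hs
          have hx' := hlb (t', x') List.mem_cons_self
          simp only at h2 h3
          have h4 := v9_sim_mem h3
          refine hkey lb' _ (fun p hp => hlb p (List.mem_cons_of_mem _ hp)) h3 ?_
          have e2 : (e ^ k)⁻¹ * y * t' = y * ((e ^ k)⁻¹ * t') := by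
            rw [h.v9_commN (F.inv_mem hekF) h1]
            group
          have hs1 : ql q β ((e ^ k)⁻¹ * y * t') ≤ 1 := by
            rw [e2, h.v9_ql_mul_right (h.v9_FB (F.mul_mem (F.inv_mem hekF) hx'.1))]
            exact hy
          generalize hsdef : (e ^ k)⁻¹ * y * t' = s at *
          generalize hy2def : ((gV r lg)⁻¹ * n * gV r lg)⁻¹ * s * x' = y2 at *
          have e3 : (gV r lg)⁻¹ * n * (gV r lg * y2) = s * x' := by
            rw [← hy2def]
            group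
          have e4 : n * gV r lg * y2 = gV r lg * s * x' := by
            rw [← hy2def]
            group
          have h5 : ql q β n = 0 := by
            by_contra h0
            have h6 := h.v9_add (x := gV r lg) (by simpa using h.v9_LNg (Subgroup.one_mem _))
              (h.v9_LNg h4) hnN (Nat.one_le_iff_ne_zero.2 h0)
            have h7 := h.v9_nice (Subgroup.one_mem _ : (1 : G) ∈ Γ ⊔ E) h4
            have h8 := h.nice.1
            rw [h.v9_ql_one, one_mul] at h7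
            rw [e3, h.v9_ql_mul_right hx'.2, h7] at h6
            have h9 : 1 ≤ ql q β (gV r lg) := h8
            omega
          have h6 := h.v9_nice hnN h4
          have h7 := h.v9_nice (Subgroup.one_mem _ : (1 : G) ∈ Γ ⊔ E) h2
          rw [h.v9_ql_one, one_mul] at h7
          rw [e4, h.v9_ql_mul_right hx'.2, h7, h5] at h6
          omega
    · have htN : t ∉ Γ ⊔ E := fun h0 => hnN (by rw [hnt]; exact Subgroup.mul_mem _ hνN h0)
      have hgνN : (gV r lg)⁻¹ * ν ∉ Γ ⊔ E := fun h0 => hgN (by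
        have h1 := Subgroup.mul_mem _ hνN (Subgroup.inv_mem _ h0)
        simpa using h1)
      have hgνM : (gV r lg)⁻¹ * ν ∈ M := M.mul_mem (M.inv_mem hgM) hνM
      have hinn : ∀ (lb : List (G × G)) (y : G) (l' : List (G × G)),
          (∀ p ∈ lb, p.1 ∈ F ∧ p.2 ∈ Bb β) →
          Sim (Γ ⊔ E) y ((e ^ k, (gV r lg)⁻¹ * ν) :: l') lb → False := by
        intro lb y l' hlb hs
        refine h.v9_inner hlb (Subgroup.one_mem _) (Subgroup.inv_mem _ hνN) (Or.inr ?_) hs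
        group
      by_cases hl0 : l = []
      · subst hl0
        refine ⟨[(e ^ k, (gV r lg)⁻¹ * ν), (t, v)], ⟨hekF, hekN, hgνM, fun _ => hgνN,
          ht, htN, hv, fun h0 => absurd rfl h0, trivial⟩, List.cons_ne_nil _ _, ?_, ?_⟩
        · simp only [wp, hfk', hnt]
          group
        · intro lb y hlb hs hy
          exact (hinn lb y _ hlb hs).elim
      · obtain ⟨l', hl', hne', hw, hkey⟩ := VC.v9_key h l hl2 hl0 v hv
        refine ⟨(e ^ k, (gV r lg)⁻¹ * ν) :: (t, gV r lg) :: l', ⟨hekF, hekN, hgνM, fun _ => hgνN,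
          ht, htN, hgM, fun _ => hgN, hl'⟩, List.cons_ne_nil _ _, ?_, ?_⟩
        · simp only [wp, hfk', hnt]
          rw [mul_assoc, hw]
          group
        · intro lb y hlb hs hy
          exact (hinn lb y _ hlb hs).elim

theorem v9_rd_fst {X Y L : Subgroup G} : ∀ l : List (G × G), Rd X Y L l → ∀ p ∈ l, p.1 ∈ L
  | [], _, p, hp => by simp at hp
  | a :: l, hl, p, hp => by
    obtain ⟨h1, _, _, _, h5⟩ := hl
    rcases List.mem_cons.1 hp with rfl | hp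
    · exact h1
    · exact v9_rd_fst l h5 p hp

/-- V9 : edges of the tree of `D` in the copy of `M` -/
theorem VC.g1 (h : VC q β Γ E F M e r lg) {v d ρ b : G} (hv : v ∈ M)
    (hd : d ∈ PV (Γ ⊔ F) (fV e r lg)) (hρ : ρ ∈ PreG q r lg) (hb : b ∈ Bb β) (e1 : v = d * ρ * b) :
    ∃ n ∈ Γ ⊔ E, ∃ κ, LN q β Γ κ ∧ ql q β κ ≤ lg.length + 1 ∧ ∃ b' ∈ Bb β, v = n * κ * b' := by
  obtain ⟨hρM, hρl, hρ2⟩ := h.v9_pre hρ
  obtain ⟨y0, hy0, lb, hlb, hlbB, hbe⟩ := h.v9_formB hb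
  have hlb2 : ∀ p ∈ lb, p.1 ∈ F ∧ p.2 ∈ Bb β := fun p hp =>
    ⟨v9_rd_fst lb hlb p hp, (hlbB p hp).1⟩
  obtain ⟨n0, hn0, l, hl, hdl⟩ := PV.form (Subgroup.inv_mem _ hd)
  have hgM := h.v9_gM
  have hgN := h.v9_gN
  have hLN1 : LN q β Γ (1 : G) := by
    intro a _
    rw [mul_one, h.v9_ql_one, add_zero]
  obtain ⟨ν, hν, t, ht, hnt⟩ := v9_sup (fun b hb a ha => h.st.comm b hb a ha) hn0
  have hνN : ν ∈ Γ ⊔ E := Subgroup.mem_sup_left hν
  have hνM : ν ∈ M := h.v9_ΓM hν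
  have e2 : n0 * wp l * v = ρ * y0 * wp lb := by
    rw [← hdl, e1, hbe]
    group
  by_cases hl0 : l = []
  · subst hl0
    simp only [wp, mul_one] at e2 hdl
    by_cases hn0N : n0 ∈ Γ ⊔ E
    · have e3 : v = n0⁻¹ * ρ * b := by rw [e1, ← hdl]; group
      rcases hρ2 with hρΓ | hρLN
      · exact ⟨n0⁻¹ * ρ, Subgroup.mul_mem _ (Subgroup.inv_mem _ hn0N) (Subgroup.mem_sup_left hρΓ),
          1, hLN1, by rw [h.v9_ql_one]; omega, b, hb, by rw [e3]; group⟩
      · exact ⟨n0⁻¹, Subgroup.inv_mem _ hn0N, ρ, hρLN, hρl, b, hb, e3⟩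
    · have htN : t ∉ Γ ⊔ E := fun h0 => hn0N (by rw [hnt]; exact Subgroup.mul_mem _ hνN h0)
      have h1 : Rd M (Γ ⊔ E) F [(t, v)] := ⟨ht, htN, hv, fun h0 => absurd rfl h0, trivial⟩
      have h2 : wp [(t, v)] = (ν⁻¹ * ρ * y0) * wp lb := by
        simp only [wp, mul_one]
        have e3 : t * v = ν⁻¹ * (n0 * v) := by rw [hnt]; group
        rw [e3, e2]
        group
      have h3 := h.ra.sim (M.mul_mem (M.mul_mem (M.inv_mem hνM) hρM) hy0.2) h1 hlb h2
      obtain ⟨t', x', lb', rfl, h4, h5, h6⟩ := v9_sim_cons h3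
      obtain ⟨h7, -⟩ := v9_sim_nil h6
      simp only at h5 h7
      rw [mul_assoc, inv_mul_eq_one] at h7
      exact ⟨_, h5, 1, hLN1, by rw [h.v9_ql_one]; omega, x',
        (hlb2 (t', x') List.mem_cons_self).2, by rw [h7]; group⟩
  · obtain ⟨l', hl', hne', hw, hkey⟩ := h.v9_key l hl hl0 v hv
    by_cases hn0N : n0 ∈ Γ ⊔ E
    · have hn0M : n0 ∈ M := h.ra.le hn0N
      have h2 : wp l' = ((gV r lg)⁻¹ * n0⁻¹ * ρ * y0) * wp lb := by
        have e3 : wp l' = (gV r lg)⁻¹ * n0⁻¹ * (n0 * wp l * v) := by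
          rw [mul_assoc n0, hw]
          group
        rw [e3, e2]
        group
      have h3 := h.ra.sim (M.mul_mem (M.mul_mem (M.mul_mem (M.inv_mem hgM) (M.inv_mem hn0M)) hρM)
        hy0.2) hl' hlb h2
      have h4 := v9_sim_mem h3
      refine hkey lb _ hlb2 h3 ?_
      generalize hydef : (gV r lg)⁻¹ * n0⁻¹ * ρ * y0 = y at *
      have e4 : n0 * gV r lg * y = ρ * y0 := by rw [← hydef]; group
      have e5 : ρ⁻¹ * n0 * (gV r lg * y) = y0 := by rw [← hydef]; group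
      rcases hρ2 with hρΓ | hρLN
      · exfalso
        refine h.v9_not (a := n0⁻¹ * ρ) (b := y⁻¹) (y := y0)
          (Subgroup.mul_mem _ (Subgroup.inv_mem _ hn0N) (Subgroup.mem_sup_left hρΓ))
          (Subgroup.inv_mem _ h4) hy0.1 ?_
        rw [← hydef]
        group
      · have h5 : ql q β n0 = 0 := by
          by_contra h0
          have h6 := h.v9_add hρLN (h.v9_LNg h4) hn0N (Nat.one_le_iff_ne_zero.2 h0)
          have h7 : ql q β y0 = 0 := h.st.qs.ra.rlen_eq_zero.2 hy0.1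
          rw [e5, h7] at h6
          omega
        have h6 := h.v9_nice hn0N h4
        rw [e4, h.v9_ql_mul_right hy0.1, h5, h.v9_qlg] at h6
        omega
    · exfalso
      have htN : t ∉ Γ ⊔ E := fun h0 => hn0N (by rw [hnt]; exact Subgroup.mul_mem _ hνN h0)
      have h1 : Rd M (Γ ⊔ E) F ((t, gV r lg) :: l') := ⟨ht, htN, hgM, fun _ => hgN, hl'⟩
      have h2 : wp ((t, gV r lg) :: l') = (ν⁻¹ * ρ * y0) * wp lb := by
        simp only [wp]
        have e3 : t * gV r lg * wp l' = ν⁻¹ * (n0 * wp l * v) := by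
          rw [mul_assoc n0, hw, hnt]
          group
        rw [e3, e2]
        group
      have h3 := h.ra.sim (M.mul_mem (M.mul_mem (M.inv_mem hνM) hρM) hy0.2) h1 hlb h2
      exact h.v9_inner hlb2 (Subgroup.one_mem _) (Subgroup.one_mem _) (Or.inl (by group)) h3

end Pool.Agent.Helper98.AAD
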