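import Pool.Agent.Helper98.AAD.DefsV
import Pool.Agent.Helper98.AAD.R1
import Pool.Agent.Helper98.AAD.R2
import Pool.Agent.Helper98.AAD.R3
import Pool.Agent.Helper98.AAD.R4
import Pool.Agent.Helper98.AAD.Q1
import Pool.Agent.Helper98.AAD.Q3
import Pool.Agent.Helper98.AAD.V9

/-!
# Project AAD, module V10: bounded intersections for `D`
-/

set_option autoImplicit false

namespace Pool.Agent.Helper98.AAD

section v10

variable {G : Type} [Group G] {q : Multiplicative ℚ →* G} {β : ℕ → Subgroup G}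
  {Γ E F M : Subgroup G} {e r : G} {lg : List (G × G)}

private theorem h58_split {H K : Subgroup G} (hc : ∀ k ∈ K, ∀ h ∈ H, k * h = h * k) {x : G}
    (hx : x ∈ H ⊔ K) : ∃ h ∈ H, ∃ k ∈ K, x = h * k := by
  let S : Subgroup G :=
    { carrier := {x | ∃ h ∈ H, ∃ k ∈ K, x = h * k}
      one_mem' := ⟨1, H.one_mem, 1, K.one_mem, (mul_one 1).symm⟩
      mul_mem' := by
        rintro _ _ ⟨a, ha, b, hb, rfl⟩ ⟨a', ha', b', hb', rfl⟩
        refine ⟨a * a', H.mul_mem ha ha', b * b', K.mul_mem hb hb', ?_⟩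
        calc a * b * (a' * b') = a * (b * a') * b' := by group
          _ = a * (a' * b) * b' := by rw [hc b hb a' ha']
          _ = a * a' * (b * b') := by group
      inv_mem' := by
        rintro _ ⟨a, ha, b, hb, rfl⟩
        refine ⟨a⁻¹, H.inv_mem ha, b⁻¹, K.inv_mem hb, ?_⟩
        rw [mul_inv_rev]
        exact hc b⁻¹ (K.inv_mem hb) a⁻¹ (H.inv_mem ha) }
  have hS : H ⊔ K ≤ S := by
    refine sup_le ?_ ?_
    · intro a ha
      exact ⟨a, ha, 1, K.one_mem, (mul_one a).symm⟩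
    · intro b hb
      exact ⟨1, H.one_mem, b, hb, (one_mul b).symm⟩
  exact hS hx

private theorem h58_wp_mem {H : Subgroup G} {l : List (G × G)}
    (hl : ∀ p ∈ l, p.1 ∈ H ∧ p.2 ∈ H) : wp l ∈ H := by
  induction l with
  | nil => exact H.one_mem
  | cons p l ih =>
    simp only [wp]
    have h1 := hl p (by simp)
    exact H.mul_mem (H.mul_mem h1.1 h1.2) (ih fun p hp => hl p (by simp [hp]))

private theorem h58_gM (h : VC q β Γ E F M e r lg) : gV r lg ∈ M :=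
  M.mul_mem h.rM (h58_wp_mem h.lgM)

private theorem h58_FB (h : VC q β Γ E F M e r lg) : F ≤ Bb β :=
  h.st.EC.trans (le_iSup β 0)

private theorem h58_EB (h : VC q β Γ E F M e r lg) : E ≤ Bb β :=
  h.EF.trans (h58_FB h)

private theorem h58_NF {x : G} (h : VC q β Γ E F M e r lg) (hx : x ∈ Γ ⊔ F) :
    ∃ ν ∈ Γ, ∃ t ∈ F, x = ν * t :=
  h58_split (fun k hk a ha => h.st.comm k hk a ha) hx

private theorem h58_N {x : G} (h : VC q β Γ E F M e r lg) (hx : x ∈ Γ ⊔ E) :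
    ∃ ν ∈ Γ, ∃ t ∈ E, x = ν * t :=
  h58_split (fun k hk a ha => h.st.comm k (h.EF hk) a ha) hx

private theorem h58_NleM (h : VC q β Γ E F M e r lg) : Γ ⊔ E ≤ M := h.ra.le

private theorem h58_ΓM (h : VC q β Γ E F M e r lg) : Γ ≤ M := le_sup_left.trans h.ra.le

private theorem h58_NleNF (h : VC q β Γ E F M e r lg) : Γ ⊔ E ≤ Γ ⊔ F :=
  sup_le_sup_left h.EF Γ

private theorem h58_NFD : Γ ⊔ F ≤ PV (Γ ⊔ F) (fV e r lg) := le_sup_left

private theorem h58_fD (k : ℤ) : fV e r lg ^ k ∈ PV (Γ ⊔ F) (fV e r lg) :=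
  (le_sup_right : Subgroup.zpowers (fV e r lg) ≤ _) (Subgroup.zpow_mem_zpowers _ _)

/-- `M` meets `Γ ⊔ F` in `N` -/
private theorem h58_NFM (h : VC q β Γ E F M e r lg) {n : G} (hn : n ∈ Γ ⊔ F) (hM : n ∈ M) :
    n ∈ Γ ⊔ E := by
  obtain ⟨ν, hν, t, ht, rfl⟩ := h58_NF h hn
  have htM : t ∈ M := (M.mul_mem_cancel_left (h58_ΓM h hν)).1 hM
  exact (Γ ⊔ E).mul_mem ((le_sup_left : Γ ≤ Γ ⊔ E) hν) (h.ra.inter t ht htM)

/-- `F` commutes with `Γ ⊔ F` -/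
private theorem h58_commF (h : VC q β Γ E F M e r lg) {t x : G} (ht : t ∈ F)
    (hx : x ∈ Γ ⊔ F) : t * x = x * t := by
  obtain ⟨ν, hν, s, hs, rfl⟩ := h58_NF h hx
  calc t * (ν * s) = (t * ν) * s := by group
    _ = (ν * t) * s := by rw [h.st.comm t ht ν hν]
    _ = ν * (t * s) := by group
    _ = ν * (s * t) := by rw [h.st.ab t ht s hs]
    _ = ν * s * t := by group

private theorem h58_gNF (h : VC q β Γ E F M e r lg) : gV r lg ∉ Γ ⊔ F := by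
  intro hg
  obtain ⟨ν, hν, t, ht, he⟩ := h58_NF h hg
  have h2 := h.nice.2 ν⁻¹ (Γ.inv_mem hν) 1 Γ.one_mem
  have h3 : ν⁻¹ * (r * wp lg) * 1 = t := by
    have : r * wp lg = ν * t := he
    rw [this]
    group
  rw [h3] at h2
  have h4 : ql q β t = 0 := (RA.rlen_eq_zero h.st.qs.ra).2 (h58_FB h ht)
  have h5 := h.nice.1
  omega

/-- inner entries are not in `N` -/
private theorem h58_mal (h : VC q β Γ E F M e r lg) {n : G} (hn : n ∈ Γ ⊔ F) (hn1 : n ≠ 1) :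
    (gV r lg)⁻¹ * n * gV r lg ∉ Γ ⊔ E := fun h1 =>
  h58_gNF h (h.st.mal n hn hn1 _ (h58_NleNF h h1))

/-- powers of `f` are conjugates of elements of `F`, outside `N` -/
private theorem h58_letter (h : VC q β Γ E F M e r lg) {p : G}
    (hp : p ∈ Subgroup.zpowers (fV e r lg)) (hp1 : p ≠ 1) :
    ∃ t ∈ F, t ∉ Γ ⊔ E ∧ p = gV r lg * t * (gV r lg)⁻¹ := by
  obtain ⟨k, rfl⟩ := Subgroup.mem_zpowers_iff.1 hp
  have hk : k ≠ 0 := fun hk => hp1 (by rw [hk, zpow_zero])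
  refine ⟨e ^ k, F.zpow_mem h.eF k, h.epow k hk, ?_⟩
  simp only [fV]
  rw [conj_zpow]

/-- left multiplication of a reduced word by a word in `f` -/
private theorem h58_word (h : VC q β Γ E F M e r lg) {x0 : G} (hx0 : x0 ∈ M)
    (hx1 : x0 ∉ Γ ⊔ E)
    (hx2 : ∀ n ∈ Γ ⊔ E, ∀ n' ∈ Γ ⊔ E, x0 ≠ n * gV r lg * n') {l : List (G × G)}
    (hl : Rd M (Γ ⊔ E) F l) (hne : l ≠ []) :
    ∀ m, Rd (Γ ⊔ F) ⊥ (Subgroup.zpowers (fV e r lg)) m →
      ∃ y0 ∈ M, y0 ∉ Γ ⊔ E ∧ ∃ l', Rd M (Γ ⊔ E) F l' ∧ (∃ hne' : l' ≠ [],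
        (l'.getLast hne').2 = (l.getLast hne).2) ∧ wp m * (x0 * wp l) = y0 * wp l' ∧
        (m ≠ [] → y0 = gV r lg) ∧ (m = [] → y0 = x0) := by
  intro m
  have hgM := h58_gM h
  have hgN : gV r lg ∉ Γ ⊔ E := fun h1 => h58_gNF h (h58_NleNF h h1)
  induction m with
  | nil =>
    intro _
    exact ⟨x0, hx0, hx1, l, hl, ⟨hne, rfl⟩, by simp [wp], fun h1 => absurd rfl h1, fun _ => rfl⟩
  | cons p m ih =>
    rintro ⟨h1, h2, h3, h4, h5⟩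
    obtain ⟨y0, hy0, hyN, l', hl', ⟨hne', hlast⟩, he, hg1, hg2⟩ := ih h5
    obtain ⟨t, htF, htN, hpt⟩ := h58_letter h h1
      (fun h6 => h2 (by rw [h6]; exact Subgroup.one_mem _))
    by_cases hpN : p.2 ∈ Γ ⊔ E
    · have hpM : p.2 ∈ M := h58_NleM h hpN
      refine ⟨gV r lg, hgM, hgN, (t, (gV r lg)⁻¹ * p.2 * y0) :: l',
        ⟨htF, htN, ?_, fun _ => ?_, hl'⟩, ⟨by simp, ?_⟩, ?_, fun _ => rfl, fun h6 => by simp at h6⟩
      · exact M.mul_mem (M.mul_mem (M.inv_mem hgM) hpM) hy0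
      · by_cases hm : m = []
        · rw [hg2 hm]
          intro h6
          refine hx2 p.2⁻¹ ((Γ ⊔ E).inv_mem hpN) _ h6 ?_
          group
        · rw [hg1 hm]
          exact h58_mal h h3 fun h6 => h4 hm (by rw [h6]; exact Subgroup.one_mem _)
      · rw [List.getLast_cons hne', hlast]
      · simp only [wp]
        rw [mul_assoc (p.1 * p.2), he, hpt]
        group
    · obtain ⟨ν, hν, s, hs, hp2⟩ := h58_NF h h3
      have hνN : ν ∈ Γ ⊔ E := (le_sup_left : Γ ≤ Γ ⊔ E) hν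
      have hsN : s ∉ Γ ⊔ E := fun h6 => hpN (by rw [hp2]; exact (Γ ⊔ E).mul_mem hνN h6)
      refine ⟨gV r lg, hgM, hgN, (t, (gV r lg)⁻¹ * ν) :: (s, y0) :: l',
        ⟨htF, htN, ?_, fun _ => ?_, hs, hsN, hy0, fun _ => hyN, hl'⟩, ⟨by simp, ?_⟩, ?_,
        fun _ => rfl, fun h6 => by simp at h6⟩
      · exact M.mul_mem (M.inv_mem hgM) (h58_ΓM h hν)
      · intro h6
        apply hgN
        have h7 := (Γ ⊔ E).mul_mem hνN ((Γ ⊔ E).inv_mem h6)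
        have h8 : ν * ((gV r lg)⁻¹ * ν)⁻¹ = gV r lg := by group
        rwa [h8] at h7
      · rw [List.getLast_cons (by simp), List.getLast_cons hne', hlast]
      · simp only [wp]
        rw [mul_assoc (p.1 * p.2), he, hpt, hp2]
        group

private theorem h58_word' (h : VC q β Γ E F M e r lg) {x0 : G} (hx0 : x0 ∈ M)
    (hx1 : x0 ∉ Γ ⊔ E)
    (hx2 : ∀ n ∈ Γ ⊔ E, ∀ n' ∈ Γ ⊔ E, x0 ≠ n * gV r lg * n') {l : List (G × G)}
    (hl : Rd M (Γ ⊔ E) F l) (hne : l ≠ []) {d : G} (hd : d ∈ PV (Γ ⊔ F) (fV e r lg)) :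
    ∃ y0 ∈ M, ∃ l', Rd M (Γ ⊔ E) F l' ∧ (∃ hne' : l' ≠ [],
        (l'.getLast hne').2 = (l.getLast hne).2) ∧ d * (x0 * wp l) = y0 * wp l' := by
  obtain ⟨n, hn, m, hm, rfl⟩ := PV.form hd
  obtain ⟨y0, hy0, hyN, l', hl', ⟨hne', hlast⟩, he, -, -⟩ := h58_word h hx0 hx1 hx2 hl hne m hm
  by_cases hnN : n ∈ Γ ⊔ E
  · exact ⟨n * y0, M.mul_mem (h58_NleM h hnN) hy0, l', hl', ⟨hne', hlast⟩, by
      rw [mul_assoc n, he, mul_assoc]⟩
  · obtain ⟨ν, hν, s, hs, hp2⟩ := h58_NF h hn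
    have hνN : ν ∈ Γ ⊔ E := (le_sup_left : Γ ≤ Γ ⊔ E) hν
    have hsN : s ∉ Γ ⊔ E := fun h6 => hnN (by rw [hp2]; exact (Γ ⊔ E).mul_mem hνN h6)
    refine ⟨ν, h58_ΓM h hν, (s, y0) :: l', ⟨hs, hsN, hy0, fun _ => hyN, hl'⟩, ⟨by simp, ?_⟩, ?_⟩
    · rw [List.getLast_cons hne', hlast]
    · rw [mul_assoc n, he, hp2]
      simp only [wp]
      group

private theorem h58_PreG_M (h : VC q β Γ E F M e r lg) {ρ : G} (hρ : ρ ∈ PreG q r lg) :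
    ρ ∈ M := by
  have hq : ∀ t, q t ∈ M := fun t => h58_ΓM h (h.st.QΓ ⟨t, rfl⟩)
  rcases hρ with ⟨t, rfl⟩ | ⟨i, t, rfl⟩
  · exact hq t
  · exact M.mul_mem (M.mul_mem h.rM (h58_wp_mem fun p hp => h.lgM p (List.mem_of_mem_take hp)))
      (hq t)

/-- the hypothesis of the theorem -/
private def h58Q (q : Multiplicative ℚ →* G) (β : ℕ → Subgroup G) (Γ F : Subgroup G) (e r : G)
    (lg : List (G × G)) (u a : G) : Prop :=
  ∃ d ∈ PV (Γ ⊔ F) (fV e r lg), ∃ ρ ∈ PreG q r lg, ∃ x ∈ Bb β, u * a = d * ρ * x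

private theorem h58Q_left {u a d : G} (hd : d ∈ PV (Γ ⊔ F) (fV e r lg))
    (hQ : h58Q q β Γ F e r lg (d * u) a) : h58Q q β Γ F e r lg u a := by
  obtain ⟨d', hd', ρ, hρ, x, hx, he⟩ := hQ
  refine ⟨d⁻¹ * d', Subgroup.mul_mem _ (Subgroup.inv_mem _ hd) hd', ρ, hρ, x, hx, ?_⟩
  calc u * a = d⁻¹ * (d * u * a) := by group
    _ = d⁻¹ * d' * ρ * x := by rw [he]; group

private theorem h58Q_right (h : VC q β Γ E F M e r lg) {u a γ t : G} (ha : a ∈ Γ)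
    (ht : t ∈ F) (hQ : h58Q q β Γ F e r lg (u * (γ * t)) a) :
    h58Q q β Γ F e r lg u (γ * a) := by
  obtain ⟨d', hd', ρ, hρ, x, hx, he⟩ := hQ
  refine ⟨d', hd', ρ, hρ, x * t⁻¹, (Bb β).mul_mem hx ((Bb β).inv_mem (h58_FB h ht)), ?_⟩
  have h1 : t * a = a * t := h.st.comm t ht a ha
  calc u * (γ * a) = u * γ * (a * t) * t⁻¹ := by group
    _ = u * (γ * t) * a * t⁻¹ := by rw [← h1]; group
    _ = d' * ρ * (x * t⁻¹) := by rw [he]; group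

/-- the last entry of a reduced form -/
private theorem h58_last (h : VC q β Γ E F M e r lg) {x0 : G} (hx0 : x0 ∈ M)
    (hx1 : x0 ∉ Γ ⊔ E)
    (hx2 : ∀ n ∈ Γ ⊔ E, ∀ n' ∈ Γ ⊔ E, x0 ≠ n * gV r lg * n') {l : List (G × G)}
    (hl : Rd M (Γ ⊔ E) F l) (hne : l ≠ []) {a : G} (ha : a ∈ Γ)
    (hQ : h58Q q β Γ F e r lg (x0 * wp l) a) :
    ∃ x ∈ Bb β, (l.getLast hne).2 * a * x ∈ Γ := by
  obtain ⟨d, hd, ρ, hρ, x, hx, he⟩ := hQ
  obtain ⟨y0, hy0, l', hl', ⟨hne', hlast⟩, he'⟩ := h58_word' h hx0 hx1 hx2 hl hne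
    (Subgroup.inv_mem _ hd)
  have haM : a ∈ M := h58_ΓM h ha
  have hρM := h58_PreG_M h hρ
  -- the form of `x`
  have hxs : x ∈ (Bb β ⊓ M) ⊔ F := by
    obtain ⟨j, hj⟩ := (mem_Bb h.st.qs.mono).1 hx
    exact (sup_le_sup_right (inf_le_inf_right M (le_iSup β j)) F) (h.βM j hj)
  obtain ⟨z0, hz0, m, hm, hmZ, hxm⟩ := h.ra.formZ (Z := Bb β ⊓ M) inf_le_right
    (fun t ht htM => ⟨h58_FB h ht, htM⟩)
    (fun t ht y hy => h58_commF h ht (h58_NleNF h hy)) hxs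
  obtain ⟨hs1, hs2⟩ := Rd.snoc h.ra.le hl' hne' haM
  set l2 := l'.dropLast ++ [((l'.getLast hne').1, (l'.getLast hne').2 * a)] with hl2
  have e3 : wp l2 = (y0⁻¹ * ρ * z0) * wp m := by
    rw [← hs2]
    have e4 : d⁻¹ * (x0 * wp l) * a = ρ * x := by
      rw [mul_assoc, he]; group
    rw [he', hxm] at e4
    calc wp l' * a = y0⁻¹ * (y0 * wp l' * a) := by group
      _ = y0⁻¹ * ρ * z0 * wp m := by rw [e4]; group
  have hsim := h.ra.sim (M.mul_mem (M.mul_mem (M.inv_mem hy0) hρM) hz0.2) hs1 hm e3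
  have hl2ne : l2 ≠ [] := by simp [hl2]
  have hmne : m ≠ [] := by
    intro hm0
    have := hsim.length_eq
    rw [hm0] at this
    exact hl2ne (List.length_eq_zero_iff.1 this)
  have h5 := hsim.last hl2ne hmne
  have h6 : (l2.getLast hl2ne).2 = (l.getLast hne).2 * a := by
    simp [hl2, hlast]
  rw [h6] at h5
  obtain ⟨ν, hν, s, hs, hns⟩ := h58_N h h5
  have h7 := hmZ _ (List.getLast_mem hmne)
  refine ⟨(m.getLast hmne).2⁻¹ * s⁻¹, (Bb β).mul_mem ((Bb β).inv_mem h7.1)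
    ((Bb β).inv_mem (h58_EB h hs)), ?_⟩
  have h8 : (l.getLast hne).2 * a * ((m.getLast hmne).2⁻¹ * s⁻¹) = ν := by
    rw [← mul_assoc, hns]; group
  rw [h8]
  exact hν

/-- the case `u ∈ M` -/
private theorem h58_base (h : VC q β Γ E F M e r lg) {K : ℕ}
    (hK : ∀ g, g ∉ Γ ⊔ F → ∀ a ∈ Γ, ∀ b ∈ Γ,
      (∃ x ∈ Bb β, g * a * x ∈ Γ) → (∃ x ∈ Bb β, g * b * x ∈ Γ) → ql q β (a⁻¹ * b) ≤ K)
    {u : G} (hu : u ∈ M) (huD : u ∉ PV (Γ ⊔ F) (fV e r lg)) {a b : G} (ha : a ∈ Γ) (hb : b ∈ Γ)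
    (hQa : h58Q q β Γ F e r lg u a) (hQb : h58Q q β Γ F e r lg u b) :
    ql q β (a⁻¹ * b) ≤ K + 2 * (lg.length + 1) := by
  have hra := h.st.qs.ra
  obtain ⟨d1, hd1, ρ1, hρ1, x1, hx1, he1⟩ := hQa
  obtain ⟨d2, hd2, ρ2, hρ2, x2, hx2, he2⟩ := hQb
  obtain ⟨n1, hn1, κ1, hκ1, hl1, b1, hb1, e1⟩ :=
    h.g1 (M.mul_mem hu (h58_ΓM h ha)) hd1 hρ1 hx1 he1
  obtain ⟨n2, hn2, κ2, hκ2, hl2, b2, hb2, e2⟩ :=
    h.g1 (M.mul_mem hu (h58_ΓM h hb)) hd2 hρ2 hx2 he2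
  obtain ⟨γ1, hγ1, η1, hη1, rfl⟩ := h58_N h hn1
  obtain ⟨γ2, hγ2, η2, hη2, rfl⟩ := h58_N h hn2
  have hη1B := h58_EB h hη1
  have hη2B := h58_EB h hη2
  have hγ : γ1⁻¹ * γ2 ∈ Γ := Γ.mul_mem (Γ.inv_mem hγ1) hγ2
  have hη : η1⁻¹ * η2 ∈ E := E.mul_mem (E.inv_mem hη1) hη2
  have hηB := h58_EB h hη
  have hcη : ∀ x ∈ Γ, η1⁻¹ * x = x * η1⁻¹ := fun x hx =>
    h.st.comm _ (F.inv_mem (h.EF hη1)) x hx
  have hqκ : ql q β (η1⁻¹ * η2 * κ2) = ql q β κ2 := hra.rlen_mul_left hηB κ2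
  have hκ' : LN q β Γ (η1⁻¹ * η2 * κ2) := by
    intro a ha
    have h1 : a * (η1⁻¹ * η2 * κ2) = (η1⁻¹ * η2) * (a * κ2) := by
      have := h.st.comm _ (h.EF hη) a ha
      calc a * (η1⁻¹ * η2 * κ2) = (a * (η1⁻¹ * η2)) * κ2 := by group
        _ = (η1⁻¹ * η2) * (a * κ2) := by rw [← this]; group
    rw [h1, hqκ]
    have h2 : ql q β (η1⁻¹ * η2 * (a * κ2)) = ql q β (a * κ2) := hra.rlen_mul_left hηB _
    rw [h2]
    exact hκ2 a ha
  -- the product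
  have eab : a⁻¹ * b = b1⁻¹ * (κ1⁻¹ * (γ1⁻¹ * γ2) * (η1⁻¹ * η2 * κ2)) * b2 := by
    have h1 : a⁻¹ * b = (u * a)⁻¹ * (u * b) := by group
    rw [h1, e1, e2]
    calc (γ1 * η1 * κ1 * b1)⁻¹ * (γ2 * η2 * κ2 * b2)
        = b1⁻¹ * κ1⁻¹ * (η1⁻¹ * (γ1⁻¹ * γ2)) * η2 * κ2 * b2 := by group
      _ = b1⁻¹ * (κ1⁻¹ * (γ1⁻¹ * γ2) * (η1⁻¹ * η2 * κ2)) * b2 := by
        rw [hcη _ hγ]; group
  have hq1 : ql q β (b1⁻¹ * κ1⁻¹) = ql q β κ1 := by
    have h1 : ql q β (b1⁻¹ * κ1⁻¹) = ql q β κ1⁻¹ := hra.rlen_mul_left ((Bb β).inv_mem hb1) _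
    rw [h1]
    exact hra.rlen_inv κ1
  by_cases h0 : ql q β (γ1⁻¹ * γ2) = 0
  · have hγB : γ1⁻¹ * γ2 ∈ Bb β := (RA.rlen_eq_zero hra).1 h0
    have h1 : a⁻¹ * b = (b1⁻¹ * κ1⁻¹) * ((γ1⁻¹ * γ2) * (η1⁻¹ * η2 * κ2) * b2) := by
      rw [eab]; group
    have h2 : ql q β (a⁻¹ * b) ≤ ql q β (b1⁻¹ * κ1⁻¹) +
        ql q β ((γ1⁻¹ * γ2) * (η1⁻¹ * η2 * κ2) * b2) := by
      rw [h1]; exact hra.rlen_mul_le _ _
    have h3 : ql q β ((γ1⁻¹ * γ2) * (η1⁻¹ * η2 * κ2) * b2) = ql q β κ2 := by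
      have h4 : ql q β ((γ1⁻¹ * γ2) * (η1⁻¹ * η2 * κ2) * b2) =
        ql q β ((γ1⁻¹ * γ2) * (η1⁻¹ * η2 * κ2)) := hra.rlen_mul_right hb2 _
      have h5 : ql q β ((γ1⁻¹ * γ2) * (η1⁻¹ * η2 * κ2)) = ql q β (η1⁻¹ * η2 * κ2) :=
        hra.rlen_mul_left hγB _
      rw [h4, h5, hqκ]
    omega
  · have h1 : 1 ≤ ql q β (γ1⁻¹ * γ2) := Nat.one_le_iff_ne_zero.2 h0
    have hadd := LN.add h.st.qs h.st.QΓ h.st.gen hκ1 hκ' hγ h1
    have hlen : ql q β (a⁻¹ * b) = ql q β κ1 + ql q β (γ1⁻¹ * γ2) + ql q β κ2 := by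
      have h2 : ql q β (b1⁻¹ * (κ1⁻¹ * (γ1⁻¹ * γ2) * (η1⁻¹ * η2 * κ2)) * b2) =
        ql q β (b1⁻¹ * (κ1⁻¹ * (γ1⁻¹ * γ2) * (η1⁻¹ * η2 * κ2))) := hra.rlen_mul_right hb2 _
      have h3 : ql q β (b1⁻¹ * (κ1⁻¹ * (γ1⁻¹ * γ2) * (η1⁻¹ * η2 * κ2))) =
        ql q β (κ1⁻¹ * (γ1⁻¹ * γ2) * (η1⁻¹ * η2 * κ2)) :=
          hra.rlen_mul_left ((Bb β).inv_mem hb1) _
      rw [eab, h2, h3, hadd, hqκ]
    have habΓ : a⁻¹ * b ∈ Γ := Γ.mul_mem (Γ.inv_mem ha) hb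
    -- first cut
    have hc1 : ∃ c ∈ Bb β, b1⁻¹ * κ1⁻¹ * c ∈ Γ := by
      have h2 : (b1⁻¹ * κ1⁻¹) * ((γ1⁻¹ * γ2) * (η1⁻¹ * η2 * κ2) * b2) = a⁻¹ * b := by
        rw [eab]; group
      refine conv h.st.qs h.st.QΓ h.st.gen (x := b1⁻¹ * κ1⁻¹)
        (y := (γ1⁻¹ * γ2) * (η1⁻¹ * η2 * κ2) * b2) (by rw [h2]; exact habΓ) ?_
      rw [h2, hlen, hq1]
      have h4 : ql q β ((γ1⁻¹ * γ2) * (η1⁻¹ * η2 * κ2) * b2) =
        ql q β ((γ1⁻¹ * γ2) * (η1⁻¹ * η2 * κ2)) := hra.rlen_mul_right hb2 _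
      have h5 := hκ' (γ1⁻¹ * γ2) hγ
      rw [h4, h5, hqκ]
      omega
    have hc2 : ∃ c ∈ Bb β, b1⁻¹ * κ1⁻¹ * (γ1⁻¹ * γ2) * c ∈ Γ := by
      have h2 : (b1⁻¹ * κ1⁻¹ * (γ1⁻¹ * γ2)) * ((η1⁻¹ * η2 * κ2) * b2) = a⁻¹ * b := by
        rw [eab]; group
      refine conv h.st.qs h.st.QΓ h.st.gen (x := b1⁻¹ * κ1⁻¹ * (γ1⁻¹ * γ2))
        (y := (η1⁻¹ * η2 * κ2) * b2) (by rw [h2]; exact habΓ) ?_
      rw [h2, hlen]
      have h4 : ql q β ((η1⁻¹ * η2 * κ2) * b2) =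
        ql q β (η1⁻¹ * η2 * κ2) := hra.rlen_mul_right hb2 _
      have h5 := hκ1 (γ1⁻¹ * γ2)⁻¹ (Γ.inv_mem hγ)
      have h6 : ql q β (b1⁻¹ * κ1⁻¹ * (γ1⁻¹ * γ2)) = ql q β (κ1⁻¹ * (γ1⁻¹ * γ2)) := by
        rw [mul_assoc]
        exact hra.rlen_mul_left ((Bb β).inv_mem hb1) _
      have h7 : ql q β (κ1⁻¹ * (γ1⁻¹ * γ2)) = ql q β ((γ1⁻¹ * γ2)⁻¹ * κ1) := by
        have h8 : ql q β (κ1⁻¹ * (γ1⁻¹ * γ2))⁻¹ = ql q β (κ1⁻¹ * (γ1⁻¹ * γ2)) :=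
          hra.rlen_inv _
        rw [← h8]
        congr 1
        group
      have h9 : ql q β (γ1⁻¹ * γ2)⁻¹ = ql q β (γ1⁻¹ * γ2) := hra.rlen_inv _
      rw [h4, hqκ, h6, h7, h5, h9]
      omega
    obtain ⟨c1, hc1B, hc1⟩ := hc1
    obtain ⟨c2, hc2B, hc2⟩ := hc2
    have huinv : u⁻¹ ∉ Γ ⊔ F := fun h2 =>
      huD (h58_NFD (by simpa using (Γ ⊔ F).inv_mem h2))
    have eu : u⁻¹ * γ1 * η1 = a * b1⁻¹ * κ1⁻¹ := by
      have h2 : u⁻¹ * (u * a) * (κ1 * b1)⁻¹ = u⁻¹ * (γ1 * η1 * κ1 * b1) * (κ1 * b1)⁻¹ := by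
        rw [e1]
      calc u⁻¹ * γ1 * η1 = u⁻¹ * (γ1 * η1 * κ1 * b1) * (κ1 * b1)⁻¹ := by group
        _ = u⁻¹ * (u * a) * (κ1 * b1)⁻¹ := h2.symm
        _ = a * b1⁻¹ * κ1⁻¹ := by group
    have hK1 := hK u⁻¹ huinv γ1 hγ1 γ2 hγ2
      ⟨η1 * c1, (Bb β).mul_mem hη1B hc1B, by
        have h2 : u⁻¹ * γ1 * (η1 * c1) = a * (b1⁻¹ * κ1⁻¹ * c1) := by
          calc u⁻¹ * γ1 * (η1 * c1) = (u⁻¹ * γ1 * η1) * c1 := by group
            _ = a * (b1⁻¹ * κ1⁻¹ * c1) := by rw [eu]; group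
        rw [h2]
        exact Γ.mul_mem ha hc1⟩
      ⟨η1 * c2, (Bb β).mul_mem hη1B hc2B, by
        have h2 : u⁻¹ * γ2 * (η1 * c2) = a * (b1⁻¹ * κ1⁻¹ * (γ1⁻¹ * γ2) * c2) := by
          have h3 : u⁻¹ * γ2 * η1 = (u⁻¹ * γ1 * η1) * (γ1⁻¹ * γ2) := by
            have h4 := hcη _ hγ
            have h5 : (γ1⁻¹ * γ2) * η1 = η1 * (γ1⁻¹ * γ2) :=
              (h.st.comm _ (h.EF hη1) _ hγ).symm
            calc u⁻¹ * γ2 * η1 = u⁻¹ * γ1 * ((γ1⁻¹ * γ2) * η1) := by group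
              _ = (u⁻¹ * γ1 * η1) * (γ1⁻¹ * γ2) := by rw [h5]; group
          calc u⁻¹ * γ2 * (η1 * c2) = (u⁻¹ * γ2 * η1) * c2 := by group
            _ = a * (b1⁻¹ * κ1⁻¹ * (γ1⁻¹ * γ2) * c2) := by rw [h3, eu]; group
        rw [h2]
        exact Γ.mul_mem ha hc2⟩
    omega

private theorem h58_main (h : VC q β Γ E F M e r lg) {K : ℕ}
    (hK : ∀ g, g ∉ Γ ⊔ F → ∀ a ∈ Γ, ∀ b ∈ Γ,
      (∃ x ∈ Bb β, g * a * x ∈ Γ) → (∃ x ∈ Bb β, g * b * x ∈ Γ) → ql q β (a⁻¹ * b) ≤ K)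
    (k : ℕ) : ∀ u0 ∈ M, ∀ l, Rd M (Γ ⊔ E) F l → l.length = k →
      u0 * wp l ∉ PV (Γ ⊔ F) (fV e r lg) → ∀ a ∈ Γ, ∀ b ∈ Γ,
      h58Q q β Γ F e r lg (u0 * wp l) a → h58Q q β Γ F e r lg (u0 * wp l) b →
      ql q β (a⁻¹ * b) ≤ K + 2 * (lg.length + 1) := by
  induction k with
  | zero =>
    intro u0 hu0 l hl hlen huD a ha b hb hQa hQb
    have hl0 : l = [] := List.length_eq_zero_iff.1 hlen
    subst hl0
    simp only [wp, mul_one] at huD hQa hQb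
    exact h58_base h hK hu0 huD ha hb hQa hQb
  | succ k ih =>
    intro u0 hu0 l hl hlen huD a ha b hb hQa hQb
    have hne : l ≠ [] := by
      intro h0
      rw [h0] at hlen
      simp at hlen
    have hgM := h58_gM h
    by_cases h1 : (l.getLast hne).2 ∈ Γ ⊔ E
    · -- strip the last letter
      have hl' : Rd M (Γ ⊔ E) F l.dropLast := by
        rw [List.dropLast_eq_take]
        exact Rd.take hl _
      have htF : (l.getLast hne).1 ∈ F := hl.r1_fst_mem _ (List.getLast_mem hne)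
      obtain ⟨γ, hγ, η, hη, he⟩ := h58_N h h1
      have hwp : wp l = wp l.dropLast * (γ * ((l.getLast hne).1 * η)) := by
        conv_lhs => rw [← List.dropLast_append_getLast hne, wp_append]
        simp only [wp, mul_one]
        rw [he]
        have := h.st.comm _ htF γ hγ
        congr 1
        rw [← mul_assoc, this, mul_assoc]
      have hη' : (l.getLast hne).1 * η ∈ F := F.mul_mem htF (h.EF hη)
      have hu : u0 * wp l = (u0 * wp l.dropLast) * (γ * ((l.getLast hne).1 * η)) := by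
        rw [hwp, mul_assoc]
      rw [hu] at huD hQa hQb
      have hnD : γ * ((l.getLast hne).1 * η) ∈ PV (Γ ⊔ F) (fV e r lg) :=
        h58_NFD (Subgroup.mul_mem _ ((le_sup_left : Γ ≤ Γ ⊔ F) hγ)
          ((le_sup_right : F ≤ Γ ⊔ F) hη'))
      have h2 := ih u0 hu0 l.dropLast hl' (by simp [hlen])
        (fun h3 => huD (Subgroup.mul_mem _ h3 hnD)) (γ * a) (Γ.mul_mem hγ ha) (γ * b)
        (Γ.mul_mem hγ hb) (h58Q_right h ha hη' hQa) (h58Q_right h hb hη' hQb)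
      have h3 : (γ * a)⁻¹ * (γ * b) = a⁻¹ * b := by group
      rwa [h3] at h2
    · by_cases h2 : u0 ∈ Γ ⊔ E
      · -- strip the first letter
        cases l with
        | nil => exact absurd rfl hne
        | cons p l1 =>
          obtain ⟨t, x1⟩ := p
          obtain ⟨htF, htN, hxM, hxN, hl1⟩ := hl
          have hd : u0 * t ∈ PV (Γ ⊔ F) (fV e r lg) :=
            h58_NFD (Subgroup.mul_mem _ (h58_NleNF h h2) ((le_sup_right : F ≤ Γ ⊔ F) htF))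
          have hu : u0 * wp ((t, x1) :: l1) = (u0 * t) * (x1 * wp l1) := by
            simp only [wp]; group
          rw [hu] at huD hQa hQb
          have hQ : ∀ {a : G}, h58Q q β Γ F e r lg ((u0 * t) * (x1 * wp l1)) a →
              h58Q q β Γ F e r lg (x1 * wp l1) a := fun hQ => h58Q_left hd hQ
          exact ih x1 hxM l1 hl1 (by simpa using hlen)
            (fun h3 => huD (Subgroup.mul_mem _ hd h3)) a ha b hb (hQ hQa) (hQ hQb)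
      · by_cases h3 : ∀ n ∈ Γ ⊔ E, ∀ n' ∈ Γ ⊔ E, u0 ≠ n * gV r lg * n'
        · -- the main case
          have hlN : (l.getLast hne).2 ∉ Γ ⊔ F := by
            intro h4
            refine h1 (h58_NFM h h4 ?_)
            exact (q1_rd_mem hl _ (List.getLast_mem hne)).2.2
          have := hK _ hlN a ha b hb (h58_last h hu0 h2 h3 hl hne ha hQa)
            (h58_last h hu0 h2 h3 hl hne hb hQb)
          omega
        · push Not at h3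
          obtain ⟨n, hn, n', hn', rfl⟩ := h3
          cases l with
          | nil => exact absurd rfl hne
          | cons p l1 =>
            obtain ⟨t, x1⟩ := p
            obtain ⟨htF, htN, hxM, hxN, hl1⟩ := hl
            obtain ⟨η, hη, s, hs, rfl⟩ := h58_split (H := E) (K := Subgroup.zpowers e)
              (by
                intro k hk x hx
                obtain ⟨j, rfl⟩ := Subgroup.mem_zpowers_iff.1 hk
                exact h.st.ab _ (F.zpow_mem h.eF j) x (h.EF hx)) (h.Fe htF)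
            obtain ⟨j, rfl⟩ := Subgroup.mem_zpowers_iff.1 hs
            have hejF : e ^ j ∈ F := F.zpow_mem h.eF j
            have hd : n * fV e r lg ^ j ∈ PV (Γ ⊔ F) (fV e r lg) :=
              Subgroup.mul_mem _ (h58_NFD (h58_NleNF h hn)) (h58_fD j)
            have hu : n * gV r lg * n' * wp ((η * e ^ j, x1) :: l1) =
                (n * fV e r lg ^ j) * ((gV r lg * n' * η * x1) * wp l1) := by
              have h4 : e ^ j * (n' * η) = (n' * η) * e ^ j :=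
                h58_commF h hejF (Subgroup.mul_mem _ (h58_NleNF h hn')
                  ((le_sup_right : F ≤ Γ ⊔ F) (h.EF hη)))
              have h5 : fV e r lg ^ j = gV r lg * e ^ j * (gV r lg)⁻¹ := by
                simp only [fV]; rw [conj_zpow]
              simp only [wp]
              rw [h5]
              calc n * gV r lg * n' * (η * e ^ j * x1 * wp l1)
                  = n * gV r lg * ((n' * η) * e ^ j) * x1 * wp l1 := by group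
                _ = n * gV r lg * (e ^ j * (n' * η)) * x1 * wp l1 := by rw [h4]
                _ = _ := by group
            rw [hu] at huD hQa hQb
            have hxM' : gV r lg * n' * η * x1 ∈ M :=
              M.mul_mem (M.mul_mem (M.mul_mem hgM (h58_NleM h hn'))
                (h58_NleM h ((le_sup_right : E ≤ Γ ⊔ E) hη))) hxM
            exact ih _ hxM' l1 hl1 (by simpa using hlen)
              (fun h3 => huD (Subgroup.mul_mem _ hd h3)) a ha b hb (h58Q_left hd hQa)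
              (h58Q_left hd hQb)

/-- V10 : bounded intersections for `D` -/
theorem VC.kpD (h : VC q β Γ E F M e r lg) : ∃ K : ℕ, ∀ u, u ∉ PV (Γ ⊔ F) (fV e r lg) →
    ∀ a ∈ Γ, ∀ b ∈ Γ,
      (∃ d ∈ PV (Γ ⊔ F) (fV e r lg), ∃ ρ ∈ PreG q r lg, ∃ x ∈ Bb β, u * a = d * ρ * x) →
      (∃ d ∈ PV (Γ ⊔ F) (fV e r lg), ∃ ρ ∈ PreG q r lg, ∃ x ∈ Bb β, u * b = d * ρ * x) →
      ql q β (a⁻¹ * b) ≤ K := by
  obtain ⟨K, hK⟩ := h.st.bd'
  refine ⟨K + 2 * (lg.length + 1), ?_⟩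
  intro u hu a ha b hb hQa hQb
  obtain ⟨u0, hu0, l, hl, rfl⟩ := h.ra.form u
  exact h58_main h hK l.length u0 hu0 l hl rfl hu a ha b hb hQa hQb

end v10

end Pool.Agent.Helper98.AAD
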