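import Pool.Agent.Helper98.AAD.R1
import Pool.Agent.Helper98.AAD.R3
import Pool.Agent.Helper98.AAD.R4
import Pool.Agent.Helper98.AAD.V0

/-!
V11 (core): bounded intersections for `P`, from the facts V5, V6, V10, which are hypotheses here.
-/

set_option autoImplicit false

namespace Pool.Agent.Helper98.AAD

section vc

variable {G : Type} [Group G] {q : Multiplicative ℚ →* G} {β : ℕ → Subgroup G}
  {Γ E F M : Subgroup G} {e r : G} {lg : List (G × G)}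

theorem h37_ql_q_le (hq : QS q β) (t : Multiplicative ℚ) : ql q β (q t) ≤ 1 := by
  by_cases h : q t ∈ β 0
  · have h1 : q t ∈ Bb β := hq.ra.le h
    have : ql q β (q t) = 0 := (hq.ra.rlen_eq_zero).2 h1
    omega
  · exact (hq.ra.rlen_letter ⟨t, rfl⟩ h).le

theorem h37_ql_PreG_le (h : VC q β Γ E F M e r lg) {ρ : G} (hρ : ρ ∈ PreG q r lg) :
    ql q β ρ ≤ lg.length + 1 := by
  rcases hρ with ⟨t, rfl⟩ | ⟨i, t, rfl⟩
  · have := h37_ql_q_le h.st.qs t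
    omega
  · have h1 : ql q β (r * wp (lg.take i) * q t) ≤
        ql q β (r * wp (lg.take i)) + ql q β (q t) := h.st.qs.ra.rlen_mul_le _ _
    have h2 : ql q β (r * wp (lg.take i)) = (lg.take i).length :=
      h.st.qs.ra.rlen_form h.rB (h.lgR.take i)
    have h3 : (lg.take i).length ≤ lg.length := by
      rw [List.length_take]
      exact min_le_right _ _
    have h4 := h37_ql_q_le h.st.qs t
    omega

/-- the core of V11 -/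
theorem h37_kp_core (h : VC q β Γ E F M e r lg) {z : G} (hz : z ∈ Γ)
    (wd' : ∀ {a b : G}, (a ∈ Γ ∨ a ∈ PreG q r lg) → (b ∈ Γ ∨ b ∈ PreG q r lg) → ∀ {n : G},
      n ∈ Γ ⊔ F → ∀ {l : List (G × G)}, Rd (Γ ⊔ F) ⊥ (Subgroup.zpowers (fV e r lg)) l →
      l ≠ [] → a⁻¹ * (n * wp l) * b ∈ Bb β → b ∉ Γ)
    (pd : ∀ {p : G}, p ∈ PV (Γ ⊔ F) (fV e r lg * z * fV e r lg) → p ∉ Γ ⊔ F → ∀ {d d' : G},
      (d = 1 ∨ d = fV e r lg ∨ d = (fV e r lg)⁻¹) →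
      (d' = 1 ∨ d' = fV e r lg ∨ d' = (fV e r lg)⁻¹) →
      (∃ n ∈ Γ ⊔ F, ∃ l, Rd (Γ ⊔ F) ⊥ (Subgroup.zpowers (fV e r lg)) l ∧ l ≠ [] ∧
        d⁻¹ * p * d' = n * wp l ∧ (1 ≤ ql q β n ∨ ∃ p ∈ l, 1 ≤ ql q β p.2)) ∨
      (p = fV e r lg * z * fV e r lg ∧ d = fV e r lg ∧ d' = (fV e r lg)⁻¹) ∨
      (p = (fV e r lg * z * fV e r lg)⁻¹ ∧ d = (fV e r lg)⁻¹ ∧ d' = fV e r lg))
    (kpD : ∃ K : ℕ, ∀ u, u ∉ PV (Γ ⊔ F) (fV e r lg) → ∀ a ∈ Γ, ∀ b ∈ Γ,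
      (∃ d ∈ PV (Γ ⊔ F) (fV e r lg), ∃ ρ ∈ PreG q r lg, ∃ x ∈ Bb β, u * a = d * ρ * x) →
      (∃ d ∈ PV (Γ ⊔ F) (fV e r lg), ∃ ρ ∈ PreG q r lg, ∃ x ∈ Bb β, u * b = d * ρ * x) →
      ql q β (a⁻¹ * b) ≤ K) (R : ℕ) :
    ∃ K : ℕ, ∀ u, u ∉ PV (Γ ⊔ F) (fV e r lg * z * fV e r lg) → ∀ a ∈ Γ, ∀ b ∈ Γ,
      (∃ p ∈ PV (Γ ⊔ F) (fV e r lg * z * fV e r lg), ∃ s ∈ AS q β Γ e r lg R, ∃ x ∈ Bb β,
        u * a = p * s * x) →
      (∃ p ∈ PV (Γ ⊔ F) (fV e r lg * z * fV e r lg), ∃ s ∈ AS q β Γ e r lg R, ∃ x ∈ Bb β,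
        u * b = p * s * x) →
      ql q β (a⁻¹ * b) ≤ K := by
  classical
  obtain ⟨K0, hK0⟩ := kpD
  obtain ⟨hfpow, hfree⟩ := h.freeF
  have hΓN : Γ ≤ Γ ⊔ F := le_sup_left
  have hND : Γ ⊔ F ≤ PV (Γ ⊔ F) (fV e r lg) := le_sup_left
  have hNP : Γ ⊔ F ≤ PV (Γ ⊔ F) (fV e r lg * z * fV e r lg) := le_sup_left
  have hfD : fV e r lg ∈ PV (Γ ⊔ F) (fV e r lg) :=
    (le_sup_right : Subgroup.zpowers (fV e r lg) ≤ PV (Γ ⊔ F) (fV e r lg))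
      (Subgroup.mem_zpowers _)
  have hPD : PV (Γ ⊔ F) (fV e r lg * z * fV e r lg) ≤ PV (Γ ⊔ F) (fV e r lg) := by
    refine sup_le hND ?_
    rw [Subgroup.zpowers_le]
    exact mul_mem (mul_mem hfD (hND (hΓN hz))) hfD
  have hfne : fV e r lg ≠ 1 := by
    have := hfpow 1 one_ne_zero
    simpa using this
  have hf'ne : (fV e r lg)⁻¹ ≠ 1 := fun h1 => hfne (inv_eq_one.1 h1)
  have hone : (1 : G) ∈ PreG q r lg := Or.inl ⟨1, by simp⟩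
  -- decomposition of the elements of `AS`
  have hAS : ∀ s ∈ AS q β Γ e r lg R, ∃ δ α : G,
      (δ = 1 ∨ δ = fV e r lg ∨ δ = (fV e r lg)⁻¹) ∧ (α ∈ Γ ∨ α ∈ PreG q r lg) ∧
      ql q β α ≤ lg.length + 1 + R ∧ s = δ * α := by
    rintro s (⟨ρ, hρ, rfl | rfl | rfl⟩ | ⟨α, hα, hαR, rfl⟩)
    · exact ⟨1, s, Or.inl rfl, Or.inr hρ, by have := h37_ql_PreG_le h hρ; omega, by simp⟩
    · exact ⟨fV e r lg, ρ, Or.inr (Or.inl rfl), Or.inr hρ,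
        by have := h37_ql_PreG_le h hρ; omega, rfl⟩
    · exact ⟨(fV e r lg)⁻¹, ρ, Or.inr (Or.inr rfl), Or.inr hρ,
        by have := h37_ql_PreG_le h hρ; omega, rfl⟩
    · exact ⟨fV e r lg, α, Or.inr (Or.inl rfl), Or.inl hα, by omega, rfl⟩
  have hδD : ∀ δ : G, (δ = 1 ∨ δ = fV e r lg ∨ δ = (fV e r lg)⁻¹) →
      δ ∈ PV (Γ ⊔ F) (fV e r lg) := by
    rintro δ (rfl | rfl | rfl)
    · exact one_mem _
    · exact hfD
    · exact inv_mem hfD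
  -- elements `α * x` of `D`
  have hαx : ∀ α x : G, (α ∈ Γ ∨ α ∈ PreG q r lg) → x ∈ Bb β →
      α * x ∈ PV (Γ ⊔ F) (fV e r lg) → α * x ∈ Γ ⊔ F := by
    intro α x hα hx hD
    obtain ⟨n, hn, l, hl, hnl⟩ := PV.form hD
    by_cases hne : l = []
    · rw [hnl, hne]
      simpa [wp] using hn
    · exfalso
      refine wd' (a := α) (b := 1) hα (Or.inl Γ.one_mem) hn hl hne ?_ Γ.one_mem
      rw [← hnl]
      simpa using hx
  refine ⟨max K0 (2 * (lg.length + 1 + R) + ql q β z), ?_⟩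
  rintro u hu a ha b hb ⟨p1, hp1, s1, hs1, x1, hx1, e1⟩ ⟨p2, hp2, s2, hs2, x2, hx2, e2⟩
  obtain ⟨δ1, α1, hδ1, hα1, hq1, rfl⟩ := hAS s1 hs1
  obtain ⟨δ2, α2, hδ2, hα2, hq2, rfl⟩ := hAS s2 hs2
  by_cases huD : u ∈ PV (Γ ⊔ F) (fV e r lg)
  · refine le_trans ?_ (le_max_right _ _)
    -- the elements `ν`
    have hν : ∀ (c p δ α x : G), c ∈ Γ → p ∈ PV (Γ ⊔ F) (fV e r lg * z * fV e r lg) →
        (δ = 1 ∨ δ = fV e r lg ∨ δ = (fV e r lg)⁻¹) → (α ∈ Γ ∨ α ∈ PreG q r lg) → x ∈ Bb β →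
        u * c = p * (δ * α) * x → α * x ∈ Γ ⊔ F := by
      intro c p δ α x hc hp hδ hα hx heq
      refine hαx α x hα hx ?_
      have : α * x = δ⁻¹ * (p⁻¹ * (u * c)) := by
        rw [heq]
        group
      rw [this]
      exact mul_mem (inv_mem (hδD δ hδ)) (mul_mem (inv_mem (hPD hp)) (mul_mem huD (hND (hΓN hc))))
    have hν1 := hν a p1 δ1 α1 x1 ha hp1 hδ1 hα1 hx1 e1
    have hν2 := hν b p2 δ2 α2 x2 hb hp2 hδ2 hα2 hx2 e2
    -- the signs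
    have hsg : ∀ (c p δ α x : G), c ∈ Γ → p ∈ PV (Γ ⊔ F) (fV e r lg * z * fV e r lg) →
        α * x ∈ Γ ⊔ F → u * c = p * (δ * α) * x → δ ≠ 1 := by
      rintro c p δ α x hc hp hαx heq rfl
      apply hu
      have : u = p * (α * x) * c⁻¹ := by
        rw [eq_mul_inv_iff_mul_eq, heq]
        group
      rw [this]
      exact mul_mem (mul_mem hp (hNP hαx)) (inv_mem (hNP (hΓN hc)))
    have hδ1' : δ1 = fV e r lg ∨ δ1 = (fV e r lg)⁻¹ :=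
      hδ1.resolve_left (hsg a p1 δ1 α1 x1 ha hp1 hν1 e1)
    have hδ2' : δ2 = fV e r lg ∨ δ2 = (fV e r lg)⁻¹ :=
      hδ2.resolve_left (hsg b p2 δ2 α2 x2 hb hp2 hν2 e2)
    have hδ1z : δ1⁻¹ ∈ Subgroup.zpowers (fV e r lg) := by
      rcases hδ1' with rfl | rfl
      · exact inv_mem (Subgroup.mem_zpowers _)
      · rw [inv_inv]; exact Subgroup.mem_zpowers _
    have hδ2z : δ2 ∈ Subgroup.zpowers (fV e r lg) := by
      rcases hδ2' with rfl | rfl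
      · exact Subgroup.mem_zpowers _
      · exact inv_mem (Subgroup.mem_zpowers _)
    have hδ1n : δ1⁻¹ ≠ 1 := by
      rcases hδ1' with rfl | rfl
      · exact hf'ne
      · rw [inv_inv]; exact hfne
    have hδ2n : δ2 ≠ 1 := by
      rcases hδ2' with rfl | rfl
      · exact hfne
      · exact hf'ne
    have hμ : a⁻¹ * b = (α1 * x1)⁻¹ * (δ1⁻¹ * (p1⁻¹ * p2) * δ2) * (α2 * x2) := by
      have h1 : a⁻¹ * b = (u * a)⁻¹ * (u * b) := by group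
      rw [h1, e1, e2]
      group
    have hn : δ1⁻¹ * (p1⁻¹ * p2) * δ2 ∈ Γ ⊔ F := by
      have h1 : δ1⁻¹ * (p1⁻¹ * p2) * δ2 = (α1 * x1) * (a⁻¹ * b) * (α2 * x2)⁻¹ := by
        rw [hμ]; group
      rw [h1]
      exact mul_mem (mul_mem hν1 (hΓN (mul_mem (inv_mem ha) hb))) (inv_mem hν2)
    have hpP : p1⁻¹ * p2 ∈ PV (Γ ⊔ F) (fV e r lg * z * fV e r lg) := mul_mem (inv_mem hp1) hp2
    have hql : ql q β (δ1⁻¹ * (p1⁻¹ * p2) * δ2) ≤ ql q β z := by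
      by_cases hpN : p1⁻¹ * p2 ∈ Γ ⊔ F
      · -- then `p = 1` and `δ1 = δ2`
        have hp1' : p1⁻¹ * p2 = 1 := by
          by_contra hne
          refine hfree 1 (one_mem _) [(δ1⁻¹, p1⁻¹ * p2), (δ2, 1)] ?_ (by simp) ?_
          · refine ⟨hδ1z, ?_, hpN, fun _ => ?_, hδ2z, ?_, one_mem _, fun h0 => absurd rfl h0,
              trivial⟩
            · rwa [Subgroup.mem_bot]
            · rwa [Subgroup.mem_bot]
            · rwa [Subgroup.mem_bot]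
          · have : (1 : G) * wp [(δ1⁻¹, p1⁻¹ * p2), (δ2, 1)] = δ1⁻¹ * (p1⁻¹ * p2) * δ2 := by
              simp [wp, mul_assoc]
            rw [this]
            exact hn
        have hδe : δ1⁻¹ * δ2 = 1 := by
          by_contra hne
          refine hfree 1 (one_mem _) [(δ1⁻¹ * δ2, 1)] ?_ (by simp) ?_
          · refine ⟨mul_mem hδ1z hδ2z, ?_, one_mem _, fun h0 => absurd rfl h0, trivial⟩
            rwa [Subgroup.mem_bot]
          · have : (1 : G) * wp [(δ1⁻¹ * δ2, 1)] = δ1⁻¹ * (p1⁻¹ * p2) * δ2 := by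
              rw [hp1']
              simp [wp]
            rw [this]
            exact hn
        have : δ1⁻¹ * (p1⁻¹ * p2) * δ2 = 1 := by
          rw [hp1', mul_one, hδe]
        rw [this]
        have h0 : ql q β (1 : G) = 0 := (h.st.qs.ra.rlen_eq_zero).2 (one_mem _)
        omega
      · rcases pd hpP hpN hδ1 hδ2 with ⟨n, hn', l, hl, hne, heq, -⟩ | ⟨hp, hd, hd'⟩ |
            ⟨hp, hd, hd'⟩
        · exact absurd (heq ▸ hn) (hfree n hn' l hl hne)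
        · have : δ1⁻¹ * (p1⁻¹ * p2) * δ2 = z := by
            rw [hp, hd, hd']; group
          rw [this]
        · have : δ1⁻¹ * (p1⁻¹ * p2) * δ2 = z⁻¹ := by
            rw [hp, hd, hd']; group
          rw [this]
          exact (h.st.qs.ra.rlen_inv z).le
    have hl1 : ql q β (α1 * x1)⁻¹ ≤ lg.length + 1 + R := by
      have h1 : ql q β (α1 * x1)⁻¹ = ql q β (α1 * x1) := h.st.qs.ra.rlen_inv _
      have h2 : ql q β (α1 * x1) = ql q β α1 := h.st.qs.ra.rlen_mul_right hx1 _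
      omega
    have hl2 : ql q β (α2 * x2) ≤ lg.length + 1 + R := by
      have h2 : ql q β (α2 * x2) = ql q β α2 := h.st.qs.ra.rlen_mul_right hx2 _
      omega
    rw [hμ]
    have h3 : ql q β ((α1 * x1)⁻¹ * (δ1⁻¹ * (p1⁻¹ * p2) * δ2) * (α2 * x2)) ≤
        ql q β ((α1 * x1)⁻¹ * (δ1⁻¹ * (p1⁻¹ * p2) * δ2)) + ql q β (α2 * x2) :=
      h.st.qs.ra.rlen_mul_le _ _
    have h4 : ql q β ((α1 * x1)⁻¹ * (δ1⁻¹ * (p1⁻¹ * p2) * δ2)) ≤
        ql q β (α1 * x1)⁻¹ + ql q β (δ1⁻¹ * (p1⁻¹ * p2) * δ2) := h.st.qs.ra.rlen_mul_le _ _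
    omega
  · refine le_trans ?_ (le_max_left _ _)
    have hconv : ∀ (c p δ α x : G), c ∈ Γ → p ∈ PV (Γ ⊔ F) (fV e r lg * z * fV e r lg) →
        (δ = 1 ∨ δ = fV e r lg ∨ δ = (fV e r lg)⁻¹) → (α ∈ Γ ∨ α ∈ PreG q r lg) → x ∈ Bb β →
        u * c = p * (δ * α) * x →
        ∃ d ∈ PV (Γ ⊔ F) (fV e r lg), ∃ ρ ∈ PreG q r lg, ∃ x ∈ Bb β, u * c = d * ρ * x := by
      intro c p δ α x hc hp hδ hα hx heq
      rcases hα with hα | hα
      · exact ⟨p * (δ * α), mul_mem (hPD hp) (mul_mem (hδD δ hδ) (hND (hΓN hα))), 1, hone, x, hx,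
          by rw [heq, mul_one]⟩
      · exact ⟨p * δ, mul_mem (hPD hp) (hδD δ hδ), α, hα, x, hx, by rw [heq]; group⟩
    exact hK0 u huD a ha b hb (hconv a p1 δ1 α1 x1 ha hp1 hδ1 hα1 hx1 e1)
      (hconv b p2 δ2 α2 x2 hb hp2 hδ2 hα2 hx2 e2)

end vc

end Pool.Agent.Helper98.AAD
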