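import Pool.Agent.Helper98.AAD.R1
import Pool.Agent.Helper98.AAD.R3
import Pool.Agent.Helper98.AAD.V0

/-! AAD-V6 (helper96): elements of `P` between `f`-powers. -/

set_option autoImplicit false

namespace Pool.Agent.Helper98.AAD

namespace V6

variable {G : Type} [Group G]

theorem rd_append {X Y L : Subgroup G} {l l' : List (G × G)} (hl : Rd X Y L l)
    (hl1 : ∀ p ∈ l, p.2 ∉ Y) (hl' : Rd X Y L l') : Rd X Y L (l ++ l') := by
  induction l with
  | nil => simpa using hl'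
  | cons p l ih =>
    obtain ⟨h1, h2, h3, h4, h5⟩ := hl
    refine ⟨h1, h2, h3, fun _ => hl1 p (by simp), ih h5 fun p hp => hl1 p (by simp [hp])⟩

theorem wp_app (l l' : List (G × G)) : wp (l ++ l') = wp l * wp l' := by
  induction l with
  | nil => simp [wp]
  | cons p l ih => simp [wp, ih, mul_assoc]

/-- words `f^s z^s w f^s' n` -/
def Shape (X : Subgroup G) (f z : G) (w : G) : Prop :=
  ∃ s s' : ℤ, (s = 1 ∨ s = -1) ∧ (s' = 1 ∨ s' = -1) ∧ ∃ l, Rd X ⊥ (Subgroup.zpowers f) l ∧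
    (l = [] → s = s') ∧ (∀ p ∈ l, p.2 ≠ 1) ∧ ∃ n ∈ X, w = f ^ s * z ^ s * wp l * f ^ s' * n

theorem pow_key {X : Subgroup G} {f z : G} (hf : ∀ k : ℤ, k ≠ 0 → f ^ k ≠ 1) (hz : z ∈ X)
    (hz1 : z ≠ 1) {s : ℤ} (hs : s = 1 ∨ s = -1) (k : ℕ) :
    ∃ l, Rd X ⊥ (Subgroup.zpowers f) l ∧ (∀ p ∈ l, p.2 ≠ 1) ∧
      (f ^ s * z ^ s * f ^ s) ^ (k + 1) = f ^ s * z ^ s * wp l * f ^ s := by
  have hs0 : s ≠ 0 := by rcases hs with h | h <;> omega
  have hzs : z ^ s ≠ 1 := by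
    rcases hs with h | h <;> simp [h, hz1]
  induction k with
  | zero => exact ⟨[], trivial, by simp, by simp [wp]⟩
  | succ k ih =>
    obtain ⟨l, h1, h3, h4⟩ := ih
    refine ⟨(f ^ (s + s), z ^ s) :: l, ⟨⟨s + s, rfl⟩, ?_, X.zpow_mem hz s, fun _ => ?_, h1⟩,
      ?_, ?_⟩
    · simpa using hf (s + s) (by omega)
    · simpa using hzs
    · intro p hp
      rcases List.mem_cons.1 hp with rfl | hp
      · exact hzs
      · exact h3 p hp
    · rw [pow_succ', h4]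
      simp [wp, zpow_add, mul_assoc]

theorem zpow_key {X : Subgroup G} {f z : G} (hf : ∀ k : ℤ, k ≠ 0 → f ^ k ≠ 1) (hz : z ∈ X)
    (hz1 : z ≠ 1) {k : ℤ} (hk : k ≠ 0) :
    ∃ s : ℤ, (s = 1 ∨ s = -1) ∧ ∃ l, Rd X ⊥ (Subgroup.zpowers f) l ∧ (∀ p ∈ l, p.2 ≠ 1) ∧
      (f * z * f) ^ k = f ^ s * z ^ s * wp l * f ^ s := by
  rcases lt_or_gt_of_ne hk with h | h
  · obtain ⟨m, hm⟩ : ∃ m : ℕ, k = -((m + 1 : ℕ) : ℤ) := ⟨(-k - 1).toNat, by omega⟩
    obtain ⟨l, h1, h2, h3⟩ := pow_key hf hz hz1 (s := -1) (Or.inr rfl) m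
    refine ⟨-1, Or.inr rfl, l, h1, h2, ?_⟩
    rw [← h3, hm, zpow_neg, zpow_natCast, ← inv_pow]
    simp [mul_assoc]
  · obtain ⟨m, hm⟩ : ∃ m : ℕ, k = ((m + 1 : ℕ) : ℤ) := ⟨(k - 1).toNat, by omega⟩
    obtain ⟨l, h1, h2, h3⟩ := pow_key hf hz hz1 (s := 1) (Or.inl rfl) m
    refine ⟨1, Or.inl rfl, l, h1, h2, ?_⟩
    rw [← h3, hm, zpow_natCast]
    simp

theorem shape_of_wp {X : Subgroup G} {f z : G} (hf : ∀ k : ℤ, k ≠ 0 → f ^ k ≠ 1) (hz : z ∈ X)
    (hz1 : z ≠ 1) : ∀ l, Rd X ⊥ (Subgroup.zpowers (f * z * f)) l → l ≠ [] →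
      Shape X f z (wp l) := by
  intro l
  induction l with
  | nil => intro _ h; exact absurd rfl h
  | cons p l ih =>
    rintro ⟨⟨k, hk⟩, h2, h3, h4, h5⟩ -
    have hk0 : k ≠ 0 := by
      rintro rfl
      exact h2 (by simp at hk; simp [← hk])
    obtain ⟨s, hs, l1, r1, r2, r3⟩ := zpow_key hf hz hz1 hk0
    have hs0 : s ≠ 0 := by rcases hs with h | h <;> omega
    by_cases hl : l = []
    · refine ⟨s, s, hs, hs, l1, r1, fun _ => rfl, r2, p.2, h3, ?_⟩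
      rw [hl, ← r3]
      simp only [wp, mul_one]
      rw [show p.1 = (f * z * f) ^ k from hk.symm]
    · obtain ⟨s1, s', hs1, hs', l', q1, q2, q3, n, hn, q4⟩ := ih h5 hl
      have hs10 : s1 ≠ 0 := by rcases hs1 with h | h <;> omega
      have hz2 : z ^ s1 ≠ 1 := by rcases hs1 with h | h <;> simp [h, hz1]
      have hp2 : p.2 ≠ 1 := by simpa using h4 hl
      refine ⟨s, s', hs, hs', l1 ++ ((f ^ s, p.2) :: (f ^ s1, z ^ s1) :: l'), ?_, ?_, ?_, n, hn, ?_⟩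
      · refine rd_append r1 (fun p hp => by simpa using r2 p hp) ?_
        refine ⟨⟨s, rfl⟩, by simpa using hf s hs0, h3, fun _ => by simpa using hp2, ⟨s1, rfl⟩,
          by simpa using hf s1 hs10, X.zpow_mem hz s1, fun _ => by simpa using hz2, q1⟩
      · intro h; simp at h
      · intro y hy
        simp only [List.mem_append, List.mem_cons] at hy
        rcases hy with hy | rfl | rfl | hy
        · exact r2 y hy
        · exact hp2
        · exact hz2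
        · exact q3 y hy
      · show p.1 * p.2 * wp l = _
        rw [q4, wp_app, show p.1 = (f * z * f) ^ k from hk.symm, r3]
        simp [wp, mul_assoc]

/-- the left end -/
theorem left {X : Subgroup G} {f : G} (hf : ∀ k : ℤ, k ≠ 0 → f ^ k ≠ 1) {n0 y : G} (hn : n0 ∈ X)
    (hy : y ∈ X) (hy1 : y ≠ 1) {s : ℤ} (hs : s = 1 ∨ s = -1) {d : G}
    (hd : d = 1 ∨ d = f ∨ d = f⁻¹) :
    ∃ n ∈ X, ∃ l, Rd X ⊥ (Subgroup.zpowers f) l ∧ (∀ p ∈ l, p.2 ≠ 1) ∧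
      d⁻¹ * n0 * f ^ s * y = n * wp l ∧
      ((l = [] ∧ n = y ∧ n0 = 1 ∧ d = f ^ s) ∨ (l ≠ [] ∧ ∃ p ∈ l, p.2 = y)) := by
  have hs0 : s ≠ 0 := by rcases hs with h | h <;> omega
  obtain ⟨e, he, hde⟩ : ∃ e : ℤ, (e = 0 ∨ e = 1 ∨ e = -1) ∧ d = f ^ e := by
    rcases hd with rfl | rfl | rfl
    · exact ⟨0, by simp, by simp⟩
    · exact ⟨1, by simp, by simp⟩
    · exact ⟨-1, by simp, by simp⟩
  by_cases h0 : n0 = 1
  · by_cases hes : e = s
    · exact ⟨y, hy, [], trivial, by simp, by simp [h0, hde, hes, wp], Or.inl ⟨rfl, rfl, h0,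
        by rw [hde, hes]⟩⟩
    · refine ⟨1, X.one_mem, [(f ^ (s - e), y)], ⟨⟨s - e, rfl⟩, by simpa using hf (s - e) (by omega), hy,
        fun h => absurd rfl h, trivial⟩, by simpa using hy1, ?_, Or.inr ⟨by simp, (f ^ (s - e), y), by simp, rfl⟩⟩
      rw [h0, hde]
      simp only [wp, mul_one, one_mul, ← zpow_neg, ← zpow_add]
      congr 2
      ring
  · by_cases he0 : e = 0
    · refine ⟨n0, hn, [(f ^ s, y)], ⟨⟨s, rfl⟩, by simpa using hf s hs0, hy,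
        fun h => absurd rfl h, trivial⟩, by simpa using hy1, ?_, Or.inr ⟨by simp, (f ^ s, y), by simp, rfl⟩⟩
      rw [hde, he0]
      simp [wp, mul_assoc]
    · refine ⟨1, X.one_mem, [(f ^ (-e), n0), (f ^ s, y)], ⟨⟨-e, rfl⟩,
        by simpa using hf (-e) (by omega), hn, fun _ => by simpa using h0, ⟨s, rfl⟩,
        by simpa using hf s hs0, hy, fun h => absurd rfl h, trivial⟩, ?_, ?_,
        Or.inr ⟨by simp, (f ^ s, y), by simp, rfl⟩⟩
      · intro p hp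
        simp only [List.mem_cons, List.not_mem_nil, or_false] at hp
        rcases hp with rfl | rfl
        · exact h0
        · exact hy1
      · rw [hde]
        simp [wp, mul_assoc]

/-- the right end -/
theorem right {X : Subgroup G} {f : G} (hf : ∀ k : ℤ, k ≠ 0 → f ^ k ≠ 1) {n1 : G} (hn : n1 ∈ X)
    {s : ℤ} (hs : s = 1 ∨ s = -1) {d : G} (hd : d = 1 ∨ d = f ∨ d = f⁻¹) :
    ∃ l, Rd X ⊥ (Subgroup.zpowers f) l ∧ f ^ s * n1 * d = wp l ∧
      (l = [] → n1 = 1 ∧ d = f ^ (-s)) := by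
  have hs0 : s ≠ 0 := by rcases hs with h | h <;> omega
  obtain ⟨e, he, hde⟩ : ∃ e : ℤ, (e = 0 ∨ e = 1 ∨ e = -1) ∧ d = f ^ e := by
    rcases hd with rfl | rfl | rfl
    · exact ⟨0, by simp, by simp⟩
    · exact ⟨1, by simp, by simp⟩
    · exact ⟨-1, by simp, by simp⟩
  by_cases h0 : n1 = 1
  · by_cases hes : e = -s
    · exact ⟨[], trivial, by simp [h0, hde, hes, wp], fun _ => ⟨h0, by rw [hde, hes]⟩⟩
    · refine ⟨[(f ^ (s + e), 1)], ⟨⟨s + e, rfl⟩, by simpa using hf (s + e) (by omega), X.one_mem,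
        fun h => absurd rfl h, trivial⟩, ?_, by simp⟩
      rw [h0, hde]
      simp only [wp, mul_one, ← zpow_add]
  · by_cases he0 : e = 0
    · refine ⟨[(f ^ s, n1)], ⟨⟨s, rfl⟩, by simpa using hf s hs0, hn,
        fun h => absurd rfl h, trivial⟩, ?_, by simp⟩
      rw [hde, he0]
      simp [wp]
    · refine ⟨[(f ^ s, n1), (f ^ e, 1)], ⟨⟨s, rfl⟩, by simpa using hf s hs0, hn,
        fun _ => by simpa using h0, ⟨e, rfl⟩, by simpa using hf e he0, X.one_mem,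
        fun h => absurd rfl h, trivial⟩, ?_, by simp⟩
      rw [hde]
      simp [wp, mul_assoc]

end V6

section vc

variable {G : Type} [Group G] {q : Multiplicative ℚ →* G} {β : ℕ → Subgroup G}
  {Γ E F M : Subgroup G} {e r : G} {lg : List (G × G)}

/-- V6 : elements of `P` between `f`-powers -/
theorem VC.pd (h : VC q β Γ E F M e r lg) {z : G} (hz : z ∈ Γ) (hzB : z ∉ Bb β) {p : G}
    (hp : p ∈ PV (Γ ⊔ F) (fV e r lg * z * fV e r lg)) (hp' : p ∉ Γ ⊔ F) {d d' : G}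
    (hd : d = 1 ∨ d = fV e r lg ∨ d = (fV e r lg)⁻¹)
    (hd' : d' = 1 ∨ d' = fV e r lg ∨ d' = (fV e r lg)⁻¹) :
    (∃ n ∈ Γ ⊔ F, ∃ l, Rd (Γ ⊔ F) ⊥ (Subgroup.zpowers (fV e r lg)) l ∧ l ≠ [] ∧
      d⁻¹ * p * d' = n * wp l ∧ (1 ≤ ql q β n ∨ ∃ p ∈ l, 1 ≤ ql q β p.2)) ∨
    (p = fV e r lg * z * fV e r lg ∧ d = fV e r lg ∧ d' = (fV e r lg)⁻¹) ∨
    (p = (fV e r lg * z * fV e r lg)⁻¹ ∧ d = (fV e r lg)⁻¹ ∧ d' = fV e r lg) := by
  obtain ⟨hf, -⟩ := h.freeF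
  generalize fV e r lg = f at *
  have hz1 : z ≠ 1 := by
    rintro rfl
    exact hzB (Subgroup.one_mem _)
  have hzX : z ∈ Γ ⊔ F := (le_sup_left : Γ ≤ Γ ⊔ F) hz
  obtain ⟨n0, hn0, l, hl, hpl⟩ := PV.form hp
  have hlne : l ≠ [] := by
    rintro rfl
    exact hp' (by rw [hpl]; simpa [wp] using hn0)
  obtain ⟨s, s', hs, hs', lm, m1, m2, m3, n1, hn1, m4⟩ := V6.shape_of_wp hf hzX hz1 l hl hlne
  have hzs : z ^ s ≠ 1 := by rcases hs with h | h <;> simp [h, hz1]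
  have hzq : 1 ≤ ql q β (z ^ s) := by
    rw [Nat.one_le_iff_ne_zero]
    intro h0
    have : z ^ s ∈ Bb β := (RA.rlen_eq_zero h.st.qs.ra).1 h0
    rcases hs with h | h
    · rw [h] at this; exact hzB (by simpa using this)
    · rw [h] at this; exact hzB (by simpa using this)
  obtain ⟨n, hn, ll, a1, a2, a3, a4⟩ := V6.left hf hn0 ((Γ ⊔ F).zpow_mem hzX s) hzs hs hd
  obtain ⟨lr, b1, b2, b3⟩ := V6.right hf hn1 hs' hd'
  have hw : d⁻¹ * p * d' = n * wp (ll ++ (lm ++ lr)) := by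
    rw [V6.wp_app, V6.wp_app, ← b2, hpl, m4]
    calc _ = (d⁻¹ * n0 * f ^ s * z ^ s) * (wp lm * (f ^ s' * n1 * d')) := by
          simp only [mul_assoc]
      _ = _ := by rw [a3]; simp only [mul_assoc]
  have hR : Rd (Γ ⊔ F) ⊥ (Subgroup.zpowers f) (ll ++ (lm ++ lr)) :=
    V6.rd_append a1 (fun p hp => by simpa using a2 p hp)
      (V6.rd_append m1 (fun p hp => by simpa using m3 p hp) b1)
  by_cases hall : ll ++ (lm ++ lr) = []
  · rw [List.append_eq_nil_iff, List.append_eq_nil_iff] at hall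
    obtain ⟨hll, hlm, hlr⟩ := hall
    obtain ⟨rfl, c2⟩ := b3 hlr
    rcases a4 with ⟨-, -, hn01, hdd⟩ | ⟨h1, -⟩
    swap
    · exact absurd hll h1
    have hss := m2 hlm
    right
    have hpe : p = f ^ s * z ^ s * f ^ s := by
      rw [hpl, hn01, m4, hlm, hss]
      simp [wp]
    rcases hs with h1 | h1
    · left
      rw [← hss, h1] at c2
      rw [h1] at hpe hdd
      exact ⟨by simpa using hpe, by simpa using hdd, by simpa using c2⟩
    · right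
      rw [← hss, h1] at c2
      rw [h1] at hpe hdd
      exact ⟨by rw [hpe]; simp [mul_assoc], by simpa using hdd, by simpa using c2⟩
  · left
    refine ⟨n, hn, _, hR, hall, hw, ?_⟩
    rcases a4 with ⟨-, c1, -, -⟩ | ⟨-, p, hp, hp2⟩
    · left; rw [c1]; exact hzq
    · right; exact ⟨p, by simp [hp], by rw [hp2]; exact hzq⟩

end vc

end Pool.Agent.Helper98.AAD
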