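import Pool.Agent.Helper98.AAD.V5
import Pool.Agent.Helper98.AAD.V6
import Pool.Agent.Helper98.AAD.V10
import Pool.Agent.Helper98.AAD.V11core

/-!
V11: bounded intersections for `P`.
-/

set_option autoImplicit false

namespace Pool.Agent.Helper98.AAD

section vc

variable {G : Type} [Group G] {q : Multiplicative ℚ →* G} {β : ℕ → Subgroup G}
  {Γ E F M : Subgroup G} {e r : G} {lg : List (G × G)}

/-- V11 : bounded intersections for `P` -/
theorem VC.kp (h : VC q β Γ E F M e r lg) {z : G} (hz : z ∈ Γ) (hzB : z ∉ Bb β) (R : ℕ) :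
    ∃ K : ℕ, ∀ u, u ∉ PV (Γ ⊔ F) (fV e r lg * z * fV e r lg) → ∀ a ∈ Γ, ∀ b ∈ Γ,
      (∃ p ∈ PV (Γ ⊔ F) (fV e r lg * z * fV e r lg), ∃ s ∈ AS q β Γ e r lg R, ∃ x ∈ Bb β,
        u * a = p * s * x) →
      (∃ p ∈ PV (Γ ⊔ F) (fV e r lg * z * fV e r lg), ∃ s ∈ AS q β Γ e r lg R, ∃ x ∈ Bb β,
        u * b = p * s * x) →
      ql q β (a⁻¹ * b) ≤ K :=
  h37_kp_core h hz (fun ha hb _ hn _ hl hne hB => (h.wd' ha hb hn hl hne hB).2.1)
    (fun hp hp' _ _ hd hd' => h.pd hz hzB hp hp' hd hd') h.kpD R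

end vc

end Pool.Agent.Helper98.AAD
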