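import Pool.Agent.Helper98.AAD.DefsV
import Pool.Agent.Helper98.AAD.R3
import Pool.Agent.Helper98.AAD.R4
import Pool.Agent.Helper98.AAD.R4b

/-!
# Project AAD, module V12: conjugacy in `P`
-/

set_option autoImplicit false

namespace Pool.Agent.Helper98.AAD

section v12words

variable {G : Type} [Group G] {X Y L : Subgroup G}

/-- words starting with a letter and ending with a letter -/
def WL12 (X Y L : Subgroup G) (w : G) : Prop :=
  ∃ l, Rd X Y L l ∧ ∃ hne : l ≠ [], (l.getLast hne).2 = 1 ∧ w = wp l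

/-- words starting with a letter and ending with a base entry outside `Y` -/
def WA12 (X Y L : Subgroup G) (w : G) : Prop :=
  ∃ l, Rd X Y L l ∧ ∃ hne : l ≠ [], (l.getLast hne).2 ∉ Y ∧ w = wp l

theorem WL12.letter {t : G} (ht : t ∈ L) (hY : t ∉ Y) : WL12 X Y L t :=
  ⟨[(t, 1)], ⟨ht, hY, X.one_mem, fun h => absurd rfl h, trivial⟩, List.cons_ne_nil _ _, rfl,
    by simp [wp]⟩

omit [Group G] in
theorem v12_getLast {l l' : List (G × G)} (a : G × G) (hne' : l' ≠ [])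
    (h : l ++ a :: l' ≠ []) : (l ++ a :: l').getLast h = l'.getLast hne' := by
  rw [List.getLast_append_of_ne_nil h (List.cons_ne_nil _ _), List.getLast_cons hne']

theorem WL12.mul (hYX : Y ≤ X) {u v y : G} (hu : WL12 X Y L u) (hy : y ∈ X) (hyY : y ∉ Y)
    (hv : WL12 X Y L v) : WL12 X Y L (u * y * v) := by
  obtain ⟨l, hl, hne, h1, rfl⟩ := hu
  obtain ⟨l', hl', hne', h1', rfl⟩ := hv
  obtain ⟨k1, k2⟩ := Rd.cat hYX hl hl' hne hy (fun _ => by rw [h1, one_mul]; exact hyY)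
  refine ⟨_, k1, by simp, ?_, by rw [mul_assoc, k2]⟩
  rw [v12_getLast _ hne', h1']

theorem WL12.mulA (hYX : Y ≤ X) {u v y : G} (hu : WL12 X Y L u) (hy : y ∈ X) (hyY : y ∉ Y)
    (hv : WA12 X Y L v) : WA12 X Y L (u * y * v) := by
  obtain ⟨l, hl, hne, h1, rfl⟩ := hu
  obtain ⟨l', hl', hne', h1', rfl⟩ := hv
  obtain ⟨k1, k2⟩ := Rd.cat hYX hl hl' hne hy (fun _ => by rw [h1, one_mul]; exact hyY)
  refine ⟨_, k1, by simp, ?_, by rw [mul_assoc, k2]⟩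
  rw [v12_getLast _ hne']
  exact h1'

theorem WL12.snoc (hYX : Y ≤ X) {u y : G} (hu : WL12 X Y L u) (hy : y ∈ X) (hyY : y ∉ Y) :
    WA12 X Y L (u * y) := by
  obtain ⟨l, hl, hne, h1, rfl⟩ := hu
  obtain ⟨k1, k2⟩ := Rd.snoc hYX hl hne hy
  refine ⟨_, k1, by simp, ?_, k2⟩
  rw [List.getLast_append_of_ne_nil _ (List.cons_ne_nil _ _), List.getLast_singleton, h1, one_mul]
  exact hyY

theorem v12_pow_aux (hYX : Y ≤ X) {ε μ : G} (hε : ε ∈ L) (hεY : ∀ k : ℤ, k ≠ 0 → ε ^ k ∉ Y)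
    (hμ : μ ∈ X) (hμY : μ ∉ Y) (j : ℕ) :
    ∀ s : ℤ, s ≠ 0 → WL12 X Y L (ε ^ s * (μ * ε ^ (2 : ℤ)) ^ j) := by
  induction j with
  | zero =>
    intro s hs
    rw [pow_zero, mul_one]
    exact WL12.letter (L.zpow_mem hε s) (hεY s hs)
  | succ j ih =>
    intro s hs
    have h := WL12.mul hYX (WL12.letter (X := X) (L.zpow_mem hε s) (hεY s hs)) hμ hμY
      (ih 2 (by norm_num))
    have e : ε ^ s * (μ * ε ^ (2 : ℤ)) ^ (j + 1) =
        ε ^ s * μ * (ε ^ (2 : ℤ) * (μ * ε ^ (2 : ℤ)) ^ j) := by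
      rw [pow_succ']; simp only [mul_assoc]
    rw [e]
    exact h

theorem v12_alg (ε μ : G) (j : ℕ) :
    (ε * μ * ε) ^ (j + 1) = ε ^ (1 : ℤ) * (μ * ε ^ (2 : ℤ)) ^ j * μ * ε := by
  induction j with
  | zero => simp
  | succ j ih =>
    rw [pow_succ', ih, pow_succ' (μ * ε ^ (2 : ℤ)) j, zpow_two, zpow_one]
    simp only [mul_assoc]

theorem v12_pow_nat (hYX : Y ≤ X) {ε μ : G} (hε : ε ∈ L) (hεY : ∀ k : ℤ, k ≠ 0 → ε ^ k ∉ Y)
    (hμ : μ ∈ X) (hμY : μ ∉ Y) (j : ℕ) : WL12 X Y L ((ε * μ * ε) ^ (j + 1)) := by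
  rw [v12_alg]
  exact WL12.mul hYX (v12_pow_aux hYX hε hεY hμ hμY j 1 one_ne_zero) hμ hμY
    (WL12.letter hε (by simpa using hεY 1 one_ne_zero))

theorem v12_pow (hYX : Y ≤ X) {ε μ : G} (hε : ε ∈ L) (hεY : ∀ k : ℤ, k ≠ 0 → ε ^ k ∉ Y)
    (hμ : μ ∈ X) (hμY : μ ∉ Y) (k : ℤ) (hk : k ≠ 0) : WL12 X Y L ((ε * μ * ε) ^ k) := by
  rcases lt_or_gt_of_ne hk with h | h
  · obtain ⟨j, hj⟩ : ∃ j : ℕ, k = -((j + 1 : ℕ) : ℤ) := ⟨(-k - 1).toNat, by omega⟩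
    have e : (ε * μ * ε) ^ k = (ε⁻¹ * μ⁻¹ * ε⁻¹) ^ (j + 1) := by
      rw [hj, zpow_neg, zpow_natCast, ← inv_pow]
      congr 1
      group
    rw [e]
    refine v12_pow_nat hYX (L.inv_mem hε) (fun k hk => ?_) (X.inv_mem hμ)
      (fun h => hμY (by simpa using Y.inv_mem h)) j
    rw [inv_zpow']
    exact hεY (-k) (neg_ne_zero.2 hk)
  · obtain ⟨j, hj⟩ : ∃ j : ℕ, k = ((j + 1 : ℕ) : ℤ) := ⟨(k - 1).toNat, by omega⟩
    rw [hj, zpow_natCast]
    exact v12_pow_nat hYX hε hεY hμ hμY j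

/-- powers of `ε * μ * ε`, conjugated by `ε` -/
theorem v12_cyc_nat (hYX : Y ≤ X) {ε μ : G} (hε : ε ∈ L) (hεY : ∀ k : ℤ, k ≠ 0 → ε ^ k ∉ Y)
    (hμ : μ ∈ X) (hμY : μ ∉ Y) (j : ℕ) :
    ∃ x0 ∈ X, ∃ l, Rd X Y L l ∧ ∃ hne : l ≠ [], (l.getLast hne).2 * x0 ∉ Y ∧
      ε⁻¹ * (ε * μ * ε) ^ (j + 1) * ε = x0 * wp l := by
  obtain ⟨l, hl, hne, h1, h2⟩ := v12_pow_aux hYX hε hεY hμ hμY j 2 two_ne_zero
  refine ⟨μ, hμ, l, hl, hne, by rw [h1, one_mul]; exact hμY, ?_⟩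
  have e : ∀ j : ℕ, ε⁻¹ * (ε * μ * ε) ^ (j + 1) * ε = μ * (ε ^ (2 : ℤ) * (μ * ε ^ (2 : ℤ)) ^ j) := by
    intro j
    induction j with
    | zero => rw [zero_add, pow_one, pow_zero, mul_one, zpow_two]; simp only [mul_assoc, inv_mul_cancel_left]
    | succ j ih =>
      rw [pow_succ]
      have : ε⁻¹ * ((ε * μ * ε) ^ (j + 1) * (ε * μ * ε)) * ε =
          (ε⁻¹ * (ε * μ * ε) ^ (j + 1) * ε) * (μ * ε ^ (2 : ℤ)) := by
        rw [zpow_two]; simp only [mul_assoc]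
      rw [this, ih, pow_succ]
      simp only [mul_assoc]
  rw [e, h2]

theorem v12_cyc (hYX : Y ≤ X) {ε μ : G} (hε : ε ∈ L) (hεY : ∀ k : ℤ, k ≠ 0 → ε ^ k ∉ Y)
    (hμ : μ ∈ X) (hμY : μ ∉ Y) (k : ℤ) (hk : k ≠ 0) :
    ∃ w : G, ∃ x0 ∈ X, ∃ l, Rd X Y L l ∧ ∃ hne : l ≠ [], (l.getLast hne).2 * x0 ∉ Y ∧
      w⁻¹ * (ε * μ * ε) ^ k * w = x0 * wp l := by
  rcases lt_or_gt_of_ne hk with h | h
  · obtain ⟨j, hj⟩ : ∃ j : ℕ, k = -((j + 1 : ℕ) : ℤ) := ⟨(-k - 1).toNat, by omega⟩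
    have e : (ε * μ * ε) ^ k = (ε⁻¹ * μ⁻¹ * ε⁻¹) ^ (j + 1) := by
      rw [hj, zpow_neg, zpow_natCast, ← inv_pow]
      congr 1
      group
    rw [e]
    refine ⟨ε⁻¹, v12_cyc_nat hYX (L.inv_mem hε) (fun k hk => ?_) (X.inv_mem hμ)
      (fun h => hμY (by simpa using Y.inv_mem h)) j⟩
    rw [inv_zpow']
    exact hεY (-k) (neg_ne_zero.2 hk)
  · obtain ⟨j, hj⟩ : ∃ j : ℕ, k = ((j + 1 : ℕ) : ℤ) := ⟨(k - 1).toNat, by omega⟩
    rw [hj, zpow_natCast]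
    exact ⟨ε, v12_cyc_nat hYX hε hεY hμ hμY j⟩

theorem v12_entries : ∀ (l : List (G × G)) (a : G × G), Rd X Y L (l ++ [a]) → ∀ p ∈ l, p.2 ∉ Y
  | [], _, _, p, hp => by simp at hp
  | b :: l, a, h, p, hp => by
    obtain ⟨_, _, _, h4, h5⟩ := h
    rcases List.mem_cons.1 hp with rfl | hp
    · exact h4 (by simp)
    · exact v12_entries l a h5 p hp

/-- the possible conjugates of an element of `PV X x` -/
def C12 (X : Subgroup G) (x p : G) : Prop :=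
  ∃ u ∈ PV X x, u⁻¹ * p * u ∈ X ∨ (∃ k : ℤ, k ≠ 0 ∧ u⁻¹ * p * u = x ^ k) ∨
    ∃ l, Rd X ⊥ (Subgroup.zpowers x) l ∧ l ≠ [] ∧ (∀ p ∈ l, p.2 ≠ 1) ∧ u⁻¹ * p * u = wp l

theorem C12.conj {x p v : G} (hv : v ∈ PV X x) (h : C12 X x (v⁻¹ * p * v)) : C12 X x p := by
  obtain ⟨u, hu, h⟩ := h
  refine ⟨v * u, (PV X x).mul_mem hv hu, ?_⟩
  have e : (v * u)⁻¹ * p * (v * u) = u⁻¹ * (v⁻¹ * p * v) * u := by group
  rw [e]
  exact h

theorem v12_conj_aux (x : G) (N : ℕ) : ∀ n0 ∈ X, ∀ l : List (G × G),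
    Rd X ⊥ (Subgroup.zpowers x) l → l.length ≤ N → C12 X x (n0 * wp l) := by
  induction N with
  | zero =>
    intro n0 hn0 l hl hlen
    have hnil : l = [] := List.eq_nil_of_length_eq_zero (Nat.le_zero.1 hlen)
    subst hnil
    exact ⟨1, (PV X x).one_mem, Or.inl (by simpa [wp] using hn0)⟩
  | succ N ih =>
    intro n0 hn0 l hl hlen
    rcases List.eq_nil_or_concat l with hnil | ⟨l1, a, hla⟩
    · subst hnil
      exact ⟨1, (PV X x).one_mem, Or.inl (by simpa [wp] using hn0)⟩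
    · rw [List.concat_eq_append] at hla
      subst hla
      obtain ⟨t, n1⟩ := a
      have hXP : X ≤ PV X x := le_sup_left
      have hZP : Subgroup.zpowers x ≤ PV X x := le_sup_right
      have hent := v12_entries l1 _ hl
      obtain ⟨hl1, ⟨ht, ht1, hn1, _, _⟩, hlast⟩ := h84_rd_append.1 hl
      simp only at ht ht1 hn1
      refine C12.conj (hXP hn0) ?_
      have e : n0⁻¹ * (n0 * wp (l1 ++ [(t, n1)])) * n0 = wp l1 * (t * (n1 * n0)) := by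
        rw [wp_append]
        simp only [wp]
        group
      rw [e]
      by_cases h1 : n1 * n0 = 1
      · rw [h1, mul_one]
        cases l1 with
        | nil =>
          obtain ⟨k, rfl⟩ := Subgroup.mem_zpowers_iff.1 ht
          refine ⟨1, (PV X x).one_mem, Or.inr (Or.inl ⟨k, ?_, by simp [wp]⟩)⟩
          rintro rfl
          exact ht1 (by simp)
        | cons b l2 =>
          obtain ⟨t', n'⟩ := b
          obtain ⟨ht', ht1', hn', hn1', hl2⟩ := hl1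
          simp only at ht' ht1' hn' hn1'
          have hv : t⁻¹ ∈ PV X x := (PV X x).inv_mem (hZP ht)
          refine C12.conj hv ?_
          have e2 : t⁻¹⁻¹ * (wp ((t', n') :: l2) * t) * t⁻¹ = t * t' * (n' * wp l2) := by
            simp only [wp]
            group
          rw [e2]
          have hlen' : l2.length + 2 ≤ N + 1 := by simpa using hlen
          by_cases h2 : t * t' = 1
          · rw [h2, one_mul]
            exact ih n' hn' l2 hl2 (by omega)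
          · have := ih 1 X.one_mem ((t * t', n') :: l2)
              ⟨(Subgroup.zpowers x).mul_mem ht ht', by simpa using h2, hn', hn1', hl2⟩
              (by simp only [List.length_cons]; omega)
            rw [one_mul] at this
            simpa only [wp, mul_assoc] using this
      · refine ⟨1, (PV X x).one_mem, Or.inr (Or.inr ⟨l1 ++ [(t, n1 * n0)], ?_, by simp, ?_, ?_⟩)⟩
        · rw [h84_rd_append]
          exact ⟨hl1, ⟨ht, ht1, X.mul_mem hn1 hn0, fun h => absurd rfl h, trivial⟩,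
            fun _ => hlast (List.cons_ne_nil _ _)⟩
        · intro p hp
          rcases List.mem_append.1 hp with hp | hp
          · have := hent p hp
            rwa [Subgroup.mem_bot] at this
          · rw [List.mem_singleton] at hp
            rw [hp]
            exact h1
        · rw [wp_append]
          simp only [wp]
          group

theorem v12_conj {x p : G} (hp : p ∈ PV X x) : C12 X x p := by
  obtain ⟨n, hn, l, hl, rfl⟩ := PV.form hp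
  exact v12_conj_aux x l.length n hn l hl le_rfl

theorem v12_sup {Γ F : Subgroup G} (comm : ∀ e ∈ F, ∀ g ∈ Γ, e * g = g * e) {n : G}
    (hn : n ∈ Γ ⊔ F) : ∃ γ ∈ Γ, ∃ t ∈ F, n = γ * t := by
  rw [Subgroup.sup_eq_closure_mul] at hn
  induction hn using Subgroup.closure_induction with
  | mem x hx =>
    obtain ⟨a, ha, b, hb, rfl⟩ := Set.mem_mul.1 hx
    exact ⟨a, ha, b, hb, rfl⟩
  | one => exact ⟨1, Γ.one_mem, 1, F.one_mem, by simp⟩
  | mul x y _ _ hx hy =>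
    obtain ⟨a, ha, b, hb, rfl⟩ := hx
    obtain ⟨a', ha', b', hb', rfl⟩ := hy
    refine ⟨a * a', Γ.mul_mem ha ha', b * b', F.mul_mem hb hb', ?_⟩
    calc a * b * (a' * b') = a * (b * a') * b' := by group
      _ = a * (a' * b) * b' := by rw [comm b hb a' ha']
      _ = a * a' * (b * b') := by group
  | inv x _ hx =>
    obtain ⟨a, ha, b, hb, rfl⟩ := hx
    refine ⟨a⁻¹, Γ.inv_mem ha, b⁻¹, F.inv_mem hb, ?_⟩
    rw [mul_inv_rev, comm b⁻¹ (F.inv_mem hb) a⁻¹ (Γ.inv_mem ha)]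

end v12words

section v12

variable {G : Type} [Group G] {q : Multiplicative ℚ →* G} {β : ℕ → Subgroup G}
  {Γ E F M : Subgroup G} {e r : G} {lg : List (G × G)}

theorem v12_wp_mem {M : Subgroup G} : ∀ {l : List (G × G)}, (∀ p ∈ l, p.1 ∈ M ∧ p.2 ∈ M) →
    wp l ∈ M
  | [], _ => M.one_mem
  | p :: l, h => M.mul_mem (M.mul_mem (h p (by simp)).1 (h p (by simp)).2)
      (v12_wp_mem fun p hp => h p (by simp [hp]))

theorem VC.v12_gM (h : VC q β Γ E F M e r lg) : gV r lg ∈ M :=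
  M.mul_mem h.rM (v12_wp_mem h.lgM)

theorem VC.v12_gN (h : VC q β Γ E F M e r lg) : gV r lg ∉ Γ ⊔ F := by
  intro hg
  obtain ⟨γ, hγ, t, ht, hgt⟩ := v12_sup h.st.comm hg
  have h1 := h.nice.2 γ⁻¹ (Γ.inv_mem hγ) 1 Γ.one_mem
  have h2 : γ⁻¹ * (r * wp lg) * 1 = t := by
    have : r * wp lg = γ * t := hgt
    rw [this]; group
  have h3 : ql q β t = 0 := by
    refine (h.st.qs.ra.rlen_eq_zero).2 ?_
    exact h.st.qs.ra.le (h.st.EC ht)
  rw [h2, h3] at h1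
  have := h.nice.1
  omega

theorem VC.v12_conjN (h : VC q β Γ E F M e r lg) {n : G} (hn : n ∈ Γ ⊔ F) (hn1 : n ≠ 1) :
    (gV r lg)⁻¹ * n * gV r lg ∉ Γ ⊔ F := fun h1 =>
  h.v12_gN (h.st.mal n hn hn1 _ h1)

theorem VC.v12_NF (h : VC q β Γ E F M e r lg) : Γ ⊔ E ≤ Γ ⊔ F := sup_le_sup_left h.EF _

theorem VC.v12_xpow (_h : VC q β Γ E F M e r lg) (z : G) (k : ℤ) :
    (fV e r lg * z * fV e r lg) ^ k =
      gV r lg * (e * ((gV r lg)⁻¹ * z * gV r lg) * e) ^ k * (gV r lg)⁻¹ := by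
  have : fV e r lg * z * fV e r lg =
      gV r lg * (e * ((gV r lg)⁻¹ * z * gV r lg) * e) * (gV r lg)⁻¹ := by
    unfold fV
    group
  rw [this, conj_zpow]

theorem VC.v12_all (h : VC q β Γ E F M e r lg) {z : G} (hz : z ∈ Γ) (hz1 : z ≠ 1) :
    ∀ l : List (G × G), Rd (Γ ⊔ F) ⊥ (Subgroup.zpowers (fV e r lg * z * fV e r lg)) l → l ≠ [] →
      (∀ p ∈ l, p.2 ≠ 1) → WA12 M (Γ ⊔ E) F ((gV r lg)⁻¹ * wp l * gV r lg) := by
  have hYX := h.ra.le
  have hgM := h.v12_gM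
  have hgN : gV r lg ∉ Γ ⊔ E := fun h1 => h.v12_gN (h.v12_NF h1)
  have hzM : z ∈ M := hYX (le_sup_left (a := Γ) hz)
  have hm : (gV r lg)⁻¹ * z * gV r lg ∈ M := M.mul_mem (M.mul_mem (M.inv_mem hgM) hzM) hgM
  have hmN : (gV r lg)⁻¹ * z * gV r lg ∉ Γ ⊔ E := fun h1 =>
    h.v12_conjN (le_sup_left (a := Γ) hz) hz1 (h.v12_NF h1)
  intro l
  induction l with
  | nil => intro _ h1; exact absurd rfl h1
  | cons a l ih =>
    obtain ⟨t, n⟩ := a
    rintro ⟨ht, ht1, hn, hn1, hl⟩ _ hall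
    simp only at ht ht1 hn hn1
    obtain ⟨k, rfl⟩ := Subgroup.mem_zpowers_iff.1 ht
    have hk : k ≠ 0 := by
      rintro rfl
      exact ht1 (by simp)
    have hne1 : n ≠ 1 := hall ((fV e r lg * z * fV e r lg) ^ k, n) (by simp)
    have hU : WL12 M (Γ ⊔ E) F ((e * ((gV r lg)⁻¹ * z * gV r lg) * e) ^ k) :=
      v12_pow hYX h.eF h.epow hm hmN k hk
    have e1 : (gV r lg)⁻¹ * wp (((fV e r lg * z * fV e r lg) ^ k, n) :: l) * gV r lg =
        (e * ((gV r lg)⁻¹ * z * gV r lg) * e) ^ k * ((gV r lg)⁻¹ * n * gV r lg) *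
          ((gV r lg)⁻¹ * wp l * gV r lg) := by
      simp only [wp]
      rw [h.v12_xpow]
      group
    rw [e1]
    by_cases hnE : n ∈ Γ ⊔ E
    · have hy : (gV r lg)⁻¹ * n * gV r lg ∈ M := M.mul_mem (M.mul_mem (M.inv_mem hgM) (hYX hnE)) hgM
      have hyN : (gV r lg)⁻¹ * n * gV r lg ∉ Γ ⊔ E := fun h1 =>
        h.v12_conjN hn hne1 (h.v12_NF h1)
      by_cases hl0 : l = []
      · subst hl0
        have : (gV r lg)⁻¹ * wp ([] : List (G × G)) * gV r lg = 1 := by simp [wp]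
        rw [this, mul_one]
        exact hU.snoc hYX hy hyN
      · exact hU.mulA hYX hy hyN (ih hl hl0 fun p hp => hall p (by simp [hp]))
    · obtain ⟨ν, hν, s, hs, rfl⟩ := v12_sup h.st.comm hn
      have hνM : ν ∈ M := hYX (le_sup_left (a := Γ) hν)
      have hsN : s ∉ Γ ⊔ E := fun h1 => hnE ((Γ ⊔ E).mul_mem (le_sup_left (a := Γ) hν) h1)
      have hy : (gV r lg)⁻¹ * ν ∈ M := M.mul_mem (M.inv_mem hgM) hνM
      have hyN : (gV r lg)⁻¹ * ν ∉ Γ ⊔ E := by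
        intro h1
        refine hgN ?_
        have := (Γ ⊔ E).mul_mem (le_sup_left (a := Γ) hν) ((Γ ⊔ E).inv_mem h1)
        simpa using this
      have hU' : WL12 M (Γ ⊔ E) F ((e * ((gV r lg)⁻¹ * z * gV r lg) * e) ^ k *
          ((gV r lg)⁻¹ * ν) * s) := hU.mul hYX hy hyN (WL12.letter hs hsN)
      have e2 : (e * ((gV r lg)⁻¹ * z * gV r lg) * e) ^ k * ((gV r lg)⁻¹ * (ν * s) * gV r lg) =
          (e * ((gV r lg)⁻¹ * z * gV r lg) * e) ^ k * ((gV r lg)⁻¹ * ν) * s * gV r lg := by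
        simp only [mul_assoc]
      rw [e2]
      by_cases hl0 : l = []
      · subst hl0
        have : (gV r lg)⁻¹ * wp ([] : List (G × G)) * gV r lg = 1 := by simp [wp]
        rw [this, mul_one]
        exact hU'.snoc hYX hgM hgN
      · exact hU'.mulA hYX hgM hgN (ih hl hl0 fun p hp => hall p (by simp [hp]))

/-- V12a : conjugacy in `P` -/
theorem VC.v2a (h : VC q β Γ E F M e r lg) {z : G} (hz : z ∈ Γ) (hz1 : z ≠ 1) {p : G}
    (hp : p ∈ PV (Γ ⊔ F) (fV e r lg * z * fV e r lg)) :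
    (∃ u ∈ PV (Γ ⊔ F) (fV e r lg * z * fV e r lg), u⁻¹ * p * u ∈ Γ ⊔ F) ∨
    ∃ w : G, ∃ x0 ∈ M, ∃ l, Rd M (Γ ⊔ E) F l ∧ ∃ hne : l ≠ [], (l.getLast hne).2 * x0 ∉ Γ ⊔ E ∧
      w⁻¹ * p * w = x0 * wp l := by
  obtain ⟨u, hu, h1 | ⟨k, hk, h1⟩ | ⟨l, hl, hne, hall, h1⟩⟩ := v12_conj hp
  · exact Or.inl ⟨u, hu, h1⟩
  · right
    have hYX := h.ra.le
    have hgM := h.v12_gM
    have hzM : z ∈ M := hYX (le_sup_left (a := Γ) hz)
    have hm : (gV r lg)⁻¹ * z * gV r lg ∈ M := M.mul_mem (M.mul_mem (M.inv_mem hgM) hzM) hgM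
    have hmN : (gV r lg)⁻¹ * z * gV r lg ∉ Γ ⊔ E := fun h1 =>
      h.v12_conjN (le_sup_left (a := Γ) hz) hz1 (h.v12_NF h1)
    obtain ⟨w, x0, hx0, l, hl, hne, h2, h3⟩ := v12_cyc hYX h.eF h.epow hm hmN k hk
    refine ⟨u * gV r lg * w, x0, hx0, l, hl, hne, h2, ?_⟩
    have e1 : (u * gV r lg * w)⁻¹ * p * (u * gV r lg * w) =
        w⁻¹ * ((gV r lg)⁻¹ * (u⁻¹ * p * u) * gV r lg) * w := by group
    rw [e1, h1, h.v12_xpow, ← h3]
    group
  · right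
    obtain ⟨l', hl', hne', h2, h3⟩ := h.v12_all hz hz1 l hl hne hall
    refine ⟨u * gV r lg, 1, M.one_mem, l', hl', hne', by rw [mul_one]; exact h2, ?_⟩
    have e1 : (u * gV r lg)⁻¹ * p * (u * gV r lg) =
        (gV r lg)⁻¹ * (u⁻¹ * p * u) * gV r lg := by group
    rw [e1, h1, h3, one_mul]

/-- V12 -/
theorem VC.v2 (h : VC q β Γ E F M e r lg) {z : G} (hz : z ∈ Γ) (hzB : z ∉ Bb β) :
    ∀ n ∈ Γ ⊔ F, n ≠ 1 → ∀ g, g⁻¹ * n * g ∈ PV (Γ ⊔ F) (fV e r lg * z * fV e r lg) →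
      g ∈ PV (Γ ⊔ F) (fV e r lg * z * fV e r lg) := by
  intro n hn hn1 g hg
  have hz1 : z ≠ 1 := by
    rintro rfl
    exact hzB (Bb β).one_mem
  rcases h.v2a hz hz1 hg with ⟨u, hu, h1⟩ | ⟨w, x0, hx0, l, hl, hne, h1, h2⟩
  · have h3 : (g * u)⁻¹ * n * (g * u) ∈ Γ ⊔ F := by
      have : (g * u)⁻¹ * n * (g * u) = u⁻¹ * (g⁻¹ * n * g) * u := by group
      rw [this]
      exact h1
    have h4 := h.st.mal n hn hn1 _ h3
    have h5 : g * u ∈ PV (Γ ⊔ F) (fV e r lg * z * fV e r lg) := le_sup_left (a := Γ ⊔ F) h4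
    have h6 := Subgroup.mul_mem _ h5 (Subgroup.inv_mem _ hu)
    simpa using h6
  · exfalso
    have hcyc := h.ra.cyc_pow hx0 hl hne h1
    have hb : ∀ j : ℕ, rlen M (Γ ⊔ E) F ((x0 * wp l) ^ j) ≤
        2 * rlen M (Γ ⊔ E) F (g * w) + 1 := by
      intro j
      have e1 : (x0 * wp l) ^ j = (g * w)⁻¹ * n ^ j * (g * w) := by
        rw [← h2]
        have : w⁻¹ * (g⁻¹ * n * g) * w = (g * w)⁻¹ * n * ((g * w)⁻¹)⁻¹ := by group
        rw [this, conj_pow]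
        group
      rw [e1]
      have hsup : Γ ⊔ F = (Γ ⊔ E) ⊔ F := by
        rw [sup_assoc, sup_eq_right.2 h.EF]
      have h3 : n ^ j ∈ (Γ ⊔ E) ⊔ F := by
        rw [← hsup]
        exact Subgroup.pow_mem _ hn j
      have h4 := h.ra.rlen_YL h3
      have h5 := h.ra.rlen_mul_le ((g * w)⁻¹ * n ^ j) (g * w)
      have h6 := h.ra.rlen_mul_le (g * w)⁻¹ (n ^ j)
      have h7 := h.ra.rlen_inv (g * w)
      omega
    have h8 := hb (2 * rlen M (Γ ⊔ E) F (g * w) + 2)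
    rw [hcyc] at h8
    have h9 : 1 ≤ l.length := List.length_pos_iff.2 hne
    nlinarith

end v12

end Pool.Agent.Helper98.AAD
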