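import Pool.Agent.Helper98.AAD.V6

/-! AAD-V13 (helper96): the two copies of `P` meet in `Γ ⊔ F`. -/

set_option autoImplicit false

namespace Pool.Agent.Helper98.AAD

namespace V13

variable {G : Type} [Group G]

theorem inv_form {X L : Subgroup G} : ∀ l, Rd X ⊥ L l → ∀ y ∈ X, y ≠ 1 →
    ∃ n ∈ X, ∃ l', Rd X ⊥ L l' ∧ (∀ p ∈ l', p.2 ≠ 1) ∧ (wp l)⁻¹ * y = n * wp l' := by
  intro l
  induction l with
  | nil => intro _ y hy _; exact ⟨y, hy, [], trivial, by simp, by simp [wp]⟩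
  | cons p l ih =>
    rintro ⟨h1, h2, h3, h4, h5⟩ y hy hy1
    have hone : p.1⁻¹ ∉ (⊥ : Subgroup G) := by simpa using h2
    by_cases hx : p.2 = 1
    · have hl : l = [] := by
        by_contra hne
        exact h4 hne (by simpa using hx)
      refine ⟨1, X.one_mem, [(p.1⁻¹, y)], ⟨L.inv_mem h1, hone, hy, fun h => absurd rfl h, trivial⟩,
        by simpa using hy1, ?_⟩
      rw [hl]
      simp [wp, hx]
    · obtain ⟨n, hn, l', a1, a2, a3⟩ := ih h5 p.2⁻¹ (X.inv_mem h3) (by simpa using hx)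
      refine ⟨n, hn, l' ++ [(p.1⁻¹, y)], V6.rd_append a1 (fun p hp => by simpa using a2 p hp)
        ⟨L.inv_mem h1, hone, hy, fun h => absurd rfl h, trivial⟩, ?_, ?_⟩
      · intro p hp
        simp only [List.mem_append, List.mem_cons, List.not_mem_nil, or_false] at hp
        rcases hp with hp | rfl
        · exact a2 p hp
        · exact hy1
      · rw [V6.wp_app, ← mul_assoc, ← a3]
        simp [wp, mul_assoc]

end V13

section vc

variable {G : Type} [Group G] {q : Multiplicative ℚ →* G} {β : ℕ → Subgroup G}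
  {Γ E F M : Subgroup G} {e r : G} {lg : List (G × G)}

/-- V13 -/
theorem VC.v3 (h : VC q β Γ E F M e r lg) {z c : G} (hz : z ∈ Γ) (hzB : z ∉ Bb β) (hc : c ∈ Γ)
    (hcC : c ∈ β 0) (hc1 : c ≠ 1) : ∀ x ∈ PV (Γ ⊔ F) (fV e r lg * z * fV e r lg),
      x ∈ PV (Γ ⊔ F) (fV e r lg * (c * z) * fV e r lg) → x ∈ Γ ⊔ F := by
  obtain ⟨hf, hfree⟩ := h.freeF
  generalize fV e r lg = f at *
  intro x hx hx'
  by_contra hxX
  have hz1 : z ≠ 1 := by
    rintro rfl
    exact hzB (Subgroup.one_mem _)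
  have hcB : c ∈ Bb β := (le_iSup β 0) hcC
  have hcz1 : c * z ≠ 1 := by
    intro h0
    apply hzB
    rw [eq_inv_of_mul_eq_one_right h0]
    exact Subgroup.inv_mem _ hcB
  have hzX : z ∈ Γ ⊔ F := (le_sup_left : Γ ≤ Γ ⊔ F) hz
  have hczX : c * z ∈ Γ ⊔ F := (le_sup_left : Γ ≤ Γ ⊔ F) (Γ.mul_mem hc hz)
  have key : ∀ {z : G}, z ∈ Γ ⊔ F → z ≠ 1 → x ∈ PV (Γ ⊔ F) (f * z * f) →
      ∃ n0 ∈ Γ ⊔ F, ∃ s : ℤ, (s = 1 ∨ s = -1) ∧ ∃ l, Rd (Γ ⊔ F) ⊥ (Subgroup.zpowers f) l ∧ l ≠ [] ∧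
        x = n0 * (f ^ s * z ^ s * wp l) := by
    intro z hzX hz1 hx
    obtain ⟨n0, hn0, l, hl, hpl⟩ := PV.form hx
    have hlne : l ≠ [] := by
      rintro rfl
      exact hxX (by rw [hpl]; simpa [wp] using hn0)
    obtain ⟨s, s', hs, hs', lm, m1, m2, m3, n1, hn1, m4⟩ := V6.shape_of_wp hf hzX hz1 l hl hlne
    refine ⟨n0, hn0, s, hs, lm ++ [(f ^ s', n1)], V6.rd_append m1 (fun p hp => by
      simpa using m3 p hp) ⟨⟨s', rfl⟩, ?_, hn1, fun h => absurd rfl h, trivial⟩, by simp, ?_⟩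
    · have : s' ≠ 0 := by rcases hs' with h | h <;> omega
      simpa using hf s' this
    · rw [hpl, m4, V6.wp_app]
      simp [wp, mul_assoc]
  obtain ⟨n, hn, s, hs, l, hl, hlne, e1⟩ := key hzX hz1 hx
  obtain ⟨m, hm, t, ht, l', hl', hlne', e2⟩ := key hczX hcz1 hx'
  have hzs : z ^ (-s) ≠ 1 := by rcases hs with h | h <;> simp [h, hz1]
  have hczt : (c * z) ^ t ≠ 1 := by
    rcases ht with h | h
    · simpa [h] using hcz1
    · rw [h, zpow_neg_one]; exact inv_ne_one.2 hcz1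
  have hs0 : s ≠ 0 := by rcases hs with h | h <;> omega
  have ht0 : t ≠ 0 := by rcases ht with h | h <;> omega
  have e3 : n * (f ^ s * z ^ s * wp l) = m * (f ^ t * (c * z) ^ t * wp l') := e1.symm.trans e2
  -- the final contradiction
  have fin : ∀ y ∈ Γ ⊔ F, y ≠ 1 → ∀ l₂, Rd (Γ ⊔ F) ⊥ (Subgroup.zpowers f) l₂ → l₂ ≠ [] →
      (wp l)⁻¹ * y * wp l₂ ≠ 1 := by
    intro y hy hy1 l₂ hl₂ hne h0
    obtain ⟨k, hk, l1, a1, a2, a3⟩ := V13.inv_form l hl y hy hy1
    refine hfree k hk (l1 ++ l₂) (V6.rd_append a1 (fun p hp => by simpa using a2 p hp) hl₂)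
      (by simp [hne]) ?_
    rw [V6.wp_app, ← mul_assoc, ← a3, h0]
    exact Subgroup.one_mem _
  have e4 : (wp l)⁻¹ * z ^ (-s) * (f ^ (-s) * (n⁻¹ * m) * (f ^ t * (c * z) ^ t * wp l')) = 1 := by
    have : f ^ t * (c * z) ^ t * wp l' = m⁻¹ * (n * (f ^ s * z ^ s * wp l)) := by
      rw [e3]; simp
    rw [this]
    simp [mul_assoc]
  by_cases hnm : n⁻¹ * m = 1
  · by_cases hst : s = t
    · refine fin (z ^ (-s) * (c * z) ^ t) (Subgroup.mul_mem _ (Subgroup.zpow_mem _ hzX _)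
        (Subgroup.zpow_mem _ hczX _)) ?_ l' hl' hlne' ?_
      · rw [← hst]
        rcases hs with h1 | h1
        · rw [h1]
          intro h0
          apply hc1
          have : z⁻¹ * (c * z) = 1 := by simpa using h0
          rw [← mul_assoc] at this
          have h2 := congrArg (fun y => z * y * z⁻¹) this
          simpa [mul_assoc] using h2
        · rw [h1]
          intro h0
          apply hc1
          simpa using h0
      · rw [← e4, hnm, hst]
        simp [mul_assoc]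
    · refine fin (z ^ (-s)) (Subgroup.zpow_mem _ hzX _) hzs ((f ^ (t - s), (c * z) ^ t) :: l')
        ⟨⟨t - s, rfl⟩, by simpa using hf (t - s) (by omega), Subgroup.zpow_mem _ hczX _,
          fun _ => by simpa using hczt, hl'⟩ (by simp) ?_
      rw [← e4, hnm]
      have : f ^ (t - s) = f ^ (-s) * f ^ t := by rw [← zpow_add]; congr 1; ring
      simp [wp, this, mul_assoc]
  · refine fin (z ^ (-s)) (Subgroup.zpow_mem _ hzX _) hzs
      ((f ^ (-s), n⁻¹ * m) :: (f ^ t, (c * z) ^ t) :: l')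
      ⟨⟨-s, rfl⟩, by simpa using hf (-s) (by omega),
        Subgroup.mul_mem _ (Subgroup.inv_mem _ hn) hm, fun _ => by simpa using hnm, ⟨t, rfl⟩,
        by simpa using hf t ht0, Subgroup.zpow_mem _ hczX _, fun _ => by simpa using hczt, hl'⟩
      (by simp) ?_
    rw [← e4]
    simp [wp, mul_assoc]

end vc

end Pool.Agent.Helper98.AAD
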