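import Pool.Agent.Helper98.AAD.DefsV

/-!
Module V1p (project AAD): isomorphisms of free products `X * ℤ` inside a group.
-/

set_option autoImplicit false

namespace Pool.Agent.Helper98.AAD

section freeiso

variable {G : Type} [Group G]

namespace V1p

/-- the product of a list in the free product -/
noncomputable def W {X : Subgroup G} : List (ℤ × X) → Monoid.Coprod X (Multiplicative ℤ)
  | [] => 1
  | p :: l => Monoid.Coprod.inr (Multiplicative.ofAdd p.1) * Monoid.Coprod.inl p.2 * W l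

/-- reduced lists -/
def RdK {X : Subgroup G} : List (ℤ × X) → Prop
  | [] => True
  | p :: l => p.1 ≠ 0 ∧ (l ≠ [] → p.2 ≠ 1) ∧ RdK l

theorem exists_form {X : Subgroup G} (w : Monoid.Coprod X (Multiplicative ℤ)) :
    ∃ (n : X) (l : List (ℤ × X)), RdK l ∧ w = Monoid.Coprod.inl n * W l := by
  induction w using Monoid.Coprod.induction_on' with
  | one => exact ⟨1, [], trivial, by simp [W]⟩
  | inl_mul m x ih =>
    obtain ⟨n, l, hl, rfl⟩ := ih
    exact ⟨m * n, l, hl, by rw [map_mul, mul_assoc]⟩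
  | inr_mul k x ih =>
    obtain ⟨n, l, hl, rfl⟩ := ih
    obtain ⟨z, hzk⟩ : ∃ z : ℤ, Multiplicative.ofAdd z = k := ⟨Multiplicative.toAdd k, rfl⟩
    subst hzk
    by_cases hz : z = 0
    · subst hz
      exact ⟨n, l, hl, by simp⟩
    by_cases hn : n = 1
    · subst hn
      cases l with
      | nil => exact ⟨1, [(z, 1)], ⟨hz, fun h => absurd rfl h, trivial⟩, by simp [W]⟩
      | cons p l =>
        obtain ⟨h1, h2, h3⟩ := hl
        by_cases hs : z + p.1 = 0
        · refine ⟨p.2, l, h3, ?_⟩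
          have : Monoid.Coprod.inr (M := X) (Multiplicative.ofAdd z) *
              Monoid.Coprod.inr (Multiplicative.ofAdd p.1) = 1 := by
            rw [← map_mul, ← ofAdd_add, hs]
            simp
          calc Monoid.Coprod.inr (Multiplicative.ofAdd z) * (Monoid.Coprod.inl 1 * W (p :: l))
              = (Monoid.Coprod.inr (Multiplicative.ofAdd z) *
                Monoid.Coprod.inr (Multiplicative.ofAdd p.1)) * (Monoid.Coprod.inl p.2 * W l) := by
                simp only [W, map_one, one_mul, mul_assoc]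
            _ = Monoid.Coprod.inl p.2 * W l := by rw [this, one_mul]
        · refine ⟨1, (z + p.1, p.2) :: l, ⟨hs, h2, h3⟩, ?_⟩
          simp only [W, map_one, one_mul, mul_assoc, ofAdd_add, map_mul]
    · refine ⟨1, (z, n) :: l, ⟨hz, fun _ => hn, hl⟩, ?_⟩
      simp only [W, map_one, one_mul, mul_assoc]

/-- the canonical map -/
noncomputable def Ps (X : Subgroup G) (x : G) : Monoid.Coprod X (Multiplicative ℤ) →* G :=
  Monoid.Coprod.lift X.subtype (zpowersHom G x)

theorem Ps_inl (X : Subgroup G) (x : G) (n : X) : Ps X x (Monoid.Coprod.inl n) = n := by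
  simp [Ps]

theorem Ps_inr (X : Subgroup G) (x : G) (k : ℤ) :
    Ps X x (Monoid.Coprod.inr (Multiplicative.ofAdd k)) = x ^ k := by
  simp [Ps]

theorem Ps_W {X : Subgroup G} {x : G} (l : List (ℤ × X)) :
    Ps X x (W l) = wp (l.map fun p => (x ^ p.1, (p.2 : G))) := by
  induction l with
  | nil => simp [W, wp]
  | cons p l ih => simp only [W, List.map_cons, wp, map_mul, ih, Ps_inl, Ps_inr]

theorem Rd_of {X : Subgroup G} {x : G} (hx : ∀ k : ℤ, k ≠ 0 → x ^ k ≠ 1) (l : List (ℤ × X))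
    (hl : RdK l) : Rd X ⊥ (Subgroup.zpowers x) (l.map fun p => (x ^ p.1, (p.2 : G))) := by
  induction l with
  | nil => trivial
  | cons p l ih =>
    obtain ⟨h1, h2, h3⟩ := hl
    refine ⟨⟨p.1, rfl⟩, ?_, p.2.2, ?_, ih h3⟩
    · rw [Subgroup.mem_bot]
      exact hx _ h1
    · intro h
      have h' : l ≠ [] := by
        rintro rfl
        exact h rfl
      rw [Subgroup.mem_bot]
      intro h4
      exact h2 h' (Subtype.ext h4)

theorem Ps_injective {X : Subgroup G} {x : G} (hx : ∀ k : ℤ, k ≠ 0 → x ^ k ≠ 1)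
    (hx' : ∀ n ∈ X, ∀ l, Rd X ⊥ (Subgroup.zpowers x) l → l ≠ [] → n * wp l ∉ X) :
    Function.Injective (Ps X x) := by
  rw [injective_iff_map_eq_one]
  intro w hw
  obtain ⟨n, l, hl, rfl⟩ := exists_form w
  rw [map_mul, Ps_inl, Ps_W] at hw
  by_cases hl0 : l = []
  · subst hl0
    simp only [List.map_nil, wp, mul_one] at hw
    have : n = 1 := Subtype.ext hw
    subst this
    simp [W]
  · exfalso
    refine hx' n n.2 _ (Rd_of hx l hl) ?_ ?_
    · simpa using hl0
    · rw [hw]
      exact one_mem X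

theorem Ps_range (X : Subgroup G) (x : G) : (Ps X x).range = PV X x := by
  rw [Ps, Monoid.Coprod.range_lift, PV]
  congr 1
  exact X.range_subtype

end V1p

open V1p

/-- V1' : isomorphisms of free products inside a group -/
theorem free_iso {X : Subgroup G} {x y : G} (hx : ∀ k : ℤ, k ≠ 0 → x ^ k ≠ 1)
    (hx' : ∀ n ∈ X, ∀ l, Rd X ⊥ (Subgroup.zpowers x) l → l ≠ [] → n * wp l ∉ X)
    (hy : ∀ k : ℤ, k ≠ 0 → y ^ k ≠ 1)
    (hy' : ∀ n ∈ X, ∀ l, Rd X ⊥ (Subgroup.zpowers y) l → l ≠ [] → n * wp l ∉ X) :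
    ∃ φ : PV X x ≃* PV X y, (∀ (n : G) (hn : n ∈ PV X x), n ∈ X → (φ ⟨n, hn⟩ : G) = n) ∧
      ∀ hx : x ∈ PV X x, (φ ⟨x, hx⟩ : G) = y := by
  have ix := Ps_injective hx hx'
  have iy := Ps_injective hy hy'
  let ex : Monoid.Coprod X (Multiplicative ℤ) ≃* (Ps X x).range := MonoidHom.ofInjective ix
  let ey : Monoid.Coprod X (Multiplicative ℤ) ≃* (Ps X y).range := MonoidHom.ofInjective iy
  let fx : (Ps X x).range ≃* PV X x := MulEquiv.subgroupCongr (Ps_range X x)
  let fy : (Ps X y).range ≃* PV X y := MulEquiv.subgroupCongr (Ps_range X y)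
  let φ : PV X x ≃* PV X y := ((fx.symm.trans ex.symm).trans ey).trans fy
  have key : ∀ (w : Monoid.Coprod X (Multiplicative ℤ)) (h : Ps X x w ∈ PV X x),
      (φ ⟨Ps X x w, h⟩ : G) = Ps X y w := by
    intro w h
    have h1 : fx.symm ⟨Ps X x w, h⟩ = ex w := by
      rw [MulEquiv.symm_apply_eq]
      rfl
    change ((fy (ey (ex.symm (fx.symm ⟨Ps X x w, h⟩)))) : G) = Ps X y w
    rw [h1, MulEquiv.symm_apply_apply]
    rfl
  refine ⟨φ, ?_, ?_⟩
  · intro n hn hnX
    have := key (Monoid.Coprod.inl ⟨n, hnX⟩) (by rw [Ps_inl]; exact hn)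
    simp only [Ps_inl] at this
    exact this
  · intro hxm
    have h0 : Ps X x (Monoid.Coprod.inr (Multiplicative.ofAdd 1)) = x := by
      rw [Ps_inr, zpow_one]
    have := key (Monoid.Coprod.inr (Multiplicative.ofAdd 1)) (by rw [h0]; exact hxm)
    simp only [Ps_inr, zpow_one] at this
    exact this

end freeiso

end Pool.Agent.Helper98.AAD
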