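import Pool.Agent.Helper98.AAD.DefsV
import Pool.Agent.Helper98.AAD.R1
import Pool.Agent.Helper98.AAD.R2
import Pool.Agent.Helper98.AAD.R3

/-!
# When a word in `f` lies in `B`
-/

set_option autoImplicit false

namespace Pool.Agent.Helper98.AAD

section vc

variable {G : Type} [Group G] {q : Multiplicative ℚ →* G} {β : ℕ → Subgroup G}
  {Γ E F M : Subgroup G} {e r : G} {lg : List (G × G)}

private theorem h7v4_split {H K : Subgroup G} (hc : ∀ k ∈ K, ∀ h ∈ H, k * h = h * k) {x : G}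
    (hx : x ∈ H ⊔ K) : ∃ h ∈ H, ∃ k ∈ K, x = h * k := by
  let S : Subgroup G :=
    { carrier := {x | ∃ h ∈ H, ∃ k ∈ K, x = h * k}
      one_mem' := ⟨1, H.one_mem, 1, K.one_mem, (mul_one 1).symm⟩
      mul_mem' := by
        rintro _ _ ⟨a, ha, b, hb, rfl⟩ ⟨a', ha', b', hb', rfl⟩
        refine ⟨a * a', H.mul_mem ha ha', b * b', K.mul_mem hb hb', ?_⟩
        calc a * b * (a' * b') = a * (b * a') * b' := by group
          _ = a * (a' * b) * b' := by rw [hc b hb a' ha']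
          _ = a * a' * (b * b') := by group
      inv_mem' := by
        rintro _ ⟨a, ha, b, hb, rfl⟩
        refine ⟨a⁻¹, H.inv_mem ha, b⁻¹, K.inv_mem hb, ?_⟩
        rw [mul_inv_rev]
        exact hc b⁻¹ (K.inv_mem hb) a⁻¹ (H.inv_mem ha) }
  have hS : H ⊔ K ≤ S := by
    refine sup_le ?_ ?_
    · intro a ha
      exact ⟨a, ha, 1, K.one_mem, (mul_one a).symm⟩
    · intro b hb
      exact ⟨1, H.one_mem, b, hb, (one_mul b).symm⟩
  exact hS hx

private theorem h7v4_mem_Bb (hm : Monotone β) {x : G} (hx : x ∈ Bb β) : ∃ j, x ∈ β j :=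
  (Subgroup.mem_iSup_of_directed hm.directed_le).1 hx

private theorem h7v4_wp_mem {H : Subgroup G} {l : List (G × G)}
    (hl : ∀ p ∈ l, p.1 ∈ H ∧ p.2 ∈ H) : wp l ∈ H := by
  induction l with
  | nil => exact H.one_mem
  | cons p l ih =>
    simp only [wp]
    have h1 := hl p (by simp)
    exact H.mul_mem (H.mul_mem h1.1 h1.2) (ih fun p hp => hl p (by simp [hp]))

private theorem h7v4_gM (h : VC q β Γ E F M e r lg) : gV r lg ∈ M :=
  M.mul_mem h.rM (h7v4_wp_mem h.lgM)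

private theorem h7v4_FB (h : VC q β Γ E F M e r lg) : F ≤ Bb β :=
  h.st.EC.trans (le_iSup β 0)

private theorem h7v4_NF {x : G} (h : VC q β Γ E F M e r lg) (hx : x ∈ Γ ⊔ F) :
    ∃ ν ∈ Γ, ∃ t ∈ F, x = ν * t :=
  h7v4_split (fun k hk a ha => h.st.comm k hk a ha) hx

private theorem h7v4_NleM (h : VC q β Γ E F M e r lg) : Γ ⊔ E ≤ M := h.ra.le

private theorem h7v4_NleNF (h : VC q β Γ E F M e r lg) : Γ ⊔ E ≤ Γ ⊔ F :=
  sup_le_sup_left h.EF Γ

/-- `F` commutes with `Γ ⊔ F` -/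
private theorem h7v4_commF (h : VC q β Γ E F M e r lg) {t x : G} (ht : t ∈ F)
    (hx : x ∈ Γ ⊔ F) : t * x = x * t := by
  obtain ⟨ν, hν, s, hs, rfl⟩ := h7v4_NF h hx
  calc t * (ν * s) = (t * ν) * s := by group
    _ = (ν * t) * s := by rw [h.st.comm t ht ν hν]
    _ = ν * (t * s) := by group
    _ = ν * (s * t) := by rw [h.st.ab t ht s hs]
    _ = ν * s * t := by group

/-- the nice element, multiplied by elements of `Γ ⊔ F`, does not lie in `B` -/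
private theorem h7v4_nice (h : VC q β Γ E F M e r lg) {m m' : G} (hm : m ∈ Γ ⊔ F)
    (hm' : m' ∈ Γ ⊔ F) : m * gV r lg * m' ∉ Bb β := by
  intro hB
  obtain ⟨ν, hν, t, ht, rfl⟩ := h7v4_NF h hm
  obtain ⟨ν', hν', t', ht', rfl⟩ := h7v4_NF h hm'
  have h1 : ν * gV r lg * ν' ∈ Bb β := by
    have h2 : ν * gV r lg * ν' = t⁻¹ * (ν * t * gV r lg * (ν' * t')) * t'⁻¹ := by
      have h3 : t⁻¹ * (ν * t) = ν := by
        rw [← h.st.comm t ht ν hν]
        group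
      calc ν * gV r lg * ν' = t⁻¹ * (ν * t) * gV r lg * ν' := by rw [h3]
        _ = t⁻¹ * (ν * t * gV r lg * (ν' * t')) * t'⁻¹ := by group
    rw [h2]
    exact (Bb β).mul_mem ((Bb β).mul_mem ((Bb β).inv_mem (h7v4_FB h ht)) hB)
      ((Bb β).inv_mem (h7v4_FB h ht'))
  have h2 := h.nice.2 ν hν ν' hν'
  have h3 : ql q β (ν * (r * wp lg) * ν') = 0 := (RA.rlen_eq_zero h.st.qs.ra).2 h1
  have h4 := h.nice.1
  omega

private theorem h7v4_gNF (h : VC q β Γ E F M e r lg) : gV r lg ∉ Γ ⊔ F := by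
  intro hg
  refine h7v4_nice h ((Γ ⊔ F).inv_mem hg) (Γ ⊔ F).one_mem ?_
  rw [inv_mul_cancel, one_mul]
  exact (Bb β).one_mem

/-- inner entries are not in `N` -/
private theorem h7v4_mal (h : VC q β Γ E F M e r lg) {n : G} (hn : n ∈ Γ ⊔ F) (hn1 : n ≠ 1) :
    (gV r lg)⁻¹ * n * gV r lg ∉ Γ ⊔ E := fun h1 =>
  h7v4_gNF h (h.st.mal n hn hn1 _ (h7v4_NleNF h h1))

/-- the letters: powers of `f` are conjugates of elements of `F`, outside `N` -/
private theorem h7v4_letter (h : VC q β Γ E F M e r lg) {p : G}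
    (hp : p ∈ Subgroup.zpowers (fV e r lg)) (hp1 : p ≠ 1) :
    ∃ t ∈ F, t ∉ Γ ⊔ E ∧ (gV r lg)⁻¹ * p = t * (gV r lg)⁻¹ := by
  obtain ⟨k, rfl⟩ := Subgroup.mem_zpowers_iff.1 hp
  have hk : k ≠ 0 := fun hk => hp1 (by rw [hk, zpow_zero])
  refine ⟨e ^ k, F.zpow_mem h.eF k, h.epow k hk, ?_⟩
  simp only [fV]
  rw [conj_zpow]
  group

/-- reduced forms of words in `f` -/
private theorem h7v4_exists (h : VC q β Γ E F M e r lg) {b : G} (hb : b ∈ M) :
    ∀ l : List (G × G), Rd (Γ ⊔ F) ⊥ (Subgroup.zpowers (fV e r lg)) l → l ≠ [] →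
      ∃ L, Rd M (Γ ⊔ E) F L ∧ L ≠ [] ∧ (gV r lg)⁻¹ * wp l * b = wp L := by
  intro l
  induction l with
  | nil => exact fun _ hne => absurd rfl hne
  | cons p l ih =>
    rintro ⟨h1, h2, h3, h4, h5⟩ -
    have hgM := h7v4_gM h
    obtain ⟨s, hsF, hsN, hs⟩ := h7v4_letter h h1 (fun h6 => h2 (by rw [h6]; exact Subgroup.one_mem _))
    by_cases hpN : p.2 ∈ Γ ⊔ E
    · have hpM : p.2 ∈ M := h7v4_NleM h hpN
      by_cases hl : l = []
      · subst hl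
        refine ⟨[(s, (gV r lg)⁻¹ * p.2 * b)], ⟨hsF, hsN, ?_, fun hh => absurd rfl hh, trivial⟩,
          by simp, ?_⟩
        · exact M.mul_mem (M.mul_mem (M.inv_mem hgM) hpM) hb
        · simp only [wp, mul_one]
          calc (gV r lg)⁻¹ * (p.1 * p.2) * b = ((gV r lg)⁻¹ * p.1) * p.2 * b := by group
            _ = s * ((gV r lg)⁻¹ * p.2 * b) := by rw [hs]; group
      · obtain ⟨L, hL1, hL2, hL3⟩ := ih h5 hl
        refine ⟨(s, (gV r lg)⁻¹ * p.2 * gV r lg) :: L, ⟨hsF, hsN, ?_, fun _ => ?_, hL1⟩,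
          by simp, ?_⟩
        · exact M.mul_mem (M.mul_mem (M.inv_mem hgM) hpM) hgM
        · exact h7v4_mal h h3 fun h6 => h4 hl (by rw [h6]; exact Subgroup.one_mem _)
        · simp only [wp]
          rw [← hL3]
          calc (gV r lg)⁻¹ * (p.1 * p.2 * wp l) * b = ((gV r lg)⁻¹ * p.1) * p.2 * wp l * b := by
                group
            _ = s * ((gV r lg)⁻¹ * p.2 * gV r lg) * ((gV r lg)⁻¹ * wp l * b) := by
                rw [hs]; group
    · obtain ⟨ν, hν, t, ht, hpt⟩ := h7v4_NF h h3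
      have hνN : ν ∈ Γ ⊔ E := Subgroup.mem_sup_left hν
      have htN : t ∉ Γ ⊔ E := fun h6 => hpN (by rw [hpt]; exact (Γ ⊔ E).mul_mem hνN h6)
      have hgν : (gV r lg)⁻¹ * ν ∉ Γ ⊔ E := by
        intro h6
        apply h7v4_gNF h
        have h7 : gV r lg = ν * ((gV r lg)⁻¹ * ν)⁻¹ := by group
        rw [h7]
        exact (Γ ⊔ F).mul_mem (h7v4_NleNF h hνN) ((Γ ⊔ F).inv_mem (h7v4_NleNF h h6))
      have hgνM : (gV r lg)⁻¹ * ν ∈ M := M.mul_mem (M.inv_mem hgM) (h7v4_NleM h hνN)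
      by_cases hl : l = []
      · subst hl
        refine ⟨[(s, (gV r lg)⁻¹ * ν), (t, b)], ⟨hsF, hsN, hgνM, fun _ => hgν, ht, htN, hb,
          fun hh => absurd rfl hh, trivial⟩, by simp, ?_⟩
        simp only [wp, mul_one]
        calc (gV r lg)⁻¹ * (p.1 * p.2) * b = ((gV r lg)⁻¹ * p.1) * p.2 * b := by group
          _ = s * ((gV r lg)⁻¹ * ν) * (t * b) := by rw [hs, hpt]; group
      · obtain ⟨L, hL1, hL2, hL3⟩ := ih h5 hl
        refine ⟨(s, (gV r lg)⁻¹ * ν) :: (t, gV r lg) :: L, ⟨hsF, hsN, hgνM, fun _ => hgν, ht,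
          htN, hgM, fun _ h6 => h7v4_gNF h (h7v4_NleNF h h6), hL1⟩, by simp, ?_⟩
        simp only [wp]
        rw [← hL3]
        calc (gV r lg)⁻¹ * (p.1 * p.2 * wp l) * b = ((gV r lg)⁻¹ * p.1) * p.2 * wp l * b := by
              group
          _ = s * ((gV r lg)⁻¹ * ν) * (t * gV r lg * ((gV r lg)⁻¹ * wp l * b)) := by
              rw [hs, hpt]; group

private theorem h7v4_sim {Y : Subgroup G} {y : G} {l l' : List (G × G)} (hs : Sim Y y l l') :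
    (l ≠ [] → y ∈ Y) ∧ (l = [] → y = 1) := by
  cases hs with
  | nil => exact ⟨fun h => absurd rfl h, fun _ => rfl⟩
  | cons h1 h2 h3 => exact ⟨fun _ => h1, fun h => by simp at h⟩

/-- comparison of the first letters -/
private theorem h7v4_cmp (h : VC q β Γ E F M e r lg) {t x y : G} {L L' : List (G × G)}
    (hL : Rd M (Γ ⊔ E) F ((t, x) :: L)) (hL' : Rd M (Γ ⊔ E) F L') (hB : ∀ p ∈ L', p.2 ∈ Bb β)
    (hy : y ∈ M) (e1 : wp ((t, x) :: L) = y * wp L') :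
    y ∈ Γ ⊔ E ∧ ∃ s ∈ Γ ⊔ E, ∃ x' ∈ Bb β, ∃ L'', Rd M (Γ ⊔ E) F L'' ∧
      (∀ p ∈ L'', p.2 ∈ Bb β) ∧ x' ∈ M ∧ wp L = x⁻¹ * s * x' * wp L'' ∧
      (L ≠ [] → x⁻¹ * s * x' ∈ Γ ⊔ E) ∧ (L = [] → x⁻¹ * s * x' = 1) := by
  have hsim := RA.sim h.ra hy hL hL' e1
  cases hsim with
  | cons h1 h2 h3 =>
    rename_i t' x' l'
    exact ⟨h1, t⁻¹ * y * t', h2, x', hB (t', x') (by simp), l', hL'.2.2.2.2,
      fun p hp => hB p (by simp [hp]), hL'.2.2.1, h3.wp_eq, (h7v4_sim h3).1, (h7v4_sim h3).2⟩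

/-- the inner entries -/
private theorem h7v4_main (h : VC q β Γ E F M e r lg) {b : G} (hb : b ∈ M) :
    ∀ l : List (G × G), Rd (Γ ⊔ F) ⊥ (Subgroup.zpowers (fV e r lg)) l → ∀ hne : l ≠ [],
      ∀ y ∈ M, ∀ L', Rd M (Γ ⊔ E) F L' → (∀ p ∈ L', p.2 ∈ Bb β) →
        (gV r lg)⁻¹ * wp l * b = y * wp L' →
      (∀ p ∈ l, p.2 ∈ Γ ⊔ E) ∧
      (∀ p ∈ l.dropLast, ∃ m ∈ Γ ⊔ E, ∃ m' ∈ Γ ⊔ E,
        m * (gV r lg)⁻¹ * p.2 * gV r lg * m' ∈ Bb β) ∧
      ∃ m ∈ Γ ⊔ E, m * (gV r lg)⁻¹ * (l.getLast hne).2 * b ∈ Bb β := by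
  intro l
  induction l with
  | nil => exact fun _ hne => absurd rfl hne
  | cons p l ih =>
    rintro ⟨h1, h2, h3, h4, h5⟩ hne0 y hy L' hL' hLB e1
    have hgM := h7v4_gM h
    obtain ⟨s, hsF, hsN, hs⟩ := h7v4_letter h h1 (fun h6 => h2 (by rw [h6]; exact Subgroup.one_mem _))
    by_cases hpN : p.2 ∈ Γ ⊔ E
    · have hpM : p.2 ∈ M := h7v4_NleM h hpN
      by_cases hl : l = []
      · subst hl
        have hRd : Rd M (Γ ⊔ E) F [(s, (gV r lg)⁻¹ * p.2 * b)] :=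
          ⟨hsF, hsN, M.mul_mem (M.mul_mem (M.inv_mem hgM) hpM) hb, fun hh => absurd rfl hh,
            trivial⟩
        have e2 : wp [(s, (gV r lg)⁻¹ * p.2 * b)] = y * wp L' := by
          rw [← e1]
          simp only [wp, mul_one]
          calc s * ((gV r lg)⁻¹ * p.2 * b) = (s * (gV r lg)⁻¹) * p.2 * b := by group
            _ = (gV r lg)⁻¹ * (p.1 * p.2) * b := by rw [← hs]; group
        obtain ⟨-, s', hs', x', hx', L'', -, -, -, -, -, h6⟩ := h7v4_cmp h hRd hL' hLB hy e2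
        have h7 := h6 rfl
        refine ⟨?_, ?_, s'⁻¹, (Γ ⊔ E).inv_mem hs', ?_⟩
        · intro p' hp'
          rw [List.mem_singleton] at hp'
          rw [hp']
          exact hpN
        · intro p' hp'
          simp at hp'
        · have h8 : s'⁻¹ * (gV r lg)⁻¹ * p.2 * b = x' := by
            have h9 : (gV r lg)⁻¹ * p.2 * b = s' * x' := by
              have h10 : ((gV r lg)⁻¹ * p.2 * b)⁻¹ * s' * x' = 1 := h7
              rw [mul_assoc, inv_mul_eq_one] at h10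
              exact h10
            calc s'⁻¹ * (gV r lg)⁻¹ * p.2 * b = s'⁻¹ * ((gV r lg)⁻¹ * p.2 * b) := by group
              _ = x' := by rw [h9]; group
          simp only [List.getLast_singleton]
          rw [h8]
          exact hx'
      · obtain ⟨L, hL1, hL2, hL3⟩ := h7v4_exists h hb l h5 hl
        have hRd : Rd M (Γ ⊔ E) F ((s, (gV r lg)⁻¹ * p.2 * gV r lg) :: L) :=
          ⟨hsF, hsN, M.mul_mem (M.mul_mem (M.inv_mem hgM) hpM) hgM, fun _ =>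
            h7v4_mal h h3 fun h6 => h4 hl (by rw [h6]; exact Subgroup.one_mem _), hL1⟩
        have e2 : wp ((s, (gV r lg)⁻¹ * p.2 * gV r lg) :: L) = y * wp L' := by
          rw [← e1]
          simp only [wp]
          rw [← hL3]
          calc s * ((gV r lg)⁻¹ * p.2 * gV r lg) * ((gV r lg)⁻¹ * wp l * b) =
              (s * (gV r lg)⁻¹) * p.2 * wp l * b := by group
            _ = (gV r lg)⁻¹ * (p.1 * p.2 * wp l) * b := by rw [← hs]; group
        obtain ⟨-, s', hs', x', hx', L'', hL''1, hL''2, hx'M, h6, h7, -⟩ :=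
          h7v4_cmp h hRd hL' hLB hy e2
        have h7' := h7 hL2
        have h8 := ih h5 hl _ (h7v4_NleM h h7') L'' hL''1 hL''2 (by rw [hL3]; exact h6)
        refine ⟨?_, ?_, ?_⟩
        · intro p' hp'
          rcases List.mem_cons.1 hp' with rfl | hp'
          · exact hpN
          · exact h8.1 p' hp'
        · intro p' hp'
          rw [List.dropLast_cons_of_ne_nil hl] at hp'
          rcases List.mem_cons.1 hp' with rfl | hp'
          · refine ⟨s'⁻¹, (Γ ⊔ E).inv_mem hs', _, h7', ?_⟩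
            have h9 : s'⁻¹ * (gV r lg)⁻¹ * p'.2 * gV r lg *
                (((gV r lg)⁻¹ * p'.2 * gV r lg)⁻¹ * s' * x') = x' := by group
            rw [h9]
            exact hx'
          · exact h8.2.1 p' hp'
        · rw [List.getLast_cons hl]
          exact h8.2.2
    · exfalso
      obtain ⟨ν, hν, t, ht, hpt⟩ := h7v4_NF h h3
      have hνN : ν ∈ Γ ⊔ E := Subgroup.mem_sup_left hν
      have htN : t ∉ Γ ⊔ E := fun h6 => hpN (by rw [hpt]; exact (Γ ⊔ E).mul_mem hνN h6)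
      have hgν : (gV r lg)⁻¹ * ν ∉ Γ ⊔ E := by
        intro h6
        apply h7v4_gNF h
        have h7 : gV r lg = ν * ((gV r lg)⁻¹ * ν)⁻¹ := by group
        rw [h7]
        exact (Γ ⊔ F).mul_mem (h7v4_NleNF h hνN) ((Γ ⊔ F).inv_mem (h7v4_NleNF h h6))
      have hgνM : (gV r lg)⁻¹ * ν ∈ M := M.mul_mem (M.inv_mem hgM) (h7v4_NleM h hνN)
      -- both cases give a reduced form whose first entry `g⁻¹ ν` is inner
      obtain ⟨L, hRd, hLne, e2⟩ : ∃ L, Rd M (Γ ⊔ E) F ((s, (gV r lg)⁻¹ * ν) :: L) ∧ L ≠ [] ∧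
          wp ((s, (gV r lg)⁻¹ * ν) :: L) = y * wp L' := by
        by_cases hl : l = []
        · subst hl
          refine ⟨[(t, b)], ⟨hsF, hsN, hgνM, fun _ => hgν, ht, htN, hb,
            fun hh => absurd rfl hh, trivial⟩, by simp, ?_⟩
          rw [← e1]
          simp only [wp, mul_one]
          calc s * ((gV r lg)⁻¹ * ν) * (t * b) = (s * (gV r lg)⁻¹) * (ν * t) * b := by group
            _ = (gV r lg)⁻¹ * (p.1 * p.2) * b := by rw [← hs, ← hpt]; group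
        · obtain ⟨L, hL1, hL2, hL3⟩ := h7v4_exists h hb l h5 hl
          refine ⟨(t, gV r lg) :: L, ⟨hsF, hsN, hgνM, fun _ => hgν, ht,
            htN, hgM, fun _ h6 => h7v4_gNF h (h7v4_NleNF h h6), hL1⟩, by simp, ?_⟩
          rw [← e1]
          simp only [wp]
          rw [← hL3]
          calc s * ((gV r lg)⁻¹ * ν) * (t * gV r lg * ((gV r lg)⁻¹ * wp l * b)) =
              (s * (gV r lg)⁻¹) * (ν * t) * wp l * b := by group
            _ = (gV r lg)⁻¹ * (p.1 * p.2 * wp l) * b := by rw [← hs, ← hpt]; group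
      obtain ⟨-, s', hs', x', hx', L'', -, -, -, -, h7, -⟩ := h7v4_cmp h hRd hL' hLB hy e2
      have h7' := h7 hLne
      have h8 : (((gV r lg)⁻¹ * ν)⁻¹ * s' * x')⁻¹ * ν⁻¹ * gV r lg * s' ∈ Bb β := by
        have h9 : (((gV r lg)⁻¹ * ν)⁻¹ * s' * x')⁻¹ * ν⁻¹ * gV r lg * s' = x'⁻¹ := by group
        rw [h9]
        exact (Bb β).inv_mem hx'
      exact h7v4_nice h ((Γ ⊔ F).mul_mem ((Γ ⊔ F).inv_mem (h7v4_NleNF h h7'))
        ((Γ ⊔ F).inv_mem (Subgroup.mem_sup_left hν))) (h7v4_NleNF h hs') h8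

/-- V4 : when a word in `f` lies in `B` -/
theorem VC.wd (h : VC q β Γ E F M e r lg) {a b : G} (ha : a ∈ M) (hb : b ∈ M) {n : G}
    (hn : n ∈ Γ ⊔ F) {l : List (G × G)} (hl : Rd (Γ ⊔ F) ⊥ (Subgroup.zpowers (fV e r lg)) l)
    (hne : l ≠ []) (hB : a⁻¹ * (n * wp l) * b ∈ Bb β) :
    (n ∈ Γ ⊔ E ∧ ∃ m ∈ Γ ⊔ E, ql q β (a⁻¹ * n * gV r lg * m) = 0) ∧
    (∀ p ∈ l, p.2 ∈ Γ ⊔ E) ∧
    (∀ p ∈ l.dropLast, ∃ m ∈ Γ ⊔ E, ∃ m' ∈ Γ ⊔ E,
      ql q β (m * (gV r lg)⁻¹ * p.2 * gV r lg * m') = 0) ∧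
    ∃ m ∈ Γ ⊔ E, ql q β (m * (gV r lg)⁻¹ * (l.getLast hne).2 * b) = 0 := by
  have hql : ∀ x : G, ql q β x = 0 ↔ x ∈ Bb β := fun x => RA.rlen_eq_zero h.st.qs.ra
  simp only [hql]
  have hgM := h7v4_gM h
  -- the form with entries in `B`
  have hz : a⁻¹ * (n * wp l) * b ∈ (Bb β ⊓ M) ⊔ F := by
    obtain ⟨j, hj⟩ := h7v4_mem_Bb h.st.qs.mono hB
    exact (sup_le_sup_right (inf_le_inf_right M (le_iSup β j)) F) (h.βM j hj)
  obtain ⟨y0, hy0, L', hL', hL'B, e0⟩ := RA.formZ h.ra (Z := Bb β ⊓ M) inf_le_right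
    (fun t ht htM => ⟨h7v4_FB h ht, htM⟩)
    (fun t ht y hy => h7v4_commF h ht (h7v4_NleNF h hy)) hz
  have hLB : ∀ p ∈ L', p.2 ∈ Bb β := fun p hp => (hL'B p hp).1
  obtain ⟨L, hL1, hL2, hL3⟩ := h7v4_exists h hb l hl hne
  by_cases hnN : n ∈ Γ ⊔ E
  · have hx0 : a⁻¹ * n * gV r lg ∈ M :=
      M.mul_mem (M.mul_mem (M.inv_mem ha) (h7v4_NleM h hnN)) hgM
    have e1 : (gV r lg)⁻¹ * wp l * b = ((a⁻¹ * n * gV r lg)⁻¹ * y0) * wp L' := by
      rw [mul_assoc _ y0, ← e0]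
      group
    have hy : (a⁻¹ * n * gV r lg)⁻¹ * y0 ∈ M := M.mul_mem (M.inv_mem hx0) hy0.2
    have h1 := h7v4_main h hb l hl hne _ hy L' hL' hLB e1
    refine ⟨⟨hnN, (a⁻¹ * n * gV r lg)⁻¹ * y0, ?_, ?_⟩, h1⟩
    · rw [hL3] at e1
      cases L with
      | nil => exact absurd rfl hL2
      | cons p L => exact (h7v4_cmp h hL1 hL' hLB hy e1).1
    · rw [mul_inv_cancel_left]
      exact hy0.1
  · exfalso
    obtain ⟨ν, hν, t, ht, hpt⟩ := h7v4_NF h hn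
    have hνN : ν ∈ Γ ⊔ E := Subgroup.mem_sup_left hν
    have htN : t ∉ Γ ⊔ E := fun h6 => hnN (by rw [hpt]; exact (Γ ⊔ E).mul_mem hνN h6)
    have hRd : Rd M (Γ ⊔ E) F ((t, gV r lg) :: L) :=
      ⟨ht, htN, hgM, fun _ h6 => h7v4_gNF h (h7v4_NleNF h h6), hL1⟩
    have e1 : wp ((t, gV r lg) :: L) = ((a⁻¹ * ν)⁻¹ * y0) * wp L' := by
      rw [mul_assoc _ y0, ← e0]
      simp only [wp]
      rw [← hL3, hpt]
      group
    have hy : (a⁻¹ * ν)⁻¹ * y0 ∈ M :=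
      M.mul_mem (M.inv_mem (M.mul_mem (M.inv_mem ha) (h7v4_NleM h hνN))) hy0.2
    obtain ⟨-, s', hs', x', hx', L'', -, -, -, -, h7, -⟩ := h7v4_cmp h hRd hL' hLB hy e1
    have h7' := h7 hL2
    refine h7v4_nice h (m := s'⁻¹) (m' := (gV r lg)⁻¹ * s' * x')
      ((Γ ⊔ F).inv_mem (h7v4_NleNF h hs')) (h7v4_NleNF h h7') ?_
    have h9 : s'⁻¹ * gV r lg * ((gV r lg)⁻¹ * s' * x') = x' := by group
    rw [h9]
    exact hx'

end vc

end Pool.Agent.Helper98.AAD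

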