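import Pool.Agent.Helper98.AAD.R3
import Pool.Agent.Helper98.AAD.R4
import Pool.Agent.Helper98.AAD.Q1
import Pool.Agent.Helper98.AAD.Q2
import Pool.Agent.Helper98.AAD.V4

/-!
AAD, module V5: words in `f` which lie in `B`, with lengths.
-/

set_option autoImplicit false

namespace Pool.Agent.Helper98.AAD

variable {G : Type} [Group G] {q : Multiplicative ℚ →* G} {β : ℕ → Subgroup G}
  {Γ E F M : Subgroup G} {e r : G} {lg : List (G × G)}

theorem v5_sup_form {Γ E : Subgroup G} (hc : ∀ e ∈ E, ∀ g ∈ Γ, e * g = g * e) {x : G}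
    (hx : x ∈ Γ ⊔ E) : ∃ γ ∈ Γ, ∃ e ∈ E, x = γ * e := by
  let S : Subgroup G :=
    { carrier := {x | ∃ γ ∈ Γ, ∃ e ∈ E, x = γ * e}
      mul_mem' := by
        rintro a b ⟨y, hy, t, ht, rfl⟩ ⟨y', hy', t', ht', rfl⟩
        refine ⟨y * y', Γ.mul_mem hy hy', t * t', E.mul_mem ht ht', ?_⟩
        have := hc t ht y' hy'
        calc y * t * (y' * t') = y * (t * y') * t' := by group
          _ = y * y' * (t * t') := by rw [this]; group
      one_mem' := ⟨1, Γ.one_mem, 1, E.one_mem, by group⟩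
      inv_mem' := by
        rintro a ⟨y, hy, t, ht, rfl⟩
        refine ⟨y⁻¹, Γ.inv_mem hy, t⁻¹, E.inv_mem ht, ?_⟩
        rw [← hc t⁻¹ (E.inv_mem ht) y⁻¹ (Γ.inv_mem hy)]
        group }
  have hS : Γ ⊔ E ≤ S := by
    apply sup_le
    · intro y hy
      exact ⟨y, hy, 1, E.one_mem, by group⟩
    · intro t ht
      exact ⟨1, Γ.one_mem, t, ht, by group⟩
  exact hS hx

section words

variable {X Y L : Subgroup G}

theorem Rd.v5_snd {l : List (G × G)} (hl : Rd X Y L l) : ∀ p ∈ l, p.2 ∈ X := by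
  induction l with
  | nil =>
    intro p hp
    simp at hp
  | cons a l ih =>
    intro p hp
    obtain ⟨_, _, h3, _, h5⟩ := hl
    rcases List.mem_cons.mp hp with rfl | hp
    · exact h3
    · exact ih h5 p hp

/-- replacing the last pair of a reduced list -/
theorem Rd.v5_replace {l : List (G × G)} {p p' : G × G} (hl : Rd X Y L (l ++ [p]))
    (h1 : p'.1 ∈ L) (h2 : p'.1 ∉ Y) (h3 : p'.2 ∈ X) : Rd X Y L (l ++ [p']) := by
  induction l with
  | nil => exact ⟨h1, h2, h3, fun h => absurd rfl h, trivial⟩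
  | cons a l ih =>
    obtain ⟨a1, a2, a3, a4, a5⟩ := hl
    exact ⟨a1, a2, a3, fun _ => a4 (by simp), ih a5⟩

theorem Rd.v5_init {l : List (G × G)} {p : G × G} (hl : Rd X Y L (l ++ [p])) : Rd X Y L l := by
  induction l with
  | nil => trivial
  | cons a l ih =>
    obtain ⟨a1, a2, a3, a4, a5⟩ := hl
    exact ⟨a1, a2, a3, fun _ => a4 (by simp), ih a5⟩

end words

/-- multiplying a reduced word by a letter on the right -/
theorem QS.v5_mul_q (hq : QS q β) {l : List (G × G)} (hl : Rq q β l) (t : Multiplicative ℚ) :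
    ∃ c ∈ β 0, ∃ l', Rq q β l' ∧ wp l * q t = c * wp l' := by
  by_cases ht : t = 1
  · subst ht
    exact ⟨1, (β 0).one_mem, l, hl, by rw [map_one]; group⟩
  have hqt : q t ∈ q.range := ⟨t, rfl⟩
  have hqt0 : q t ∉ β 0 := fun h => ht (hq.disj t h)
  have hone : Rq q β [(q t, 1)] :=
    ⟨hqt, hqt0, (Bb β).one_mem, fun h => absurd rfl h, trivial⟩
  rcases List.eq_nil_or_concat' l with rfl | ⟨l1, p, rfl⟩
  · exact ⟨1, (β 0).one_mem, [(q t, 1)], hone, by simp [wp]⟩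
  · obtain ⟨s, x⟩ := p
    have hne : l1 ++ [(s, x)] ≠ [] := by simp
    have hwp : wp (l1 ++ [(s, x)]) = wp l1 * (s * x) := by
      rw [wp_append]
      simp [wp]
    have hsx : s ∈ q.range ∧ s ∉ β 0 ∧ x ∈ Bb β := by
      clear hne hwp
      induction l1 with
      | nil => exact ⟨hl.1, hl.2.1, hl.2.2.1⟩
      | cons a l1 ih => exact ih hl.2.2.2.2
    by_cases hx : x ∈ β 0
    · obtain ⟨⟨s', hs'⟩, hs0, hxB⟩ := hsx
      set y := (q t)⁻¹ * x * q t with hy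
      have hyC : y ∈ β 0 := by
        have := hq.ra.norm (q t)⁻¹ (inv_mem hqt) x hx
        rwa [inv_inv] at this
      have hyB : y ∈ Bb β := hq.ra.le hyC
      by_cases hst : s * q t ∈ β 0
      · have hcC : s * q t * y ∈ β 0 := (β 0).mul_mem hst hyC
        have e1 : wp (l1 ++ [(s, x)]) * q t = wp l1 * (s * q t * y) := by
          rw [hwp, hy]
          group
        by_cases hl1 : l1 = []
        · subst hl1
          exact ⟨s * q t * y, hcC, [], trivial, by rw [e1]; simp [wp]⟩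
        · obtain ⟨h3, h4⟩ := Rd.snoc hq.ra.le (Rd.v5_init hl) hl1 (hq.ra.le hcC)
          exact ⟨1, (β 0).one_mem, _, h3, by rw [e1, h4, one_mul]⟩
      · refine ⟨1, (β 0).one_mem, l1 ++ [(s * q t, y)], Rd.v5_replace hl ?_ hst hyB, ?_⟩
        · exact mul_mem ⟨s', hs'⟩ hqt
        · rw [hwp, wp_append]
          simp only [wp, hy]
          group
    · obtain ⟨h3, h4⟩ := Rd.cat hq.ra.le hl hone hne (x := 1) (Bb β).one_mem (by
        intro _
        rw [mul_one]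
        have : (l1 ++ [(s, x)]).getLast hne = (s, x) := List.getLast_append_singleton _
        rw [this]
        exact hx)
      refine ⟨1, (β 0).one_mem, _, h3, ?_⟩
      rw [one_mul, ← h4]
      simp [wp]

/-- beginnings of the nice element are left nice or in `Γ` -/
theorem VC.v5_pre (h : VC q β Γ E F M e r lg) {a : G} (ha : a ∈ Γ ∨ a ∈ PreG q r lg) :
    a ∈ Γ ∨ LN q β Γ a := by
  rcases ha with ha | ⟨t, rfl⟩ | ⟨i, t, rfl⟩
  · exact Or.inl ha
  · exact Or.inl (h.st.QΓ ⟨t, rfl⟩)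
  · right
    have hr := (Nice.last h.st.qs h.st.QΓ h.rB h.lgR h.lgne h.nice).1
    obtain ⟨c, hc, l', hl', e'⟩ := QS.v5_mul_q h.st.qs (Rd.take h.lgR i) t
    have e1 : r * wp (lg.take i) * q t = (r * c) * wp l' := by
      rw [mul_assoc, e', mul_assoc]
    rw [e1]
    apply LN.of_first h.st.qs h.st.QΓ h.st.gen ((Bb β).mul_mem h.rB (h.st.qs.ra.le hc)) hl'
    intro b hb c' hc' h0
    apply hr b hb (c' * c⁻¹) ((β 0).mul_mem hc' ((β 0).inv_mem hc))
    calc r = (r * c) * c⁻¹ := by group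
      _ = b * (c' * c⁻¹) := by rw [h0]; group

theorem VC.v5_mem (h : VC q β Γ E F M e r lg) {a : G} (ha : a ∈ Γ ∨ a ∈ PreG q r lg) : a ∈ M := by
  have hΓM : Γ ≤ M := le_sup_left.trans h.ra.le
  rcases ha with ha | ⟨t, rfl⟩ | ⟨i, t, rfl⟩
  · exact hΓM ha
  · exact hΓM (h.st.QΓ ⟨t, rfl⟩)
  · refine M.mul_mem (M.mul_mem h.rM ?_) (hΓM (h.st.QΓ ⟨t, rfl⟩))
    have key : ∀ l : List (G × G), (∀ p ∈ l, p.1 ∈ M ∧ p.2 ∈ M) → wp l ∈ M := by
      intro l
      induction l with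
      | nil => intro _; exact M.one_mem
      | cons p l ih =>
        intro hp
        have h1 := hp p List.mem_cons_self
        exact M.mul_mem (M.mul_mem h1.1 h1.2) (ih fun p' hp' => hp p' (List.mem_cons_of_mem _ hp'))
    exact key _ fun p hp => h.lgM p (List.mem_of_mem_take hp)

section lens

variable (h : VC q β Γ E F M e r lg)
include h

theorem VC.v5_EB {e' : G} (he : e' ∈ E) : e' ∈ Bb β := h.st.qs.ra.le (h.st.EC (h.EF he))

theorem VC.v5_right {e' : G} (he : e' ∈ E) (x : G) : ql q β (x * e') = ql q β x :=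
  h.st.qs.ra.rlen_mul_right (h.v5_EB he) x

theorem VC.v5_left {e' : G} (he : e' ∈ E) (x : G) : ql q β (e' * x) = ql q β x :=
  h.st.qs.ra.rlen_mul_left (h.v5_EB he) x

theorem VC.v5_comm {e' g : G} (he : e' ∈ E) (hg : g ∈ Γ) : e' * g = g * e' :=
  h.st.comm e' (h.EF he) g hg

theorem VC.v5_form {x : G} (hx : x ∈ Γ ⊔ E) : ∃ γ ∈ Γ, ∃ e' ∈ E, x = γ * e' :=
  v5_sup_form (fun _ he _ hg => h.v5_comm he hg) hx

/-- `e' g γ` is left nice -/
theorem VC.v5_ln {e' γ : G} (he : e' ∈ E) (hγ : γ ∈ Γ) : LN q β Γ (e' * gV r lg * γ) := by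
  have hn : Nice q β Γ (gV r lg) := h.nice
  intro a ha
  have e1 : a * (e' * gV r lg * γ) = e' * (a * gV r lg * γ) := by
    have := h.v5_comm he ha
    calc a * (e' * gV r lg * γ) = (a * e') * gV r lg * γ := by group
      _ = (e' * a) * gV r lg * γ := by rw [this]
      _ = _ := by group
  have e2 : e' * gV r lg * γ = e' * (1 * gV r lg * γ) := by group
  have h1 : ql q β (1 : G) = 0 := (h.st.qs.ra.rlen_eq_zero).mpr (Bb β).one_mem
  rw [e1, e2, h.v5_left he, h.v5_left he, hn.2 a ha γ hγ, hn.2 1 Γ.one_mem γ hγ, h1]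
  omega

theorem VC.v5_ge {e' γ : G} (he : e' ∈ E) (hγ : γ ∈ Γ) : 1 ≤ ql q β (e' * gV r lg * γ) := by
  have hn : Nice q β Γ (gV r lg) := h.nice
  have e2 : e' * gV r lg * γ = e' * (1 * gV r lg * γ) := by group
  rw [e2, h.v5_left he, hn.2 1 Γ.one_mem γ hγ]
  have := hn.1
  omega

/-- the outer entries -/
theorem VC.v5_outer {a n m : G} (ha : a ∈ Γ ∨ a ∈ PreG q r lg) (hn : n ∈ Γ ⊔ E)
    (hm : m ∈ Γ ⊔ E) (h0 : ql q β (a⁻¹ * n * gV r lg * m) = 0) : a ∉ Γ ∧ ql q β n = 0 := by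
  obtain ⟨ν, hν, e1, he1, rfl⟩ := h.v5_form hn
  obtain ⟨μ, hμ, e2, he2, rfl⟩ := h.v5_form hm
  have hE1 : a⁻¹ * (ν * e1) * gV r lg * (μ * e2) = a⁻¹ * ν * (e1 * gV r lg * μ) * e2 := by group
  rw [hE1, h.v5_right he2] at h0
  have hge := h.v5_ge he1 hμ
  have haΓ : a ∉ Γ := by
    intro haΓ
    rw [h.v5_ln he1 hμ (a⁻¹ * ν) (Γ.mul_mem (Γ.inv_mem haΓ) hν)] at h0
    omega
  refine ⟨haΓ, ?_⟩
  have hLN : LN q β Γ a := by
    rcases h.v5_pre ha with h1 | h1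
    · exact absurd h1 haΓ
    · exact h1
  rw [h.v5_right he1]
  by_contra hne
  have h1 : 1 ≤ ql q β ν := Nat.one_le_iff_ne_zero.mpr hne
  have := LN.add h.st.qs h.st.QΓ h.st.gen hLN (h.v5_ln he1 hμ) hν h1
  rw [this] at h0
  omega

/-- the inner entries -/
theorem VC.v5_inner {n m m' : G} (hn : n ∈ Γ ⊔ E) (hm : m ∈ Γ ⊔ E) (hm' : m' ∈ Γ ⊔ E)
    (h0 : ql q β (m * (gV r lg)⁻¹ * n * gV r lg * m') = 0) : ql q β n = 0 := by
  obtain ⟨ν, hν, e1, he1, rfl⟩ := h.v5_form hn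
  obtain ⟨μ, hμ, e2, he2, rfl⟩ := h.v5_form hm
  obtain ⟨μ', hμ', e3, he3, rfl⟩ := h.v5_form hm'
  have hc := h.v5_comm he2 hμ
  have hE1 : μ * e2 * (gV r lg)⁻¹ * (ν * e1) * gV r lg * (μ' * e3) =
      e2 * ((1 * gV r lg * μ⁻¹)⁻¹ * ν * (e1 * gV r lg * μ')) * e3 := by
    rw [← hc]
    group
  rw [hE1, h.v5_right he3, h.v5_left he2] at h0
  rw [h.v5_right he1]
  by_contra hne
  have h1 : 1 ≤ ql q β ν := Nat.one_le_iff_ne_zero.mpr hne
  have := LN.add h.st.qs h.st.QΓ h.st.gen (h.v5_ln E.one_mem (Γ.inv_mem hμ)) (h.v5_ln he1 hμ') hν h1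
  rw [this] at h0
  omega

end lens

/-- V5 : the same with lengths -/
theorem VC.wd' (h : VC q β Γ E F M e r lg) {a b : G} (ha : a ∈ Γ ∨ a ∈ PreG q r lg)
    (hb : b ∈ Γ ∨ b ∈ PreG q r lg) {n : G}
    (hn : n ∈ Γ ⊔ F) {l : List (G × G)} (hl : Rd (Γ ⊔ F) ⊥ (Subgroup.zpowers (fV e r lg)) l)
    (hne : l ≠ []) (hB : a⁻¹ * (n * wp l) * b ∈ Bb β) :
    a ∉ Γ ∧ b ∉ Γ ∧ ql q β n = 0 ∧ ∀ p ∈ l, ql q β p.2 = 0 := by
  obtain ⟨⟨hn1, m, hm, h0⟩, hp1, hp2, m2, hm2, h2⟩ :=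
    h.wd (h.v5_mem ha) (h.v5_mem hb) hn hl hne hB
  obtain ⟨haΓ, hn0⟩ := h.v5_outer ha hn1 hm h0
  have hlast : (l.getLast hne).2 ∈ Γ ⊔ E := hp1 _ (List.getLast_mem hne)
  have h3 : ql q β (b⁻¹ * (l.getLast hne).2⁻¹ * gV r lg * m2⁻¹) = 0 := by
    have e3 : b⁻¹ * (l.getLast hne).2⁻¹ * gV r lg * m2⁻¹ =
        (m2 * (gV r lg)⁻¹ * (l.getLast hne).2 * b)⁻¹ := by group
    rw [e3]
    show rlen _ _ _ _ = 0
    rw [h.st.qs.ra.rlen_inv]
    exact h2
  obtain ⟨hbΓ, hl0⟩ := h.v5_outer hb (inv_mem hlast) (inv_mem hm2) h3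
  refine ⟨haΓ, hbΓ, hn0, ?_⟩
  intro p hp
  rw [← List.dropLast_append_getLast hne] at hp
  rcases List.mem_append.mp hp with hp | hp
  · obtain ⟨m3, hm3, m4, hm4, h4⟩ := hp2 p hp
    exact h.v5_inner (hp1 p (List.mem_of_mem_dropLast hp)) hm3 hm4 h4
  · rw [List.mem_singleton] at hp
    rw [hp]
    have e5 : ql q β ((l.getLast hne).2⁻¹) = ql q β (l.getLast hne).2 :=
      h.st.qs.ra.rlen_inv _
    rw [← e5]
    exact hl0

end Pool.Agent.Helper98.AAD
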