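import Pool.Agent.Helper98.AAD.DefsV
import Pool.Agent.Helper98.AAD.R2
import Pool.Agent.Helper98.AAD.Q2
import Pool.Agent.Helper98.AAD.V5
import Pool.Agent.Helper98.AAD.V6

/-!
Layer 3, V7: the family of the main step satisfies `w`.
-/

set_option autoImplicit false

namespace Pool.Agent.Helper98.AAD

section v7

variable {G : Type} [Group G] {X Y L : Subgroup G}

theorem v7_take {l : List (G × G)} (hl : Rd X Y L l) (i : ℕ) : Rd X Y L (l.take i) := by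
  induction l generalizing i with
  | nil => simp [Rd]
  | cons p l ih =>
    cases i with
    | zero => simp [Rd]
    | succ i =>
      obtain ⟨h1, h2, h3, h4, h5⟩ := hl
      rw [List.take_succ_cons]
      refine ⟨h1, h2, h3, fun h6 => h4 ?_, ih h5 i⟩
      rintro rfl
      exact h6 (by simp)

/-- multiplying a reduced word by a letter -/
theorem v7_mul_letter (h : RA X Y L) {t : G} (ht : t ∈ L) : ∀ {l : List (G × G)}, Rd X Y L l →
    ∃ (l' : List (G × G)) (y : G), Rd X Y L l' ∧ y ∈ Y ∧ wp l * t = wp l' * y := by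
  intro l
  induction l with
  | nil =>
    intro _
    by_cases hY : t ∈ Y
    · exact ⟨[], t, trivial, hY, rfl⟩
    · exact ⟨[(t, 1)], 1, ⟨ht, hY, X.one_mem, fun h1 => absurd rfl h1, trivial⟩, Y.one_mem, by
        simp [wp]⟩
  | cons p l1 ih =>
    intro hl
    obtain ⟨s, b⟩ := p
    obtain ⟨h1, h2, h3, h4, h5⟩ := hl
    by_cases hl1 : l1 = []
    · subst hl1
      by_cases hY : t ∈ Y
      · exact ⟨[(s, b)], t, ⟨h1, h2, h3, h4, h5⟩, hY, rfl⟩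
      by_cases hb : b ∈ Y
      · have hc : t⁻¹ * b * t ∈ Y := by
          have := h.norm t⁻¹ (L.inv_mem ht) b hb
          simpa using this
        by_cases hst : s * t ∈ Y
        · refine ⟨[], s * t * (t⁻¹ * b * t), trivial, Y.mul_mem hst hc, ?_⟩
          simp only [wp]
          group
        · refine ⟨[(s * t, 1)], t⁻¹ * b * t,
            ⟨L.mul_mem h1 ht, hst, X.one_mem, fun h1 => absurd rfl h1, trivial⟩, hc, ?_⟩
          simp only [wp]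
          group
      · refine ⟨[(s, b), (t, 1)], 1, ⟨h1, h2, h3, fun _ => hb, ht, hY, X.one_mem,
          fun h1 => absurd rfl h1, trivial⟩, Y.one_mem, ?_⟩
        simp only [wp]
        group
    · obtain ⟨l', y, h6, h7, h8⟩ := ih h5
      refine ⟨(s, b) :: l', y, ⟨h1, h2, h3, fun _ => h4 hl1, h6⟩, h7, ?_⟩
      simp only [wp]
      rw [mul_assoc (s * b) (wp l1) t, h8]
      group

/-- joining two reduced words -/
theorem v7_cat {x : G} (hx : x ∈ X) {l' : List (G × G)} (hl' : Rd X Y L l') :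
    ∀ {l : List (G × G)}, Rd X Y L l → l ≠ [] → (∀ p ∈ l, p.2 * x ∉ Y) →
    ∃ l1 : List (G × G), l1 ≠ [] ∧ Rd X Y L l1 ∧ wp l * (x * wp l') = wp l1 := by
  intro l
  induction l with
  | nil => intro _ h1; exact absurd rfl h1
  | cons p l ih =>
    intro hl _ hj
    obtain ⟨s, b⟩ := p
    obtain ⟨h1, h2, h3, h4, h5⟩ := hl
    by_cases hl1 : l = []
    · subst hl1
      refine ⟨(s, b * x) :: l', by simp, ⟨h1, h2, X.mul_mem h3 hx,
        fun _ => hj (s, b) (by simp), hl'⟩, ?_⟩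
      simp only [wp]
      group
    · obtain ⟨l1, h6, h7, h8⟩ := ih h5 hl1 (fun p hp => hj p (by simp [hp]))
      refine ⟨(s, b) :: l1, by simp, ⟨h1, h2, h3, fun _ => h4 hl1, h7⟩, ?_⟩
      simp only [wp]
      rw [← h8]
      group

end v7

section qs

variable {G : Type} [Group G] {q : Multiplicative ℚ →* G} {β : ℕ → Subgroup G}

theorem v7_le (hq : QS q β) (j : ℕ) : β 0 ≤ β j := hq.mono (Nat.zero_le j)

theorem v7_leB (j : ℕ) : β j ≤ Bb β := le_iSup β j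

/-- elements of `C` or with a nonempty reduced form with first entry `1` -/
def V7 (q : Multiplicative ℚ →* G) (β : ℕ → Subgroup G) (v : G) : Prop :=
  v ∈ β 0 ∨ ∃ (l : List (G × G)) (y : G), l ≠ [] ∧ Rq q β l ∧ y ∈ Bb β ∧ v = wp l * y

theorem v7_preZ (hq : QS q β) {lz : List (G × G)} (hlz : Rq q β lz) {v : G}
    (hv : v ∈ PreZ q lz) : V7 q β v := by
  obtain ⟨i, t, rfl⟩ := hv
  obtain ⟨l', y, h1, h2, h3⟩ := v7_mul_letter hq.ra (t := q t) ⟨t, rfl⟩ (v7_take hlz i)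
  rw [h3]
  by_cases h4 : l' = []
  · subst h4
    left
    simpa [wp] using h2
  · right
    exact ⟨l', y, h4, h1, v7_leB 0 h2, rfl⟩

theorem v7_preG (hq : QS q β) {Γ : Subgroup G} {r : G} {lg lz : List (G × G)} (hrB : r ∈ Bb β)
    (hlg : Rq q β lg) (hr : ∀ b ∈ Γ ⊓ Bb β, ∀ c ∈ β 0, r ≠ b * c)
    (hlz : Rq q β lz) (hne : lz ≠ []) (hlzΓ : ∀ p ∈ lz, p.1 ∈ Γ ∧ p.2 ∈ Γ)
    (hlzB : ∀ p ∈ lz, p.2 ∈ Bb β) {ρ : G}
    (hρ : ρ ∈ PreG q r lg) : V7 q β (wp lz * ρ) := by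
  rcases hρ with ⟨t, rfl⟩ | ⟨i, t, rfl⟩
  · refine v7_preZ hq hlz ⟨lz.length, t, ?_⟩
    rw [List.take_length]
  · obtain ⟨l', y, h1, h2, h3⟩ := v7_mul_letter hq.ra (t := q t) ⟨t, rfl⟩ (v7_take hlg i)
    obtain ⟨l1, h4, h5, h6⟩ := v7_cat hrB h1 hlz hne (fun p hp h7 => by
      refine hr p.2⁻¹ ⟨Γ.inv_mem (hlzΓ p hp).2, (Bb β).inv_mem (hlzB p hp)⟩ _ h7 ?_
      group)
    right
    refine ⟨l1, y, h4, h5, v7_leB 0 h2, ?_⟩
    rw [← h6, mul_assoc r, h3]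
    group

/-- the comparison of `ρ⁻¹ v` and `ρ⁻¹ c v` -/
theorem v7_mix (hq : QS q β) {r : G} {lg : List (G × G)} (hrB : r ∈ Bb β) (hlg : Rq q β lg)
    (hr : r ∉ β 0) {ρ v c : G} (hρ : ρ ∈ PreG q r lg) (hv : V7 q β v) (hc : c ∈ β 0) (j : ℕ) :
    ρ⁻¹ * v ∈ β j ↔ ρ⁻¹ * (c * v) ∈ β j := by
  rcases hρ with ⟨t, rfl⟩ | ⟨i, t, rfl⟩
  · have h1 : (q t)⁻¹ * c * q t ∈ β j := by
      have := hq.ra.norm (q t)⁻¹ (q.range.inv_mem ⟨t, rfl⟩) c hc
      exact v7_le hq j (by simpa using this)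
    have h2 : (q t)⁻¹ * (c * v) = (q t)⁻¹ * c * q t * ((q t)⁻¹ * v) := by group
    rw [h2]
    exact ((β j).mul_mem_cancel_left h1).symm
  · rcases hv with hv | ⟨l1, y, h4, h5, h6, rfl⟩
    · rw [(β j).mul_mem_cancel_right (v7_le hq j hv),
        (β j).mul_mem_cancel_right (v7_le hq j ((β 0).mul_mem hc hv))]
    · obtain ⟨l', y', h1, h2, h3⟩ := v7_mul_letter hq.ra (t := q t) ⟨t, rfl⟩ (v7_take hlg i)
      have key : ∀ c' ∈ β 0, (r * wp (lg.take i) * q t)⁻¹ * (c' * (wp l1 * y)) ∉ Bb β := by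
        intro c' hc' hcon
        have h7 := hq.ra.cancel_notMem l' (r⁻¹ * c') l1 h1 h5
          ((Bb β).mul_mem ((Bb β).inv_mem hrB) (v7_leB 0 hc'))
          (fun _ _ h8 => hr (by
            have h9 := (β 0).mul_mem hc' ((β 0).inv_mem h8)
            simpa using h9)) (Or.inr h4)
        apply h7
        rw [mul_assoc r, h3] at hcon
        have h8 : (r * (wp l' * y'))⁻¹ * (c' * (wp l1 * y)) =
            y'⁻¹ * ((wp l')⁻¹ * (r⁻¹ * c') * wp l1) * y := by group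
        rw [h8, (Bb β).mul_mem_cancel_right h6,
          (Bb β).mul_mem_cancel_left ((Bb β).inv_mem (v7_leB 0 h2))] at hcon
        exact hcon
      constructor
      · intro h7
        have h8 := key 1 (β 0).one_mem
        rw [one_mul] at h8
        exact absurd (v7_leB j h7) h8
      · intro h7
        exact absurd (v7_leB j h7) (key c hc)

end qs

section vc

variable {G : Type} [Group G] {q : Multiplicative ℚ →* G} {β : ℕ → Subgroup G}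
  {Γ E F M : Subgroup G} {e r : G} {lg : List (G × G)}

theorem v7_mem {X Y L : Subgroup G} : ∀ {l : List (G × G)}, Rd X Y L l → ∀ p ∈ l, p.2 ∈ X := by
  intro l
  induction l with
  | nil => intro _ p hp; simp at hp
  | cons a l ih =>
    intro hl p hp
    rcases List.mem_cons.1 hp with rfl | hp
    · exact hl.2.2.1
    · exact ih hl.2.2.2.2 p hp

theorem v7_wp_mem {Γ : Subgroup G} : ∀ {l : List (G × G)}, (∀ p ∈ l, p.1 ∈ Γ ∧ p.2 ∈ Γ) →
    wp l ∈ Γ := by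
  intro l
  induction l with
  | nil => intro _; exact Γ.one_mem
  | cons a l ih =>
    intro hl
    have h1 := hl a (by simp)
    exact Γ.mul_mem (Γ.mul_mem h1.1 h1.2) (ih fun p hp => hl p (by simp [hp]))

theorem v7_preZ_mem {lz : List (G × G)} (hQ : q.range ≤ Γ)
    (hlz : ∀ p ∈ lz, p.1 ∈ Γ ∧ p.2 ∈ Γ) {v : G} (hv : v ∈ PreZ q lz) : v ∈ Γ := by
  obtain ⟨i, t, rfl⟩ := hv
  exact Γ.mul_mem (v7_wp_mem fun p hp => hlz p (List.mem_of_mem_take hp)) (hQ ⟨t, rfl⟩)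

theorem v7_f_ne (h : VC q β Γ E F M e r lg) : fV e r lg ≠ 1 := by
  intro h1
  have h2 : e = 1 := by
    have h3 : (gV r lg)⁻¹ * fV e r lg * gV r lg = e := by
      unfold fV
      group
    rw [h1] at h3
    rw [← h3]
    group
  refine h.epow 1 one_ne_zero ?_
  rw [h2, one_zpow]
  exact (Γ ⊔ E).one_mem

theorem v7_f_ne' (h : VC q β Γ E F M e r lg) : (fV e r lg)⁻¹ ≠ fV e r lg := by
  intro h1
  have h2 : e ^ (2 : ℤ) = 1 := by
    have h3 : (gV r lg)⁻¹ * (fV e r lg * fV e r lg) * gV r lg = e ^ (2 : ℤ) := by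
      rw [zpow_two]
      unfold fV
      group
    rw [← h3]
    have h4 : fV e r lg * fV e r lg = 1 := by
      have h5 : fV e r lg * (fV e r lg)⁻¹ = 1 := mul_inv_cancel _
      rwa [h1] at h5
    rw [h4]
    group
  refine h.epow 2 two_ne_zero ?_
  rw [h2]
  exact (Γ ⊔ E).one_mem

/-- words for `d⁻¹ p d'` with `p ∈ Γ ⊔ F` -/
theorem v7_word (h : VC q β Γ E F M e r lg) {p d d' : G} (hp : p ∈ Γ ⊔ F)
    (hd : d = 1 ∨ d = fV e r lg ∨ d = (fV e r lg)⁻¹)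
    (hd' : d' = 1 ∨ d' = fV e r lg ∨ d' = (fV e r lg)⁻¹)
    (h1 : ¬ (d = 1 ∧ d' = 1)) (h2 : ¬ (p = 1 ∧ d = d')) :
    ∃ n ∈ Γ ⊔ F, ∃ l, Rd (Γ ⊔ F) ⊥ (Subgroup.zpowers (fV e r lg)) l ∧ l ≠ [] ∧
      d⁻¹ * p * d' = n * wp l := by
  have hf := v7_f_ne h
  have hz : fV e r lg ∈ Subgroup.zpowers (fV e r lg) := Subgroup.mem_zpowers _
  have key : ∀ x, (x = 1 ∨ x = fV e r lg ∨ x = (fV e r lg)⁻¹) → x ∈ Subgroup.zpowers (fV e r lg) := by
    rintro x (rfl | rfl | rfl)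
    · exact Subgroup.one_mem _
    · exact hz
    · exact Subgroup.inv_mem _ hz
  have k1 := key d hd
  have k2 := key d' hd'
  by_cases hd1 : d = 1
  · have hd2 : d' ≠ 1 := fun h3 => h1 ⟨hd1, h3⟩
    refine ⟨p, hp, [(d', 1)], ⟨k2, by simpa using hd2, one_mem _, fun h3 => absurd rfl h3,
      trivial⟩, by simp, ?_⟩
    subst hd1
    simp only [wp]
    group
  · have k3 : d⁻¹ ∈ Subgroup.zpowers (fV e r lg) := Subgroup.inv_mem _ k1
    have k4 : d⁻¹ ∉ (⊥ : Subgroup G) := by simpa using hd1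
    by_cases hd2 : d' = 1
    · refine ⟨1, one_mem _, [(d⁻¹, p)], ⟨k3, k4, hp, fun h3 => absurd rfl h3, trivial⟩,
        by simp, ?_⟩
      subst hd2
      simp only [wp]
      group
    · by_cases hp1 : p = 1
      · have hdd : d ≠ d' := fun h3 => h2 ⟨hp1, h3⟩
        refine ⟨1, one_mem _, [(d⁻¹ * d', 1)], ⟨Subgroup.mul_mem _ k3 k2, ?_, one_mem _,
          fun h3 => absurd rfl h3, trivial⟩, by simp, ?_⟩
        · rw [Subgroup.mem_bot, inv_mul_eq_one]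
          exact hdd
        · subst hp1
          simp only [wp]
          group
      · refine ⟨1, one_mem _, [(d⁻¹, p), (d', 1)], ⟨k3, k4, hp, fun _ => by simpa using hp1,
          k2, by simpa using hd2, one_mem _, fun h3 => absurd rfl h3, trivial⟩, by simp, ?_⟩
        simp only [wp]
        group

/-- V7, core -/
theorem v7_core (h : VC q β Γ E F M e r lg) {lz : List (G × G)} (hlz : Rq q β lz) (hlzne : lz ≠ [])
    (hlzΓ : ∀ p ∈ lz, p.1 ∈ Γ ∧ p.2 ∈ Γ) {c : G} (hc : c ∈ Γ) (hcC : c ∈ β 0)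
    (φ : PV (Γ ⊔ F) (fV e r lg * wp lz * fV e r lg) ≃*
      PV (Γ ⊔ F) (fV e r lg * (c * wp lz) * fV e r lg))
    (hφ : ∀ (n : G) hn, n ∈ Γ ⊔ F → (φ ⟨n, hn⟩ : G) = n)
    (hφx : ∀ hx, (φ ⟨fV e r lg * wp lz * fV e r lg, hx⟩ : G) =
      fV e r lg * (c * wp lz) * fV e r lg)
    (j : ℕ) (p : PV (Γ ⊔ F) (fV e r lg * wp lz * fV e r lg)) {d₁ α₁ α₁' d₂ α₂ α₂' : G}
    (hd₁ : d₁ = 1 ∨ d₁ = fV e r lg ∨ d₁ = (fV e r lg)⁻¹)
    (hd₂ : d₂ = 1 ∨ d₂ = fV e r lg ∨ d₂ = (fV e r lg)⁻¹)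
    (h₁ : (α₁ ∈ PreG q r lg ∧ α₁' = α₁) ∨ (d₁ = fV e r lg ∧ α₁ ∈ PreZ q lz ∧ α₁' = c * α₁))
    (h₂ : (α₂ ∈ PreG q r lg ∧ α₂' = α₂) ∨ (d₂ = fV e r lg ∧ α₂ ∈ PreZ q lz ∧ α₂' = c * α₂)) :
    α₁⁻¹ * (d₁⁻¹ * p * d₂) * α₂ ∈ β j ↔ α₁'⁻¹ * (d₁⁻¹ * φ p * d₂) * α₂' ∈ β j := by
  have hq := h.st.qs
  have hf := v7_f_ne h
  have hf2 := v7_f_ne' h
  have hQ := h.st.QΓ
  have hr := (Nice.last hq hQ h.rB h.lgR h.lgne h.nice).1
  have hrC : r ∉ β 0 := fun h1 => hr 1 (one_mem _) r h1 (by simp)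
  have hlzB : ∀ p ∈ lz, p.2 ∈ Bb β := v7_mem hlz
  have hzΓ : wp lz ∈ Γ := v7_wp_mem hlzΓ
  have hzB : wp lz ∉ Bb β := by
    have := hq.ra.nf 1 (one_mem _) lz hlz hlzne
    rwa [one_mul] at this
  have hczB : c * wp lz ∉ Bb β := hq.ra.nf c (v7_leB 0 hcC) lz hlz hlzne
  -- the facts on `α`
  have g₁ : α₁ ∈ Γ ∨ α₁ ∈ PreG q r lg := by
    rcases h₁ with h1 | h1
    · exact Or.inr h1.1
    · exact Or.inl (v7_preZ_mem hQ hlzΓ h1.2.1)
  have g₂ : α₂ ∈ Γ ∨ α₂ ∈ PreG q r lg := by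
    rcases h₂ with h1 | h1
    · exact Or.inr h1.1
    · exact Or.inl (v7_preZ_mem hQ hlzΓ h1.2.1)
  have g₁' : α₁' ∈ Γ ∨ α₁' ∈ PreG q r lg := by
    rcases h₁ with h1 | h1
    · rw [h1.2]; exact Or.inr h1.1
    · rw [h1.2.2]; exact Or.inl (Γ.mul_mem hc (v7_preZ_mem hQ hlzΓ h1.2.1))
  have g₂' : α₂' ∈ Γ ∨ α₂' ∈ PreG q r lg := by
    rcases h₂ with h1 | h1
    · rw [h1.2]; exact Or.inr h1.1
    · rw [h1.2.2]; exact Or.inl (Γ.mul_mem hc (v7_preZ_mem hQ hlzΓ h1.2.1))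
  by_cases hpN : (p : G) ∈ Γ ⊔ F
  · -- case I
    have hφp : (φ p : G) = p := hφ p p.2 hpN
    rw [hφp]
    by_cases h11 : d₁ = 1 ∧ d₂ = 1
    · obtain ⟨rfl, rfl⟩ := h11
      have e₁ : α₁' = α₁ := by
        rcases h₁ with h1 | h1
        · exact h1.2
        · exact absurd h1.1.symm hf
      have e₂ : α₂' = α₂ := by
        rcases h₂ with h1 | h1
        · exact h1.2
        · exact absurd h1.1.symm hf
      rw [e₁, e₂]
    by_cases h12 : (p : G) = 1 ∧ d₁ = d₂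
    · obtain ⟨hp1, rfl⟩ := h12
      rw [hp1]
      have e1 : d₁⁻¹ * 1 * d₁ = 1 := by group
      rw [e1, mul_one, mul_one]
      rcases h₁ with h1 | h1
      · rcases h₂ with h2 | h2
        · rw [h1.2, h2.2]
        · rw [h1.2, h2.2.2]
          exact v7_mix hq h.rB h.lgR hrC h1.1 (v7_preZ hq hlz h2.2.1) hcC j
      · rcases h₂ with h2 | h2
        · rw [h1.2.2, h2.2]
          have := v7_mix hq h.rB h.lgR hrC h2.1 (v7_preZ hq hlz h1.2.1) hcC j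
          rw [← (β j).inv_mem_iff, ← (β j).inv_mem_iff (x := (c * α₁)⁻¹ * α₂)]
          simpa using this
        · rw [h1.2.2, h2.2.2]
          have e2 : (c * α₁)⁻¹ * (c * α₂) = α₁⁻¹ * α₂ := by group
          rw [e2]
    -- a word with letters
    obtain ⟨n, hn, l, hl, hne, hw⟩ := v7_word h hpN hd₁ hd₂ h11 h12
    rw [hw]
    by_cases hG : α₁' = α₁ ∧ α₂' = α₂
    · rw [hG.1, hG.2]
    have hG' : α₁ ∈ Γ ∧ α₁' ∈ Γ ∨ α₂ ∈ Γ ∧ α₂' ∈ Γ := by
      rcases h₁ with h1 | h1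
      · rcases h₂ with h2 | h2
        · exact absurd ⟨h1.2, h2.2⟩ hG
        · right
          have := v7_preZ_mem hQ hlzΓ h2.2.1
          exact ⟨this, by rw [h2.2.2]; exact Γ.mul_mem hc this⟩
      · left
        have := v7_preZ_mem hQ hlzΓ h1.2.1
        exact ⟨this, by rw [h1.2.2]; exact Γ.mul_mem hc this⟩
    constructor
    · intro hB
      have := h.wd' g₁ g₂ hn hl hne (v7_leB j hB)
      rcases hG' with h1 | h1
      · exact absurd h1.1 this.1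
      · exact absurd h1.1 this.2.1
    · intro hB
      have := h.wd' g₁' g₂' hn hl hne (v7_leB j hB)
      rcases hG' with h1 | h1
      · exact absurd h1.2 this.1
      · exact absurd h1.2 this.2.1
  · -- case II
    have hφN : (φ p : G) ∉ Γ ⊔ F := by
      intro h1
      apply hpN
      have h2 : (φ p : G) ∈ PV (Γ ⊔ F) (fV e r lg * wp lz * fV e r lg) :=
        (le_sup_left : Γ ⊔ F ≤ _) h1
      have h3 : φ ⟨(φ p : G), h2⟩ = φ p := Subtype.ext (hφ _ h2 h1)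
      have h4 := φ.injective h3
      have h5 : (φ p : G) = p := congrArg Subtype.val h4
      rw [← h5]
      exact h1
    have hx : fV e r lg * wp lz * fV e r lg ∈
        PV (Γ ⊔ F) (fV e r lg * wp lz * fV e r lg) :=
      (le_sup_right : Subgroup.zpowers _ ≤ _) (Subgroup.mem_zpowers _)
    have hx' : fV e r lg * (c * wp lz) * fV e r lg ∈
        PV (Γ ⊔ F) (fV e r lg * (c * wp lz) * fV e r lg) :=
      (le_sup_right : Subgroup.zpowers _ ≤ _) (Subgroup.mem_zpowers _)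
    have hφx' : φ ⟨_, hx⟩ = ⟨_, hx'⟩ := Subtype.ext (hφx hx)
    by_cases hEB : (p : G) = fV e r lg * wp lz * fV e r lg ∧ d₁ = fV e r lg ∧
        d₂ = (fV e r lg)⁻¹
    · -- exceptional case
      obtain ⟨hp1, rfl, rfl⟩ := hEB
      have hp2 : (φ p : G) = fV e r lg * (c * wp lz) * fV e r lg := by
        have h2 : p = ⟨_, hx⟩ := Subtype.ext hp1
        rw [h2, hφx']
      have e₂ : α₂ ∈ PreG q r lg ∧ α₂' = α₂ := by
        rcases h₂ with h1 | h1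
        · exact h1
        · exact absurd h1.1 hf2
      rw [hp1, hp2, e₂.2]
      have e3 : (fV e r lg)⁻¹ * (fV e r lg * wp lz * fV e r lg) * (fV e r lg)⁻¹ = wp lz := by
        group
      have e4 : (fV e r lg)⁻¹ * (fV e r lg * (c * wp lz) * fV e r lg) * (fV e r lg)⁻¹ =
          c * wp lz := by group
      rw [e3, e4]
      rcases h₁ with h1 | h1
      · rw [h1.2]
        have := v7_mix hq h.rB h.lgR hrC h1.1
          (v7_preG hq h.rB h.lgR hr hlz hlzne hlzΓ hlzB e₂.1) hcC j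
        simpa only [mul_assoc] using this
      · rw [h1.2.2]
        have e5 : (c * α₁)⁻¹ * (c * wp lz) * α₂ = α₁⁻¹ * wp lz * α₂ := by group
        rw [e5]
    by_cases hEC : (p : G) = (fV e r lg * wp lz * fV e r lg)⁻¹ ∧ d₁ = (fV e r lg)⁻¹ ∧
        d₂ = fV e r lg
    · obtain ⟨hp1, rfl, rfl⟩ := hEC
      have hp2 : (φ p : G) = (fV e r lg * (c * wp lz) * fV e r lg)⁻¹ := by
        have h2 : p = (⟨_, hx⟩ : PV (Γ ⊔ F) (fV e r lg * wp lz * fV e r lg))⁻¹ := Subtype.ext hp1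
        rw [h2, map_inv, hφx']
        rfl
      have e₁ : α₁ ∈ PreG q r lg ∧ α₁' = α₁ := by
        rcases h₁ with h1 | h1
        · exact h1
        · exact absurd h1.1 hf2
      rw [hp1, hp2, e₁.2]
      have e3 : (fV e r lg)⁻¹⁻¹ * (fV e r lg * wp lz * fV e r lg)⁻¹ * fV e r lg = (wp lz)⁻¹ := by
        group
      have e4 : (fV e r lg)⁻¹⁻¹ * (fV e r lg * (c * wp lz) * fV e r lg)⁻¹ * fV e r lg =
          (c * wp lz)⁻¹ := by group
      rw [e3, e4]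
      rcases h₂ with h1 | h1
      · rw [h1.2]
        have := v7_mix hq h.rB h.lgR hrC h1.1
          (v7_preG hq h.rB h.lgR hr hlz hlzne hlzΓ hlzB e₁.1) hcC j
        rw [← (β j).inv_mem_iff, ← (β j).inv_mem_iff (x := α₁⁻¹ * (c * wp lz)⁻¹ * α₂)]
        have e5 : (α₁⁻¹ * (wp lz)⁻¹ * α₂)⁻¹ = α₂⁻¹ * (wp lz * α₁) := by group
        have e6 : (α₁⁻¹ * (c * wp lz)⁻¹ * α₂)⁻¹ = α₂⁻¹ * (c * (wp lz * α₁)) := by group
        rw [e5, e6]
        exact this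
      · rw [h1.2.2]
        have e5 : α₁⁻¹ * (c * wp lz)⁻¹ * (c * α₂) = α₁⁻¹ * (wp lz)⁻¹ * α₂ := by group
        rw [e5]
    rcases h.pd hzΓ hzB p.2 hpN hd₁ hd₂ with ⟨n, hn, l, hl, hne, hw, hlen⟩ | hE | hE
    · -- the other side is not exceptional
      rcases h.pd (Γ.mul_mem hc hzΓ) hczB (φ p).2 hφN hd₁ hd₂ with
        ⟨n', hn', l', hl', hne', hw', hlen'⟩ | hE' | hE'
      · rw [hw, hw']
        constructor
        · intro hB
          have := h.wd' g₁ g₂ hn hl hne (v7_leB j hB)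
          rcases hlen with h1 | ⟨p', hp', h1⟩
          · rw [this.2.2.1] at h1; omega
          · rw [this.2.2.2 p' hp'] at h1; omega
        · intro hB
          have := h.wd' g₁' g₂' hn' hl' hne' (v7_leB j hB)
          rcases hlen' with h1 | ⟨p', hp', h1⟩
          · rw [this.2.2.1] at h1; omega
          · rw [this.2.2.2 p' hp'] at h1; omega
      · refine absurd ⟨?_, hE'.2⟩ hEB
        have h2 : φ p = φ ⟨_, hx⟩ := by
          rw [hφx']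
          exact Subtype.ext hE'.1
        exact congrArg Subtype.val (φ.injective h2)
      · refine absurd ⟨?_, hE'.2⟩ hEC
        have h2 : φ p = φ (⟨_, hx⟩)⁻¹ := by
          rw [map_inv, hφx']
          exact Subtype.ext hE'.1
        exact congrArg Subtype.val (φ.injective h2)
    · exact absurd hE hEB
    · exact absurd hE hEC

theorem v7_cases {lz : List (G × G)} {c : G} {a : G × G} (ha : a ∈ AV q e r lg lz c) :
    ∃ d α α' : G, (d = 1 ∨ d = fV e r lg ∨ d = (fV e r lg)⁻¹) ∧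
      ((α ∈ PreG q r lg ∧ α' = α) ∨ (d = fV e r lg ∧ α ∈ PreZ q lz ∧ α' = c * α)) ∧
      a.1 = d * α ∧ a.2 = d * α' := by
  rcases ha with ⟨ρ, hρ, rfl | rfl | rfl⟩ | ⟨ζ, hζ, rfl⟩
  · exact ⟨1, ρ, ρ, Or.inl rfl, Or.inl ⟨hρ, rfl⟩, by simp, by simp⟩
  · exact ⟨_, ρ, ρ, Or.inr (Or.inl rfl), Or.inl ⟨hρ, rfl⟩, rfl, rfl⟩
  · exact ⟨_, ρ, ρ, Or.inr (Or.inr rfl), Or.inl ⟨hρ, rfl⟩, rfl, rfl⟩
  · exact ⟨_, ζ, c * ζ, Or.inr (Or.inl rfl), Or.inr ⟨rfl, hζ, rfl⟩, rfl, rfl⟩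

/-- V7 : the family of the main step satisfies `w` -/
theorem VC.w (h : VC q β Γ E F M e r lg) {lz : List (G × G)} (hlz : Rq q β lz) (hlzne : lz ≠ [])
    (hlzΓ : ∀ p ∈ lz, p.1 ∈ Γ ∧ p.2 ∈ Γ) {c : G} (hc : c ∈ Γ) (hcC : c ∈ β 0)
    (φ : PV (Γ ⊔ F) (fV e r lg * wp lz * fV e r lg) ≃*
      PV (Γ ⊔ F) (fV e r lg * (c * wp lz) * fV e r lg))
    (hφ : ∀ (n : G) hn, n ∈ Γ ⊔ F → (φ ⟨n, hn⟩ : G) = n)
    (hφx : ∀ hx, (φ ⟨fV e r lg * wp lz * fV e r lg, hx⟩ : G) =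
      fV e r lg * (c * wp lz) * fV e r lg) :
    ∀ j, ∀ h ∈ FV φ (AV q e r lg lz c), ∀ k ∈ FV φ (AV q e r lg lz c),
      (h.1⁻¹ * k.1 ∈ β j ↔ h.2⁻¹ * k.2 ∈ β j) := by
  rintro j _ ⟨p₁, a, ha, rfl⟩ _ ⟨p₂, b, hb, rfl⟩
  obtain ⟨d₁, α₁, α₁', hd₁, h₁, ea, ea'⟩ := v7_cases ha
  obtain ⟨d₂, α₂, α₂', hd₂, h₂, eb, eb'⟩ := v7_cases hb
  have key := v7_core h hlz hlzne hlzΓ hc hcC φ hφ hφx j (p₁⁻¹ * p₂) hd₁ hd₂ h₁ h₂
  rw [map_mul, map_inv] at key
  have e1 : ((p₁ : G) * a.1)⁻¹ * ((p₂ : G) * b.1) =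
      α₁⁻¹ * (d₁⁻¹ * ((p₁⁻¹ * p₂ : PV (Γ ⊔ F) (fV e r lg * wp lz * fV e r lg)) : G) * d₂) * α₂ := by
    rw [ea, eb, Subgroup.coe_mul, Subgroup.coe_inv]
    group
  have e2 : ((φ p₁ : G) * a.2)⁻¹ * ((φ p₂ : G) * b.2) =
      α₁'⁻¹ * (d₁⁻¹ * (((φ p₁)⁻¹ * φ p₂ :
        PV (Γ ⊔ F) (fV e r lg * (c * wp lz) * fV e r lg)) : G) * d₂) * α₂' := by
    rw [ea', eb', Subgroup.coe_mul, Subgroup.coe_inv]
    group
  show ((p₁ : G) * a.1)⁻¹ * ((p₂ : G) * b.1) ∈ β j ↔ ((φ p₁ : G) * a.2)⁻¹ * ((φ p₂ : G) * b.2) ∈ β j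
  rw [e1, e2]
  exact key

end vc

end Pool.Agent.Helper98.AAD
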