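import Pool.Agent.Helper98.AAD.DefsV
import Pool.Agent.Helper98.AAD.R4

/-!
V8 : the family of the main step is connected (problem MP_aade38_al).
-/

set_option autoImplicit false

namespace Pool.Agent.Helper98.AAD

namespace V8

section aux

variable {G : Type} [Group G]

theorem rd_mem {X Y L : Subgroup G} {l : List (G × G)} (hl : Rd X Y L l) :
    ∀ p ∈ l, p.1 ∈ L ∧ p.2 ∈ X := by
  induction l with
  | nil => intro p hp; simp at hp
  | cons a l ih =>
    obtain ⟨h1, _, h3, _, h5⟩ := hl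
    intro p hp
    rcases List.mem_cons.1 hp with rfl | hp
    · exact ⟨h1, h3⟩
    · exact ih h5 p hp

variable {q : Multiplicative ℚ →* G} {β : ℕ → Subgroup G} {A : Set (G × G)}

theorem fstep_symm {h k : G × G} (s : FStep q β A h k) : FStep q β A k h := by
  obtain ⟨h1, h2, h3⟩ := s
  refine ⟨h2, h1, ?_⟩
  rcases h3 with ⟨t, rfl⟩ | ⟨h3, h4⟩
  · exact Or.inl ⟨t⁻¹, by simp [mul_assoc]⟩
  · refine Or.inr ⟨?_, ?_⟩
    · have := (Bb β).inv_mem h3
      simpa using this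
    · have := (Bb β).inv_mem h4
      simpa using this

theorem symm {h k : G × G} (s : Relation.ReflTransGen (FStep q β A) h k) :
    Relation.ReflTransGen (FStep q β A) k h := by
  induction s with
  | refl => exact .refl
  | tail _ h ih => exact .head (fstep_symm h) ih

/-- following a word -/
theorem chain {u u' : G} {l : List (G × G)} (hl : Rq q β l)
    (hA : ∀ (i : ℕ) (t : Multiplicative ℚ), (u * wp (l.take i) * q t, u' * wp (l.take i) * q t) ∈ A)
    (i : ℕ) (t : Multiplicative ℚ) : Relation.ReflTransGen (FStep q β A) (u, u')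
      (u * wp (l.take i) * q t, u' * wp (l.take i) * q t) := by
  induction i generalizing t with
  | zero =>
    have h0 := hA 0 1
    have h1 := hA 0 t
    simp only [List.take_zero, wp, map_one, mul_one] at h0 h1 ⊢
    exact .single ⟨h0, h1, Or.inl ⟨t, rfl⟩⟩
  | succ i ih =>
    by_cases hi : i < l.length
    · have e1 : l.take (i + 1) = l.take i ++ [l[i]] := List.take_succ_eq_append_getElem hi
      obtain ⟨⟨s, hs⟩, h2⟩ := rd_mem hl l[i] (List.getElem_mem hi)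
      have e2 : wp (l.take (i + 1)) = wp (l.take i) * q s * (l[i]).2 := by
        rw [e1, wp_append]
        simp only [wp, mul_one]
        rw [← hs]
        group
      have a1 := hA i s
      have a2 := hA (i + 1) 1
      have a3 := hA (i + 1) t
      rw [map_one, mul_one, mul_one] at a2
      refine ((ih s).tail ⟨a1, a2, Or.inr ⟨?_, ?_⟩⟩).tail ⟨a2, a3, Or.inl ⟨t, rfl⟩⟩
      · rw [e2]
        have : (u * wp (l.take i) * q s)⁻¹ * (u * (wp (l.take i) * q s * (l[i]).2)) = (l[i]).2 := by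
          group
        show (u * wp (l.take i) * q s)⁻¹ * (u * (wp (l.take i) * q s * (l[i]).2)) ∈ Bb β
        rw [this]
        exact h2
      · rw [e2]
        have : (u' * wp (l.take i) * q s)⁻¹ * (u' * (wp (l.take i) * q s * (l[i]).2)) = (l[i]).2 := by
          group
        show (u' * wp (l.take i) * q s)⁻¹ * (u' * (wp (l.take i) * q s * (l[i]).2)) ∈ Bb β
        rw [this]
        exact h2
    · have e1 : l.take (i + 1) = l.take i := by
        rw [List.take_of_length_le (by omega), List.take_of_length_le (by omega)]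
      rw [e1]
      exact ih t

end aux

end V8

section vc

variable {G : Type} [Group G] {q : Multiplicative ℚ →* G} {β : ℕ → Subgroup G}
  {Γ E F M : Subgroup G} {e r : G} {lg : List (G × G)}

/-- following the beginnings of the nice element -/
theorem V8.preG {A : Set (G × G)} (hr : r ∈ Bb β) (hl : Rq q β lg) {u u' : G}
    (hA : ∀ ρ ∈ PreG q r lg, (u * ρ, u' * ρ) ∈ A) : ∀ ρ ∈ PreG q r lg,
      Relation.ReflTransGen (FStep q β A) (u, u') (u * ρ, u' * ρ) := by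
  have h0 : (u, u') ∈ A := by
    have := hA (q 1) (Or.inl ⟨1, rfl⟩)
    simpa using this
  rintro ρ (⟨t, rfl⟩ | ⟨i, t, rfl⟩)
  · exact .single ⟨h0, hA _ (Or.inl ⟨t, rfl⟩), Or.inl ⟨t, rfl⟩⟩
  · have h1 : ∀ (i : ℕ) (t : Multiplicative ℚ),
        (u * r * wp (lg.take i) * q t, u' * r * wp (lg.take i) * q t) ∈ A := by
      intro i t
      have := hA (r * wp (lg.take i) * q t) (Or.inr ⟨i, t, rfl⟩)
      simpa only [mul_assoc] using this
    have h2 : (u * r, u' * r) ∈ A := by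
      have := h1 0 1
      simpa [wp] using this
    have h3 : Relation.ReflTransGen (FStep q β A) (u, u') (u * r, u' * r) := by
      refine .single ⟨h0, h2, Or.inr ⟨?_, ?_⟩⟩
      · simpa using hr
      · simpa using hr
    have h4 := h3.trans (V8.chain hl h1 i t)
    simpa only [mul_assoc] using h4

theorem V8.aux (h : VC q β Γ E F M e r lg) {lz : List (G × G)} (hlz : Rq q β lz)
    {c : G} (hcC : c ∈ β 0) {f x x' : G} (hf : f = fV e r lg) (hx : x = f * wp lz * f)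
    (hx' : x' = f * (c * wp lz) * f) (φ : PV (Γ ⊔ F) x ≃* PV (Γ ⊔ F) x')
    (hφ : ∀ (n : G) hn, n ∈ Γ ⊔ F → (φ ⟨n, hn⟩ : G) = n)
    (hφx : ∀ hx, (φ ⟨x, hx⟩ : G) = x') {A : Set (G × G)} (hAdef : A = FV φ (AV q e r lg lz c)) :
    ∀ h ∈ A, Relation.ReflTransGen (FStep q β A) (1, 1) h := by
  have hβ0 : ∀ y ∈ β 0, y ∈ Bb β := fun y hy => (le_iSup β 0) hy
  have heB : e ∈ Bb β := hβ0 _ (h.st.EC h.eF)
  -- the action
  have hact : ∀ (p : PV (Γ ⊔ F) x) (k : G × G), k ∈ A → ((p : G) * k.1, (φ p : G) * k.2) ∈ A := by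
    rw [hAdef]
    rintro p k ⟨p', a, ha, rfl⟩
    refine ⟨p * p', a, ha, ?_⟩
    simp [mul_assoc]
  have hAV : ∀ k ∈ AV q e r lg lz c, k ∈ A := by
    rw [hAdef]
    exact fun k hk => ⟨1, k, hk, by simp⟩
  have hmove : ∀ (p : PV (Γ ⊔ F) x) (k k' : G × G),
      Relation.ReflTransGen (FStep q β A) k k' →
      Relation.ReflTransGen (FStep q β A) ((p : G) * k.1, (φ p : G) * k.2)
        ((p : G) * k'.1, (φ p : G) * k'.2) := by
    intro p k k' hk
    have hstep : ∀ k k' : G × G, FStep q β A k k' →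
        FStep q β A ((p : G) * k.1, (φ p : G) * k.2) ((p : G) * k'.1, (φ p : G) * k'.2) := ?_
    · induction hk with
      | refl => exact .refl
      | tail _ h ih => exact ih.tail (hstep _ _ h)
    rintro k k' ⟨h1, h2, h3⟩
    refine ⟨hact p k h1, hact p k' h2, ?_⟩
    rcases h3 with ⟨t, rfl⟩ | ⟨h3, h4⟩
    · exact Or.inl ⟨t, by simp [mul_assoc]⟩
    · refine Or.inr ⟨?_, ?_⟩
      · have : ((p : G) * k.1)⁻¹ * ((p : G) * k'.1) = k.1⁻¹ * k'.1 := by group
        exact this ▸ h3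
      · have : ((φ p : G) * k.2)⁻¹ * ((φ p : G) * k'.2) = k.2⁻¹ * k'.2 := by group
        exact this ▸ h4
  -- classes
  have hA1 : ∀ ρ ∈ PreG q r lg, (1 * ρ, 1 * ρ) ∈ A := fun ρ hρ =>
    hAV _ (Or.inl ⟨ρ, hρ, Or.inl (by simp)⟩)
  have hA2 : ∀ ρ ∈ PreG q r lg, (f * ρ, f * ρ) ∈ A := fun ρ hρ =>
    hAV _ (Or.inl ⟨ρ, hρ, Or.inr (Or.inl (by rw [hf]))⟩)
  have hA3 : ∀ ρ ∈ PreG q r lg, (f⁻¹ * ρ, f⁻¹ * ρ) ∈ A := fun ρ hρ =>
    hAV _ (Or.inl ⟨ρ, hρ, Or.inr (Or.inr (by rw [hf]))⟩)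
  have hA4 : ∀ (i : ℕ) (t : Multiplicative ℚ),
      (f * wp (lz.take i) * q t, (f * c) * wp (lz.take i) * q t) ∈ A := by
    intro i t
    refine hAV _ (Or.inr ⟨wp (lz.take i) * q t, ⟨i, t, rfl⟩, ?_⟩)
    rw [hf]
    simp [mul_assoc]
  have hg : gV r lg ∈ PreG q r lg := Or.inr ⟨lg.length, 1, by simp [gV]⟩
  have h1G : (1 : G) ∈ PreG q r lg := Or.inl ⟨1, by simp⟩
  have R1 := V8.preG (A := A) h.rB h.lgR hA1
  have R2 := V8.preG (A := A) h.rB h.lgR hA2
  have R3 := V8.preG (A := A) h.rB h.lgR hA3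
  have R4 := V8.chain (A := A) hlz hA4
  simp only [one_mul] at R1
  have efg : f * gV r lg = gV r lg * e := by
    rw [hf, fV]; group
  have efg' : f⁻¹ * gV r lg = gV r lg * e⁻¹ := by
    rw [hf, fV]; group
  -- `(1,1) ~ (f,f)` and `(1,1) ~ (f⁻¹,f⁻¹)`
  have hgA : (gV r lg, gV r lg) ∈ A := by simpa using hA1 _ hg
  have S2 : Relation.ReflTransGen (FStep q β A) (1, 1) (f, f) := by
    refine ((R1 _ hg).tail ⟨hgA, hA2 _ hg, Or.inr ⟨?_, ?_⟩⟩).trans (V8.symm (R2 _ hg))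
    · rw [efg]; simpa using heB
    · rw [efg]; simpa using heB
  have S3 : Relation.ReflTransGen (FStep q β A) (1, 1) (f⁻¹, f⁻¹) := by
    refine ((R1 _ hg).tail ⟨hgA, hA3 _ hg, Or.inr ⟨?_, ?_⟩⟩).trans (V8.symm (R3 _ hg))
    · rw [efg']; simpa using heB
    · rw [efg']; simpa using heB
  have hffA : (f, f) ∈ A := by simpa using hA2 1 h1G
  have hfcA : (f, f * c) ∈ A := by simpa [wp] using hA4 0 1
  have S4 : Relation.ReflTransGen (FStep q β A) (1, 1) (f, f * c) := by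
    refine S2.tail ⟨hffA, hfcA, Or.inr ⟨?_, ?_⟩⟩
    · simpa using (Bb β).one_mem
    · simpa using hβ0 _ hcC
  -- all of `AV`
  have SAV : ∀ k ∈ AV q e r lg lz c, Relation.ReflTransGen (FStep q β A) (1, 1) k := by
    unfold AV
    rw [← hf]
    rintro k (⟨ρ, hρ, rfl | rfl | rfl⟩ | ⟨ζ, ⟨i, t, rfl⟩, rfl⟩)
    · exact R1 ρ hρ
    · exact S2.trans (R2 ρ hρ)
    · exact S3.trans (R3 ρ hρ)
    · have := S4.trans (R4 i t)
      simpa only [mul_assoc] using this
  -- the stabiliser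
  let S : Subgroup (PV (Γ ⊔ F) x) :=
    { carrier := {p | Relation.ReflTransGen (FStep q β A) (1, 1) ((p : G), (φ p : G))}
      one_mem' := by
        have : (((1 : PV (Γ ⊔ F) x) : G), (φ 1 : G)) = ((1 : G), (1 : G)) := by simp
        show Relation.ReflTransGen (FStep q β A) (1, 1) _
        rw [this]
      mul_mem' := by
        intro p p' hp hp'
        have := hmove p _ _ hp'
        have h2 := Relation.ReflTransGen.trans hp (by simpa using this)
        show Relation.ReflTransGen (FStep q β A) (1, 1) _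
        simpa using h2
      inv_mem' := by
        intro p hp
        have := hmove p⁻¹ _ _ hp
        show Relation.ReflTransGen (FStep q β A) (1, 1) _
        refine V8.symm ?_
        simpa using this }
  have memS : ∀ (n : G) (hn : n ∈ PV (Γ ⊔ F) x), n ∈ Γ ⊔ F → (n, n) ∈ A →
      ((∃ t, n = q t) ∨ n ∈ Bb β) → (⟨n, hn⟩ : PV (Γ ⊔ F) x) ∈ S := by
    intro n hn hn' hnA h'
    show Relation.ReflTransGen (FStep q β A) (1, 1) (n, (φ ⟨n, hn⟩ : G))
    rw [hφ n hn hn']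
    refine .single ⟨by simpa using hA1 1 h1G, hnA, ?_⟩
    rcases h' with ⟨t, rfl⟩ | h'
    · exact Or.inl ⟨t, by simp⟩
    · exact Or.inr ⟨by simpa using h', by simpa using h'⟩
  have hnA : ∀ n ∈ Γ ⊔ F, (n, n) ∈ A := by
    intro n hn
    have hn' : n ∈ PV (Γ ⊔ F) x := (le_sup_left : Γ ⊔ F ≤ _) hn
    have := hact ⟨n, hn'⟩ (1, 1) (by simpa using hA1 1 h1G)
    simpa [hφ n hn' hn] using this
  have hxP : x ∈ PV (Γ ⊔ F) x := (le_sup_right : Subgroup.zpowers x ≤ _) (Subgroup.mem_zpowers x)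
  have hxS : (⟨x, hxP⟩ : PV (Γ ⊔ F) x) ∈ S := by
    show Relation.ReflTransGen (FStep q β A) (1, 1) (x, (φ ⟨x, hxP⟩ : G))
    rw [hφx hxP]
    -- `(f z, f c z) = x • (f⁻¹, f⁻¹)`
    have h1 : Relation.ReflTransGen (FStep q β A) (1, 1) (x * f⁻¹, x' * f⁻¹) := by
      have h2 := S4.trans (R4 lz.length 1)
      rw [List.take_length, map_one, mul_one, mul_one] at h2
      have e1 : x * f⁻¹ = f * wp lz := by rw [hx]; group
      have e2 : x' * f⁻¹ = f * c * wp lz := by rw [hx']; group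
      rw [e1, e2]
      exact h2
    have h3 := hmove ⟨x, hxP⟩ _ _ S3
    rw [hφx hxP] at h3
    simp only [mul_one] at h3
    exact h1.trans (V8.symm h3)
  have hS : ∀ p : PV (Γ ⊔ F) x, p ∈ S := by
    have key : PV (Γ ⊔ F) x ≤ S.map (PV (Γ ⊔ F) x).subtype := by
      have hq' : ∀ n (hn' : n ∈ Γ ⊔ F), ((∃ t, n = q t) ∨ n ∈ Bb β) →
          n ∈ S.map (PV (Γ ⊔ F) x).subtype := by
        intro n hn' h'
        have hn : n ∈ PV (Γ ⊔ F) x := (le_sup_left : Γ ⊔ F ≤ _) hn'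
        exact ⟨⟨n, hn⟩, memS n hn hn' (hnA n hn') h', rfl⟩
      refine sup_le (sup_le ?_ ?_) ?_
      · refine h.st.gen.trans (sup_le ?_ ?_)
        · intro n hn
          exact hq' n ((le_sup_left : Γ ≤ Γ ⊔ F) hn.1) (Or.inr hn.2)
        · rintro n ⟨t, rfl⟩
          exact hq' _ ((le_sup_left : Γ ≤ Γ ⊔ F) (h.st.QΓ ⟨t, rfl⟩)) (Or.inl ⟨t, rfl⟩)
      · intro n hn
        exact hq' n ((le_sup_right : F ≤ Γ ⊔ F) hn) (Or.inr (hβ0 _ (h.st.EC hn)))
      · rw [Subgroup.zpowers_le]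
        exact ⟨⟨x, hxP⟩, hxS, rfl⟩
    rintro ⟨p, hp⟩
    obtain ⟨p', hp', e1⟩ := key hp
    have : p' = ⟨p, hp⟩ := Subtype.ext e1
    exact this ▸ hp'
  intro k hk
  rw [hAdef] at hk
  obtain ⟨p, a, ha, rfl⟩ := hk
  have h1 : Relation.ReflTransGen (FStep q β A) (1, 1) ((p : G), (φ p : G)) := hS p
  have h2 := hmove p _ _ (SAV a ha)
  simp only [mul_one] at h2
  exact h1.trans h2

/-- V8 : the family of the main step is connected -/
theorem VC.reach (h : VC q β Γ E F M e r lg) {lz : List (G × G)} (hlz : Rq q β lz)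
    (hlzΓ : ∀ p ∈ lz, p.1 ∈ Γ ∧ p.2 ∈ Γ) {c : G} (hc : c ∈ Γ) (hcC : c ∈ β 0)
    (φ : PV (Γ ⊔ F) (fV e r lg * wp lz * fV e r lg) ≃*
      PV (Γ ⊔ F) (fV e r lg * (c * wp lz) * fV e r lg))
    (hφ : ∀ (n : G) hn, n ∈ Γ ⊔ F → (φ ⟨n, hn⟩ : G) = n)
    (hφx : ∀ hx, (φ ⟨fV e r lg * wp lz * fV e r lg, hx⟩ : G) =
      fV e r lg * (c * wp lz) * fV e r lg) :
    ∀ h ∈ FV φ (AV q e r lg lz c),
      Relation.ReflTransGen (FStep q β (FV φ (AV q e r lg lz c))) (1, 1) h :=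
  V8.aux h hlz hcC rfl rfl rfl φ hφ hφx rfl

end vc

end Pool.Agent.Helper98.AAD
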