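import Pool.Agent.Helper98.AAD.A1
import Pool.Agent.Helper98.AAD.A2
import Pool.Agent.Helper98.AAD.V1p
import Pool.Agent.Helper98.AAD.V0
import Pool.Agent.Helper98.AAD.V7
import Pool.Agent.Helper98.AAD.V8
import Pool.Agent.Helper98.AAD.V11
import Pool.Agent.Helper98.AAD.V12
import Pool.Agent.Helper98.AAD.V13
import Pool.Agent.Helper98.AAD.E4
import Pool.Agent.Helper98.AAD.QE
import Pool.Agent.Helper98.AAD.R1
import Pool.Agent.Helper98.AAD.R2
import Pool.Agent.Helper98.AAD.R3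
import Pool.Agent.Helper98.AAD.R4
import Pool.Agent.Helper98.AAD.R4b

set_option autoImplicit false

namespace Pool.Agent.Helper98.AAD

/-! ## auxiliary lemmas -/

/-- composition of embeddings of states -/
theorem SEmb.v14comp {G G' G'' : Type} [Group G] [Group G'] [Group G''] {f : G →* G'} {f' : G' →* G''}
    {q : Multiplicative ℚ →* G} {β : ℕ → Subgroup G} {Γ E : Subgroup G}
    {q' : Multiplicative ℚ →* G'} {β' : ℕ → Subgroup G'} {Γ' E' : Subgroup G'}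
    {q'' : Multiplicative ℚ →* G''} {β'' : ℕ → Subgroup G''} {Γ'' E'' : Subgroup G''}
    (h : SEmb f q β Γ E q' β' Γ' E') (h' : SEmb f' q' β' Γ' E' q'' β'' Γ'' E'') :
    SEmb (f'.comp f) q β Γ E q'' β'' Γ'' E'' where
  emb := 
    { inj := fun x y e => h.emb.inj (h'.emb.inj e)
      hq := fun t => by rw [MonoidHom.comp_apply, h.emb.hq, h'.emb.hq]
      hβ := fun j x => by rw [MonoidHom.comp_apply, h'.emb.hβ, h.emb.hβ] }
  hΓ := by rw [h'.hΓ, h.hΓ, Subgroup.map_map]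
  hE := fun x hx => h'.hE _ (h.hE x hx)
  hN := fun x hx => h.hN x (h'.hN _ hx)

/-- the identity embedding -/
theorem SEmb.v14id {G : Type} [Group G] 
    {q : Multiplicative ℚ →* G} {β : ℕ → Subgroup G} {Γ E : Subgroup G} :
    SEmb (MonoidHom.id G) q β Γ E q β Γ E where
  emb := 
    { inj := fun x y e => e
      hq := fun t => rfl
      hβ := fun j x => Iff.rfl }
  hΓ := by rw [Subgroup.map_id]
  hE := fun x hx => hx
  hN := fun x hx => hx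

/-- adding a free generator to a commutative group -/
theorem v14_exF (E : Type) [Group E] [Countable E] (hc : ∀ a b : E, a * b = b * a) :
    ∃ (F' : Type) (_ : CommGroup F') (_ : Countable F') (j : E →* F') (e : F'),
      Function.Injective j ∧ (∀ k : ℤ, k ≠ 0 → e ^ k ∉ j.range) ∧
      ∀ x : F', ∃ (y : E) (k : ℤ), x = j y * e ^ k := by
  classical
  let _ : CommGroup E := { (inferInstance : Group E) with mul_comm := hc }
  refine ⟨E × Multiplicative ℤ, inferInstance, inferInstance, MonoidHom.inl E (Multiplicative ℤ),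
    (1, Multiplicative.ofAdd 1), ?_, ?_, ?_⟩
  · intro x y h
    have := congrArg Prod.fst h
    simpa using this
  · rintro k hk ⟨y, hy⟩
    have := congrArg Prod.snd hy
    simp only [MonoidHom.inl_apply, Prod.pow_snd] at this
    rw [← ofAdd_zsmul] at this
    have h2 := congrArg Multiplicative.toAdd this
    simp at h2
    exact hk h2.symm
  · rintro ⟨y, k⟩
    refine ⟨y, Multiplicative.toAdd k, ?_⟩
    ext
    · simp
    · simp only [MonoidHom.inl_apply, Prod.snd_mul, Prod.pow_snd, one_mul]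
      rw [← ofAdd_zsmul]
      simp

/-- elements of the join of commuting subgroups -/
theorem v14_sup {G : Type} [Group G] {Γ E : Subgroup G} (hc : ∀ e ∈ E, ∀ g ∈ Γ, e * g = g * e)
    {x : G} (hx : x ∈ Γ ⊔ E) : ∃ γ ∈ Γ, ∃ ε ∈ E, γ * ε = x := by
  let S : Subgroup G :=
    { carrier := {x | ∃ γ ∈ Γ, ∃ ε ∈ E, γ * ε = x}
      one_mem' := ⟨1, Γ.one_mem, 1, E.one_mem, one_mul 1⟩
      mul_mem' := by
        rintro _ _ ⟨γ, hγ, ε, hε, rfl⟩ ⟨γ', hγ', ε', hε', rfl⟩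
        refine ⟨γ * γ', Γ.mul_mem hγ hγ', ε * ε', E.mul_mem hε hε', ?_⟩
        rw [mul_assoc γ γ', ← mul_assoc γ' ε, ← hc ε hε γ' hγ']
        group
      inv_mem' := by
        rintro _ ⟨γ, hγ, ε, hε, rfl⟩
        refine ⟨γ⁻¹, Γ.inv_mem hγ, ε⁻¹, E.inv_mem hε, ?_⟩
        rw [mul_inv_rev, hc _ (E.inv_mem hε) _ (Γ.inv_mem hγ)] }
  have h : Γ ⊔ E ≤ S := sup_le (fun γ hγ => ⟨γ, hγ, 1, E.one_mem, mul_one γ⟩)
    (fun ε hε => ⟨1, Γ.one_mem, ε, hε, one_mul ε⟩)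
  exact h hx

section words

variable {G : Type} [Group G] {q : Multiplicative ℚ →* G} {β : ℕ → Subgroup G}

/-- a form of an element of `Γ` which starts with a letter -/
theorem v14_formZ (hq : QS q β) {Γ : Subgroup G} (hQ : q.range ≤ Γ)
    (hg : Γ ≤ (Γ ⊓ Bb β) ⊔ q.range) {z : G} (hz : z ∈ Γ) (hs : StartsQ q β z) :
    ∃ lz : List (G × G), Rq q β lz ∧ lz ≠ [] ∧ (∀ p ∈ lz, p.1 ∈ Γ ∧ p.2 ∈ Γ) ∧ z = wp lz := by
  obtain ⟨l', hl', hne', e'⟩ := hs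
  obtain ⟨x0, hx0, l, hl, hlΓ, e⟩ := hq.ra.formIn hQ hg hz
  have hx0' : x0 ∈ Bb β := (Subgroup.mem_inf.1 hx0).2
  have hx0Γ : x0 ∈ Γ := (Subgroup.mem_inf.1 hx0).1
  have hsim := hq.ra.sim hx0' hl' hl (by rw [← e', e])
  cases hsim with
  | nil => exact absurd rfl hne'
  | @cons _ t x t' x' l1 l1' hy hty hrest =>
    obtain ⟨ht'L, ht'Y, hx'X, hx'Y, hl1'⟩ := hl
    have ht'Γ : t' ∈ Γ := (hlΓ (t', x') (by simp)).1
    have hx'Γ : x' ∈ Γ := (hlΓ (t', x') (by simp)).2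
    have hconj : t'⁻¹ * x0 * t' ∈ β 0 := by
      have := hq.ra.norm t'⁻¹ (q.range.inv_mem ht'L) x0 hy
      rwa [inv_inv] at this
    refine ⟨(t', t'⁻¹ * x0 * t' * x') :: l1', ⟨ht'L, ht'Y, ?_, ?_, hl1'⟩, by simp, ?_, ?_⟩
    · exact (Bb β).mul_mem (hq.ra.le hconj) hx'X
    · intro hne h
      apply hx'Y hne
      have := (β 0).mul_mem ((β 0).inv_mem hconj) h
      simpa [mul_assoc] using this
    · intro p hp
      rcases List.mem_cons.1 hp with rfl | hp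
      · exact ⟨ht'Γ, Γ.mul_mem (Γ.mul_mem (Γ.mul_mem (Γ.inv_mem ht'Γ) hx0Γ) ht'Γ) hx'Γ⟩
      · exact hlΓ p (List.mem_cons_of_mem _ hp)
    · rw [e]
      simp only [wp]
      group

theorem v14_wp_mem {Γ : Subgroup G} {l : List (G × G)} (h : ∀ p ∈ l, p.1 ∈ Γ ∧ p.2 ∈ Γ) :
    wp l ∈ Γ := by
  induction l with
  | nil => exact Γ.one_mem
  | cons p l ih =>
    simp only [wp]
    exact Γ.mul_mem (Γ.mul_mem (h p (by simp)).1 (h p (by simp)).2)
      (ih fun p hp => h p (List.mem_cons_of_mem _ hp))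

end words

section parts

variable {G : Type} [Group G] {q : Multiplicative ℚ →* G} {β : ℕ → Subgroup G} {Γ E : Subgroup G}

/-- the divisible hull of the central part -/
theorem v14_partC [Countable G] (h : IsSt q β Γ E) :
    ∃ (G' : Type) (_ : Group G') (_ : Countable G') (i : G →* G') (q' : Multiplicative ℚ →* G')
      (β' : ℕ → Subgroup G') (E' : Subgroup G'),
      IsSt q' β' (Γ.map i) E' ∧ Dv E' ∧ SEmb i q β Γ E q' β' (Γ.map i) E' := by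
  obtain ⟨F', hF1, hF2, j, hj, hdiv⟩ := hull E (fun a b => Subtype.ext (h.ab a a.2 b b.2))
  obtain ⟨G', hG1, hG2, i, k, hk, hkj, hst, hemb, hra⟩ := AE h F' j hj
  refine ⟨G', hG1, hG2, i, i.comp q, fun n => (β n).map i ⊔ k.range, k.range, hst, ?_, hemb⟩
  rintro _ ⟨x, rfl⟩ n hn
  obtain ⟨y, hy⟩ := hdiv x n hn
  exact ⟨k y, ⟨y, rfl⟩, by rw [← map_pow, hy]⟩

/-- adding a central letter -/
theorem v14_partA [Countable G] (h : IsSt q β Γ E) {g : G} (hg : Nice q β Γ g) :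
    ∃ (G1 : Type) (_ : Group G1) (_ : Countable G1) (i : G →* G1) (q1 : Multiplicative ℚ →* G1)
      (β1 : ℕ → Subgroup G1) (F M : Subgroup G1) (e r : G1) (lg : List (G1 × G1)),
      VC q1 β1 (Γ.map i) (E.map i) F M e r lg ∧ SEmb i q β Γ E q1 β1 (Γ.map i) F ∧
        gV r lg = i g := by
  obtain ⟨F', hF1, hF2, j, e, hj, hepow, hgen⟩ :=
    v14_exF E (fun a b => Subtype.ext (h.ab a a.2 b b.2))
  obtain ⟨G', hG1, hG2, i, k, hk, hkj, hst, hemb, hra⟩ := AE h F' j hj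
  obtain ⟨x0, hx0, l, hl, hgl⟩ := h.qs.ra.form g
  have hlne : l ≠ [] := by
    rintro rfl
    have h1 := hg.1
    have h2 : ql q β g = 0 := by
      rw [hgl]
      exact h.qs.ra.rlen_form hx0 hl
    omega
  have hinj : Function.Injective i := hemb.emb.inj
  have hwp : i x0 * wp (l.map (Prod.map i i)) = i g := by
    rw [QEmb.wp_map (f := i) l, ← map_mul, ← hgl]
  refine ⟨G', hG1, hG2, i, i.comp q, fun n => (β n).map i ⊔ k.range, k.range, i.range, k e, i x0,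
    l.map (Prod.map i i), ?_, hemb, hwp⟩
  refine
    { st := hst
      EF := ?_
      ra := by rw [← Subgroup.map_sup]; exact hra
      Mgen := ?_
      βM := ?_
      eF := ⟨e, rfl⟩
      Fe := ?_
      epow := ?_
      rB := (hemb.emb.mem_Bb_iff h.qs hst.qs).2 hx0
      rM := ⟨x0, rfl⟩
      lgR := (hemb.emb.rd_iff h.qs hst.qs).2 hl
      lgM := ?_
      lgne := by simpa using hlne
      nice := by
        rw [hwp]
        exact (hemb.emb.nice h.qs hst.qs Γ g).2 hg }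
  · rintro _ ⟨x, hx, rfl⟩
    exact ⟨j ⟨x, hx⟩, hkj ⟨x, hx⟩⟩
  · rintro _ ⟨x, rfl⟩
    have hx : x ∈ Bb β ⊔ q.range := by rw [h.qs.ra.gen]; trivial
    have h1 : (Bb β ⊔ q.range).map i ≤ (i.range ⊓ Bb fun n => (β n).map i ⊔ k.range) ⊔
        (i.comp q).range := by
      rw [Subgroup.map_sup]
      refine sup_le_sup ?_ ?_
      · rintro _ ⟨b, hb, rfl⟩
        exact ⟨⟨b, rfl⟩, (hemb.emb.mem_Bb_iff h.qs hst.qs).2 hb⟩
      · rintro _ ⟨_, ⟨t, rfl⟩, rfl⟩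
        exact ⟨t, rfl⟩
    exact h1 ⟨x, hx, rfl⟩
  · intro n
    refine sup_le ?_ le_sup_right
    refine le_trans ?_ le_sup_left
    rintro _ ⟨x, hx, rfl⟩
    exact ⟨Subgroup.mem_sup_left ⟨x, hx, rfl⟩, ⟨x, rfl⟩⟩
  · rintro _ ⟨x, rfl⟩
    obtain ⟨y, m, rfl⟩ := hgen x
    rw [map_mul, map_zpow, hkj]
    exact Subgroup.mul_mem_sup ⟨y, y.2, rfl⟩ ⟨m, rfl⟩
  · intro m hm hmem
    have h1 : k (e ^ m) ∈ Γ.map i ⊔ E.map i := by rw [map_zpow]; exact hmem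
    rw [← Subgroup.map_sup] at h1
    obtain ⟨n, hn, hn'⟩ := h1
    obtain ⟨γ, hγ, ε, hε, rfl⟩ := v14_sup h.comm hn
    have h2 : k (e ^ m * (j ⟨ε, hε⟩)⁻¹) = i γ := by
      rw [map_mul, map_inv, hkj, ← hn', map_mul]
      simp
    have h3 : k (e ^ m * (j ⟨ε, hε⟩)⁻¹) = 1 :=
      hst.dis _ ⟨_, rfl⟩ (by rw [h2]; exact ⟨γ, hγ, rfl⟩)
    have h4 : e ^ m * (j ⟨ε, hε⟩)⁻¹ = 1 := hk (by rw [h3, map_one])
    exact hepow m hm ⟨⟨ε, hε⟩, (mul_inv_eq_one.1 h4).symm⟩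
  · intro p hp
    obtain ⟨p', hp', rfl⟩ := List.mem_map.1 hp
    exact ⟨⟨p'.1, rfl⟩, ⟨p'.2, rfl⟩⟩

/-- the main step -/
theorem v14_partB [Countable G] {F M : Subgroup G} {e r : G} {lg : List (G × G)}
    (h : VC q β Γ E F M e r lg) {lz : List (G × G)} (hlz : Rq q β lz) (hne : lz ≠ [])
    (hlzΓ : ∀ p ∈ lz, p.1 ∈ Γ ∧ p.2 ∈ Γ) {c : G} (hc : c ∈ Γ) (hcC : c ∈ β 0) (hc1 : c ≠ 1) :
    ∃ (G' : Type) (_ : Group G') (_ : Countable G') (i : G →* G') (q' : Multiplicative ℚ →* G')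
      (β' : ℕ → Subgroup G') (E' : Subgroup G') (t : G'),
      t ∈ E' ∧ IsSt q' β' (Γ.map i) E' ∧ SEmb i q β Γ F q' β' (Γ.map i) E' ∧
      t * i (fV e r lg * wp lz * fV e r lg) = i (fV e r lg * (c * wp lz) * fV e r lg) * t := by
  have hqs := h.st.qs
  have hCB : β 0 ≤ Bb β := hqs.ra.le
  have hz : wp lz ∈ Γ := v14_wp_mem hlzΓ
  have hzB : wp lz ∉ Bb β := by
    have := hqs.ra.nf 1 (Bb β).one_mem lz hlz hne
    rwa [one_mul] at this
  have hz1 : wp lz ≠ 1 := fun h0 => hzB (by rw [h0]; exact (Bb β).one_mem)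
  have hcz : c * wp lz ∈ Γ := Γ.mul_mem hc hz
  have hczB : c * wp lz ∉ Bb β := hqs.ra.nf c (hCB hcC) lz hlz hne
  have hcz1 : c * wp lz ≠ 1 := fun h0 => hczB (by rw [h0]; exact (Bb β).one_mem)
  obtain ⟨hx, hx'⟩ := h.freeX hz hz1
  obtain ⟨hy, hy'⟩ := h.freeX hcz hcz1
  obtain ⟨φ, hφ, hφx⟩ := free_iso hx hx' hy hy'
  have hlen : ∀ ζ ∈ PreZ q lz, ζ ∈ Γ ∧ ql q β ζ ≤ lz.length + 1 := by
    rintro _ ⟨i, t, rfl⟩
    refine ⟨Γ.mul_mem (v14_wp_mem fun p hp => hlzΓ p (List.mem_of_mem_take hp))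
      (h.st.QΓ ⟨t, rfl⟩), ?_⟩
    refine le_trans (hqs.ra.rlen_mul_le _ _) ?_
    have h1 : rlen (Bb β) (β 0) q.range (wp (lz.take i)) ≤ lz.length := by
      have h2 := hqs.ra.rlen_form (Bb β).one_mem (Rd.take hlz i)
      rw [one_mul] at h2
      rw [h2, List.length_take]
      exact min_le_right _ _
    have h3 : rlen (Bb β) (β 0) q.range (q t) ≤ 1 :=
      hqs.ra.rlen_YL (Subgroup.mem_sup_right ⟨t, rfl⟩)
    omega
  have hA : Fam q β _ _ φ (FV φ (AV q e r lg lz c)) :=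
    { one := ⟨1, (1, 1), Or.inl ⟨1, Or.inl ⟨1, (map_one q).symm⟩, Or.inl rfl⟩, by simp⟩
      satQ := by
        rintro _ ⟨p, a, ha, rfl⟩ t
        refine ⟨p, (a.1 * q t, a.2 * q t), ?_, by simp [mul_assoc]⟩
        rcases ha with ⟨ρ, hρ, ha⟩ | ⟨ζ, ⟨i, s, rfl⟩, rfl⟩
        · have hρ' : ρ * q t ∈ PreG q r lg := by
            rcases hρ with ⟨s, rfl⟩ | ⟨i, s, rfl⟩
            · exact Or.inl ⟨s * t, by rw [map_mul]⟩
            · exact Or.inr ⟨i, s * t, by rw [map_mul, mul_assoc]⟩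
          refine Or.inl ⟨ρ * q t, hρ', ?_⟩
          rcases ha with rfl | rfl | rfl
          · exact Or.inl rfl
          · exact Or.inr (Or.inl (by simp [mul_assoc]))
          · exact Or.inr (Or.inr (by simp [mul_assoc]))
        · exact Or.inr ⟨wp (lz.take i) * q s * q t, ⟨i, s * t, by rw [map_mul, mul_assoc]⟩,
            by simp [mul_assoc]⟩
      satP := by
        rintro _ ⟨p, a, ha, rfl⟩ p'
        exact ⟨p' * p, a, ha, by simp [mul_assoc]⟩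
      reach := h.reach hlz hlzΓ hc hcC φ hφ hφx
      w := h.w hlz hne hlzΓ hc hcC φ hφ hφx }
  have hN : Γ ⊔ F ≤ PV (Γ ⊔ F) (fV e r lg * wp lz * fV e r lg) := le_sup_left
  obtain ⟨K, hK⟩ := h.kp hz hzB (lz.length + 1)
  obtain ⟨K', hK'⟩ := h.kp hcz hczB (lz.length + 1)
  have key1 : ∀ k ∈ FV φ (AV q e r lg lz c), ∃ p ∈ PV (Γ ⊔ F) (fV e r lg * wp lz * fV e r lg), ∃ s ∈ AS q β Γ e r lg (lz.length + 1),
      k.1 = p * s := by
    rintro _ ⟨p, a, ha, rfl⟩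
    refine ⟨p, p.2, a.1, ?_, rfl⟩
    rcases ha with ⟨ρ, hρ, ha⟩ | ⟨ζ, hζ, rfl⟩
    · refine Or.inl ⟨ρ, hρ, ?_⟩
      rcases ha with rfl | rfl | rfl <;> simp
    · exact Or.inr ⟨ζ, (hlen ζ hζ).1, (hlen ζ hζ).2, rfl⟩
  have key2 : ∀ k ∈ FV φ (AV q e r lg lz c), ∃ p ∈ PV (Γ ⊔ F) (fV e r lg * (c * wp lz) * fV e r lg), ∃ s ∈ AS q β Γ e r lg (lz.length + 1),
      k.2 = p * s := by
    rintro _ ⟨p, a, ha, rfl⟩
    refine ⟨φ p, (φ p).2, a.2, ?_, rfl⟩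
    rcases ha with ⟨ρ, hρ, ha⟩ | ⟨ζ, hζ, rfl⟩
    · refine Or.inl ⟨ρ, hρ, ?_⟩
      rcases ha with rfl | rfl | rfl <;> simp
    · refine Or.inr ⟨c * ζ, Γ.mul_mem hc (hlen ζ hζ).1, ?_, rfl⟩
      refine le_trans (le_of_eq ?_) (hlen ζ hζ).2
      exact hqs.ra.rlen_mul_left (hCB hcC) ζ
  obtain ⟨G', hG1, hG2, i, t, ht, hst, hemb⟩ := ET_two h.st hA hN hφ
    ⟨K, fun u hu a ha b hb ⟨k, hk, x, hx, e1⟩ ⟨k', hk', x', hx', e2⟩ => by
      obtain ⟨p, hp, s, hs, e3⟩ := key1 k hk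
      obtain ⟨p', hp', s', hs', e4⟩ := key1 k' hk'
      exact hK u hu a ha b hb ⟨p, hp, s, hs, x, hx, by rw [e1, e3]⟩
        ⟨p', hp', s', hs', x', hx', by rw [e2, e4]⟩⟩
    ⟨K', fun u hu a ha b hb ⟨k, hk, x, hx, e1⟩ ⟨k', hk', x', hx', e2⟩ => by
      obtain ⟨p, hp, s, hs, e3⟩ := key2 k hk
      obtain ⟨p', hp', s', hs', e4⟩ := key2 k' hk'
      exact hK' u hu a ha b hb ⟨p, hp, s, hs, x, hx, by rw [e1, e3]⟩
        ⟨p', hp', s', hs', x', hx', by rw [e2, e4]⟩⟩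
    (h.v2 hz hzB) (h.v2 hcz hczB) (h.v3 hz hzB hc hcC hc1)
  have hxP : fV e r lg * wp lz * fV e r lg ∈ PV (Γ ⊔ F) (fV e r lg * wp lz * fV e r lg) :=
    Subgroup.mem_sup_right (Subgroup.mem_zpowers _)
  refine ⟨G', hG1, hG2, i, i.comp q, bN i t (FV φ (AV q e r lg lz c)) β,
    F.map i ⊔ Subgroup.zpowers t, t, Subgroup.mem_sup_right (Subgroup.mem_zpowers _), hst, hemb, ?_⟩
  have := ht ⟨fV e r lg * wp lz * fV e r lg, hxP⟩
  rwa [hφx hxP] at this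

end parts

/-- the two conclusions of the main step -/
theorem v14_final {K : Type} [Group K] {E : Subgroup K} {g a z c e t f : K} (he : e ∈ E)
    (ht : t ∈ E) (hf : f = g * e * g⁻¹) (hae : e * a = a * e)
    (hconj : t * (f * z * f) = f * (c * z) * f * t) :
    c ∈ Subgroup.closure ({g * a, z} ∪ (E : Set K)) ∧
      c ∈ Subgroup.normalClosure (comms E ⊤) := by
  have hc : c = f⁻¹ * (t * (f * z * f) * t⁻¹) * f⁻¹ * z⁻¹ := by
    rw [hconj]
    group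
  constructor
  · have hfa : f = g * a * e * (g * a)⁻¹ := by
      rw [hf, mul_assoc g a e, ← hae]
      group
    have h1 : ∀ x ∈ ({g * a, z} ∪ (E : Set K)), x ∈ Subgroup.closure ({g * a, z} ∪ (E : Set K)) :=
      fun x hx => Subgroup.subset_closure hx
    have hga := h1 (g * a) (by simp)
    have hz := h1 z (by simp)
    have he' := h1 e (Or.inr he)
    have ht' := h1 t (Or.inr ht)
    set H := Subgroup.closure ({g * a, z} ∪ (E : Set K)) with hH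
    have hfH : f ∈ H := by
      rw [hfa]
      exact H.mul_mem (H.mul_mem hga he') (H.inv_mem hga)
    rw [hc]
    exact H.mul_mem (H.mul_mem (H.mul_mem (H.inv_mem hfH) (H.mul_mem (H.mul_mem ht'
      (H.mul_mem (H.mul_mem hfH hz) hfH)) (H.inv_mem ht'))) (H.inv_mem hfH)) (H.inv_mem hz)
  · have h1 : ∀ x : K, QuotientGroup.mk' (Subgroup.normalClosure (comms E ⊤)) (t * x * t⁻¹) =
        QuotientGroup.mk' (Subgroup.normalClosure (comms E ⊤)) x := by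
      intro x
      rw [QuotientGroup.mk'_eq_mk']
      refine ⟨(x⁻¹ * (t * x * t⁻¹ * x⁻¹) * x)⁻¹, ?_, by group⟩
      refine Subgroup.inv_mem _ ?_
      have h2 : t * x * t⁻¹ * x⁻¹ ∈ Subgroup.normalClosure (comms E ⊤) :=
        Subgroup.subset_normalClosure ⟨t, ht, x, trivial, rfl⟩
      have h3 := Subgroup.normalClosure_normal.conj_mem _ h2 x⁻¹
      rwa [inv_inv] at h3
    rw [← QuotientGroup.eq_one_iff]
    change QuotientGroup.mk' (Subgroup.normalClosure (comms E ⊤)) c = 1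
    have h2 := h1 (f * z * f)
    rw [hc, map_mul, map_mul, map_mul, h2]
    simp only [map_mul, map_inv]
    group

/-- V14 : the tasks of length 4 -/
theorem step_four (s : St) (g a z c : s.G) :
    ∃ (t : St) (f : SHom s t), Post s t f.f [g, a, z, c] := by
  classical
  by_cases hyp : Nice s.q s.β s.Γ g ∧ a ∈ s.Γ ∧ z ∈ s.Γ ∧ StartsQ s.q s.β z ∧ c ∈ s.Γ ∧
    c ∈ s.β 0 ∧ c ≠ 1
  swap
  · refine ⟨s, ⟨MonoidHom.id _, SEmb.v14id⟩, ?_⟩
    intro h1 h2 h3 h4 h5 h6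
    have h7 : c = 1 := by
      by_contra h
      exact hyp ⟨h1, h2, h3, h4, h5, h6, h⟩
    rw [h7, map_one]
    exact ⟨Subgroup.one_mem _, Subgroup.one_mem _⟩
  obtain ⟨hg, ha, hz, hzs, hc, hcC, hc1⟩ := hyp
  obtain ⟨lz, hlz, hlzne, hlzΓ, rfl⟩ := v14_formZ s.is.qs s.is.QΓ s.is.gen hz hzs
  obtain ⟨G1, hG1, hG1', i1, q1, β1, F, M, e, r, lg, hVC, hemb1, hgV⟩ := v14_partA s.is hg
  obtain ⟨G2, hG2, hG2', i2, q2, β2, E2, t, htE, hst2, hemb2, hconj⟩ := v14_partB hVC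
    (lz := lz.map (Prod.map i1 i1)) (c := i1 c) ((hemb1.emb.rd_iff s.is.qs hVC.st.qs).2 hlz)
    (by simpa using hlzne) (by
      intro p hp
      obtain ⟨p', hp', rfl⟩ := List.mem_map.1 hp
      exact ⟨⟨p'.1, (hlzΓ p' hp').1, rfl⟩, ⟨p'.2, (hlzΓ p' hp').2, rfl⟩⟩)
    ⟨c, hc, rfl⟩ ((hemb1.emb.hβ 0 c).2 hcC) (by
      intro h
      exact hc1 (hemb1.emb.inj (by rw [h, map_one])))
  obtain ⟨G3, hG3, hG3', i3, q3, β3, E3, hst3, hdv, hemb3⟩ := v14_partC hst2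
  have hemb : SEmb (i3.comp (i2.comp i1)) s.q s.β s.Γ s.E q3 β3
      (((s.Γ.map i1).map i2).map i3) E3 := (hemb1.v14comp hemb2).v14comp hemb3
  refine ⟨@St.mk G3 hG3 hG3' q3 β3 (((s.Γ.map i1).map i2).map i3) E3 hst3 hdv,
    ⟨i3.comp (i2.comp i1), hemb⟩, ?_⟩
  intro _ _ _ _ _ _
  have h1 := congrArg i3 hconj
  rw [QEmb.wp_map (f := i1) lz] at h1
  simp only [map_mul] at h1
  have h2 := v14_final (g := i3 (i2 (i1 g))) (a := i3 (i2 (i1 a))) (z := i3 (i2 (i1 (wp lz))))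
    (c := i3 (i2 (i1 c))) (e := i3 (i2 e)) (t := i3 t) (f := i3 (i2 (fV e r lg)))
    (hemb3.hE _ (hemb2.hE _ hVC.eF)) (hemb3.hE _ htE) (by
      rw [fV, hgV]
      simp only [map_mul, map_inv]) (by
      rw [← map_mul, ← map_mul, ← map_mul, ← map_mul, hVC.st.comm e hVC.eF (i1 a) ⟨a, ha, rfl⟩]) h1
  simpa only [MonoidHom.comp_apply, map_mul] using h2

end Pool.Agent.Helper98.AAD
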